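import Pool.Agent.P.MP_6e40fc_al.Defs
import Mathlib

-- part Pool.Agent.P.MP_6e40fc_al.Bridge
section

/-! Bridge between representations and matrices over the group ring. -/

namespace Pool.Agent.P.MP_6e40fc_al

open CategoryTheory Matrix
open scoped MonoidAlgebra

noncomputable section

variable {k G : Type} [CommRing k] [Group G]

/-- action of the group ring on a representation -/
def act (A : Rep.{0} k G) (r : k[G]) (a : A) : A := A.ρ.asAlgebraHom r a

theorem act_sum {ι : Type} (A : Rep.{0} k G) (r : k[G]) (s : Finset ι) (a : ι → A) :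
    act A r (∑ i ∈ s, a i) = ∑ i ∈ s, act A r (a i) := by simp [act]

theorem act_add (A : Rep.{0} k G) (r s : k[G]) (a : A) : act A (r + s) a = act A r a + act A s a := by
  simp [act]

theorem act_mul (A : Rep.{0} k G) (r s : k[G]) (a : A) : act A (r * s) a = act A r (act A s a) := by
  simp [act]

theorem act_one (A : Rep.{0} k G) (a : A) : act A 1 a = a := by simp [act]

theorem act_zero (A : Rep.{0} k G) (a : A) : act A 0 a = 0 := by simp [act]

theorem act_zsmul (A : Rep.{0} k G) (n : k) (r : k[G]) (a : A) :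
    act A (n • r) a = n • act A r a := by
  simp [act]

theorem act_of (A : Rep.{0} k G) (g : G) (a : A) : act A (MonoidAlgebra.of k G g) a = A.ρ g a := by
  simp [act]

theorem hom_act {A B : Rep.{0} k G} (f : A ⟶ B) (r : k[G]) (a : A) :
    f.hom (act A r a) = act B r (f.hom a) :=
  Rep.to_Module_monoidAlgebra_map_aux A.V B.V A.ρ B.ρ f.hom.toLinearMap f.hom.2 r a

theorem act_leftRegular (r : k[G]) (x : k[G]) : act (Rep.leftRegular k G) r x = r * x :=
  Representation.asAlgebraHom_ofMulAction_smul_eq_mul r x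

/-- the free representation on a finite type, on row vectors -/
def freeρ (k G : Type) [CommRing k] [Group G] (ι : Type) : Representation k G (ι → k[G]) where
  toFun g := DistribSMul.toLinearMap k (ι → k[G]) (MonoidAlgebra.of k G g)
  map_one' := by ext; simp [← MonoidAlgebra.one_def]
  map_mul' g h := by
    apply LinearMap.ext; intro x
    change MonoidAlgebra.of k G (g * h) • x = MonoidAlgebra.of k G g • MonoidAlgebra.of k G h • x
    rw [map_mul, mul_smul]

abbrev freeRep (k G : Type) [CommRing k] [Group G] (ι : Type) : Rep.{0} k G := Rep.of (freeρ k G ι)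

theorem freeρ_apply (ι : Type) (g : G) (x : ι → k[G]) :
    freeρ k G ι g x = MonoidAlgebra.of k G g • x := rfl

theorem act_free (ι : Type) (r : k[G]) (x : ι → k[G]) : act (freeRep k G ι) r x = r • x := by
  induction r using MonoidAlgebra.induction_on with
  | of g => rw [act_of]; rfl
  | add r s hr hs => rw [act_add, hr, hs, add_smul]
  | smul n r hr => rw [act_zsmul, hr, smul_assoc]

variable {ι κ : Type} [Fintype ι] [Fintype κ] [DecidableEq ι] [DecidableEq κ]

/-- the morphism out of a free representation with given values on the basis -/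
def homOf (A : Rep.{0} k G) (y : ι → A) : freeRep k G ι ⟶ A :=
  Rep.ofHom (σ := A.ρ) ⟨{ toFun := fun x => ∑ i, act A (x i) (y i)
                          map_add' := fun x x' => by simp [act_add, Finset.sum_add_distrib]
                          map_smul' := fun n x => by simp [act_zsmul, Finset.smul_sum] },
    fun g => by
      apply LinearMap.ext; intro x
      change ∑ i, act A (MonoidAlgebra.of k G g * x i) (y i) = A.ρ g (∑ i, act A (x i) (y i))
      rw [← act_of, act_sum]
      simp only [act_mul]⟩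

omit [DecidableEq ι] in
theorem homOf_apply (A : Rep.{0} k G) (y : ι → A) (x : ι → k[G]) :
    (homOf A y).hom x = ∑ i, act A (x i) (y i) := rfl

theorem homOf_single (A : Rep.{0} k G) (y : ι → A) (i : ι) :
    (homOf A y).hom (Pi.single i 1) = y i := by
  rw [homOf_apply, Finset.sum_eq_single i]
  · simp [act_one]
  · intro j _ hj; simp [Pi.single_eq_of_ne hj, act_zero]
  · simp

theorem hom_free_apply {A : Rep.{0} k G} (f : freeRep k G ι ⟶ A) (x : ι → k[G]) :
    f.hom x = ∑ i, act A (x i) (f.hom (Pi.single i 1)) := by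
  have : x = ∑ i, act (freeRep k G ι) (x i) (Pi.single i 1) := by
    simp only [act_free]
    ext1 j
    simp [Finset.sum_apply, Pi.single_apply]
  conv_lhs => rw [this, map_sum]
  exact Finset.sum_congr rfl fun i _ => hom_act f _ _

theorem free_ext {A : Rep.{0} k G} {f g : freeRep k G ι ⟶ A}
    (h : ∀ i, f.hom (Pi.single i 1) = g.hom (Pi.single i 1)) : f = g := by
  ext1
  apply Representation.IntertwiningMap.ext
  apply LinearMap.ext
  intro x
  change f.hom x = g.hom x
  rw [hom_free_apply f, hom_free_apply g]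
  simp only [h]

instance free_projective : Projective (freeRep k G ι) where
  factors {E X} f e he := by
    have hs := (Rep.epi_iff_surjective e).1 he
    choose y hy using fun i => hs (f.hom (Pi.single i 1))
    refine ⟨homOf E y, free_ext fun i => ?_⟩
    change e.hom ((homOf E y).hom _) = _
    rw [homOf_single, hy]

/-- the morphism of free representations given by right multiplication with a matrix -/
def matHom (D : Matrix ι κ (k[G])) : freeRep k G ι ⟶ freeRep k G κ := homOf (freeRep k G κ) D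

omit [DecidableEq ι] [Fintype κ] [DecidableEq κ] in
theorem matHom_apply (D : Matrix ι κ (k[G])) (x : ι → k[G]) : (matHom D).hom x = x ᵥ* D := by
  rw [matHom, homOf_apply]
  simp only [act_free]
  ext1 j
  simp [Finset.sum_apply, vecMul, dotProduct]

/-- the morphism to the regular representation given by a column vector -/
def colHom (y : ι → k[G]) : freeRep k G ι ⟶ Rep.leftRegular k G := homOf (Rep.leftRegular k G) y

omit [DecidableEq ι] in
theorem colHom_apply (y x : ι → k[G]) : (colHom y).hom x = x ⬝ᵥ y := by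
  rw [colHom, homOf_apply]
  simp only [act_leftRegular]
  rfl

end

end Pool.Agent.P.MP_6e40fc_al
end

-- part Pool.Agent.P.MP_6e40fc_al.Coh
section

/-! Elementwise description of resolutions and of group cohomology. -/

namespace Pool.Agent.P.MP_6e40fc_al

open CategoryTheory Matrix Limits
open scoped MonoidAlgebra

noncomputable section

variable {k G : Type} [CommRing k] [Group G]

theorem rep_exact_iff (S : ShortComplex (Rep.{0} k G)) :
    S.Exact ↔ ∀ x : S.X₂, S.g.hom x = 0 → ∃ y : S.X₁, S.f.hom y = x := by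
  rw [← S.exact_map_iff_of_faithful (forget₂ _ (ModuleCat k)), ShortComplex.moduleCat_exact_iff]
  rfl

variable (P : ProjectiveResolution (Rep.trivial k G k)) (A : Rep.{0} k G)

theorem coh_succ_zero_iff (i : ℕ) :
    IsZero (groupCohomology A (i + 1)) ↔ ∀ f : P.complex.X (i + 1) ⟶ A,
      P.complex.d (i + 2) (i + 1) ≫ f = 0 → ∃ g : P.complex.X i ⟶ A, P.complex.d (i + 1) i ≫ g = f := by
  rw [(groupCohomologyIso A (i + 1) P).isZero_iff, ← HomologicalComplex.exactAt_iff_isZero_homology,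
    HomologicalComplex.exactAt_iff' _ i (i + 1) (i + 2) (by simp) (by simp),
    ShortComplex.moduleCat_exact_iff]
  rfl

theorem coh_zero_zero_iff :
    IsZero (groupCohomology A 0) ↔ ∀ f : P.complex.X 0 ⟶ A,
      P.complex.d 1 0 ≫ f = 0 → f = 0 := by
  rw [(groupCohomologyIso A 0 P).isZero_iff, ← HomologicalComplex.exactAt_iff_isZero_homology,
    HomologicalComplex.exactAt_iff' _ 0 0 1 (by simp) (by simp),
    ShortComplex.moduleCat_exact_iff]
  constructor
  · intro h f hf
    obtain ⟨g, hg⟩ := h f hf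
    rw [← hg]
    change P.complex.d 0 0 ≫ g = 0
    simp
  · intro h f hf
    refine ⟨0, ?_⟩
    rw [map_zero]
    exact (h f hf).symm

theorem coh_equiv_iff (i : ℕ) :
    Nonempty (groupCohomology A (i + 1) ≃+ ℤ) ↔
      ∃ α : (P.complex.X (i + 1) ⟶ A) → ℤ,
        (∀ f g, P.complex.d (i + 2) (i + 1) ≫ f = 0 → P.complex.d (i + 2) (i + 1) ≫ g = 0 →
          α (f + g) = α f + α g) ∧
        (∀ n : ℤ, ∃ f, P.complex.d (i + 2) (i + 1) ≫ f = 0 ∧ α f = n) ∧
        (∀ f, P.complex.d (i + 2) (i + 1) ≫ f = 0 →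
          (α f = 0 ↔ ∃ g : P.complex.X i ⟶ A, P.complex.d (i + 1) i ≫ g = f)) := by
  let S := (P.complex.linearYonedaObj k A).sc' i (i + 1) (i + 2)
  let e : groupCohomology A (i + 1) ≅ S.moduleCatLeftHomologyData.H :=
    groupCohomologyIso A (i + 1) P ≪≫
      (P.complex.linearYonedaObj k A).homologyIsoSc' i (i + 1) (i + 2) (by simp) (by simp) ≪≫
      S.moduleCatHomologyIso
  let e' : groupCohomology A (i + 1) ≃+
      (LinearMap.ker S.g.hom ⧸ LinearMap.range S.moduleCatToCycles) := e.toLinearEquiv.toAddEquiv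
  have hmem : ∀ f : P.complex.X (i + 1) ⟶ A,
      P.complex.d (i + 2) (i + 1) ≫ f = 0 ↔ f ∈ LinearMap.ker S.g.hom := fun f => Iff.rfl
  have hr : ∀ f : LinearMap.ker S.g.hom, f ∈ LinearMap.range S.moduleCatToCycles ↔
      ∃ g : P.complex.X i ⟶ A, P.complex.d (i + 1) i ≫ g = f.1 := by
    intro f
    constructor
    · rintro ⟨g, rfl⟩; exact ⟨g, rfl⟩
    · rintro ⟨g, hg⟩; exact ⟨g, Subtype.ext hg⟩
  constructor
  · rintro ⟨φ⟩
    classical
    let ψ := e'.symm.trans φ
    refine ⟨fun f => if h : P.complex.d (i + 2) (i + 1) ≫ f = 0 then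
      ψ (Submodule.Quotient.mk ⟨f, (hmem f).1 h⟩) else 0, ?_, ?_, ?_⟩
    · intro f g hf hg
      have hfg : P.complex.d (i + 2) (i + 1) ≫ (f + g) = 0 := by
        rw [Preadditive.comp_add, hf, hg, add_zero]
      simp only [dif_pos hf, dif_pos hg, dif_pos hfg]
      rw [← map_add, ← Submodule.Quotient.mk_add]
      rfl
    · intro n
      obtain ⟨q, hq⟩ := ψ.surjective n
      obtain ⟨⟨f, hf⟩, rfl⟩ := Submodule.Quotient.mk_surjective _ q
      exact ⟨f, (hmem f).2 hf, by simp only [dif_pos ((hmem f).2 hf)]; exact hq⟩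
    · intro f hf
      simp only [dif_pos hf]
      rw [map_eq_zero_iff _ ψ.injective, Submodule.Quotient.mk_eq_zero, hr]
  · rintro ⟨α, h1, h2, h3⟩
    let β : LinearMap.ker S.g.hom →+ ℤ := AddMonoidHom.mk' (fun f => α f.1)
      fun f g => h1 _ _ ((hmem _).2 f.2) ((hmem _).2 g.2)
    have hβ : Function.Surjective β := fun n => by
      obtain ⟨f, hf, hn⟩ := h2 n
      exact ⟨⟨f, (hmem f).1 hf⟩, hn⟩
    have hker : β.ker = (LinearMap.range S.moduleCatToCycles).toAddSubgroup := by
      ext f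
      rw [AddMonoidHom.mem_ker, Submodule.mem_toAddSubgroup, hr]
      exact h3 f.1 ((hmem _).2 f.2)
    exact ⟨e'.trans ((QuotientAddGroup.quotientAddEquivOfEq hker.symm).trans
      (QuotientAddGroup.quotientKerEquivOfSurjective β hβ))⟩

end

end Pool.Agent.P.MP_6e40fc_al
end

-- part Pool.Agent.P.MP_6e40fc_al.Build
section

/-! From an explicit complex of matrices to the PD property. -/

namespace Pool.Agent.P.MP_6e40fc_al

open CategoryTheory Matrix Limits
open scoped MonoidAlgebra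

noncomputable section

variable {k G : Type} [CommRing k] [Group G]

/-- augmentation -/
def aug (k G : Type) [CommRing k] [Group G] : k[G] →ₐ[k] k := MonoidAlgebra.lift k k G 1

@[simp] theorem aug_of (g : G) : aug k G (MonoidAlgebra.of k G g) = 1 := by simp [aug]

theorem act_trivial (r : k[G]) (a : k) : act (Rep.trivial k G k) r a = aug k G r * a := by
  induction r using MonoidAlgebra.induction_on with
  | of g => rw [act_of, aug_of, one_mul]; rfl
  | add r s hr hs => rw [act_add, hr, hs, map_add, add_mul]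
  | smul n r hr => rw [act_zsmul, hr, map_smul, smul_eq_mul, smul_eq_mul, mul_assoc]

variable {ι κ : Type} [Fintype ι] [Fintype κ] [DecidableEq ι] [DecidableEq κ]

theorem eq_colHom (f : freeRep k G ι ⟶ Rep.leftRegular k G) :
    f = colHom (fun i => f.hom (Pi.single i 1)) :=
  free_ext fun i => by rw [colHom, homOf_single]

omit [DecidableEq κ] in
theorem matHom_comp_colHom (D : Matrix ι κ k[G]) (y : κ → k[G]) :
    matHom D ≫ colHom y = colHom (D *ᵥ y) :=
  free_ext fun i => by
    change (colHom y).hom ((matHom D).hom _) = _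
    rw [matHom_apply, colHom_apply, colHom_apply, dotProduct_mulVec]

theorem colHom_inj {y y' : ι → k[G]} (h : colHom y = colHom y') : y = y' := by
  funext i
  have := congrArg (fun f : freeRep k G ι ⟶ Rep.leftRegular k G => f.hom (Pi.single i 1)) h
  exact (homOf_single (Rep.leftRegular k G) y i).symm.trans
    (this.trans (homOf_single (Rep.leftRegular k G) y' i))

theorem colHom_zero : colHom (0 : ι → k[G]) = 0 :=
  free_ext fun i => by rw [colHom, homOf_single]; rfl

theorem colHom_add (y y' : ι → k[G]) : colHom (y + y') = colHom y + colHom y' :=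
  free_ext fun i => by
    change _ = (colHom y).hom _ + (colHom y').hom _
    exact (homOf_single (Rep.leftRegular k G) (y + y') i).trans (congrArg₂ (· + ·)
      (homOf_single (Rep.leftRegular k G) y i).symm (homOf_single (Rep.leftRegular k G) y' i).symm)

omit [DecidableEq ι] in
theorem finite_of_surjective (A : Rep.{0} k G) (y : ι → A)
    (h : Function.Surjective (homOf A y).hom) :
    Module.Finite k[G] (Rep.toModuleMonoidAlgebra.obj A) := by
  let l : (ι → k[G]) →ₗ[k[G]] (Rep.toModuleMonoidAlgebra.obj A) :=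
    { toFun := fun x => (homOf A y).hom x
      map_add' := fun x x' => map_add _ _ _
      map_smul' := fun r x => by
        rw [← act_free, hom_act]; rfl }
  exact Module.Finite.of_surjective l h

theorem exists_surjective_of_finite (A : Rep.{0} k G)
    (h : Module.Finite k[G] (Rep.toModuleMonoidAlgebra.obj A)) :
    ∃ (n : ℕ) (y : Fin n → A), Function.Surjective (homOf A y).hom := by
  obtain ⟨n, l, hl⟩ := Module.Finite.exists_fin' k[G] (Rep.toModuleMonoidAlgebra.obj A)
  refine ⟨n, fun i => l (Pi.single i 1), fun a => ?_⟩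
  obtain ⟨x, hx⟩ := hl a
  refine ⟨x, ?_⟩
  rw [homOf_apply, ← hx]
  have : x = ∑ i, x i • (Pi.single i 1 : Fin n → k[G]) := by
    ext1 j
    simp [Finset.sum_apply, Pi.single_apply]
  conv_rhs => rw [this, map_sum]
  exact Finset.sum_congr rfl fun i _ => by rw [map_smul]; rfl

variable (m : ℕ → ℕ) (d : ∀ n, Matrix (Fin (m (n + 1))) (Fin (m n)) k[G])
  (hdd : ∀ n, d (n + 1) * d n = 0)

/-- the chain complex of free representations given by matrices -/
def matComplex : ChainComplex (Rep.{0} k G) ℕ :=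
  ChainComplex.of (fun n => freeRep k G (Fin (m n))) (fun n => matHom (d n)) fun n =>
    free_ext fun i => by
      change (matHom (d n)).hom ((matHom (d (n + 1))).hom _) = 0
      rw [matHom_apply, matHom_apply, vecMul_vecMul, hdd, vecMul_zero]

theorem matComplex_d (n : ℕ) : (matComplex m d hdd).d (n + 1) n = matHom (d n) :=
  ChainComplex.of_d (fun n => freeRep k G (Fin (m n))) (fun n => matHom (d n)) n

theorem matComplex_d_apply (n : ℕ) (x : Fin (m (n + 1)) → k[G]) :
    ((matComplex m d hdd).d (n + 1) n).hom x = x ᵥ* d n := by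
  rw [matComplex_d]; exact matHom_apply _ _

theorem matComplex_d_comp (n : ℕ) (y : Fin (m n) → k[G]) :
    (matComplex m d hdd).d (n + 1) n ≫ colHom y = colHom (d n *ᵥ y) := by
  rw [matComplex_d]; exact matHom_comp_colHom _ _

variable (c : Fin (m 0) → k)
  (h0 : ∀ x : Fin (m 0) → k[G], ∑ i, aug k G (x i) * c i = 0 ↔ ∃ y, y ᵥ* d 0 = x)
  (hs : ∀ a : k, ∃ x : Fin (m 0) → k[G], ∑ i, aug k G (x i) * c i = a)
  (hrow : ∀ n x, x ᵥ* d n = 0 → ∃ y, y ᵥ* d (n + 1) = x)

theorem homOf_trivial (x : Fin (m 0) → k[G]) :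
    (homOf (Rep.trivial k G k) c).hom x = ∑ i, aug k G (x i) * c i := by
  rw [homOf_apply]
  exact Finset.sum_congr rfl fun i _ => act_trivial _ _

/-- augmentation of the complex -/
def matπ : matComplex m d hdd ⟶ (ChainComplex.single₀ (Rep k G)).obj (Rep.trivial k G k) :=
  ((matComplex m d hdd).toSingle₀Equiv _).symm ⟨homOf (Rep.trivial k G k) c, by
    rw [matComplex_d]
    refine free_ext fun i => ?_
    change (homOf (Rep.trivial k G k) c).hom ((matHom (d 0)).hom _) = 0
    rw [homOf_trivial, matHom_apply]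
    exact (h0 _).2 ⟨_, rfl⟩⟩

include hs hrow in
set_option backward.defeqAttrib.useBackward true in
set_option backward.isDefEq.respectTransparency false in
theorem matπ_quasiIso : QuasiIso (matπ m d hdd c h0) where
  quasiIsoAt n := by
    have hπ : (matπ m d hdd c h0).f 0 = homOf (Rep.trivial k G k) c := by
      simp [matπ, ChainComplex.toSingle₀Equiv]
    have hπ' : ∀ x : Fin (m 0) → k[G],
        ((matπ m d hdd c h0).f 0).hom x = ∑ i, aug k G (x i) * c i := fun x => by
      rw [hπ]; exact homOf_trivial m c x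
    induction n with
    | zero =>
      rw [ChainComplex.quasiIsoAt₀_iff, ShortComplex.quasiIso_iff_of_zeros' _ rfl rfl rfl]
      constructor
      · rw [rep_exact_iff]
        intro x hx
        have hx' : ((matπ m d hdd c h0).f 0).hom x = 0 := hx
        obtain ⟨y, hy⟩ := (h0 x).1 ((hπ' x).symm.trans hx')
        exact ⟨y, (matComplex_d_apply m d hdd 0 y).trans hy⟩
      · rw [Rep.epi_iff_surjective]
        intro a
        obtain ⟨x, hx⟩ := hs a
        exact ⟨x, (hπ' x).trans hx⟩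
    | succ n _ =>
      rw [quasiIsoAt_iff_exactAt' (hL := ChainComplex.exactAt_succ_single_obj ..),
          HomologicalComplex.exactAt_iff' _ (n + 2) (n + 1) n (by simp) (by simp), rep_exact_iff]
      intro x hx
      have hx' : ((matComplex m d hdd).d (n + 1) n).hom x = 0 := hx
      obtain ⟨y, hy⟩ := hrow n x ((matComplex_d_apply m d hdd n x).symm.trans hx')
      exact ⟨y, (matComplex_d_apply m d hdd (n + 1) y).trans hy⟩

/-- the projective resolution given by matrices -/
def matRes : ProjectiveResolution (Rep.trivial k G k) where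
  complex := matComplex m d hdd
  projective n := inferInstanceAs <| Projective (freeRep k G (Fin (m n)))
  π := matπ m d hdd c h0
  quasiIso := matπ_quasiIso m d hdd c h0 hs hrow

end

theorem isPD_of_matrices {G : Type} [Group G] (N : ℕ) (m : ℕ → ℕ)
    (d : ∀ n, Matrix (Fin (m (n + 1))) (Fin (m n)) ℤ[G])
    (hdd : ∀ n, d (n + 1) * d n = 0) (c : Fin (m 0) → ℤ)
    (h0 : ∀ x : Fin (m 0) → ℤ[G], ∑ i, aug ℤ G (x i) * c i = 0 ↔ ∃ y, y ᵥ* d 0 = x)
    (hs : ∀ a : ℤ, ∃ x : Fin (m 0) → ℤ[G], ∑ i, aug ℤ G (x i) * c i = a)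
    (hrow : ∀ n x, x ᵥ* d n = 0 → ∃ y, y ᵥ* d (n + 1) = x)
    (hm : ∀ n, N + 1 < n → m n = 0)
    (hcol0 : ∀ y, d 0 *ᵥ y = 0 → y = 0)
    (hcol : ∀ n, n ≠ N → ∀ y, d (n + 1) *ᵥ y = 0 → ∃ z, d n *ᵥ z = y)
    (α : (Fin (m (N + 1)) → ℤ[G]) →+ ℤ) (hα : Function.Surjective α)
    (hα' : ∀ y, α y = 0 ↔ ∃ z, d N *ᵥ z = y) : IsPD (N + 1) G := by
  let P := matRes m d hdd c h0 hs hrow
  have hd : ∀ n (y : Fin (m n) → ℤ[G]), P.complex.d (n + 1) n ≫ colHom y = colHom (d n *ᵥ y) :=
    matComplex_d_comp m d hdd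
  have hf : ∀ n (f : P.complex.X n ⟶ Rep.leftRegular ℤ G), ∃ y : Fin (m n) → ℤ[G], f = colHom y :=
    fun n f => ⟨_, eq_colHom f⟩
  refine ⟨⟨P, fun n => ?_, N + 1, fun n hn => ?_⟩, fun i hi => ?_, ?_⟩
  · refine finite_of_surjective (freeRep ℤ G (Fin (m n))) (1 : Matrix _ _ ℤ[G]) fun x => ⟨x, ?_⟩
    exact (matHom_apply _ x).trans (vecMul_one x)
  · rw [Rep.isZero_iff]
    change Subsingleton (Fin (m n) → ℤ[G])
    rw [hm n hn]
    infer_instance
  · cases i with
    | zero =>
      rw [coh_zero_zero_iff P]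
      intro f h
      obtain ⟨y, rfl⟩ := hf _ f
      rw [hcol0 y (colHom_inj ((hd 0 y).symm.trans (h.trans colHom_zero.symm)))]
      exact colHom_zero
    | succ i =>
      rw [coh_succ_zero_iff P]
      intro f h
      obtain ⟨y, rfl⟩ := hf _ f
      obtain ⟨z, hz⟩ := hcol i (by omega) y
        (colHom_inj ((hd (i + 1) y).symm.trans (h.trans colHom_zero.symm)))
      exact ⟨colHom z, (hd i z).trans (congrArg colHom hz)⟩
  · rw [coh_equiv_iff P]
    have hz : ∀ f : P.complex.X (N + 1) ⟶ Rep.leftRegular ℤ G,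
        P.complex.d (N + 2) (N + 1) ≫ f = 0 := by
      intro f
      refine free_ext fun i => ?_
      exact absurd i.2 (by have := hm (N + 2) (by omega); omega)
    have hy : ∀ y : Fin (m (N + 1)) → ℤ[G], (fun i => (colHom y).hom (Pi.single i 1)) = y :=
      fun y => funext fun i => homOf_single (Rep.leftRegular ℤ G) y i
    refine ⟨fun f => α (fun i => f.hom (Pi.single i 1)), fun f g _ _ => ?_, fun n => ?_,
      fun f _ => ?_⟩
    · rw [← map_add]; rfl
    · obtain ⟨y, h⟩ := hα n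
      exact ⟨colHom y, hz _, (congrArg α (hy y)).trans h⟩
    · obtain ⟨y, rfl⟩ := hf _ f
      refine Iff.trans (Eq.congr_left (congrArg α (hy y))) ((hα' y).trans ?_)
      constructor
      · rintro ⟨z, hz⟩
        exact ⟨colHom z, (hd N z).trans (congrArg colHom hz)⟩
      · rintro ⟨g, hg⟩
        obtain ⟨z, rfl⟩ := hf _ g
        exact ⟨z, colHom_inj ((hd N z).symm.trans hg)⟩

end Pool.Agent.P.MP_6e40fc_al
end

-- part Pool.Agent.P.MP_6e40fc_al.GR
section

/-! Group ring utilities, derivations, ascending HNN extensions. -/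

namespace Pool.Agent.P.MP_6e40fc_al

open scoped MonoidAlgebra

noncomputable section

variable {G : Type} [Group G]

/-- a group element in the integral group ring -/
def o (g : G) : ℤ[G] := MonoidAlgebra.of ℤ G g

theorem o_mul (g h : G) : o g * o h = o (g * h) := (map_mul (MonoidAlgebra.of ℤ G) g h).symm

@[simp] theorem o_one : o (1 : G) = 1 := map_one (MonoidAlgebra.of ℤ G)

theorem mul_o_mul (x : ℤ[G]) (g h : G) : x * o g * o h = x * o (g * h) := by
  rw [mul_assoc, o_mul]

theorem o_mul_mul (x : ℤ[G]) (g h : G) : o g * (o h * x) = o (g * h) * x := by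
  rw [← mul_assoc, o_mul]

@[simp] theorem aug_o (g : G) : aug ℤ G (o g) = 1 := aug_of g

theorem zg_induction {motive : ℤ[G] → Prop} (x : ℤ[G]) (ho : ∀ g, motive (o g))
    (hadd : ∀ x y, motive x → motive y → motive (x + y))
    (hsmul : ∀ (n : ℤ) x, motive x → motive (n • x)) : motive x :=
  MonoidAlgebra.induction_on x ho hadd hsmul

theorem addHom_ext {M : Type*} [AddCommGroup M] {f g : ℤ[G] →+ M} (h : ∀ a, f (o a) = g (o a)) :
    f = g := by
  refine AddMonoidHom.ext fun x => ?_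
  induction x using zg_induction with
  | ho a => exact h a
  | hadd x y hx hy => rw [map_add, map_add, hx, hy]
  | hsmul n x hx => rw [map_zsmul, map_zsmul, hx]

/-- additive extension of a function on the group -/
def extAdd {M : Type*} [AddCommGroup M] (f : G → M) : ℤ[G] →+ M :=
  ((Finsupp.linearCombination ℤ f) ∘ₗ (MonoidAlgebra.coeffLinearEquiv ℤ).toLinearMap).toAddMonoidHom

@[simp] theorem extAdd_o {M : Type*} [AddCommGroup M] (f : G → M) (g : G) :
    extAdd f (o g) = f g := by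
  simp [extAdd, o]

theorem eq_zero_of_mul_o_add (χ : G →* Multiplicative ℤ) (a : G) (ha : χ a = Multiplicative.ofAdd 1)
    (e : ℤ) (x : ℤ[G]) (h : x * o a + e • x = 0) : x = 0 := by
  by_contra hx
  have hne : x.coeff.support.Nonempty := by
    rw [Finsupp.support_nonempty_iff]
    intro h0
    exact hx (MonoidAlgebra.coeff_injective (by simpa using h0))
  obtain ⟨g, hg, hmax⟩ := Finset.exists_max_image _ (fun g => (χ g).toAdd) hne
  have h1 : x.coeff (g * a) = 0 := by
    by_contra hc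
    have := hmax (g * a) (Finsupp.mem_support_iff.2 hc)
    simp [ha] at this
  have h2 := congrArg (fun y : ℤ[G] => y.coeff (g * a)) h
  simp only [o, MonoidAlgebra.of_apply, MonoidAlgebra.coeff_add, MonoidAlgebra.coeff_smul,
    Finsupp.add_apply, Finsupp.smul_apply, MonoidAlgebra.coeff_mul_single_mul, h1, mul_one,
    smul_zero, add_zero, MonoidAlgebra.coeff_zero, Finsupp.zero_apply] at h2
  exact Finsupp.mem_support_iff.1 hg h2

/-- the twisted involution of the group ring -/
def conj (w : G →* ℤˣ) : ℤ[G] →+ ℤ[G] := extAdd fun g => (w g : ℤ) • o g⁻¹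

theorem conj_o (w : G →* ℤˣ) (g : G) : conj w (o g) = (w g : ℤ) • o g⁻¹ := extAdd_o _ _

theorem conj_one (w : G →* ℤˣ) : conj w 1 = 1 := by
  rw [← o_one, conj_o]; simp

theorem conj_mul (w : G →* ℤˣ) (x y : ℤ[G]) : conj w (x * y) = conj w y * conj w x := by
  induction x using zg_induction with
  | ho a =>
    induction y using zg_induction with
    | ho b =>
      rw [o_mul, conj_o, conj_o, conj_o, smul_mul_smul_comm, o_mul, map_mul, mul_inv_rev,
        Units.val_mul, mul_comm]
    | hadd x y hx hy => rw [mul_add, map_add, map_add, hx, hy, add_mul]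
    | hsmul n x hx => rw [mul_smul_comm, map_zsmul, map_zsmul, hx, smul_mul_assoc]
  | hadd x z hx hz => rw [add_mul, map_add, map_add, hx, hz, mul_add]
  | hsmul n x hx => rw [smul_mul_assoc, map_zsmul, map_zsmul, hx, mul_smul_comm]

theorem conj_conj (w : G →* ℤˣ) (x : ℤ[G]) : conj w (conj w x) = x := by
  induction x using zg_induction with
  | ho a =>
    rw [conj_o, map_zsmul, conj_o, smul_smul, inv_inv, ← Units.val_mul, ← map_mul]
    simp
  | hadd x y hx hy => rw [map_add, map_add, hx, hy]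
  | hsmul n x hx => rw [map_zsmul, map_zsmul, hx]

theorem conj_eq_zero (w : G →* ℤˣ) {x : ℤ[G]} (h : conj w x = 0) : x = 0 := by
  rw [← conj_conj w x, h, map_zero]

/-- `g - 1` lies in the left ideal generated by the `s - 1`. -/
theorem o_sub_one_mem (J : Submodule ℤ[G] ℤ[G]) (S : Set G) (hS : ∀ s ∈ S, o s - 1 ∈ J) {g : G}
    (hg : g ∈ Subgroup.closure S) : o g - 1 ∈ J := by
  induction hg using Subgroup.closure_induction with
  | mem s hs => exact hS s hs
  | one => simp
  | mul g h _ _ hg hh =>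
    have : o (g * h) - 1 = o g • (o h - 1) + (o g - 1) := by
      rw [smul_eq_mul, mul_sub, o_mul, mul_one]; abel
    rw [this]
    exact J.add_mem (J.smul_mem _ hh) hg
  | inv g _ hg =>
    have : o g⁻¹ - 1 = -(o g⁻¹ • (o g - 1)) := by
      rw [smul_eq_mul, mul_sub, o_mul, mul_one]; simp
    rw [this]
    exact J.neg_mem (J.smul_mem _ hg)

theorem sub_aug_mem (J : Submodule ℤ[G] ℤ[G]) (hJ : ∀ g, o g - 1 ∈ J) (x : ℤ[G]) :
    x - (aug ℤ G x) • 1 ∈ J := by
  induction x using zg_induction with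
  | ho a => simpa using hJ a
  | hadd x y hx hy =>
    have := J.add_mem hx hy
    rw [map_add, add_smul]
    convert this using 1
    abel
  | hsmul n x hx =>
    have := J.toAddSubgroup.zsmul_mem hx n
    rw [map_zsmul, smul_assoc, ← smul_sub]
    exact this

/-- affine group of a representation -/
@[ext] structure Aff {M : Type} [AddCommGroup M] (ρ : G →* AddMonoid.End M) where
  m : M
  g : G

instance {M : Type} [AddCommGroup M] (ρ : G →* AddMonoid.End M) : Group (Aff ρ) where
  mul x y := ⟨x.m + ρ x.g y.m, x.g * y.g⟩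
  one := ⟨0, 1⟩
  inv x := ⟨-ρ x.g⁻¹ x.m, x.g⁻¹⟩
  mul_assoc x y z := Aff.ext (by
    change x.m + ρ x.g y.m + ρ (x.g * y.g) z.m = x.m + ρ x.g (y.m + ρ y.g z.m)
    rw [map_mul, map_add, add_assoc]; rfl) (mul_assoc _ _ _)
  one_mul x := Aff.ext (by change 0 + ρ 1 x.m = x.m; simp) (one_mul _)
  mul_one x := Aff.ext (by change x.m + ρ x.g 0 = x.m; simp) (mul_one _)
  inv_mul_cancel x := Aff.ext (by change -ρ x.g⁻¹ x.m + ρ x.g⁻¹ x.m = 0; simp) (inv_mul_cancel _)

theorem Aff.mul_m {M : Type} [AddCommGroup M] {ρ : G →* AddMonoid.End M} (x y : Aff ρ) :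
    (x * y).m = x.m + ρ x.g y.m := rfl

theorem Aff.mul_g {M : Type} [AddCommGroup M] {ρ : G →* AddMonoid.End M} (x y : Aff ρ) :
    (x * y).g = x.g * y.g := rfl

/-- projection to the group -/
def Aff.proj {M : Type} [AddCommGroup M] (ρ : G →* AddMonoid.End M) : Aff ρ →* G where
  toFun x := x.g
  map_one' := rfl
  map_mul' _ _ := rfl

section HNN

variable {H : Type} [Group H] (φ : H →* H) (hφ : Function.Injective φ)

theorem hnn_conj (h : H) :
    (HNNExtension.t : AscHNN H φ hφ) * HNNExtension.of h * HNNExtension.t⁻¹ =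
      HNNExtension.of (φ h) :=
  (HNNExtension.equiv_eq_conj (φ := Subgroup.topEquiv.trans (MonoidHom.ofInjective hφ))
    ⟨h, trivial⟩).symm

theorem hnn_pow_conj (n : ℕ) (h : H) :
    (HNNExtension.t : AscHNN H φ hφ) ^ n * HNNExtension.of h =
      HNNExtension.of (φ^[n] h) * HNNExtension.t ^ n := by
  induction n with
  | zero => simp
  | succ n ih =>
    rw [pow_succ', mul_assoc, ih, Function.iterate_succ_apply', ← hnn_conj]
    group

theorem hnn_normal_form (g : AscHNN H φ hφ) :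
    ∃ (m n : ℕ) (h : H), g = (HNNExtension.t ^ m)⁻¹ * HNNExtension.of h * HNNExtension.t ^ n := by
  induction g using HNNExtension.induction_on with
  | of h => exact ⟨0, 0, h, by simp⟩
  | t => exact ⟨0, 1, 1, by simp⟩
  | mul x y hx hy =>
    obtain ⟨m, n, h, rfl⟩ := hx
    obtain ⟨m', n', h', rfl⟩ := hy
    refine ⟨m + m', n + n', φ^[m'] h * φ^[n] h', ?_⟩
    have e1 := hnn_pow_conj φ hφ m' h
    have e2 := hnn_pow_conj φ hφ n h'
    rw [map_mul, ← mul_inv_eq_iff_eq_mul.2 e1, ← mul_inv_eq_iff_eq_mul.2 e2]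
    group
  | inv x hx =>
    obtain ⟨m, n, h, rfl⟩ := hx
    exact ⟨n, m, h⁻¹, by rw [map_inv]; group⟩

/-- the exponent sum of the stable letter -/
def hnnχ : AscHNN H φ hφ →* Multiplicative ℤ :=
  HNNExtension.lift 1 (Multiplicative.ofAdd 1) (by simp)

theorem hnnχ_t : hnnχ φ hφ HNNExtension.t = Multiplicative.ofAdd 1 := HNNExtension.lift_t _ _ _

theorem hnnχ_of (h : H) : hnnχ φ hφ (HNNExtension.of h) = 1 := HNNExtension.lift_of _ _ _ _

end HNN

/-- recognition of ascending HNN extensions -/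
theorem exists_equiv_ascHNN (t : G) (H : Subgroup G) (χ : G →* Multiplicative ℤ)
    (ht : χ t = Multiplicative.ofAdd 1) (hH : ∀ h ∈ H, χ h = 1)
    (hc : ∀ h ∈ H, t * h * t⁻¹ ∈ H) (hK : ∀ g, χ g = 1 → ∃ n : ℕ, t ^ n * g * (t ^ n)⁻¹ ∈ H)
    (x : G) (hx : x ∈ H) (hx' : t⁻¹ * x * t ∉ H) :
    ∃ (φ : H →* H) (hφ : Function.Injective φ), ¬ Function.Surjective φ ∧
      Nonempty (G ≃* AscHNN H φ hφ) := by
  let φ : H →* H := ((MulAut.conj t).toMonoidHom.comp H.subtype).codRestrict H
    fun h => hc h h.2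
  have hφc : ∀ h : H, (φ h : G) = t * h * t⁻¹ := fun h => rfl
  have hφ : Function.Injective φ := by
    intro h h' e
    have := congrArg Subtype.val e
    rw [hφc, hφc] at this
    exact Subtype.ext (by simpa using this)
  refine ⟨φ, hφ, fun hs => hx' ?_, ?_⟩
  · obtain ⟨h, hh⟩ := hs ⟨x, hx⟩
    have := congrArg Subtype.val hh
    rw [hφc] at this
    change t * h * t⁻¹ = x at this
    rw [← this]
    simp [mul_assoc]
  let Φ : AscHNN H φ hφ →* G := HNNExtension.lift H.subtype t fun a => by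
    change t * (a.1 : G) = (φ a.1 : G) * t
    rw [hφc]; simp
  have Φt : Φ HNNExtension.t = t := HNNExtension.lift_t _ _ _
  have Φof : ∀ h : H, Φ (HNNExtension.of h) = h := fun h => HNNExtension.lift_of _ _ _ _
  refine ⟨(MulEquiv.ofBijective Φ ⟨(injective_iff_map_eq_one Φ).2 fun g hg => ?_, fun g => ?_⟩).symm⟩
  · obtain ⟨m, n, h, rfl⟩ := hnn_normal_form φ hφ g
    simp only [map_mul, map_inv, map_pow, Φt, Φof] at hg
    have h1 := congrArg (fun g => (χ g).toAdd) hg
    simp [ht, hH h h.2] at h1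
    obtain rfl : m = n := by omega
    have h2 : (h : G) = 1 := by
      have : (h : G) = t ^ m * ((t ^ m)⁻¹ * h * t ^ m) * (t ^ m)⁻¹ := by group
      rw [this, hg]; simp
    obtain rfl : h = 1 := Subtype.ext h2
    simp
  · obtain ⟨n, hn⟩ := hK (g * t ^ (-(χ g).toAdd)) (by
      rw [map_mul, map_zpow, ht, ← ofAdd_zsmul]; simp)
    refine ⟨(HNNExtension.t ^ n)⁻¹ * HNNExtension.of ⟨_, hn⟩ * HNNExtension.t ^ n *
      HNNExtension.t ^ (χ g).toAdd, ?_⟩
    simp only [map_mul, map_inv, map_pow, map_zpow, Φt, Φof]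
    group

end

end Pool.Agent.P.MP_6e40fc_al
end

-- part Pool.Agent.P.MP_6e40fc_al.Deriv
section

/-! Derivations and splittings of the beginning of a projective resolution. -/

namespace Pool.Agent.P.MP_6e40fc_al

open Matrix
open scoped MonoidAlgebra

noncomputable section

set_option linter.unusedSectionVars false

variable {G : Type} [Group G]

/-- the first three terms of a projective resolution, in matrix form -/
structure PRes (G : Type) [Group G] (n0 n1 n2 : Type) [Fintype n0] [Fintype n1] [Fintype n2] where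
  e0 : Matrix n0 n0 ℤ[G]
  e1 : Matrix n1 n1 ℤ[G]
  d1 : Matrix n1 n0 ℤ[G]
  d2 : Matrix n2 n1 ℤ[G]
  ε : (n0 → ℤ[G]) →+ ℤ
  ε_smul : ∀ (r : ℤ[G]) x, ε (r • x) = aug ℤ G r * ε x
  ε_d1 : ∀ y, ε (y ᵥ* d1) = 0
  e0e0 : e0 * e0 = e0
  d1e0 : d1 * e0 = d1
  e1e1 : e1 * e1 = e1
  e1d1 : e1 * d1 = d1
  d2e1 : d2 * e1 = d2
  d2d1 : d2 * d1 = 0
  surj : ∃ p, p ᵥ* e0 = p ∧ ε p = 1
  ex0 : ∀ x, x ᵥ* e0 = x → ε x = 0 → ∃ y, y ᵥ* d1 = x
  ex1 : ∀ y, y ᵥ* e1 = y → y ᵥ* d1 = 0 → ∃ z, z ᵥ* d2 = y

variable {Λ : Type} [Ring Λ] (ι : ℤ[G] →+* Λ)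

/-- all derivations into modules over `Λ` are principal -/
def AllPrinc : Prop :=
  ∀ (M : Type) [AddCommGroup M] [Module Λ M] (d : G → M),
    (∀ g h, d (g * h) = d g + ι (o g) • d h) → ∃ m, ∀ g, d g = ι (o g) • m - m

theorem deriv_one {M : Type} [AddCommGroup M] [Module Λ M] {d : G → M}
    (hd : ∀ g h, d (g * h) = d g + ι (o g) • d h) : d 1 = 0 := by
  simpa using hd 1 1

theorem extAdd_mul {M : Type} [AddCommGroup M] [Module Λ M] {d : G → M}
    (hd : ∀ g h, d (g * h) = d g + ι (o g) • d h) (r s : ℤ[G]) :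
    extAdd d (r * s) = ι r • extAdd d s + aug ℤ G s • extAdd d r := by
  induction r using zg_induction with
  | ho g =>
    induction s using zg_induction with
    | ho h => rw [o_mul, extAdd_o, extAdd_o, extAdd_o, hd, aug_o, one_smul, add_comm]
    | hadd x y hx hy =>
      rw [mul_add, map_add, hx, hy, map_add, map_add, smul_add, add_smul]; abel
    | hsmul n x hx =>
      rw [mul_smul_comm, map_zsmul, hx, map_zsmul, map_zsmul, smul_add, smul_comm n (ι _),
        smul_assoc]
  | hadd x y hx hy =>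
    rw [add_mul, map_add, hx, hy, map_add, map_add, smul_add, add_smul]; abel
  | hsmul n x hx =>
    rw [smul_mul_assoc, map_zsmul, hx, map_zsmul, map_zsmul, smul_add, smul_assoc,
      smul_comm n (aug ℤ G s)]

variable {n0 n1 n2 : Type} [Fintype n0] [Fintype n1] [Fintype n2]
  [DecidableEq n0] [DecidableEq n1] [DecidableEq n2] (P : PRes G n0 n1 n2)

theorem vecMul_eq_sum_smul {R m n : Type} [Ring R] [Fintype m] (x : m → R) (D : Matrix m n R) :
    x ᵥ* D = ∑ i, x i • D i := by
  ext j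
  simp [vecMul, dotProduct, Finset.sum_apply]

theorem row_vecMul {R l m n : Type} [Ring R] [Fintype m] (X : Matrix l m R) (D : Matrix m n R)
    (i : l) : X i ᵥ* D = (X * D) i := rfl

theorem PRes.ε_row (j : n1) : P.ε (P.d1 j) = 0 := by
  have := P.ε_d1 (Pi.single j 1)
  rwa [single_one_vecMul] at this

theorem PRes.aug_beta (x : n0 → ℤ[G]) :
    aug ℤ G (∑ i, P.ε (P.e0 i) • x i) = P.ε (x ᵥ* P.e0) := by
  rw [vecMul_eq_sum_smul, map_sum, map_sum]
  exact Finset.sum_congr rfl fun i _ => by rw [map_zsmul, P.ε_smul, smul_eq_mul, mul_comm]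

theorem PRes.ex_sub (g : G) {p : n0 → ℤ[G]} (hp : p ᵥ* P.e0 = p) :
    ∃ y, y ᵥ* P.d1 = (o g - 1) • p :=
  P.ex0 _ (by rw [smul_vecMul, hp]) (by rw [P.ε_smul, map_sub, aug_o, map_one, sub_self, zero_mul])

theorem PRes.allPrinc_of_split (s0 : Matrix n0 n1 Λ) (s1 : Matrix n1 n2 Λ)
    (hs : P.e1.map ι = P.d1.map ι * s0 + s1 * P.d2.map ι) : AllPrinc ι := by
  intro M _ _ d hd
  obtain ⟨p, hp, hp1⟩ := P.surj
  let β : (n0 → ℤ[G]) →ₗ[ℤ[G]] ℤ[G] :=
    { toFun := fun x => ∑ i, P.ε (P.e0 i) • x i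
      map_add' := fun x y => by simp [Finset.sum_add_distrib]
      map_smul' := fun r x => by
        simp only [Pi.smul_apply, smul_eq_mul, RingHom.id_apply, Finset.mul_sum, mul_smul_comm] }
  have hβ : ∀ x, aug ℤ G (β x) = P.ε (x ᵥ* P.e0) := P.aug_beta
  let f : n1 → M := fun j => extAdd d (β (P.d1 j))
  have hf : ∀ y, extAdd d (β (y ᵥ* P.d1)) = ∑ j, ι (y j) • f j := by
    intro y
    rw [vecMul_eq_sum_smul, map_sum, map_sum]
    refine Finset.sum_congr rfl fun j _ => ?_
    rw [map_smul, smul_eq_mul, extAdd_mul ι hd, hβ, row_vecMul, P.d1e0, P.ε_row, zero_smul,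
      add_zero]
  let μ : n0 → M := fun i => ∑ j, s0 i j • f j
  have hμ : ∀ j, f j = ∑ i, ι (P.d1 j i) • μ i := by
    intro j
    have h1 : ∑ j', ι (P.e1 j j') • f j' = f j := by rw [← hf, row_vecMul, P.e1d1]
    have h2 : ∀ i, ∑ j', ι (P.d2 i j') • f j' = 0 := fun i => by
      rw [← hf, row_vecMul, P.d2d1]
      change extAdd d (β 0) = 0
      simp
    have h3 : ∀ j', ι (P.e1 j j') = ∑ i, ι (P.d1 j i) * s0 i j' + ∑ i, s1 j i * ι (P.d2 i j') :=
      fun j' => congrFun (congrFun hs j) j'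
    rw [← h1]
    simp only [h3, add_smul, Finset.sum_smul, mul_smul, Finset.sum_add_distrib, μ, Finset.smul_sum]
    rw [Finset.sum_comm, Finset.sum_comm (f := fun j' i => s1 j i • ι (P.d2 i j') • f j')]
    simp only [← Finset.smul_sum, h2, smul_zero, Finset.sum_const_zero, add_zero]
  refine ⟨∑ i, ι (p i) • μ i - extAdd d (β p), fun g => ?_⟩
  obtain ⟨y, hy⟩ := P.ex_sub g hp
  have h1 := hf y
  have h2 : ∑ j, ι (y j) • f j = ∑ i, ι ((y ᵥ* P.d1) i) • μ i := by
    simp only [hμ, Finset.smul_sum, vecMul, dotProduct, map_sum, map_mul, Finset.sum_smul,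
      mul_smul]
    exact Finset.sum_comm
  rw [h2, hy, map_smul, smul_eq_mul, extAdd_mul ι hd, hβ, hp, hp1, one_smul, map_sub (extAdd d),
    extAdd_o, ← o_one, extAdd_o, deriv_one ι hd, sub_zero, o_one] at h1
  simp only [Pi.smul_apply, smul_eq_mul, map_mul, mul_smul, ← Finset.smul_sum, map_sub, map_one,
    sub_smul, one_smul, Finset.sum_sub_distrib] at h1
  rw [smul_sub, eq_sub_iff_add_eq'.2 h1]
  abel

theorem PRes.split_of_allPrinc (h : AllPrinc ι) :
    ∃ (s0 : Matrix n0 n1 Λ) (s1 : Matrix n1 n2 Λ),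
      P.e1.map ι = P.d1.map ι * s0 + s1 * P.d2.map ι := by
  obtain ⟨p, hp, hp1⟩ := P.surj
  let N : Submodule Λ (n1 → Λ) := LinearMap.range (P.d2.map ι).vecMulLinear ⊔
    LinearMap.range (1 - P.e1.map ι).vecMulLinear
  let F : (n1 → ℤ[G]) →+ (n1 → Λ) ⧸ N :=
    { toFun := fun y => N.mkQ (ι ∘ y)
      map_zero' := by rw [← map_zero N.mkQ]; congr 1; ext; simp
      map_add' := fun x y => by rw [← map_add]; congr 1; ext; simp }
  have hFs : ∀ (r : ℤ[G]) y, F (r • y) = ι r • F y := by
    intro r y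
    change N.mkQ _ = ι r • N.mkQ _
    rw [← map_smul]; congr 1; ext; simp
  have hv : ∀ {m n : Type} [Fintype m] (y : m → ℤ[G]) (D : Matrix m n ℤ[G]),
      ι ∘ (y ᵥ* D) = (ι ∘ y) ᵥ* D.map ι := fun y D => funext fun i => ι.map_vecMul D y i
  have hF0 : ∀ y, y ᵥ* P.d1 = 0 → F y = 0 := by
    intro y hy
    obtain ⟨z, hz⟩ := P.ex1 (y ᵥ* P.e1) (by rw [vecMul_vecMul, P.e1e1])
      (by rw [vecMul_vecMul, P.e1d1, hy])
    change N.mkQ _ = 0
    rw [Submodule.mkQ_apply, Submodule.Quotient.mk_eq_zero]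
    refine Submodule.mem_sup.2 ⟨_, ⟨ι ∘ z, rfl⟩, _, ⟨ι ∘ y, rfl⟩, ?_⟩
    simp only [vecMulLinear_apply]
    rw [← hv, hz, hv, vecMul_sub, vecMul_one, add_sub_cancel]
  have hF : ∀ y y', y ᵥ* P.d1 = y' ᵥ* P.d1 → F y = F y' := fun y y' e => by
    rw [← sub_eq_zero, ← map_sub]
    exact hF0 _ (by rw [sub_vecMul, e, sub_self])
  choose y hy using fun g => P.ex_sub g hp
  obtain ⟨m, hm⟩ := h _ (fun g => F (y g)) fun g g' => by
    rw [← hFs, ← map_add]
    refine hF _ _ ?_
    rw [add_vecMul, smul_vecMul, hy, hy, hy, smul_smul, ← add_smul, mul_sub, o_mul]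
    congr 1
    simp
  have hI : ∀ r : ℤ[G], ∃ y, y ᵥ* P.d1 = (r - aug ℤ G r • 1) • p ∧
      F y = ι (r - aug ℤ G r • 1) • m := by
    intro r
    induction r using zg_induction with
    | ho g => exact ⟨y g, by simp [hy], by simp [hm, sub_smul]⟩
    | hadd a b ha hb =>
      obtain ⟨y, h1, h2⟩ := ha
      obtain ⟨y', h1', h2'⟩ := hb
      have e : a + b - aug ℤ G (a + b) • 1 = a - aug ℤ G a • 1 + (b - aug ℤ G b • 1) := by
        rw [map_add, add_smul]; abel
      exact ⟨y + y', by rw [add_vecMul, h1, h1', e, add_smul],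
        by rw [map_add, h2, h2', e, map_add, add_smul]⟩
    | hsmul n a ha =>
      obtain ⟨y, h1, h2⟩ := ha
      have e : n • a - aug ℤ G (n • a) • 1 = (n : ℤ[G]) * (a - aug ℤ G a • 1) := by
        rw [map_zsmul, smul_assoc, ← smul_sub, zsmul_eq_mul]
      exact ⟨(n : ℤ[G]) • y, by rw [smul_vecMul, h1, e, mul_smul],
        by rw [hFs, h2, e, map_mul, mul_smul]⟩
  choose w hw using fun i => P.ex0 (P.e0 i - (P.ε (P.e0 i) : ℤ[G]) • p)
    (by rw [sub_vecMul, smul_vecMul, hp, row_vecMul, P.e0e0])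
    (by rw [map_sub, P.ε_smul, hp1, map_intCast]; simp)
  choose s hs using fun i => N.mkQ_surjective (F (w i) + P.ε (P.e0 i) • m)
  have key : ∀ j, ∃ (z : n2 → Λ) (z' : n1 → Λ), z ᵥ* P.d2.map ι + z' ᵥ* (1 - P.e1.map ι) =
      (1 - P.d1.map ι * Matrix.of s : Matrix n1 n1 Λ) j := by
    intro j
    obtain ⟨yb, h1, h2⟩ := hI (∑ i, P.ε (P.e0 i) • P.d1 j i)
    rw [P.aug_beta, row_vecMul, P.d1e0, P.ε_row, zero_smul, sub_zero] at h1 h2
    have h3 := hF (Pi.single j 1) (∑ i, P.d1 j i • w i + yb) (by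
      rw [single_one_vecMul, add_vecMul, h1, sum_vecMul]
      simp only [smul_vecMul, hw, smul_sub, Finset.sum_sub_distrib, smul_smul, ← Finset.sum_smul,
        zsmul_eq_mul, Int.cast_comm]
      rw [sub_add_cancel, ← vecMul_eq_sum_smul, row_vecMul, P.d1e0]
      rfl)
    have h4 : (1 - P.d1.map ι * Matrix.of s : Matrix n1 n1 Λ) j ∈ N := by
      rw [← Submodule.Quotient.mk_eq_zero, ← Submodule.mkQ_apply]
      have e : (1 - P.d1.map ι * Matrix.of s : Matrix n1 n1 Λ) j =
          ι ∘ (Pi.single j 1 : n1 → ℤ[G]) - ∑ i, ι (P.d1 j i) • s i := by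
        ext j'
        simp [mul_apply, one_apply, Pi.single_apply, eq_comm, Finset.sum_apply]
      rw [e, map_sub, map_sum]
      change F _ - _ = 0
      rw [h3, map_add, map_sum, h2, map_sum, Finset.sum_smul, ← Finset.sum_add_distrib,
        sub_eq_zero]
      refine Finset.sum_congr rfl fun i _ => ?_
      rw [hFs, map_smul N.mkQ, hs, smul_add, map_zsmul, smul_assoc, smul_comm (ι _) (P.ε _)]
    obtain ⟨_, ⟨z, rfl⟩, _, ⟨z', rfl⟩, e⟩ := Submodule.mem_sup.1 h4
    exact ⟨z, z', e⟩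
  choose z z' hz using key
  have e : Matrix.of z * P.d2.map ι + Matrix.of z' * (1 - P.e1.map ι) =
      1 - P.d1.map ι * Matrix.of s := by
    ext j j'
    exact congrFun (hz j) j'
  refine ⟨Matrix.of s * P.e1.map ι, Matrix.of z, ?_⟩
  have e' := congrArg (· * P.e1.map ι) e
  simp only [Matrix.add_mul, Matrix.sub_mul, Matrix.mul_assoc, Matrix.one_mul, ← Matrix.map_mul,
    P.e1e1, P.d2e1, sub_self, Matrix.mul_zero, add_zero] at e'
  rw [e', add_sub_cancel]

theorem PRes.exists_reg (g : G) (u : Λ) (hu : u * (ι (o g) - 1) = 1) :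
    ∃ s : Matrix n0 n1 Λ, P.d1.map ι * s * P.d1.map ι = P.d1.map ι := by
  choose y hy using fun i => P.ex_sub g (p := P.e0 i) (by rw [row_vecMul, P.e0e0])
  have e : Matrix.of y * P.d1 = (o g - 1) • P.e0 := by
    exact Matrix.ext fun i j => congrFun (hy i) j
  refine ⟨u • (Matrix.of y).map ι, ?_⟩
  have e2 : (u • (Matrix.of y).map ι) * P.d1.map ι = P.e0.map ι := by
    rw [Matrix.smul_mul, ← Matrix.map_mul, e]
    ext i j
    simp only [Matrix.smul_apply, map_apply, smul_eq_mul, map_mul, map_sub, map_one, ← mul_assoc,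
      hu, one_mul]
  rw [Matrix.mul_assoc, e2, ← Matrix.map_mul, P.d1e0]

end

end Pool.Agent.P.MP_6e40fc_al
end

-- part Pool.Agent.P.MP_6e40fc_al.Rank
section

/-! A faithful Sylvester-type rank function on matrices over a real star algebra with a
faithful positive trace that is spanned by unitaries. -/

namespace Pool.Agent.P.MP_6e40fc_al

open Matrix Filter Topology

noncomputable section

/-- real star algebras with a faithful positive trace, spanned by unitaries -/
class TrAlg (A : Type) [Ring A] [Algebra ℝ A] [StarRing A] where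
  τ : A →ₗ[ℝ] ℝ
  τ_comm : ∀ a b, τ (a * b) = τ (b * a)
  τ_star : ∀ a, τ (star a) = τ a
  τ_one : τ 1 = 1
  τ_nonneg : ∀ a, 0 ≤ τ (a * star a)
  τ_faith : ∀ a, τ (a * star a) = 0 → a = 0
  span_ind : ∀ (p : A → Prop), (∀ a, (∃ r : ℝ, a * star a = r • 1) → p a) →
    (∀ a b, p a → p b → p (a + b)) → ∀ a, p a

open TrAlg

variable {A : Type} [Ring A] [Algebra ℝ A] [StarRing A] [StarModule ℝ A] [TrAlg A]
variable {l m n p : Type} [Fintype l] [Fintype m] [Fintype n] [Fintype p]

/-- trace of a square matrix -/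
def tr (X : Matrix m m A) : ℝ := τ X.trace

theorem tr_comm (X : Matrix m n A) (Y : Matrix n m A) : tr (X * Y) = tr (Y * X) := by
  simp only [tr, trace, diag, mul_apply, map_sum]
  rw [Finset.sum_comm]
  exact Finset.sum_congr rfl fun i _ => Finset.sum_congr rfl fun j _ => τ_comm _ _

theorem tr_add (X Y : Matrix m m A) : tr (X + Y) = tr X + tr Y := by simp [tr]

theorem tr_sub (X Y : Matrix m m A) : tr (X - Y) = tr X - tr Y := by simp [tr]

theorem tr_smul (r : ℝ) (X : Matrix m m A) : tr (r • X) = r * tr X := by simp [tr]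

theorem tr_star (X : Matrix m m A) : tr Xᴴ = tr X := by
  rw [tr, trace_conjTranspose, τ_star, tr]

theorem tr_one [DecidableEq m] : tr (1 : Matrix m m A) = Fintype.card m := by
  simp only [tr, trace, diag, one_apply_eq, map_sum, τ_one]
  simp

/-- the inner product on matrices -/
def ip (X Y : Matrix m n A) : ℝ := tr (X * Yᴴ)

/-- the squared norm on matrices -/
def nn (X : Matrix m n A) : ℝ := ip X X

theorem ip_comm (X Y : Matrix m n A) : ip X Y = ip Y X := by
  rw [ip, ← tr_star, conjTranspose_mul, conjTranspose_conjTranspose, ip]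

theorem ip_add_left (X Y Z : Matrix m n A) : ip (X + Y) Z = ip X Z + ip Y Z := by
  simp only [ip, Matrix.add_mul, tr_add]

theorem ip_smul_left (r : ℝ) (X Z : Matrix m n A) : ip (r • X) Z = r * ip X Z := by
  simp only [ip, Matrix.smul_mul, tr_smul]

theorem ip_add_right (X Y Z : Matrix m n A) : ip Z (X + Y) = ip Z X + ip Z Y := by
  rw [ip_comm, ip_add_left, ip_comm X, ip_comm Y]

theorem ip_smul_right (r : ℝ) (X Z : Matrix m n A) : ip Z (r • X) = r * ip Z X := by
  rw [ip_comm, ip_smul_left, ip_comm]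

theorem ip_zero_left (Z : Matrix m n A) : ip 0 Z = 0 := by simp [ip, tr]

theorem nn_zero : nn (0 : Matrix m n A) = 0 := ip_zero_left _

theorem ip_sum_left {ι : Type} (s : Finset ι) (X : ι → Matrix m n A) (Z : Matrix m n A) :
    ip (∑ i ∈ s, X i) Z = ∑ i ∈ s, ip (X i) Z := by
  classical
  induction s using Finset.induction_on with
  | empty => simp [ip_zero_left]
  | insert a s ha ih => rw [Finset.sum_insert ha, Finset.sum_insert ha, ip_add_left, ih]

theorem nn_eq (X : Matrix m n A) : nn X = ∑ i, ∑ j, τ (X i j * star (X i j)) := by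
  simp [nn, ip, tr, trace, diag, mul_apply, map_sum]

theorem nn_nonneg (X : Matrix m n A) : 0 ≤ nn X := by
  rw [nn_eq]
  exact Finset.sum_nonneg fun i _ => Finset.sum_nonneg fun j _ => τ_nonneg _

theorem eq_zero_of_nn {X : Matrix m n A} (h : nn X = 0) : X = 0 := by
  rw [nn_eq, Finset.sum_eq_zero_iff_of_nonneg
    fun i _ => Finset.sum_nonneg fun j _ => τ_nonneg _] at h
  ext i j
  have := h i (Finset.mem_univ _)
  rw [Finset.sum_eq_zero_iff_of_nonneg fun j _ => τ_nonneg _] at this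
  exact τ_faith _ (this j (Finset.mem_univ _))

theorem nn_star (X : Matrix m n A) : nn Xᴴ = nn X := by
  rw [nn, ip, conjTranspose_conjTranspose, tr_comm, nn, ip]

theorem nn_one [DecidableEq m] : nn (1 : Matrix m m A) = Fintype.card m := by
  rw [nn, ip, conjTranspose_one, Matrix.mul_one, tr_one]

theorem nn_comb (a b : ℝ) (X Y : Matrix m n A) :
    nn (a • X + b • Y) = a ^ 2 * nn X + 2 * a * b * ip X Y + b ^ 2 * nn Y := by
  simp only [nn, ip_add_left, ip_add_right, ip_smul_left, ip_smul_right, ip_comm Y X]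
  ring

theorem nn_add_le (δ : ℝ) (hδ : 0 < δ) (X Y : Matrix m n A) :
    nn (X + Y) ≤ (1 + δ) * nn X + (1 + δ⁻¹) * nn Y := by
  have h1 := nn_comb 1 1 X Y
  have h2 := nn_comb δ (-1) X Y
  have h3 := nn_nonneg (δ • X + (-1 : ℝ) • Y)
  simp only [one_smul] at h1
  have h4 : 2 * ip X Y ≤ δ * nn X + δ⁻¹ * nn Y := by
    have : δ * (2 * ip X Y) ≤ δ * (δ * nn X + δ⁻¹ * nn Y) := by
      rw [mul_add, ← mul_assoc δ δ⁻¹, mul_inv_cancel₀ hδ.ne']
      nlinarith
    exact le_of_mul_le_mul_left this hδ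
  nlinarith

theorem nn_neg (X : Matrix m n A) : nn (-X) = nn X := by
  have := nn_comb (-1) 0 X X
  simpa using this

theorem exists_bound (B : Matrix m n A) :
    ∃ K : ℝ, 0 < K ∧ ∀ (p : Type) [Fintype p] (X : Matrix p m A), nn (X * B) ≤ K * nn X := by
  classical
  have hadd : ∀ B C : Matrix m n A,
      (∃ K : ℝ, 0 < K ∧ ∀ (p : Type) [Fintype p] (X : Matrix p m A), nn (X * B) ≤ K * nn X) →
      (∃ K : ℝ, 0 < K ∧ ∀ (p : Type) [Fintype p] (X : Matrix p m A), nn (X * C) ≤ K * nn X) →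
      ∃ K : ℝ, 0 < K ∧ ∀ (p : Type) [Fintype p] (X : Matrix p m A),
        nn (X * (B + C)) ≤ K * nn X := by
    rintro B C ⟨K, hK, h⟩ ⟨K', hK', h'⟩
    refine ⟨2 * K + 2 * K', by positivity, fun p _ X => ?_⟩
    have := nn_add_le 1 one_pos (X * B) (X * C)
    rw [Matrix.mul_add]
    have h1 := h p X
    have h2 := h' p X
    norm_num at this
    nlinarith
  induction B using Matrix.induction_on' with
  | h_zero => exact ⟨1, one_pos, fun p _ X => by
      rw [Matrix.mul_zero, one_mul, nn, ip_zero_left]; exact nn_nonneg _⟩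
  | h_add B C hB hC => exact hadd B C hB hC
  | h_std_basis i j a =>
    refine span_ind (fun a => ∃ K : ℝ, 0 < K ∧ ∀ (p : Type) [Fintype p] (X : Matrix p m A),
      nn (X * single i j a) ≤ K * nn X) ?_ ?_ a
    · rintro a ⟨r, hr⟩
      refine ⟨|r| + 1, by positivity, fun p _ X => ?_⟩
      rw [nn_eq, nn_eq, Finset.mul_sum]
      refine Finset.sum_le_sum fun q _ => ?_
      rw [Finset.sum_eq_single j]
      · have h1 : τ (X q i * star (X q i)) ≤ ∑ j, τ (X q j * star (X q j)) :=
          Finset.single_le_sum (f := fun j => τ (X q j * star (X q j)))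
            (fun j _ => τ_nonneg _) (Finset.mem_univ i)
        have h2 := τ_nonneg (X q i)
        have h3 : X q i * a * star (X q i * a) = r • (X q i * star (X q i)) := by
          rw [star_mul, mul_assoc, ← mul_assoc a, hr, smul_mul_assoc, one_mul, mul_smul_comm]
        rw [mul_single_apply_same, h3, map_smul, smul_eq_mul]
        nlinarith [le_abs_self r, abs_nonneg r]
      · intro j' _ hj'
        rw [mul_single_apply_of_ne _ _ _ _ _ hj']
        simp
      · simp
    · intro a b ha hb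
      rw [single_add]
      exact hadd _ _ ha hb

theorem exists_bound_left (X : Matrix l m A) :
    ∃ K : ℝ, 0 < K ∧ ∀ (p : Type) [Fintype p] (Z : Matrix m p A), nn (X * Z) ≤ K * nn Z := by
  obtain ⟨K, hK, h⟩ := exists_bound Xᴴ
  refine ⟨K, hK, fun p _ Z => ?_⟩
  rw [← nn_star, conjTranspose_mul, ← nn_star Z]
  exact h p _

variable [DecidableEq l] [DecidableEq m] [DecidableEq n] [DecidableEq p]

/-- corank: squared distance of the identity to the row space -/
def cork (B : Matrix m n A) : ℝ := ⨅ X : Matrix n m A, nn (1 - X * B)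

theorem cork_le (B : Matrix m n A) (X : Matrix n m A) : cork B ≤ nn (1 - X * B) :=
  ciInf_le ⟨0, by rintro _ ⟨X, rfl⟩; exact nn_nonneg _⟩ X

theorem le_cork {B : Matrix m n A} {c : ℝ} (h : ∀ X : Matrix n m A, c ≤ nn (1 - X * B)) :
    c ≤ cork B := le_ciInf h

theorem exists_lt_cork (B : Matrix m n A) {ε : ℝ} (hε : 0 < ε) :
    ∃ X : Matrix n m A, nn (1 - X * B) < cork B + ε :=
  exists_lt_of_ciInf_lt (by change cork B < _; linarith)

/-- the rank -/
def rk (B : Matrix m n A) : ℝ := Fintype.card n - cork B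

theorem rk_le_card (B : Matrix m n A) : rk B ≤ Fintype.card n := by
  have : 0 ≤ cork B := le_cork fun X => nn_nonneg _
  rw [rk]; linarith

theorem rk_nonneg (B : Matrix m n A) : 0 ≤ rk B := by
  have := cork_le B 0
  rw [Matrix.zero_mul, sub_zero, nn_one] at this
  rw [rk]; linarith

theorem rk_mul_le_right (C : Matrix l m A) (B : Matrix m n A) : rk (C * B) ≤ rk B := by
  have : cork B ≤ cork (C * B) := le_cork fun X => by
    rw [← Matrix.mul_assoc]; exact cork_le _ _
  rw [rk, rk]; linarith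

omit [DecidableEq m] in
theorem nn_step (B : Matrix m n A) (K c : ℝ) (hc : 0 < c) (hcK : c * K ≤ 1)
    (h : ∀ (p : Type) [Fintype p] (X : Matrix p m A), nn (X * B) ≤ K * nn X)
    (Y : Matrix p n A) : nn (Y * (1 - c • (Bᴴ * B))) ≤ nn Y - c * nn (Y * Bᴴ) := by
  have h1 : Y * (1 - c • (Bᴴ * B)) = (1 : ℝ) • Y + (-c) • (Y * Bᴴ * B) := by
    rw [Matrix.mul_sub, Matrix.mul_one, Matrix.mul_smul, Matrix.mul_assoc, one_smul, neg_smul,
      sub_eq_add_neg]
  have h2 : ip Y (Y * Bᴴ * B) = nn (Y * Bᴴ) := by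
    rw [ip, nn, ip, conjTranspose_mul, Matrix.mul_assoc Y]
  have h3 := h p (Y * Bᴴ)
  have h4 := nn_nonneg (Y * Bᴴ)
  rw [h1, nn_comb, h2]
  have h5 : c ^ 2 * nn (Y * Bᴴ * B) ≤ c * nn (Y * Bᴴ) := by
    calc c ^ 2 * nn (Y * Bᴴ * B) ≤ c ^ 2 * (K * nn (Y * Bᴴ)) := by gcongr
      _ = c * (c * K) * nn (Y * Bᴴ) := by ring
      _ ≤ c * 1 * nn (Y * Bᴴ) := by gcongr
      _ = _ := by ring
  nlinarith

theorem tendsto_cork (B : Matrix m n A) (K c : ℝ) (hc : 0 < c) (hcK : c * K ≤ 1)
    (h : ∀ (p : Type) [Fintype p] (X : Matrix p m A), nn (X * B) ≤ K * nn X) :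
    Tendsto (fun k : ℕ => nn ((1 - c • (Bᴴ * B)) ^ k)) atTop (𝓝 (cork B)) := by
  set Q : Matrix n n A := 1 - c • (Bᴴ * B) with hQ
  have hQs : Qᴴ = Q := by simp [hQ, conjTranspose_mul]
  have hstep : ∀ k, nn (Q ^ (k + 1)) ≤ nn (Q ^ k) - c * nn (Q ^ k * Bᴴ) := fun k => by
    rw [pow_succ]; exact nn_step B K c hc hcK h _
  have hanti : Antitone fun k : ℕ => nn (Q ^ k) := antitone_nat_of_succ_le fun k => by
    have := hstep k
    have := nn_nonneg (Q ^ k * Bᴴ)
    nlinarith
  have hbdd : BddBelow (Set.range fun k : ℕ => nn (Q ^ k)) :=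
    ⟨0, by rintro _ ⟨k, rfl⟩; exact nn_nonneg _⟩
  have hlim := tendsto_atTop_ciInf hanti hbdd
  set L := ⨅ k : ℕ, nn (Q ^ k)
  have h0 : Tendsto (fun k : ℕ => nn (B * Q ^ k)) atTop (𝓝 0) := by
    have h1 : Tendsto (fun k : ℕ => c⁻¹ * (nn (Q ^ k) - nn (Q ^ (k + 1)))) atTop
        (𝓝 (c⁻¹ * (L - L))) :=
      (hlim.sub (hlim.comp (tendsto_add_atTop_nat 1))).const_mul _
    rw [sub_self, mul_zero] at h1
    refine squeeze_zero (fun k => nn_nonneg _) (fun k => ?_) h1
    rw [← nn_star, conjTranspose_mul, conjTranspose_pow, hQs, le_inv_mul_iff₀ hc]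
    have := hstep k
    linarith
  have hcontr : ∀ (k : ℕ) (Y : Matrix n n A), nn (Y * Q ^ k) ≤ nn Y := by
    intro k Y
    induction k with
    | zero => simp
    | succ k ih =>
      rw [pow_succ, ← Matrix.mul_assoc]
      have := nn_step B K c hc hcK h (Y * Q ^ k)
      have := nn_nonneg (Y * Q ^ k * Bᴴ)
      nlinarith
  have hL : L = cork B := by
    apply le_antisymm
    · refine le_cork fun X => ?_
      obtain ⟨K', hK', hX⟩ := exists_bound_left X
      refine le_of_forall_pos_le_add fun ε hε => ?_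
      obtain ⟨δ, hδ, hδ'⟩ : ∃ δ : ℝ, 0 < δ ∧ δ * nn (1 - X * B) ≤ ε := by
        have := nn_nonneg (1 - X * B)
        refine ⟨ε / (nn (1 - X * B) + 1), by positivity, ?_⟩
        rw [div_mul_eq_mul_div, div_le_iff₀ (by positivity)]
        nlinarith
      have h2 : Tendsto (fun k : ℕ => (1 + δ) * nn (1 - X * B) + (1 + δ⁻¹) * (K' * nn (B * Q ^ k)))
          atTop (𝓝 ((1 + δ) * nn (1 - X * B) + (1 + δ⁻¹) * (K' * 0))) :=
        ((h0.const_mul _).const_mul _).const_add _
      have h3 := le_of_tendsto_of_tendsto' hlim h2 fun k => by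
        have e : Q ^ k = (1 - X * B) * Q ^ k + X * (B * Q ^ k) := by
          rw [Matrix.sub_mul, Matrix.one_mul, Matrix.mul_assoc, sub_add_cancel]
        have h4 := nn_add_le δ hδ ((1 - X * B) * Q ^ k) (X * (B * Q ^ k))
        rw [← e] at h4
        refine h4.trans (add_le_add ?_ ?_)
        · exact mul_le_mul_of_nonneg_left (hcontr k _) (by positivity)
        · exact mul_le_mul_of_nonneg_left (hX _ _) (by positivity)
      linarith
    · refine le_ciInf fun k => ?_
      obtain ⟨X, hX⟩ : ∃ X : Matrix n m A, Q ^ k = 1 - X * B := by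
        induction k with
        | zero => exact ⟨0, by simp⟩
        | succ k ih =>
          obtain ⟨X, hX⟩ := ih
          refine ⟨X + c • (Q ^ k * Bᴴ), ?_⟩
          rw [pow_succ, hQ, Matrix.mul_sub, ← hQ, Matrix.mul_one, Matrix.add_mul, Matrix.smul_mul,
            Matrix.mul_smul, Matrix.mul_assoc, ← sub_sub, ← hX]
      rw [hX]
      exact cork_le _ _
  rwa [hL] at hlim

theorem rk_star (B : Matrix m n A) : rk Bᴴ = rk B := by
  obtain ⟨K, hK, h⟩ := exists_bound B
  obtain ⟨K', hK', h'⟩ := exists_bound Bᴴ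
  set c := (K + K')⁻¹ with hcdef
  have hc : 0 < c := by positivity
  have hc1 : c * K ≤ 1 := by rw [hcdef, inv_mul_le_iff₀ (by positivity)]; linarith
  have hc2 : c * K' ≤ 1 := by rw [hcdef, inv_mul_le_iff₀ (by positivity)]; linarith
  have t1 := tendsto_cork B K c hc hc1 h
  have t2 := tendsto_cork Bᴴ K' c hc hc2 h'
  rw [conjTranspose_conjTranspose] at t2
  set Q : Matrix n n A := 1 - c • (Bᴴ * B) with hQ
  set Q' : Matrix m m A := 1 - c • (B * Bᴴ) with hQ'
  have hQs : Qᴴ = Q := by simp [hQ, conjTranspose_mul]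
  have hQs' : Q'ᴴ = Q' := by simp [hQ', conjTranspose_mul]
  have hc : ∀ k : ℕ, B * Q ^ k = Q' ^ k * B := by
    intro k
    induction k with
    | zero => simp
    | succ k ih =>
      rw [pow_succ, pow_succ, ← Matrix.mul_assoc, ih, Matrix.mul_assoc, Matrix.mul_assoc]
      congr 1
      simp [hQ, hQ', Matrix.mul_sub, Matrix.sub_mul, Matrix.mul_assoc]
  have ht : ∀ k : ℕ, Fintype.card m - tr (Q' ^ k) = Fintype.card n - tr (Q ^ k) := by
    intro k
    induction k with
    | zero => simp [tr_one]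
    | succ k ih =>
      have e1 : tr (Q ^ (k + 1)) = tr (Q ^ k) - c * tr (Bᴴ * (B * Q ^ k)) := by
        rw [pow_succ', hQ, Matrix.sub_mul, ← hQ, Matrix.one_mul, tr_sub, Matrix.smul_mul, tr_smul,
          Matrix.mul_assoc]
      have e2 : tr (Q' ^ (k + 1)) = tr (Q' ^ k) - c * tr (Bᴴ * (B * Q ^ k)) := by
        rw [pow_succ, hQ', Matrix.mul_sub, ← hQ', Matrix.mul_one, tr_sub, Matrix.mul_smul, tr_smul,
          ← Matrix.mul_assoc, tr_comm, hc]
      rw [e1, e2]
      linarith
  refine tendsto_nhds_unique (t2.const_sub (Fintype.card m : ℝ)) ?_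
  refine (t1.const_sub (Fintype.card n : ℝ)).congr fun k => ?_
  rw [nn, nn, ip, ip, conjTranspose_pow, conjTranspose_pow, hQs, hQs', ← pow_add, ← pow_add, ht]

theorem rk_mul_le_left (C : Matrix l m A) (B : Matrix m n A) : rk (C * B) ≤ rk C := by
  rw [← rk_star, conjTranspose_mul, ← rk_star C]
  exact rk_mul_le_right _ _

theorem rk_submatrix_le (B : Matrix m n A) (f : l → m) (g : p → n) :
    rk (B.submatrix f g) ≤ rk B := by
  have : B.submatrix f g = (1 : Matrix m m A).submatrix f id * (B * (1 : Matrix n n A).submatrix id g) := by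
    ext i j
    simp [mul_apply, one_apply]
  rw [this]
  exact (rk_mul_le_right _ _).trans (rk_mul_le_left _ _)

theorem rk_pos {B : Matrix m n A} (hB : B ≠ 0) : 0 < rk B := by
  obtain ⟨K, hK, h⟩ := exists_bound B
  have h1 := nn_step B K K⁻¹ (by positivity) (by rw [inv_mul_cancel₀ hK.ne']) h (1 : Matrix n n A)
  have h2 := cork_le B (K⁻¹ • Bᴴ)
  rw [Matrix.one_mul, Matrix.one_mul, nn_one, nn_star] at h1
  rw [Matrix.smul_mul] at h2
  have h3 : 0 < nn B := lt_of_le_of_ne (nn_nonneg B) fun e => hB (eq_zero_of_nn e.symm)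
  have : 0 < K⁻¹ * nn B := by positivity
  rw [rk]
  linarith

theorem rk_le_of_cols (B : Matrix m n A) (s : Finset n) (h : ∀ i j, j ∉ s → B i j = 0) :
    rk B ≤ s.card := by
  have : (Fintype.card n : ℝ) - s.card ≤ cork B := le_cork fun X => by
    rw [← nn_star, nn_eq, ← Nat.cast_sub s.card_le_univ, ← Finset.card_compl,
      Finset.card_eq_sum_ones, Nat.cast_sum]
    refine le_trans (Finset.sum_le_sum fun j hj => ?_) (Finset.sum_le_sum_of_subset_of_nonneg
      (Finset.subset_univ _) fun j _ _ => Finset.sum_nonneg fun i _ => τ_nonneg _)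
    refine le_trans (le_of_eq ?_) (Finset.single_le_sum
      (f := fun i => τ ((1 - X * B)ᴴ j i * star ((1 - X * B)ᴴ j i)))
      (fun i _ => τ_nonneg _) (Finset.mem_univ j))
    simp [mul_apply, h _ j (Finset.mem_compl.1 hj), τ_one]
  rw [rk]
  linarith

theorem rk_le_of_rows (B : Matrix m n A) (s : Finset m) (h : ∀ i j, i ∉ s → B i j = 0) :
    rk B ≤ s.card := by
  rw [← rk_star]
  exact rk_le_of_cols _ s fun j i hi => by simp [h i j hi]

omit [DecidableEq l] [DecidableEq m] [DecidableEq n] [DecidableEq p] in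
theorem nn_fromBlocks (X : Matrix l n A) (Y : Matrix l p A) (Z : Matrix m n A) (W : Matrix m p A) :
    nn (fromBlocks X Y Z W) = nn X + nn Y + nn Z + nn W := by
  simp only [nn_eq, Fintype.sum_sum_type, fromBlocks_apply₁₁, fromBlocks_apply₁₂,
    fromBlocks_apply₂₁, fromBlocks_apply₂₂, Finset.sum_add_distrib]
  ring

theorem rk_fromBlocks (B : Matrix l n A) (C : Matrix m p A) :
    rk (fromBlocks B 0 0 C) = rk B + rk C := by
  have key : ∀ (X : Matrix n l A) (Y : Matrix n m A) (Z : Matrix p l A) (W : Matrix p m A),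
      nn (1 - fromBlocks X Y Z W * fromBlocks B 0 0 C) =
        nn (1 - X * B) + nn (Y * C) + nn (Z * B) + nn (1 - W * C) := by
    intro X Y Z W
    rw [← nn_neg (Y * C), ← nn_neg (Z * B), ← nn_fromBlocks, fromBlocks_multiply,
      ← fromBlocks_one, sub_eq_add_neg, fromBlocks_neg, fromBlocks_add]
    simp [sub_eq_add_neg]
  have : cork (fromBlocks B 0 0 C) = cork B + cork C := by
    apply le_antisymm
    · refine le_of_forall_pos_le_add fun ε hε => ?_
      obtain ⟨X, hX⟩ := exists_lt_cork B (half_pos hε)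
      obtain ⟨W, hW⟩ := exists_lt_cork C (half_pos hε)
      have := cork_le (fromBlocks B 0 0 C) (fromBlocks X 0 0 W)
      rw [key, Matrix.zero_mul, Matrix.zero_mul, nn_zero, nn_zero] at this
      linarith
    · refine le_cork fun X => ?_
      rw [← fromBlocks_toBlocks X, key]
      have := cork_le B X.toBlocks₁₁
      have := cork_le C X.toBlocks₂₂
      have := nn_nonneg (X.toBlocks₁₂ * C)
      have := nn_nonneg (X.toBlocks₂₁ * B)
      linarith
  rw [rk, rk, rk, this, Fintype.card_sum, Nat.cast_add]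
  ring

theorem rk_add_le (B C : Matrix m n A) : rk (B + C) ≤ rk B + rk C := by
  have : B + C = fromCols (1 : Matrix m m A) (1 : Matrix m m A) *
      (fromBlocks B 0 0 C * fromRows (1 : Matrix n n A) (1 : Matrix n n A)) := by
    rw [fromBlocks_mul_fromRows, fromCols_mul_fromRows]
    simp
  rw [this, ← rk_fromBlocks]
  exact (rk_mul_le_right _ _).trans (rk_mul_le_left _ _)

theorem rk_triangular (k : ℕ) (M : Matrix (m × Fin k) (n × Fin k) A) (B : Matrix m n A)
    (h0 : ∀ a i b j, j < i → M (a, i) (b, j) = 0) (h1 : ∀ a i b, M (a, i) (b, i) = B a b) :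
    k * rk B ≤ rk M := by
  let Mp : ℕ → Matrix (m × Fin k) (n × Fin k) A := fun q =>
    Matrix.of fun x y => if (y.2 : ℕ) = x.2 + q then M x y else 0
  let Mt : ℝ → Matrix (m × Fin k) (n × Fin k) A := fun t => ∑ q ∈ Finset.range k, t ^ q • Mp q
  have hMt : ∀ t : ℝ, t ≠ 0 → rk (Mt t) ≤ rk M := by
    intro t ht
    have : Mt t = diagonal (fun x : m × Fin k => (t ^ (x.2 : ℕ))⁻¹ • (1 : A)) *
        (M * diagonal fun y : n × Fin k => t ^ (y.2 : ℕ) • (1 : A)) := by
      ext ⟨a, i⟩ ⟨b, j⟩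
      simp only [Mt, Mp, Matrix.sum_apply, Matrix.smul_apply, of_apply, diagonal_mul, mul_diagonal,
        smul_mul_assoc, one_mul, mul_smul_comm, mul_one, smul_smul]
      by_cases hij : j < i
      · simp [h0 a i b j hij]
      · rw [Finset.sum_eq_single ((j : ℕ) - i)]
        · rw [if_pos (by omega), ← pow_sub₀ _ ht (by omega)]
        · intro q _ hq
          rw [if_neg (by omega), smul_zero]
        · intro hq
          exact absurd (Finset.mem_range.2 (by omega)) hq
    rw [this]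
    exact (rk_mul_le_right _ _).trans (rk_mul_le_left _ _)
  have hM0 : Mt 0 = blockDiagonal fun _ => B := by
    ext ⟨a, i⟩ ⟨b, j⟩
    simp only [Mt, Mp, Matrix.sum_apply, Matrix.smul_apply, of_apply, blockDiagonal_apply]
    rw [Finset.sum_eq_single 0]
    · by_cases hij : i = j
      · subst hij; simp [h1]
      · rw [if_neg (by omega), if_neg hij, smul_zero]
    · intro q _ hq
      simp [hq]
    · intro hq
      exact absurd (Finset.mem_range.2 i.pos) hq
  have hle : ∀ X : Matrix n m A, cork M ≤ k * nn (1 - X * B) := by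
    intro X
    let Y : Matrix (n × Fin k) (m × Fin k) A := blockDiagonal fun _ => X
    have hcont : Continuous fun t : ℝ => nn (1 - Y * Mt t) := by
      have : ∀ t : ℝ, nn (1 - Y * Mt t) = nn (1 : Matrix (n × Fin k) (n × Fin k) A) -
          2 * ∑ q ∈ Finset.range k, t ^ q * ip (Y * Mp q) 1 +
          ∑ q ∈ Finset.range k, t ^ q * ∑ q' ∈ Finset.range k,
            t ^ q' * ip (Y * Mp q') (Y * Mp q) := by
        intro t
        have e := nn_comb 1 (-1) 1 (Y * Mt t)
        have e2 : Y * Mt t = ∑ q ∈ Finset.range k, t ^ q • (Y * Mp q) := by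
          simp only [Mt, Matrix.mul_sum, Matrix.mul_smul]
        rw [one_smul, neg_one_smul, ← sub_eq_add_neg] at e
        rw [e, ip_comm, show nn (Y * Mt t) = ip _ _ from rfl, e2]
        simp only [ip_sum_left, ip_smul_left, ip_comm (Y * Mp _) (∑ q ∈ Finset.range k, _)]
        ring
      simp only [this]
      fun_prop
    have h2 : nn (1 - Y * Mt 0) = k * nn (1 - X * B) := by
      rw [hM0, ← blockDiagonal_mul, ← blockDiagonal_one, ← blockDiagonal_sub, nn_eq, nn_eq,
        Fintype.sum_prod_type, Finset.mul_sum]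
      refine Finset.sum_congr rfl fun a _ => ?_
      rw [Finset.sum_eq_card_nsmul (b := ∑ j, τ ((1 - X * B : Matrix n n A) a j *
        star ((1 - X * B : Matrix n n A) a j)))]
      · simp
      · intro i _
        rw [Fintype.sum_prod_type]
        refine Finset.sum_congr rfl fun b _ => ?_
        rw [Finset.sum_eq_single i]
        · simp
        · intro j _ hj
          rw [blockDiagonal_apply_ne _ _ _ hj.symm]; simp
        · simp
    rw [← h2]
    refine ge_of_tendsto ((hcont.tendsto 0).mono_left (nhdsWithin_le_nhds (s := {0}ᶜ))) ?_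
    filter_upwards [self_mem_nhdsWithin] with t ht
    have := hMt t ht
    have := cork_le (Mt t) Y
    simp only [rk] at *
    linarith
  have : cork M ≤ k * cork B := by
    refine le_of_forall_pos_le_add fun ε hε => ?_
    obtain ⟨X, hX⟩ := exists_lt_cork B (ε := ε / (k + 1)) (by positivity)
    have h1 := hle X
    have h2 : (k : ℝ) * (ε / (k + 1)) ≤ ε := by
      rw [← mul_div_assoc, div_le_iff₀ (by positivity)]
      nlinarith
    have h3 : (k : ℝ) * nn (1 - X * B) ≤ k * (cork B + ε / (k + 1)) := by gcongr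
    linarith
  rw [rk, rk, Fintype.card_prod, Fintype.card_fin, Nat.cast_mul]
  linarith

/-! ### The real group algebra -/

section GroupAlg

open scoped MonoidAlgebra

variable {G : Type} [Group G]

/-- the real group algebra -/
def RG (G : Type) [Group G] : Type := ℝ[G]

instance : Ring (RG G) := inferInstanceAs (Ring ℝ[G])

instance : Algebra ℝ (RG G) := inferInstanceAs (Algebra ℝ ℝ[G])

/-- the involution of the real group algebra -/
def rgStar : ℝ[G] →ₗ[ℝ] ℝ[G] := MonoidAlgebra.mapDomainLinearMap ℝ ℝ fun g : G => g⁻¹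

theorem rgStar_single (g : G) (r : ℝ) :
    rgStar (MonoidAlgebra.single g r) = MonoidAlgebra.single g⁻¹ r := by
  simp [rgStar]

theorem rgStar_coeff (x : ℝ[G]) (g : G) : (rgStar x).coeff g = x.coeff g⁻¹ := by
  induction x using MonoidAlgebra.induction_linear with
  | zero => simp
  | add x y hx hy => simp [hx, hy]
  | single a r =>
    classical
    rw [rgStar_single]
    simp only [MonoidAlgebra.coeff_single, Finsupp.single_apply, inv_eq_iff_eq_inv]

theorem rgStar_mul (x y : ℝ[G]) : rgStar (x * y) = rgStar y * rgStar x := by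
  induction x using MonoidAlgebra.induction_linear with
  | zero => simp
  | add x z hx hz => rw [add_mul, map_add, map_add, hx, hz, mul_add]
  | single a r =>
    induction y using MonoidAlgebra.induction_linear with
    | zero => simp
    | add y z hy hz => rw [mul_add, map_add, map_add, hy, hz, add_mul]
    | single b s =>
      rw [MonoidAlgebra.single_mul_single, rgStar_single, rgStar_single, rgStar_single,
        MonoidAlgebra.single_mul_single, _root_.mul_inv_rev, mul_comm r]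

instance : StarRing (RG G) where
  star x := rgStar x
  star_involutive x := by
    apply MonoidAlgebra.coeff_injective
    ext g
    change (rgStar (rgStar x)).coeff g = _
    rw [rgStar_coeff, rgStar_coeff, inv_inv]
  star_mul := rgStar_mul
  star_add := map_add rgStar

instance : StarModule ℝ (RG G) where
  star_smul r x := map_smul rgStar r x

/-- the canonical trace -/
def rgTr : ℝ[G] →ₗ[ℝ] ℝ := Finsupp.lapply 1 ∘ₗ (MonoidAlgebra.coeffLinearEquiv ℝ).toLinearMap

theorem rgTr_apply (x : ℝ[G]) : rgTr x = x.coeff 1 := rfl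

theorem rgTr_mul_star (x : ℝ[G]) : rgTr (x * rgStar x) = ∑ g ∈ x.coeff.support, x.coeff g ^ 2 := by
  rw [rgTr_apply, MonoidAlgebra.coeff_mul_apply_left, Finsupp.sum]
  refine Finset.sum_congr rfl fun g _ => ?_
  rw [rgStar_coeff, mul_one, inv_inv, sq]

theorem rgTr_comm (x y : ℝ[G]) : rgTr (x * y) = rgTr (y * x) := by
  induction x using MonoidAlgebra.induction_linear with
  | zero => simp
  | add x z hx hz => rw [add_mul, mul_add, map_add, map_add, hx, hz]
  | single a r => simp [rgTr_apply, mul_comm]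

theorem rgTr_faith (x : ℝ[G]) (h : rgTr (x * rgStar x) = 0) : x = 0 := by
  rw [rgTr_mul_star, Finset.sum_eq_zero_iff_of_nonneg fun _ _ => sq_nonneg _] at h
  apply MonoidAlgebra.coeff_injective
  ext g
  by_contra hg
  exact hg (pow_eq_zero_iff two_ne_zero |>.1 (h g (Finsupp.mem_support_iff.2 hg)))

theorem rg_span (q : ℝ[G] → Prop) (h1 : ∀ a, (∃ r : ℝ, a * rgStar a = r • 1) → q a)
    (h2 : ∀ a b, q a → q b → q (a + b)) (x : ℝ[G]) : q x := by
  induction x using MonoidAlgebra.induction_linear with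
  | zero => exact h1 _ ⟨0, by simp⟩
  | add x z hx hz => exact h2 _ _ hx hz
  | single a r =>
    refine h1 _ ⟨r * r, ?_⟩
    rw [rgStar_single, MonoidAlgebra.single_mul_single, mul_inv_cancel, MonoidAlgebra.one_def]
    simp

instance : TrAlg (RG G) where
  τ := rgTr
  τ_comm := rgTr_comm
  τ_star x := by
    change (rgStar x).coeff 1 = _
    rw [rgStar_coeff, inv_one]; rfl
  τ_one := by
    change (1 : ℝ[G]).coeff 1 = 1
    simp [MonoidAlgebra.one_def]
  τ_nonneg x := by
    refine le_of_le_of_eq ?_ (rgTr_mul_star x).symm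
    exact Finset.sum_nonneg fun _ _ => sq_nonneg _
  τ_faith := rgTr_faith
  span_ind := rg_span

/-- the embedding of the integral group ring -/
def toRG : ℤ[G] →+* RG G := MonoidAlgebra.mapRingHom G (Int.castRingHom ℝ)

theorem toRG_injective : Function.Injective (toRG (G := G)) :=
  MonoidAlgebra.map_injective (M := G) (Int.castRingHom ℝ).toAddMonoidHom Int.cast_injective

end GroupAlg

end

end Pool.Agent.P.MP_6e40fc_al
end

-- part Pool.Agent.P.MP_6e40fc_al.Trunc
section

/-! Asymptotic rank of matrices over Laurent series. -/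

namespace Pool.Agent.P.MP_6e40fc_al

open Matrix

noncomputable section

set_option linter.unusedSectionVars false

variable {A : Type} [Ring A] [Algebra ℝ A] [StarRing A] [StarModule ℝ A] [TrAlg A]
variable {R : Type} [Ring R] (ψ : R →+* A)
variable {l m n p : Type} [Fintype l] [Fintype m] [Fintype n] [Fintype p]
variable [DecidableEq l] [DecidableEq m] [DecidableEq n] [DecidableEq p]

/-- the truncated Toeplitz matrix -/
def trunc (k : ℕ) (X : Matrix m n (HahnSeries ℤ R)) : Matrix (m × Fin k) (n × Fin k) A :=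
  Matrix.of fun x y => ψ ((X x.1 y.1).coeff ((y.2 : ℤ) - (x.2 : ℤ)))

/-- rank of the truncated Toeplitz matrix -/
def rho (X : Matrix m n (HahnSeries ℤ R)) (k : ℕ) : ℝ := rk (trunc ψ k X)

theorem exists_order_bound (X : Matrix m n (HahnSeries ℤ R)) :
    ∃ N : ℕ, ∀ a b (j : ℤ), j < -N → (X a b).coeff j = 0 := by
  obtain ⟨N, hN⟩ := (Set.finite_range fun x : m × n => (-(X x.1 x.2).order).toNat).bddAbove
  refine ⟨N, fun a b j hj => HahnSeries.coeff_eq_zero_of_lt_order ?_⟩
  have := hN ⟨(a, b), rfl⟩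
  simp only at this
  omega

theorem coeff_mul_window (x y : HahnSeries ℤ R) (N k : ℕ) (hx : ∀ j : ℤ, j < -N → x.coeff j = 0)
    (hy : ∀ j : ℤ, j < -N → y.coeff j = 0) (i j : ℤ) (hi : N ≤ i) (hj : j + N < k) :
    (x * y).coeff (j - i) = ∑ q : Fin k, x.coeff (q - i) * y.coeff (j - q) := by
  rw [HahnSeries.coeff_mul]
  symm
  refine Finset.sum_bij_ne_zero (fun q _ _ => ((q : ℤ) - i, j - q)) ?_ ?_ ?_ ?_
  · intro q _ h
    rw [Finset.mem_antidiagonal]
    exact ⟨left_ne_zero_of_mul h, right_ne_zero_of_mul h, by ring⟩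
  · intro q _ _ q' _ _ h
    have := congrArg Prod.fst h
    simp only at this
    omega
  · rintro ⟨a, b⟩ hab h
    rw [Finset.mem_antidiagonal] at hab
    have h1 : ¬ a < -N := fun e => left_ne_zero_of_mul h (hx a e)
    have h2 : ¬ b < -N := fun e => right_ne_zero_of_mul h (hy b e)
    have h3 : a + b = j - i := hab.2.2
    have e1 : ((⟨(i + a).toNat, by omega⟩ : Fin k) : ℤ) - i = a := by simp only; omega
    have e2 : j - ((⟨(i + a).toNat, by omega⟩ : Fin k) : ℤ) = b := by simp only; omega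
    refine ⟨⟨(i + a).toNat, by omega⟩, Finset.mem_univ _, ?_, ?_⟩
    · rw [e1, e2]; exact h
    · rw [e1, e2]
  · intros; rfl

theorem rho_mul_le (X : Matrix l m (HahnSeries ℤ R)) (Y : Matrix m n (HahnSeries ℤ R)) :
    ∃ C : ℝ, ∀ k, rho ψ (X * Y) k ≤ rk (trunc ψ k X * trunc ψ k Y) + C := by
  obtain ⟨N1, h1⟩ := exists_order_bound X
  obtain ⟨N2, h2⟩ := exists_order_bound Y
  refine ⟨(Fintype.card l * (N1 + N2) : ℕ) + (Fintype.card n * (N1 + N2) : ℕ), fun k => ?_⟩
  set D := trunc ψ k (X * Y) - trunc ψ k X * trunc ψ k Y with hD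
  let D1 : Matrix (l × Fin k) (n × Fin k) A :=
    Matrix.of fun x y => if (x.2 : ℕ) < N1 + N2 then D x y else 0
  let D2 : Matrix (l × Fin k) (n × Fin k) A :=
    Matrix.of fun x y => if (x.2 : ℕ) < N1 + N2 then 0 else D x y
  have e : trunc ψ k (X * Y) = trunc ψ k X * trunc ψ k Y + (D1 + D2) := by
    have : D1 + D2 = D := by
      ext x y
      simp only [D1, D2, Matrix.add_apply, of_apply]
      split_ifs <;> simp
    rw [this, hD]; abel
  have hc : ∀ (o : Type) [Fintype o] [DecidableEq o] (f : Fin k → ℕ), Function.Injective f →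
      (Finset.univ.filter fun x : o × Fin k => f x.2 < N1 + N2).card ≤
        Fintype.card o * (N1 + N2) := by
    intro o _ _ f hf
    have := Finset.card_le_card_of_injOn (s := Finset.univ.filter fun x : o × Fin k =>
      f x.2 < N1 + N2) (t := Finset.univ ×ˢ Finset.range (N1 + N2)) (fun x => (x.1, f x.2))
      (fun x hx => by simpa using hx) (fun x _ y _ h => by
        simp only [Prod.mk.injEq] at h
        exact Prod.ext h.1 (hf h.2))
    simpa using this
  have r1 : rk D1 ≤ (Fintype.card l * (N1 + N2) : ℕ) := by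
    refine (rk_le_of_rows D1 (Finset.univ.filter fun x => (x.2 : ℕ) < N1 + N2) ?_).trans ?_
    · intro x y hx
      simp only [Finset.mem_filter, Finset.mem_univ, true_and] at hx
      simp [D1, hx]
    · exact_mod_cast hc l _ Fin.val_injective
  have r2 : rk D2 ≤ (Fintype.card n * (N1 + N2) : ℕ) := by
    refine (rk_le_of_cols D2 (Finset.univ.filter fun y => (y.2.rev : ℕ) < N1 + N2) ?_).trans ?_
    · rintro ⟨a, i⟩ ⟨b, j⟩ hy
      simp only [Finset.mem_filter, Finset.mem_univ, true_and, Fin.val_rev] at hy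
      simp only [D2, of_apply]
      split_ifs with hi
      · rfl
      · simp only [hD, Matrix.sub_apply, trunc, of_apply, mul_apply, Fintype.sum_prod_type,
          HahnSeries.coeff_sum, map_sum]
        rw [sub_eq_zero]
        refine Finset.sum_congr rfl fun c _ => ?_
        rw [coeff_mul_window _ _ (N1 + N2) k (fun j hj => h1 _ _ _ (by omega))
          (fun j hj => h2 _ _ _ (by omega)) _ _ (by omega) (by omega), map_sum]
        simp only [map_mul]
    · exact_mod_cast hc n _ (Fin.val_injective.comp Fin.rev_injective)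
  rw [rho, e]
  have := rk_add_le (trunc ψ k X * trunc ψ k Y) (D1 + D2)
  have := rk_add_le D1 D2
  linarith

theorem rho_mul_left (X : Matrix l m (HahnSeries ℤ R)) (Y : Matrix m n (HahnSeries ℤ R)) :
    ∃ C : ℝ, ∀ k, rho ψ (X * Y) k ≤ rho ψ X k + C := by
  obtain ⟨C, h⟩ := rho_mul_le ψ X Y
  exact ⟨C, fun k => (h k).trans (add_le_add_left (rk_mul_le_left _ _) _)⟩

theorem rho_mul_right (X : Matrix l m (HahnSeries ℤ R)) (Y : Matrix m n (HahnSeries ℤ R)) :
    ∃ C : ℝ, ∀ k, rho ψ (X * Y) k ≤ rho ψ Y k + C := by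
  obtain ⟨C, h⟩ := rho_mul_le ψ X Y
  exact ⟨C, fun k => (h k).trans (add_le_add_left (rk_mul_le_right _ _) _)⟩

theorem rho_add (X Y : Matrix m n (HahnSeries ℤ R)) (k : ℕ) :
    rho ψ (X + Y) k ≤ rho ψ X k + rho ψ Y k := by
  have : trunc ψ k (X + Y) = trunc ψ k X + trunc ψ k Y := by
    ext x y; simp [trunc]
  rw [rho, this]
  exact rk_add_le _ _

theorem rho_fromBlocks (X : Matrix l n (HahnSeries ℤ R)) (Y : Matrix m p (HahnSeries ℤ R))
    (k : ℕ) : rho ψ X k + rho ψ Y k ≤ rho ψ (fromBlocks X 0 0 Y) k := by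
  rw [rho, rho, rho, ← rk_fromBlocks]
  refine le_of_eq_of_le (congrArg rk ?_) (rk_submatrix_le _
    (Sum.elim (fun x => (Sum.inl x.1, x.2)) fun x => (Sum.inr x.1, x.2))
    (Sum.elim (fun x => (Sum.inl x.1, x.2)) fun x => (Sum.inr x.1, x.2)))
  ext (x | x) (y | y) <;> simp [trunc]

theorem rho_orth (a b : Matrix n n (HahnSeries ℤ R)) (ha : a * a = a) (hb : b * b = b)
    (hab : a * b = 0) (hba : b * a = 0) :
    ∃ C : ℝ, ∀ k, rho ψ a k + rho ψ b k ≤ rho ψ (a + b) k + C := by
  have e : fromBlocks a 0 0 b = fromRows a b * ((a + b) * fromCols a b) := by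
    rw [mul_fromCols, fromRows_mul_fromCols]
    simp [Matrix.add_mul, ha, hb, hab, hba]
  obtain ⟨C, h⟩ := rho_mul_right ψ (fromRows a b) ((a + b) * fromCols a b)
  obtain ⟨C', h'⟩ := rho_mul_left ψ (a + b) (fromCols a b)
  refine ⟨C + C', fun k => ?_⟩
  have := rho_fromBlocks ψ a b k
  rw [e] at this
  linarith [h k, h' k]

theorem eq_zero_of_rho_bdd (hψ : Function.Injective ψ) (q : Matrix m n (HahnSeries ℤ R))
    (C : ℝ) (h : ∀ k, rho ψ q k ≤ C) : q = 0 := by
  by_contra hq
  obtain ⟨N, hN⟩ := exists_order_bound q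
  obtain ⟨j, ⟨a, b, hj⟩, hmin⟩ := Int.exists_least_of_bdd
    (P := fun j => ∃ a b, (q a b).coeff j ≠ 0)
    ⟨-N, fun j ⟨a, b, hj⟩ => not_lt.1 fun e => hj (hN a b j e)⟩ (by
      by_contra hc
      push Not at hc
      exact hq (by ext a b j; simpa using hc j a b))
  let q' := q * diagonal fun _ : n => HahnSeries.single (-j) (1 : R)
  have hq' : ∀ a b i, (q' a b).coeff i = (q a b).coeff (i + j) := by
    intro a b i
    simp only [q', mul_diagonal, HahnSeries.coeff_mul_single, sub_neg_eq_add, mul_one]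
  obtain ⟨C', hC'⟩ := rho_mul_left ψ q (diagonal fun _ : n => HahnSeries.single (-j) (1 : R))
  let B : Matrix m n A := Matrix.of fun a b => ψ ((q a b).coeff j)
  have hB : B ≠ 0 := fun e => hj (hψ (by simpa [B] using congrFun (congrFun e a) b))
  have hr := rk_pos hB
  obtain ⟨k, hk⟩ := exists_nat_gt ((C + C') / rk B)
  rw [div_lt_iff₀ hr] at hk
  have := rk_triangular k (trunc ψ k q') B (fun a i b i' hi => by
    simp only [trunc, of_apply, hq']
    by_contra hc
    have := hmin _ ⟨a, b, fun e => hc (by rw [e, map_zero])⟩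
    have : (i' : ℕ) < i := hi
    omega) (fun a i b => by simp [trunc, hq', B])
  have h1 := hC' k
  have h2 := h k
  change rk (trunc ψ k q') ≤ _ at h1
  linarith

theorem rho_rev (X Y : Matrix m n (HahnSeries ℤ R))
    (h : ∀ a b j, (X a b).coeff j = (Y a b).coeff (-j)) (k : ℕ) : rho ψ X k ≤ rho ψ Y k := by
  refine le_of_eq_of_le (congrArg rk ?_) (rk_submatrix_le (trunc ψ k Y)
    (fun x => (x.1, x.2.rev)) fun x => (x.1, x.2.rev))
  ext ⟨a, i⟩ ⟨b, j⟩
  simp only [trunc, of_apply, submatrix_apply, h, Fin.val_rev]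
  congr 2
  omega

/-- the key transfer of a splitting -/
theorem split_transfer (hψ : Function.Injective ψ) (e e' : Matrix m m (HahnSeries ℤ R))
    (d1 d1' : Matrix m l (HahnSeries ℤ R)) (d2 d2' : Matrix n m (HahnSeries ℤ R))
    (he : ∀ a b j, (e a b).coeff j = (e' a b).coeff (-j))
    (hd1 : ∀ a b j, (d1' a b).coeff j = (d1 a b).coeff (-j))
    (hd2 : ∀ a b j, (d2' a b).coeff j = (d2 a b).coeff (-j))
    (s0' : Matrix l m (HahnSeries ℤ R)) (s1' : Matrix m n (HahnSeries ℤ R))
    (hs' : e' = d1' * s0' + s1' * d2')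
    (hee : e * e = e) (hed : e * d1 = d1) (hde : d2 * e = d2) (hdd : d2 * d1 = 0)
    (s : Matrix l m (HahnSeries ℤ R)) (hs : d1 * s * d1 = d1)
    (u : Matrix m n (HahnSeries ℤ R)) (hu : d2 * u * d2 = d2) :
    ∃ s0 s1, e = d1 * s0 + s1 * d2 := by
  set a := d1 * (s * e) with ha
  set b := (e - a) * u * d2 with hb
  have had : a * d1 = d1 := by
    rw [ha, Matrix.mul_assoc, Matrix.mul_assoc, hed, ← Matrix.mul_assoc, hs]
  have hda : d2 * a = 0 := by rw [ha, ← Matrix.mul_assoc, hdd, Matrix.zero_mul]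
  have haa : a * a = a := by
    nth_rw 2 [ha]
    rw [← Matrix.mul_assoc, had]
  have hea : e * a = a := by rw [ha, ← Matrix.mul_assoc, hed]
  have hae : a * e = a := by rw [ha, Matrix.mul_assoc, Matrix.mul_assoc, hee]
  have hdb : d2 * b = d2 := by
    rw [hb, ← Matrix.mul_assoc, ← Matrix.mul_assoc, Matrix.mul_sub, hde, hda, sub_zero, hu]
  have hbb : b * b = b := by
    nth_rw 1 [hb]
    rw [Matrix.mul_assoc, hdb]
  have hba : b * a = 0 := by rw [hb, Matrix.mul_assoc, hda, Matrix.mul_zero]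
  have hab : a * b = 0 := by
    rw [hb, ← Matrix.mul_assoc, ← Matrix.mul_assoc, Matrix.mul_sub, hae, haa, sub_self,
      Matrix.zero_mul, Matrix.zero_mul]
  have heb : e * b = b := by
    rw [hb, ← Matrix.mul_assoc, ← Matrix.mul_assoc, Matrix.mul_sub, hee, hea]
  have hbe : b * e = b := by rw [hb, Matrix.mul_assoc, hde]
  obtain ⟨C1, h1⟩ := rho_orth ψ a b haa hbb hab hba
  obtain ⟨C2, h2⟩ := rho_orth ψ (a + b) (e - (a + b))
    (by simp [add_mul, mul_add, haa, hbb, hab, hba])
    (by simp [add_mul, mul_add, mul_sub, sub_mul, haa, hbb, hab, hba, hee, hea, hae, heb, hbe])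
    (by simp [add_mul, mul_add, mul_sub, haa, hbb, hab, hba, hae, hbe])
    (by simp [add_mul, mul_add, sub_mul, haa, hbb, hab, hba, hea, heb])
  rw [add_sub_cancel] at h2
  obtain ⟨C3, h3⟩ := rho_mul_left ψ a d1
  obtain ⟨C4, h4⟩ := rho_mul_right ψ d2 b
  obtain ⟨C5, h5⟩ := rho_mul_left ψ d1' s0'
  obtain ⟨C6, h6⟩ := rho_mul_right ψ s1' d2'
  rw [had] at h3
  rw [hdb] at h4
  have := eq_zero_of_rho_bdd ψ hψ (e - (a + b)) (C1 + C2 + C3 + C4 + C5 + C6) fun k => by
    have := rho_rev ψ _ _ he k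
    have := rho_rev ψ _ _ hd1 k
    have := rho_rev ψ _ _ hd2 k
    have := rho_add ψ (d1' * s0') (s1' * d2') k
    rw [← hs'] at this
    linarith [h1 k, h2 k, h3 k, h4 k, h5 k, h6 k]
  exact ⟨s * e, (e - a) * u, sub_eq_zero.1 this⟩

/-- geometric series -/
theorem exists_geom (B : Matrix n n R) :
    ∃ S : Matrix n n (HahnSeries ℤ R), S * (1 - B.map (HahnSeries.single 1)) = 1 ∧
      (1 - B.map (HahnSeries.single 1)) * S = 1 := by
  let S : Matrix n n (HahnSeries ℤ R) := Matrix.of fun a b => HahnSeries.ofSuppBddBelow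
    (fun j : ℤ => if 0 ≤ j then (B ^ j.toNat) a b else 0)
    ⟨0, fun j hj => by by_contra h; exact hj (if_neg h)⟩
  have hS : ∀ a b j, (S a b).coeff j = if 0 ≤ j then (B ^ j.toNat) a b else 0 := fun _ _ _ => rfl
  have h1 : ∀ a b (j : ℤ), ((1 : Matrix n n (HahnSeries ℤ R)) a b).coeff j =
      if j = 0 then (1 : Matrix n n R) a b else 0 := by
    intro a b j
    by_cases hab : a = b <;> by_cases hj : j = 0 <;> simp [one_apply, hab, hj]
  refine ⟨S, ?_, ?_⟩
  · rw [Matrix.mul_sub, Matrix.mul_one]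
    ext a b j
    simp only [Matrix.sub_apply, mul_apply, map_apply, HahnSeries.coeff_sub, HahnSeries.coeff_sum,
      HahnSeries.coeff_mul_single, hS, h1]
    rcases lt_trichotomy j 0 with h | rfl | h
    · simp [show ¬ 0 ≤ j by omega, show ¬ 1 ≤ j by omega, h.ne]
    · simp
    · simp only [if_pos h.le, if_pos (show 0 ≤ j - 1 by omega), if_neg h.ne']
      rw [show j.toNat = (j - 1).toNat + 1 by omega, pow_succ, mul_apply, sub_self]
  · rw [Matrix.sub_mul, Matrix.one_mul]
    ext a b j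
    simp only [Matrix.sub_apply, mul_apply, map_apply, HahnSeries.coeff_sub, HahnSeries.coeff_sum,
      HahnSeries.coeff_single_mul, hS, h1]
    rcases lt_trichotomy j 0 with h | rfl | h
    · simp [show ¬ 0 ≤ j by omega, show ¬ 1 ≤ j by omega, h.ne]
    · simp
    · simp only [if_pos h.le, if_pos (show 0 ≤ j - 1 by omega), if_neg h.ne']
      rw [show j.toNat = (j - 1).toNat + 1 by omega, pow_succ', mul_apply, sub_self]

theorem exists_geom_one (b : R) :
    ∃ S : HahnSeries ℤ R, S * (1 - HahnSeries.single 1 b) = 1 ∧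
      (1 - HahnSeries.single 1 b) * S = 1 := by
  obtain ⟨S, h1, h2⟩ := exists_geom (Matrix.of fun _ _ : Unit => b)
  refine ⟨S () (), ?_, ?_⟩
  · simpa [mul_apply] using congrFun (congrFun h1 ()) ()
  · simpa [mul_apply] using congrFun (congrFun h2 ()) ()

end

end Pool.Agent.P.MP_6e40fc_al
end

-- part Pool.Agent.P.MP_6e40fc_al.Nov
section

/-! Laurent series over the group ring and ascending HNN extensions. -/

namespace Pool.Agent.P.MP_6e40fc_al

open Matrix
open scoped MonoidAlgebra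

noncomputable section

set_option linter.unusedSectionVars false

variable {G : Type} [Group G]

/-- the graded embedding of the group ring into Laurent series -/
def iota (χ : G →* Multiplicative ℤ) : ℤ[G] →+* HahnSeries ℤ ℤ[G] :=
  (MonoidAlgebra.lift ℤ (HahnSeries ℤ ℤ[G]) G
    { toFun := fun g => HahnSeries.single (χ g).toAdd (o g)
      map_one' := by simp
      map_mul' := fun g h => by
        rw [HahnSeries.single_mul_single, o_mul, map_mul, toAdd_mul] }).toRingHom

theorem iota_o (χ : G →* Multiplicative ℤ) (g : G) :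
    iota χ (o g) = HahnSeries.single (χ g).toAdd (o g) := MonoidAlgebra.lift_of _ _

theorem iota_coeff (χ : G →* Multiplicative ℤ) (r : ℤ[G]) (j : ℤ) :
    (iota χ r).coeff j = (iota χ⁻¹ r).coeff (-j) := by
  induction r using zg_induction with
  | ho g =>
    rw [iota_o, iota_o, HahnSeries.coeff_single, HahnSeries.coeff_single]
    simp
  | hadd x y hx hy => simp only [map_add, HahnSeries.coeff_add, hx, hy]
  | hsmul n x hx => simp only [map_zsmul, HahnSeries.coeff_smul, hx]

/-- the involution on Laurent series -/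
def sig (w : G →* ℤˣ) : HahnSeries ℤ ℤ[G] →+ HahnSeries ℤ ℤ[G] where
  toFun x := x.map (conj w)
  map_zero' := by ext1; funext j; simp
  map_add' _ _ := HahnSeries.map_add _

theorem sig_coeff (w : G →* ℤˣ) (x : HahnSeries ℤ ℤ[G]) (j : ℤ) :
    (sig w x).coeff j = conj w (x.coeff j) := rfl

theorem sig_mul (w : G →* ℤˣ) (x y : HahnSeries ℤ ℤ[G]) : sig w (x * y) = sig w y * sig w x := by
  ext1
  funext j
  have hs : ∀ z : HahnSeries ℤ ℤ[G], ∀ i, i ∈ (sig w z).support ↔ i ∈ z.support := fun z i =>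
    ⟨fun h e => h (by rw [sig_coeff, e, map_zero]), fun h e => h (conj_eq_zero w e)⟩
  rw [sig_coeff, HahnSeries.coeff_mul, HahnSeries.coeff_mul, map_sum]
  refine Finset.sum_equiv (Equiv.prodComm _ _) (fun ij => ?_) fun ij _ => conj_mul _ _ _
  simp only [Finset.mem_antidiagonal, hs, Equiv.prodComm_apply, Prod.fst_swap, Prod.snd_swap,
    add_comm ij.2]
  tauto

theorem sig_iota (w : G →* ℤˣ) (χ : G →* Multiplicative ℤ) (r : ℤ[G]) :
    sig w (iota χ⁻¹ r) = iota χ (conj w r) := by
  induction r using zg_induction with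
  | ho g =>
    rw [conj_o, map_zsmul, iota_o, iota_o]
    ext1
    funext j
    rw [sig_coeff, HahnSeries.coeff_smul, HahnSeries.coeff_single, HahnSeries.coeff_single]
    simp only [MonoidHom.inv_apply, map_inv]
    split_ifs
    · exact conj_o _ _
    · simp
  | hadd x y hx hy => simp only [map_add, hx, hy]
  | hsmul n x hx => simp only [map_zsmul, hx]

theorem exists_unit_aux {Λ : Type} [Ring Λ] (b : Λ) (h : ∃ S, S * (1 - b) = 1 ∧ (1 - b) * S = 1) :
    ∃ u, u * (b - 1) = 1 ∧ (b - 1) * u = 1 := by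
  obtain ⟨S, h1, h2⟩ := h
  exact ⟨-S, by rw [← neg_sub 1, neg_mul_neg, h1], by rw [← neg_sub 1, neg_mul_neg, h2]⟩

theorem exists_unit {χ : G →* Multiplicative ℤ} {g : G} (hg : χ g = Multiplicative.ofAdd 1) :
    ∃ u, u * (iota χ (o g) - 1) = 1 ∧ (iota χ (o g) - 1) * u = 1 := by
  refine exists_unit_aux _ ?_
  rw [iota_o, hg, toAdd_ofAdd]
  exact exists_geom_one (o g)

variable {n0 n1 n2 m0 m1 : Type} [Fintype n0] [Fintype n1] [Fintype n2] [Fintype m0]
  [DecidableEq n0] [DecidableEq n1] [DecidableEq n2] [DecidableEq m0]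

/-- symmetry of the vanishing under duality -/
theorem allPrinc_symm (P : PRes G n0 n1 n2) (P' : PRes G m0 n2 n1) (w : G →* ℤˣ)
    (hP : P'.d2 = (P.d2.map (conj w))ᵀ) (χ : G →* Multiplicative ℤ) (t : G)
    (ht : χ t = Multiplicative.ofAdd 1) (h : AllPrinc (iota χ⁻¹)) : AllPrinc (iota χ) := by
  obtain ⟨s0, s1, hs⟩ := P.split_of_allPrinc _ h
  obtain ⟨s0', s1', hs'⟩ := P'.split_of_allPrinc _ h
  obtain ⟨u, hu, -⟩ := exists_unit ht
  obtain ⟨s, hs2⟩ := P'.exists_reg (iota χ) t u hu
  have h1 : P.d2.map (iota χ⁻¹) * s1 * P.d2.map (iota χ⁻¹) = P.d2.map (iota χ⁻¹) := by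
    have := congrArg (P.d2.map (iota χ⁻¹) * ·) hs
    simp only [Matrix.mul_add, ← Matrix.mul_assoc, ← Matrix.map_mul, P.d2e1, P.d2d1] at this
    rw [Matrix.map_zero _ (map_zero _), Matrix.zero_mul, zero_add] at this
    exact this.symm
  have h2 : P'.d2.map (iota χ) * (s1.map (sig w))ᵀ * P'.d2.map (iota χ) = P'.d2.map (iota χ) := by
    ext1 a b
    have := congrArg (sig w) (congrFun (congrFun h1 b) a)
    simp only [mul_apply, map_apply, map_sum, sig_mul, sig_iota, Finset.sum_mul,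
      Finset.mul_sum] at this
    simp only [hP, mul_apply, map_apply, transpose_apply, Finset.sum_mul, mul_assoc]
    rw [Finset.sum_comm]
    exact this
  have hc : ∀ r j, (iota χ⁻¹ r).coeff j = (iota χ r).coeff (-j) := fun r j => by
    rw [iota_coeff χ, neg_neg]
  obtain ⟨a, b, hab⟩ := split_transfer toRG toRG_injective (P'.e1.map (iota χ))
    (P'.e1.map (iota χ⁻¹)) (P'.d1.map (iota χ)) (P'.d1.map (iota χ⁻¹)) (P'.d2.map (iota χ))
    (P'.d2.map (iota χ⁻¹)) (fun _ _ _ => iota_coeff _ _ _) (fun _ _ _ => hc _ _)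
    (fun _ _ _ => hc _ _) s0' s1' hs' (by rw [← Matrix.map_mul, P'.e1e1])
    (by rw [← Matrix.map_mul, P'.e1d1]) (by rw [← Matrix.map_mul, P'.d2e1])
    (by rw [← Matrix.map_mul, P'.d2d1, Matrix.map_zero _ (map_zero _)]) s hs2 _ h2
  exact P'.allPrinc_of_split _ a b hab

variable {H : Type} [Group H] (φ : H →* H) (j : H →* G) (t : G) (χ : G →* Multiplicative ℤ)
  (ht : χ t = Multiplicative.ofAdd 1) (hj : ∀ h, χ (j h) = 1)
  (hc : ∀ h, t * j h * t⁻¹ = j (φ h))
  (hnf : ∀ g : G, ∃ (m n : ℕ) (h : H), g = (t ^ m)⁻¹ * j h * t ^ n)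

include ht hj hc hnf in
theorem allPrinc_plus (hH : Group.FG H) : AllPrinc (iota χ⁻¹) := by
  classical
  intro M _ _ d0 hd0
  set ι := iota χ⁻¹ with hι
  obtain ⟨u, -, hu⟩ := exists_unit (χ := χ⁻¹) (g := t⁻¹) (by simp [ht])
  let m := u • d0 t⁻¹
  let d : G → M := fun g => d0 g - (ι (o g) • m - m)
  have hd : ∀ g h, d (g * h) = d g + ι (o g) • d h := by
    intro g h
    simp only [d, hd0, ← o_mul, map_mul, mul_smul, smul_sub]
    abel
  have hdt : d t⁻¹ = 0 := by
    have : ι (o t⁻¹) • m - m = d0 t⁻¹ := by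
      conv_rhs => rw [← one_smul (HahnSeries ℤ ℤ[G]) (d0 t⁻¹), ← hu, mul_smul, sub_smul, one_smul]
    simp only [d, this, sub_self]
  have hinv : ∀ g, d g⁻¹ = -(ι (o g⁻¹) • d g) := fun g => by
    have := hd g⁻¹ g
    rw [inv_mul_cancel, deriv_one ι hd] at this
    exact eq_neg_of_add_eq_zero_left this.symm
  let Z : Subgroup G :=
    { carrier := {g | d g = 0}
      mul_mem' := fun {a b} ha hb => by
        change d (a * b) = 0
        rw [hd, ha, hb, smul_zero, add_zero]
      one_mem' := deriv_one ι hd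
      inv_mem' := fun {a} ha => by
        change d a⁻¹ = 0
        rw [hinv, ha, smul_zero, neg_zero] }
  have htZ : t ∈ Z := Z.inv_mem_iff.1 hdt
  obtain ⟨S, hS⟩ := hH.1
  have hfox : ∀ h : H, ∃ c : S → ℤ[G], (∀ i, ι (c i) = HahnSeries.single 0 (c i)) ∧
      d (j h) = ∑ i, ι (c i) • d (j i) := by
    intro h
    have ho : ∀ h : H, ι (o (j h)) = HahnSeries.single 0 (o (j h)) := fun h => by
      rw [hι, iota_o]; simp [hj]
    have hh : h ∈ Subgroup.closure (S : Set H) := hS ▸ Subgroup.mem_top h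
    induction hh using Subgroup.closure_induction with
    | mem s hs =>
      refine ⟨Pi.single ⟨s, hs⟩ 1, fun i => ?_, ?_⟩
      · by_cases hi : i = ⟨s, hs⟩
        · subst hi; simp
        · simp [Pi.single_eq_of_ne hi]
      · rw [Finset.sum_eq_single ⟨s, hs⟩]
        · simp
        · intro i _ hi; simp [Pi.single_eq_of_ne hi]
        · simp
    | one => exact ⟨0, by simp, by simp [deriv_one ι hd]⟩
    | mul a b _ _ ha hb =>
      obtain ⟨c, h1, h2⟩ := ha
      obtain ⟨c', h1', h2'⟩ := hb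
      refine ⟨fun i => c i + o (j a) * c' i, fun i => ?_, ?_⟩
      · rw [map_add, map_mul, h1, h1', ho, HahnSeries.single_mul_single, add_zero,
          HahnSeries.single_add]
      · rw [map_mul, hd, h2, h2', Finset.smul_sum, ← Finset.sum_add_distrib]
        simp only [map_add, map_mul, add_smul, mul_smul]
    | inv a _ ha =>
      obtain ⟨c, h1, h2⟩ := ha
      refine ⟨fun i => -(o (j a⁻¹) * c i), fun i => ?_, ?_⟩
      · rw [map_neg, map_mul, h1, ho, HahnSeries.single_mul_single, add_zero,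
          HahnSeries.single_neg]
      · rw [map_inv, hinv, h2, Finset.smul_sum, ← Finset.sum_neg_distrib]
        simp only [map_neg, map_mul, neg_smul, mul_smul]
  choose c hc1 hc2 using fun i : S => hfox (φ i)
  let B : Matrix S S ℤ[G] := Matrix.of fun i i' => o t⁻¹ * c i i'
  obtain ⟨U, hU, -⟩ := exists_geom B
  have hv : ∀ i : S, ∑ i', (1 - B.map (HahnSeries.single 1) : Matrix S S (HahnSeries ℤ ℤ[G])) i i'
      • d (j i') = 0 := by
    intro i
    have h1 : d (j i) = ι (o t⁻¹) • d (j (φ i)) := by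
      have e : j i = t⁻¹ * (j (φ i) * t) := by rw [← hc]; group
      have : d t = 0 := htZ
      conv_lhs => rw [e, hd, hd, hdt, this, smul_zero, add_zero, zero_add]
    have h2 : ι (o t⁻¹) = HahnSeries.single 1 (o t⁻¹) := by rw [hι, iota_o]; simp [ht]
    simp only [Matrix.sub_apply, sub_smul, Finset.sum_sub_distrib, one_apply, ite_smul, one_smul,
      zero_smul, Finset.sum_ite_eq, Finset.mem_univ, if_true, map_apply, B, of_apply]
    rw [sub_eq_zero]
    conv_lhs => rw [h1, hc2, Finset.smul_sum]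
    refine Finset.sum_congr rfl fun i' _ => ?_
    rw [← mul_smul, h2, hc1, HahnSeries.single_mul_single, add_zero]
  have hv0 : ∀ i : S, d (j i) = 0 := by
    intro i
    have : ∑ i', (U * (1 - B.map (HahnSeries.single 1)) : Matrix S S (HahnSeries ℤ ℤ[G])) i i'
        • d (j i') = 0 := by
      simp only [mul_apply, Finset.sum_smul, mul_smul]
      rw [Finset.sum_comm]
      simp only [← Finset.smul_sum, hv, smul_zero, Finset.sum_const_zero]
    rw [hU] at this
    simpa [one_apply] using this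
  refine ⟨m, fun g => sub_eq_zero.1 ?_⟩
  obtain ⟨a, b, h, rfl⟩ := hnf g
  refine Z.mul_mem (Z.mul_mem (Z.inv_mem (Z.pow_mem htZ a)) ?_) (Z.pow_mem htZ b)
  obtain ⟨c, -, h2⟩ := hfox h
  change d (j h) = 0
  simp [h2, hv0]

/-- integer valued functions on the group -/
def FV (G : Type) : Type := G → ℤ

instance : AddCommGroup (FV G) := inferInstanceAs (AddCommGroup (G → ℤ))

/-- left translation of functions -/
def fvAct : G →* AddMonoid.End (FV G) where
  toFun g :=
    { toFun := fun f x => f (g⁻¹ * x)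
      map_zero' := rfl
      map_add' := fun _ _ => rfl }
  map_one' := by ext f; funext x; change f (1⁻¹ * x) = f x; simp
  map_mul' g h := by
    ext f; funext x
    change f ((g * h)⁻¹ * x) = f (h⁻¹ * (g⁻¹ * x))
    rw [_root_.mul_inv_rev, mul_assoc]

instance : Module ℤ[G] (FV G) :=
  Module.compHom (FV G) (MonoidAlgebra.lift ℤ (AddMonoid.End (FV G)) G fvAct).toRingHom

theorem o_smul_fv (g : G) (f : FV G) (x : G) : (o g • f) x = f (g⁻¹ * x) := by
  change (MonoidAlgebra.lift ℤ (AddMonoid.End (FV G)) G fvAct (MonoidAlgebra.of ℤ G g)) f x = _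
  rw [MonoidAlgebra.lift_of]
  rfl

include ht hj hc hnf in
theorem surjective_of_allPrinc (hinj : Function.Injective j) (h : AllPrinc (iota χ)) :
    Function.Surjective φ := by
  classical
  let A : Set G := {x | ∃ n : ℕ, t ^ n * x ∈ j.range}
  have hA : ∀ (x : G) (n : ℕ), (χ x).toAdd = -n → (x ∈ A ↔ t ^ n * x ∈ j.range) := by
    intro x n hx
    refine ⟨?_, fun h => ⟨n, h⟩⟩
    rintro ⟨n', h, hh⟩
    have := congrArg (fun g => (χ g).toAdd) hh
    simp only [hj, map_mul, map_pow, ht, toAdd_mul, toAdd_pow, toAdd_ofAdd, toAdd_one, hx,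
      smul_eq_mul, nsmul_eq_mul, mul_one] at this
    obtain rfl : n' = n := by omega
    exact ⟨h, hh⟩
  have hpow : ∀ (n : ℕ) (h : H), t ^ n * j h * (t ^ n)⁻¹ ∈ j.range := by
    intro n h
    induction n with
    | zero => simp
    | succ n ih =>
      obtain ⟨h', e⟩ := ih
      refine ⟨φ h', ?_⟩
      rw [← hc, e, pow_succ']
      group
  let a : G → ℤ := A.indicator 1
  have hb : ∀ g : G, BddBelow (Function.support fun i : ℤ =>
      (fun x => if (χ x).toAdd = i then a (g⁻¹ * x) - a x else 0 : FV G)) := by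
    intro g
    obtain ⟨m, n, h, rfl⟩ := hnf g
    refine ⟨-m, fun i hi => ?_⟩
    by_contra hlt
    apply hi
    funext x
    change ite _ _ _ = (0 : ℤ)
    split_ifs with hx
    · obtain ⟨c, hc⟩ : ∃ c : ℕ, i = -((c + m : ℕ) : ℤ) := ⟨(-i - m).toNat, by omega⟩
      have h1 := hA x (c + m) (hx.trans hc)
      have h2 := hA (((t ^ m)⁻¹ * j h * t ^ n)⁻¹ * x) (c + n) (by
        simp only [map_mul, map_inv, map_pow, ht, hj, toAdd_mul, toAdd_inv, toAdd_pow, toAdd_ofAdd,
          toAdd_one, hx, hc, nsmul_eq_mul, mul_one]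
        push_cast
        ring)
      have e : t ^ (c + n) * (((t ^ m)⁻¹ * j h * t ^ n)⁻¹ * x) =
          (t ^ c * j h * (t ^ c)⁻¹)⁻¹ * (t ^ (c + m) * x) := by group
      rw [e, Subgroup.mul_mem_cancel_left _ (Subgroup.inv_mem _ (hpow c h)), ← h1] at h2
      simp only [a, Set.indicator_apply, h2, Pi.one_apply, sub_self]
    · rfl
  let d : G → HahnModule ℤ ℤ[G] (FV G) := fun g =>
    HahnModule.of ℤ[G] (HahnSeries.ofSuppBddBelow _ (hb g))
  have hsm : ∀ (g : G) (y : HahnModule ℤ ℤ[G] (FV G)) (i : ℤ) (x : G),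
      ((HahnModule.of ℤ[G]).symm (iota χ (o g) • y)).coeff i x =
        ((HahnModule.of ℤ[G]).symm y).coeff (i - (χ g).toAdd) (g⁻¹ * x) := by
    intro g y i x
    have := HahnModule.coeff_single_smul_vadd (r := o g) (x := y) (a := i - (χ g).toAdd)
      (b := (χ g).toAdd)
    rw [vadd_eq_add, add_sub_cancel] at this
    rw [iota_o, this, o_smul_fv]
  have hdc : ∀ (g : G) (i : ℤ) (x : G), ((HahnModule.of ℤ[G]).symm (d g)).coeff i x =
      if (χ x).toAdd = i then a (g⁻¹ * x) - a x else 0 := fun _ _ _ => rfl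
  obtain ⟨m, hm⟩ := h _ d fun g g' => by
    apply (HahnModule.of ℤ[G]).symm.injective
    ext1
    funext i x
    change _ = ((HahnModule.of ℤ[G]).symm (d g)).coeff i x +
      ((HahnModule.of ℤ[G]).symm (iota χ (o g) • d g')).coeff i x
    rw [hsm, hdc, hdc, hdc]
    by_cases hx : (χ x).toAdd = i
    · rw [if_pos hx, if_pos hx, if_pos (by simp [hx]; ring), _root_.mul_inv_rev, mul_assoc]
      ring
    · rw [if_neg hx, if_neg hx, if_neg (by simp; omega), add_zero]
  let F : G → ℤ := fun x => ((HahnModule.of ℤ[G]).symm m).coeff (χ x).toAdd x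
  have hF : ∀ x y, a x - a y = F x - F y := by
    intro x y
    have := congrArg (fun z : HahnModule ℤ ℤ[G] (FV G) =>
      ((HahnModule.of ℤ[G]).symm z).coeff (χ y).toAdd y) (hm (y * x⁻¹))
    rw [hdc, if_pos rfl] at this
    change _ = ((HahnModule.of ℤ[G]).symm (iota χ (o (y * x⁻¹)) • m)).coeff (χ y).toAdd y - F y
      at this
    rw [hsm] at this
    simpa [F] using this
  intro h
  obtain ⟨n, hn⟩ : ∃ n : ℕ, -(n : ℤ) < ((HahnModule.of ℤ[G]).symm m).order :=
    ⟨(-((HahnModule.of ℤ[G]).symm m).order).toNat + 1, by omega⟩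
  have hF0 : ∀ x, (χ x).toAdd = -n → F x = 0 := fun x hx => by
    simp only [F, hx, HahnSeries.coeff_eq_zero_of_lt_order hn]
    rfl
  have hx1 : (χ (t ^ n)⁻¹).toAdd = -n := by simp [ht]
  have hx2 : (χ ((t ^ n)⁻¹ * (t⁻¹ * j h * t))).toAdd = -n := by simp [ht, hj]
  have h1 := hF (t ^ n)⁻¹ ((t ^ n)⁻¹ * (t⁻¹ * j h * t))
  rw [hF0 _ hx1, hF0 _ hx2] at h1
  have h2 : (t ^ n)⁻¹ ∈ A := ⟨n, by simp⟩
  have h3 : (t ^ n)⁻¹ * (t⁻¹ * j h * t) ∈ A := by
    by_contra h3
    simp [a, h2, h3] at h1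
  rw [hA _ n hx2, mul_inv_cancel_left] at h3
  obtain ⟨h', e⟩ := h3
  refine ⟨h', hinj ?_⟩
  rw [← hc, e]
  group

end

end Pool.Agent.P.MP_6e40fc_al
end

-- part Pool.Agent.P.MP_6e40fc_al.Extract
section

/-! From a finite type projective resolution to matrices. -/

namespace Pool.Agent.P.MP_6e40fc_al

open CategoryTheory Matrix Limits
open scoped MonoidAlgebra

noncomputable section

variable {k G : Type} [CommRing k] [Group G]

/-- matrix form of a finite type projective resolution -/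
structure MRes (k G : Type) [CommRing k] [Group G] where
  m : ℕ → ℕ
  e : ∀ n, Matrix (Fin (m n)) (Fin (m n)) k[G]
  d : ∀ n, Matrix (Fin (m (n + 1))) (Fin (m n)) k[G]
  ε : (Fin (m 0) → k[G]) →+ k
  ee : ∀ n, e n * e n = e n
  ed : ∀ n, e (n + 1) * d n = d n
  de : ∀ n, d n * e n = d n
  dd : ∀ n, d (n + 1) * d n = 0
  ε_smul : ∀ (r : k[G]) x, ε (r • x) = aug k G r * ε x
  ε_d : ∀ y, ε (y ᵥ* d 0) = 0
  surj : ∃ p, p ᵥ* e 0 = p ∧ ε p = 1
  ex0 : ∀ x, x ᵥ* e 0 = x → ε x = 0 → ∃ y, y ᵥ* d 0 = x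
  ex : ∀ n y, y ᵥ* e (n + 1) = y → y ᵥ* d n = 0 → ∃ z, z ᵥ* d (n + 1) = y
  coh : ∀ n, IsZero (groupCohomology (Rep.leftRegular k G) (n + 1)) →
    ∀ y, e (n + 1) *ᵥ y = y → d (n + 1) *ᵥ y = 0 → ∃ z, d n *ᵥ z = y
  top : ∀ n, Nonempty (groupCohomology (Rep.leftRegular k G) (n + 1) ≃+ ℤ) →
    ∃ α : (Fin (m (n + 1)) → k[G]) → ℤ,
      (∀ y y', d (n + 1) *ᵥ y = 0 → d (n + 1) *ᵥ y' = 0 → α (y + y') = α y + α y') ∧
      (∃ y, e (n + 1) *ᵥ y = y ∧ d (n + 1) *ᵥ y = 0 ∧ α y = 1) ∧
      ∀ y, e (n + 1) *ᵥ y = y → d (n + 1) *ᵥ y = 0 → (α y = 0 ↔ ∃ z, d n *ᵥ z = y)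
  fin : ∃ N, ∀ n, N ≤ n → d n = 0

variable {ι κ : Type} [Fintype ι] [Fintype κ] [DecidableEq ι] [DecidableEq κ]

omit [Fintype κ] [DecidableEq κ] in
theorem exists_matHom (f : freeRep k G ι ⟶ freeRep k G κ) : ∃ D, f = matHom D :=
  ⟨Matrix.of fun i => f.hom (Pi.single i 1), free_ext fun i =>
    (homOf_single (freeRep k G κ) (fun i => f.hom (Pi.single i 1)) i).symm⟩

omit [Fintype κ] [DecidableEq κ] in
theorem mat_ext {A B : Matrix ι κ k[G]} (h : ∀ x, x ᵥ* A = x ᵥ* B) : A = B := by
  funext i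
  have := h (Pi.single i 1)
  rwa [single_one_vecMul, single_one_vecMul] at this

theorem exists_mres (P : ProjectiveResolution (Rep.trivial k G k))
    (hfin : ∀ n : ℕ, Module.Finite k[G] (Rep.toModuleMonoidAlgebra.obj (P.complex.X n)))
    (N : ℕ) (hN : ∀ n : ℕ, N < n → IsZero (P.complex.X n)) : Nonempty (MRes k G) := by
  choose m y hy using fun n => exists_surjective_of_finite _ (hfin n)
  let π : ∀ n, freeRep k G (Fin (m n)) ⟶ P.complex.X n := fun n => homOf _ (y n)
  have hepi : ∀ n, Epi (π n) := fun n => (Rep.epi_iff_surjective _).2 (hy n)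
  let σ : ∀ n, P.complex.X n ⟶ freeRep k G (Fin (m n)) := fun n =>
    Projective.factorThru (𝟙 _) (π n)
  have hσ : ∀ n, σ n ≫ π n = 𝟙 _ := fun n => Projective.factorThru_comp _ _
  have hσ' : ∀ n a, (π n).hom ((σ n).hom a) = a := fun n a =>
    congrArg (fun f : P.complex.X n ⟶ P.complex.X n => f.hom a) (hσ n)
  choose e he using fun n => exists_matHom (π n ≫ σ n)
  choose d hd using fun n => exists_matHom (π (n + 1) ≫ P.complex.d (n + 1) n ≫ σ n)
  have he' : ∀ n x, x ᵥ* e n = (σ n).hom ((π n).hom x) := fun n x => by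
    rw [← matHom_apply, ← he]; rfl
  have hd' : ∀ n x, x ᵥ* d n =
      (σ n).hom ((P.complex.d (n + 1) n).hom ((π (n + 1)).hom x)) := fun n x => by
    rw [← matHom_apply, ← hd]; rfl
  have hdd : ∀ n a, (P.complex.d (n + 1) n).hom ((P.complex.d (n + 2) (n + 1)).hom a) = 0 :=
    fun n a => congrArg (fun f : P.complex.X (n + 2) ⟶ P.complex.X n => f.hom a)
      (P.complex.d_comp_d (n + 2) (n + 1) n)
  have hce : ∀ n y, π n ≫ σ n ≫ colHom y = colHom (e n *ᵥ y) := fun n y => by
    rw [← Category.assoc, he, matHom_comp_colHom]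
  have hcd : ∀ n y, π (n + 1) ≫ P.complex.d (n + 1) n ≫ σ n ≫ colHom y = colHom (d n *ᵥ y) :=
    fun n y => by rw [← matHom_comp_colHom, ← hd, Category.assoc, Category.assoc]
  have hcoc : ∀ n y, d n *ᵥ y = 0 → P.complex.d (n + 1) n ≫ σ n ≫ colHom y = 0 := fun n y h => by
    rw [← cancel_epi (π (n + 1)), hcd, h, colHom_zero, comp_zero]
  have hcob : ∀ n y, e (n + 1) *ᵥ y = y → ((∃ g : P.complex.X n ⟶ Rep.leftRegular k G,
      P.complex.d (n + 1) n ≫ g = σ (n + 1) ≫ colHom y) ↔ ∃ z, d n *ᵥ z = y) := by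
    intro n y hy
    constructor
    · rintro ⟨g, hg⟩
      obtain ⟨z, hz⟩ : ∃ z, π n ≫ g = colHom z := ⟨_, eq_colHom _⟩
      refine ⟨z, colHom_inj ?_⟩
      rw [← hcd, ← hz, ← Category.assoc (σ n), hσ, Category.id_comp, hg, hce, hy]
    · rintro ⟨z, hz⟩
      refine ⟨σ n ≫ colHom z, ?_⟩
      rw [← cancel_epi (π (n + 1)), hcd, hce, hz, hy]
  let ε : (Fin (m 0) → k[G]) →+ k :=
    { toFun := fun x => (P.π.f 0).hom ((π 0).hom x)
      map_zero' := by rw [map_zero, map_zero]; rfl
      map_add' := fun x y => by rw [map_add, map_add]; rfl }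
  refine ⟨⟨m, e, d, ε, fun n => mat_ext fun x => ?_, fun n => mat_ext fun x => ?_,
    fun n => mat_ext fun x => ?_, fun n => mat_ext fun x => ?_, fun r x => ?_, fun y => ?_, ?_,
    fun x h1 h2 => ?_, fun n y h1 h2 => ?_, fun n h y h1 h2 => ?_, fun n h => ?_,
    N, fun n hn => mat_ext fun x => ?_⟩⟩
  · rw [← vecMul_vecMul, he', he', hσ']
  · rw [← vecMul_vecMul, hd', he', hσ', hd']
  · rw [← vecMul_vecMul, he', hd', hσ']
  · rw [← vecMul_vecMul, hd', hd', hσ', hdd, map_zero, vecMul_zero]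
  · change (P.π.f 0).hom ((π 0).hom (r • x)) = _
    rw [← act_free, hom_act, hom_act]
    exact act_trivial _ _
  · change (P.π.f 0).hom ((π 0).hom _) = _
    rw [hd', hσ']
    exact congrArg (fun f : P.complex.X 1 ⟶ _ => f.hom _) P.complex_d_comp_π_f_zero
  · obtain ⟨a, ha⟩ := (Rep.epi_iff_surjective (P.π.f 0)).1 inferInstance (1 : k)
    refine ⟨(σ 0).hom a, by rw [he', hσ'], ?_⟩
    change (P.π.f 0).hom ((π 0).hom _) = _
    rw [hσ', ha]
  · obtain ⟨a, ha⟩ := (rep_exact_iff _).1 P.exact₀ ((π 0).hom x) h2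
    refine ⟨(σ 1).hom a, ?_⟩
    rw [hd', hσ', ← h1, he']
    exact congrArg _ ha
  · obtain ⟨a, ha⟩ := (rep_exact_iff _).1 (P.exact_succ n) ((π (n + 1)).hom y) (by
      change (P.complex.d (n + 1) n).hom _ = 0
      rw [← hσ' n ((P.complex.d (n + 1) n).hom _), ← hd', h2, map_zero])
    refine ⟨(σ (n + 2)).hom a, ?_⟩
    rw [hd', hσ', ← h1, he']
    exact congrArg _ ha
  · exact (hcob n y h1).1 ((coh_succ_zero_iff P _ n).1 h _ (hcoc _ y h2))
  · obtain ⟨α, h1, h2, h3⟩ := (coh_equiv_iff P _ n).1 h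
    refine ⟨fun y => α (σ (n + 1) ≫ colHom y), fun y y' hy hy' => ?_, ?_, fun y hy hy' => ?_⟩
    · simp only [colHom_add, Preadditive.comp_add]
      exact h1 _ _ (hcoc _ y hy) (hcoc _ y' hy')
    · obtain ⟨f, hf, hf1⟩ := h2 1
      obtain ⟨y, hy⟩ : ∃ y, π (n + 1) ≫ f = colHom y := ⟨_, eq_colHom _⟩
      have hy' : σ (n + 1) ≫ colHom y = f := by
        rw [← hy, ← Category.assoc, hσ, Category.id_comp]
      refine ⟨y, colHom_inj ?_, colHom_inj ?_, ?_⟩
      · rw [← hce, hy', hy]
      · rw [← hcd, hy', hf, comp_zero, colHom_zero]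
      · simp only [hy', hf1]
    · exact (h3 _ (hcoc _ y hy')).trans (hcob n y hy)
  · rw [hd', (hN (n + 1) (by omega)).eq_of_tgt (π (n + 1)) 0, vecMul_zero]
    simp

theorem MRes.reg (Q : MRes k G) (a : ℕ)
    (h : ∀ n, a ≤ n → IsZero (groupCohomology (Rep.leftRegular k G) (n + 1))) (n : ℕ)
    (hn : a ≤ n) : ∃ u : Matrix (Fin (Q.m n)) (Fin (Q.m (n + 1))) k[G],
      Q.d n * u * Q.d n = Q.d n := by
  obtain ⟨N, hN⟩ := Q.fin
  induction' hc : N - n with c ih generalizing n
  · exact ⟨0, by rw [hN n (by omega)]; simp⟩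
  · obtain ⟨u, hu⟩ := ih (n + 1) (by omega) (by omega)
    let p := Q.e (n + 1) - Q.e (n + 1) * u * Q.d (n + 1)
    have h1 : Q.e (n + 1) * p = p := by
      simp only [p, Matrix.mul_sub, ← Matrix.mul_assoc, Q.ee]
    have h2 : Q.d (n + 1) * p = 0 := by
      simp only [p, Matrix.mul_sub, ← Matrix.mul_assoc, Q.de, hu, sub_self]
    choose z hz using fun j => Q.coh n (h n hn) (p.col j) (funext fun i => congrFun (congrFun h1 i) j)
      (funext fun i => congrFun (congrFun h2 i) j)
    refine ⟨(Matrix.of z)ᵀ, ?_⟩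
    have h3 : Q.d n * (Matrix.of z)ᵀ = p := Matrix.ext fun i j => congrFun (hz j) i
    rw [h3]
    simp only [p, Matrix.sub_mul, Matrix.mul_assoc, Q.dd, Q.ed, Matrix.mul_zero, sub_zero]

end

end Pool.Agent.P.MP_6e40fc_al
end

-- part Pool.Agent.P.MP_6e40fc_al.MainB
section

/-! No properly ascending decomposition with finitely generated base. -/

namespace Pool.Agent.P.MP_6e40fc_al

open CategoryTheory Matrix Limits
open scoped MonoidAlgebra

noncomputable section

set_option linter.unusedSectionVars false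

variable {G : Type} [Group G]

/-- twisted conjugate transpose -/
def tc (w : G →* ℤˣ) {m n : Type} (X : Matrix m n ℤ[G]) : Matrix n m ℤ[G] := (X.map (conj w))ᵀ

theorem tc_mul (w : G →* ℤˣ) {l m n : Type} [Fintype m] (X : Matrix l m ℤ[G])
    (Y : Matrix m n ℤ[G]) : tc w Y * tc w X = tc w (X * Y) := by
  ext1 a b
  simp only [tc, mul_apply, transpose_apply, map_apply, map_sum, conj_mul]

theorem conj_vecMul_tc (w : G →* ℤˣ) {m n : Type} [Fintype n] (X : Matrix m n ℤ[G])
    (x : n → ℤ[G]) : conj w ∘ (x ᵥ* tc w X) = X *ᵥ (conj w ∘ x) := by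
  funext a
  simp only [tc, Function.comp_apply, vecMul, mulVec, dotProduct, transpose_apply, map_apply,
    map_sum, conj_mul, conj_conj]

theorem conj_comp_conj (w : G →* ℤˣ) {n : Type} (x : n → ℤ[G]) : conj w ∘ (conj w ∘ x) = x :=
  funext fun _ => conj_conj _ _

theorem conj_comp_inj (w : G →* ℤˣ) {n : Type} {x y : n → ℤ[G]} (h : conj w ∘ x = conj w ∘ y) :
    x = y := by rw [← conj_comp_conj w x, h, conj_comp_conj]

theorem mulVec_rm {m n : Type} [Fintype n] (X : Matrix m n ℤ[G]) (y : n → ℤ[G]) (r : ℤ[G]) :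
    X *ᵥ (fun i => y i * r) = fun i => (X *ᵥ y) i * r := by
  funext a
  simp only [mulVec, dotProduct, Finset.sum_mul, mul_assoc]

theorem exists_pres (hG : IsPD 3 G) : ∃ (n0 n1 n2 m0 : ℕ) (P : PRes G (Fin n0) (Fin n1) (Fin n2))
    (P' : PRes G (Fin m0) (Fin n2) (Fin n1)) (w : G →* ℤˣ), P'.d2 = (P.d2.map (conj w))ᵀ := by
  obtain ⟨⟨P, hfin, N, hN⟩, h0, h3⟩ := hG
  obtain ⟨Q⟩ := exists_mres P hfin N hN
  obtain ⟨u, hu⟩ := Q.reg 3 (fun n hn => h0 _ (by omega)) 3 le_rfl
  obtain ⟨α, ha, ⟨y0, hy1, hy2, hy3⟩, hk⟩ := Q.top 2 h3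
  let p := Q.e 3 - Q.e 3 * u * Q.d 3
  have h1 : Q.e 3 * p = p := by simp only [p, Matrix.mul_sub, ← Matrix.mul_assoc, Q.ee]
  have h2 : Q.d 3 * p = 0 := by
    simp only [p, Matrix.mul_sub, ← Matrix.mul_assoc, Q.de, hu, sub_self]
  have hpp : p * p = p := by
    conv_lhs => enter [1]; simp only [p]
    rw [Matrix.sub_mul, h1, Matrix.mul_assoc, h2, Matrix.mul_zero, sub_zero]
  have hpd : p * Q.d 2 = Q.d 2 := by
    simp only [p, Matrix.sub_mul, Matrix.mul_assoc, Q.dd, Q.ed, Matrix.mul_zero, sub_zero]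
  have hdp : ∀ y, Q.d 3 *ᵥ (p *ᵥ y) = 0 := fun y => by rw [mulVec_mulVec, h2, zero_mulVec]
  have hpy : p *ᵥ y0 = y0 := by
    simp only [p, sub_mulVec, ← mulVec_mulVec, hy1, hy2, mulVec_zero, sub_zero]
  let β : (Fin (Q.m 3) → ℤ[G]) →+ ℤ := AddMonoidHom.mk' (fun y => α (p *ᵥ y)) fun y y' => by
    rw [mulVec_add]; exact ha _ _ (hdp y) (hdp y')
  have hβ : ∀ y, β y = 0 ↔ ∃ z, Q.d 2 *ᵥ z = p *ᵥ y := fun y =>
    hk _ (by rw [mulVec_mulVec, h1]) (hdp y)
  have hβ0 : β y0 = 1 := by change α (p *ᵥ y0) = 1; rw [hpy, hy3]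
  have hrm : ∀ (y : Fin (Q.m 3) → ℤ[G]) (r : ℤ[G]),
      β (fun i => y i * r) = β y * β fun i => y0 i * r := by
    intro y r
    obtain ⟨z, hz⟩ := (hβ (y - β y • y0)).1 (by rw [map_sub, map_zsmul, hβ0]; simp)
    have := (hβ fun i => (y - β y • y0) i * r).2 ⟨fun i => z i * r, by
      rw [mulVec_rm, mulVec_rm, hz]⟩
    have e : (fun i => (y - β y • y0) i * r) = (fun i => y i * r) - β y • fun i => y0 i * r := by
      funext i
      simp only [Pi.sub_apply, Pi.smul_apply, sub_mul, smul_mul_assoc]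
    rw [e, map_sub, map_zsmul, sub_eq_zero] at this
    exact this
  let w0 : G →* ℤ :=
    { toFun := fun g => β fun i => y0 i * o g
      map_one' := by simpa using hβ0
      map_mul' := fun g h => by
        rw [← hrm]
        simp only [mul_o_mul] }
  let w := w0.toHomUnits
  have hw : ∀ r, (β fun i => y0 i * conj w r) = aug ℤ G r := by
    intro r
    induction r using zg_induction with
    | ho g =>
      have e : (fun i => y0 i * conj w (o g)) = (w g : ℤ) • fun i => y0 i * o g⁻¹ := by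
        funext i
        rw [conj_o, mul_smul_comm]; rfl
      rw [e, map_zsmul, aug_o]
      change w0 g * w0 g⁻¹ = 1
      rw [← map_mul, mul_inv_cancel, map_one]
    | hadd x y hx hy =>
      rw [map_add (aug ℤ G), ← hx, ← hy, ← map_add]
      congr 1
      funext i
      rw [map_add, mul_add]; rfl
    | hsmul n x hx =>
      rw [map_zsmul (aug ℤ G), ← hx, ← map_zsmul]
      congr 1
      funext i
      rw [map_zsmul, mul_smul_comm]; rfl
  let ε : (Fin (Q.m 3) → ℤ[G]) →+ ℤ := AddMonoidHom.mk' (fun x => β (conj w ∘ x)) fun x y => by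
    rw [← map_add]
    congr 1
    funext i
    exact map_add _ _ _
  refine ⟨_, _, _, _, ⟨Q.e 0, Q.e 1, Q.d 0, Q.d 1, Q.ε, Q.ε_smul, Q.ε_d, Q.ee 0, Q.de 0, Q.ee 1,
    Q.ed 0, Q.de 1, Q.dd 0, Q.surj, Q.ex0, Q.ex 0⟩,
    ⟨tc w p, tc w (Q.e 2), tc w (Q.d 2), tc w (Q.d 1), ε, fun r x => ?_, fun y => ?_,
      by rw [tc_mul, hpp], by rw [tc_mul, hpd], by rw [tc_mul, Q.ee], by rw [tc_mul, Q.de],
      by rw [tc_mul, Q.ed], ?_, ⟨conj w ∘ y0, conj_comp_inj w ?_, ?_⟩, fun x hx hx' => ?_,
      fun y hy hy' => ?_⟩, w, rfl⟩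
  · change β _ = _ * β _
    rw [← hw, mul_comm, ← hrm]
    congr 1
    funext i
    exact conj_mul _ _ _
  · change β _ = 0
    rw [conj_vecMul_tc, hβ]
    exact ⟨conj w ∘ y, by rw [mulVec_mulVec, hpd]⟩
  · rw [tc_mul, Q.dd]
    ext1 a b
    exact map_zero (conj w)
  · rw [conj_vecMul_tc, conj_comp_conj, hpy]
  · change β _ = 1
    rw [conj_comp_conj, hβ0]
  · obtain ⟨z, hz⟩ := (hβ _).1 hx'
    refine ⟨conj w ∘ z, conj_comp_inj w ?_⟩
    rw [conj_vecMul_tc, conj_comp_conj, hz, ← conj_vecMul_tc, hx]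
  · obtain ⟨z, hz⟩ := Q.coh 1 (h0 _ (by omega)) (conj w ∘ y) (by rw [← conj_vecMul_tc, hy])
      (by rw [← conj_vecMul_tc, hy']; funext i; exact map_zero _)
    refine ⟨conj w ∘ z, conj_comp_inj w ?_⟩
    rw [conj_vecMul_tc, conj_comp_conj, hz]

theorem mainB (G : Type) [Group G] (hG : IsPD 3 G) (H : Type) [Group H] (hH : Group.FG H)
    (φ : H →* H) (hφ : Function.Injective φ) (e : G ≃* AscHNN H φ hφ) :
    Function.Surjective φ := by
  obtain ⟨n0, n1, n2, m0, P, P', w, hw⟩ := exists_pres hG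
  let j : H →* G := e.symm.toMonoidHom.comp HNNExtension.of
  let t : G := e.symm HNNExtension.t
  let χ : G →* Multiplicative ℤ := (hnnχ φ hφ).comp e.toMonoidHom
  have ht : χ t = Multiplicative.ofAdd 1 := by simp [χ, t, hnnχ_t]
  have hj : ∀ h, χ (j h) = 1 := fun h => by simp [χ, j, hnnχ_of]
  have hc : ∀ h, t * j h * t⁻¹ = j (φ h) := fun h => by
    change e.symm _ * e.symm _ * (e.symm _)⁻¹ = e.symm _
    rw [← map_inv, ← map_mul, ← map_mul, hnn_conj]
  have hnf : ∀ g : G, ∃ (m n : ℕ) (h : H), g = (t ^ m)⁻¹ * j h * t ^ n := fun g => by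
    obtain ⟨m, n, h, hg⟩ := hnn_normal_form φ hφ (e g)
    refine ⟨m, n, h, e.injective ?_⟩
    rw [hg]
    simp [t, j]
  exact surjective_of_allPrinc φ j t χ ht hj hc hnf
    (e.symm.injective.comp (HNNExtension.of_injective _))
    (allPrinc_symm P P' w hw χ t ht (allPrinc_plus φ j t χ ht hj hc hnf hH))

end

end Pool.Agent.P.MP_6e40fc_al
end
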