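import Mathlib
import Pool.Agent.K.MP_5ee5b4_al.C0
import Pool.Agent.P.MP_5ee5b4_al.Defs

-- part Pool.Agent.P.MP_5ee5b4_al.Cut
section

/-! Cuts of Cayley graphs, nestedness and ping-pong. -/

namespace Pool.Agent.P.MP_5ee5b4_al

open scoped Pointwise

variable {Γ : Type} [Group Γ]

theorem const_of_edges {S : Set Γ} (hS : Subgroup.closure S = ⊤) (f : Γ → Prop)
    (h : ∀ x, ∀ s ∈ S, (f x ↔ f (x * s))) (x : Γ) : f x ↔ f 1 := by
  have hx : x ∈ Subgroup.closure S := hS ▸ Subgroup.mem_top x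
  induction hx using Subgroup.closure_induction_right with
  | one => rfl
  | mul_right x _ y hy ih => exact (h x y hy).symm.trans ih
  | mul_inv_cancel x _ y hy ih =>
    have := h (x * y⁻¹) y hy
    rw [inv_mul_cancel_right] at this
    exact this.trans ih

/-- a cut of the Cayley graph -/
structure Cut (S : Set Γ) where
  Y : Set Γ
  C : Set Γ
  gen : Subgroup.closure S = ⊤
  one_mem : 1 ∈ C
  conn : ∀ f : Γ → Prop, (∀ x ∈ C, ∀ s ∈ S, x * s ∈ C → (f x ↔ f (x * s))) →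
    ∀ x ∈ C, (f x ↔ f 1)
  bdry : ∀ x, ∀ s ∈ S, ¬ (x ∈ Y ↔ x * s ∈ Y) → x ∈ C ∧ x * s ∈ C

namespace Cut

variable {S : Set Γ} (c : Cut S)

/-- the opposite cut -/
def symm : Cut S where
  Y := c.Yᶜ
  C := c.C
  gen := c.gen
  one_mem := c.one_mem
  conn := c.conn
  bdry x s hs h := c.bdry x s hs fun h' => h (not_congr h')

/-- elements moving the core off itself -/
def Gen (g : Γ) : Prop := ∀ x ∈ c.C, g * x ∉ c.C

variable {c}

theorem Gen.inv {g : Γ} (h : c.Gen g) : c.Gen g⁻¹ := fun x hx hx' =>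
  h _ hx' (by rwa [mul_inv_cancel_left])

theorem Gen.side {g : Γ} (h : c.Gen g) {x : Γ} (hx : x ∈ c.C) : g * x ∈ c.Y ↔ g ∈ c.Y := by
  have := c.conn (fun x => g * x ∈ c.Y) (fun x hx s hs _ => by
    by_contra h'
    rw [← mul_assoc] at h'
    exact h x hx (c.bdry _ s hs h').1) x hx
  simpa using this

theorem Gen.nest {g : Γ} (h : c.Gen g) (x : Γ) :
    (x ∈ c.Y ↔ g ∈ c.Y) ∨ (g⁻¹ * x ∈ c.Y ↔ g⁻¹ ∈ c.Y) := by
  have key : ∀ x, ∀ s ∈ S, (((x ∈ c.Y ↔ g ∈ c.Y) ∨ (g⁻¹ * x ∈ c.Y ↔ g⁻¹ ∈ c.Y)) ↔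
      ((x * s ∈ c.Y ↔ g ∈ c.Y) ∨ (g⁻¹ * (x * s) ∈ c.Y ↔ g⁻¹ ∈ c.Y))) := by
    intro x s hs
    by_cases h1 : x ∈ c.Y ↔ x * s ∈ c.Y
    · by_cases h2 : g⁻¹ * x ∈ c.Y ↔ g⁻¹ * x * s ∈ c.Y
      · rw [h1, h2, mul_assoc]
      · obtain ⟨h3, h4⟩ := c.bdry _ s hs h2
        have h5 := h.side h3
        have h6 := h.side h4
        rw [mul_inv_cancel_left] at h5
        rw [mul_assoc, mul_inv_cancel_left] at h6
        exact iff_of_true (Or.inl h5) (Or.inl h6)
    · obtain ⟨h3, h4⟩ := c.bdry _ s hs h1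
      exact iff_of_true (Or.inr (h.inv.side h3)) (Or.inr (h.inv.side h4))
  exact (const_of_edges c.gen _ key x).2 (Or.inr (by rw [mul_one]))

variable (c) in
/-- elements pushing the cut into itself -/
structure Hyp (g : Γ) : Prop where
  gen : c.Gen g
  mem : g ∈ c.Y
  inv_notMem : g⁻¹ ∉ c.Y

theorem Hyp.symm {g : Γ} (h : c.Hyp g) : c.symm.Hyp g⁻¹ :=
  ⟨h.gen.inv, h.inv_notMem, by rw [inv_inv]; exact fun h' => h' h.mem⟩

theorem Hyp.mul_mem {g : Γ} (h : c.Hyp g) {x : Γ} (hx : x ∈ c.Y) : g * x ∈ c.Y := by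
  rcases h.gen.nest (g * x) with h1 | h1
  · exact h1.2 h.mem
  · rw [inv_mul_cancel_left] at h1
    exact absurd (h1.1 hx) h.inv_notMem

theorem Hyp.pow_mul_mem {g : Γ} (h : c.Hyp g) {x : Γ} (hx : x ∈ c.Y) (k : ℕ) :
    g ^ k * x ∈ c.Y := by
  induction k with
  | zero => simpa using hx
  | succ k ih => rw [pow_succ', mul_assoc]; exact h.mul_mem ih

theorem Hyp.attract {g : Γ} (h : c.Hyp g) (x : Γ) : ∃ k0 : ℕ, ∀ k ≥ k0, g ^ k * x ∈ c.Y := by
  have key : ∀ x, ∀ s ∈ S, ((∃ k : ℕ, g ^ k * x ∈ c.Y) ↔ ∃ k : ℕ, g ^ k * (x * s) ∈ c.Y) := by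
    intro x s hs
    have aux : ∀ z, z ∈ c.Y → g * z ∉ c.C := fun z hz hz' => by
      have := h.gen.inv.side hz'
      rw [inv_mul_cancel_left] at this
      exact h.inv_notMem (this.1 hz)
    constructor
    · rintro ⟨k, hk⟩
      refine ⟨k + 1, ?_⟩
      by_contra h'
      refine aux _ hk (c.bdry _ s hs fun e => h' ?_).1
      rw [pow_succ', ← mul_assoc, mul_assoc g]
      exact e.1 (h.mul_mem hk)
    · rintro ⟨k, hk⟩
      refine ⟨k + 1, ?_⟩
      by_contra h'
      refine aux _ hk ?_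
      have := (c.bdry (g ^ (k + 1) * x) s hs fun e => h' (e.2 ?_)).2
      · rwa [pow_succ', mul_assoc, mul_assoc] at this
      · rw [pow_succ', mul_assoc, mul_assoc]
        exact h.mul_mem hk
  obtain ⟨k0, hk0⟩ := (const_of_edges c.gen _ key x).2 ⟨1, by simpa using h.mem⟩
  refine ⟨k0, fun k hk => ?_⟩
  obtain ⟨j, rfl⟩ := Nat.exists_eq_add_of_le' hk
  rw [pow_add, mul_assoc]
  exact h.pow_mul_mem hk0 j

theorem Hyp.repel {g : Γ} (h : c.Hyp g) (x : Γ) : ∃ k0 : ℕ, ∀ k ≥ k0, g⁻¹ ^ k * x ∉ c.Y :=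
  h.symm.attract x

theorem Hyp.pow_injective {g : Γ} (h : c.Hyp g) {k : ℕ} (hk : g ^ k = 1) : k = 0 := by
  by_contra h0
  obtain ⟨k0, hk0⟩ := h.attract g⁻¹
  have := hk0 (k * k0) (Nat.le_mul_of_pos_left _ (Nat.pos_of_ne_zero h0))
  rw [pow_mul, hk, one_pow, one_mul] at this
  exact h.inv_notMem this

/-- ping-pong -/
theorem Hyp.pingpong {g : Γ} (hg : c.Hyp g) (h : Γ) (k : ℕ)
    (H : ∀ a b : ℤ, (a = k ∨ a = -k) → (b = k ∨ b = -k) →
      c.Gen (g ^ (-a) * h * g ^ b) ∧ (g ^ (-a) * h * g ^ b ∈ c.Y ↔ a < 0) ∧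
        ((g ^ (-a) * h * g ^ b)⁻¹ ∈ c.Y ↔ b < 0)) (hk : 0 < k) :
    Function.Injective (FreeGroup.lift ![g ^ (2 * k), (h * g * h⁻¹) ^ (2 * k)]) := by
  let u : Fin 2 → Γ := ![1, h]
  let X : Fin 2 → Set Γ := fun i => {x | g ^ (-(k : ℤ)) * ((u i)⁻¹ * x) ∈ c.Y}
  let Z : Fin 2 → Set Γ := fun i => {x | g ^ (k : ℤ) * ((u i)⁻¹ * x) ∉ c.Y}
  have ha : ∀ i, ![g ^ (2 * k), (h * g * h⁻¹) ^ (2 * k)] i = u i * g ^ (2 * k) * (u i)⁻¹ := by
    intro i
    fin_cases i <;> simp [u]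
  have key : ∀ a b : ℤ, (a = k ∨ a = -k) → (b = k ∨ b = -k) → ∀ x,
      (g ^ (-a) * x ∈ c.Y ↔ a < 0) ∨ (g ^ (-b) * (h⁻¹ * x) ∈ c.Y ↔ b < 0) := by
    intro a b ha hb x
    obtain ⟨h1, h2, h3⟩ := H a b ha hb
    have := h1.nest (g ^ (-a) * x)
    rw [h2, h3] at this
    have e : (g ^ (-a) * h * g ^ b)⁻¹ * (g ^ (-a) * x) = g ^ (-b) * (h⁻¹ * x) := by group
    rwa [e] at this
  have hk1 : ¬ ((k : ℤ) < 0) := by omega
  have hk2 : -(k : ℤ) < 0 := by omega
  have hsame : ∀ i, Disjoint (X i) (Z i) := fun i => Set.disjoint_left.2 fun x hx hx' => by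
    refine hx' ?_
    have := hg.pow_mul_mem hx (2 * k)
    rw [← mul_assoc, ← zpow_natCast, ← zpow_add] at this
    convert this using 3
    push_cast; ring
  refine FreeGroup.injective_lift_of_ping_pong _ X Z (fun i => ⟨u i * g ^ (k + 1), ?_⟩) ?_ ?_ ?_
    (fun i => ?_) (fun i => ?_)
  · change _ ∈ c.Y
    convert hg.mem using 1
    group
  · have : Disjoint (X 0) (X 1) := Set.disjoint_left.2 fun x hx hx' => by
      have := key k k (Or.inl rfl) (Or.inl rfl) x
      simp only [X, u, Set.mem_ofPred_eq, Matrix.cons_val_zero, inv_one, one_mul,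
        Matrix.cons_val_one] at hx hx'
      tauto
    intro i j hij
    fin_cases i <;> fin_cases j
    · exact absurd rfl hij
    · exact this
    · exact this.symm
    · exact absurd rfl hij
  · have : Disjoint (Z 0) (Z 1) := Set.disjoint_left.2 fun x hx hx' => by
      have := key (-k) (-k) (Or.inr rfl) (Or.inr rfl) x
      simp only [Z, u, Set.mem_ofPred_eq, Matrix.cons_val_zero, inv_one, one_mul,
        Matrix.cons_val_one] at hx hx'
      rw [neg_neg] at this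
      tauto
    intro i j hij
    fin_cases i <;> fin_cases j
    · exact absurd rfl hij
    · exact this
    · exact this.symm
    · exact absurd rfl hij
  · intro i j
    fin_cases i <;> fin_cases j
    · exact hsame 0
    · refine Set.disjoint_left.2 fun x hx hx' => ?_
      have := key k (-k) (Or.inl rfl) (Or.inr rfl) x
      simp only [X, Z, u, Set.mem_ofPred_eq, Matrix.cons_val_zero, inv_one, one_mul,
        Matrix.cons_val_one, Fin.zero_eta, Fin.mk_one] at hx hx'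
      rw [neg_neg] at this
      tauto
    · refine Set.disjoint_left.2 fun x hx hx' => ?_
      have := key (-k) k (Or.inr rfl) (Or.inl rfl) x
      simp only [X, Z, u, Set.mem_ofPred_eq, Matrix.cons_val_zero, inv_one, one_mul,
        Matrix.cons_val_one, Fin.zero_eta, Fin.mk_one] at hx hx'
      rw [neg_neg] at this
      tauto
    · exact hsame 1
  · rintro _ ⟨x, hx, rfl⟩
    have hx' : g ^ (k : ℤ) * ((u i)⁻¹ * x) ∈ c.Y := not_not.1 hx
    change g ^ (-(k : ℤ)) * ((u i)⁻¹ * (_ * x)) ∈ c.Y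
    rw [ha]
    convert hx' using 1
    group
  · rintro _ ⟨x, hx, rfl⟩
    have hx' : g ^ (-(k : ℤ)) * ((u i)⁻¹ * x) ∉ c.Y := hx
    change g ^ (k : ℤ) * ((u i)⁻¹ * (_ * x)) ∉ c.Y
    rw [Pi.inv_apply, ha]
    convert hx' using 2
    group

end Cut

end Pool.Agent.P.MP_5ee5b4_al
end

-- part Pool.Agent.P.MP_5ee5b4_al.Ends
section

/-! Groups with more than one end and no free subgroup are virtually cyclic. -/

namespace Pool.Agent.P.MP_5ee5b4_al

variable {Γ : Type} [Group Γ]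

/-- no two large powers freely generate a free group -/
def NF (N : Subgroup Γ) : Prop :=
  ∀ a ∈ N, ∀ b ∈ N, ∀ k0 : ℕ, ∃ k ≥ k0,
    ¬ Function.Injective (FreeGroup.lift ![a ^ (2 * k), b ^ (2 * k)])

/-- connected subsets of the Cayley graph through the identity -/
def IsConn (S C : Set Γ) : Prop :=
  1 ∈ C ∧ ∀ f : Γ → Prop, (∀ x ∈ C, ∀ s ∈ S, x * s ∈ C → (f x ↔ f (x * s))) →
    ∀ x ∈ C, (f x ↔ f 1)

theorem exists_conn {S : Set Γ} (hS : Subgroup.closure S = ⊤) (x : Γ) :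
    ∃ C : Set Γ, C.Finite ∧ IsConn S C ∧ x ∈ C := by
  have hx : x ∈ Subgroup.closure S := hS ▸ Subgroup.mem_top x
  induction hx using Subgroup.closure_induction_right with
  | one => exact ⟨{1}, Set.finite_singleton _, ⟨rfl, fun f _ x hx => by rw [hx]⟩, rfl⟩
  | mul_right x _ y hy ih =>
    obtain ⟨C, h1, ⟨h2, h3⟩, h4⟩ := ih
    refine ⟨insert (x * y) C, h1.insert _, ⟨Or.inr h2, fun f hf z hz => ?_⟩, Or.inl rfl⟩
    have h5 := h3 f fun a ha s hs has => hf a (Or.inr ha) s hs (Or.inr has)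
    rcases hz with rfl | hz
    · exact (hf x (Or.inr h4) y hy (Or.inl rfl)).symm.trans (h5 x h4)
    · exact h5 z hz
  | mul_inv_cancel x _ y hy ih =>
    obtain ⟨C, h1, ⟨h2, h3⟩, h4⟩ := ih
    refine ⟨insert (x * y⁻¹) C, h1.insert _, ⟨Or.inr h2, fun f hf z hz => ?_⟩, Or.inl rfl⟩
    have h5 := h3 f fun a ha s hs has => hf a (Or.inr ha) s hs (Or.inr has)
    rcases hz with rfl | hz
    · have := hf (x * y⁻¹) (Or.inl rfl) y hy (Or.inr (by simpa using h4))
      rw [inv_mul_cancel_right] at this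
      exact this.trans (h5 x h4)
    · exact h5 z hz

theorem exists_conn_finite {S : Set Γ} (hS : Subgroup.closure S = ⊤) {B : Set Γ}
    (hB : B.Finite) : ∃ C : Set Γ, C.Finite ∧ IsConn S C ∧ B ⊆ C := by
  choose C h1 h2 h3 using exists_conn hS
  refine ⟨⋃ x ∈ insert 1 B, C x, (hB.insert 1).biUnion fun x _ => h1 x, ⟨?_, fun f hf z hz => ?_⟩,
    fun x hx => Set.mem_biUnion (Or.inr hx) (h3 x)⟩
  · exact Set.mem_biUnion (Or.inl rfl) (h3 1)
  · obtain ⟨x, hx, hz⟩ := Set.mem_iUnion₂.1 hz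
    exact (h2 x).2 f (fun a ha s hs has => hf a (Set.mem_biUnion hx ha) s hs
      (Set.mem_biUnion hx has)) z hz

theorem almostInv {S : Set Γ} (hS : Subgroup.closure S = ⊤) {Y : Set Γ}
    (hY : ∀ s ∈ S, {x | ¬ (x ∈ Y ↔ x * s ∈ Y)}.Finite) (g : Γ) :
    {x | ¬ (x ∈ Y ↔ x * g ∈ Y)}.Finite := by
  have hg : g ∈ Subgroup.closure S := hS ▸ Subgroup.mem_top g
  induction hg using Subgroup.closure_induction with
  | mem s hs => exact hY s hs
  | one => simp
  | mul a b _ _ ha hb =>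
    refine (ha.union (hb.preimage (f := fun x => x * a)
      (mul_left_injective a).injOn)).subset fun x hx => ?_
    simp only [Set.mem_ofPred_eq, Set.mem_union, Set.mem_preimage, ← mul_assoc] at hx ⊢
    tauto
  | inv a _ ha =>
    refine (ha.preimage (f := fun x => x * a⁻¹) (mul_left_injective a⁻¹).injOn).subset
      fun x hx => ?_
    simp only [Set.mem_ofPred_eq, Set.mem_preimage, inv_mul_cancel_right] at hx ⊢
    tauto

theorem ends {S : Set Γ} (hS : Subgroup.closure S = ⊤) (hfin : S.Finite) {Y : Set Γ}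
    (hY : ∀ s ∈ S, {x | ¬ (x ∈ Y ↔ x * s ∈ Y)}.Finite) (h1 : Y.Infinite) (h2 : Yᶜ.Infinite)
    (hN : NF (⊤ : Subgroup Γ)) : ∃ ν : Γ, (Subgroup.zpowers ν).FiniteIndex := by
  obtain ⟨C, hC, ⟨hC1, hC2⟩, hBC⟩ := exists_conn_finite hS
    (B := ⋃ s ∈ S, {x | ¬ (x ∈ Y ↔ x * s ∈ Y)} ∪ (· * s) '' {x | ¬ (x ∈ Y ↔ x * s ∈ Y)})
    (hfin.biUnion fun s hs => (hY s hs).union ((hY s hs).image _))
  let c : Cut S := ⟨Y, C, hS, hC1, hC2, fun x s hs h =>
    ⟨hBC (Set.mem_biUnion hs (Or.inl h)), hBC (Set.mem_biUnion hs (Or.inr ⟨x, h, rfl⟩))⟩⟩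
  have hai := almostInv hS hY
  have hng : {g | ¬ c.Gen g}.Finite := by
    refine (hC.image2 (fun y x => y * x⁻¹) hC).subset fun g hg => ?_
    simp only [Cut.Gen, Set.mem_ofPred_eq, not_forall, not_not] at hg
    obtain ⟨x, hx, hx'⟩ := hg
    exact ⟨_, hx', x, hx, by simp⟩
  obtain ⟨ν, hν⟩ : ∃ ν, c.Hyp ν := by
    by_contra hcon
    have hsym : ∀ g, c.Gen g → (g ∈ Y ↔ g⁻¹ ∈ Y) := fun g hg =>
      ⟨fun h => by_contra fun h' => hcon ⟨g, hg, h, h'⟩,
        fun h => by_contra fun h' => hcon ⟨g⁻¹, hg.inv, h, by rwa [inv_inv]⟩⟩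
    obtain ⟨g, hg, hg'⟩ := (h1.diff hng).nonempty
    have hg2 : c.Gen g := not_not.1 hg'
    obtain ⟨x, hx, hx'⟩ := (h2.diff ((hng.union (hng.preimage (f := fun x => g⁻¹ * x)
      (mul_right_injective _).injOn)).union ((hai g).preimage (f := fun x => x⁻¹)
        inv_injective.injOn))).nonempty
    simp only [Set.mem_union, Set.mem_ofPred_eq, Set.mem_preimage, not_or, not_not] at hx'
    obtain ⟨⟨h3, h4⟩, h5⟩ := hx'
    have h6 := hsym _ h4
    rw [mul_inv_rev, inv_inv, ← h5, ← hsym _ h3] at h6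
    rcases hg2.nest x with h7 | h7
    · exact hx (h7.2 hg)
    · exact hx (h6.1 (h7.2 ((hsym g hg2).1 hg)))
  set E : Set Γ := {g | ¬ c.Gen g} ∪ {x | ¬ (x ∈ Y ↔ x * ν ∈ Y)} with hE
  have hEf : E.Finite := hng.union (hai ν)
  let D : Γ → Set ℤ := fun h => {m | ∃ n : ℤ, ν ^ (-m) * h * ν ^ n ∈ E}
  have hD : ∀ h, (D h).Finite → ∃ k0 : ℕ, ∀ k ≥ k0, ∀ a b : ℤ, (a = k ∨ a = -k) →
      c.Gen (ν ^ (-a) * h * ν ^ b) ∧ (ν ^ (-a) * h * ν ^ b ∈ Y ↔ a < 0) := by
    intro h hh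
    obtain ⟨M, hM⟩ := (hh.image Int.natAbs).bddAbove
    obtain ⟨k1, hk1⟩ := hν.attract h
    obtain ⟨k2, hk2⟩ := hν.repel h
    refine ⟨M + k1 + k2 + 1, fun k hk a b ha => ?_⟩
    have h3 : ∀ n : ℤ, ν ^ (-a) * h * ν ^ n ∉ E := fun n hn => by
      have := hM ⟨a, ⟨n, hn⟩, rfl⟩
      omega
    have h4 : ∀ n : ℤ, (ν ^ (-a) * h * ν ^ n ∈ Y ↔ ν ^ (-a) * h * ν ^ (n + 1) ∈ Y) := fun n => by
      by_contra h'
      refine h3 n (Or.inr ?_)
      rwa [zpow_add_one, ← mul_assoc] at h'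
    have h5 : ν ^ (-a) * h * ν ^ b ∈ Y ↔ ν ^ (-a) * h ∈ Y := by
      induction b using Int.induction_on with
      | zero => simp
      | succ n ih => exact (h4 n).symm.trans ih
      | pred n ih =>
        have := h4 (-n - 1)
        rw [sub_add_cancel] at this
        exact this.trans ih
    refine ⟨by_contra fun h' => h3 b (Or.inl h'), h5.trans ?_⟩
    rcases ha with rfl | rfl
    · refine iff_of_false ?_ (by omega)
      have := hk2 k (by omega)
      rwa [inv_pow, ← zpow_natCast, ← zpow_neg] at this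
    · refine iff_of_true ?_ (by omega)
      have := hk1 k (by omega)
      rwa [neg_neg, zpow_natCast]
  have hinf : ∀ h, (D h).Infinite ∨ (D h⁻¹).Infinite := by
    intro h
    by_contra hcon
    simp only [not_or, Set.not_infinite] at hcon
    obtain ⟨k1, hk1⟩ := hD _ hcon.1
    obtain ⟨k2, hk2⟩ := hD _ hcon.2
    obtain ⟨k, hk, hk'⟩ := hN ν trivial (h * ν * h⁻¹) trivial (k1 + k2 + 1)
    refine hk' (hν.pingpong h k (fun a b ha hb => ?_) (by omega))
    obtain ⟨h3, h4⟩ := hk1 k (by omega) a b ha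
    obtain ⟨-, h5⟩ := hk2 k (by omega) b a hb
    refine ⟨h3, h4, Iff.trans ?_ h5⟩
    have e : (ν ^ (-a) * h * ν ^ b)⁻¹ = ν ^ (-b) * h⁻¹ * ν ^ a := by group
    rw [e]
  have hzp : ∀ a : ℤ, ν ^ a = 1 → a = 0 := fun a ha => by
    have := hν.pow_injective (k := a.natAbs) (by
      rcases Int.natAbs_eq a with e | e
      · rw [← zpow_natCast, ← e, ha]
      · rw [← zpow_natCast, ← inv_eq_one, ← zpow_neg, ← e, ha])
    omega
  have hcomm0 : ∀ h, (D h).Infinite → ∃ a b : ℤ, a ≠ 0 ∧ b ≠ 0 ∧ ν ^ b * h = h * ν ^ a := by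
    intro h hh
    choose! n hn using fun m (hm : m ∈ D h) => hm
    obtain ⟨m, hm, m', hm', hne, e⟩ := hh.exists_ne_map_eq_of_mapsTo
      (f := fun m => ν ^ (-m) * h * ν ^ n m) hn hEf
    have e' : ν ^ (m' - m) * h = h * ν ^ (n m' - n m) := by
      have : ν ^ (m' - m) * h = ν ^ m' * (ν ^ (-m) * h * ν ^ n m) * ν ^ (-n m) := by group
      rw [this, e]
      group
    refine ⟨_, _, fun h0 => ?_, sub_ne_zero.2 hne.symm, e'⟩
    rw [h0, zpow_zero, mul_one, mul_eq_right] at e'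
    exact hne (by have := hzp _ e'; omega)
  have hcomm : ∀ h, ∃ a b : ℤ, b ≠ 0 ∧ ν ^ b * h = h * ν ^ a := by
    intro h
    rcases hinf h with hh | hh
    · obtain ⟨a, b, -, hb, e⟩ := hcomm0 h hh
      exact ⟨a, b, hb, e⟩
    · obtain ⟨a, b, ha, -, e⟩ := hcomm0 _ hh
      refine ⟨b, a, ha, ?_⟩
      calc ν ^ a * h = h * (h⁻¹ * ν ^ a) * h := by group
        _ = _ := by rw [← e]; group
  choose a b hb hab using hcomm
  refine ⟨ν, ?_⟩
  have : Finite (Γ ⧸ Subgroup.zpowers ν) := by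
    rw [← Set.finite_univ_iff]
    refine (((hEf.union hEf.inv).biUnion fun e _ => (Set.finite_Ico 0 |b e|).image
      fun j => (QuotientGroup.mk (ν ^ j * e) : Γ ⧸ Subgroup.zpowers ν))).subset fun q _ => ?_
    obtain ⟨h, rfl⟩ := QuotientGroup.mk_surjective q
    obtain ⟨e, he, m, n, rfl⟩ : ∃ e ∈ E ∪ E⁻¹, ∃ m n : ℤ, h = ν ^ m * e * ν ^ n := by
      rcases hinf h with hh | hh
      · obtain ⟨m, n, hn⟩ := hh.nonempty
        exact ⟨_, Or.inl hn, m, -n, by group⟩
      · obtain ⟨m, n, hn⟩ := hh.nonempty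
        exact ⟨_, Or.inr (Set.inv_mem_inv.2 hn), n, -m, by group⟩
    refine Set.mem_biUnion he ⟨m % b e, ⟨Int.emod_nonneg _ (hb e), Int.emod_lt_abs _ (hb e)⟩, ?_⟩
    refine QuotientGroup.eq.2 ⟨a e * (m / b e) + n, ?_⟩
    have e1 : e⁻¹ * ν ^ (b e) * e = ν ^ a e := by rw [mul_assoc, hab, inv_mul_cancel_left]
    have e2 : ν ^ (a e * (m / b e)) = e⁻¹ * ν ^ (b e * (m / b e)) * e := by
      rw [zpow_mul, zpow_mul, ← e1]
      have := conj_zpow (a := e⁻¹) (b := ν ^ b e) (i := m / b e)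
      rwa [inv_inv] at this
    have e3 : ν ^ m = ν ^ (m % b e) * ν ^ (b e * (m / b e)) := by
      rw [← zpow_add, Int.emod_add_mul_ediv]
    change ν ^ (a e * (m / b e) + n) = _
    rw [zpow_add, e2]
    conv_rhs => rw [e3]
    group
  exact Subgroup.finiteIndex_of_finite_quotient

end Pool.Agent.P.MP_5ee5b4_al
end

-- part Pool.Agent.P.MP_5ee5b4_al.Dich
section

/-! The ascending alternative for a character of a group of type FP2. -/

namespace Pool.Agent.P.MP_5ee5b4_al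

open Pool.Agent.P.MP_6e40fc_al
open scoped MonoidAlgebra

noncomputable section

variable {Γ : Type} [Group Γ]

/-- the level of a group element -/
def lv (χ : Γ →* Multiplicative ℤ) (x : Γ) : ℤ := (χ x).toAdd

section lv
variable (χ : Γ →* Multiplicative ℤ)

@[simp] theorem lv_mul (x y : Γ) : lv χ (x * y) = lv χ x + lv χ y := by simp [lv]
@[simp] theorem lv_one : lv χ 1 = 0 := by simp [lv]
@[simp] theorem lv_inv (x : Γ) : lv χ x⁻¹ = -lv χ x := by simp [lv]
@[simp] theorem lv_pow (x : Γ) (n : ℕ) : lv χ (x ^ n) = n * lv χ x := by simp [lv]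
@[simp] theorem lv_zpow (x : Γ) (n : ℤ) : lv χ (x ^ n) = n * lv χ x := by simp [lv]
theorem lv_eq_zero {x : Γ} : lv χ x = 0 ↔ x ∈ χ.ker := by simp [lv]
@[simp] theorem lv_inv_hom (x : Γ) : lv χ⁻¹ x = -lv χ x := by simp [lv]

end lv

theorem far {S : Set Γ} (hS : Subgroup.closure S = ⊤) (χ : Γ →* Multiplicative ℤ) {α : Type}
    (F : Γ → α) (D : ℤ) (hF : ∀ x, ∀ s ∈ S, D < |lv χ x| → F (x * s) = F x) (g : Γ) :
    ∃ R : ℕ, ∀ x, (R : ℤ) < |lv χ x| → F (x * g) = F x := by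
  have hg : g ∈ Subgroup.closure S := hS ▸ Subgroup.mem_top g
  induction hg using Subgroup.closure_induction with
  | mem s hs => exact ⟨D.natAbs, fun x hx => hF x s hs (by omega)⟩
  | one => exact ⟨0, fun x _ => by rw [mul_one]⟩
  | mul a b _ _ ha hb =>
    obtain ⟨R, hR⟩ := ha
    obtain ⟨R', hR'⟩ := hb
    refine ⟨R + R' + (lv χ a).natAbs, fun x hx => ?_⟩
    rw [← mul_assoc, hR' _ (by rw [lv_mul]; push_cast at hx; simp only [abs_eq_max_neg] at *; omega),
      hR _ (by omega)]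
  | inv a _ ha =>
    obtain ⟨R, hR⟩ := ha
    refine ⟨R + (lv χ a).natAbs, fun x hx => ?_⟩
    rw [← hR (x * a⁻¹) (by
      rw [lv_mul, lv_inv]; push_cast at hx; simp only [abs_eq_max_neg] at *; omega),
      inv_mul_cancel_right]

theorem far_pow {χ : Γ →* Multiplicative ℤ} {α : Type} {F : Γ → α} {R : ℤ} {g : Γ}
    (h : ∀ x, R < |lv χ x| → F (x * g) = F x) (x : Γ) (n : ℕ)
    (hx : ∀ j : ℕ, R < |lv χ x + j * lv χ g|) : F (x * g ^ n) = F x := by
  induction n with
  | zero => simp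
  | succ n ih => rw [pow_succ, ← mul_assoc, h _ (by simpa using hx n), ih]

theorem abs_lt_aux {a b : ℤ} {R n j : ℕ} (ha : a ≠ 0) (hn : R + b.natAbs < n) :
    (R : ℤ) < |(n : ℤ) * -a + b + j * -a| := by
  have h1 : ((n + j : ℕ) : ℤ) ≤ |((n + j : ℕ) : ℤ) * -a| := by
    rw [abs_mul, abs_neg, Nat.abs_cast]
    exact le_mul_of_one_le_right (by positivity) (Int.one_le_abs ha)
  have e : (n : ℤ) * -a + b + j * -a = ((n + j : ℕ) : ℤ) * -a + b := by push_cast; ring
  rw [e]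
  generalize ((n + j : ℕ) : ℤ) * -a = z at h1
  simp only [abs_eq_max_neg] at *
  omega

theorem Cut.Hyp.types {S : Set Γ} {c : Cut S} {μ : Γ} (hμ : c.Hyp μ) (χ : Γ →* Multiplicative ℤ)
    (D : ℤ) (hC : ∀ x ∈ c.C, |lv χ x| ≤ D) (ha : lv χ μ ≠ 0) (h : Γ) (hh : lv χ h = 0) :
    ∃ n0 : ℕ, ∀ n ≥ n0, μ⁻¹ ^ n * h * μ⁻¹ ^ n ∉ c.Y ∧
      (c.Gen (μ⁻¹ ^ n * h * μ ^ n) → μ⁻¹ ^ n * h * μ ^ n ∉ c.Y) := by
  have hfar := far c.gen χ (· ∈ c.Y) D fun x s hs hx => propext (by
    by_contra h'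
    exact absurd (hC x (c.bdry x s hs fun e => h' e.symm).1) (not_le.2 hx))
  obtain ⟨R1, hR1⟩ := hfar μ⁻¹
  obtain ⟨R2, hR2⟩ := hfar h
  obtain ⟨k1, hk1⟩ := hμ.repel h
  obtain ⟨k2, hk2⟩ := hμ.repel h⁻¹
  obtain ⟨k3, hk3⟩ := hμ.repel 1
  refine ⟨R1 + R2 + k1 + k2 + k3 + 1, fun n hn => ⟨?_, fun hg hg' => ?_⟩⟩
  · have := far_pow hR1 (μ⁻¹ ^ n * h) n fun j => by
      have := abs_lt_aux (b := 0) (R := R1) (n := n) (j := j) ha (by simp; omega)
      simpa [hh] using this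
    rw [this]
    exact hk1 n (by omega)
  · have h3 := hk3 n (by omega)
    rw [mul_one] at h3
    by_cases hg2 : (μ⁻¹ ^ n * h * μ ^ n)⁻¹ ∈ c.Y
    · rcases hg.nest (μ⁻¹ ^ n) with h4 | h4
      · exact h3 (h4.2 hg')
      · refine hk2 n (by omega) ?_
        convert h4.2 hg2 using 1
        group
    · obtain ⟨k, hk⟩ := Cut.Hyp.attract ⟨hg, hg', hg2⟩ (μ⁻¹ ^ n)
      have h4 := hk k le_rfl
      have e : (μ⁻¹ ^ n * h * μ ^ n) ^ k * μ⁻¹ ^ n = μ⁻¹ ^ n * h ^ k := by
        have := conj_pow (a := μ⁻¹ ^ n) (b := h) (i := k)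
        rw [inv_pow, inv_inv] at this
        rw [inv_pow, this]
        group
      have := far_pow hR2 (μ⁻¹ ^ n) k fun j => by
        have := abs_lt_aux (b := 0) (R := R2) (n := n) (j := 0) ha (by simp; omega)
        simpa [hh] using this
      rw [e, this] at h4
      exact h3 h4

theorem Cut.Hyp.ev {S : Set Γ} {c : Cut S} {μ : Γ} (hμ : c.Hyp μ) (χ : Γ →* Multiplicative ℤ)
    (D : ℤ) (hC : ∀ x ∈ c.C, |lv χ x| ≤ D) (ha : lv χ μ ≠ 0) (h : Γ) (hh : lv χ h = 0) :
    (∃ n0 : ℕ, ∀ n ≥ n0, ¬ c.Gen (μ⁻¹ ^ n * h * μ ^ n)) ∨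
      ∃ n0 : ℕ, ∀ n ≥ n0, c.Gen (μ⁻¹ ^ n * h * μ ^ n) := by
  obtain ⟨n1, h1⟩ := hμ.types χ D hC ha h hh
  obtain ⟨n2, h2⟩ := hμ.types χ D hC ha h⁻¹ (by simp [hh])
  by_cases hex : ∃ n ≥ n1 + n2, c.Gen (μ⁻¹ ^ n * h * μ ^ n)
  · obtain ⟨n, hn, hg⟩ := hex
    refine Or.inr ⟨n + 1, fun k hk x hx hx' => ?_⟩
    obtain ⟨j, rfl⟩ := Nat.exists_eq_add_of_le hk
    have e0 : (μ⁻¹ ^ n * h * μ ^ n)⁻¹ = μ⁻¹ ^ n * h⁻¹ * μ ^ n := by group
    have h3 := (h1 n (by omega)).2 hg
    have h4 := (h2 n (by omega)).2 (e0 ▸ hg.inv)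
    have h5 := hμ.pow_mul_mem ((hμ.gen.side hx).2 hμ.mem) j
    have h6 := hμ.pow_mul_mem ((hμ.gen.side hx').2 hμ.mem) j
    rcases hg.nest (μ ^ j * (μ * (μ⁻¹ ^ (n + 1 + j) * h * μ ^ (n + 1 + j) * x))) with h7 | h7
    · exact h3 (h7.1 h6)
    · refine h4 (e0 ▸ h7.1 ?_)
      convert h5 using 1
      group
  · exact Or.inl ⟨n1 + n2, fun n hn hg => hex ⟨n, hn, hg⟩⟩

theorem Cut.Hyp.dich {S : Set Γ} {c : Cut S} {μ : Γ} (hμ : c.Hyp μ) (χ : Γ →* Multiplicative ℤ)
    (D : ℤ) (hC : ∀ x ∈ c.C, |lv χ x| ≤ D) (ha : lv χ μ ≠ 0) (B : Subgroup Γ)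
    (hB : ∀ g, lv χ g = 0 → ¬ c.Gen g → g ∈ B) (N : Subgroup Γ) [hN : N.Normal] (hNF : NF N)
    (hμN : μ ∈ N) : ∃ v : Γ, lv χ v ≠ 0 ∧
      ∀ h, lv χ h = 0 → ∃ n0 : ℕ, ∀ n ≥ n0, v ^ n * h * v⁻¹ ^ n ∈ B := by
  have key : ∀ h, lv χ h = 0 → (∃ n0 : ℕ, ∀ n ≥ n0, μ⁻¹ ^ n * h * μ⁻¹⁻¹ ^ n ∈ B) ∨
      ∃ n0 : ℕ, ∀ n ≥ n0, μ ^ n * h * μ⁻¹ ^ n ∈ B := by
    intro h hh
    have hh' : lv χ h⁻¹ = 0 := by simp [hh]
    have ha' : lv χ μ⁻¹ ≠ 0 := by simpa using ha
    rcases hμ.ev χ D hC ha h hh with ⟨n0, h1⟩ | ⟨n1, h1⟩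
    · exact Or.inl ⟨n0, fun n hn => by rw [inv_inv]; exact hB _ (by simp [hh]) (h1 n hn)⟩
    rcases hμ.symm.ev χ D hC ha' h hh with ⟨n0, h2⟩ | ⟨n2, h2⟩
    · exact Or.inr ⟨n0, fun n hn => by
        have := h2 n hn
        rw [inv_inv] at this
        exact hB _ (by simp [hh]) this⟩
    exfalso
    obtain ⟨n3, h3⟩ := hμ.types χ D hC ha h hh
    obtain ⟨n4, h4⟩ := hμ.types χ D hC ha h⁻¹ hh'
    obtain ⟨n5, h5⟩ := hμ.symm.types χ D hC ha' h hh
    obtain ⟨n6, h6⟩ := hμ.symm.types χ D hC ha' h⁻¹ hh'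
    obtain ⟨k, hk, hk'⟩ := hNF μ hμN _ (hN.conj_mem μ hμN h)
      (n1 + n2 + n3 + n4 + n5 + n6 + D.natAbs + 1)
    have hgen : ∀ g, lv χ g = 2 * k * lv χ μ → c.Gen g := fun g hg x hx hx' => by
      have a1 := hC _ hx
      have a2 := hC _ hx'
      rw [lv_mul, hg] at a2
      have a3 : (k : ℤ) ≤ |k * lv χ μ| := by
        rw [abs_mul, Nat.abs_cast]
        exact le_mul_of_one_le_right (by positivity) (Int.one_le_abs ha)
      rw [mul_assoc] at a2
      generalize (k : ℤ) * lv χ μ = z at a2 a3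
      simp only [abs_eq_max_neg] at *
      omega
    have hk1 : ¬ ((k : ℤ) < 0) := by omega
    have hk2 : -(k : ℤ) < 0 := by omega
    simp only [inv_inv] at h2 h5 h6
    refine hk' (hμ.pingpong h k (fun a b ha hb => ?_) (by omega))
    rcases ha with rfl | rfl <;> rcases hb with rfl | rfl <;>
      simp only [zpow_neg, zpow_natCast, neg_neg, mul_inv_rev, inv_inv, ← inv_pow, ← mul_assoc]
    · have e0 : (μ⁻¹ ^ k * h * μ ^ k)⁻¹ = μ⁻¹ ^ k * h⁻¹ * μ ^ k := by group
      exact ⟨h1 k (by omega), iff_of_false ((h3 k (by omega)).2 (h1 k (by omega))) hk1,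
        iff_of_false ((h4 k (by omega)).2 (e0 ▸ (h1 k (by omega)).inv)) hk1⟩
    · refine ⟨?_, iff_of_false (h3 k (by omega)).1 hk1,
        iff_of_true (not_not.1 (h6 k (by omega)).1) hk2⟩
      rw [← inv_inv (μ⁻¹ ^ k * h * μ⁻¹ ^ k)]
      exact (hgen _ (by simp [hh]; ring)).inv
    · exact ⟨hgen _ (by simp [hh]; ring), iff_of_true (not_not.1 (h5 k (by omega)).1) hk2,
        iff_of_false (h4 k (by omega)).1 hk1⟩
    · have e0 : (μ ^ k * h * μ⁻¹ ^ k)⁻¹ = μ ^ k * h⁻¹ * μ⁻¹ ^ k := by group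
      exact ⟨h2 k (by omega), iff_of_true (not_not.1 ((h5 k (by omega)).2 (h2 k (by omega)))) hk2,
        iff_of_true (not_not.1 ((h6 k (by omega)).2 (e0 ▸ (h2 k (by omega)).inv))) hk2⟩
  have hsub : ∀ v x y : Γ, (∃ n0 : ℕ, ∀ n ≥ n0, v ^ n * (x * y) * v⁻¹ ^ n ∈ B) →
      ((∃ n0 : ℕ, ∀ n ≥ n0, v ^ n * x * v⁻¹ ^ n ∈ B) ↔
        ∃ n0 : ℕ, ∀ n ≥ n0, v ^ n * y * v⁻¹ ^ n ∈ B) := by
    rintro v x y ⟨n0, h0⟩
    have e : ∀ n : ℕ, v ^ n * (x * y) * v⁻¹ ^ n =
        (v ^ n * x * v⁻¹ ^ n) * (v ^ n * y * v⁻¹ ^ n) := fun n => by group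
    constructor
    · rintro ⟨n1, h1⟩
      exact ⟨n0 + n1, fun n hn => (B.mul_mem_cancel_left (h1 n (by omega))).1
        (e n ▸ h0 n (by omega))⟩
    · rintro ⟨n1, h1⟩
      exact ⟨n0 + n1, fun n hn => (B.mul_mem_cancel_right (h1 n (by omega))).1
        (e n ▸ h0 n (by omega))⟩
  by_cases hp : ∀ h, lv χ h = 0 → ∃ n0 : ℕ, ∀ n ≥ n0, μ ^ n * h * μ⁻¹ ^ n ∈ B
  · exact ⟨μ, ha, hp⟩
  · refine ⟨μ⁻¹, by simpa using ha, fun y hy => ?_⟩
    obtain ⟨x, hx'⟩ := not_forall.1 hp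
    obtain ⟨hx, hx'⟩ := Classical.not_imp.1 hx'
    by_contra hy'
    have h1 := (key x hx).resolve_right hx'
    have h2 := (key y hy).resolve_left hy'
    rcases key (x * y) (by simp [hx, hy]) with h3 | h3
    · exact hy' ((hsub _ _ _ h3).1 h1)
    · exact hx' ((hsub _ _ _ h3).2 h2)

end

end Pool.Agent.P.MP_5ee5b4_al
end

-- part Pool.Agent.P.MP_5ee5b4_al.Dich2
section

/-! Construction of the cut from a finite presentation of the augmentation ideal. -/

namespace Pool.Agent.P.MP_5ee5b4_al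

open Pool.Agent.P.MP_6e40fc_al
open scoped MonoidAlgebra

noncomputable section

variable {Γ : Type} [Group Γ] {ι : Type} [Fintype ι]

/-- the first boundary map attached to a family of group elements -/
def dS (s : ι → Γ) : (ι → ℤ[Γ]) →ₗ[ℤ[Γ]] ℤ[Γ] :=
  Fintype.linearCombination ℤ[Γ] fun i => o (s i) - 1

theorem dS_apply (s : ι → Γ) (v : ι → ℤ[Γ]) : dS s v = ∑ i, v i * (o (s i) - 1) := by
  simp [dS, Fintype.linearCombination_apply]

theorem dS_single [DecidableEq ι] (s : ι → Γ) (i : ι) (r : ℤ[Γ]) :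
    dS s (Pi.single i r) = r * (o (s i) - 1) := by
  simp [dS, Fintype.linearCombination_apply_single]

theorem exists_dS {s : ι → Γ} (hs : Subgroup.closure (Set.range s) = ⊤) (g : Γ) :
    ∃ v, dS s v = o g - 1 := by
  classical
  refine o_sub_one_mem (LinearMap.range (dS s)) (Set.range s) ?_ (hs ▸ Subgroup.mem_top g)
  rintro _ ⟨i, rfl⟩
  exact ⟨Pi.single i 1, by rw [dS_single, one_mul]⟩

theorem exists_dS' {s : ι → Γ} (hs : Subgroup.closure (Set.range s) = ⊤) {r : ℤ[Γ]}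
    (hr : aug ℤ Γ r = 0) : ∃ v, dS s v = r := by
  have := sub_aug_mem (LinearMap.range (dS s)) (exists_dS hs) r
  rwa [hr, zero_smul, sub_zero] at this

theorem aug_dS (s : ι → Γ) (v : ι → ℤ[Γ]) : aug ℤ Γ (dS s v) = 0 := by
  simp [dS_apply]

theorem extAdd_congr {M : Type} [AddCommGroup M] {f g : Γ → M} {r : ℤ[Γ]}
    (h : ∀ x ∈ r.coeff.support, f x = g x) : extAdd f r = extAdd g r := by
  simp only [extAdd, LinearMap.toAddMonoidHom_coe, LinearMap.comp_apply,
    Finsupp.linearCombination_apply, Finsupp.sum]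
  exact Finset.sum_congr rfl fun x hx => by rw [h x hx]

theorem extAdd_o_mul {M : Type} [AddCommGroup M] (f : Γ → M) (x : Γ) (r : ℤ[Γ]) :
    extAdd f (o x * r) = extAdd (fun y => f (x * y)) r := by
  induction r using zg_induction with
  | ho g => rw [o_mul, extAdd_o, extAdd_o]
  | hadd a b ha hb => rw [mul_add, map_add, map_add, ha, hb]
  | hsmul n a ha => rw [mul_smul_comm, map_zsmul, map_zsmul, ha]

theorem map_extAdd {M M' : Type} [AddCommGroup M] [AddCommGroup M'] (φ : M →+ M') (f : Γ → M)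
    (r : ℤ[Γ]) : φ (extAdd f r) = extAdd (fun y => φ (f y)) r := by
  induction r using zg_induction with
  | ho g => rw [extAdd_o, extAdd_o]
  | hadd a b ha hb => rw [map_add, map_add, map_add, ha, hb]
  | hsmul n a ha => rw [map_zsmul, map_zsmul, map_zsmul, ha]

theorem extAdd_dS {M : Type} [AddCommGroup M] (f : Γ → M) (s : ι → Γ) (v : ι → ℤ[Γ]) :
    extAdd f (dS s v) = ∑ i, extAdd (fun y => f (y * s i) - f y) (v i) := by
  rw [dS_apply, map_sum]
  refine Finset.sum_congr rfl fun i _ => ?_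
  induction v i using zg_induction with
  | ho g => rw [mul_sub, mul_one, o_mul, map_sub, extAdd_o, extAdd_o, extAdd_o]
  | hadd a b ha hb => rw [add_mul, map_add, map_add, ha, hb]
  | hsmul n a ha => rw [smul_mul_assoc, map_zsmul, map_zsmul, ha]

/-- integration of a cochain that kills the translates of the generating relations -/
theorem exists_integral {s : ι → Γ} (hs : Subgroup.closure (Set.range s) = ⊤)
    {M : Type} [AddCommGroup M] (c : ι → Γ → M) (R : Set (ι → ℤ[Γ]))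
    (hR : Submodule.span ℤ[Γ] R = LinearMap.ker (dS s))
    (hc : ∀ r ∈ R, ∀ x, ∑ i, extAdd (fun y => c i (x * y)) (r i) = 0) :
    ∃ F : Γ → M, F 1 = 0 ∧ ∀ x i, F (x * s i) = F x + c i x := by
  classical
  let Φ : (ι → ℤ[Γ]) →+ M :=
    { toFun := fun v => ∑ i, extAdd (c i) (v i)
      map_zero' := by simp
      map_add' := fun v w => by simp [Finset.sum_add_distrib] }
  have hΦ : ∀ v, dS s v = 0 → Φ v = 0 := by
    intro v hv
    have hv' : v ∈ Submodule.span ℤ[Γ] R := hR ▸ hv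
    have : ∀ a : ℤ[Γ], Φ (a • v) = 0 := by
      clear hv
      induction hv' using Submodule.span_induction with
      | mem r hr =>
        intro a
        induction a using zg_induction with
        | ho x =>
          rw [← hc r hr x]
          exact Finset.sum_congr rfl fun i _ => extAdd_o_mul _ _ _
        | hadd a b ha hb => rw [add_smul, map_add, ha, hb, add_zero]
        | hsmul n a ha => rw [smul_assoc, map_zsmul, ha, smul_zero]
      | zero => simp
      | add v w _ _ hv hw => intro a; rw [smul_add, map_add, hv, hw, add_zero]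
      | smul b v _ hv => intro a; rw [← mul_smul, hv]
    simpa using this 1
  choose v hv using exists_dS hs
  refine ⟨fun x => Φ (v x), hΦ _ (by rw [hv, o_one, sub_self]), fun x i => ?_⟩
  have h1 := hΦ (v (x * s i) - v x - Pi.single i (o x)) (by
    rw [map_sub, map_sub, hv, hv, dS_single, mul_sub, o_mul]; simp)
  have h2 : Φ (Pi.single i (o x)) = c i x := by
    change ∑ j, extAdd (c j) ((Pi.single i (o x) : ι → ℤ[Γ]) j) = _
    rw [Finset.sum_eq_single i]
    · simp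
    · intro j _ hj; simp [Pi.single_eq_of_ne hj]
    · simp
  rw [map_sub, map_sub, h2, sub_sub, sub_eq_zero] at h1
  exact h1

theorem exists_lv_bound (χ : Γ →* Multiplicative ℤ) {C : Set Γ} (hC : C.Finite) :
    ∃ L : ℕ, ∀ x ∈ C, |lv χ x| ≤ L := by
  obtain ⟨L, hL⟩ := (hC.image fun x => (lv χ x).natAbs).bddAbove
  refine ⟨L, fun x hx => ?_⟩
  have : (lv χ x).natAbs ≤ L := hL ⟨x, hx, rfl⟩
  rw [abs_eq_max_neg]
  omega

theorem dichotomy {s : ι → Γ} (hs : Subgroup.closure (Set.range s) = ⊤)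
    (hK : (LinearMap.ker (dS s)).FG) (χ : Γ →* Multiplicative ℤ) (t : Γ) (ht : lv χ t = 1)
    (hts : t ∈ Set.range s) (N : Subgroup Γ) [hN : N.Normal] (hNF : NF N) (ν : Γ) (hν : ν ∈ N)
    (ha : lv χ ν ≠ 0) : ∃ (v : Γ) (B : Subgroup Γ), lv χ v ≠ 0 ∧ B.FG ∧ B ≤ χ.ker ∧
      ∀ h, lv χ h = 0 → ∃ n0 : ℕ, ∀ n ≥ n0, v ^ n * h * v⁻¹ ^ n ∈ B := by
  classical
  obtain ⟨R, hR⟩ := hK
  set S := Set.range s with hSdef
  obtain ⟨C0, hC0, ⟨hC1, hC2⟩, hC3⟩ := exists_conn_finite hs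
    (B := S ∪ ⋃ r ∈ R, ⋃ i, ((r i).coeff.support : Set Γ))
    ((Set.finite_range s).union (R.finite_toSet.biUnion fun r _ =>
      Set.finite_iUnion fun i => Finset.finite_toSet _))
  obtain ⟨L, hL⟩ := exists_lv_bound χ hC0
  have hLs : ∀ i, |lv χ (s i)| ≤ L := fun i => hL _ (hC3 (Or.inl ⟨i, rfl⟩))
  let slab : Γ → Prop := fun x => |lv χ x| ≤ 3 * L
  let Rel : Setoid Γ :=
    { r := fun x y => ∀ f : Γ → Prop,
        (∀ a, ∀ b ∈ S, slab a → slab (a * b) → (f a ↔ f (a * b))) → (f x ↔ f y)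
      iseqv := ⟨fun _ _ _ => Iff.rfl, fun h f hf => (h f hf).symm,
        fun h h' f hf => (h f hf).trans (h' f hf)⟩ }
  have hedge : ∀ a, ∀ b ∈ S, slab a → slab (a * b) → Rel a (a * b) :=
    fun a b hb h1 h2 f hf => hf a b hb h1 h2
  have htr : ∀ g, lv χ g = 0 → ∀ x y, Rel x y → Rel (g * x) (g * y) := fun g hg x y h f hf =>
    h (fun z => f (g * z)) fun a b hb h1 h2 => by
      rw [← mul_assoc]
      exact hf _ b hb (by simpa [slab, hg] using h1) (by simpa [slab, hg, mul_assoc] using h2)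
  let lam : Γ → ZMod 2 := fun x => if 0 < lv χ x then 1 else 0
  have hcross : ∀ x i, lam (x * s i) - lam x ≠ 0 → |lv χ x| ≤ L ∧ |lv χ (x * s i)| ≤ L := by
    intro x i h
    have := hLs i
    simp only [lam, lv_mul, abs_eq_max_neg] at h this ⊢
    split_ifs at h <;> first | exact absurd rfl h | omega
  obtain ⟨F, hF1, hF⟩ := exists_integral hs
    (fun i x => (Finsupp.single (Quotient.mk Rel x) (lam (x * s i) - lam x) :
      Quotient Rel →₀ ZMod 2)) R hR fun r hr x => by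
    have hr0 : dS s r = 0 := by
      have : r ∈ Submodule.span ℤ[Γ] (R : Set (ι → ℤ[Γ])) := Submodule.subset_span hr
      rwa [hR] at this
    have hsupp : ∀ i, ∀ y ∈ (r i).coeff.support, y ∈ C0 := fun i y hy =>
      hC3 (Or.inr (Set.mem_biUnion hr (Set.mem_iUnion.2 ⟨i, hy⟩)))
    by_cases hex : ∃ i, ∃ y ∈ C0, lam (x * y * s i) - lam (x * y) ≠ 0
    · obtain ⟨i0, y0, hy0, h0⟩ := hex
      have h1 := (hcross _ _ h0).1
      have hslab : ∀ y ∈ C0, slab (x * y) := fun y hy => by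
        have h2 := hL _ hy0
        have h3 := hL _ hy
        simp only [slab, lv_mul, abs_eq_max_neg] at *
        omega
      have hrel : ∀ y ∈ C0, Rel (x * y) x := fun y hy f hf => by
        have := hC2 (fun z => f (x * z)) (fun a ha b hb hab => by
          rw [← mul_assoc]
          exact hf _ b hb (hslab a ha) (by rw [mul_assoc]; exact hslab _ hab)) y hy
        simpa using this
      have h2 := extAdd_dS (fun y => lam (x * y)) s r
      rw [hr0, map_zero] at h2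
      have h3 := congrArg (Finsupp.singleAddHom (Quotient.mk Rel x)) h2
      rw [map_zero, map_sum] at h3
      rw [h3]
      refine Finset.sum_congr rfl fun i _ => ?_
      rw [map_extAdd]
      refine extAdd_congr fun y hy => ?_
      rw [Quotient.sound (hrel y (hsupp i y hy)), mul_assoc]
      rfl
    · refine Finset.sum_eq_zero fun i _ => ?_
      rw [extAdd_congr (g := fun _ => 0) fun y hy => ?_]
      · induction r i using zg_induction with
        | ho g => rw [extAdd_o]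
        | hadd a b ha hb => rw [map_add, ha, hb, add_zero]
        | hsmul n a ha => rw [map_zsmul, ha, smul_zero]
      · rw [not_not.1 fun h => hex ⟨i, y, hsupp i y hy, h⟩, Finsupp.single_zero]
  have hsum : ∀ x, (F x).sum (fun _ a => a) = lam x := by
    intro x
    refine (const_of_edges hs (fun x => (F x).sum (fun _ a => a) = lam x) ?_ x).2 ?_
    · rintro x _ ⟨i, rfl⟩
      rw [hF, Finsupp.sum_add_index' (fun _ => rfl) (fun _ _ _ => rfl),
        Finsupp.sum_single_index rfl, ← eq_sub_iff_add_eq, sub_sub_cancel]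
    · simp [hF1, lam]
  have hfar := far hs χ F L (by
    rintro x _ ⟨i, rfl⟩ hx
    rw [hF, not_not.1 fun h => absurd (hcross x i h).1 (not_le.2 hx), Finsupp.single_zero, add_zero])
  obtain ⟨R1, hR1⟩ := hfar ν
  obtain ⟨R2, hR2⟩ := hfar ν⁻¹
  have hstab : ∀ (u : Γ) (R : ℕ), lv χ u ≠ 0 → (∀ x, (R : ℤ) < |lv χ x| → F (x * u) = F x) →
      ∀ k0 > R, ∀ k ≥ k0, F (u ^ k) = F (u ^ k0) := by
    intro u R hu hR k0 hk0 k hk
    obtain ⟨j, rfl⟩ := Nat.exists_eq_add_of_le hk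
    rw [pow_add]
    refine far_pow hR _ j fun j => ?_
    have := abs_lt_aux (a := -lv χ u) (b := 0) (R := R) (n := k0) (j := j) (by simpa using hu)
      (by simpa using hk0)
    simpa using this
  set k0 := R1 + R2 + 1 with hk0
  obtain ⟨q, hq⟩ : ∃ q, F (ν ^ k0) q ≠ F (ν⁻¹ ^ k0) q := by
    by_contra hcon
    have h1 : F (ν ^ k0) = F (ν⁻¹ ^ k0) := Finsupp.ext fun q => not_not.1 fun h => hcon ⟨q, h⟩
    have h2 := hsum (ν ^ k0)
    rw [h1, hsum] at h2
    simp only [lam, lv_pow, lv_inv, mul_neg, Left.neg_pos_iff] at h2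
    have h3 : (k0 : ℤ) * lv χ ν ≠ 0 := mul_ne_zero (by omega) ha
    split_ifs at h2 <;> first | omega | exact absurd h2 (by decide)
  obtain ⟨z, i0, hz1, hz2⟩ : ∃ z i, Quotient.mk Rel z = q ∧ lam (z * s i) - lam z ≠ 0 := by
    by_contra hcon
    have : ∀ x, F x q = 0 := fun x => (const_of_edges hs (fun x => F x q = 0) (by
      rintro x _ ⟨i, rfl⟩
      rw [hF, Finsupp.add_apply, Finsupp.single_apply]
      split_ifs with h
      · rw [not_not.1 fun h' => hcon ⟨x, i, h, h'⟩, add_zero]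
      · rw [add_zero]) x).2 (by simp [hF1])
    exact hq (by rw [this, this])
  have hvert : ∀ (n : ℤ) (x : Γ), lv χ x = 0 → |n| ≤ 3 * L → Rel x (x * t ^ n) := by
    intro n x hx
    induction n using Int.induction_on with
    | zero => intro _; simp
    | succ n ih =>
      intro hn
      simp only [abs_eq_max_neg] at hn ih
      refine Rel.trans (ih (by omega)) ?_
      rw [zpow_add_one, ← mul_assoc]
      refine hedge _ t hts ?_ ?_ <;> simp only [slab, lv_mul, lv_zpow, hx, ht, abs_eq_max_neg] <;>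
        omega
    | pred n ih =>
      intro hn
      simp only [abs_eq_max_neg] at hn ih
      refine Rel.trans (ih (by omega)) (Rel.symm ?_)
      have e : x * t ^ (-(n : ℤ)) = x * t ^ (-(n : ℤ) - 1) * t := by group
      rw [e]
      refine hedge _ t hts ?_ ?_ <;> simp only [slab, lv_mul, lv_zpow, hx, ht, abs_eq_max_neg] <;>
        omega
  obtain ⟨g, hg, hgq⟩ : ∃ g, lv χ g = 0 ∧ Quotient.mk Rel g = q := by
    refine ⟨z * t ^ (-lv χ z), by simp [ht], ?_⟩
    rw [← hz1]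
    have := hvert (lv χ z) (z * t ^ (-lv χ z)) (by simp [ht])
      (by have := (hcross _ _ hz2).1; omega)
    rw [mul_assoc, ← zpow_add, neg_add_cancel, zpow_zero, mul_one] at this
    exact Quotient.sound this
  have hz2' : ∀ a b : ZMod 2, ¬ (a = 1 ↔ b = 1) ↔ a ≠ b := by decide
  let c : Cut S :=
    { Y := {x | F (g * x) q = 1}
      C := {x | slab x ∧ Rel 1 x}
      gen := hs
      one_mem := ⟨by simp [slab], Rel.refl _⟩
      conn := fun f hf x hx => by
        have := hx.2 (fun a => Rel 1 a ∧ (f a ↔ f 1)) fun a b hb h1 h2 => by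
          have h3 := hedge a b hb h1 h2
          refine ⟨fun h => ⟨Rel.trans h.1 h3, ?_⟩, fun h => ⟨Rel.trans h.1 (Rel.symm h3), ?_⟩⟩
          · exact (hf a ⟨h1, h.1⟩ b hb ⟨h2, Rel.trans h.1 h3⟩).symm.trans h.2
          · exact (hf a ⟨h1, Rel.trans h.1 (Rel.symm h3)⟩ b hb ⟨h2, h.1⟩).trans h.2
        exact (this.1 ⟨Rel.refl _, Iff.rfl⟩).2
      bdry := by
        rintro x _ ⟨i, rfl⟩ h
        have h1 : F (g * x) q ≠ F (g * (x * s i)) q := (hz2' _ _).1 h
        rw [← mul_assoc, hF, Finsupp.add_apply, Finsupp.single_apply] at h1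
        split_ifs at h1 with h2
        · obtain ⟨h3, h4⟩ := hcross (g * x) i fun e => h1 (by rw [e, add_zero])
          have h5 := htr g⁻¹ (by simp [hg]) _ _ (Quotient.exact (hgq.trans h2.symm))
          rw [inv_mul_cancel, inv_mul_cancel_left] at h5
          have h6 : slab x := by
            simp only [slab, lv_mul, hg, zero_add] at h3 ⊢; omega
          have h7 : slab (x * s i) := by
            simp only [slab, lv_mul, hg, zero_add] at h4 ⊢; omega
          exact ⟨⟨h6, h5⟩, h7, Rel.trans h5 (hedge _ _ ⟨i, rfl⟩ h6 h7)⟩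
        · exact absurd (add_zero _).symm h1 }
  let B : Subgroup Γ := Subgroup.closure ((fun p : ℤ × ι => t ^ p.1 * s p.2 *
    t ^ (-(p.1 + lv χ (s p.2)))) '' (Set.Icc (-(3 * L : ℤ)) (3 * L) ×ˢ Set.univ))
  have hB : ∀ x, lv χ x = 0 → ¬ c.Gen x → x ∈ B := by
    intro x hx hng
    simp only [Cut.Gen, not_forall, not_not] at hng
    obtain ⟨y, hy, hy'⟩ := hng
    have h1 := htr x hx _ _ hy.2
    rw [mul_one] at h1
    have h2 : Rel 1 x := Rel.trans hy'.2 (Rel.symm h1)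
    have := h2 (fun a => a * t ^ (-lv χ a) ∈ B) (by
      rintro a _ ⟨i, rfl⟩ ha -
      have e : a * s i * t ^ (-lv χ (a * s i)) = a * t ^ (-lv χ a) *
          (t ^ lv χ a * s i * t ^ (-(lv χ a + lv χ (s i)))) := by rw [lv_mul]; group
      have hm : t ^ lv χ a * s i * t ^ (-(lv χ a + lv χ (s i))) ∈ B :=
        Subgroup.subset_closure ⟨(lv χ a, i), ⟨abs_le.1 ha, trivial⟩, rfl⟩
      rw [e, B.mul_mem_cancel_right hm])
    simpa [hx] using this
  obtain ⟨R3, hR3⟩ := hfar g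
  set k := k0 + R3 + 6 * L + 1 with hk
  have hbig : ∀ u : Γ, lv χ u ≠ 0 → (k : ℤ) ≤ |lv χ (u ^ k)| := fun u hu => by
    rw [lv_pow, abs_mul, Nat.abs_cast]
    exact le_mul_of_one_le_right (by positivity) (Int.one_le_abs hu)
  have ha' : lv χ ν⁻¹ ≠ 0 := by simpa using ha
  have hY : ∀ u : Γ, lv χ u ≠ 0 → (g⁻¹ * u ^ k * g ∈ c.Y ↔ F (u ^ k) q = 1) := fun u hu => by
    change F (g * (g⁻¹ * u ^ k * g)) q = 1 ↔ _
    rw [← mul_assoc, mul_inv_cancel_left, hR3 _ (by have := hbig u hu; omega)]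
  have hgen : c.Gen (g⁻¹ * ν ^ k * g) := fun x hx hx' => by
    have h1 := hx.1
    have h2 := hx'.1
    have h3 := hbig ν ha
    simp only [slab, lv_mul, lv_inv, hg, abs_eq_max_neg] at h1 h2 h3
    omega
  have hinv : (g⁻¹ * ν ^ k * g)⁻¹ = g⁻¹ * ν⁻¹ ^ k * g := by group
  have hmem : g⁻¹ * ν ^ k * g ∈ N := hN.conj_mem' _ (N.pow_mem hν k) g
  have hlv : lv χ (g⁻¹ * ν ^ k * g) ≠ 0 := by
    simp only [lv_mul, lv_inv, hg, lv_pow, neg_zero, zero_add, add_zero]
    exact mul_ne_zero (by omega) ha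
  have hne := (hz2' _ _).2 hq
  rw [← hstab ν R1 ha hR1 k0 (by omega) k (by omega),
    ← hstab ν⁻¹ R2 ha' hR2 k0 (by omega) k (by omega), ← hY _ ha, ← hY _ ha', ← hinv] at hne
  obtain ⟨μ, hμ, hμ1, hμ2⟩ : ∃ μ, c.Hyp μ ∧ lv χ μ ≠ 0 ∧ μ ∈ N := by
    by_cases h : g⁻¹ * ν ^ k * g ∈ c.Y
    · exact ⟨_, ⟨hgen, h, fun h' => hne (iff_of_true h h')⟩, hlv, hmem⟩
    · exact ⟨_, ⟨hgen.inv, by_contra fun h' => hne (iff_of_false h h'), by rwa [inv_inv]⟩,
        by rwa [lv_inv, neg_ne_zero], N.inv_mem hmem⟩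
  obtain ⟨v, hv, hv'⟩ := hμ.dich χ (3 * L) (fun x hx => hx.1) hμ1 B hB N hNF hμ2
  refine ⟨v, B, hv, (Subgroup.fg_iff _).2 ⟨_, rfl,
    ((Set.finite_Icc _ _).prod Set.finite_univ).image _⟩, (Subgroup.closure_le _).2 ?_, hv'⟩
  rintro _ ⟨p, -, rfl⟩
  exact (lv_eq_zero χ).1 (by simp [ht])

end

end Pool.Agent.P.MP_5ee5b4_al
end

-- part Pool.Agent.P.MP_5ee5b4_al.Co
section

/-! Coinduced modules and comparison with the standard presentation. -/

namespace Pool.Agent.P.MP_5ee5b4_al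

open Pool.Agent.P.MP_6e40fc_al Matrix
open scoped MonoidAlgebra

noncomputable section

set_option linter.unusedSectionVars false

variable {K Γ : Type} [Group K] [Group Γ] (j : K →* Γ) (M : Type) [AddCommGroup M] [Module ℤ[K] M]

/-- equivariant functions -/
def coSub : AddSubgroup (Γ → M) where
  carrier := {f | ∀ k x, f (j k * x) = o k • f x}
  add_mem' := fun {f g} hf hg k x => by
    rw [Pi.add_apply, Pi.add_apply, hf, hg, smul_add]
  zero_mem' := fun k x => by simp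
  neg_mem' := fun {f} hf k x => by rw [Pi.neg_apply, Pi.neg_apply, hf, smul_neg]

/-- the coinduced module -/
def Co : Type := coSub j M

instance : AddCommGroup (Co j M) := inferInstanceAs (AddCommGroup (coSub j M))

variable {j M}

/-- the underlying function -/
def Co.val (f : Co j M) : Γ → M := Subtype.val (show coSub j M from f)

instance : CoeFun (Co j M) (fun _ => Γ → M) := ⟨Co.val⟩

/-- constructor -/
def Co.mk (f : Γ → M) (h : ∀ k x, f (j k * x) = o k • f x) : Co j M := show coSub j M from ⟨f, h⟩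

@[simp] theorem Co.mk_apply (f : Γ → M) (h : ∀ k x, f (j k * x) = o k • f x) (x : Γ) :
    Co.mk f h x = f x := rfl

theorem Co.equiv (f : Co j M) (k : K) (x : Γ) : f (j k * x) = o k • f x :=
  Subtype.prop (show coSub j M from f) k x

@[ext] theorem Co.ext {f g : Co j M} (h : ∀ x, f x = g x) : f = g := Subtype.ext (funext h)

@[simp] theorem Co.add_apply (f g : Co j M) (x : Γ) : (f + g) x = f x + g x := rfl
@[simp] theorem Co.sub_apply (f g : Co j M) (x : Γ) : (f - g) x = f x - g x := rfl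
@[simp] theorem Co.neg_apply (f : Co j M) (x : Γ) : (-f) x = -f x := rfl
@[simp] theorem Co.zero_apply (x : Γ) : (0 : Co j M) x = 0 := rfl
@[simp] theorem Co.zsmul_apply (n : ℤ) (f : Co j M) (x : Γ) : (n • f) x = n • f x := rfl

/-- evaluation -/
def Co.ev (x : Γ) : Co j M →+ M where
  toFun f := f x
  map_zero' := rfl
  map_add' _ _ := rfl

theorem Co.sum_apply {ι : Type} (s : Finset ι) (f : ι → Co j M) (x : Γ) :
    (∑ i ∈ s, f i) x = ∑ i ∈ s, f i x := map_sum (Co.ev x) f s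

variable (j M) in
/-- right translation -/
def coAct : Γ →* AddMonoid.End (Co j M) where
  toFun g :=
    { toFun := fun f => Co.mk (fun x => f (x * g)) fun k x => by rw [mul_assoc, f.equiv]
      map_zero' := rfl
      map_add' := fun _ _ => rfl }
  map_one' := by
    refine AddMonoidHom.ext fun f => Co.ext fun x => ?_
    change f (x * 1) = f x
    rw [mul_one]
  map_mul' g h := by
    refine AddMonoidHom.ext fun f => Co.ext fun x => ?_
    change f (x * (g * h)) = f (x * g * h)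
    rw [mul_assoc]

instance : Module ℤ[Γ] (Co j M) :=
  Module.compHom (Co j M) (MonoidAlgebra.lift ℤ (AddMonoid.End (Co j M)) Γ (coAct j M)).toRingHom

theorem Co.o_smul (g : Γ) (f : Co j M) (x : Γ) : (o g • f) x = f (x * g) := by
  change (MonoidAlgebra.lift ℤ (AddMonoid.End (Co j M)) Γ (coAct j M)
    (MonoidAlgebra.of ℤ Γ g)) f x = _
  rw [MonoidAlgebra.lift_of]
  rfl

variable (j) in
/-- the induced map of group rings -/
def jr : ℤ[K] →+* ℤ[Γ] := MonoidAlgebra.mapDomainRingHom ℤ j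

@[simp] theorem jr_o (k : K) : jr j (o k) = o (j k) := by simp [jr, o]

theorem jr_id (r : ℤ[Γ]) : jr (MonoidHom.id Γ) r = r := by
  induction r using zg_induction with
  | ho g => rw [jr_o]; rfl
  | hadd a b ha hb => rw [map_add, ha, hb]
  | hsmul n a ha => rw [map_zsmul, ha]

theorem Co.jr_smul (r : ℤ[K]) (f : Co j M) : (jr j r • f) 1 = r • f 1 := by
  induction r using zg_induction with
  | ho g => rw [jr_o, Co.o_smul, one_mul, ← f.equiv, mul_one]
  | hadd a b ha hb => rw [map_add, add_smul, add_smul, Co.add_apply, ha, hb]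
  | hsmul n a ha => rw [map_zsmul, smul_assoc, smul_assoc, Co.zsmul_apply, ha]

variable {M' : Type} [AddCommGroup M'] [Module ℤ[K] M']

/-- an additive map commuting with the group action is linear -/
def mkLin {A B : Type} [AddCommGroup A] [Module ℤ[Γ] A] [AddCommGroup B] [Module ℤ[Γ] B]
    (f : A →+ B) (h : ∀ (g : Γ) a, f (o g • a) = o g • f a) : A →ₗ[ℤ[Γ]] B where
  toFun := f
  map_add' := map_add f
  map_smul' r a := by
    induction r using zg_induction with
    | ho g => exact h g a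
    | hadd r s hr hs => simp only [add_smul, map_add, hr, hs, RingHom.id_apply]
    | hsmul n r hr => simp only [smul_assoc, map_zsmul, hr, RingHom.id_apply]

variable (j) in
/-- functoriality -/
def Co.map (φ : M →ₗ[ℤ[K]] M') : Co j M →ₗ[ℤ[Γ]] Co j M' :=
  mkLin { toFun := fun f => Co.mk (fun x => φ (f x)) fun k x => by rw [f.equiv, map_smul]
          map_zero' := Co.ext fun _ => map_zero φ
          map_add' := fun _ _ => Co.ext fun _ => map_add φ _ _ }
    fun g f => Co.ext fun x => by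
      rw [Co.o_smul]
      change φ ((o g • f) x) = φ (f (x * g))
      rw [Co.o_smul]

@[simp] theorem Co.map_apply (φ : M →ₗ[ℤ[K]] M') (f : Co j M) (x : Γ) :
    Co.map j φ f x = φ (f x) := rfl

variable (j) in
/-- an equivariant retraction -/
structure Sec where
  κ : Γ → K
  κ_mul : ∀ k x, κ (j k * x) = k * κ x
  κ_one : κ 1 = 1

theorem exists_sec (hj : Function.Injective j) : Nonempty (Sec j) := by
  let τ : Γ → Γ := fun x => (Quotient.mk (QuotientGroup.rightRel j.range) x).out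
  have h1 : ∀ x, ∃ k, j k = x * (τ x)⁻¹ := fun x =>
    QuotientGroup.rightRel_apply.1 (Quotient.exact (Quotient.out_eq
      (Quotient.mk (QuotientGroup.rightRel j.range) x)))
  have h2 : ∀ k x, τ (j k * x) = τ x := fun k x => congrArg Quotient.out
    (Quotient.sound (QuotientGroup.rightRel_apply.2 ⟨k⁻¹, by simp⟩))
  choose κ hκ using h1
  exact ⟨⟨fun x => κ x * (κ 1)⁻¹, fun k x => by
    rw [← mul_assoc]
    congr 1
    exact hj (by rw [map_mul, hκ, hκ, h2, mul_assoc]), mul_inv_cancel _⟩⟩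

theorem Sec.κ_j (σ : Sec j) (k : K) : σ.κ (j k) = k := by
  have := σ.κ_mul k 1
  rwa [mul_one, σ.κ_one, mul_one] at this

theorem Sec.lift (σ : Sec j) (φ : M →ₗ[ℤ[K]] M') (f : Co j M') (h : ∀ x, ∃ m, φ m = f x) :
    ∃ g, Co.map j φ g = f := by
  choose m hm using h
  refine ⟨Co.mk (fun x => o (σ.κ x) • m ((j (σ.κ x))⁻¹ * x)) fun k x => ?_, Co.ext fun x => ?_⟩
  · rw [σ.κ_mul, ← mul_smul, o_mul]
    congr 2
    rw [map_mul]
    group
  · change φ (o (σ.κ x) • m ((j (σ.κ x))⁻¹ * x)) = _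
    rw [map_smul, hm, ← f.equiv, mul_inv_cancel_left]

theorem lin_ext {R A n : Type} [Ring R] [AddCommGroup A] [Module R A] [Fintype n] [DecidableEq n]
    {f g : (n → R) →ₗ[R] A} (h : ∀ i, f (Pi.single i 1) = g (Pi.single i 1)) : f = g :=
  (Pi.basisFun R n).ext fun i => by simpa using h i

theorem lc_single {R A n : Type} [Ring R] [AddCommGroup A] [Module R A] [Fintype n] [DecidableEq n]
    (y : n → A) (i : n) : Fintype.linearCombination R y (Pi.single i 1) = y i := by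
  simp [Fintype.linearCombination_apply_single]

theorem Sec.liftLin (σ : Sec j) (φ : M →ₗ[ℤ[K]] M') {n : Type} [Fintype n]
    (f : (n → ℤ[Γ]) →ₗ[ℤ[Γ]] Co j M') (h : ∀ y x, ∃ m, φ m = f y x) :
    ∃ g : (n → ℤ[Γ]) →ₗ[ℤ[Γ]] Co j M, ∀ y x, φ (g y x) = f y x := by
  classical
  choose g hg using fun i => σ.lift φ (f (Pi.single i 1)) (h _)
  refine ⟨Fintype.linearCombination ℤ[Γ] g, fun y x => ?_⟩
  have : Co.map j φ ∘ₗ Fintype.linearCombination ℤ[Γ] g = f := lin_ext fun i => by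
    rw [LinearMap.comp_apply, lc_single, hg]
  rw [← this]
  rfl

variable {ι n : Type} [Fintype ι]

/-- evaluation at the identity of a cochain pulled back along a matrix -/
def evl (η : (n → ℤ[Γ]) →ₗ[ℤ[Γ]] Co j M) (B : Matrix ι n ℤ[Γ]) : (ι → ℤ[K]) →ₗ[ℤ[K]] M where
  toFun v := η ((jr j ∘ v) ᵥ* B) 1
  map_add' v w := by
    have : jr j ∘ (v + w) = jr j ∘ v + jr j ∘ w := funext fun i => map_add _ _ _
    rw [this, add_vecMul, map_add, Co.add_apply]
  map_smul' r v := by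
    have : jr j ∘ (r • v) = jr j r • (jr j ∘ v) := funext fun i => map_mul _ _ _
    rw [this, smul_vecMul, map_smul, Co.jr_smul, RingHom.id_apply]

theorem evl_apply (η : (n → ℤ[Γ]) →ₗ[ℤ[Γ]] Co j M) (B : Matrix ι n ℤ[Γ]) (v : ι → ℤ[K]) :
    evl η B v = η ((jr j ∘ v) ᵥ* B) 1 := rfl

variable {n0 n1 n2 : Type} [Fintype n0] [Fintype n1] [Fintype n2]
  [DecidableEq n0] [DecidableEq n1] [DecidableEq n2]

theorem compare (P : PRes Γ n0 n1 n2) (σ : Sec j) {s : ι → K}
    (hs : Subgroup.closure (Set.range s) = ⊤) :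
    ∃ (B : Matrix ι n1 ℤ[Γ]) (α : (n1 → ℤ[Γ]) →ₗ[ℤ[Γ]] Co j (ι → ℤ[K]))
      (γ : (ι → ℤ[K]) →ₗ[ℤ[K]] LinearMap.ker (dS s)), B * P.e1 = B ∧
      (∀ v, dS s v = 0 → ((jr j ∘ v) ᵥ* B) ᵥ* P.d1 = 0) ∧
      (∀ y x, y ᵥ* P.d1 = 0 → dS s (α y x) = 0) ∧
      ∀ v, dS s v = 0 → v = evl α B v - γ v := by
  obtain ⟨p, hp, hp1⟩ := P.surj
  choose y hy using fun i => P.ex_sub (j (s i)) hp
  let B : Matrix ι n1 ℤ[Γ] := Matrix.of y * P.e1
  have hB : ∀ v : ι → ℤ[K], ((jr j ∘ v) ᵥ* B) ᵥ* P.d1 = jr j (dS s v) • p := by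
    intro v
    rw [vecMul_vecMul, Matrix.mul_assoc, P.e1d1, vecMul_eq_sum_smul, dS_apply, map_sum,
      Finset.sum_smul]
    refine Finset.sum_congr rfl fun i _ => ?_
    rw [← row_vecMul]
    change _ • y i ᵥ* P.d1 = _
    rw [hy, map_mul, mul_smul, map_sub, map_one, jr_o]
    rfl
  let κ : Co j ℤ[K] := Co.mk (fun x => o (σ.κ x)) fun k x => by rw [σ.κ_mul, smul_eq_mul, o_mul]
  have hκ : ∀ (r : ℤ[Γ]) x, aug ℤ K ((r • κ) x) = aug ℤ Γ r := by
    intro r x
    induction r using zg_induction with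
    | ho g => rw [Co.o_smul, aug_o g]; exact aug_o _
    | hadd a b ha hb => rw [add_smul, Co.add_apply, map_add, map_add, ha, hb]
    | hsmul n a ha => rw [smul_assoc, Co.zsmul_apply, map_zsmul, map_zsmul, ha]
  let α0 : (n0 → ℤ[Γ]) →ₗ[ℤ[Γ]] Co j ℤ[K] :=
    Fintype.linearCombination ℤ[Γ] fun i => P.ε (P.e0 i) • κ
  have hα0 : ∀ y x, aug ℤ K (α0 y x) = P.ε (y ᵥ* P.e0) := by
    intro y x
    have : α0 y = (∑ i, P.ε (P.e0 i) • y i) • κ := by
      rw [Fintype.linearCombination_apply, Finset.sum_smul]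
      exact Finset.sum_congr rfl fun i _ => by rw [smul_assoc, smul_comm]
    rw [this, hκ, P.aug_beta]
  obtain ⟨α, hα⟩ := σ.liftLin (dS s) (α0 ∘ₗ P.d1.vecMulLinear) fun y x => exists_dS' hs (by
    rw [LinearMap.comp_apply, hα0, vecMulLinear_apply, vecMul_vecMul, P.d1e0, P.ε_d1])
  obtain ⟨γ0, hγ0⟩ := exists_dS' hs (r := α0 p 1 - 1) (by rw [map_sub, hα0, hp, hp1, map_one, sub_self])
  refine ⟨B, α, LinearMap.codRestrict _ (evl α B - LinearMap.id -
    (LinearMap.toSpanSingleton _ _ γ0) ∘ₗ dS s) fun v => ?_, ?_, fun v hv => ?_, fun y x h => ?_,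
    fun v hv => ?_⟩
  · rw [LinearMap.mem_ker, LinearMap.sub_apply, LinearMap.sub_apply, map_sub, map_sub, evl_apply,
      hα, LinearMap.comp_apply, vecMulLinear_apply, hB, map_smul, Co.jr_smul, LinearMap.comp_apply,
      LinearMap.toSpanSingleton_apply, map_smul, hγ0, LinearMap.id_apply]
    simp [mul_sub]
  · rw [Matrix.mul_assoc, P.e1e1]
  · rw [hB, hv, map_zero, zero_smul]
  · rw [hα, LinearMap.comp_apply, vecMulLinear_apply, h, map_zero, Co.zero_apply]
  · simp [hv]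

theorem fp2 (P : PRes Γ n0 n1 n2) {s : ι → Γ} (hs : Subgroup.closure (Set.range s) = ⊤) :
    (LinearMap.ker (dS s)).FG := by
  obtain ⟨σ⟩ := exists_sec (j := MonoidHom.id Γ) Function.injective_id
  obtain ⟨B, α, γ, h1, h2, h3, h4⟩ := compare P σ hs
  have : LinearMap.ker (dS s) = LinearMap.range (evl α P.d2) ⊔
      LinearMap.range ((LinearMap.ker (dS s)).subtype ∘ₗ γ) := by
    refine le_antisymm (fun v hv => ?_) (sup_le ?_ ?_)
    · obtain ⟨z, hz⟩ := P.ex1 _ (by rw [vecMul_vecMul, h1]) (h2 v hv)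
      rw [h4 v hv]
      refine Submodule.sub_mem _ (Submodule.mem_sup_left ⟨z, ?_⟩) (Submodule.mem_sup_right ⟨v, rfl⟩)
      rw [evl_apply, evl_apply, ← hz]
      rw [show jr (MonoidHom.id Γ) ∘ z = z from funext fun i => jr_id _]
    · rintro _ ⟨z, rfl⟩
      exact h3 _ _ (by rw [vecMul_vecMul, P.d2d1, vecMul_zero])
    · rintro _ ⟨v, rfl⟩
      exact (γ v).2
  rw [this]
  exact (Submodule.fg_range _).sup (Submodule.fg_range _)

theorem fg_of_pres (P : PRes Γ n0 n1 n2) : Group.FG Γ := by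
  classical
  obtain ⟨p, hp, hp1⟩ := P.surj
  let β : (n0 → ℤ[Γ]) →ₗ[ℤ[Γ]] ℤ[Γ] := Fintype.linearCombination ℤ[Γ] fun i => P.ε (P.e0 i) • 1
  have hβ : ∀ x, aug ℤ Γ (β x) = P.ε (x ᵥ* P.e0) := fun x => by
    rw [← P.aug_beta, Fintype.linearCombination_apply]
    simp [mul_comm]
  let S : Finset Γ := (β p).coeff.support ∪ Finset.univ.biUnion fun i => (β (P.d1 i)).coeff.support
  let L := Subgroup.closure (S : Set Γ)
  let π : ℤ[Γ] →+ ((Γ ⧸ L) →₀ ℤ) := extAdd fun g => Finsupp.single (QuotientGroup.mk g) 1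
  have hπ : ∀ r : ℤ[Γ], r.coeff.support ⊆ S → ∀ a, π (a * r) = aug ℤ Γ r • π a := by
    intro r hr a
    induction a using zg_induction with
    | ho g =>
      rw [extAdd_o_mul, extAdd_o, extAdd_congr (g := fun _ => Finsupp.single (QuotientGroup.mk g) 1)
        fun y hy => by rw [QuotientGroup.mk_mul_of_mem _ (Subgroup.subset_closure (hr hy))]]
      clear hr
      induction r using zg_induction with
      | ho x => simp
      | hadd a b ha hb => rw [map_add, map_add, add_smul, ha, hb]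
      | hsmul n a ha => rw [map_zsmul, map_zsmul, smul_assoc, ha]
    | hadd a b ha hb => rw [add_mul, map_add, map_add, smul_add, ha, hb]
    | hsmul n a ha => rw [smul_mul_assoc, map_zsmul, map_zsmul, ha, smul_comm]
  refine ⟨S, eq_top_iff.2 fun g _ => ?_⟩
  obtain ⟨y, hy⟩ := P.ex_sub g hp
  have h1 := congrArg (fun x => π (β x)) hy
  simp only [vecMul_eq_sum_smul, map_sum, map_smul, smul_eq_mul] at h1
  rw [hπ _ Finset.subset_union_left, hβ, hp, hp1, one_smul, Finset.sum_eq_zero fun i _ => by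
    rw [hπ _ ((Finset.subset_biUnion_of_mem
      (fun i => (β (P.d1 i)).coeff.support) (Finset.mem_univ i)).trans Finset.subset_union_right), hβ, row_vecMul, P.d1e0,
      P.ε_row, zero_smul], map_sub, ← o_one, extAdd_o, extAdd_o, eq_comm, sub_eq_zero,
    Finsupp.single_left_inj one_ne_zero, QuotientGroup.eq, mul_one] at h1
  exact (Subgroup.inv_mem_iff _).1 h1

end

end Pool.Agent.P.MP_5ee5b4_al
end

-- part Pool.Agent.P.MP_5ee5b4_al.Flow
section

/-! Coinvariants of a module coinduced from a subgroup of infinite index vanish. -/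

namespace Pool.Agent.P.MP_5ee5b4_al

open Pool.Agent.P.MP_6e40fc_al
open scoped MonoidAlgebra

noncomputable section

variable {H : Type} [Group H]

/-- points within a given distance of the subgroup -/
def Near (K : Subgroup H) (T : Finset H) : ℕ → H → Prop
  | 0, x => x ∈ K
  | n + 1, x => Near K T n x ∨ ∃ a ∈ T, Near K T n (x * a)

/-- starting points of outgoing paths -/
def Up (T : Finset H) (l : H → ℕ) : ℕ → H → Prop
  | 0, _ => True
  | n + 1, x => ∃ a ∈ T, l (x * a) = l x + 1 ∧ Up T l n (x * a)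

theorem exists_len (K : Subgroup H) (hK : ¬ K.FiniteIndex) (T : Finset H)
    (hT : Subgroup.closure (T : Set H) = ⊤) (hT' : ∀ a ∈ T, a⁻¹ ∈ T) :
    ∃ l : H → ℕ, (∀ k ∈ K, ∀ x, l (k * x) = l x) ∧ (∀ x, l x = 0 → x ∈ K) ∧
      (∀ x n, l x = n + 1 → ∃ a ∈ T, l (x * a) = n) ∧ ∀ n, ∃ x, n ≤ l x := by
  classical
  have h1 : ∀ x, ∃ n, Near K T n x := fun x => (const_of_edges hT (fun x => ∃ n, Near K T n x)
    (fun x a ha => ⟨fun ⟨n, hn⟩ => ⟨n + 1, Or.inr ⟨a⁻¹, hT' a ha, by simpa using hn⟩⟩,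
      fun ⟨n, hn⟩ => ⟨n + 1, Or.inr ⟨a, ha, hn⟩⟩⟩) x).2 ⟨0, K.one_mem⟩
  have h2 : ∀ k ∈ K, ∀ n x, Near K T n (k * x) ↔ Near K T n x := by
    intro k hk n
    induction n with
    | zero => exact fun x => K.mul_mem_cancel_left hk
    | succ n ih => intro x; simp only [Near, mul_assoc, ih]
  refine ⟨fun x => Nat.find (h1 x), fun k hk x => ?_, fun x hx => ?_, fun x n hx => ?_,
    fun n => ?_⟩
  · simp only [h2 k hk]
  · have := Nat.find_spec (h1 x)
    beta_reduce at hx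
    rwa [hx] at this
  · beta_reduce at hx ⊢
    have h3 := Nat.find_spec (h1 x)
    have h4 := Nat.find_min (h1 x) (m := n) (by omega)
    rw [hx] at h3
    obtain ⟨a, ha, h5⟩ := h3.resolve_left h4
    refine ⟨a, ha, le_antisymm (Nat.find_min' _ h5) ?_⟩
    have := Nat.find_min' (h1 x) (m := Nat.find (h1 (x * a)) + 1)
      (Or.inr ⟨a, ha, Nat.find_spec (h1 (x * a))⟩)
    omega
  · by_contra hcon
    have hmono : ∀ m x, Near K T m x → ∀ j, Near K T (m + j) x := fun m x h j => by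
      induction j with
      | zero => exact h
      | succ j ih => exact Or.inl ih
    have hfin : ∀ m, ((fun x : H => (QuotientGroup.mk x⁻¹ : H ⧸ K)) '' {x | Near K T m x}).Finite := by
      intro m
      induction m with
      | zero =>
        refine (Set.finite_singleton (QuotientGroup.mk 1 : H ⧸ K)).subset ?_
        rintro _ ⟨x, hx, rfl⟩
        exact QuotientGroup.eq.2 (by simpa [Near] using hx)
      | succ m ih =>
        refine (ih.union (T.finite_toSet.image2 (fun a q => a • q) ih)).subset ?_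
        rintro _ ⟨x, hx | ⟨a, ha, hx⟩, rfl⟩
        · exact Or.inl ⟨x, hx, rfl⟩
        · exact Or.inr ⟨a, ha, _, ⟨_, hx, rfl⟩, by simp⟩
    have : Finite (H ⧸ K) := by
      rw [← Set.finite_univ_iff]
      refine (hfin n).subset fun q _ => ?_
      obtain ⟨x, rfl⟩ := QuotientGroup.mk_surjective q
      refine ⟨x⁻¹, ?_, by simp⟩
      have h3 : Nat.find (h1 x⁻¹) ≤ n := by
        by_contra h
        exact hcon ⟨x⁻¹, (not_le.1 h).le⟩
      obtain ⟨j, hj⟩ := Nat.exists_eq_add_of_le h3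
      rw [hj]
      exact hmono _ _ (Nat.find_spec (h1 x⁻¹)) j
    exact hK Subgroup.finiteIndex_of_finite_quotient

theorem exists_label (K : Subgroup H) (hK : ¬ K.FiniteIndex) (T : Finset H)
    (hT : Subgroup.closure (T : Set H) = ⊤) (hT' : ∀ a ∈ T, a⁻¹ ∈ T) :
    ∃ lab : H → H, (∀ x, lab x ∈ T) ∧ (∀ k ∈ K, ∀ x, lab (k * x) = lab x) ∧
      WellFounded fun u x => u * lab u = x := by
  classical
  obtain ⟨l, l1, l2, l3, l4⟩ := exists_len K hK T hT hT'
  have u1 : ∀ k ∈ K, ∀ n x, Up T l n (k * x) ↔ Up T l n x := by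
    intro k hk n
    induction n with
    | zero => exact fun _ => Iff.rfl
    | succ n ih => intro x; simp only [Up, mul_assoc, ih, l1 k hk]
  have u2 : ∀ n x, Up T l (n + 1) x → Up T l n x := by
    intro n
    induction n with
    | zero => exact fun _ _ => trivial
    | succ n ih => exact fun x ⟨a, ha, h1, h2⟩ => ⟨a, ha, h1, ih _ h2⟩
  have u3 : ∀ n m x, n ≤ m → Up T l m x → Up T l n x := fun n m x h => by
    induction h with
    | refl => exact id
    | step _ ih => exact fun h' => ih (u2 _ _ h')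
  have u4 : ∀ n x, ∀ a ∈ T, l (x * a) + 1 = l x → Up T l n x → Up T l (n + 1) (x * a) :=
    fun n x a ha h1 h2 => ⟨a⁻¹, hT' a ha, by simp [h1], by simpa using h2⟩
  have u5 : ∀ m n x, l x = m → Up T l n x → Up T l (n + m) 1 := by
    intro m
    induction m with
    | zero => exact fun n x h1 h2 => (u1 x (l2 x h1) n 1).1 (by simpa using h2)
    | succ m ih =>
      intro n x h1 h2
      obtain ⟨a, ha, h3⟩ := l3 x m h1
      have := ih _ _ h3 (u4 n x a ha (by omega) h2)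
      rwa [add_assoc, add_comm 1] at this
  have u6 : ∀ x, l x = 0 → ∀ n, Up T l n x := fun x hx n => by
    obtain ⟨y, hy⟩ := l4 n
    have := (u1 x (l2 x hx) _ 1).2 (u3 n _ 1 (by omega) (u5 _ 0 y rfl trivial))
    rwa [mul_one] at this
  let Lab : H → H → Prop := fun x a => a ∈ T ∧
    (((∀ n, Up T l n x) ∧ (∀ n, Up T l n (x * a)) ∧ l (x * a) = l x + 1) ∨
      (¬ (∀ n, Up T l n x) ∧ l (x * a) + 1 = l x))
  have hLab : ∀ x, ∃ a, Lab x a := by
    intro x
    by_cases hx : ∀ n, Up T l n x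
    · by_contra hcon
      have : ∀ a, ∃ n, a ∈ T → l (x * a) = l x + 1 → ¬ Up T l n (x * a) := fun a => by
        by_contra h
        simp only [not_exists, Classical.not_imp, not_not] at h
        exact hcon ⟨a, (h 0).1, Or.inl ⟨hx, fun n => (h n).2.2, (h 0).2.1⟩⟩
      choose N hN using this
      obtain ⟨a, ha, h1, h2⟩ := hx (T.sup N + 1)
      exact hN a ha h1 (u3 _ _ _ (Finset.le_sup ha) h2)
    · obtain ⟨m, hm⟩ : ∃ m, l x = m + 1 := Nat.exists_eq_succ_of_ne_zero fun h => hx (u6 x h)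
      obtain ⟨a, ha, h1⟩ := l3 x m hm
      exact ⟨a, ha, Or.inr ⟨hx, by omega⟩⟩
  have hl : ∀ x, Lab x (Classical.epsilon (Lab x)) := fun x => Classical.epsilon_spec (hLab x)
  refine ⟨fun x => Classical.epsilon (Lab x), fun x => (hl x).1, fun k hk x => ?_, ⟨fun x => ?_⟩⟩
  · refine congrArg Classical.epsilon (funext fun a => ?_)
    simp only [Lab, mul_assoc, u1 k hk, l1 k hk]
  · have bad : ∀ n x, ¬ Up T l n x → Acc (fun u x => u * Classical.epsilon (Lab u) = x) x := by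
      intro n
      induction n with
      | zero => exact fun x h => absurd trivial h
      | succ n ih =>
        refine fun x h => ⟨_, fun u hu => ih u fun h' => h ?_⟩
        rw [← hu]
        rcases (hl u).2 with h1 | h1
        · exact h1.2.1 _
        · exact u4 n u _ (hl u).1 h1.2 h'
    induction hm : l x using Nat.strong_induction_on generalizing x with
    | _ m ih =>
      refine ⟨_, fun u hu => ?_⟩
      rcases (hl u).2 with h1 | h1
      · exact ih (l u) (by have := h1.2.2; rw [hu] at this; omega) u rfl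
      · obtain ⟨n, hn⟩ := not_forall.1 h1.1
        exact bad n u hn

theorem coinv_vanish {K : Type} [Group K] (j : K →* H) (hK : ¬ j.range.FiniteIndex) (T : Finset H)
    (hT : Subgroup.closure (T : Set H) = ⊤) (hT' : ∀ a ∈ T, a⁻¹ ∈ T) (w : H →* ℤˣ)
    {C : Type} [AddCommGroup C] [Module ℤ[K] C] (ω : Co j C) :
    ∃ Ω : H → Co j C, ω = ∑ a ∈ T, ((w a⁻¹ : ℤ) • o a⁻¹ - 1 : ℤ[H]) • Ω a := by
  classical
  obtain ⟨lab, h1, h2, h3⟩ := exists_label j.range hK T hT hT'
  let Φ : H → C := h3.fix fun x Φ => -ω x + ∑ a ∈ T,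
    if h : lab (x * a⁻¹) = a then (w a⁻¹ : ℤ) • Φ (x * a⁻¹) (by simp [h]) else 0
  have hΦ : ∀ x, Φ x = -ω x + ∑ a ∈ T,
      if lab (x * a⁻¹) = a then (w a⁻¹ : ℤ) • Φ (x * a⁻¹) else 0 := fun x => by
    simp only [Φ]
    rw [h3.fix_eq]
    simp only [dite_eq_ite]
  have hΦ' : ∀ k x, Φ (j k * x) = o k • Φ x := fun k x => by
    induction x using h3.induction with
    | _ x ih =>
      rw [hΦ, hΦ x, ω.equiv, smul_add, smul_neg, Finset.smul_sum]
      congr 1
      refine Finset.sum_congr rfl fun a _ => ?_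
      rw [mul_assoc, h2 _ ⟨k, rfl⟩]
      split_ifs with h
      · rw [ih _ (by simp [h]), smul_comm]
      · simp
  refine ⟨fun a => Co.mk (fun x => if lab x = a then Φ x else 0) fun k x => ?_, Co.ext fun x => ?_⟩
  · rw [h2 _ ⟨k, rfl⟩, hΦ']
    split_ifs <;> simp
  · rw [Co.sum_apply]
    simp only [sub_smul, one_smul, smul_assoc, Co.sub_apply, Co.zsmul_apply, Co.o_smul, Co.mk_apply,
      Finset.sum_sub_distrib, Finset.sum_ite_eq, if_pos (h1 x), smul_ite, smul_zero]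
    rw [hΦ x]
    abel

end

end Pool.Agent.P.MP_5ee5b4_al
end

-- part Pool.Agent.P.MP_5ee5b4_al.Pres2
section

/-! The dual pair of resolutions, with exactness in degree two. -/

namespace Pool.Agent.P.MP_5ee5b4_al

open Pool.Agent.P.MP_6e40fc_al CategoryTheory Matrix Limits
open scoped MonoidAlgebra

noncomputable section

variable {G : Type} [Group G]

theorem tc_tc (w : G →* ℤˣ) {m n : Type} (X : Matrix m n ℤ[G]) : tc w (tc w X) = X := by
  ext1 a b
  exact conj_conj _ _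

theorem exists_pres2 (hG : IsPD 3 G) : ∃ (n0 n1 n2 m0 : ℕ) (P : PRes G (Fin n0) (Fin n1) (Fin n2))
    (P' : PRes G (Fin m0) (Fin n2) (Fin n1)) (w : G →* ℤˣ), P'.d2 = tc w P.d2 ∧
      ∀ y, y ᵥ* P.d2 = 0 → ∃ z, z ᵥ* tc w P'.d1 = y ᵥ* tc w P'.e1 := by
  obtain ⟨⟨P, hfin, N, hN⟩, h0, h3⟩ := hG
  obtain ⟨Q⟩ := exists_mres P hfin N hN
  obtain ⟨u, hu⟩ := Q.reg 3 (fun n hn => h0 _ (by omega)) 3 le_rfl
  obtain ⟨α, ha, ⟨y0, hy1, hy2, hy3⟩, hk⟩ := Q.top 2 h3
  let p := Q.e 3 - Q.e 3 * u * Q.d 3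
  have h1 : Q.e 3 * p = p := by simp only [p, Matrix.mul_sub, ← Matrix.mul_assoc, Q.ee]
  have h2 : Q.d 3 * p = 0 := by
    simp only [p, Matrix.mul_sub, ← Matrix.mul_assoc, Q.de, hu, sub_self]
  have hpp : p * p = p := by
    conv_lhs => enter [1]; simp only [p]
    rw [Matrix.sub_mul, h1, Matrix.mul_assoc, h2, Matrix.mul_zero, sub_zero]
  have hpd : p * Q.d 2 = Q.d 2 := by
    simp only [p, Matrix.sub_mul, Matrix.mul_assoc, Q.dd, Q.ed, Matrix.mul_zero, sub_zero]
  have hdp : ∀ y, Q.d 3 *ᵥ (p *ᵥ y) = 0 := fun y => by rw [mulVec_mulVec, h2, zero_mulVec]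
  have hpy : p *ᵥ y0 = y0 := by
    simp only [p, sub_mulVec, ← mulVec_mulVec, hy1, hy2, mulVec_zero, sub_zero]
  let β : (Fin (Q.m 3) → ℤ[G]) →+ ℤ := AddMonoidHom.mk' (fun y => α (p *ᵥ y)) fun y y' => by
    rw [mulVec_add]; exact ha _ _ (hdp y) (hdp y')
  have hβ : ∀ y, β y = 0 ↔ ∃ z, Q.d 2 *ᵥ z = p *ᵥ y := fun y =>
    hk _ (by rw [mulVec_mulVec, h1]) (hdp y)
  have hβ0 : β y0 = 1 := by change α (p *ᵥ y0) = 1; rw [hpy, hy3]
  have hrm : ∀ (y : Fin (Q.m 3) → ℤ[G]) (r : ℤ[G]),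
      β (fun i => y i * r) = β y * β fun i => y0 i * r := by
    intro y r
    obtain ⟨z, hz⟩ := (hβ (y - β y • y0)).1 (by rw [map_sub, map_zsmul, hβ0]; simp)
    have := (hβ fun i => (y - β y • y0) i * r).2 ⟨fun i => z i * r, by
      rw [mulVec_rm, mulVec_rm, hz]⟩
    have e : (fun i => (y - β y • y0) i * r) = (fun i => y i * r) - β y • fun i => y0 i * r := by
      funext i
      simp only [Pi.sub_apply, Pi.smul_apply, sub_mul, smul_mul_assoc]
    rw [e, map_sub, map_zsmul, sub_eq_zero] at this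
    exact this
  let w0 : G →* ℤ :=
    { toFun := fun g => β fun i => y0 i * o g
      map_one' := by simpa using hβ0
      map_mul' := fun g h => by
        rw [← hrm]
        simp only [mul_o_mul] }
  let w := w0.toHomUnits
  have hw : ∀ r, (β fun i => y0 i * conj w r) = aug ℤ G r := by
    intro r
    induction r using zg_induction with
    | ho g =>
      have e : (fun i => y0 i * conj w (o g)) = (w g : ℤ) • fun i => y0 i * o g⁻¹ := by
        funext i
        rw [conj_o, mul_smul_comm]; rfl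
      rw [e, map_zsmul, aug_o]
      change w0 g * w0 g⁻¹ = 1
      rw [← map_mul, mul_inv_cancel, map_one]
    | hadd x y hx hy =>
      rw [map_add (aug ℤ G), ← hx, ← hy, ← map_add]
      congr 1
      funext i
      rw [map_add, mul_add]; rfl
    | hsmul n x hx =>
      rw [map_zsmul (aug ℤ G), ← hx, ← map_zsmul]
      congr 1
      funext i
      rw [map_zsmul, mul_smul_comm]; rfl
  let ε : (Fin (Q.m 3) → ℤ[G]) →+ ℤ := AddMonoidHom.mk' (fun x => β (conj w ∘ x)) fun x y => by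
    rw [← map_add]
    congr 1
    funext i
    exact map_add _ _ _
  refine ⟨_, _, _, _, ⟨Q.e 0, Q.e 1, Q.d 0, Q.d 1, Q.ε, Q.ε_smul, Q.ε_d, Q.ee 0, Q.de 0, Q.ee 1,
    Q.ed 0, Q.de 1, Q.dd 0, Q.surj, Q.ex0, Q.ex 0⟩,
    ⟨tc w p, tc w (Q.e 2), tc w (Q.d 2), tc w (Q.d 1), ε, fun r x => ?_, fun y => ?_,
      by rw [tc_mul, hpp], by rw [tc_mul, hpd], by rw [tc_mul, Q.ee], by rw [tc_mul, Q.de],
      by rw [tc_mul, Q.ed], ?_, ⟨conj w ∘ y0, conj_comp_inj w ?_, ?_⟩, fun x hx hx' => ?_,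
      fun y hy hy' => ?_⟩, w, rfl, fun y hy => ?_⟩
  · change β _ = _ * β _
    rw [← hw, mul_comm, ← hrm]
    congr 1
    funext i
    exact conj_mul _ _ _
  · change β _ = 0
    rw [conj_vecMul_tc, hβ]
    exact ⟨conj w ∘ y, by rw [mulVec_mulVec, hpd]⟩
  · rw [tc_mul, Q.dd]
    ext1 a b
    exact map_zero (conj w)
  · rw [conj_vecMul_tc, conj_comp_conj, hpy]
  · change β _ = 1
    rw [conj_comp_conj, hβ0]
  · obtain ⟨z, hz⟩ := (hβ _).1 hx'
    refine ⟨conj w ∘ z, conj_comp_inj w ?_⟩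
    rw [conj_vecMul_tc, conj_comp_conj, hz, ← conj_vecMul_tc, hx]
  · obtain ⟨z, hz⟩ := Q.coh 1 (h0 _ (by omega)) (conj w ∘ y) (by rw [← conj_vecMul_tc, hy])
      (by rw [← conj_vecMul_tc, hy']; funext i; exact map_zero _)
    refine ⟨conj w ∘ z, conj_comp_inj w ?_⟩
    rw [conj_vecMul_tc, conj_comp_conj, hz]
  · change ∃ z, z ᵥ* tc w (tc w (Q.d 2)) = y ᵥ* tc w (tc w (Q.e 2))
    rw [tc_tc, tc_tc]
    exact Q.ex 1 _ (by rw [vecMul_vecMul, Q.ee]) (by rw [vecMul_vecMul, Q.ed]; exact hy)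

end

end Pool.Agent.P.MP_5ee5b4_al
end

-- part Pool.Agent.P.MP_5ee5b4_al.Van
section

/-! Vanishing of the second cohomology with one-sided coefficients. -/

namespace Pool.Agent.P.MP_5ee5b4_al

open Pool.Agent.P.MP_6e40fc_al Matrix
open scoped MonoidAlgebra

noncomputable section

set_option linter.unusedSectionVars false

variable {K Γ : Type} [Group K] [Group Γ] {j : K →* Γ} {M : Type} [AddCommGroup M] [Module ℤ[K] M]
  {χ : Γ →* Multiplicative ℤ}

/-- restriction to a set of levels -/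
def cut (hj : ∀ k, lv χ (j k) = 0) (p : ℤ → Prop) [DecidablePred p] : Co j M →+ Co j M where
  toFun f := Co.mk (fun x => if p (lv χ x) then f x else 0) fun k x => by
    rw [lv_mul, hj, zero_add, f.equiv]
    split_ifs <;> simp
  map_zero' := Co.ext fun x => by simp
  map_add' f g := Co.ext fun x => by
    simp only [Co.mk_apply, Co.add_apply]
    split_ifs <;> simp

theorem cut_apply (hj : ∀ k, lv χ (j k) = 0) (p : ℤ → Prop) [DecidablePred p] (f : Co j M) (x : Γ) :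
    cut hj p f x = if p (lv χ x) then f x else 0 := rfl

variable (j M χ) in
/-- functions vanishing at high levels -/
def Vb : Submodule ℤ[Γ] (Co j M) where
  carrier := {f | ∃ k : ℤ, ∀ x, k < lv χ x → f x = 0}
  add_mem' := by
    rintro f g ⟨k, hk⟩ ⟨l, hl⟩
    exact ⟨max k l, fun x hx => by
      rw [Co.add_apply, hk x (by omega), hl x (by omega), add_zero]⟩
  zero_mem' := ⟨0, fun _ _ => rfl⟩
  smul_mem' r f := by
    rintro ⟨k, hk⟩
    induction r using zg_induction with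
    | ho g => exact ⟨k - lv χ g, fun x hx => by rw [Co.o_smul, hk _ (by rw [lv_mul]; omega)]⟩
    | hadd a b ha hb =>
      obtain ⟨k, hk⟩ := ha
      obtain ⟨l, hl⟩ := hb
      exact ⟨max k l, fun x hx => by
        rw [add_smul, Co.add_apply, hk x (by omega), hl x (by omega), add_zero]⟩
    | hsmul n a ha =>
      obtain ⟨k, hk⟩ := ha
      exact ⟨k, fun x hx => by rw [smul_assoc, Co.zsmul_apply, hk x hx, smul_zero]⟩

theorem hahn_smul (g : Γ) (y : HahnModule ℤ ℤ[Γ] (Co j M)) (i : ℤ) (x : Γ) :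
    ((HahnModule.of ℤ[Γ]).symm (iota χ (o g) • y)).coeff i x =
      ((HahnModule.of ℤ[Γ]).symm y).coeff (i - lv χ g) (x * g) := by
  have := HahnModule.coeff_single_smul_vadd (r := o g) (x := y) (a := i - lv χ g) (b := lv χ g)
  rw [vadd_eq_add, add_sub_cancel] at this
  rw [iota_o]
  exact (congrArg (fun f : Co j M => f x) this).trans (Co.o_smul _ _ _)

/-- the series of level components -/
def til (hj : ∀ k, lv χ (j k) = 0) : Vb j M χ →+ HahnModule ℤ ℤ[Γ] (Co j M) where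
  toFun f := HahnModule.of ℤ[Γ] (HahnSeries.ofSuppBddBelow
    (fun i => cut hj (fun l => l = -i) f.1) (by
      obtain ⟨k, hk⟩ := f.2
      refine ⟨-k, fun i hi => ?_⟩
      by_contra hlt
      refine hi (Co.ext fun x => ?_)
      rw [cut_apply]
      split_ifs with h
      · exact hk x (by omega)
      · rfl))
  map_zero' := HahnModule.ext _ _ (funext fun i => map_zero (cut hj fun l => l = -i))
  map_add' f g := HahnModule.ext _ _ (funext fun i => map_add (cut hj fun l => l = -i) f.1 g.1)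

theorem til_coeff (hj : ∀ k, lv χ (j k) = 0) (f : Vb j M χ) (i : ℤ) (x : Γ) :
    ((HahnModule.of ℤ[Γ]).symm (til hj f)).coeff i x = if lv χ x = -i then f.1 x else 0 := rfl

theorem til_smul (hj : ∀ k, lv χ (j k) = 0) (r : ℤ[Γ]) (f : Vb j M χ) :
    til hj (r • f) = iota χ r • til hj f := by
  induction r using zg_induction with
  | ho g =>
    refine HahnModule.ext _ _ (funext fun i => Co.ext fun x => ?_)
    rw [hahn_smul, til_coeff, til_coeff, Submodule.coe_smul, Co.o_smul, lv_mul]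
    exact if_congr (by omega) rfl rfl
  | hadd a b ha hb => rw [add_smul, map_add, map_add, add_smul, ha, hb]
  | hsmul n a ha => rw [smul_assoc, map_zsmul, map_zsmul, smul_assoc, ha]

/-- the diagonal part of a series -/
def dia (hj : ∀ k, lv χ (j k) = 0) : HahnModule ℤ ℤ[Γ] (Co j M) →+ Co j M where
  toFun y := Co.mk (fun x => ((HahnModule.of ℤ[Γ]).symm y).coeff (-lv χ x) x) fun k x => by
    rw [lv_mul, hj, zero_add, Co.equiv]
  map_zero' := Co.ext fun _ => rfl
  map_add' _ _ := Co.ext fun _ => rfl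

theorem dia_apply (hj : ∀ k, lv χ (j k) = 0) (y : HahnModule ℤ ℤ[Γ] (Co j M)) (x : Γ) :
    dia hj y x = ((HahnModule.of ℤ[Γ]).symm y).coeff (-lv χ x) x := rfl

theorem dia_smul (hj : ∀ k, lv χ (j k) = 0) (r : ℤ[Γ]) (y : HahnModule ℤ ℤ[Γ] (Co j M)) :
    dia hj (iota χ r • y) = r • dia hj y := by
  induction r using zg_induction with
  | ho g =>
    refine Co.ext fun x => ?_
    rw [dia_apply, hahn_smul, Co.o_smul, dia_apply, lv_mul, neg_add']
  | hadd a b ha hb => rw [map_add, add_smul, map_add, add_smul, ha, hb]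
  | hsmul n a ha => rw [map_zsmul, smul_assoc, map_zsmul, smul_assoc, ha]

theorem dia_til (hj : ∀ k, lv χ (j k) = 0) (f : Vb j M χ) : dia hj (til hj f) = f.1 :=
  Co.ext fun x => by rw [dia_apply, til_coeff, if_pos (neg_neg _).symm]

theorem lin_apply {R A n : Type} [Ring R] [AddCommGroup A] [Module R A] [Fintype n] [DecidableEq n]
    (f : (n → R) →ₗ[R] A) (y : n → R) : f y = ∑ i, y i • f (Pi.single i 1) := by
  rw [LinearMap.pi_apply_eq_sum_univ]
  refine Finset.sum_congr rfl fun i _ => ?_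
  congr 2
  funext k
  simp [Pi.single_apply, eq_comm]

variable {n0 n1 n2 m0 : Type} [Fintype n0] [Fintype n1] [Fintype n2] [Fintype m0]
  [DecidableEq n0] [DecidableEq n1] [DecidableEq n2] [DecidableEq m0]

theorem vanish (hj : ∀ k, lv χ (j k) = 0) (P' : PRes Γ m0 n2 n1) (w : Γ →* ℤˣ)
    (h : AllPrinc (iota χ⁻¹)) (A : (n2 → ℤ[Γ]) →ₗ[ℤ[Γ]] Co j M) (hA : ∀ y, A y ∈ Vb j M χ)
    (hA0 : ∀ v, A (v ᵥ* tc w P'.d1) = 0) :
    ∃ η : (n1 → ℤ[Γ]) →ₗ[ℤ[Γ]] Co j M, ∀ y, A (y ᵥ* tc w P'.e1) = η (y ᵥ* tc w P'.d2) := by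
  obtain ⟨s0, s1, hs⟩ := P'.split_of_allPrinc _ h
  have hs' : ∀ a b, iota χ (tc w P'.e1 a b) = ∑ c, sig w (s0 c a) * iota χ (tc w P'.d1 c b) +
      ∑ c, iota χ (tc w P'.d2 a c) * sig w (s1 b c) := by
    intro a b
    have := congrArg (sig w) (congrFun (congrFun hs b) a)
    simp only [mul_apply, map_apply, Matrix.add_apply, map_add, map_sum, sig_mul, sig_iota] at this
    exact this
  let a : n2 → HahnModule ℤ ℤ[Γ] (Co j M) := fun b => til hj ⟨A (Pi.single b 1), hA _⟩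
  have ha : ∀ y, til hj ⟨A y, hA y⟩ = ∑ b, iota χ (y b) • a b := by
    intro y
    simp only [a, ← til_smul, ← map_sum]
    congr 1
    apply Subtype.ext
    simp only [Submodule.coe_sum, Submodule.coe_smul]
    exact lin_apply A y
  have h0 : ∀ c, ∑ b, iota χ (tc w P'.d1 c b) • a b = 0 := by
    intro c
    rw [← ha, ← map_zero (til hj)]
    congr 1
    apply Subtype.ext
    have := hA0 (Pi.single c 1)
    rwa [single_one_vecMul] at this
  let η := Fintype.linearCombination ℤ[Γ] fun c => dia hj (∑ b, sig w (s1 b c) • a b)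
  have : A ∘ₗ (tc w P'.e1).vecMulLinear = η ∘ₗ (tc w P'.d2).vecMulLinear := lin_ext fun i => by
    simp only [LinearMap.comp_apply, vecMulLinear_apply, single_one_vecMul]
    have h1 : _ = A ((tc w P'.e1).row i) := dia_til hj ⟨A ((tc w P'.e1).row i), hA _⟩
    rw [← h1, ha, Fintype.linearCombination_apply]
    simp only [← dia_smul hj, ← map_sum]
    congr 1
    simp only [row_apply, hs', add_smul, Finset.sum_smul, mul_smul, Finset.sum_add_distrib,
      Finset.smul_sum]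
    rw [Finset.sum_comm, Finset.sum_comm (f := fun b c =>
      iota χ (tc w P'.d2 i c) • sig w (s1 b c) • a b)]
    simp only [← Finset.smul_sum, h0, smul_zero, Finset.sum_const_zero, zero_add]
  exact ⟨η, fun y => LinearMap.congr_fun this y⟩

end

end Pool.Agent.P.MP_5ee5b4_al
end

-- part Pool.Agent.P.MP_5ee5b4_al.Star
section

/-! The finitely generated fibre has two-dimensional duality data. -/

namespace Pool.Agent.P.MP_5ee5b4_al

open Pool.Agent.P.MP_6e40fc_al Matrix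
open scoped MonoidAlgebra

noncomputable section

set_option linter.unusedSectionVars false

/-- two-dimensional duality data -/
def PD2 (H : Type) [Group H] : Prop :=
  ∃ w : H →* ℤˣ, ∀ (ι : Type) [Fintype ι] (s : ι → H), Subgroup.closure (Set.range s) = ⊤ →
    ∃ (θ : LinearMap.ker (dS s) →ₗ[ℤ[H]] ℤ[H]) (m0 : LinearMap.ker (dS s))
      (g : (ι → ℤ[H]) →ₗ[ℤ[H]] LinearMap.ker (dS s)), (∀ k, k = θ k • m0 + g k) ∧
      ∀ h, ∃ G : (ι → ℤ[H]) →ₗ[ℤ[H]] ℤ[H], ∀ k, θ k * ((w h : ℤ) • o h - 1) = G k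

variable {K Γ : Type} [Group K] [Group Γ] {j : K →* Γ} {M : Type} [AddCommGroup M] [Module ℤ[K] M]
  {χ : Γ →* Multiplicative ℤ}

variable (j χ) in
/-- a splitting over the integers -/
structure Fib where
  t : Γ
  ht : lv χ t = 1
  inj : Function.Injective j
  hj : ∀ k, lv χ (j k) = 0
  κ : Γ → K
  hκ : ∀ x, j (κ x) * t ^ lv χ x = x

namespace Fib

variable (F : Fib j χ)

theorem κ_mul (k : K) (x : Γ) : F.κ (j k * x) = k * F.κ x := F.inj (by
  have h1 := F.hκ (j k * x)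
  have h2 := F.hκ x
  rw [lv_mul, F.hj, zero_add] at h1
  rw [map_mul, eq_mul_inv_of_mul_eq h1, eq_mul_inv_of_mul_eq h2, mul_assoc])

theorem κ_mul_t (x : Γ) : F.κ (x * F.t) = F.κ x := F.inj (by
  have h1 := F.hκ (x * F.t)
  have h2 := F.hκ x
  rw [lv_mul, F.ht] at h1
  rw [eq_mul_inv_of_mul_eq h1, eq_mul_inv_of_mul_eq h2]
  group)

theorem κ_one : F.κ 1 = 1 := F.inj (by simpa using F.hκ 1)

/-- the retraction -/
def sec : Sec j := ⟨F.κ, F.κ_mul, F.κ_one⟩

variable (w : Γ →* ℤˣ)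

/-- the invariant extension of an element -/
def ρ (m : M) : Co j M :=
  Co.mk (fun x => (w (F.t ^ lv χ x) : ℤ) • o (F.κ x) • m) fun k x => by
    rw [lv_mul, F.hj, zero_add, F.κ_mul, ← o_mul, mul_smul, smul_comm]

/-- the extension by zero of an element -/
def δ : M →+ Co j M where
  toFun m := Co.mk (fun x => if lv χ x = 0 then o (F.κ x) • m else 0) fun k x => by
    rw [lv_mul, F.hj, zero_add, F.κ_mul, ← o_mul, mul_smul]
    split_ifs <;> simp
  map_zero' := Co.ext fun x => by simp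
  map_add' a b := Co.ext fun x => by
    simp only [Co.mk_apply, Co.add_apply]
    split_ifs <;> simp

theorem δ_apply (m : M) (x : Γ) : F.δ m x = if lv χ x = 0 then o (F.κ x) • m else 0 := rfl

theorem tw_smul (g : Γ) (f : Co j M) (x : Γ) :
    ((((w g : ℤ) • o g - 1 : ℤ[Γ])) • f) x = (w g : ℤ) • f (x * g) - f x := by
  rw [sub_smul, one_smul, smul_assoc, Co.sub_apply, Co.zsmul_apply, Co.o_smul]

theorem ρ_t (m : M) (x : Γ) : (w F.t : ℤ) • F.ρ w m (x * F.t) = F.ρ w m x := by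
  simp only [ρ, Co.mk_apply]
  rw [lv_mul, F.ht, F.κ_mul_t, smul_smul, _root_.zpow_add_one, map_mul, Units.val_mul, mul_left_comm,
    ← Units.val_mul, Int.units_mul_self, Units.val_one, mul_one]

theorem tw_ρ (m : M) : ((w F.t : ℤ) • o F.t - 1 : ℤ[Γ]) • F.ρ w m = 0 :=
  Co.ext fun x => by rw [tw_smul, ρ_t, sub_self, Co.zero_apply]

theorem tw_cut_ρ (m : M) :
    ((w F.t : ℤ) • o F.t - 1 : ℤ[Γ]) • cut F.hj (0 < ·) (F.ρ w m) = F.δ m :=
  Co.ext fun x => by
    rw [tw_smul, cut_apply, cut_apply, lv_mul, F.ht, δ_apply]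
    rcases lt_trichotomy (lv χ x) 0 with h | h | h
    · rw [if_neg (by omega), if_neg (by omega), if_neg (by omega), smul_zero, sub_zero]
    · rw [if_pos (by omega), if_neg (by omega), if_pos h, ρ_t, sub_zero]
      simp [ρ, h]
    · rw [if_pos (by omega), if_pos h, if_neg (by omega), ρ_t, sub_self]

theorem δ_mem (m : M) : F.δ m ∈ Vb j M χ ⊓ Vb j M χ⁻¹ :=
  ⟨⟨0, fun x hx => by rw [δ_apply, if_neg (by omega)]⟩,
    ⟨0, fun x hx => by rw [lv_inv_hom] at hx; rw [δ_apply, if_neg (by omega)]⟩⟩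

theorem cut_eq (f : Co j M) (i : ℤ) : cut F.hj (· = i) f = o (F.t ^ (-i)) • F.δ (f (F.t ^ i)) :=
  Co.ext fun x => by
    rw [cut_apply, Co.o_smul, δ_apply, lv_mul, lv_zpow, F.ht, ← f.equiv]
    refine if_ctx_congr (by omega) (fun h => ?_) fun _ => rfl
    have := F.hκ (x * F.t ^ (-i))
    rw [lv_mul, lv_zpow, F.ht, h, zpow_zero, mul_one] at this
    rw [this]
    simp

theorem δ_tw (h : K) : F.δ ((w (j h) : ℤ) • o h - 1 : ℤ[K]) =
    ((w (j h) : ℤ) • o (j h) - 1 : ℤ[Γ]) • F.δ (1 : ℤ[K]) :=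
  Co.ext fun x => by
    rw [tw_smul, δ_apply, δ_apply, δ_apply, lv_mul, F.hj, add_zero]
    split_ifs with hx
    · have h1 := F.hκ x
      have h2 := F.hκ (x * j h)
      rw [hx, zpow_zero, mul_one] at h1
      rw [lv_mul, F.hj, hx, add_zero, zpow_zero, mul_one] at h2
      have h3 : F.κ (x * j h) = F.κ x * h := F.inj (by rw [map_mul, h1, h2])
      rw [h3]
      simp only [smul_eq_mul, mul_sub, mul_one, mul_smul_comm, o_mul]
    · simp

theorem ρ_nat (m : M) (r : ℤ[Γ]) (x : Γ) : (r • F.ρ w m) x = (r • F.ρ w (1 : ℤ[K])) x • m := by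
  have : F.ρ w m = Co.map j (LinearMap.toSpanSingleton ℤ[K] M m) (F.ρ w 1) := Co.ext fun x => by
    simp only [ρ, Co.mk_apply, Co.map_apply, LinearMap.toSpanSingleton_apply, smul_assoc, one_smul]
  rw [this, ← map_smul, Co.map_apply, LinearMap.toSpanSingleton_apply]

end Fib

/-- pairing with a column, times a fixed element -/
def dotL {R A n : Type} [Ring R] [AddCommGroup A] [Module R A] [Fintype n] (z : n → R) (f : A) :
    (n → R) →ₗ[R] A := Fintype.linearCombination R fun i => z i • f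

theorem dotL_apply {R A n : Type} [Ring R] [AddCommGroup A] [Module R A] [Fintype n] (z : n → R)
    (f : A) (v : n → R) : dotL z f v = (v ⬝ᵥ z) • f := by
  simp [dotL, Fintype.linearCombination_apply, dotProduct, Finset.sum_smul, mul_smul]

variable {n0 n1 n2 m0 : Type} [Fintype n0] [Fintype n1] [Fintype n2] [Fintype m0]
  [DecidableEq n0] [DecidableEq n1] [DecidableEq n2] [DecidableEq m0]

theorem dual_data (P' : PRes Γ m0 n2 n1) (w : Γ →* ℤˣ) :
    ∃ y0 : m0 → ℤ[Γ], (∀ g, ∃ z : n2 → ℤ[Γ], ∀ v, (v ᵥ* tc w P'.d1) ⬝ᵥ z =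
      (v ⬝ᵥ y0) * ((w g : ℤ) • o g - 1)) ∧ ∃ (lam : m0 → ℤ[Γ]) (Z : Matrix n2 m0 ℤ[Γ]),
      ∀ v, v ᵥ* tc w P'.d1 = (v ⬝ᵥ y0) • (lam ᵥ* tc w P'.d1) +
        ((v ᵥ* tc w P'.d1) ᵥ* Z) ᵥ* tc w P'.d1 := by
  obtain ⟨p, hp, hp1⟩ := P'.surj
  refine ⟨conj w ∘ p, fun g => ?_, ?_⟩
  · obtain ⟨y, hy⟩ := P'.ex_sub g⁻¹ hp
    refine ⟨conj w ∘ y, fun v => ?_⟩
    rw [← dotProduct_mulVec, ← conj_vecMul_tc, tc_tc, hy, dotProduct, dotProduct, Finset.sum_mul]
    refine Finset.sum_congr rfl fun i _ => ?_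
    simp only [Function.comp_apply, Pi.smul_apply, smul_eq_mul, MP_6e40fc_al.conj_mul, map_sub, conj_o, conj_one,
      map_inv, Int.units_inv_eq_self, inv_inv, mul_assoc]
  · choose y hy using fun i => P'.ex0 (P'.e0 i - (P'.ε (P'.e0 i) : ℤ[Γ]) • p)
      (by rw [sub_vecMul, smul_vecMul, hp, row_vecMul, P'.e0e0])
      (by rw [map_sub, P'.ε_smul, hp1, map_intCast]; simp)
    refine ⟨fun i => (P'.ε (P'.e0 i) : ℤ[Γ]), tc w (Matrix.of y), fun v => ?_⟩
    have h1 : tc w P'.e0 * tc w P'.d1 = tc w P'.d1 := by rw [tc_mul, P'.d1e0]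
    rw [← smul_vecMul, ← add_vecMul, vecMul_vecMul v, tc_mul]
    conv_lhs => rw [← h1, ← vecMul_vecMul]
    congr 1
    funext a
    have h2 : ∀ b, P'.e0 a b = (P'.ε (P'.e0 a)) • p b + (Matrix.of y * P'.d1) a b := fun b => by
      have := congrFun (hy a) b
      rw [Pi.sub_apply, Pi.smul_apply, smul_eq_mul, ← zsmul_eq_mul] at this
      rw [← row_vecMul]
      exact sub_eq_iff_eq_add'.1 this.symm
    simp only [vecMul, dotProduct, tc, transpose_apply, map_apply, Pi.add_apply, Pi.smul_apply,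
      smul_eq_mul, Function.comp_apply, Finset.sum_mul, ← Finset.sum_add_distrib]
    refine Finset.sum_congr rfl fun b _ => ?_
    rw [h2, map_add, map_zsmul, mul_add, mul_smul_comm, zsmul_eq_mul, Int.cast_comm]

theorem glue (F : Fib j χ) (P' : PRes Γ m0 n2 n1) (w : Γ →* ℤˣ) (h : AllPrinc (iota χ))
    (h' : AllPrinc (iota χ⁻¹)) (A B : (n2 → ℤ[Γ]) →ₗ[ℤ[Γ]] Co j M) (hA : ∀ y, A y ∈ Vb j M χ⁻¹)
    (hB : ∀ y, B y ∈ Vb j M χ) (hA0 : ∀ v, A (v ᵥ* tc w P'.d1) = 0)
    (hB0 : ∀ v, B (v ᵥ* tc w P'.d1) = 0) :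
    ∃ η : (n1 → ℤ[Γ]) →ₗ[ℤ[Γ]] Co j M, ∀ y, (A + B) (y ᵥ* tc w P'.e1) = η (y ᵥ* tc w P'.d2) := by
  obtain ⟨η, hη⟩ := vanish (χ := χ⁻¹) (fun k => by rw [lv_inv_hom, F.hj, neg_zero]) P' w
    (by rwa [inv_inv]) A hA hA0
  obtain ⟨η', hη'⟩ := vanish F.hj P' w h' B hB hB0
  exact ⟨η + η', fun y => by rw [LinearMap.add_apply, hη, hη', LinearMap.add_apply]⟩

theorem reduce (F : Fib j χ) (w : Γ →* ℤˣ) (D : Matrix m0 n2 ℤ[Γ]) (y0 : m0 → ℤ[Γ])
    (hz : ∀ g, ∃ z : n2 → ℤ[Γ], ∀ v, (v ᵥ* D) ⬝ᵥ z = (v ⬝ᵥ y0) * ((w g : ℤ) • o g - 1))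
    (f : Co j M) (hf : f ∈ Vb j M χ ⊓ Vb j M χ⁻¹) :
    ∃ (m : M) (η : (n2 → ℤ[Γ]) →ₗ[ℤ[Γ]] Co j M), (∀ y, η y ∈ Vb j M χ ⊓ Vb j M χ⁻¹) ∧
      ∀ v, (v ⬝ᵥ y0) • f = (v ⬝ᵥ y0) • F.δ m + η (v ᵥ* D) := by
  obtain ⟨⟨k, hk⟩, l, hl⟩ := hf
  have h1 : f = ∑ i ∈ Finset.Icc (-l) k, cut F.hj (· = i) f := Co.ext fun x => by
    rw [Co.sum_apply]
    simp only [cut_apply, Finset.sum_ite_eq, Finset.mem_Icc]
    split_ifs with h
    · rfl
    · by_cases h2 : k < lv χ x
      · exact hk x h2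
      · exact hl x (by rw [lv_inv_hom]; omega)
  rw [h1]
  induction Finset.Icc (-l) k using Finset.induction_on with
  | empty => exact ⟨0, 0, fun _ => Submodule.zero_mem _, fun v => by simp⟩
  | insert i s hi ih =>
    obtain ⟨m, η, h2, h3⟩ := ih
    obtain ⟨z, hz⟩ := hz (F.t ^ (-i))
    refine ⟨(w (F.t ^ (-i)) : ℤ) • f (F.t ^ i) + m,
      dotL z (F.δ ((w (F.t ^ (-i)) : ℤ) • f (F.t ^ i))) + η,
      fun y => Submodule.add_mem _ ?_ (h2 y), fun v => ?_⟩
    · rw [dotL_apply]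
      exact Submodule.smul_mem _ _ (F.δ_mem _)
    · rw [Finset.sum_insert hi, smul_add, h3, F.cut_eq, LinearMap.add_apply, dotL_apply, hz,
        map_add, smul_add, mul_smul, sub_smul, one_smul, smul_sub, map_zsmul, smul_assoc,
        smul_comm (o _) (w _ : ℤ), smul_smul (w _ : ℤ), ← Units.val_mul, Int.units_mul_self,
        Units.val_one, one_smul]
      abel

theorem pd2 (F : Fib j χ) (P : PRes Γ n0 n1 n2) (P' : PRes Γ m0 n2 n1) (w : Γ →* ℤˣ)
    (hP : P'.d2 = tc w P.d2)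
    (ex2 : ∀ y, y ᵥ* P.d2 = 0 → ∃ z, z ᵥ* tc w P'.d1 = y ᵥ* tc w P'.e1)
    (h : AllPrinc (iota χ)) (h' : AllPrinc (iota χ⁻¹)) : PD2 K := by
  classical
  refine ⟨w.comp j, fun ι _ s hs => ?_⟩
  obtain ⟨y0, hz, lam, Z, hZ⟩ := dual_data P' w
  obtain ⟨zt, hzt⟩ := hz F.t
  obtain ⟨B, α, γ, c1, c2, c3, c4⟩ := compare P F.sec hs
  have hd2 : tc w P'.d2 = P.d2 := by rw [hP, tc_tc]
  have hed : tc w P'.e1 * P.d2 = P.d2 := by rw [← hd2, tc_mul, P'.d2e1]
  have hdd : tc w P'.d1 * P.d2 = 0 := by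
    rw [← hd2, tc_mul, P'.d2d1]
    ext1 a b
    exact map_zero (conj w)
  have hcut : ∀ (M : Type) [AddCommGroup M] [Module ℤ[K] M] (f : Co j M),
      cut F.hj (0 < ·) f ∈ Vb j M χ⁻¹ ∧ f - cut F.hj (0 < ·) f ∈ Vb j M χ := fun M _ _ f =>
    ⟨⟨0, fun x hx => by rw [lv_inv_hom] at hx; rw [cut_apply, if_neg (by omega)]⟩,
      ⟨0, fun x hx => by rw [Co.sub_apply, cut_apply, if_pos hx, sub_self]⟩⟩
  have main : ∀ (M : Type) [AddCommGroup M] [Module ℤ[K] M]
      (A A' η : (n2 → ℤ[Γ]) →ₗ[ℤ[Γ]] Co j M) (m : M), (∀ y, A y ∈ Vb j M χ⁻¹) →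
      (∀ y, A' y ∈ Vb j M χ) → (∀ y, η y ∈ Vb j M χ ⊓ Vb j M χ⁻¹) →
      (∀ v, (A + A') (v ᵥ* tc w P'.d1) = 0) →
      (∀ v, A (v ᵥ* tc w P'.d1) = (v ⬝ᵥ y0) • F.δ m + η (v ᵥ* tc w P'.d1)) →
      ∃ η' : (n1 → ℤ[Γ]) →ₗ[ℤ[Γ]] Co j M, ∀ y, (A + A') (y ᵥ* tc w P'.e1) =
        ((y ᵥ* tc w P'.e1) ⬝ᵥ zt) • F.ρ w m + η' (y ᵥ* P.d2) := by
    intro M _ _ A A' η m h1 h2 h3 h4 h5
    obtain ⟨η', hη'⟩ := glue F P' w h h' (A - η - dotL zt (cut F.hj (0 < ·) (F.ρ w m)))
      (A' + η - dotL zt (F.ρ w m - cut F.hj (0 < ·) (F.ρ w m)))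
      (fun y => by
        rw [LinearMap.sub_apply, LinearMap.sub_apply, dotL_apply]
        exact Submodule.sub_mem _ (Submodule.sub_mem _ (h1 y) (h3 y).2)
          (Submodule.smul_mem _ _ (hcut M _).1))
      (fun y => by
        rw [LinearMap.sub_apply, LinearMap.add_apply, dotL_apply]
        exact Submodule.sub_mem _ (Submodule.add_mem _ (h2 y) (h3 y).1)
          (Submodule.smul_mem _ _ (hcut M _).2))
      (fun v => by
        rw [LinearMap.sub_apply, LinearMap.sub_apply, dotL_apply, hzt, mul_smul, F.tw_cut_ρ, h5]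
        abel)
      (fun v => by
        have := h4 v
        rw [LinearMap.add_apply, h5] at this
        rw [LinearMap.sub_apply, LinearMap.add_apply, dotL_apply, hzt, mul_smul, smul_sub,
          F.tw_cut_ρ, F.tw_ρ, zero_sub, smul_neg, ← this]
        abel)
    refine ⟨η', fun y => ?_⟩
    rw [← hd2, ← hη']
    simp only [LinearMap.add_apply, LinearMap.sub_apply, dotL_apply, smul_sub]
    abel
  obtain ⟨ξ, hξ⟩ := F.sec.liftLin (LinearMap.ker (dS s)).subtype (α ∘ₗ P.d2.vecMulLinear)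
    fun y x => ⟨⟨_, c3 _ x (by rw [vecMulLinear_apply, vecMul_vecMul, P.d2d1, vecMul_zero])⟩, rfl⟩
  have hξ' : ∀ y x, (ξ y x : ι → ℤ[K]) = α (y ᵥ* P.d2) x := hξ
  let A := Fintype.linearCombination ℤ[Γ] fun i => cut F.hj (0 < ·) (ξ (Pi.single i 1))
  have hA : ∀ y, A y ∈ Vb j _ χ⁻¹ := fun y => by
    rw [Fintype.linearCombination_apply]
    exact Submodule.sum_mem _ fun i _ => Submodule.smul_mem _ _ (hcut _ _).1
  have hA' : ∀ y, (ξ - A) y ∈ Vb j _ χ := fun y => by
    rw [lin_apply]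
    refine Submodule.sum_mem _ fun i _ => Submodule.smul_mem _ _ ?_
    rw [LinearMap.sub_apply, lc_single]
    exact (hcut _ _).2
  have hξ0 : ∀ v, ξ (v ᵥ* tc w P'.d1) = 0 := fun v => Co.ext fun x => Subtype.ext (by
    rw [hξ', vecMul_vecMul, hdd, vecMul_zero, map_zero]; rfl)
  have hAb : ∀ v, A (v ᵥ* tc w P'.d1) ∈ Vb j _ χ ⊓ Vb j _ χ⁻¹ := fun v => ⟨by
    have := Submodule.neg_mem _ (hA' (v ᵥ* tc w P'.d1))
    rwa [LinearMap.sub_apply, hξ0, zero_sub, neg_neg] at this, hA _⟩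
  obtain ⟨m0, η0, h1, h2⟩ := reduce F w _ y0 hz _ (hAb lam)
  obtain ⟨η, hη⟩ := main _ A (ξ - A)
    (η0 + A ∘ₗ (tc w P'.d1).vecMulLinear ∘ₗ Z.vecMulLinear) m0 hA hA'
    (fun y => Submodule.add_mem _ (h1 y) (hAb _))
    (fun v => by rw [add_sub_cancel, hξ0])
    (fun v => by
      conv_lhs => rw [hZ v, map_add, map_smul, h2]
      rw [LinearMap.add_apply, add_assoc]
      rfl)
  rw [add_sub_cancel] at hη
  let T : (n2 → ℤ[Γ]) →ₗ[ℤ[Γ]] Co j ℤ[K] := dotL zt (F.ρ w 1) ∘ₗ (tc w P'.e1).vecMulLinear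
  have hT : ∀ y, T y = ((y ᵥ* tc w P'.e1) ⬝ᵥ zt) • F.ρ w 1 := fun y => dotL_apply _ _ _
  have hT0 : ∀ y y', y ᵥ* P.d2 = y' ᵥ* P.d2 → T y = T y' := fun y y' e => by
    obtain ⟨z, hz⟩ := ex2 (y - y') (by rw [sub_vecMul, e, sub_self])
    rw [← sub_eq_zero, ← map_sub, hT, ← hz, hzt, mul_smul, F.tw_ρ, smul_zero]
  choose y hy using fun k : LinearMap.ker (dS s) =>
    P.ex1 ((jr j ∘ k.1) ᵥ* B) (by rw [vecMul_vecMul, c1]) (c2 k.1 k.2)
  let θ : LinearMap.ker (dS s) →ₗ[ℤ[K]] ℤ[K] :=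
    { toFun := fun k => T (y k) 1
      map_add' := fun a b => by
        rw [← Co.add_apply, ← map_add, hT0 (y (a + b)) (y a + y b)]
        rw [add_vecMul, hy, hy, hy, ← add_vecMul]
        congr 1
        exact funext fun i => map_add _ _ _
      map_smul' := fun r a => by
        rw [RingHom.id_apply, ← Co.jr_smul, ← map_smul, hT0 (y (r • a)) (jr j r • y a)]
        rw [smul_vecMul, hy, hy, ← smul_vecMul]
        congr 1
        exact funext fun i => map_mul _ _ _ }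
  refine ⟨θ, m0, evl η B - γ, fun k => ?_, fun g => ?_⟩
  · have e1 : ξ (y k ᵥ* tc w P'.e1) 1 = ξ (y k) 1 := Subtype.ext (by
      rw [hξ', hξ', vecMul_vecMul, hed])
    have e2 := congrArg (fun f : Co j _ => f 1) (hη (y k))
    simp only [Co.add_apply] at e2
    rw [e1, F.ρ_nat, ← hT, hy] at e2
    rw [LinearMap.sub_apply, ← add_sub_assoc, evl_apply]
    change k = T (y k) 1 • m0 + _ - _
    rw [← e2]
    apply Subtype.ext
    rw [Submodule.coe_sub, hξ', hy]
    exact c4 k.1 k.2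
  · obtain ⟨z, hz⟩ := hz (j g)
    obtain ⟨η', hη'⟩ := main ℤ[K] 0 0 (-dotL z (F.δ 1)) ((w (j g) : ℤ) • o g - 1)
      (fun _ => Submodule.zero_mem _) (fun _ => Submodule.zero_mem _)
      (fun y => by
        rw [LinearMap.neg_apply, dotL_apply]
        exact Submodule.neg_mem _ (Submodule.smul_mem _ _ (F.δ_mem _)))
      (fun v => by simp)
      (fun v => by rw [LinearMap.neg_apply, dotL_apply, hz, mul_smul, F.δ_tw]; simp)
    refine ⟨-evl η' B, fun k => ?_⟩
    have e2 := congrArg (fun f : Co j _ => f 1) (hη' (y k))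
    simp only [Co.add_apply, add_zero, LinearMap.zero_apply, Co.zero_apply] at e2
    rw [F.ρ_nat, ← hT, hy] at e2
    rw [LinearMap.neg_apply, evl_apply]
    exact eq_neg_of_add_eq_zero_left e2.symm

end

end Pool.Agent.P.MP_5ee5b4_al
end

-- part Pool.Agent.P.MP_5ee5b4_al.Strebel
section

/-! Subgroups of infinite index have dimension at most one; consequences. -/

namespace Pool.Agent.P.MP_5ee5b4_al

open Pool.Agent.P.MP_6e40fc_al
open scoped MonoidAlgebra

noncomputable section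

variable {H K : Type} [Group H] [Group K]

/-- derivations lift along surjections of modules -/
def DerLift (K : Type) [Group K] : Prop :=
  ∀ (A B : Type) [AddCommGroup A] [Module ℤ[K] A] [AddCommGroup B] [Module ℤ[K] B]
    (π : A →ₗ[ℤ[K]] B), Function.Surjective π → ∀ δ : K → B,
    (∀ g h, δ (g * h) = δ g + o g • δ h) →
      ∃ D : K → A, (∀ g h, D (g * h) = D g + o g • D h) ∧ ∀ g, π (D g) = δ g

theorem exists_symm_gen (hH : Group.FG H) : ∃ T : Finset H,
    Subgroup.closure (T : Set H) = ⊤ ∧ ∀ a ∈ T, a⁻¹ ∈ T := by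
  classical
  obtain ⟨S, hS⟩ := hH.1
  refine ⟨S ∪ S.image (·⁻¹), eq_top_iff.2 (hS ▸ Subgroup.closure_mono (by simp)), fun a ha => ?_⟩
  simp only [Finset.mem_union, Finset.mem_image] at ha ⊢
  rcases ha with ha | ⟨b, hb, rfl⟩
  · exact Or.inr ⟨a, ha, rfl⟩
  · exact Or.inl (by simpa using hb)

theorem Co.smul_apply {j : K →* H} {M : Type} [AddCommGroup M] [Module ℤ[K] M] (r : ℤ[H])
    (f : Co j M) (x : H) : (r • f) x = extAdd (fun g => f (x * g)) r := by
  induction r using zg_induction with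
  | ho g => rw [Co.o_smul, extAdd_o]
  | hadd a b ha hb => rw [add_smul, Co.add_apply, map_add, ha, hb]
  | hsmul n a ha => rw [smul_assoc, Co.zsmul_apply, map_zsmul, ha]

theorem strebel (hH : Group.FG H) (h2 : PD2 H) (j : K →* H) (hj : Function.Injective j)
    (hK : ¬ j.range.FiniteIndex) : DerLift K := by
  intro A B _ _ _ _ π hπ δ hδ
  obtain ⟨T, hT, hT'⟩ := exists_symm_gen hH
  obtain ⟨w, hw⟩ := h2
  have hs : Subgroup.closure (Set.range (Subtype.val : T → H)) = ⊤ := by simpa using hT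
  obtain ⟨θ, m0, g, h3, h4⟩ := hw T Subtype.val hs
  choose G hG using h4
  obtain ⟨σ⟩ := exists_sec hj
  have hδ1 : δ 1 = 0 := by simpa using hδ 1 1
  let Δ : (T → ℤ[H]) →ₗ[ℤ[H]] Co j B := Fintype.linearCombination ℤ[H] fun i =>
    Co.mk (fun x => δ (σ.κ (x * i)) - δ (σ.κ x)) fun k x => by
      rw [mul_assoc, σ.κ_mul, σ.κ_mul, hδ, hδ, smul_sub]; abel
  have hΔ : ∀ v x, Δ v x = extAdd (fun y => δ (σ.κ (x * y))) (dS Subtype.val v) := fun v x => by
    rw [extAdd_dS, Fintype.linearCombination_apply, Co.sum_apply]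
    simp only [Co.smul_apply, Co.mk_apply, mul_assoc]
  obtain ⟨Λ, hΛ⟩ := σ.liftLin π Δ fun y x => hπ _
  have hΛ0 : ∀ (k : LinearMap.ker (dS (Subtype.val : T → H))) x, π (Λ k x) = 0 := fun k x => by
    rw [hΛ, hΔ, k.2, map_zero]
  obtain ⟨ω, hω⟩ := σ.lift (LinearMap.ker π).subtype (Λ m0) fun x => ⟨⟨_, hΛ0 m0 x⟩, rfl⟩
  obtain ⟨Ω, hΩ⟩ := coinv_vanish j hK T hT hT' w ω
  let Λ' : (T → ℤ[H]) →ₗ[ℤ[H]] Co j A := Λ - (∑ a ∈ T, LinearMap.toSpanSingleton ℤ[H] _
    (Co.map j (LinearMap.ker π).subtype (Ω a)) ∘ₗ G a⁻¹ + Λ ∘ₗ Submodule.subtype _ ∘ₗ g)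
  have hΛ' : ∀ v, Λ' v = Λ v - (∑ a ∈ T, G a⁻¹ v • Co.map j (LinearMap.ker π).subtype (Ω a) +
      Λ (g v)) := fun v => by
    simp [Λ', LinearMap.sum_apply]
  have h5 : ∀ v, dS Subtype.val v = 0 → Λ' v = 0 := fun v hv => by
    have e := congrArg (fun k : LinearMap.ker (dS (Subtype.val : T → H)) => Λ k) (h3 ⟨v, hv⟩)
    simp only [Submodule.coe_add, Submodule.coe_smul, map_add, map_smul] at e
    rw [hΛ', e, ← hω, hΩ, map_sum, Finset.smul_sum, sub_eq_zero]
    congr 1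
    refine Finset.sum_congr rfl fun a _ => ?_
    rw [map_smul, ← mul_smul, hG]
  have h6 : ∀ v x, π (Λ' v x) = Δ v x := fun v x => by
    rw [hΛ', Co.sub_apply, Co.add_apply, Co.sum_apply, map_sub, map_add, hΛ0, hΛ, map_sum,
      Finset.sum_eq_zero, add_zero, sub_zero]
    intro a _
    rw [← map_smul, Co.map_apply]
    exact (Subtype.prop _ : _ ∈ LinearMap.ker π)
  choose v hv using exists_dS hs
  refine ⟨fun k => Λ' (v (j k)) 1, fun a b => ?_, fun a => ?_⟩
  · have := h5 (v (j (a * b)) - (v (j a) + o (j a) • v (j b))) (by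
      rw [map_sub, map_add, map_smul, hv, hv, hv, smul_eq_mul, mul_sub, o_mul, map_mul]; simp)
    rw [map_sub, sub_eq_zero] at this
    simp only [this, map_add, map_smul, Co.add_apply]
    rw [← jr_o, Co.jr_smul]
  · rw [h6, hΔ, hv, map_sub, ← o_one, extAdd_o, extAdd_o, one_mul, one_mul, σ.κ_j, σ.κ_one, hδ1,
      sub_zero]

/-- an abelian group with trivial action -/
def Triv (_K X : Type) : Type := X

instance {X : Type} [AddCommGroup X] : AddCommGroup (Triv K X) := inferInstanceAs (AddCommGroup X)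

instance {X : Type} [AddCommGroup X] : Module ℤ[K] (Triv K X) :=
  Module.compHom X (aug ℤ K).toRingHom

theorem Triv.o_smul {X : Type} [AddCommGroup X] (g : K) (x : Triv K X) : o g • x = x := by
  change aug ℤ K (o g) • (show X from x) = x
  rw [aug_o, one_smul]

theorem DerLift.sep (h : DerLift K) (hc : ∀ a b : K, a * b = b * a) (x : K) (hx : x ≠ 1) :
    ∃ D : K →* Multiplicative ℤ, D x ≠ 1 := by
  letI : CommGroup K := { ‹Group K› with mul_comm := hc }
  let π0 : (Additive K →₀ ℤ) →+ Additive K := (Finsupp.linearCombination ℤ id).toAddMonoidHom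
  obtain ⟨D, h1, h2⟩ := h (Triv K (Additive K →₀ ℤ)) (Triv K (Additive K))
    (mkLin π0 fun g a => by rw [Triv.o_smul, Triv.o_smul])
    (fun b => ⟨(Finsupp.single b 1 : Additive K →₀ ℤ), by
      change Finsupp.linearCombination ℤ id (Finsupp.single b (1 : ℤ)) = b
      simp⟩) (fun g => (Additive.ofMul g : Additive K)) (fun g h => (congrArg (fun z : Triv K (Additive K) =>
        (show Triv K (Additive K) from Additive.ofMul g) + z) (Triv.o_smul g _)).symm)
  simp only [Triv.o_smul] at h1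
  obtain ⟨b, hb⟩ : ∃ b, (show Additive K →₀ ℤ from D x) b ≠ 0 := by
    by_contra hcon
    have : D x = 0 := Finsupp.ext fun b => not_not.1 fun h => hcon ⟨b, h⟩
    have h3 := h2 x
    rw [this, map_zero] at h3
    exact hx h3.symm
  exact ⟨MonoidHom.mk' (fun g => Multiplicative.ofAdd ((show Additive K →₀ ℤ from D g) b))
    fun g g' => by rw [h1]; rfl, hb⟩

theorem coeff_o_mul (x y : K) (r : ℤ[K]) : (o x * r).coeff y = r.coeff (x⁻¹ * y) := by
  simp [o]

theorem coeff_mul_o (x y : K) (r : ℤ[K]) : (r * o x).coeff y = r.coeff (y * x⁻¹) := by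
  simp [o]

theorem DerLift.vcyc (h : DerLift K) (hK : Group.FG K) [Infinite K] (hN : NF (⊤ : Subgroup K)) :
    ∃ ν : K, (Subgroup.zpowers ν).FiniteIndex := by
  classical
  obtain ⟨T, hT⟩ := hK.1
  have hs : Subgroup.closure (Set.range (Subtype.val : T → K)) = ⊤ := by simpa using hT
  obtain ⟨D, h1, h2⟩ := h _ _ (dS (Subtype.val : T → K)).rangeRestrict
    (LinearMap.surjective_rangeRestrict _) (fun g => ⟨o g - 1, exists_dS hs g⟩) fun g g' =>
      Subtype.ext (by simp [mul_sub, o_mul])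
  have h3 : ∀ g, dS Subtype.val (D g) = o g - 1 := fun g => congrArg Subtype.val (h2 g)
  let F : T → K → ZMod 2 := fun i x => ((D x i).coeff 1 : ℤ)
  have hF : ∀ i x g, F i (x * g) = F i x + ((D g i).coeff x⁻¹ : ℤ) := fun i x g => by
    simp only [F, h1, Pi.add_apply, Pi.smul_apply, smul_eq_mul, MonoidAlgebra.coeff_add,
      Finsupp.add_apply, coeff_o_mul, mul_one, Int.cast_add]
  by_contra hcon
  have hfin : ∀ i, ∃ c, (Function.support fun x => F i x - c).Finite := by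
    intro i
    by_contra hc
    refine hcon (ends hT T.finite_toSet (Y := {x | F i x = 1}) (fun a _ => ?_) (fun h => hc ⟨0, ?_⟩)
      (fun h => hc ⟨1, ?_⟩) hN)
    · refine (((D a i).coeff.support.finite_toSet).preimage (f := fun x => x⁻¹)
        inv_injective.injOn).subset fun x hx => ?_
      by_contra hx'
      simp only [Set.mem_preimage, Finset.mem_coe, Finsupp.mem_support_iff, not_not] at hx'
      exact hx (by simp [hF, hx'])
    · refine h.subset fun x hx => ?_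
      have : ∀ a : ZMod 2, a - 0 ≠ 0 → a = 1 := by decide
      exact this _ hx
    · exact h.subset fun x hx h' => hx (sub_eq_zero.2 h')
  choose c hc using hfin
  let Φ : K → ZMod 2 := fun x => ∑ i : T, ((F i (i * x) - c i) - (F i x - c i))
  have hΦ : ∀ g, g ≠ 1 → Φ g = Φ 1 - 1 := fun g hg => by
    have e := congrArg (fun r : ℤ[K] => ((r.coeff 1 : ℤ) : ZMod 2)) (h3 g)
    simp only [dS_apply, mul_sub, mul_one, MonoidAlgebra.coeff_sub, MonoidAlgebra.coeff_sum,
      Finsupp.sub_apply, Finsupp.finset_sum_apply, coeff_mul_o, one_mul] at e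
    have e1 : (o g).coeff 1 = 0 := by simp [o, hg]
    have e2 : (1 : ℤ[K]).coeff 1 = 1 := by simp [MonoidAlgebra.one_def]
    rw [e1, e2] at e
    have e3 : ∀ i, F i g = F i 1 + ((D g i).coeff 1 : ℤ) := fun i => by
      simpa using hF i 1 g
    push_cast at e
    simp only [Φ, mul_one, hF _ _ g, e3]
    rw [eq_sub_iff_add_eq, ← sub_eq_zero, add_sub_right_comm, ← Finset.sum_sub_distrib,
      add_eq_zero_iff_eq_neg, ← e]
    exact Finset.sum_congr rfl fun i _ => by ring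
  have hc' : ∀ i : T, (Function.support fun x => F i (i * x) - c i).Finite := fun i =>
    (hc i).preimage (f := fun x => (i : K) * x) (mul_right_injective _).injOn
  have hsum : ∑ᶠ x, Φ x = 0 := by
    rw [finsum_sum_comm _ _ fun i _ => ((hc' i).union (hc i)).subset
      (Function.support_sub _ _)]
    refine Finset.sum_eq_zero fun i _ => ?_
    rw [finsum_sub_distrib (hc' i) (hc i), sub_eq_zero]
    exact finsum_comp_equiv (Equiv.mulLeft (i : K)) (f := fun x => F i x - c i)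
  obtain ⟨g, hg⟩ := ((Set.finite_iUnion fun i => (hc' i).union (hc i)).insert 1).infinite_compl.nonempty
  simp only [Set.mem_compl_iff, Set.mem_insert_iff, Set.mem_iUnion, Set.mem_union, not_or,
    not_exists, Function.mem_support, not_not] at hg
  have h4 : Φ g = 0 := Finset.sum_eq_zero fun i _ => by rw [(hg.2 i).1, (hg.2 i).2, sub_zero]
  rw [hΦ g hg.1] at h4
  rw [finsum_eq_single Φ 1 fun x hx => (hΦ x hx).trans h4] at hsum
  rw [hsum] at h4
  exact absurd h4 (by decide)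

theorem comm_of_vcyc (htf : ∀ (x : K) (n : ℕ), n ≠ 0 → x ^ n = 1 → x = 1) (ν : K)
    [(Subgroup.zpowers ν).FiniteIndex] (a b : K) : a * b = b * a := by
  have htf' : ∀ (x : K) (n : ℤ), n ≠ 0 → x ^ n = 1 → x = 1 := fun x n hn h =>
    htf x n.natAbs (by omega) (by rwa [pow_natAbs_eq_one])
  have hle : (Subgroup.zpowers ν).normalCore ≤ Subgroup.center K := fun c hc =>
    Subgroup.mem_center_iff.2 fun g => by
      by_cases hg : g = 1
      · simp [hg]
      obtain ⟨m, hm, -, hm'⟩ := Subgroup.exists_pow_mem_of_index_ne_zero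
        (Subgroup.FiniteIndex.index_ne_zero (H := Subgroup.zpowers ν)) g
      obtain ⟨k, hk⟩ := hm'
      obtain ⟨p, hp⟩ := Subgroup.normalCore_le _ hc
      obtain ⟨q, hq⟩ := hc g
      simp only at hk hp hq
      have hk0 : k ≠ 0 := fun h => hg (htf g m hm.ne' (by rw [← hk, h, zpow_zero]))
      have h1 : c ^ k = g ^ ((m : ℤ) * p) := by
        rw [← hp, zpow_mul, zpow_natCast, ← hk, ← zpow_mul, ← zpow_mul, mul_comm]
      have h2 : (ν ^ (q - p)) ^ k = 1 := by
        rw [← zpow_mul, sub_mul, zpow_sub, zpow_mul, zpow_mul, hq, hp, conj_zpow, h1]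
        group
      have h3 := htf' _ k hk0 h2
      rw [zpow_sub, hq, hp, mul_inv_eq_one, mul_inv_eq_iff_eq_mul] at h3
      exact h3
  haveI : (Subgroup.center K).FiniteIndex := Subgroup.finiteIndex_of_le hle
  have hinj : Function.Injective (MonoidHom.transferCenterPow K) :=
    (injective_iff_map_eq_one _).2 fun g hg => htf g _ Subgroup.FiniteIndex.index_ne_zero (by
      rw [← MonoidHom.transferCenterPow_apply, hg]; rfl)
  exact hinj (by rw [map_mul, map_mul, mul_comm'])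

theorem not_finiteIndex_of_finite [Infinite H] (L : Subgroup H) [Finite L] : ¬ L.FiniteIndex :=
  fun _ => not_finite_iff_infinite.2 ‹Infinite H›
    (Finite.of_equiv _ (Subgroup.groupEquivQuotientProdSubgroup (s := L)).symm)

theorem torsionFree (hH : Group.FG H) (h2 : PD2 H) [Infinite H] (x : H) (n : ℕ) (hn : n ≠ 0)
    (hx : x ^ n = 1) : x = 1 := by
  by_contra hx1
  haveI : Finite (Subgroup.zpowers x) :=
    (isOfFinOrder_iff_pow_eq_one.2 ⟨n, Nat.pos_of_ne_zero hn, hx⟩).finite_zpowers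
  obtain ⟨D, hD⟩ := (strebel hH h2 (Subgroup.zpowers x).subtype Subtype.val_injective (by
    rw [Subgroup.range_subtype]; exact not_finiteIndex_of_finite _)).sep
    (fun a b => mul_comm' a b) ⟨x, Subgroup.mem_zpowers x⟩ fun h => hx1 (congrArg Subtype.val h)
  have : (⟨x, Subgroup.mem_zpowers x⟩ : Subgroup.zpowers x) ^ n = 1 := Subtype.ext hx
  have h3 := congrArg (fun y => (D y).toAdd) this
  simp only [map_pow, toAdd_pow, map_one, toAdd_one, nsmul_eq_mul, mul_eq_zero,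
    Nat.cast_eq_zero, hn, false_or] at h3
  exact hD h3

theorem comm_of_infiniteIndex (hH : Group.FG H) (h2 : PD2 H) [Infinite H] (L : Subgroup H)
    (hL : L.FG) (hL' : ¬ L.FiniteIndex) (hN : NF L) {a b : H} (ha : a ∈ L) (hb : b ∈ L) :
    a * b = b * a := by
  have htf : ∀ (x : L) (n : ℕ), n ≠ 0 → x ^ n = 1 → x = 1 := fun x n hn h =>
    Subtype.ext (torsionFree hH h2 x n hn (congrArg Subtype.val h))
  refine congrArg Subtype.val (?_ : (⟨a, ha⟩ : L) * ⟨b, hb⟩ = ⟨b, hb⟩ * ⟨a, ha⟩)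
  rcases finite_or_infinite L with hf | hf
  · rw [htf ⟨a, ha⟩ _ Nat.card_pos.ne' pow_card_eq_one', one_mul, mul_one]
  · obtain ⟨ν, hν⟩ := (strebel hH h2 L.subtype Subtype.val_injective (by
      rwa [Subgroup.range_subtype])).vcyc ((Group.fg_iff_subgroup_fg L).2 hL) fun x _ y _ k0 => by
        obtain ⟨k, hk, h⟩ := hN x x.2 y y.2 k0
        refine ⟨k, hk, fun h' => h ?_⟩
        have : FreeGroup.lift ![(x : H) ^ (2 * k), (y : H) ^ (2 * k)] =
            L.subtype.comp (FreeGroup.lift ![x ^ (2 * k), y ^ (2 * k)]) :=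
          FreeGroup.ext_hom _ _ fun i => by fin_cases i <;> simp
        rw [this]
        exact Subtype.val_injective.comp h'
    exact comm_of_vcyc htf ν _ _

end

end Pool.Agent.P.MP_5ee5b4_al
end

-- part Pool.Agent.P.MP_5ee5b4_al.Bass
section

/-! The trace of an idempotent matrix over the integral group ring. -/

namespace Pool.Agent.P.MP_5ee5b4_al

open Pool.Agent.P.MP_6e40fc_al Polynomial
open scoped MonoidAlgebra

noncomputable section

theorem frob_add {R : Type} [Ring R] {p : ℕ} [hp : Fact p.Prime] (T : R →+ ZMod p)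
    (hT : ∀ x y, T (x * y) = T (y * x)) (a b : R) : T ((a + b) ^ p) = T (a ^ p) + T (b ^ p) := by
  have h1 : ∀ (P Q : R[X]) k, T ((P * Q).coeff k) = T ((Q * P).coeff k) := fun P Q k => by
    rw [coeff_mul, coeff_mul, map_sum, map_sum, ← Finset.Nat.sum_antidiagonal_swap]
    exact Finset.sum_congr rfl fun ij _ => hT _ _
  set g : R[X] := C a + C b * X with hg
  have h2 : ∀ k n m, T ((derivative (g ^ (n + 1)) * g ^ m).coeff k) =
      (n + 1 : ℕ) * T ((derivative g * g ^ (n + m)).coeff k) := by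
    intro k n
    induction n with
    | zero => simp
    | succ n ih =>
      intro m
      rw [pow_succ, derivative_mul, add_mul, coeff_add, map_add, mul_assoc, ← pow_succ', ih,
        mul_assoc, h1 (g ^ (n + 1)), mul_assoc, ← pow_add, show m + (n + 1) = n + (m + 1) by omega,
        show n + 1 + m = n + (m + 1) by omega]
      push_cast
      ring
  have h3 : ∀ k, k + 1 < p → T ((g ^ p).coeff (k + 1)) = 0 := fun k hk => by
    have := h2 k (p - 1) 0
    rw [Nat.sub_add_cancel hp.out.pos, ZMod.natCast_self, zero_mul, pow_zero, mul_one,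
      coeff_derivative, ← Nat.cast_add_one, ← Nat.cast_comm, ← nsmul_eq_mul, map_nsmul,
      nsmul_eq_mul, mul_eq_zero, ZMod.natCast_eq_zero_iff] at this
    exact this.resolve_left fun h => absurd (Nat.le_of_dvd (by omega) h) (by omega)
  have hd : g.natDegree ≤ 1 := (natDegree_add_le _ _).trans
    (max_le (by simp) ((natDegree_C_mul_le _ _).trans natDegree_X_le))
  have h4 : (a + b) ^ p = ∑ k ∈ Finset.range (p + 1), (g ^ p).coeff k := by
    have := eval₂_eq_sum_range' (RingHom.id R) (p := g ^ p) (n := p + 1)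
      (Nat.lt_succ_of_le ((natDegree_pow_le_of_le p hd).trans (mul_one p).le)) 1
    simp only [RingHom.id_apply, one_pow, mul_one] at this
    rw [← this]
    have e := map_pow (eval₂RingHom' (RingHom.id R) 1 fun a => Commute.one_right _) g p
    refine Eq.trans ?_ e.symm
    congr 1
    rw [hg, map_add, map_mul]
    change _ = eval₂ _ _ _ + eval₂ _ _ _ * eval₂ _ _ _
    simp
  have h5 : (g ^ p).coeff 0 = a ^ p := by
    rw [← constantCoeff_apply, map_pow, constantCoeff_apply]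
    simp [hg]
  have h6 : (g ^ p).coeff p = b ^ p := by
    have := coeff_pow_of_natDegree_le (m := p) hd
    rw [mul_one] at this
    rw [this]
    simp [hg]
  obtain ⟨q, hq⟩ : ∃ q, p = q + 1 := ⟨p - 1, (Nat.sub_add_cancel hp.out.pos).symm⟩
  rw [h4, Finset.sum_range_succ, h6, map_add, map_sum]
  congr 1
  rw [Finset.sum_eq_single 0, h5]
  · intro k hk hk0
    obtain ⟨k, rfl⟩ := Nat.exists_eq_succ_of_ne_zero hk0
    exact h3 k (Finset.mem_range.1 hk)
  · exact fun h => absurd (Finset.mem_range.2 hp.out.pos) h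

variable {H : Type} [Group H]

theorem extAdd_comm {M : Type} [AddCommGroup M] (f : H → M) (hf : ∀ x y, f (x * y) = f (y * x))
    (a b : ℤ[H]) : extAdd f (a * b) = extAdd f (b * a) := by
  induction a using zg_induction with
  | ho x =>
    induction b using zg_induction with
    | ho y => rw [o_mul, o_mul, extAdd_o, extAdd_o, hf]
    | hadd c d hc hd => rw [mul_add, add_mul, map_add, map_add, hc, hd]
    | hsmul n c hc => rw [mul_smul_comm, smul_mul_assoc, map_zsmul, map_zsmul, hc]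
  | hadd c d hc hd => rw [mul_add, add_mul, map_add, map_add, hc, hd]
  | hsmul n c hc => rw [mul_smul_comm, smul_mul_assoc, map_zsmul, map_zsmul, hc]

theorem trace_pow {n : Type} [Fintype n] [DecidableEq n] {p : ℕ} [hp : Fact p.Prime]
    (f : H → ZMod p) (hf : ∀ x y, f (x * y) = f (y * x)) (A : Matrix n n ℤ[H]) :
    extAdd f (A ^ p).trace = extAdd (fun x => f (x ^ p)) A.trace := by
  let T : Matrix n n ℤ[H] →+ ZMod p := (extAdd f).comp (Matrix.traceAddMonoidHom n ℤ[H])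
  have hT : ∀ X Y, T (X * Y) = T (Y * X) := fun X Y => by
    change extAdd f (X * Y).trace = extAdd f (Y * X).trace
    simp only [Matrix.trace, Matrix.diag, Matrix.mul_apply, map_sum]
    rw [Finset.sum_comm]
    exact Finset.sum_congr rfl fun i _ => Finset.sum_congr rfl fun j _ => extAdd_comm f hf _ _
  let Φ : Matrix n n ℤ[H] →+ ZMod p := AddMonoidHom.mk' (fun A => T (A ^ p)) (frob_add T hT)
  change Φ A = _
  induction A using Matrix.induction_on' with
  | h_zero => simp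
  | h_add A B hA hB => rw [map_add, Matrix.trace_add, map_add, hA, hB]
  | h_std_basis i j r =>
    induction r using zg_induction with
    | ho g =>
      change extAdd f (Matrix.single i j (o g) ^ p).trace = _
      by_cases hij : i = j
      · subst hij
        have : ∀ k : ℕ, Matrix.single i i (o g) ^ (k + 1) = Matrix.single i i (o (g ^ (k + 1))) := by
          intro k
          induction k with
          | zero => simp
          | succ k ih => rw [pow_succ, ih, Matrix.single_mul_single_same, o_mul, ← pow_succ]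
        have e := this (p - 1)
        rw [Nat.sub_add_cancel hp.out.pos] at e
        rw [e, Matrix.trace_single_eq_same, Matrix.trace_single_eq_same, extAdd_o, extAdd_o]
      · rw [pow_eq_zero_of_le hp.out.two_le (by
          rw [sq, Matrix.single_mul_single_of_ne _ _ _ _ (Ne.symm hij)]),
          Matrix.trace_single_eq_of_ne _ _ _ hij]
        simp
    | hadd a b ha hb => rw [Matrix.single_add, map_add, Matrix.trace_add, map_add, ha, hb]
    | hsmul k a ha =>
      rw [← Matrix.smul_single, map_zsmul, Matrix.trace_smul, map_zsmul, ha]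

theorem bass {n : Type} [Fintype n] [DecidableEq n] (e : Matrix n n ℤ[H]) (he : e * e = e)
    (hH : ∀ (x g : H) (q : ℕ), 2 ≤ q → g * x * g⁻¹ = x ^ q → x = 1) :
    aug ℤ H e.trace = e.trace.coeff 1 := by
  classical
  let cl : ℤ[H] →+ (ConjClasses H →₀ ℤ) := extAdd fun g => Finsupp.single (ConjClasses.mk g) 1
  have hcl : ∀ {M : Type} [AddCommGroup M] (φ : ConjClasses H → M) (a : ℤ[H]),
      extAdd (fun g => φ (ConjClasses.mk g)) a = Finsupp.linearCombination ℤ φ (cl a) := by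
    intro M _ φ a
    induction a using zg_induction with
    | ho g => simp [cl]
    | hadd a b ha hb => rw [map_add, map_add, map_add, ha, hb]
    | hsmul k a ha => rw [map_zsmul, map_zsmul, map_zsmul, ha]
  set r := cl e.trace with hr
  have h1 : ∀ C, C ≠ 1 → r C = 0 := by
    intro C0 hC0
    by_contra h0
    obtain ⟨p, hp1, hp⟩ := Nat.exists_infinite_primes ((r C0).natAbs + 1)
    haveI := Fact.mk hp
    let pw : ConjClasses H → ConjClasses H := fun C => ConjClasses.mk (C.out ^ p)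
    have hpw : ∀ g, pw (ConjClasses.mk g) = ConjClasses.mk (g ^ p) := fun g =>
      ConjClasses.mk_eq_mk_iff_isConj.2 (IsConj.pow p (ConjClasses.mk_eq_mk_iff_isConj.1
        (Quotient.out_eq (ConjClasses.mk g))))
    have h2 : ∀ C, ((r C : ℤ) : ZMod p) ≠ 0 → ∃ C', ((r C' : ℤ) : ZMod p) ≠ 0 ∧ pw C' = C := by
      intro C hC
      by_contra hcon
      have e1 := trace_pow (fun g => if ConjClasses.mk g = C then (1 : ZMod p) else 0)
        (fun x y => by
          rw [ConjClasses.mk_eq_mk_iff_isConj.2 (isConj_iff.2 ⟨y, by group⟩ : IsConj (x * y) (y * x))])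
        e
      rw [(show IsIdempotentElem e from he).pow_eq hp.ne_zero,
        hcl (fun D => if D = C then (1 : ZMod p) else 0)] at e1
      simp only [← hpw] at e1
      rw [hcl (fun D => if pw D = C then (1 : ZMod p) else 0), ← hr,
        Finsupp.linearCombination_apply, Finsupp.linearCombination_apply, Finsupp.sum, Finsupp.sum,
        Finset.sum_eq_single C, Finset.sum_eq_zero] at e1
      · exact hC (by simpa using e1)
      · intro D _
        split_ifs with h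
        · rw [zsmul_one, not_not.1 fun h' => hcon ⟨D, h', h⟩]
        · simp
      · intro D _ hD
        simp [hD]
      · intro h
        simp [Finsupp.notMem_support_iff.1 h]
    haveI : Finite {C // ((r C : ℤ) : ZMod p) ≠ 0} := (r.support.finite_toSet.subset
      (t := {C | ((r C : ℤ) : ZMod p) ≠ 0}) fun C hC =>
        Finsupp.mem_support_iff.2 fun h => hC (by rw [h, Int.cast_zero])).to_subtype
    choose f hf1 hf2 using h2
    let F : {C // ((r C : ℤ) : ZMod p) ≠ 0} → {C // ((r C : ℤ) : ZMod p) ≠ 0} :=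
      fun C => ⟨f C.1 C.2, hf1 _ _⟩
    have hF : ∀ C, pw (F C).1 = C.1 := fun C => hf2 _ _
    have hinj : Function.Injective F := fun C D h => Subtype.ext (by rw [← hF C, h, hF])
    have hC0' : ((r C0 : ℤ) : ZMod p) ≠ 0 := fun h => by
      have := Int.natAbs_dvd_natAbs.2 ((ZMod.intCast_zmod_eq_zero_iff_dvd _ _).1 h)
      have := Nat.le_of_dvd (Int.natAbs_pos.2 h0) this
      simp at this
      omega
    obtain ⟨k, hk, hk'⟩ := hinj.mem_periodicPts ⟨C0, hC0'⟩
    have h3 : ∀ (k : ℕ) C x, (F^[k] C).1 = ConjClasses.mk x → C.1 = ConjClasses.mk (x ^ p ^ k) := by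
      intro k
      induction k with
      | zero => intro C x h; simpa using h
      | succ k ih =>
        intro C x h
        rw [Function.iterate_succ_apply'] at h
        rw [pow_succ', pow_mul]
        exact ih C _ (by rw [← hF, h, hpw])
    obtain ⟨x, rfl⟩ := ConjClasses.mk_surjective C0
    obtain ⟨g, hg⟩ := isConj_iff.1 (ConjClasses.mk_eq_mk_iff_isConj.1
      (h3 k _ x (congrArg Subtype.val hk')))
    exact hC0 (by
      rw [hH x g (p ^ k) (hp.two_le.trans (Nat.le_self_pow hk.ne' p)) hg]; rfl)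
  have h4 : aug ℤ H e.trace = extAdd (fun g : H => (fun _ => (1 : ℤ)) (ConjClasses.mk g)) e.trace :=
    DFunLike.congr_fun (addHom_ext (f := (aug ℤ H).toRingHom.toAddMonoidHom) fun g => by
      rw [extAdd_o]; exact aug_o g) _
  have h5 : ∀ a : ℤ[H], a.coeff 1 =
      extAdd (fun g : H => (fun C => if C = 1 then (1 : ℤ) else 0) (ConjClasses.mk g)) a := by
    intro a
    induction a using zg_induction with
    | ho g =>
      rw [extAdd_o]
      simp only [o, MonoidAlgebra.of_apply, MonoidAlgebra.coeff_single, Finsupp.single_apply]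
      exact if_congr (by rw [ConjClasses.one_eq_mk_one, ConjClasses.mk_eq_mk_iff_isConj,
        isConj_one_left]) rfl rfl
    | hadd a b ha hb => rw [map_add, ← ha, ← hb]; rfl
    | hsmul k a ha => rw [map_zsmul, ← ha]; rfl
  rw [h4, h5, hcl fun _ => (1 : ℤ), hcl fun C => if C = 1 then (1 : ℤ) else 0, ← hr,
    Finsupp.linearCombination_apply, Finsupp.linearCombination_apply]
  refine Finsupp.sum_congr fun C hC => ?_
  rw [if_pos (by_contra fun h => Finsupp.mem_support_iff.1 hC (h1 C h))]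

end

end Pool.Agent.P.MP_5ee5b4_al
end

-- part Pool.Agent.P.MP_5ee5b4_al.Rank2
section

/-! Further properties of the rank function. -/

namespace Pool.Agent.P.MP_5ee5b4_al

open Pool.Agent.P.MP_6e40fc_al Matrix Filter Topology TrAlg

noncomputable section

variable {A : Type} [Ring A] [Algebra ℝ A] [StarRing A] [StarModule ℝ A] [TrAlg A]
variable {l m n p : Type} [Fintype l] [Fintype m] [Fintype n] [Fintype p]
variable [DecidableEq l] [DecidableEq m] [DecidableEq n] [DecidableEq p]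

theorem rk_orth (B : Matrix m n A) (C : Matrix n p A) (h : B * C = 0) :
    rk B + rk C ≤ Fintype.card n := by
  have key : ∀ (X : Matrix n m A) (Y : Matrix n p A),
      (Fintype.card n : ℝ) ≤ nn (1 - X * B) + nn (1 - Y * Cᴴ) := by
    intro X Y
    have h0 : ip (X * B) (Y * Cᴴ) = 0 := by
      rw [ip, conjTranspose_mul, conjTranspose_conjTranspose, Matrix.mul_assoc, ← Matrix.mul_assoc B,
        h, Matrix.zero_mul, Matrix.mul_zero, tr, trace_zero, map_zero]
    have h1 := nn_comb 1 (-1) (1 : Matrix n n A) (X * B)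
    have h2 := nn_comb 1 (-1) (1 : Matrix n n A) (Y * Cᴴ)
    have h3 := nn_comb 1 (-1) (1 : Matrix n n A) (X * B + Y * Cᴴ)
    have h4 := nn_comb 1 1 (X * B) (Y * Cᴴ)
    have h5 := nn_nonneg ((1 : ℝ) • (1 : Matrix n n A) + (-1 : ℝ) • (X * B + Y * Cᴴ))
    rw [ip_add_right] at h3
    simp only [one_smul, neg_smul, ← sub_eq_add_neg, nn_one] at h1 h2 h3 h4 h5
    linarith
  have h1 : (Fintype.card n : ℝ) - cork Cᴴ ≤ cork B := le_cork fun X => by
    have : (Fintype.card n : ℝ) - nn (1 - X * B) ≤ cork Cᴴ := le_cork fun Y => by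
      linarith [key X Y]
    linarith
  rw [← rk_star C, rk, rk]
  linarith

theorem tr_le_rk (f : Matrix n n A) (hf : f * f = f) : tr f ≤ rk f := by
  obtain ⟨K, hK, h⟩ := exists_bound f
  have hc : (0 : ℝ) < K⁻¹ := by positivity
  have hcK : K⁻¹ * K ≤ 1 := by rw [inv_mul_cancel₀ hK.ne']
  have t1 := tendsto_cork f K K⁻¹ hc hcK h
  set Q : Matrix n n A := 1 - K⁻¹ • (fᴴ * f) with hQ
  have hQs : Qᴴ = Q := by simp [hQ, conjTranspose_mul]
  have h0 : Tendsto (fun k : ℕ => nn (f * Q ^ k)) atTop (𝓝 0) := by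
    have h1 : Tendsto (fun k : ℕ => K * (nn (Q ^ k) - nn (Q ^ (k + 1)))) atTop
        (𝓝 (K * (cork f - cork f))) :=
      (t1.sub (t1.comp (tendsto_add_atTop_nat 1))).const_mul _
    rw [sub_self, mul_zero] at h1
    refine squeeze_zero (fun k => nn_nonneg _) (fun k => ?_) h1
    rw [← nn_star, conjTranspose_mul, conjTranspose_pow, hQs, ← inv_mul_le_iff₀ hK]
    have := nn_step f K K⁻¹ hc hcK h (Q ^ k)
    rw [← hQ, ← pow_succ] at this
    linarith
  have h1 : ∀ k : ℕ, (1 - Q ^ k) * f = 1 - Q ^ k := by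
    intro k
    induction k with
    | zero => simp
    | succ k ih =>
      have e : 1 - Q ^ (k + 1) = 1 - Q ^ k + K⁻¹ • (Q ^ k * fᴴ * f) := by
        rw [pow_succ, hQ, Matrix.mul_sub, Matrix.mul_one, Matrix.mul_smul, Matrix.mul_assoc]
        abel
      rw [e, Matrix.add_mul, ih, Matrix.smul_mul, Matrix.mul_assoc _ f, hf]
  have h2 : ∀ k : ℕ, tr f = Fintype.card n - nn (Q ^ k) + ip (f * Q ^ k) (Q ^ k) := by
    intro k
    have := congrArg tr (h1 (k + k))
    rw [tr_comm, Matrix.mul_sub, Matrix.mul_one, tr_sub, tr_sub, tr_one] at this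
    rw [nn, ip, ip, conjTranspose_pow, hQs, Matrix.mul_assoc, ← pow_add]
    linarith
  refine le_of_forall_pos_le_add fun ε hε => ?_
  obtain ⟨δ, hδ, hδ'⟩ : ∃ δ : ℝ, 0 < δ ∧ δ * cork f ≤ ε := by
    have : 0 ≤ cork f := le_cork fun X => nn_nonneg _
    refine ⟨ε / (cork f + 1), by positivity, ?_⟩
    rw [div_mul_eq_mul_div, div_le_iff₀ (by positivity)]
    nlinarith
  have h3 : Tendsto (fun k : ℕ => Fintype.card n - nn (Q ^ k) +
      (δ * nn (Q ^ k) + δ⁻¹ * nn (f * Q ^ k))) atTop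
      (𝓝 (Fintype.card n - cork f + (δ * cork f + δ⁻¹ * 0))) :=
    (t1.const_sub _).add ((t1.const_mul _).add (h0.const_mul _))
  have h4 := ge_of_tendsto' h3 (b := tr f) fun k => by
    rw [h2 k]
    have a1 := nn_add_le δ hδ (Q ^ k) (f * Q ^ k)
    have a2 := nn_comb 1 1 (Q ^ k) (f * Q ^ k)
    have a3 := nn_nonneg (Q ^ k)
    have a4 := nn_nonneg (f * Q ^ k)
    have a5 : 0 ≤ δ * nn (Q ^ k) := by positivity
    have a6 : 0 ≤ δ⁻¹ * nn (f * Q ^ k) := by positivity
    simp only [one_smul] at a2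
    rw [ip_comm]
    nlinarith
  rw [rk]
  linarith

theorem one_le_rk (u : A) (hu : ∀ k j : ℕ, τ (u ^ k * star (u ^ j)) = if k = j then 1 else 0) :
    1 ≤ rk (Matrix.of fun _ _ : Unit => u - 1) := by
  have key : ∀ N : ℕ, cork (Matrix.of fun _ _ : Unit => u - 1) ≤ 1 / ((N : ℝ) + 1) := by
    intro N
    have h1 := cork_le (Matrix.of fun _ _ : Unit => u - 1) (Matrix.of fun _ _ : Unit =>
      -((1 / ((N : ℝ) + 1)) • ∑ k ∈ Finset.range (N + 1), ∑ i ∈ Finset.range k, u ^ i))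
    refine h1.trans (le_of_eq ?_)
    have e : (1 - (Matrix.of fun _ _ : Unit =>
        -((1 / ((N : ℝ) + 1)) • ∑ k ∈ Finset.range (N + 1), ∑ i ∈ Finset.range k, u ^ i)) *
        (Matrix.of fun _ _ : Unit => u - 1) : Matrix Unit Unit A) () () =
        (1 / ((N : ℝ) + 1)) • ∑ k ∈ Finset.range (N + 1), u ^ k := by
      rw [Matrix.sub_apply, one_apply_eq, mul_apply, Fintype.sum_unique, of_apply, of_apply, neg_mul,
        sub_neg_eq_add, smul_mul_assoc, Finset.sum_mul]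
      simp only [geom_sum_mul]
      rw [Finset.sum_sub_distrib, Finset.sum_const, Finset.card_range, smul_sub,
        ← Nat.cast_smul_eq_nsmul ℝ, smul_smul]
      push_cast
      rw [one_div_mul_cancel (by positivity), one_smul, add_sub_cancel]
    rw [nn_eq, Fintype.sum_unique, Fintype.sum_unique]
    simp only [PUnit.default_eq_unit, e, star_smul, star_trivial, smul_mul_assoc, mul_smul_comm,
      map_smul, smul_eq_mul]
    rw [star_sum, Finset.sum_mul_sum]
    simp only [map_sum, hu, Finset.sum_ite_eq]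
    rw [Finset.sum_congr rfl fun k hk => by rw [if_pos hk]]
    simp only [Finset.sum_const, Finset.card_range, nsmul_eq_mul]
    push_cast
    field_simp
  have : cork (Matrix.of fun _ _ : Unit => u - 1) ≤ 0 :=
    ge_of_tendsto' tendsto_one_div_add_atTop_nhds_zero_nat key
  rw [rk, Fintype.card_unit]
  push_cast
  linarith

theorem one_lt_tr (e : Matrix n n A) (c : Matrix n Unit A) (x : Matrix Unit n A) (hee : e * e = e)
    (hec : e * c = c) (hxe : x * e = x) (hxc : x * c = 0) (hx : x ≠ 0) (hc : 1 ≤ rk c) :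
    1 < tr e := by
  have h1 := rk_orth (fromRows x (1 - e)) c (by
    rw [fromRows_mul, hxc, Matrix.sub_mul, Matrix.one_mul, hec, sub_self, fromRows_zero])
  have h2 := rk_mul_le_left (fromRows x (1 - e)) (fromCols e (1 - e))
  have h3 : (1 - e) * (1 - e) = 1 - e := by simp [mul_sub, sub_mul, hee]
  rw [fromRows_mul_fromCols, hxe, Matrix.mul_sub, Matrix.mul_one, hxe, sub_self, h3, Matrix.sub_mul,
    Matrix.one_mul, hee, sub_self, rk_fromBlocks] at h2
  have h4 := tr_le_rk _ h3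
  rw [tr_sub, tr_one] at h4
  linarith [rk_pos hx]

end

end Pool.Agent.P.MP_5ee5b4_al
end

-- part Pool.Agent.P.MP_5ee5b4_al.B1
section

/-! A group with two-dimensional duality data has a nonzero character. -/

namespace Pool.Agent.P.MP_5ee5b4_al

open Pool.Agent.P.MP_6e40fc_al Matrix
open scoped MonoidAlgebra

noncomputable section

variable {H : Type} [Group H]

theorem conj_pow_pow {x g : H} {q : ℕ} (h : g * x * g⁻¹ = x ^ q) (i : ℕ) :
    g ^ i * x * (g ^ i)⁻¹ = x ^ q ^ i := by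
  induction i with
  | zero => simp
  | succ i ih =>
    have : g ^ (i + 1) * x * (g ^ (i + 1))⁻¹ = g * (g ^ i * x * (g ^ i)⁻¹) * g⁻¹ := by group
    rw [this, ih, ← conj_pow, h, ← pow_mul, pow_succ']

theorem no_bs (hH : Group.FG H) (h2 : PD2 H) [Infinite H] (x g : H) (q : ℕ) (hq : 2 ≤ q)
    (h : g * x * g⁻¹ = x ^ q) : x = 1 := by
  by_contra hx
  have hz : ∀ y ∈ Subgroup.zpowers x, g * y * g⁻¹ ∈ Subgroup.zpowers x := by
    rintro _ ⟨k, rfl⟩
    exact ⟨q * k, by simp only [← conj_zpow, h, _root_.zpow_mul, zpow_natCast]⟩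
  have hup : ∀ y (i j : ℕ), g ^ i * y * (g ^ i)⁻¹ ∈ Subgroup.zpowers x →
      g ^ (j + i) * y * (g ^ (j + i))⁻¹ ∈ Subgroup.zpowers x := fun y i j hy => by
    induction j with
    | zero => simpa using hy
    | succ j ih =>
      convert hz _ ih using 1
      group
  let A : Subgroup H :=
    { carrier := {y | ∃ i : ℕ, g ^ i * y * (g ^ i)⁻¹ ∈ Subgroup.zpowers x}
      mul_mem' := by
        rintro a b ⟨i, hi⟩ ⟨j, hj⟩
        refine ⟨j + i, ?_⟩
        have := Subgroup.mul_mem _ (hup a i j hi) (hup b j i hj)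
        rw [add_comm i] at this
        convert this using 1
        group
      one_mem' := ⟨0, by simp⟩
      inv_mem' := by
        rintro a ⟨i, hi⟩
        refine ⟨i, ?_⟩
        convert Subgroup.inv_mem _ hi using 1
        group }
  have hc : ∀ a b : A, a * b = b * a := by
    rintro ⟨a, i, hi⟩ ⟨b, j, hj⟩
    obtain ⟨m, hm⟩ := hup a i j hi
    obtain ⟨n, hn⟩ := hup b j i hj
    rw [add_comm i] at hn
    apply Subtype.ext
    apply (MulAut.conj (g ^ (j + i))).injective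
    simp only [Subgroup.coe_mul, map_mul, MulAut.conj_apply] at hm hn ⊢
    rw [← hm, ← hn, zpow_mul_comm]
  have hxA : x ∈ A := ⟨0, by simp⟩
  have hA : ¬ A.FiniteIndex := fun hA => by
    obtain ⟨k, hk, -, hk'⟩ := Subgroup.exists_pow_mem_of_index_ne_zero hA.index_ne_zero g
    have h3 : g ^ k * x = x * g ^ k := congrArg Subtype.val (hc ⟨_, hk'⟩ ⟨x, hxA⟩)
    have h4 := conj_pow_pow h k
    have h5 : 2 ≤ q ^ k := hq.trans (Nat.le_self_pow hk.ne' q)
    rw [h3, mul_inv_cancel_right] at h4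
    refine hx (torsionFree hH h2 x (q ^ k - 1) (by omega) ?_)
    apply mul_right_cancel (b := x)
    rw [← pow_succ, Nat.sub_add_cancel (by omega), ← h4, one_mul]
  obtain ⟨D, hD⟩ := (strebel hH h2 A.subtype Subtype.val_injective (by
    rwa [Subgroup.range_subtype])).sep hc ⟨x, hxA⟩ fun h => hx (congrArg Subtype.val h)
  set i := (lv D ⟨x, hxA⟩).natAbs with hi
  have h3 : (⟨x, hxA⟩ : A) = (⟨(g ^ i)⁻¹ * x * g ^ i, i, by simp [mul_assoc]⟩ : A) ^ q ^ i := by
    apply Subtype.ext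
    have := conj_pow (a := (g ^ i)⁻¹) (b := x) (i := q ^ i)
    rw [inv_inv] at this
    change x = ((g ^ i)⁻¹ * x * g ^ i) ^ q ^ i
    rw [this, ← conj_pow_pow h]
    group
  have h4 := congrArg (fun y => (lv D y).natAbs) h3
  simp only [lv_pow, Int.natAbs_mul, Int.natAbs_natCast, ← hi] at h4
  have h5 : i ≠ 0 := fun h0 => hD ((lv_eq_zero D).1 (by omega))
  have h6 := Nat.le_of_dvd (Nat.pos_of_ne_zero h5) ⟨_, h4⟩
  have h7 : i < q ^ i := Nat.lt_pow_self (by omega)
  omega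

theorem tr_toRG {n : Type} [Fintype n] (X : Matrix n n ℤ[H]) :
    tr (X.map toRG) = (X.trace.coeff 1 : ℤ) := by
  rw [tr, ← AddMonoidHom.map_trace]
  exact MonoidAlgebra.coeff_mapRingHom (Int.castRingHom ℝ) X.trace 1

theorem one_le_rk_o (h : H) (hh : ∀ n : ℕ, n ≠ 0 → h ^ n ≠ 1) :
    1 ≤ rk (Matrix.of fun _ _ : Unit => toRG (o h) - 1) := by
  classical
  refine one_le_rk _ fun k j => ?_
  have e : ∀ k : ℕ, toRG (o h) ^ k = (MonoidAlgebra.single (h ^ k) 1 : ℝ[H]) := fun k => by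
    have : o h ^ k = MonoidAlgebra.single (h ^ k) 1 := by simp [o, MonoidAlgebra.single_pow]
    rw [← map_pow, this]
    exact (MonoidAlgebra.mapRingHom_single (Int.castRingHom ℝ) _ _).trans (by simp)
  rw [e, e]
  change ((MonoidAlgebra.single (h ^ k) 1 : ℝ[H]) * rgStar (MonoidAlgebra.single (h ^ j) 1)).coeff 1
    = _
  rw [rgStar_single, MonoidAlgebra.single_mul_single, MonoidAlgebra.coeff_single,
    Finsupp.single_apply, mul_one]
  refine if_congr ?_ rfl rfl
  rw [mul_inv_eq_one]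
  exact (injective_pow_iff_not_isOfFinOrder.2 fun hf => by
    obtain ⟨n, hn, hn'⟩ := isOfFinOrder_iff_pow_eq_one.1 hf
    exact hh n hn.ne' hn').eq_iff

theorem exists_hom (hH : Group.FG H) (h2 : PD2 H) [Infinite H] :
    ∃ ψ : H →* Multiplicative ℤ, ∃ x, lv ψ x ≠ 0 := by
  classical
  obtain ⟨T, hT⟩ := hH.1
  have hs : Subgroup.closure (Set.range (Subtype.val : T → H)) = ⊤ := by simpa using hT
  obtain ⟨w, hw⟩ := id h2
  obtain ⟨θ, m0, g, h3, -⟩ := hw T Subtype.val hs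
  let J : LinearMap.ker (dS (Subtype.val : T → H)) →ₗ[ℤ[H]] (Option T → ℤ[H]) :=
    LinearMap.pi fun a => a.elim θ fun i => LinearMap.proj i ∘ₗ Submodule.subtype _
  let Φ : (Option T → ℤ[H]) →ₗ[ℤ[H]] LinearMap.ker (dS (Subtype.val : T → H)) :=
    LinearMap.toSpanSingleton _ _ m0 ∘ₗ LinearMap.proj none + g ∘ₗ LinearMap.funLeft _ _ some
  have hΦJ : ∀ k, Φ (J k) = k := fun k => (h3 k).symm
  let E : Matrix (Option T) (Option T) ℤ[H] := Matrix.of fun a => J (Φ (Pi.single a 1))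
  have hE : ∀ v, v ᵥ* E = J (Φ v) := fun v =>
    LinearMap.congr_fun (lin_ext (f := E.vecMulLinear) (g := J ∘ₗ Φ) fun a => by
      rw [vecMulLinear_apply, single_one_vecMul]; rfl) v
  have hEE : E * E = E := Matrix.ext fun a b => by
    rw [← row_vecMul, hE]
    change J (Φ (J _)) b = _
    rw [hΦJ]
    rfl
  let c : Matrix (Option T) Unit ℤ[H] := Matrix.of fun a _ => a.elim 0 fun i => o (i : H) - 1
  have hc : ∀ v : Option T → ℤ[H], (v ᵥ* c) () = dS Subtype.val (v ∘ some) := fun v => by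
    simp [vecMul, dotProduct, dS_apply, c]
  have hEc : E * c = 0 := Matrix.ext fun a b => by
    rw [← row_vecMul, hc]
    exact (Φ (Pi.single a 1)).2
  have he : (1 - E) * (1 - E) = 1 - E := by simp [mul_sub, sub_mul, hEE]
  have hec : (1 - E) * c = c := by rw [Matrix.sub_mul, Matrix.one_mul, hEc, sub_zero]
  let x : Matrix Unit (Option T) ℤ[H] := Matrix.of fun _ => (1 - E) none
  have hx : ∀ {p : Type} (X : Matrix (Option T) p ℤ[H]) b, 
      (x * X) () b = ((1 - E) * X : Matrix (Option T) p ℤ[H]) none b :=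
    fun X b => rfl
  have hx0 : x ≠ 0 := fun h => by
    have h4 : ∀ a, (1 - E) none a = 0 := fun a => congrFun (congrFun h ()) a
    have h5 : Φ (Pi.single none 1) = m0 := by
      have : LinearMap.funLeft ℤ[H] ℤ[H] some (Pi.single (none : Option T) (1 : ℤ[H])) = 0 := by
        funext i; simp [LinearMap.funLeft]
      simp [Φ, this]
    have h6 : m0 = 0 := Subtype.ext (funext fun i => by
      have := h4 (some i)
      rw [Matrix.sub_apply, one_apply_ne (by simp), zero_sub, neg_eq_zero] at this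
      rw [← h5]
      exact this)
    have := h4 none
    rw [Matrix.sub_apply, one_apply_eq, sub_eq_zero] at this
    change 1 = θ (Φ _) at this
    rw [h5, h6, map_zero] at this
    exact one_ne_zero this
  obtain ⟨h, hh⟩ := exists_ne (1 : H)
  obtain ⟨v, hv⟩ := exists_dS hs h
  have h4 := one_lt_tr ((1 - E).map toRG) (c.map toRG) (x.map toRG)
    (by rw [← Matrix.map_mul, he]) (by rw [← Matrix.map_mul, hec])
    (by rw [← Matrix.map_mul]; congr 1; exact Matrix.ext fun _ b => by rw [hx, he]; rfl)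
    (by
      rw [← Matrix.map_mul, ← Matrix.map_zero toRG (map_zero _)]
      congr 1
      exact Matrix.ext fun _ b => by rw [hx, hec]; rfl)
    (fun h => hx0 (Matrix.ext fun a b => toRG_injective
      ((congrFun (congrFun h a) b).trans (map_zero _).symm)))
    ((one_le_rk_o h fun n hn e => hh (torsionFree hH h2 h n hn e)).trans (by
      refine le_trans (le_of_eq ?_) (rk_mul_le_right
        ((Matrix.of fun (_ : Unit) (a : Option T) => a.elim 0 v).map toRG) (c.map toRG))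
      rw [← Matrix.map_mul]
      congr 1
      refine Matrix.ext fun _ b => ?_
      rw [map_apply, ← row_vecMul, hc, of_apply, ← map_one toRG, ← map_sub, ← hv]
      rfl))
  rw [tr_toRG, ← bass _ he (no_bs hH h2), trace_sub, trace_one, map_sub, map_natCast,
    Fintype.card_option] at h4
  let E' : Matrix (Option T) (Option T) ℤ := E.map (aug ℤ H)
  have hE' : E' * E' = E' := by rw [← Matrix.map_mul, hEE]
  have h5 : aug ℤ H E.trace = Module.finrank ℤ (LinearMap.range (Matrix.toLin' E')) := by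
    rw [← LinearMap.IsProj.trace (LinearMap.IsIdempotentElem.isProj_range _ (by
      rw [IsIdempotentElem, Module.End.mul_eq_comp, ← Matrix.toLin'_mul, hE'])), trace_toLin'_eq, AddMonoidHom.map_trace]
  let L : (T → ℤ) →ₗ[ℤ] (Option T → ℤ) := LinearMap.pi fun a => a.elim 0 LinearMap.proj
  obtain ⟨φ, hφ, hφ0⟩ : ∃ φ, E' *ᵥ L φ = 0 ∧ φ ≠ 0 := by
    by_contra hcon
    have := LinearMap.finrank_le_finrank_of_injective
      (f := (Matrix.toLin' E').rangeRestrict ∘ₗ L) ((injective_iff_map_eq_zero _).2 fun φ h =>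
        by_contra fun h' => hcon ⟨φ, congrArg Subtype.val h, h'⟩)
    rw [Module.finrank_fintype_fun_eq_card] at this
    rw [h5, ← Int.cast_one, Int.cast_lt] at h4
    omega
  let Ψ : (T → ℤ[H]) →+ ℤ :=
    { toFun := fun v => ∑ i, aug ℤ H (v i) * φ i
      map_zero' := by simp
      map_add' := fun a b => by simp [add_mul, Finset.sum_add_distrib] }
  have hΨ : ∀ v, dS Subtype.val v = 0 → Ψ v = 0 := fun v hv => by
    have h6 := hE (J ⟨v, hv⟩)
    rw [hΦJ] at h6
    have h7 : (aug ℤ H ∘ J ⟨v, hv⟩) ᵥ* E' = aug ℤ H ∘ J ⟨v, hv⟩ := funext fun a =>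
      (RingHom.map_vecMul (aug ℤ H : ℤ[H] →+* ℤ) E _ a).symm.trans
        (congrArg (fun z : Option T → ℤ[H] => aug ℤ H (z a)) h6)
    have h8 : (aug ℤ H ∘ J ⟨v, hv⟩) ⬝ᵥ L φ = 0 := by
      rw [← h7, ← dotProduct_mulVec, hφ, dotProduct_zero]
    rw [dotProduct, Fintype.sum_option] at h8
    simpa [L, J, Ψ] using h8
  choose u hu using exists_dS hs
  obtain ⟨i, hi⟩ := Function.ne_iff.1 hφ0
  refine ⟨MonoidHom.mk' (fun h => Multiplicative.ofAdd (Ψ (u h))) fun a b => ?_, i, ?_⟩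
  · have := hΨ (u (a * b) - (u a + o a • u b)) (by
      rw [map_sub, map_add, map_smul, hu, hu, hu, smul_eq_mul, mul_sub, o_mul]; simp)
    rw [map_sub, sub_eq_zero, map_add] at this
    rw [← ofAdd_add, this]
    congr 2
    simp [Ψ]
  · have := hΨ (u i - Pi.single i 1) (by rw [map_sub, hu, dS_single, one_mul, sub_self])
    rw [map_sub, sub_eq_zero] at this
    change Ψ (u i) ≠ 0
    rw [this]
    simpa [Ψ, Pi.single_apply] using hi

end

end Pool.Agent.P.MP_5ee5b4_al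
end

-- part Pool.Agent.P.MP_5ee5b4_al.Asc
section

/-! From the ascending alternative to finite generation of the kernel. -/

namespace Pool.Agent.P.MP_5ee5b4_al

open Pool.Agent.P.MP_6e40fc_al Matrix
open scoped MonoidAlgebra

noncomputable section

variable {Γ : Type} [Group Γ]

theorem conj_closure_mem {T : Set Γ} {B : Subgroup Γ} {u : Γ} (h : ∀ x ∈ T, u * x * u⁻¹ ∈ B)
    {x : Γ} (hx : x ∈ Subgroup.closure T) : u * x * u⁻¹ ∈ B :=
  (Subgroup.closure_le (B.comap (MulAut.conj u).toMonoidHom)).2 h hx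

theorem conj_pow_mem {B : Subgroup Γ} {u : Γ} (h : ∀ x ∈ B, u * x * u⁻¹ ∈ B) (m : ℕ) {x : Γ}
    (hx : x ∈ B) : u ^ m * x * (u ^ m)⁻¹ ∈ B := by
  induction m with
  | zero => simpa using hx
  | succ m ih =>
    convert h _ ih using 1
    group

theorem ascending (χ : Γ →* Multiplicative ℤ) (t : Γ) (ht : lv χ t = 1) (v : Γ) (B : Subgroup Γ)
    (hv : 0 < lv χ v) (hB : B.FG) (hB' : B ≤ χ.ker)
    (h : ∀ h, lv χ h = 0 → ∃ n0 : ℕ, ∀ n ≥ n0, v ^ n * h * v⁻¹ ^ n ∈ B) :
    ∃ B' : Subgroup Γ, B'.FG ∧ B' ≤ χ.ker ∧ (∀ x ∈ B', t * x * t⁻¹ ∈ B') ∧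
      ∀ h, lv χ h = 0 → ∃ m : ℕ, t ^ m * h * (t ^ m)⁻¹ ∈ B' := by
  obtain ⟨T, rfl, hT⟩ := (Subgroup.fg_iff _).1 hB
  choose! n0 hn0 using h
  obtain ⟨n1, hn1⟩ := (hT.image n0).bddAbove
  set V := v ^ (n1 + 1) with hV
  have hTk : ∀ x ∈ T, lv χ x = 0 := fun x hx =>
    (lv_eq_zero χ).2 (hB' (Subgroup.subset_closure hx))
  have h1 : ∀ x ∈ T, V * x * V⁻¹ ∈ Subgroup.closure T := fun x hx => by
    have := hn0 x (hTk x hx) (n1 + 1) (by have : n0 x ≤ n1 := hn1 ⟨x, hx, rfl⟩; omega)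
    rwa [inv_pow] at this
  have h2 : ∀ x, lv χ x = 0 → ∃ k : ℕ, V ^ k * x * (V ^ k)⁻¹ ∈ Subgroup.closure T := fun x hx =>
    ⟨n0 x, by
      have := hn0 x hx ((n1 + 1) * n0 x) (Nat.le_mul_of_pos_left _ (by omega))
      rwa [inv_pow, pow_mul] at this⟩
  obtain ⟨a, ha⟩ : ∃ a : ℕ, lv χ V = (a + 1 : ℕ) :=
    ⟨(lv χ V - 1).toNat, by
      have : 0 < lv χ V := by rw [hV, lv_pow]; positivity
      omega⟩
  set h0 := V * (t ^ (a + 1))⁻¹ with hh0
  have hl0 : lv χ h0 = 0 := by simp [hh0, ha, ht]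
  obtain ⟨k0, hk0⟩ := h2 h0 hl0
  let T1 : Set Γ := T ∪ (fun j : ℕ => V ^ j * h0 * (V ^ j)⁻¹) '' Set.Iic k0
  have hT1 : T1.Finite := hT.union ((Set.finite_Iic k0).image _)
  have hTT1 : Subgroup.closure T ≤ Subgroup.closure T1 := Subgroup.closure_mono Set.subset_union_left
  have h3 : ∀ x ∈ T1, V * x * V⁻¹ ∈ Subgroup.closure T1 := by
    rintro x (hx | ⟨j, hj, rfl⟩)
    · exact hTT1 (h1 x hx)
    · rcases (Set.mem_Iic.1 hj).lt_or_eq with hj | rfl
      · refine Subgroup.subset_closure (Or.inr ⟨j + 1, hj, ?_⟩)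
        group
      · exact hTT1 (conj_closure_mem h1 hk0)
  have h4 : h0 ∈ Subgroup.closure T1 := Subgroup.subset_closure (Or.inr ⟨0, Nat.zero_le _, by simp⟩)
  let T2 : Set Γ := Set.image2 (fun (i : ℕ) x => t ^ i * x * (t ^ i)⁻¹) (Set.Iic a) T1
  have hT12 : Subgroup.closure T1 ≤ Subgroup.closure T2 :=
    Subgroup.closure_mono fun x hx => ⟨0, Nat.zero_le _, x, hx, by simp⟩
  have h5 : ∀ x ∈ Subgroup.closure T2, t * x * t⁻¹ ∈ Subgroup.closure T2 := by
    refine fun x hx => conj_closure_mem ?_ hx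
    rintro _ ⟨i, hi, x, hx, rfl⟩
    rcases (Set.mem_Iic.1 hi).lt_or_eq with hi | rfl
    · refine Subgroup.subset_closure ⟨i + 1, hi, x, hx, ?_⟩
      group
    · refine hT12 ?_
      convert Subgroup.mul_mem _ (Subgroup.mul_mem _ (Subgroup.inv_mem _ h4) (h3 x hx)) h4 using 1
      rw [hh0]
      group
  refine ⟨Subgroup.closure T2, (Subgroup.fg_iff _).2 ⟨_, rfl, (Set.finite_Iic a).image2 _ hT1⟩,
    (Subgroup.closure_le _).2 ?_, h5, fun x hx => ?_⟩
  · rintro _ ⟨i, -, x, hx | ⟨j, -, rfl⟩, rfl⟩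
    · exact (lv_eq_zero χ).1 (by simp [hTk x hx])
    · exact (lv_eq_zero χ).1 (by simp [hl0])
  · obtain ⟨k, hk⟩ := h2 x hx
    have hk' := hT12 (hTT1 hk)
    clear hk hx
    induction k generalizing x with
    | zero => exact ⟨0, by simpa using hk'⟩
    | succ k ih =>
      obtain ⟨m, hm⟩ := ih (V * x * V⁻¹) (by convert hk' using 1; group)
      have h6 := conj_pow_mem h5 m (hT12 h4)
      refine ⟨m + (a + 1), ?_⟩
      convert Subgroup.mul_mem _ (Subgroup.mul_mem _ (Subgroup.inv_mem _ h6) hm) h6 using 1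
      rw [hh0]
      group

variable {n0 n1 n2 m0 : Type} [Fintype n0] [Fintype n1] [Fintype n2] [Fintype m0]
  [DecidableEq n0] [DecidableEq n1] [DecidableEq n2] [DecidableEq m0]

theorem ker_fg_of_asc (P : PRes Γ n0 n1 n2) (P' : PRes Γ m0 n2 n1) (w : Γ →* ℤˣ)
    (hP : P'.d2 = (P.d2.map (conj w))ᵀ) (χ : Γ →* Multiplicative ℤ) (t : Γ) (ht : lv χ t = 1)
    (B : Subgroup Γ) (hB : B.FG) (hB' : B ≤ χ.ker) (hc : ∀ x ∈ B, t * x * t⁻¹ ∈ B)
    (h : ∀ h, lv χ h = 0 → ∃ m : ℕ, t ^ m * h * (t ^ m)⁻¹ ∈ B) :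
    χ.ker.FG ∧ AllPrinc (iota χ) ∧ AllPrinc (iota χ⁻¹) := by
  let φ : B →* B := ((MulAut.conj t).toMonoidHom.comp B.subtype).codRestrict B fun x => hc x x.2
  have ht' : χ t = Multiplicative.ofAdd 1 := Multiplicative.toAdd.injective ht
  have hnf : ∀ g : Γ, ∃ (m n : ℕ) (x : B), g = (t ^ m)⁻¹ * B.subtype x * t ^ n := by
    intro g
    obtain ⟨m, hm⟩ := h (g * t ^ (-lv χ g)) (by simp [ht])
    obtain ⟨n, hn⟩ : ∃ n : ℕ, (n : ℤ) = (lv χ g).natAbs + m + lv χ g :=
      ⟨((lv χ g).natAbs + m + lv χ g).toNat, by omega⟩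
    refine ⟨(lv χ g).natAbs + m, n, ⟨_, conj_pow_mem hc (lv χ g).natAbs hm⟩, ?_⟩
    rw [← zpow_natCast t n, hn]
    simp only [Subgroup.coe_subtype]
    generalize (lv χ g).natAbs = b
    group
  have h1 := allPrinc_plus φ B.subtype t χ ht' (fun x => hB' x.2) (fun _ => rfl) hnf
    ((Group.fg_iff_subgroup_fg B).2 hB)
  have h2 := allPrinc_symm P P' w hP χ t ht' h1
  have h3 := surjective_of_allPrinc φ B.subtype t χ ht' (fun x => hB' x.2) (fun _ => rfl) hnf
    B.subtype_injective h2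
  refine ⟨?_, h2, h1⟩
  suffices χ.ker = B from this ▸ hB
  refine le_antisymm (fun x hx => ?_) hB'
  obtain ⟨m, hm⟩ := h x ((lv_eq_zero χ).2 hx)
  clear hx
  induction m with
  | zero => simpa using hm
  | succ m ih =>
    obtain ⟨y, hy⟩ := h3 ⟨_, hm⟩
    have hy' : t * y * t⁻¹ = t ^ (m + 1) * x * (t ^ (m + 1))⁻¹ := congrArg Subtype.val hy
    refine ih ?_
    have : t ^ m * x * (t ^ m)⁻¹ = t⁻¹ * (t * y * t⁻¹) * t := by rw [hy']; group
    rw [this]
    simp [mul_assoc]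

theorem ker_fg (P : PRes Γ n0 n1 n2) (P' : PRes Γ m0 n2 n1) (w : Γ →* ℤˣ)
    (hP : P'.d2 = (P.d2.map (conj w))ᵀ) (χ : Γ →* Multiplicative ℤ) (t : Γ) (ht : lv χ t = 1)
    (v : Γ) (B : Subgroup Γ) (hv : lv χ v ≠ 0) (hB : B.FG) (hB' : B ≤ χ.ker)
    (h : ∀ h, lv χ h = 0 → ∃ n0 : ℕ, ∀ n ≥ n0, v ^ n * h * v⁻¹ ^ n ∈ B) :
    χ.ker.FG ∧ AllPrinc (iota χ) ∧ AllPrinc (iota χ⁻¹) := by
  rcases lt_or_gt_of_ne hv with hv | hv
  · have hk : χ⁻¹.ker = χ.ker := by ext; simp
    obtain ⟨B', h1, h2, h3, h4⟩ := ascending χ⁻¹ t⁻¹ (by simp [ht]) v B (by simpa using hv) hB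
      (hk ▸ hB') fun x hx => h x (by simpa using hx)
    obtain ⟨h5, h6, h7⟩ := ker_fg_of_asc P P' w hP χ⁻¹ t⁻¹ (by simp [ht]) B' h1 h2 h3 h4
    exact ⟨hk ▸ h5, by rwa [inv_inv] at h7, h6⟩
  · obtain ⟨B', h1, h2, h3, h4⟩ := ascending χ t ht v B hv hB hB' h
    exact ker_fg_of_asc P P' w hP χ t ht B' h1 h2 h3 h4

end

end Pool.Agent.P.MP_5ee5b4_al
end

-- part Pool.Agent.P.MP_5ee5b4_al.FinIdx
section

/-! Subgroups of finite index in Poincare duality groups. -/

namespace Pool.Agent.P.MP_5ee5b4_al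

open Pool.Agent.P.MP_6e40fc_al CategoryTheory Limits
open scoped MonoidAlgebra

noncomputable section

variable {G : Type} [Group G] (S : Subgroup G)

open Classical in
/-- the canonical generator of the coinduced regular representation -/
def gen0 : Rep.coind S.subtype (Rep.leftRegular ℤ S) :=
  ⟨fun g => if h : g ∈ S then o (⟨g, h⟩ : S) else 0, fun s g => by
    change (if h : (s : G) * g ∈ S then o (⟨s * g, h⟩ : S) else 0) =
      (Rep.leftRegular ℤ S).ρ s (if h : g ∈ S then o (⟨g, h⟩ : S) else 0)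
    by_cases hg : g ∈ S
    · rw [dif_pos (S.mul_mem s.2 hg), dif_pos hg, ← act_of, act_leftRegular]
      exact (o_mul s ⟨g, hg⟩).symm
    · rw [dif_neg (by rwa [S.mul_mem_cancel_left s.2]), dif_neg hg, map_zero]⟩

theorem gen0_coeff (a : ℤ[G]) (x : G) (s : S) :
    (((Rep.leftRegularHom _ (gen0 S)).hom a).1 x).coeff s = a.coeff (x⁻¹ * s) := by
  classical
  induction a using zg_induction with
  | ho g =>
    rw [o, MonoidAlgebra.of_apply, Rep.leftRegularHom_hom_single, one_smul]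
    change (if h : x * g ∈ S then o (⟨x * g, h⟩ : S) else 0).coeff s = _
    split_ifs with h
    · simp only [o, MonoidAlgebra.of_apply, MonoidAlgebra.coeff_single, Finsupp.single_apply]
      exact if_congr (by rw [Subtype.ext_iff, eq_inv_mul_iff_mul_eq]) rfl rfl
    · rw [MonoidAlgebra.coeff_single, Finsupp.single_apply, if_neg]
      · rfl
      · rintro rfl
        exact h (by simp)
  | hadd a b ha hb =>
    rw [map_add, MonoidAlgebra.coeff_add, Finsupp.add_apply, ← ha, ← hb]; rfl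
  | hsmul n a ha =>
    rw [map_smul, MonoidAlgebra.coeff_smul, Finsupp.smul_apply, ← ha]; rfl

theorem exists_transversal [S.FiniteIndex] : ∃ T : Finset G, ∀ g, ∃ s ∈ S, ∃ τ ∈ T, g = s * τ := by
  classical
  haveI := Fintype.ofFinite (G ⧸ S)
  refine ⟨Finset.univ.image fun q : G ⧸ S => q.out⁻¹, fun g => ?_⟩
  obtain ⟨s, hs⟩ := QuotientGroup.mk_out_eq_mul S g⁻¹
  exact ⟨s, s.2, _, Finset.mem_image_of_mem _ (Finset.mem_univ (QuotientGroup.mk g⁻¹)), by
    rw [hs]; group⟩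

theorem gen0_bijective [S.FiniteIndex] :
    Function.Bijective (Rep.leftRegularHom _ (gen0 S)).hom := by
  refine ⟨(injective_iff_map_eq_zero _).2 fun a ha => ?_, fun f => ?_⟩
  · apply MonoidAlgebra.coeff_injective
    ext y
    have := gen0_coeff S a y⁻¹ 1
    rw [ha] at this
    simpa using this.symm
  · obtain ⟨T, hT⟩ := exists_transversal S
    have h1 : ∀ (s s' : S) x, (f.1 (s * x)).coeff s' = (f.1 x).coeff (s⁻¹ * s') := fun s s' x => by
      have := f.2 s x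
      rw [S.coe_subtype] at this
      rw [this, ← coeff_o_mul, ← act_leftRegular, o, act_of]
    have h2 : (Function.support fun y : G => (f.1 y⁻¹).coeff 1).Finite := by
      refine (T.finite_toSet.biUnion fun τ _ => (f.1 τ).coeff.support.finite_toSet.image
        fun s : S => τ⁻¹ * s).subset fun y hy => ?_
      obtain ⟨s, hs, τ, hτ, e⟩ := hT y⁻¹
      refine Set.mem_biUnion hτ ⟨(⟨s, hs⟩ : S)⁻¹, Finsupp.mem_support_iff.2 ?_, ?_⟩
      · have := h1 ⟨s, hs⟩ 1 τ
        rw [mul_one] at this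
        rw [← this]
        rwa [Function.mem_support, e] at hy
      · rw [← inv_inv y, e]
        simp
    refine ⟨MonoidAlgebra.ofCoeff (Finsupp.ofSupportFinite _ h2), Subtype.ext (funext fun x => ?_)⟩
    apply MonoidAlgebra.coeff_injective
    ext s
    rw [gen0_coeff]
    change (f.1 (x⁻¹ * s)⁻¹).coeff 1 = _
    have := h1 s⁻¹ 1 x
    rw [inv_inv, mul_one] at this
    rw [← this]
    simp

theorem isPD_of_finiteIndex [S.FiniteIndex] {n : ℕ} (hG : IsPD n G) : IsPD n S := by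
  classical
  obtain ⟨⟨P, hfin, N, hN⟩, h0, ⟨h3⟩⟩ := hG
  let e : ∀ i, groupCohomology (Rep.leftRegular ℤ G) i ≅ groupCohomology (Rep.leftRegular ℤ S) i :=
    fun i => (groupCohomology.functor ℤ G i).mapIso (Rep.mkIso
      ((Rep.leftRegularHom _ (gen0 S)).hom.ofBijective (gen0_bijective S))) ≪≫
        groupCohomology.coindIso _ i
  refine ⟨⟨(Rep.resFunctor S.subtype).mapProjectiveResolution P, fun i => ?_, N, fun i hi => ?_⟩,
    fun i hi => (e i).symm.isZero_iff.2 (h0 i hi), ⟨(e n).symm.toLinearEquiv.toAddEquiv.trans h3⟩⟩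
  · obtain ⟨m, y, hy⟩ := exists_surjective_of_finite _ (hfin i)
    obtain ⟨T, hT⟩ := exists_transversal S
    let A := Rep.res S.subtype (P.complex.X i)
    let z : T × Fin m → A := fun p => (P.complex.X i).ρ p.1 (y p.2)
    refine finite_of_surjective A z fun a => ?_
    obtain ⟨x, rfl⟩ := hy a
    rw [homOf_apply]
    refine AddSubgroup.sum_mem (AddMonoidHom.range (AddMonoidHom.mk' (homOf A z).hom
      (map_add (homOf A z).hom))) fun k _ => ?_
    induction x k using zg_induction with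
    | ho g =>
      obtain ⟨s, hs, τ, hτ, rfl⟩ := hT g
      refine ⟨act _ (o ⟨s, hs⟩) (Pi.single (⟨τ, hτ⟩, k) 1), ?_⟩
      change (homOf A z).hom _ = _
      rw [hom_act, homOf_single, o, o, act_of, act_of, map_mul]
      rfl
    | hadd a b ha hb => rw [act_add]; exact AddSubgroup.add_mem _ ha hb
    | hsmul c a ha =>
      obtain ⟨v, hv⟩ := ha
      refine ⟨act (freeRep ℤ S (T × Fin m)) (c • 1) v, ?_⟩
      change (homOf A z).hom _ = _
      rw [hom_act, act_zsmul, act_zsmul, act_one, ← hv]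
      rfl
  · exact (Rep.resFunctor S.subtype).map_isZero (hN i hi)

end

end Pool.Agent.P.MP_5ee5b4_al
end

-- part Pool.Agent.P.MP_5ee5b4_al.Main
section

/-! The main theorem. -/

namespace Pool.Agent.P.MP_5ee5b4_al

open Pool.Agent.P.MP_6e40fc_al
open scoped MonoidAlgebra

noncomputable section

variable {Γ Γ' : Type} [Group Γ] [Group Γ']

theorem exists_normalized (χ : Γ →* Multiplicative ℤ) {ν : Γ} (hν : lv χ ν ≠ 0) :
    ∃ (χ' : Γ →* Multiplicative ℤ) (t : Γ), lv χ' t = 1 ∧ χ'.ker = χ.ker := by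
  obtain ⟨a, ha⟩ := Int.subgroup_cyclic (AddSubgroup.toSubgroup.symm χ.range)
  have h1 : ∀ x, a ∣ lv χ x := fun x => by
    have : lv χ x ∈ AddSubgroup.toSubgroup.symm χ.range := ⟨x, rfl⟩
    rw [ha, AddSubgroup.mem_closure_singleton] at this
    obtain ⟨n, hn⟩ := this
    exact ⟨n, by rw [← hn, smul_eq_mul, mul_comm]⟩
  obtain ⟨t, ht⟩ : a ∈ AddSubgroup.toSubgroup.symm χ.range :=
    ha ▸ AddSubgroup.subset_closure rfl
  have ht' : lv χ t = a := congrArg Multiplicative.toAdd ht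
  have ha0 : a ≠ 0 := fun h => hν (by simpa [h] using h1 ν)
  refine ⟨MonoidHom.mk' (fun x => Multiplicative.ofAdd (lv χ x / a)) fun x y => ?_, t, ?_, ?_⟩
  · rw [lv_mul, Int.add_ediv_of_dvd_left (h1 x), ofAdd_add]
  · change lv χ t / a = 1
    rw [ht', Int.ediv_self ha0]
  · ext x
    rw [← lv_eq_zero, ← lv_eq_zero]
    change lv χ x / a = 0 ↔ _
    obtain ⟨n, hn⟩ := h1 x
    rw [hn, Int.mul_ediv_cancel_left _ ha0]
    simp [ha0]

theorem exists_family (hΓ : Group.FG Γ) (t : Γ) : ∃ T : Finset Γ,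
    Subgroup.closure (Set.range (Subtype.val : T → Γ)) = ⊤ ∧
      t ∈ Set.range (Subtype.val : T → Γ) := by
  classical
  obtain ⟨S, hS⟩ := hΓ.1
  exact ⟨insert t S, eq_top_iff.2 (hS ▸ Subgroup.closure_mono fun x hx => ⟨⟨x, Finset.mem_insert_of_mem hx⟩, rfl⟩),
    by simp⟩

theorem NF.comap {N : Subgroup Γ'} (h : NF N) (f : Γ →* Γ') (hf : Function.Injective f) :
    NF (N.comap f) := fun a ha b hb k0 => by
  obtain ⟨k, hk, h'⟩ := h _ ha _ hb k0
  refine ⟨k, hk, fun h'' => h' ?_⟩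
  have : FreeGroup.lift ![f a ^ (2 * k), f b ^ (2 * k)] =
      f.comp (FreeGroup.lift ![a ^ (2 * k), b ^ (2 * k)]) :=
    FreeGroup.ext_hom _ _ fun i => by fin_cases i <;> simp
  rw [this]
  exact hf.comp h''

theorem NF.mono {N L : Subgroup Γ} (h : NF N) (hL : L ≤ N) : NF L :=
  fun a ha b hb => h a (hL ha) b (hL hb)

theorem NF.top {N : Subgroup Γ} (h : NF N) [hN : N.FiniteIndex] : NF (⊤ : Subgroup Γ) := by
  intro a _ b _ k0
  have hp : ∀ x : Γ, x ^ N.index.factorial ∈ N := fun x =>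
    Subgroup.pow_mem_of_index_ne_zero_of_dvd hN.index_ne_zero x fun m => Nat.dvd_factorial
  obtain ⟨k, hk, h'⟩ := h _ (hp a) _ (hp b) k0
  refine ⟨N.index.factorial * k, hk.trans (Nat.le_mul_of_pos_left _ (Nat.factorial_pos _)), ?_⟩
  rwa [← pow_mul, ← pow_mul, mul_left_comm] at h'

theorem NoFree.nf {L : Subgroup Γ} (h : NoFree L) : NF L := fun a ha b hb k => ⟨k, le_rfl, fun hf => by
  set f := FreeGroup.lift ![a ^ (2 * k), b ^ (2 * k)] with hf'
  have h1 : f.range ≤ L := by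
    rw [hf', FreeGroup.range_lift_eq_closure, Subgroup.closure_le]
    rintro _ ⟨i, rfl⟩
    fin_cases i
    · exact L.pow_mem ha _
    · exact L.pow_mem hb _
  have h2 := h f.range h1 (IsFreeGroup.ofMulEquiv (MonoidHom.ofInjective hf))
    ⟨_, FreeGroup.of 0, rfl⟩ ⟨_, FreeGroup.of 1, rfl⟩
  have h3 : (FreeGroup.of 0 * FreeGroup.of 1 : FreeGroup (Fin 2)) =
      FreeGroup.of 1 * FreeGroup.of 0 := hf (by
    rw [map_mul, map_mul]; exact congrArg Subtype.val h2)
  exact absurd h3 (by decide)⟩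

theorem solvable_of_ker (χ : Γ →* Multiplicative ℤ) (h : Group.IsSolvable χ.ker) :
    Group.IsSolvable Γ :=
  Group.isSolvable_of_ker_le_range χ.ker.subtype χ (by rw [Subgroup.range_subtype])

theorem PD2.solvable (hH : Group.FG Γ) (h2 : PD2 Γ) [Infinite Γ] (hN : NF (⊤ : Subgroup Γ)) :
    Group.IsSolvable Γ := by
  obtain ⟨ψ0, x, hx⟩ := exists_hom hH h2
  obtain ⟨ψ, t, ht, -⟩ := exists_normalized ψ0 hx
  obtain ⟨T, hT, htT⟩ := exists_family hH t
  obtain ⟨w, hw⟩ := id h2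
  obtain ⟨θ, m0, g, h3, -⟩ := hw T Subtype.val hT
  have hK : (LinearMap.ker (dS (Subtype.val : T → Γ))).FG := by
    rw [← Submodule.fg_top]
    have : (⊤ : Submodule ℤ[Γ] (LinearMap.ker (dS (Subtype.val : T → Γ)))) =
        Submodule.span ℤ[Γ] {m0} ⊔ LinearMap.range g := (eq_top_iff.2 fun k _ => by
      rw [h3 k]
      exact Submodule.add_mem_sup (Submodule.smul_mem _ _ (Submodule.subset_span rfl))
        ⟨_, rfl⟩).symm
    rw [this]
    exact (Submodule.fg_span_singleton _).sup (Submodule.fg_range _)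
  obtain ⟨v, B, -, hB, hB', h4⟩ := dichotomy hT hK ψ t ht htT ⊤ hN t trivial (by omega)
  have hBi : ¬ B.FiniteIndex := fun h => by
    obtain ⟨k, hk, -, hk'⟩ := Subgroup.exists_pow_mem_of_index_ne_zero h.index_ne_zero t
    have := (lv_eq_zero ψ).2 (hB' hk')
    rw [lv_pow, ht] at this
    omega
  refine solvable_of_ker ψ (Group.isSolvable_of_comm fun a b => Subtype.ext ?_)
  obtain ⟨m, hm⟩ := h4 a ((lv_eq_zero ψ).2 a.2)
  obtain ⟨n, hn⟩ := h4 b ((lv_eq_zero ψ).2 b.2)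
  have := comm_of_infiniteIndex hH h2 B hB hBi (hN.mono le_top) (hm (m + n) (by omega))
    (hn (m + n) (by omega))
  apply (MulAut.conj (v ^ (m + n))).injective
  simpa only [Subgroup.coe_mul, map_mul, MulAut.conj_apply, inv_pow] using this

theorem PD2.solvable_sub (hH : Group.FG Γ) (h2 : PD2 Γ) [Infinite Γ] (M : Subgroup Γ)
    (hM : NF M) : Group.IsSolvable M := by
  by_cases hi : M.FiniteIndex
  · haveI := h2.solvable hH hM.top
    infer_instance
  · refine Group.isSolvable_of_comm fun a b => Subtype.ext ?_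
    have hle : Subgroup.closure {(a : Γ), (b : Γ)} ≤ M := (Subgroup.closure_le _).2 (by
      rintro _ (rfl | rfl)
      · exact a.2
      · exact b.2)
    exact comm_of_infiniteIndex hH h2 _ ((Subgroup.fg_iff _).2 ⟨_, rfl, Set.toFinite _⟩)
      (fun h => hi (Subgroup.finiteIndex_of_le hle)) (hM.mono hle)
      (Subgroup.subset_closure (by simp)) (Subgroup.subset_closure (by simp))

theorem main0 (hG : IsPD 3 Γ) (N : Subgroup Γ) [N.Normal] (hN : NF N)
    (χ0 : Γ →* Multiplicative ℤ) (ν : Γ) (hν : ν ∈ N) (hχ : lv χ0 ν ≠ 0) :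
    χ0.ker.FG ∧ ∃ K : Subgroup Γ, K.FiniteIndex ∧
      ∀ L : Subgroup Γ, NF L → L ≤ K → Group.IsSolvable L := by
  obtain ⟨χ, t, ht, hker⟩ := exists_normalized χ0 hχ
  obtain ⟨n0, n1, n2, m0, P, P', w, hP, ex2⟩ := exists_pres2 hG
  obtain ⟨T, hT, htT⟩ := exists_family (fg_of_pres P) t
  obtain ⟨v, B, h1, h2, h3, h4⟩ := dichotomy hT (fp2 P hT) χ t ht htT N hN ν hν fun h =>
    hχ ((lv_eq_zero _).2 (hker ▸ (lv_eq_zero _).1 h))
  obtain ⟨h5, h6, h7⟩ := ker_fg P P' w hP χ t ht v B h1 h2 h3 h4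
  refine ⟨hker ▸ h5, ?_⟩
  let F : Fib χ.ker.subtype χ :=
    { t := t
      ht := ht
      inj := Subtype.val_injective
      hj := fun k => (lv_eq_zero χ).2 k.2
      κ := fun x => ⟨x * t ^ (-lv χ x), (lv_eq_zero χ).1 (by simp [ht])⟩
      hκ := fun x => by simp }
  have h8 := pd2 F P P' w hP ex2 h6 h7
  rcases finite_or_infinite χ.ker with hf | hf
  · refine ⟨(MulAut.conjNormal : Γ →* MulAut χ.ker).ker, inferInstance, fun L _ hL => ?_⟩
    refine solvable_of_ker (χ.comp L.subtype) (Group.isSolvable_of_comm fun a b => ?_)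
    have := DFunLike.congr_fun ((MonoidHom.mem_ker).1 (hL a.1.2)) ⟨b.1.1, b.2⟩
    have h9 : (a.1.1 : Γ) * b.1.1 * (a.1.1)⁻¹ = b.1.1 := congrArg Subtype.val this
    exact Subtype.ext (Subtype.ext (mul_inv_eq_iff_eq_mul.1 h9))
  · refine ⟨⊤, inferInstance, fun L hL _ => solvable_of_ker (χ.comp L.subtype) ?_⟩
    haveI := h8.solvable_sub ((Group.fg_iff_subgroup_fg _).2 h5) (L.comap χ.ker.subtype)
      (hL.comap _ Subtype.val_injective)
    let f : (χ.comp L.subtype).ker →* L.comap χ.ker.subtype :=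
      { toFun := fun a => ⟨⟨a.1.1, a.2⟩, a.1.2⟩
        map_one' := rfl
        map_mul' := fun _ _ => rfl }
    exact Group.isSolvable_of_isSolvable_injective (f := f) fun a b h =>
      Subtype.ext (Subtype.ext (congrArg (fun z : L.comap χ.ker.subtype => (z.1 : Γ)) h))

theorem main (hG : IsPD3 Γ) (N : Subgroup Γ) (hn : N.Normal) (hN : NoFree N) (G₀ : Subgroup Γ)
    (h0 : G₀.FiniteIndex) (χ : G₀ →* Multiplicative ℤ) (hχ : ∃ g : G₀, (g : Γ) ∈ N ∧ χ g ≠ 1) :
    χ.ker.FG ∧ ∀ L : Subgroup Γ, NoFree L →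
      ∃ K : Subgroup L, K.FiniteIndex ∧ Group.IsSolvable K := by
  obtain ⟨ν, hν, hχ⟩ := hχ
  obtain ⟨h1, K, h2, h3⟩ := main0 (isPD_of_finiteIndex G₀ (n := 3) hG) (N.comap G₀.subtype)
    (hN.nf.comap _ Subtype.val_injective) χ ν hν fun h => hχ ((lv_eq_zero χ).1 h)
  refine ⟨h1, fun L hL => ?_⟩
  haveI : (K.map G₀.subtype).FiniteIndex := ⟨by
    rw [Subgroup.index_map_of_injective _ G₀.subtype_injective, Subgroup.range_subtype]
    exact mul_ne_zero h2.index_ne_zero h0.index_ne_zero⟩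
  refine ⟨(K.map G₀.subtype).subgroupOf L, inferInstance, ?_⟩
  haveI := h3 (L.comap G₀.subtype ⊓ K) ((hL.nf.comap _ Subtype.val_injective).mono inf_le_left)
    inf_le_right
  let f : ↥(L.comap G₀.subtype ⊓ K) →* (K.map G₀.subtype).subgroupOf L :=
    { toFun := fun a => ⟨⟨a.1.1, a.2.1⟩, ⟨a.1, a.2.2, rfl⟩⟩
      map_one' := rfl
      map_mul' := fun _ _ => rfl }
  refine Group.isSolvable_of_surjective (f := f) ?_
  rintro ⟨⟨x, hx⟩, y, hy, e⟩
  have e' : (y : Γ) = x := e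
  exact ⟨⟨y, show (y : Γ) ∈ L from e' ▸ hx, hy⟩, Subtype.ext (Subtype.ext e')⟩

end

end Pool.Agent.P.MP_5ee5b4_al
end
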