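import Pool.Agent.K.MP_5ee5b4_al.C1

-- part Pool.Agent.P.MP_5ee5b4_al.PD3
section

/-! Duality between second cohomology and first homology, on the Cayley graph. -/

namespace Pool.Agent.P.MP_5ee5b4_al

open Pool.Agent.P.MP_6e40fc_al Matrix
open scoped MonoidAlgebra

noncomputable section

set_option linter.unusedSectionVars false

variable {Γ : Type} [Group Γ] {ι l m n : Type} [Fintype ι] [Fintype l] [Fintype m] [Fintype n]
  {A : Type} [AddCommGroup A] [Module ℤ[Γ] A]

/-- a matrix acting on a column of module elements -/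
def cact (X : Matrix m n ℤ[Γ]) : (n → A) →+ (m → A) where
  toFun u := fun a => ∑ b, X a b • u b
  map_zero' := by funext a; simp
  map_add' u v := by funext a; simp [Finset.sum_add_distrib]

theorem cact_apply (X : Matrix m n ℤ[Γ]) (u : n → A) (a : m) : cact X u a = ∑ b, X a b • u b := rfl

theorem cact_mul (X : Matrix l m ℤ[Γ]) (Y : Matrix m n ℤ[Γ]) (u : n → A) :
    cact (X * Y) u = cact X (cact Y u) := by
  funext a
  simp only [cact_apply, mul_apply, Finset.sum_smul, Finset.smul_sum, mul_smul]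
  exact Finset.sum_comm

theorem cact_add (X Y : Matrix m n ℤ[Γ]) (u : n → A) : cact (X + Y) u = cact X u + cact Y u := by
  funext a
  simp [cact_apply, add_smul, Finset.sum_add_distrib]

theorem cact_sub (X Y : Matrix m n ℤ[Γ]) (u : n → A) : cact (X - Y) u = cact X u - cact Y u := by
  funext a
  simp [cact_apply, sub_smul, Finset.sum_sub_distrib]

theorem cact_zero (u : n → A) : cact (0 : Matrix m n ℤ[Γ]) u = 0 := by
  funext a
  simp [cact_apply]

theorem cact_one [DecidableEq n] (u : n → A) : cact (1 : Matrix n n ℤ[Γ]) u = u := by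
  funext a
  simp [cact_apply, one_apply]

theorem tc_add (w : Γ →* ℤˣ) (X Y : Matrix m n ℤ[Γ]) : tc w (X + Y) = tc w X + tc w Y := by
  ext1 a b; exact map_add (conj w) _ _

theorem tc_sub (w : Γ →* ℤˣ) (X Y : Matrix m n ℤ[Γ]) : tc w (X - Y) = tc w X - tc w Y := by
  ext1 a b; exact map_sub (conj w) _ _

theorem tc_zero (w : Γ →* ℤˣ) : tc w (0 : Matrix m n ℤ[Γ]) = 0 := by
  ext1 a b; exact map_zero (conj w)

theorem tc_one [DecidableEq n] (w : Γ →* ℤˣ) : tc w (1 : Matrix n n ℤ[Γ]) = 1 := by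
  ext1 a b
  by_cases h : a = b
  · subst h; simp [tc, conj_one]
  · simp [tc, one_apply_ne h, one_apply_ne (Ne.symm h)]

/-- the column of the first boundary map -/
def πc (s : ι → Γ) : Matrix ι Unit ℤ[Γ] := Matrix.of fun i _ => o (s i) - 1

theorem dS_eq (s : ι → Γ) (v : ι → ℤ[Γ]) : dS s v = (v ᵥ* πc s) () := by
  simp [dS_apply, vecMul, dotProduct, πc]

theorem dS_row (s : ι → Γ) (X : Matrix m ι ℤ[Γ]) (a : m) : dS s (X a) = (X * πc s) a () := by
  rw [dS_eq, row_vecMul]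

/-- the chain of a path with a coefficient -/
def ract (w : Γ →* ℤˣ) (a : A) (v : ι → ℤ[Γ]) : ι → A := fun i => conj w (v i) • a

variable (A) in
/-- boundaries -/
def Bd (w : Γ →* ℤˣ) (s : ι → Γ) : AddSubgroup (ι → A) :=
  AddSubgroup.closure {z | ∃ a v, dS s v = 0 ∧ z = ract w a v}

/-- cycles -/
def Cyc (w : Γ →* ℤˣ) (s : ι → Γ) (z : ι → A) : Prop := ∑ i, conj w (o (s i) - 1) • z i = 0

theorem cyc_iff (w : Γ →* ℤˣ) (s : ι → Γ) (z : ι → A) :
    Cyc w s z ↔ cact (tc w (πc s)) z = 0 :=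
  ⟨fun h => funext fun _ => h, fun h => congrFun h ()⟩

/-- a map on relations that extends -/
def Extends {s : ι → Γ} (f : LinearMap.ker (dS s) →ₗ[ℤ[Γ]] A) : Prop :=
  ∃ F : (ι → ℤ[Γ]) →ₗ[ℤ[Γ]] A, ∀ v : LinearMap.ker (dS s), F v = f v

theorem ract_mem_Bd (w : Γ →* ℤˣ) (s : ι → Γ) (a : A) {v : ι → ℤ[Γ]} (hv : dS s v = 0) :
    ract w a v ∈ Bd A w s := AddSubgroup.subset_closure ⟨a, v, hv, rfl⟩

theorem cact_tc_eq (w : Γ →* ℤˣ) (H : Matrix m n ℤ[Γ]) (y : m → A) :
    cact (tc w H) y = ∑ a, ract w (y a) (H a) := by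
  funext i
  simp [cact_apply, ract, tc, Finset.sum_apply]

theorem cact_tc_mem_Bd (w : Γ →* ℤˣ) (s : ι → Γ) (H : Matrix m ι ℤ[Γ]) (h : H * πc s = 0)
    (y : m → A) : cact (tc w H) y ∈ Bd A w s := by
  rw [cact_tc_eq]
  exact AddSubgroup.sum_mem _ fun a _ => ract_mem_Bd w s _ (by rw [dS_row, h]; rfl)

theorem cact_tc_ract (w : Γ →* ℤˣ) (H : Matrix m n ℤ[Γ]) (a : A) (v : m → ℤ[Γ]) :
    cact (tc w H) (ract w a v) = ract w a (v ᵥ* H) := by
  funext b
  simp only [cact_apply, ract, tc, transpose_apply, map_apply, vecMul, dotProduct, map_sum,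
    MP_6e40fc_al.conj_mul, Finset.sum_smul, mul_smul]

variable {n0 n1 n2 : Type} [Fintype n0] [Fintype n1] [Fintype n2]
  [DecidableEq n0] [DecidableEq n1] [DecidableEq n2] [DecidableEq ι]

theorem package (P : PRes Γ n0 n1 n2) {s : ι → Γ} (hs : Subgroup.closure (Set.range s) = ⊤) :
    ∃ (a : Matrix n1 ι ℤ[Γ]) (b : Matrix ι n1 ℤ[Γ]) (k : Matrix n0 n1 ℤ[Γ]) (τ : Matrix n1 n2 ℤ[Γ])
      (e : Matrix n0 Unit ℤ[Γ]) (p : Matrix Unit n0 ℤ[Γ]) (c : Matrix Unit ι ℤ[Γ]),
      a * πc s = P.d1 * e ∧ b * P.d1 = πc s * p ∧ b * P.e1 = b ∧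
      P.e1 = a * b + P.d1 * k + τ * P.d2 ∧ (1 - b * a + πc s * c) * πc s = 0 := by
  obtain ⟨p, hp, hp1⟩ := P.surj
  let e : Matrix n0 Unit ℤ[Γ] := Matrix.of fun i _ => (P.ε (P.e0 i) : ℤ[Γ])
  let pm : Matrix Unit n0 ℤ[Γ] := Matrix.of fun _ => p
  have he : ∀ x : n0 → ℤ[Γ], aug ℤ Γ ((x ᵥ* e) ()) = P.ε (x ᵥ* P.e0) := fun x => by
    rw [← P.aug_beta]
    simp [vecMul, dotProduct, e, mul_comm]
  choose a ha using fun j => exists_dS' hs (r := (P.d1 j ᵥ* e) ())
    (by rw [he, row_vecMul, P.d1e0, P.ε_row])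
  choose b hb using fun i => P.ex_sub (s i) hp
  choose k hk using fun i => P.ex0 (P.e0 i - (P.ε (P.e0 i) : ℤ[Γ]) • p)
    (by rw [sub_vecMul, smul_vecMul, hp, row_vecMul, P.e0e0])
    (by rw [map_sub, P.ε_smul, hp1, map_intCast]; simp)
  obtain ⟨c, hc⟩ := exists_dS' hs (r := (p ᵥ* e) () - 1) (by rw [map_sub, he, hp, hp1, map_one, sub_self])
  have h1 : Matrix.of a * πc s = P.d1 * e := by
    ext1 j u
    rw [← dS_row]
    exact ha j
  have h2 : Matrix.of b * P.d1 = πc s * pm := by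
    ext1 i j
    rw [← row_vecMul]
    change (b i ᵥ* P.d1) j = _
    rw [hb]
    simp [mul_apply, πc, pm]
  have h3 : Matrix.of k * P.d1 = P.e0 - e * pm := by
    ext1 i j
    rw [← row_vecMul]
    change (k i ᵥ* P.d1) j = _
    rw [hk]
    simp [mul_apply, e, pm]
  let Z := P.e1 - Matrix.of a * (Matrix.of b * P.e1) - P.d1 * (Matrix.of k * P.e1)
  choose τ hτ using fun j => P.ex1 (Z j)
    (by rw [row_vecMul]; simp only [Z, Matrix.sub_mul, Matrix.mul_assoc, P.e1e1])
    (by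
      rw [row_vecMul]
      simp only [Z, Matrix.sub_mul, Matrix.mul_assoc, P.e1d1, h2, h3, Matrix.mul_sub, P.d1e0]
      rw [← Matrix.mul_assoc, h1, Matrix.mul_assoc, sub_self]
      rfl)
  have h4 : Matrix.of τ * P.d2 = Z := by
    ext1 i j
    rw [← row_vecMul]
    exact congrFun (hτ i) j
  refine ⟨Matrix.of a, Matrix.of b * P.e1, Matrix.of k * P.e1, Matrix.of τ, e, pm,
    Matrix.of fun _ => c, h1, by rw [Matrix.mul_assoc, P.e1d1, h2],
    by rw [Matrix.mul_assoc, P.e1e1], by rw [h4]; simp only [Z]; abel, ?_⟩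
  have h5 : (Matrix.of fun _ : Unit => c) * πc s = pm * e - 1 := by
    ext1 i j
    rw [← dS_row]
    exact hc
  rw [Matrix.add_mul, Matrix.sub_mul, Matrix.one_mul, Matrix.mul_assoc, h1, Matrix.mul_assoc (πc s),
    h5, ← Matrix.mul_assoc, Matrix.mul_assoc (Matrix.of b), P.e1d1, h2, Matrix.mul_sub,
    Matrix.mul_one, Matrix.mul_assoc]
  abel

/-- duality data -/
structure DD (w : Γ →* ℤˣ) (s : ι → Γ) where
  n : ℕ
  ρ : Fin n → LinearMap.ker (dS s)
  X : Matrix ι (Fin n) ℤ[Γ]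
  cyc : ∀ (A : Type) [AddCommGroup A] [Module ℤ[Γ] A] (f : LinearMap.ker (dS s) →ₗ[ℤ[Γ]] A),
    Cyc w s (cact X (f ∘ ρ))
  ext : ∀ (A : Type) [AddCommGroup A] [Module ℤ[Γ] A] (f : LinearMap.ker (dS s) →ₗ[ℤ[Γ]] A),
    cact X (f ∘ ρ) ∈ Bd A w s ↔ Extends f
  sur : ∀ (A : Type) [AddCommGroup A] [Module ℤ[Γ] A] (z : ι → A), Cyc w s z →
    ∃ f : LinearMap.ker (dS s) →ₗ[ℤ[Γ]] A, cact X (f ∘ ρ) - z ∈ Bd A w s

theorem lc_cact (x : m → ℤ[Γ]) (X : Matrix m n ℤ[Γ]) (u : n → A) :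
    Fintype.linearCombination ℤ[Γ] (cact X u) x = Fintype.linearCombination ℤ[Γ] u (x ᵥ* X) := by
  simp only [Fintype.linearCombination_apply, cact_apply, vecMul, dotProduct, Finset.sum_smul,
    Finset.smul_sum, mul_smul]
  exact Finset.sum_comm

theorem exists_dd (hG : IsPD 3 Γ) : ∃ w : Γ →* ℤˣ, ∀ (ι : Type) [Fintype ι] [DecidableEq ι]
    (s : ι → Γ), Subgroup.closure (Set.range s) = ⊤ →
      (LinearMap.ker (dS s)).FG ∧ Nonempty (DD w s) := by
  obtain ⟨n0, n1, n2, m0, P, P', w, hP, ex2⟩ := exists_pres2 hG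
  refine ⟨w, fun ι _ _ s hs => ⟨fp2 P hs, ?_⟩⟩
  obtain ⟨a, b, k, τ, e, p, c, h1, h2, h3, h4, h5⟩ := package P hs
  obtain ⟨a', b', k', τ', e', p', c', h1', h2', h3', h4', h5'⟩ := package P' hs
  have hd2 : tc w P'.d2 = P.d2 := by rw [hP, tc_tc]
  have h32 : tc w P'.d1 * P.d2 = 0 := by rw [← hd2, tc_mul, P'.d2d1, tc_zero]
  have he2 : tc w P'.e1 * P.d2 = P.d2 := by rw [← hd2, tc_mul, P'.d2e1]
  have hρ0 : P.d2 * a * πc s = 0 := by
    rw [Matrix.mul_assoc, h1, ← Matrix.mul_assoc, P.d2d1, Matrix.zero_mul]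
  have hρ1 : ∀ x : Fin n2 → ℤ[Γ], dS s (x ᵥ* (P.d2 * a)) = 0 := fun x => by
    rw [dS_eq, vecMul_vecMul, hρ0, vecMul_zero]; rfl
  let ρ : Fin n2 → LinearMap.ker (dS s) := fun j => ⟨(P.d2 * a) j, by
    rw [LinearMap.mem_ker, dS_row, hρ0]; rfl⟩
  have hlc : ∀ (A : Type) [AddCommGroup A] [Module ℤ[Γ] A]
      (f : LinearMap.ker (dS s) →ₗ[ℤ[Γ]] A) (x : Fin n2 → ℤ[Γ]),
      Fintype.linearCombination ℤ[Γ] (f ∘ ρ) x = f ⟨x ᵥ* (P.d2 * a), hρ1 x⟩ := by
    intro A _ _ f x
    simp only [Fintype.linearCombination_apply, Function.comp_apply, ← map_smul, ← map_sum]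
    congr 1
    apply Subtype.ext
    simp only [AddSubmonoidClass.coe_finsetSum, SetLike.val_smul, ρ]
    exact (vecMul_eq_sum_smul _ _).symm
  have hrow : ∀ (A : Type) [AddCommGroup A] [Module ℤ[Γ] A]
      (f : LinearMap.ker (dS s) →ₗ[ℤ[Γ]] A) {m : Type} (Z : Matrix m (Fin n2) ℤ[Γ]) (i : m),
      cact Z (f ∘ ρ) i = f ⟨Z i ᵥ* (P.d2 * a), hρ1 _⟩ := fun A _ _ f m Z i => by
    rw [← hlc, Fintype.linearCombination_apply]; rfl
  have hy3 : ∀ (A : Type) [AddCommGroup A] [Module ℤ[Γ] A]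
      (f : LinearMap.ker (dS s) →ₗ[ℤ[Γ]] A), cact (tc w P'.d1) (f ∘ ρ) = 0 := fun A _ _ f => by
    funext i
    rw [hrow, Pi.zero_apply, ← map_zero f]
    congr 1
    apply Subtype.ext
    simp only [row_vecMul, ← Matrix.mul_assoc, h32, Matrix.zero_mul]
    rfl
  have hye : ∀ (A : Type) [AddCommGroup A] [Module ℤ[Γ] A]
      (f : LinearMap.ker (dS s) →ₗ[ℤ[Γ]] A), cact (tc w P'.e1) (f ∘ ρ) = f ∘ ρ := fun A _ _ f => by
    funext i
    rw [hrow, Function.comp_apply]
    congr 1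
    apply Subtype.ext
    simp only [row_vecMul, ← Matrix.mul_assoc, he2, ρ]
  have hbd : ∀ (A : Type) [AddCommGroup A] [Module ℤ[Γ] A] (u : Fin n1 → A),
      cact (tc w a') (cact P.d2 u) ∈ Bd A w s := fun A _ _ u => by
    rw [← cact_mul, ← hd2, tc_mul]
    exact cact_tc_mem_Bd w s _ (by
      rw [Matrix.mul_assoc, h1', ← Matrix.mul_assoc, P'.d2d1, Matrix.zero_mul]) u
  have hvb : ∀ v : LinearMap.ker (dS s), ∃ x, x ᵥ* P.d2 = v.1 ᵥ* b := fun v =>
    P.ex1 _ (by rw [vecMul_vecMul, h3]) (by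
      rw [vecMul_vecMul, h2, ← vecMul_vecMul]
      have : v.1 ᵥ* πc s = 0 := funext fun _ => (dS_eq s v).symm.trans v.2
      rw [this, zero_vecMul])
  refine ⟨⟨n2, ρ, tc w a', fun A _ _ f => ?_, fun A _ _ f => ⟨fun h => ?_, fun ⟨F, hF⟩ => ?_⟩,
    fun A _ _ z hz => ?_⟩⟩
  · rw [cyc_iff, ← cact_mul, tc_mul, h1', ← tc_mul, cact_mul, hy3, map_zero]
  · have h6 : ∀ z ∈ Bd A w s, ∃ u, cact (tc w b') z = cact P.d2 u := by
      intro z hz
      induction hz using AddSubgroup.closure_induction with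
      | mem z hz =>
        obtain ⟨y, v, hv, rfl⟩ := hz
        obtain ⟨t, ht⟩ := P'.ex1 (v ᵥ* b') (by rw [vecMul_vecMul, h3']) (by
          rw [vecMul_vecMul, h2', ← vecMul_vecMul]
          have : v ᵥ* πc s = 0 := funext fun _ => (dS_eq s v).symm.trans hv
          rw [this, zero_vecMul])
        exact ⟨ract w y t, by rw [cact_tc_ract, ← ht, ← cact_tc_ract, hd2]⟩
      | zero => exact ⟨0, by rw [map_zero, map_zero]⟩
      | add x y _ _ hx hy =>
        obtain ⟨u, hu⟩ := hx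
        obtain ⟨u', hu'⟩ := hy
        exact ⟨u + u', by rw [map_add, map_add, hu, hu']⟩
      | neg x _ hx =>
        obtain ⟨u, hu⟩ := hx
        exact ⟨-u, by rw [map_neg, map_neg, hu]⟩
    obtain ⟨u, hu⟩ := h6 _ h
    have h7 : f ∘ ρ = cact P.d2 (u + cact (tc w τ') (f ∘ ρ)) := by
      conv_lhs => rw [← hye A f, h4', tc_add, tc_add, cact_add, cact_add, ← tc_mul, ← tc_mul,
        ← tc_mul, cact_mul, cact_mul, cact_mul, hy3, map_zero, add_zero, hu, hd2]
      rw [map_add]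
    let H := 1 - b * a + πc s * c
    refine ⟨Fintype.linearCombination ℤ[Γ] (u + cact (tc w τ') (f ∘ ρ)) ∘ₗ b.vecMulLinear +
      f ∘ₗ LinearMap.codRestrict _ H.vecMulLinear (fun v => ?_), fun v => ?_⟩
    · rw [LinearMap.mem_ker, vecMulLinear_apply, dS_eq, vecMul_vecMul, h5, vecMul_zero]; rfl
    · obtain ⟨x, hx⟩ := hvb v
      rw [LinearMap.add_apply, LinearMap.comp_apply, vecMulLinear_apply, ← hx, ← lc_cact, ← h7, hlc,
        LinearMap.comp_apply, ← map_add]
      congr 1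
      apply Subtype.ext
      have : v.1 ᵥ* πc s = 0 := funext fun _ => (dS_eq s v).symm.trans v.2
      simp only [Submodule.coe_add, LinearMap.codRestrict_apply, vecMulLinear_apply, H, vecMul_add,
        vecMul_sub, vecMul_one, ← vecMul_vecMul, this, zero_vecMul, hx]
      abel
  · have : f ∘ ρ = cact P.d2 fun l => F (a l) := by
      funext j
      rw [Function.comp_apply, ← hF, cact_apply]
      simp only [← map_smul, ← map_sum, ρ]
      rw [← row_vecMul, vecMul_eq_sum_smul]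
    rw [this]
    exact hbd A _
  · let y := cact (tc w b') z
    have hz' := (cyc_iff w s z).1 hz
    have hy1 : cact (tc w P'.d1) y = 0 := by
      simp only [y]
      rw [← cact_mul, tc_mul, h2', ← tc_mul, cact_mul, hz', map_zero]
    have hy2 : cact (tc w P'.e1) y = y := by
      simp only [y]
      rw [← cact_mul, tc_mul, h3']
    let η := Fintype.linearCombination ℤ[Γ] y
    have hη : LinearMap.ker P.d2.vecMulLinear ≤ LinearMap.ker η := fun x hx => by
      obtain ⟨t, ht⟩ := ex2 x hx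
      change Fintype.linearCombination ℤ[Γ] y x = 0
      rw [← hy2, lc_cact, ← ht, ← lc_cact, hy1]
      simp [Fintype.linearCombination_apply]
    let η' : LinearMap.range P.d2.vecMulLinear →ₗ[ℤ[Γ]] A :=
      (LinearMap.ker P.d2.vecMulLinear).liftQ η hη ∘ₗ P.d2.vecMulLinear.quotKerEquivRange.symm.toLinearMap
    have hη' : ∀ x h, η' ⟨x ᵥ* P.d2, h⟩ = η x := fun x h => by
      have := P.d2.vecMulLinear.quotKerEquivRange_symm_apply_image x h
      simp only [η', LinearMap.comp_apply, LinearEquiv.coe_coe]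
      erw [this]
      rfl
    let f : LinearMap.ker (dS s) →ₗ[ℤ[Γ]] A := η' ∘ₗ LinearMap.codRestrict _
      (b.vecMulLinear ∘ₗ Submodule.subtype _) hvb
    refine ⟨f, ?_⟩
    have h6 : P.d2 * a * b = (1 - P.d2 * τ) * P.d2 := by
      have := congrArg (P.d2 * ·) h4
      simp only [Matrix.mul_add, P.d2e1, ← Matrix.mul_assoc, P.d2d1, Matrix.zero_mul,
        add_zero] at this
      rw [Matrix.sub_mul, Matrix.one_mul, eq_sub_iff_add_eq, ← this]
    have h7 : f ∘ ρ = y - cact P.d2 (cact τ y) := by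
      funext j
      let Z : Matrix (Fin n2) (Fin n2) ℤ[Γ] := 1 - P.d2 * τ
      have h8 : (ρ j).1 ᵥ* b = Z j ᵥ* P.d2 := by
        simp only [ρ, row_vecMul, h6, Z]
      have h9 : f (ρ j) = η' ⟨Z j ᵥ* P.d2, ⟨_, rfl⟩⟩ := congrArg η' (Subtype.ext h8)
      have h10 : y - cact P.d2 (cact τ y) = cact Z y := by
        rw [cact_sub, cact_one, cact_mul]
      rw [Function.comp_apply, h9, hη', h10]
      exact Fintype.linearCombination_apply _ _ _
    have h8 : cact (tc w a') y - z = -cact (tc w (1 - b' * a' + πc s * c')) z := by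
      simp only [y]
      rw [tc_add, tc_sub, cact_add, cact_sub, tc_one, cact_one, ← tc_mul, ← tc_mul, cact_mul,
        cact_mul, hz', map_zero]
      abel
    rw [h7, map_sub, sub_right_comm, h8]
    exact AddSubgroup.sub_mem _ (AddSubgroup.neg_mem _ (cact_tc_mem_Bd w s _ h5' z)) (hbd A _)

end

end Pool.Agent.P.MP_5ee5b4_al
end

-- part Pool.Agent.P.MP_5ee5b4_al.Dualize
section

/-! Linear duality for twisted permutation modules; cocycles with trivial coefficients. -/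

namespace Pool.Agent.P.MP_5ee5b4_al

open Pool.Agent.P.MP_6e40fc_al
open scoped MonoidAlgebra

noncomputable section

set_option linter.unusedSectionVars false

variable {Γ : Type} [Group Γ] {ι : Type} [Fintype ι] [DecidableEq ι] {p : ℕ} [Fact p.Prime]
  (w : Γ →* ℤˣ) (K : Subgroup Γ) {B B' : Type} [AddCommGroup B] [Module (ZMod p) B]
  [AddCommGroup B'] [Module (ZMod p) B']

/-- connectedness outside a set -/
def Rel (S U : Set Γ) (x y : Γ) : Prop :=
  ∀ f : Γ → Prop, (∀ z, ∀ s ∈ S, z ∉ U → z * s ∉ U → (f z ↔ f (z * s))) → (f x ↔ f y)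

/-- one filtered end -/
def OE (N : Subgroup Γ) (S : Set Γ) : Prop :=
  ∀ B : Set (Γ ⧸ N), B.Finite → ∃ B' : Set (Γ ⧸ N), B'.Finite ∧ ∀ x y : Γ, (x : Γ ⧸ N) ∉ B' →
    (y : Γ ⧸ N) ∉ B' → Rel S {z | (z : Γ ⧸ N) ∈ B} x y

variable (p) in
/-- the twisted action on finitely supported functions -/
def Tw : ℤ[Γ] →+ (((Γ ⧸ K) →₀ ZMod p) →ₗ[ZMod p] ((Γ ⧸ K) →₀ ZMod p)) :=
  extAdd fun g => (w g : ℤ) • Finsupp.lmapDomain (ZMod p) (ZMod p) (g • ·)

variable {K} in
/-- the associated function on the group -/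
def til2 (φ : (Γ ⧸ K) →₀ ZMod p) (x : Γ) : ZMod p := (w x : ℤ) • φ (x⁻¹ : Γ)

variable {K}

theorem ww (x : Γ) {M : Type} [AddCommGroup M] (a : M) : (w x : ℤ) • (w x : ℤ) • a = a := by
  rw [smul_smul, ← Units.val_mul, Int.units_mul_self, Units.val_one, one_smul]

theorem til2_add (φ ψ : (Γ ⧸ K) →₀ ZMod p) (x : Γ) :
    til2 w (φ + ψ) x = til2 w φ x + til2 w ψ x := by simp [til2]

theorem til2_smul (a : ZMod p) (φ : (Γ ⧸ K) →₀ ZMod p) (x : Γ) :
    til2 w (a • φ) x = a * til2 w φ x := by simp [til2, mul_left_comm]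

theorem til2_sum {α : Type} (t : Finset α) (φ : α → (Γ ⧸ K) →₀ ZMod p) (x : Γ) :
    til2 w (∑ a ∈ t, φ a) x = ∑ a ∈ t, til2 w (φ a) x := by
  simp [til2, Finsupp.finsetSum_apply, Finset.mul_sum]

theorem til2_Tw (r : ℤ[Γ]) (φ : (Γ ⧸ K) →₀ ZMod p) (x : Γ) :
    til2 w (Tw p w K r φ) x = extAdd (fun y => til2 w φ (x * y)) r := by
  induction r using zg_induction with
  | ho g =>
    have e : ((x⁻¹ : Γ) : Γ ⧸ K) = g • (((x * g)⁻¹ : Γ) : Γ ⧸ K) := by
      rw [MulAction.Quotient.smul_mk]; simp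
    rw [Tw, extAdd_o, extAdd_o, til2, til2, LinearMap.smul_apply, Finsupp.smul_apply,
      Finsupp.lmapDomain_apply, e, Finsupp.mapDomain_apply (MulAction.injective g), map_mul,
      Units.val_mul, mul_smul]
  | hadd a b ha hb => rw [map_add, map_add, LinearMap.add_apply, til2_add, ha, hb]
  | hsmul n a ha =>
    rw [map_zsmul, map_zsmul, ← ha, LinearMap.smul_apply, til2, til2, Finsupp.smul_apply, smul_comm]

theorem til2_inj {φ ψ : (Γ ⧸ K) →₀ ZMod p} (h : ∀ x, til2 w φ x = til2 w ψ x) : φ = ψ := by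
  ext q
  obtain ⟨x, rfl⟩ := QuotientGroup.mk_surjective q
  have := congrArg ((w x⁻¹ : ℤ) • ·) (h x⁻¹)
  simpa only [til2, ww, inv_inv] using this

theorem til2_equiv (φ : (Γ ⧸ K) →₀ ZMod p) (k : K) (x : Γ) :
    til2 w φ (k * x) = (w k : ℤ) • til2 w φ x := by
  rw [til2, til2, map_mul, Units.val_mul, mul_smul, mul_inv_rev,
    QuotientGroup.mk_mul_of_mem _ (K.inv_mem k.2)]

theorem exists_til2 (F : Γ → ZMod p) (hF : ∀ (k : K) x, F (k * x) = (w k : ℤ) • F x)
    (hf : {q : Γ ⧸ K | F q.out⁻¹ ≠ 0}.Finite) :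
    ∃ v : (Γ ⧸ K) →₀ ZMod p, ∀ x, til2 w v x = F x := by
  refine ⟨Finsupp.ofSupportFinite (fun q => (w q.out⁻¹ : ℤ) • F q.out⁻¹)
    (hf.subset fun q hq h => hq (by simp only [h, smul_zero])), fun x => ?_⟩
  obtain ⟨k, hk⟩ := QuotientGroup.mk_out_eq_mul K x⁻¹
  rw [til2, Finsupp.ofSupportFinite_coe]
  simp only [hk, mul_inv_rev, inv_inv]
  rw [← Subgroup.coe_inv, hF, map_mul, Units.val_mul, mul_comm, mul_smul, ww, ww]

/-- an additive map between modules with trivial action -/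
def trivMap (H : Type) [Group H] {X Y : Type} [AddCommGroup X] [AddCommGroup Y] (q : X →+ Y) :
    Triv H X →ₗ[ℤ[H]] Triv H Y := mkLin q fun g a => by rw [Triv.o_smul, Triv.o_smul]

theorem Co.inv_triv {X : Type} [AddCommGroup X] (f : Co K.subtype (Triv K X)) (k : K) (x : Γ) :
    f (k * x) = f x := (f.equiv k x).trans (Triv.o_smul _ _)

variable (p) in
/-- the pairing -/
def pair (f : Co K.subtype (Triv K B)) : ((Γ ⧸ K) →₀ ZMod p) →ₗ[ZMod p] B :=
  Finsupp.linearCombination (ZMod p) fun q => (f q.out⁻¹ : B)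

theorem pair_single (f : Co K.subtype (Triv K B)) (x : Γ) (c : ZMod p) :
    pair p f (Finsupp.single (x⁻¹ : Γ) c) = c • (show B from f x) := by
  obtain ⟨k, hk⟩ := QuotientGroup.mk_out_eq_mul K x⁻¹
  rw [pair, Finsupp.linearCombination_single, hk, mul_inv_rev, inv_inv, ← Subgroup.coe_inv,
    Co.inv_triv]

theorem pair_ext {L L' : ((Γ ⧸ K) →₀ ZMod p) →ₗ[ZMod p] B}
    (h : ∀ x : Γ, L (Finsupp.single (x⁻¹ : Γ) 1) = L' (Finsupp.single (x⁻¹ : Γ) 1)) : L = L' := by
  ext q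
  obtain ⟨x, rfl⟩ := QuotientGroup.mk_surjective q
  simpa using h x⁻¹

theorem pair_add (f g : Co K.subtype (Triv K B)) : pair p (f + g) = pair p f + pair p g :=
  pair_ext fun x => by rw [LinearMap.add_apply, pair_single, pair_single, pair_single]; simp; rfl

theorem pair_zero : pair p (0 : Co K.subtype (Triv K B)) = 0 :=
  pair_ext fun x => by rw [pair_single]; simp; rfl

theorem pair_sum {α : Type} (t : Finset α) (f : α → Co K.subtype (Triv K B)) :
    pair p (∑ a ∈ t, f a) = ∑ a ∈ t, pair p (f a) :=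
  map_sum (AddMonoidHom.mk' (pair p) pair_add) f t

theorem pair_zsmul (n : ℤ) (f : Co K.subtype (Triv K B)) : pair p (n • f) = n • pair p f :=
  map_zsmul (AddMonoidHom.mk' (pair p) pair_add) n f

theorem pair_conj (r : ℤ[Γ]) (f : Co K.subtype (Triv K B)) :
    pair p (conj w r • f) = pair p f ∘ₗ Tw p w K r := by
  induction r using zg_induction with
  | ho g =>
    refine pair_ext fun x => ?_
    have e : g • ((x⁻¹ : Γ) : Γ ⧸ K) = (((x * g⁻¹)⁻¹ : Γ) : Γ ⧸ K) := by
      rw [MulAction.Quotient.smul_mk]; simp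
    rw [conj_o, smul_assoc, pair_zsmul, LinearMap.smul_apply, pair_single, Co.o_smul,
      LinearMap.comp_apply, Tw, extAdd_o, LinearMap.smul_apply, map_zsmul, Finsupp.lmapDomain_apply,
      Finsupp.mapDomain_single, e, pair_single]
  | hadd a b ha hb => rw [map_add, map_add, add_smul, pair_add, ha, hb, LinearMap.comp_add]
  | hsmul n a ha => rw [map_zsmul, map_zsmul, smul_assoc, pair_zsmul, ha, LinearMap.comp_smul]

theorem pair_map (q : B →ₗ[ZMod p] B') (f : Co K.subtype (Triv K B)) :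
    pair p (Co.map _ (trivMap K q.toAddMonoidHom) f) = q ∘ₗ pair p f :=
  pair_ext fun x => by
    rw [LinearMap.comp_apply, pair_single, pair_single, one_smul, one_smul]; rfl

theorem dualize {s : ι → Γ} (R : Finset (ι → ℤ[Γ])) (hR : ∀ r ∈ R, dS s r = 0)
    (z : ι → Co K.subtype (Triv K B))
    (hz : ∀ φ : ι → (Γ ⧸ K) →₀ ZMod p, (∀ r ∈ R, ∑ i, Tw p w K (r i) (φ i) = 0) →
      ∑ i, pair p (z i) (φ i) = 0) : z ∈ Bd _ w s := by
  classical
  let ζ : (ι → (Γ ⧸ K) →₀ ZMod p) →ₗ[ZMod p] B := ∑ i, pair p (z i) ∘ₗ LinearMap.proj i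
  let δ : (ι → (Γ ⧸ K) →₀ ZMod p) →ₗ[ZMod p] (R → (Γ ⧸ K) →₀ ZMod p) :=
    LinearMap.pi fun r => ∑ i, Tw p w K (r.1 i) ∘ₗ LinearMap.proj i
  have hδ : ∀ φ r, δ φ r = ∑ i, Tw p w K (r.1 i) (φ i) := fun φ r => by
    simp [δ, LinearMap.sum_apply]
  have hζ : ∀ φ, ζ φ = ∑ i, pair p (z i) (φ i) := fun φ => by simp [ζ, LinearMap.sum_apply]
  have hk : LinearMap.ker δ ≤ LinearMap.ker ζ := fun φ h =>
    (hζ φ).trans (hz φ fun r hr => (hδ φ ⟨r, hr⟩).symm.trans (congrFun h _))
  obtain ⟨η, hη⟩ := LinearMap.exists_extend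
    ((LinearMap.ker δ).liftQ ζ hk ∘ₗ δ.quotKerEquivRange.symm.toLinearMap)
  have hη' : ∀ φ, η (δ φ) = ζ φ := fun φ => by
    have h1 := LinearMap.congr_fun hη ⟨δ φ, φ, rfl⟩
    have h2 := δ.quotKerEquivRange_symm_apply_image φ ⟨φ, rfl⟩
    simp only [LinearMap.comp_apply, LinearEquiv.coe_coe, Submodule.subtype_apply] at h1
    rw [h1]
    erw [h2]
    rfl
  let u : R → Co K.subtype (Triv K B) := fun r =>
    Co.mk (fun x => η (Pi.single r (Finsupp.single (x⁻¹ : Γ) 1))) fun k x => by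
      rw [Triv.o_smul, mul_inv_rev, Subgroup.coe_subtype,
        QuotientGroup.mk_mul_of_mem _ (K.inv_mem k.2)]
  have hu : ∀ r, pair p (u r) = η ∘ₗ LinearMap.single (ZMod p) _ r := fun r =>
    pair_ext fun x => by rw [pair_single, one_smul]; rfl
  have : z = ∑ r : R, ract w (u r) r.1 := by
    funext i
    have h1 : pair p (z i) = pair p ((∑ r : R, ract w (u r) r.1) i) := by
      refine LinearMap.ext fun φ => ?_
      have h2 : ζ (Pi.single i φ) = pair p (z i) φ := by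
        rw [hζ, Finset.sum_eq_single i] <;> simp +contextual
      have h3 : δ (Pi.single i φ) = ∑ r : R, Pi.single r (Tw p w K (r.1 i) φ) := by
        funext r
        rw [hδ, Finset.sum_eq_single i, Finset.sum_apply, Finset.sum_eq_single r] <;>
          simp +contextual [eq_comm]
      rw [Finset.sum_apply, pair_sum, LinearMap.sum_apply, ← h2, ← hη', h3, map_sum]
      refine Finset.sum_congr rfl fun r _ => ?_
      rw [ract, pair_conj, hu]
      rfl
    refine Co.ext fun x => ?_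
    have := LinearMap.congr_fun h1 (Finsupp.single (x⁻¹ : Γ) 1)
    rwa [pair_single, pair_single, one_smul, one_smul] at this
  rw [this]
  exact AddSubgroup.sum_mem _ fun r _ => ract_mem_Bd w s _ (hR _ r.2)

theorem Cyc.pair {s : ι → Γ} {z : ι → Co K.subtype (Triv K B)} (hz : Cyc w s z)
    (v : (Γ ⧸ K) →₀ ZMod p) : ∑ i, pair p (z i) (Tw p w K (o (s i) - 1) v) = 0 := by
  have := congrArg (fun f => MP_5ee5b4_al.pair p f v) hz
  simpa only [pair_sum, pair_conj, pair_zero, LinearMap.sum_apply, LinearMap.comp_apply,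
    LinearMap.zero_apply] using this

theorem integral_til2 {s : ι → Γ} (hs : Subgroup.closure (Set.range s) = ⊤)
    (R : Finset (ι → ℤ[Γ])) (hR : Submodule.span ℤ[Γ] (R : Set (ι → ℤ[Γ])) = LinearMap.ker (dS s))
    (φ : ι → (Γ ⧸ K) →₀ ZMod p) (hφ : ∀ r ∈ R, ∑ i, Tw p w K (r i) (φ i) = 0) :
    ∃ F : Γ → ZMod p, F 1 = 0 ∧ ∀ x i, F (x * s i) = F x + til2 w (φ i) x :=
  exists_integral hs _ R hR fun r hr x => by
    have := congrArg (fun ψ => til2 w ψ x) (hφ r hr)
    simp only [til2_sum, til2_Tw] at this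
    rw [this, til2, Finsupp.zero_apply, smul_zero]

theorem const_of_edges' {s : ι → Γ} (hs : Subgroup.closure (Set.range s) = ⊤) {α : Type}
    (F : Γ → α) (h : ∀ x i, F (x * s i) = F x) (x y : Γ) : F x = F y := by
  have := fun z => const_of_edges hs (fun z => F z = F y) (by
    rintro z _ ⟨i, rfl⟩
    rw [h]) z
  exact (this x).2 ((this y).1 rfl)

theorem extAdd_zero {M : Type} [AddCommGroup M] (r : ℤ[Γ]) : extAdd (fun _ => (0 : M)) r = 0 := by
  induction r using zg_induction with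
  | ho g => rw [extAdd_o]
  | hadd a b ha hb => rw [map_add, ha, hb, add_zero]
  | hsmul n a ha => rw [map_zsmul, ha, smul_zero]

theorem h1_vanish {s : ι → Γ} (hs : Subgroup.closure (Set.range s) = ⊤)
    (R : Finset (ι → ℤ[Γ])) (hR : Submodule.span ℤ[Γ] (R : Set (ι → ℤ[Γ])) = LinearMap.ker (dS s))
    (N : Subgroup Γ) [N.Normal] [Infinite (Γ ⧸ N)] (hN : OE N (Set.range s)) (hK : K ≤ N)
    (φ : ι → (Γ ⧸ K) →₀ ZMod p) (hφ : ∀ r ∈ R, ∑ i, Tw p w K (r i) (φ i) = 0) :
    ∃ v, ∀ i, φ i = Tw p w K (o (s i) - 1) v := by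
  obtain ⟨F, -, hF⟩ := integral_til2 w hs R hR φ hφ
  have hsupp : ∀ i x, til2 w (φ i) x ≠ 0 → ((x⁻¹ : Γ) : Γ ⧸ K) ∈ (φ i).support := fun i x h =>
    Finsupp.mem_support_iff.2 fun h' => h (by rw [til2, h', smul_zero])
  obtain ⟨B', hB', hrel⟩ := hN (⋃ i, (fun q : Γ ⧸ K => ((q.out⁻¹ : Γ) : Γ ⧸ N)) '' (φ i).support)
    (Set.finite_iUnion fun i => (Finset.finite_toSet _).image _)
  obtain ⟨q0, hq0⟩ := hB'.infinite_compl.nonempty
  obtain ⟨x0, rfl⟩ := QuotientGroup.mk_surjective q0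
  let F0 : Γ → ZMod p := fun x => F x - F x0
  have hF0 : ∀ x i, F0 (x * s i) = F0 x + til2 w (φ i) x := fun x i => by
    simp only [F0, hF]; ring
  have h1 : ∀ x : Γ, (x : Γ ⧸ N) ∉ B' → F0 x = 0 := fun x hx =>
    (hrel x x0 hx hq0 (fun z => F0 z = 0) (by
      rintro z _ ⟨i, rfl⟩ hz -
      have : til2 w (φ i) z = 0 := by
        by_contra h
        refine hz (Set.mem_iUnion.2 ⟨i, _, hsupp i z h, ?_⟩)
        obtain ⟨k, hk⟩ := QuotientGroup.mk_out_eq_mul K z⁻¹
        simp only [hk, mul_inv_rev, inv_inv]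
        rw [QuotientGroup.mk_mul, (QuotientGroup.eq_one_iff _).2 (N.inv_mem (hK k.2)), one_mul]
      rw [hF0, this, add_zero])).2 (sub_self _)
  have h2 : ∀ (k : K) x, F0 (k * x) = (w k : ℤ) • F0 x := fun k x => by
    have := const_of_edges' hs (fun x => F0 (k * x) - (w k : ℤ) • F0 x) (fun x i => by
      simp only [← mul_assoc, hF0, til2_equiv, smul_add]; ring) x x0
    rwa [h1 x0 hq0, h1 (k * x0) (by
      rwa [QuotientGroup.mk_mul, (QuotientGroup.eq_one_iff _).2 (hK k.2), one_mul]), smul_zero,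
      sub_zero, sub_eq_zero] at this
  choose v hv using exists_dS hs
  obtain ⟨u, hu⟩ := exists_til2 w F0 h2 ((hB'.biUnion fun b _ => Set.finite_iUnion fun i =>
    (Finset.finite_toSet (v (b.out⁻¹ * x0) i).coeff.support).image2 (fun y (q : Γ ⧸ K) => y • q)
      (Finset.finite_toSet (φ i).support)).subset fun q hq => by
    set x := q.out⁻¹ with hx
    have hb : (x : Γ ⧸ N) ∈ B' := by_contra fun h => hq (h1 x h)
    refine Set.mem_biUnion hb ?_
    by_contra hcon
    have h3 := extAdd_dS (fun y => F0 (x * y)) s (v ((x : Γ ⧸ N).out⁻¹ * x0))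
    rw [hv, map_sub, ← o_one, extAdd_o, extAdd_o, mul_one, h1 _ (by
      simpa [QuotientGroup.mk_mul] using hq0), Finset.sum_eq_zero fun i _ => ?_, zero_sub,
      neg_eq_zero] at h3
    · exact hq h3
    · rw [extAdd_congr (g := fun _ => 0) fun y hy => ?_]
      · exact extAdd_zero _
      · rw [← mul_assoc, hF0, add_sub_cancel_left]
        by_contra h
        refine hcon (Set.mem_iUnion.2 ⟨i, y, hy, _, hsupp i _ h, ?_⟩)
        simp [hx])
  refine ⟨u, fun i => til2_inj w fun x => ?_⟩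
  rw [til2_Tw, map_sub, ← o_one, extAdd_o, extAdd_o, hu, hu, mul_one, hF0, add_sub_cancel_left]

variable (p) in
include p in
theorem h1_triv {s : ι → Γ} (hs : Subgroup.closure (Set.range s) = ⊤)
    (hfg : (LinearMap.ker (dS s)).FG) (N : Subgroup Γ) [N.Normal] [Infinite (Γ ⧸ N)]
    (hN : OE N (Set.range s)) (hK : K ≤ N) (z : ι → Co K.subtype (Triv K B)) (hz : Cyc w s z) :
    z ∈ Bd _ w s := by
  obtain ⟨R, hR⟩ := hfg
  refine dualize (p := p) w R (fun r hr => ?_) z fun φ hφ => ?_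
  · exact (hR ▸ Submodule.subset_span hr : r ∈ LinearMap.ker (dS s))
  · obtain ⟨v, hv⟩ := h1_vanish w hs R hR N hN hK φ hφ
    simp only [hv]
    exact hz.pair w v

end

end Pool.Agent.P.MP_5ee5b4_al
end

-- part Pool.Agent.P.MP_5ee5b4_al.Coc
section

/-! Two-cocycles with trivial coefficients. -/

namespace Pool.Agent.P.MP_5ee5b4_al

open Pool.Agent.P.MP_6e40fc_al
open scoped MonoidAlgebra

noncomputable section

set_option linter.unusedSectionVars false

variable {Γ : Type} [Group Γ] {ι : Type} [Fintype ι] [DecidableEq ι] {H V : Type} [Group H]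
  [AddCommGroup V]

/-- two-cocycles with trivial action -/
def IsCoc (c : H → H → V) : Prop := ∀ a b d, c a b + c (a * b) d = c a (b * d) + c b d

/-- coboundaries -/
def IsCob (c : H → H → V) : Prop := ∃ b : H → V, ∀ x y, c x y = b x + b y - b (x * y)

/-- central extensions by a group of prime order split -/
def CL (H : Type) [Group H] : Prop :=
  ∀ (p : ℕ) [Fact p.Prime] (c : H → H → ZMod p), IsCoc c → IsCob c

/-- homomorphisms to an additive group -/
def IsHom (f : H → V) : Prop := ∀ a b, f (a * b) = f a + f b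

/-- forget the trivial action -/
def un (H X : Type) [Group H] [AddCommGroup X] : Triv H X →+ X := AddMonoidHom.id X

theorem extAdd_sub {M : Type} [AddCommGroup M] (f g : Γ → M) (r : ℤ[Γ]) :
    extAdd (fun y => f y - g y) r = extAdd f r - extAdd g r := by
  induction r using zg_induction with
  | ho g => simp only [extAdd_o]
  | hadd a b ha hb => simp only [map_add, ha, hb]; abel
  | hsmul n a ha => simp only [map_zsmul, ha, smul_sub]

theorem cocycle_lam {s : ι → Γ} (hs : Subgroup.closure (Set.range s) = ⊤) (j : H →* Γ)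
    (hj : Function.Injective j) (c : H → H → V) (hc : IsCoc c) :
    ∃ f : LinearMap.ker (dS s) →ₗ[ℤ[Γ]] Co j (Triv H V), ∀ (V' : Type) [AddCommGroup V']
      (q : V →+ V'), Extends (Co.map j (trivMap H q) ∘ₗ f) → IsCob fun x y => q (c x y) := by
  obtain ⟨σ⟩ := exists_sec hj
  let D : ι → Γ → V := fun i x => c (σ.κ x) ((σ.κ x)⁻¹ * σ.κ (x * s i))
  let L : (ι → ℤ[Γ]) → Γ → V := fun v x => ∑ i, extAdd (fun y => D i (x * y)) (v i)
  have hL1 : ∀ v v' x, L (v + v') x = L v x + L v' x := fun v v' x => by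
    simp [L, Finset.sum_add_distrib]
  have hL2 : ∀ g v x, L (o g • v) x = L v (x * g) := fun g v x => by
    simp only [L, Pi.smul_apply, smul_eq_mul, extAdd_o_mul, mul_assoc]
  have hL3 : ∀ v k x, L v (j k * x) - L v x = extAdd (fun y => c k (σ.κ (x * y))) (dS s v) := by
    intro v k x
    rw [extAdd_dS]
    simp only [L, ← Finset.sum_sub_distrib, ← extAdd_sub]
    refine Finset.sum_congr rfl fun i _ => congrArg (fun f => extAdd f (v i)) (funext fun y => ?_)
    have := hc k (σ.κ (x * y)) ((σ.κ (x * y))⁻¹ * σ.κ (x * y * s i))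
    rw [mul_inv_cancel_left] at this
    simp only [D, mul_assoc, σ.κ_mul, mul_inv_rev, inv_mul_cancel_left] at this ⊢
    rw [sub_eq_sub_iff_add_eq_add, add_comm, this, add_comm]
  let f0 : LinearMap.ker (dS s) → Co j (Triv H V) := fun v => Co.mk (L v) fun k x => by
    rw [Triv.o_smul]
    exact sub_eq_zero.1 ((hL3 v k x).trans (by rw [show dS s v = 0 from v.2]; exact map_zero _))
  refine ⟨mkLin (AddMonoidHom.mk' f0 fun a b => Co.ext fun x => hL1 _ _ x) fun g a =>
    Co.ext fun x => by rw [Co.o_smul]; exact hL2 g a x, fun V' _ q ⟨F, hF⟩ => ?_⟩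
  have hF' : ∀ v, dS s v = 0 → ∀ x, un H V' (F v x) = q (L v x) := fun v hv x =>
    congrArg (fun f => f x) (hF ⟨v, hv⟩)
  choose v hv using exists_dS hs
  let E : Γ → Γ → V' := fun g x => q (L (v g) x) - un H V' (F (v g) x)
  have hE : ∀ g h x, E (g * h) x = E g x + E h (x * g) := fun g h x => by
    have h1 := hF' (v (g * h) - (v g + o g • v h)) (by
      rw [map_sub, map_add, map_smul, hv, hv, hv, smul_eq_mul, mul_sub, o_mul]; simp) x
    have h2 := hL1 (v (g * h) - (v g + o g • v h)) (v g + o g • v h) x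
    rw [sub_add_cancel, hL1, hL2] at h2
    rw [map_sub, map_add, map_smul, Co.sub_apply, Co.add_apply, Co.o_smul, map_sub, map_add] at h1
    simp only [E, h2, map_add, ← h1]
    abel
  have h11 : ∀ k, c k 1 = c 1 1 := fun k => by simpa using hc k 1 1
  refine ⟨fun k => q (c 1 1) - E (j k) 1, fun x y => ?_⟩
  have h3 := hL3 (v (j y)) x 1
  rw [hv, map_sub, ← o_one, extAdd_o, extAdd_o, one_mul, one_mul, σ.κ_j, σ.κ_one, h11,
    mul_one] at h3
  have h4 : F (v (j y)) (j x) = F (v (j y)) 1 := by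
    have := (F (v (j y))).equiv x 1
    rwa [Triv.o_smul, mul_one] at this
  have h5 : E (j y) (j x) = E (j y) 1 + q (c x y) - q (c 1 1) := by
    simp only [E, h4, eq_add_of_sub_eq h3, map_add, map_sub]
    abel
  simp only [map_mul, hE, one_mul, h5]
  abel

theorem cact_map {m n A A' : Type} [Fintype n] [AddCommGroup A] [Module ℤ[Γ] A] [AddCommGroup A']
    [Module ℤ[Γ] A'] (g : A →ₗ[ℤ[Γ]] A') (X : Matrix m n ℤ[Γ]) (u : n → A) :
    cact X (g ∘ u) = g ∘ cact X u := by
  funext a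
  simp [cact_apply]

theorem DD.cl {w : Γ →* ℤˣ} {s : ι → Γ} (D : DD w s) (hs : Subgroup.closure (Set.range s) = ⊤)
    (hfg : (LinearMap.ker (dS s)).FG) (N : Subgroup Γ) [N.Normal] [Infinite (Γ ⧸ N)]
    (hN : OE N (Set.range s)) (K : Subgroup Γ) (hK : K ≤ N) : CL K := by
  intro p _ c hc
  obtain ⟨f, hf⟩ := cocycle_lam hs K.subtype Subtype.val_injective c hc
  exact hf _ (AddMonoidHom.id _) ((D.ext _ _).1 (h1_triv p w hs hfg N hN hK _ (D.cyc _ _)))

theorem DD.h2c {w : Γ →* ℤˣ} {s : ι → Γ} (D : DD w s) (hs : Subgroup.closure (Set.range s) = ⊤)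
    (hfg : (LinearMap.ker (dS s)).FG) (K : Subgroup Γ) [K.FiniteIndex] {p : ℕ} [Fact p.Prime]
    (hw : ∀ (k : K) (a : ZMod p), (w k : ℤ) • a = a) {d : ℕ}
    (χ : Fin d → K → ZMod p) (hχ0 : ∀ t, IsHom (χ t))
    (hχ : ∀ ψ : K → ZMod p, IsHom ψ → ∃ a : Fin d → ZMod p, ∀ k, ψ k = ∑ t, a t * χ t k)
    {V : Type} [AddCommGroup V] [Module (ZMod p) V] (c : K → K → V) (hc : IsCoc c) :
    ∃ v : Fin d → V, IsCob fun x y => (Submodule.span (ZMod p) (Set.range v)).mkQ (c x y) := by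
  obtain ⟨f, hf⟩ := cocycle_lam hs K.subtype Subtype.val_injective c hc
  obtain ⟨σ⟩ := exists_sec (j := K.subtype) Subtype.val_injective
  obtain ⟨R, hR⟩ := hfg
  have hσ : ∀ (k : K) x, σ.κ (k * x) = k * σ.κ x := σ.κ_mul
  choose φ hφ using fun (t : Fin d) (i : ι) => exists_til2 (K := K) w
    (fun x => χ t (σ.κ (x * s i)) - χ t (σ.κ x)) (fun k x => by
      rw [hw, mul_assoc, hσ, hσ, hχ0, hχ0]; ring) (Set.toFinite _)
  let z := cact D.X (f ∘ D.ρ)
  let v : Fin d → V := fun t => ∑ i, pair p (z i) (φ t i)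
  let q := (Submodule.span (ZMod p) (Set.range v)).mkQ
  refine ⟨v, hf _ q.toAddMonoidHom ((D.ext _ _).1 (dualize (p := p) w R (fun r hr => ?_) _
    fun ψ hψ => ?_))⟩
  · exact (hR ▸ Submodule.subset_span hr : r ∈ LinearMap.ker (dS s))
  · obtain ⟨F, hF1, hF⟩ := integral_til2 w hs R hR ψ hψ
    have h1 : ∀ (k : K) x, F (k * x) = F k + F x := fun k x => by
      have := const_of_edges' hs (fun x => F (k * x) - F x) (fun x i => by
        simp only [← mul_assoc, hF, til2_equiv, hw]; ring) x 1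
      rw [mul_one, hF1, sub_zero] at this
      exact eq_add_of_sub_eq this
    obtain ⟨a, ha⟩ := hχ (fun k => F k) fun k k' => h1 k k'
    obtain ⟨u, hu⟩ := exists_til2 (K := K) w (fun x => F x - ∑ t, a t * χ t (σ.κ x))
      (fun k x => by
        simp only [hw, h1, hσ, hχ0 _ k, mul_add, Finset.sum_add_distrib, ha]; ring)
      (Set.toFinite _)
    have h2 : ∀ i, ψ i = Tw p w K (o (s i) - 1) u + ∑ t, a t • φ t i := fun i =>
      til2_inj w fun x => by
        rw [til2_add, til2_Tw, map_sub, ← o_one, extAdd_o, extAdd_o, hu, hu, mul_one, hF, til2_sum]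
        simp only [til2_smul, hφ, mul_sub, Finset.sum_sub_distrib]
        ring
    have h3 : cact D.X ((Co.map K.subtype (trivMap K q.toAddMonoidHom) ∘ₗ f) ∘ D.ρ) =
        Co.map K.subtype (trivMap K q.toAddMonoidHom) ∘ z :=
      cact_map (Co.map K.subtype (trivMap K q.toAddMonoidHom)) D.X (f ∘ D.ρ)
    simp only [h3, Function.comp_apply, pair_map, LinearMap.comp_apply, ← map_sum]
    rw [Submodule.mkQ_apply, Submodule.Quotient.mk_eq_zero]
    simp only [h2, map_add, Finset.sum_add_distrib, map_sum, map_smul]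
    rw [(D.cyc _ f).pair w u, zero_add, Finset.sum_comm]
    simp only [← Finset.smul_sum]
    exact Submodule.sum_mem _ fun t _ => Submodule.smul_mem _ _ (Submodule.subset_span ⟨t, rfl⟩)

theorem derLift_of_ext {s : ι → Γ} (hs : Subgroup.closure (Set.range s) = ⊤) (j : H →* Γ)
    (hj : Function.Injective j) {A B : Type} [AddCommGroup A] [Module ℤ[H] A] [AddCommGroup B]
    [Module ℤ[H] B] (π : A →ₗ[ℤ[H]] B) (δ : H → B) (hπ : ∀ g, ∃ a, π a = δ g)
    (hδ : ∀ g h, δ (g * h) = δ g + o g • δ h)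
    (hext : ∀ f : LinearMap.ker (dS s) →ₗ[ℤ[Γ]] Co j (LinearMap.ker π), Extends f) :
    ∃ D : H → A, (∀ g h, D (g * h) = D g + o g • D h) ∧ ∀ g, π (D g) = δ g := by
  obtain ⟨σ⟩ := exists_sec hj
  have hδ1 : δ 1 = 0 := by simpa using hδ 1 1
  let Δ : (ι → ℤ[Γ]) →ₗ[ℤ[Γ]] Co j B := Fintype.linearCombination ℤ[Γ] fun i =>
    Co.mk (fun x => δ (σ.κ (x * s i)) - δ (σ.κ x)) fun k x => by
      rw [mul_assoc, σ.κ_mul, σ.κ_mul, hδ, hδ, smul_sub]; abel
  have hΔ : ∀ v x, Δ v x = extAdd (fun y => δ (σ.κ (x * y))) (dS s v) := fun v x => by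
    rw [extAdd_dS, Fintype.linearCombination_apply, Co.sum_apply]
    simp only [Co.smul_apply, Co.mk_apply, mul_assoc]
  obtain ⟨Λ, hΛ⟩ := σ.liftLin π Δ fun y x => by
    rw [hΔ]
    choose a ha using hπ
    exact ⟨extAdd (fun y => a (σ.κ (x * y))) (dS s y), by
      rw [← LinearMap.toAddMonoidHom_coe, map_extAdd]; simp only [LinearMap.toAddMonoidHom_coe, ha]⟩
  have hΛ0 : ∀ (k : LinearMap.ker (dS s)) x, π (Λ k x) = 0 := fun k x => by
    rw [hΛ, hΔ, k.2, map_zero]
  let f0 : LinearMap.ker (dS s) → Co j (LinearMap.ker π) := fun k =>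
    Co.mk (fun x => ⟨Λ k x, hΛ0 k x⟩) fun h x => Subtype.ext ((Λ k).equiv h x)
  obtain ⟨F, hF⟩ := hext (mkLin (AddMonoidHom.mk' f0 fun a b => Co.ext fun x => Subtype.ext (by
    change Λ (a + b) x = Λ a x + Λ b x
    rw [map_add]; rfl)) fun g a => Co.ext fun x => Subtype.ext (by
      rw [Co.o_smul]
      change Λ (o g • a) x = Λ a (x * g)
      rw [map_smul, Co.o_smul]))
  let Λ' : (ι → ℤ[Γ]) →ₗ[ℤ[Γ]] Co j A := Λ - Co.map j (LinearMap.ker π).subtype ∘ₗ F
  have h5 : ∀ v, dS s v = 0 → Λ' v = 0 := fun v hv => Co.ext fun x => by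
    change Λ v x - (F v x : A) = 0
    rw [hF ⟨v, hv⟩]
    exact sub_self _
  have h6 : ∀ v x, π (Λ' v x) = Δ v x := fun v x => by
    change π (Λ v x - (F v x : A)) = _
    rw [map_sub, hΛ, (F v x).2, sub_zero]
  choose v hv using exists_dS hs
  refine ⟨fun k => Λ' (v (j k)) 1, fun a b => ?_, fun a => ?_⟩
  · have := h5 (v (j (a * b)) - (v (j a) + o (j a) • v (j b))) (by
      rw [map_sub, map_add, map_smul, hv, hv, hv, smul_eq_mul, mul_sub, o_mul, map_mul]; simp)
    rw [map_sub, sub_eq_zero] at this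
    simp only [this, map_add, map_smul, Co.add_apply]
    rw [← jr_o, Co.jr_smul]
  · rw [h6, hΔ, hv, map_sub, ← o_one, extAdd_o, extAdd_o, one_mul, one_mul, σ.κ_j, σ.κ_one, hδ1,
      sub_zero]

end

end Pool.Agent.P.MP_5ee5b4_al
end

-- part Pool.Agent.P.MP_5ee5b4_al.GS1
section

/-! Powers of the augmentation ideal and relations. -/

namespace Pool.Agent.P.MP_5ee5b4_al

open Pool.Agent.P.MP_6e40fc_al
open scoped MonoidAlgebra

noncomputable section

set_option linter.unusedSectionVars false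

variable (k : Type) [Field k] {H K : Type} [Group H] [Group K] {E E' : Type} [AddCommGroup E]
  [Module k[H] E] [AddCommGroup E'] [Module k[H] E']

/-- group elements in the group algebra -/
def ee (g : H) : k[H] := MonoidAlgebra.of k H g

theorem ee_mul (g h : H) : ee k (g * h) = ee k g * ee k h := map_mul (MonoidAlgebra.of k H) g h

theorem ee_one : ee k (1 : H) = 1 := map_one (MonoidAlgebra.of k H)

theorem aug_ee (g : H) : aug k H (ee k g) = 1 := aug_of g

variable {k}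

/-- the product with the augmentation ideal -/
def Jm (N : Submodule k[H] E) : Submodule k[H] E :=
  Submodule.span k[H] {y | ∃ g : H, ∃ n ∈ N, y = ee k g • n - n}

/-- the product with a power of the augmentation ideal -/
def Pw : ℕ → Submodule k[H] E → Submodule k[H] E
  | 0, N => N
  | a + 1, N => Jm (Pw a N)

theorem mem_Jm {N : Submodule k[H] E} (g : H) {n : E} (hn : n ∈ N) : ee k g • n - n ∈ Jm N :=
  Submodule.subset_span ⟨g, n, hn, rfl⟩

theorem Jm_le (N : Submodule k[H] E) : Jm N ≤ N := Submodule.span_le.2 (by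
  rintro _ ⟨g, n, hn, rfl⟩
  exact N.sub_mem (N.smul_mem _ hn) hn)

theorem Jm_map (f : E →ₗ[k[H]] E') {N : Submodule k[H] E} {N' : Submodule k[H] E'}
    (h : N ≤ N'.comap f) : Jm N ≤ (Jm N').comap f := Submodule.span_le.2 (by
  rintro _ ⟨g, n, hn, rfl⟩
  change f _ ∈ Jm N'
  rw [map_sub, map_smul]
  exact mem_Jm g (h hn))

theorem Pw_map (f : E →ₗ[k[H]] E') {N : Submodule k[H] E} {N' : Submodule k[H] E'}
    (h : N ≤ N'.comap f) (a : ℕ) : Pw a N ≤ (Pw a N').comap f := by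
  induction a with
  | zero => exact h
  | succ a ih => exact Jm_map f ih

theorem Pw_mono {N N' : Submodule k[H] E} (h : N ≤ N') (a : ℕ) : Pw a N ≤ Pw a N' :=
  Pw_map LinearMap.id h a

theorem Pw_le (N : Submodule k[H] E) (a : ℕ) : Pw a N ≤ N := by
  induction a with
  | zero => exact le_rfl
  | succ a ih => exact (Jm_le _).trans ih

theorem Pw_add (N : Submodule k[H] E) (a b : ℕ) : Pw a (Pw b N) = Pw (b + a) N := by
  induction a with
  | zero => rfl
  | succ a ih => exact congrArg Jm ih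

theorem Pw_sup (N N' : Submodule k[H] E) (a : ℕ) : Pw a (N ⊔ N') ≤ N ⊔ Pw a N' := by
  induction a with
  | zero => exact le_rfl
  | succ a ih =>
    refine Submodule.span_le.2 ?_
    rintro _ ⟨g, n, hn, rfl⟩
    obtain ⟨y, hy, z, hz, rfl⟩ := Submodule.mem_sup.1 (ih hn)
    rw [smul_add, add_sub_add_comm]
    exact Submodule.add_mem_sup (N.sub_mem (N.smul_mem _ hy) hy) (mem_Jm g hz)

theorem smul_mem_Pw {a : ℕ} {r : k[H]} (hr : r ∈ Pw a (⊤ : Submodule k[H] k[H]))
    {N : Submodule k[H] E} {n : E} (hn : n ∈ N) : r • n ∈ Pw a N :=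
  Pw_map (LinearMap.toSpanSingleton k[H] E n) (fun r _ => N.smul_mem r hn) a hr

theorem mem_Pw_pi {ι : Type} [Fintype ι] {a : ℕ} {v : ι → E} :
    v ∈ Pw a (⊤ : Submodule k[H] (ι → E)) ↔ ∀ i, v i ∈ Pw a (⊤ : Submodule k[H] E) := by
  classical
  refine ⟨fun h i => Pw_map (N' := ⊤) (LinearMap.proj i : (ι → E) →ₗ[k[H]] E)
    (fun _ _ => trivial) a h, fun h => ?_⟩
  rw [← Finset.univ_sum_single v]
  exact Submodule.sum_mem _ fun i _ =>
    Pw_map (N' := ⊤) (LinearMap.single k[H] (fun _ => E) i) (fun _ _ => trivial) a (h i)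

theorem ee_sub_mem (g : H) : ee k g - 1 ∈ Jm (⊤ : Submodule k[H] k[H]) := by
  simpa using mem_Jm (k := k) g (Submodule.mem_top (x := (1 : k[H])))

theorem aug_Jm {r : k[H]} (hr : r ∈ Jm (⊤ : Submodule k[H] k[H])) : aug k H r = 0 := by
  induction hr using Submodule.span_induction with
  | mem r hr =>
    obtain ⟨g, n, -, rfl⟩ := hr
    simp [aug_ee]
  | zero => simp
  | add a b _ _ ha hb => rw [map_add, ha, hb, add_zero]
  | smul a b _ hb => rw [smul_eq_mul, map_mul, hb, mul_zero]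

theorem sub_aug_mem_Jm (n : k[H]) : n - aug k H n • 1 ∈ Jm (⊤ : Submodule k[H] k[H]) := by
  induction n using MonoidAlgebra.induction_on with
  | of a => rw [aug_of, one_smul]; exact ee_sub_mem a
  | add x y hx hy =>
    rw [map_add, add_smul, ← sub_add_sub_comm]
    exact Submodule.add_mem _ hx hy
  | smul c x hx =>
    rw [map_smul, smul_assoc, ← smul_sub]
    exact Submodule.smul_of_tower_mem _ c hx

theorem exists_der [Module k E] [IsScalarTower k k[H] E] (s : H → E)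
    (hs : ∀ a b, s (a * b) = s a + ee k a • s b) :
    ∃ S : k[H] →+ E, (∀ g, S (ee k g - 1) = s g) ∧
      (∀ r, ∀ u ∈ Jm (⊤ : Submodule k[H] k[H]), S (r * u) = r • S u) ∧
      ∀ a, ∀ u ∈ Pw (a + 1) (⊤ : Submodule k[H] k[H]), S u ∈ Pw a (⊤ : Submodule k[H] E) := by
  let S : k[H] →ₗ[k] E := (MonoidAlgebra.basis H k).constr k s
  have h0 : ∀ g, S (ee k g) = s g := fun g => by
    have := (MonoidAlgebra.basis H k).constr_basis k s g
    rwa [MonoidAlgebra.basis_apply] at this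
  have h1 : ∀ r u, S (r * u) = aug k H u • S r + r • S u := fun r u => by
    induction r using MonoidAlgebra.induction_on with
    | of a =>
      induction u using MonoidAlgebra.induction_on with
      | of b =>
        change S (ee k a * ee k b) = aug k H (ee k b) • S (ee k a) + ee k a • S (ee k b)
        rw [← ee_mul, h0, h0, h0, hs, aug_ee, one_smul]
      | add x y hx hy => simp only [mul_add, map_add, hx, hy, add_smul, smul_add]; abel
      | smul c x hx =>
        rw [mul_smul_comm, map_smul, hx, map_smul, map_smul, smul_add, smul_assoc, smul_comm c (_ : k[H])]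
    | add x y hx hy => simp only [add_mul, map_add, hx, hy, add_smul, smul_add]; abel
    | smul c x hx => rw [smul_mul_assoc, map_smul, hx, map_smul, smul_add, smul_assoc, smul_comm c]
  have h2 : ∀ r, ∀ u ∈ Jm (⊤ : Submodule k[H] k[H]), S (r * u) = r • S u := fun r u hu => by
    rw [h1, aug_Jm hu, zero_smul, zero_add]
  refine ⟨S.toAddMonoidHom, fun g => ?_, h2, fun a => ?_⟩
  · have h3 := hs 1 1
    rw [mul_one, ee_one, one_smul, left_eq_add] at h3
    change S _ = _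
    rw [map_sub, ← ee_one, h0, h0, h3, sub_zero]
  · induction a with
    | zero => exact fun _ _ => trivial
    | succ a ih =>
      have h3 : Pw (a + 1) (⊤ : Submodule k[H] k[H]) ≤ Jm ⊤ := Jm_map LinearMap.id (Pw_le _ a)
      intro u hu
      change S u ∈ _
      induction hu using Submodule.span_induction with
      | mem r hr =>
        obtain ⟨g, n, hn, rfl⟩ := hr
        rw [map_sub, smul_eq_mul, h2 _ _ (h3 hn)]
        exact mem_Jm g (ih n hn)
      | zero => rw [map_zero]; exact Submodule.zero_mem _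
      | add x y _ _ hx hy => rw [map_add]; exact Submodule.add_mem _ hx hy
      | smul r x hx h =>
        rw [smul_eq_mul, h2 _ _ (h3 (Jm_le _ hx))]
        exact Submodule.smul_mem _ _ h

variable {d : ℕ} (x : Fin d → H)

variable (k) in
/-- the map onto the augmentation ideal modulo its powers -/
def gπ : (Fin d → k[H]) →ₗ[k[H]] k[H] := Fintype.linearCombination k[H] fun i => ee k (x i) - 1

theorem gπ_apply (v : Fin d → k[H]) : gπ k x v = ∑ i, v i * (ee k (x i) - 1) :=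
  Fintype.linearCombination_apply _ _ _

theorem gπ_single (i : Fin d) : gπ k x (Pi.single i 1) = ee k (x i) - 1 := lc_single _ _

theorem gπ_mem (v : Fin d → k[H]) : gπ k x v ∈ Jm (⊤ : Submodule k[H] k[H]) := by
  rw [gπ_apply]
  exact Submodule.sum_mem _ fun i _ => Submodule.smul_mem _ _ (ee_sub_mem _)

theorem gπ_Pw (a : ℕ) : Pw a ⊤ ≤ (Pw (a + 1) ⊤).comap (gπ k x) := by
  rw [add_comm, ← Pw_add]
  exact Pw_map (N' := Jm ⊤) (gπ k x) (fun v _ => gπ_mem x v) a

theorem der_comp [Module k E] [IsScalarTower k k[H] E] (s : H → E)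
    (hs : ∀ a b, s (a * b) = s a + ee k a • s b) (a : ℕ) (v : Fin d → k[H])
    (hv : gπ k x v ∈ Pw (a + 1) (⊤ : Submodule k[H] k[H])) :
    ∑ i, v i • s (x i) ∈ Pw a (⊤ : Submodule k[H] E) := by
  obtain ⟨S, h1, h2, h3⟩ := exists_der s hs
  have := h3 a _ hv
  rw [gπ_apply, map_sum] at this
  simpa only [h2 _ _ (ee_sub_mem _), h1] using this

variable {x} {χ : Fin d → H → k}

theorem mem_Jm_of_gπ (hχ : ∀ t, IsHom (χ t)) (hx : ∀ t i, χ t (x i) = if t = i then 1 else 0)
    (v : Fin d → k[H]) (hv : gπ k x v ∈ Pw 2 (⊤ : Submodule k[H] k[H])) :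
    v ∈ Jm (⊤ : Submodule k[H] (Fin d → k[H])) := by
  let q := (Jm (⊤ : Submodule k[H] (Fin d → k[H]))).mkQ
  have h0 : Jm ⊤ ≤ (⊥ : Submodule k[H] (_ ⧸ Jm (⊤ : Submodule k[H] (Fin d → k[H])))) :=
    Submodule.span_le.2 (by
      rintro _ ⟨g, n, -, rfl⟩
      obtain ⟨n, rfl⟩ := Submodule.mkQ_surjective _ n
      exact (Submodule.Quotient.mk_eq_zero _).2 (mem_Jm g trivial))
  have h1 := h0 (der_comp x (fun g => ∑ t, χ t g • q (Pi.single t 1)) (fun a b => by
    rw [sub_eq_zero.1 (h0 (mem_Jm a trivial))]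
    simp only [hχ _ a b, add_smul, Finset.sum_add_distrib]) 1 v hv)
  simp only [hx, ite_smul, one_smul, zero_smul, Finset.sum_ite_eq', Finset.mem_univ, if_true,
    ← map_smul, ← map_sum, ← Pi.single_smul, smul_eq_mul, mul_one, Finset.univ_sum_single] at h1
  exact (Submodule.Quotient.mk_eq_zero _).1 h1

theorem Jm_le_range (hx : ∀ t i, χ t (x i) = if t = i then 1 else 0)
    (hχ : ∀ ψ : H → k, IsHom ψ → ∃ a : Fin d → k, ∀ g, ψ g = ∑ t, a t * χ t g) (n : ℕ) :
    Jm ⊤ ≤ LinearMap.range (gπ k x) ⊔ Pw (n + 1) ⊤ := by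
  have h1 : Jm ⊤ ≤ LinearMap.range (gπ k x) ⊔ Pw 2 ⊤ := by
    set N := LinearMap.range (gπ k x) ⊔ Pw 2 ⊤
    have h2 : ∀ g, ee k g - 1 ∈ N := fun g => by
      refine (Submodule.Quotient.mk_eq_zero _).1 ((Module.forall_dual_apply_eq_zero_iff k _).1
        fun l => ?_)
      obtain ⟨a, ha⟩ := hχ (fun g => l (N.mkQ (ee k g - 1))) fun a b => by
        rw [← map_add, ← map_add]
        refine congrArg l ((Submodule.Quotient.eq _).2 (Submodule.mem_sup_right ?_))
        have : ee k (a * b) - 1 - (ee k a - 1 + (ee k b - 1)) =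
            ee k a • (ee k b - 1) - (ee k b - 1) := by
          rw [ee_mul, smul_eq_mul, mul_sub, mul_one]
          abel
        exact this ▸ mem_Jm a (ee_sub_mem (k := k) b)
      have h3 : ∀ i, a i = 0 := fun i => by
        have := ha (x i)
        simp only [hx, mul_ite, mul_one, mul_zero, Finset.sum_ite_eq', Finset.mem_univ,
          if_true] at this
        rw [← this, N.mkQ_apply, (Submodule.Quotient.mk_eq_zero _).2
          (Submodule.mem_sup_left (LinearMap.mem_range.2 ⟨_, gπ_single x i⟩)), map_zero]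
      exact (ha g).trans (by simp [h3])
    refine Submodule.span_le.2 ?_
    rintro _ ⟨g, n, -, rfl⟩
    have : ee k g • n - n = ee k g • (n - aug k H n • 1) - (n - aug k H n • 1) +
        aug k H n • (ee k g - 1) := by
      simp only [smul_eq_mul, mul_sub, mul_smul_comm, mul_one, smul_sub]
      abel
    rw [this]
    exact N.add_mem (Submodule.mem_sup_right (mem_Jm g (sub_aug_mem_Jm n)))
      (N.smul_of_tower_mem (aug k H n) (h2 g))
  induction n with
  | zero => exact le_sup_right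
  | succ n ih =>
    refine ih.trans (sup_le le_sup_left ?_)
    have := (Pw_mono h1 n).trans (Pw_sup _ _ n)
    rwa [show Jm (⊤ : Submodule k[H] k[H]) = Pw 1 ⊤ from rfl, Pw_add, Pw_add, add_comm,
      add_comm 2] at this

end

end Pool.Agent.P.MP_5ee5b4_al
end

-- part Pool.Agent.P.MP_5ee5b4_al.GS2
section

/-! The Golod-Shafarevich inequality for a quotient by two elements. -/

namespace Pool.Agent.P.MP_5ee5b4_al

open Pool.Agent.P.MP_6e40fc_al
open scoped MonoidAlgebra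

noncomputable section

set_option linter.unusedSectionVars false

variable {p : ℕ} [Fact p.Prime] {H K : Type} [Group H] [Group K] {d : ℕ}

variable (K p d) in
/-- two-cocycles die modulo boundedly many elements -/
def H2c : Prop := ∀ (V : Type) [AddCommGroup V] [Module (ZMod p) V] (c : K → K → V), IsCoc c →
  ∃ v : Fin d → V, IsCob fun x y => (Submodule.span (ZMod p) (Set.range v)).mkQ (c x y)

theorem Pw_map_le {k : Type} [Field k] {E E' : Type} [AddCommGroup E] [Module k[H] E]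
    [AddCommGroup E'] [Module k[H] E'] (f : E →ₗ[k[H]] E') (N : Submodule k[H] E) (a : ℕ) :
    Pw a (N.map f) ≤ (Pw a N).map f := by
  induction a with
  | zero => exact le_rfl
  | succ a ih =>
    refine Submodule.span_le.2 ?_
    rintro _ ⟨g, n, hn, rfl⟩
    obtain ⟨y, hy, rfl⟩ := ih hn
    exact ⟨_, mem_Jm g hy, by rw [map_sub, map_smul]⟩

theorem mem_of_eq {R E : Type} [Ring R] [AddCommGroup E] [Module R E] {N : Submodule R E} {a b : E}
    (h : a ∈ N) (e : b = a) : b ∈ N := e ▸ h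

theorem relations (h2 : H2c p K d) (φ : K →* H) (hφ : Function.Surjective φ) (g : Fin 2 → K)
    (hg : ∀ j, φ (g j) = 1) (hker : φ.ker ≤ Subgroup.normalClosure (Set.range g))
    {x : Fin d → H} {χ : Fin d → H → ZMod p} (hχ0 : ∀ t, IsHom (χ t))
    (hx : ∀ t i, χ t (x i) = if t = i then 1 else 0)
    (hχ : ∀ ψ : H → ZMod p, IsHom ψ → ∃ a : Fin d → ZMod p, ∀ g, ψ g = ∑ t, a t * χ t g) (n : ℕ) :
    ∃ ρ : Fin d ⊕ Fin 2 → Fin d → (ZMod p)[H], (∀ j, ρ j ∈ Jm (⊤ : Submodule (ZMod p)[H] _)) ∧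
      (Pw (n + 2) ⊤).comap (gπ (ZMod p) x) ≤ Submodule.span _ (Set.range ρ) ⊔ Pw (n + 1) ⊤ := by
  set M := (Pw (n + 2) ⊤).comap (gπ (ZMod p) x)
  have hM : M ≤ Jm ⊤ := fun v hv => mem_Jm_of_gπ hχ0 hx v (Pw_le _ n (by
    rw [Pw_add, add_comm]
    exact hv))
  have h1 : ∀ y, ∃ v, gπ (ZMod p) x v - (ee _ y - 1) ∈ Pw (n + 2) ⊤ := fun y => by
    obtain ⟨_, ⟨v, rfl⟩, b, hb, e⟩ := Submodule.mem_sup.1 (Jm_le_range hx hχ (n + 1) (ee_sub_mem y))
    exact ⟨v, by rw [← e, sub_add_cancel_left]; exact Submodule.neg_mem _ hb⟩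
  choose v hv using h1
  let c : K → K → M := fun a b => ⟨v (φ a) + ee _ (φ a) • v (φ b) - v (φ (a * b)), by
    have := Submodule.sub_mem _ (Submodule.add_mem _ (hv (φ a))
      (Submodule.smul_mem _ (ee _ (φ a)) (hv (φ b)))) (hv (φ (a * b)))
    refine Submodule.mem_comap.2 (mem_of_eq this ?_)
    rw [map_sub, map_add, map_smul]
    simp only [map_mul, ee_mul, smul_eq_mul, mul_sub, mul_one]
    abel⟩
  let M0 := (Jm M ⊔ Pw (n + 1) ⊤).comap M.subtype
  obtain ⟨u, b, hb⟩ := h2 (M ⧸ M0) (fun a b => M0.mkQ (c a b)) fun a b e => by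
    rw [← map_add, ← map_add]
    refine (Submodule.Quotient.eq _).2 (Submodule.mem_sup_left ?_)
    refine mem_of_eq (mem_Jm (φ a) (c b e).2) ?_
    simp only [c, Submodule.coe_subtype, Submodule.coe_sub, Submodule.coe_add, map_mul, ee_mul,
      mul_smul, smul_sub, smul_add, mul_assoc]
    abel
  choose u' hu' using fun t => M0.mkQ_surjective (u t)
  choose b' hb' using fun a => ((Submodule.mkQ_surjective _).comp M0.mkQ_surjective) (b a)
  let D : K → Fin d → (ZMod p)[H] := fun a => v (φ a) - b' a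
  have hD : ∀ a, gπ (ZMod p) x (D a) - (ee _ (φ a) - 1) ∈ Pw (n + 2) ⊤ := fun a => by
    rw [map_sub, sub_right_comm]
    exact Submodule.sub_mem _ (hv _) (b' a).2
  let ρ : Fin d ⊕ Fin 2 → Fin d → (ZMod p)[H] := Sum.elim (fun t => u' t) fun j => D (g j)
  have hρ : ∀ j, ρ j ∈ M := by
    rintro (t | j)
    · exact (u' t).2
    · have := hD (g j)
      rwa [hg, ee_one, sub_self, sub_zero] at this
  refine ⟨ρ, fun j => hM (hρ j), ?_⟩
  suffices H1 : M ≤ Jm M ⊔ (Submodule.span _ (Set.range ρ) ⊔ Pw (n + 1) ⊤) by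
    have H2 : ∀ a, M ≤ Pw a M ⊔ (Submodule.span _ (Set.range ρ) ⊔ Pw (n + 1) ⊤) := fun a => by
      induction a with
      | zero => exact le_sup_left
      | succ a ih =>
        refine ih.trans (sup_le ?_ le_sup_right)
        have := (Pw_mono (H1.trans (sup_comm _ _).le) a).trans (Pw_sup _ _ a)
        rwa [show Jm M = Pw 1 M from rfl, Pw_add, add_comm 1 a, sup_comm] at this
    exact (H2 (n + 1)).trans (sup_le ((Pw_mono le_top _).trans le_sup_right) le_rfl)
  set M2 := Jm M ⊔ (Submodule.span _ (Set.range ρ) ⊔ Pw (n + 1) ⊤)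
  have hM2 : ∀ y ∈ M0, (y : Fin d → (ZMod p)[H]) ∈ M2 := fun y hy =>
    (sup_le_sup_left le_sup_right _ : Jm M ⊔ Pw (n + 1) ⊤ ≤ M2) hy
  have hρ2 : ∀ j, ρ j ∈ M2 := fun j =>
    Submodule.mem_sup_right (Submodule.mem_sup_left (Submodule.subset_span ⟨j, rfl⟩))
  have hD1 : ∀ a e, M2.mkQ (D (a * e)) = M2.mkQ (D a) + ee _ (φ a) • M2.mkQ (D e) := fun a e => by
    have h3 := hb a e
    simp only [← hb', Function.comp_apply, ← map_add, ← map_sub] at h3
    obtain ⟨α, hα⟩ := (Submodule.mem_span_range_iff_exists_fun _).1 ((Submodule.Quotient.eq _).1 h3)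
    simp only [← hu', ← map_sub, ← LinearMap.map_smul_of_tower, ← map_sum] at hα
    have h4 := M2.add_mem (M2.sub_mem (hM2 _ ((Submodule.Quotient.eq _).1 hα))
      (M2.sum_mem (t := Finset.univ) fun t _ => M2.smul_of_tower_mem (α t) (hρ2 (Sum.inl t))))
      (Submodule.mem_sup_left (mem_Jm (φ a) (b' e).2))
    rw [← map_smul, ← map_add]
    refine (Submodule.Quotient.eq _).2 (mem_of_eq h4 ?_)
    simp only [D, c, ρ, Submodule.coe_sub, Submodule.coe_add, Submodule.coe_sum, Sum.elim_inl,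
      Submodule.coe_smul_of_tower, smul_sub]
    abel
  have hD0 : M2.mkQ (D 1) = 0 := by
    have := hD1 1 1
    rwa [mul_one, map_one, ee_one, one_smul, left_eq_add] at this
  let L : Subgroup K :=
    { carrier := {a | φ a = 1 ∧ M2.mkQ (D a) = 0}
      one_mem' := ⟨map_one _, hD0⟩
      mul_mem' := fun ha hb => ⟨by rw [map_mul, ha.1, hb.1, mul_one],
        by rw [hD1, ha.2, hb.2, smul_zero, add_zero]⟩
      inv_mem' := fun {a} ha => ⟨by rw [map_inv, ha.1, inv_one], by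
        have := hD1 a⁻¹ a
        rwa [inv_mul_cancel, hD0, ha.2, smul_zero, add_zero, eq_comm] at this⟩ }
  have : L.Normal := ⟨fun a ha e => ⟨by simp [ha.1], by
    have := hD1 e e⁻¹
    rw [mul_inv_cancel, hD0] at this
    rw [hD1, hD1, ha.2, smul_zero, add_zero, map_mul, ha.1, mul_one, ← this]⟩⟩
  have hL : φ.ker ≤ L := hker.trans (Subgroup.normalClosure_le_normal (by
    rintro _ ⟨j, rfl⟩
    exact ⟨hg j, (Submodule.Quotient.mk_eq_zero _).2 (hρ2 (Sum.inr j))⟩))
  choose σ hσ using hφ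
  have hD2 : ∀ a, M2.mkQ (D (σ (φ a))) = M2.mkQ (D a) := fun a => by
    have := hD1 a (a⁻¹ * σ (φ a))
    rwa [mul_inv_cancel_left, (hL (x := a⁻¹ * σ (φ a)) (by simp [hσ])).2, smul_zero, add_zero] at this
  let Θ := M2.mkQ - Fintype.linearCombination (ZMod p)[H] fun i => M2.mkQ (D (σ (x i)))
  have h3 : ⊤ ≤ (M.map M2.mkQ).comap Θ := by
    rw [← (Pi.basisFun _ _).span_eq, Submodule.span_le]
    rintro _ ⟨i, rfl⟩
    refine ⟨Pi.single i 1 - D (σ (x i)), ?_, by simp [Θ]⟩
    have := Submodule.neg_mem _ (hD (σ (x i)))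
    rw [hσ, neg_sub, ← gπ_single, ← map_sub] at this
    exact this
  have h4 : Jm (M.map M2.mkQ) ≤ ⊥ := Submodule.span_le.2 (by
    rintro _ ⟨a, _, ⟨y, hy, rfl⟩, rfl⟩
    exact (Submodule.Quotient.mk_eq_zero _).2 (Submodule.mem_sup_left (mem_Jm a hy)))
  have h5 : ∀ y ∈ Pw (n + 1) (⊤ : Submodule (ZMod p)[H] (_ ⧸ M2)), y = 0 := fun y hy => by
    rw [← M2.range_mkQ, ← Submodule.map_top] at hy
    obtain ⟨y, h, rfl⟩ := Pw_map_le _ _ _ hy
    exact (Submodule.Quotient.mk_eq_zero _).2 (Submodule.mem_sup_right (Submodule.mem_sup_right h))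
  intro m hm
  have h6 := h4 (Jm_map Θ h3 (hM hm))
  have h7 := h5 _ (der_comp x (fun y => M2.mkQ (D (σ y))) (fun a e => by
    obtain ⟨a, rfl⟩ : ∃ a', φ a' = a := ⟨_, hσ a⟩
    obtain ⟨e, rfl⟩ : ∃ a', φ a' = e := ⟨_, hσ e⟩
    rw [← map_mul, hD2, hD2, hD2, hD1]) (n + 1) m hm)
  rw [Submodule.mem_bot, LinearMap.sub_apply, Fintype.linearCombination_apply, h7, sub_zero] at h6
  exact (Submodule.Quotient.mk_eq_zero _).1 h6

variable (p H) in
/-- quotients of the group algebra by powers of the augmentation ideal -/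
abbrev Qt (n : ℕ) : Type := (ZMod p)[H] ⧸ Pw n (⊤ : Submodule (ZMod p)[H] (ZMod p)[H])

/-- multiplication by a matrix with entries in the augmentation ideal -/
theorem exists_mul {α β : Type} [Fintype α] (n : ℕ) (u : α → β → (ZMod p)[H])
    (hu : ∀ a b, u a b ∈ Jm (⊤ : Submodule (ZMod p)[H] (ZMod p)[H])) :
    ∃ f : (α → Qt p H n) →ₗ[ZMod p] (β → Qt p H (n + 1)), ∀ (v : α → (ZMod p)[H]) b,
      f (fun a => Submodule.Quotient.mk (v a)) b = Submodule.Quotient.mk (∑ a, v a * u a b) := by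
  let m : α → β → Qt p H n →ₗ[(ZMod p)[H]] Qt p H (n + 1) := fun a b =>
    Submodule.mapQ _ _ (LinearMap.toSpanSingleton _ _ (u a b)) fun r hr => by
      have := smul_mem_Pw hr (hu a b)
      rwa [show Jm (⊤ : Submodule (ZMod p)[H] (ZMod p)[H]) = Pw 1 ⊤ from rfl, Pw_add,
        add_comm] at this
  refine ⟨LinearMap.pi fun b => ∑ a, (m a b).restrictScalars _ ∘ₗ LinearMap.proj a, fun v b => ?_⟩
  rw [LinearMap.pi_apply, LinearMap.sum_apply, ← Submodule.mkQ_apply, map_sum]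
  rfl

theorem grow (hd : 6 ≤ d) (a : ℕ → ℕ) (h0 : a 0 = 0)
    (h : ∀ n, d * a (n + 1) + 1 ≤ (d + 2) * a n + a (n + 1 + 1)) (n : ℕ) :
    2 * a n ≤ a (n + 1) ∧ n ≤ a (n + 1) := by
  induction n with
  | zero => omega
  | succ n ih =>
    have h3 := h n
    obtain ⟨e, rfl⟩ := Nat.exists_eq_add_of_le hd
    have : 2 * a (n + 1) + 1 ≤ a (n + 1 + 1) := by nlinarith [ih.1, Nat.zero_le (e * a (n + 1))]
    omega

theorem exists_index (n : ℕ) [Module.Finite (ZMod p) (Qt p H n)] :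
    ∃ U : Subgroup H, U.FiniteIndex ∧ Module.finrank (ZMod p) (Qt p H n) ≤ U.index := by
  let τ : H →* Module.End (ZMod p) (Qt p H n) :=
    (Algebra.lsmul (ZMod p) (ZMod p) (Qt p H n)).toMonoidHom.comp (MonoidAlgebra.of (ZMod p) H)
  have : Finite (Module.End (ZMod p) (Qt p H n)) := Module.finite_of_finite (ZMod p)
  let U := τ.toHomUnits.ker
  refine ⟨U, inferInstance, ?_⟩
  let _ := Fintype.ofFinite (H ⧸ U)
  rw [Subgroup.index, Nat.card_eq_fintype_card]
  refine finrank_le_of_span_eq_top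
    (v := fun q : H ⧸ U => Submodule.Quotient.mk (ee (ZMod p) q.out)) (eq_top_iff.2 fun y _ => ?_)
  obtain ⟨r, rfl⟩ := Submodule.Quotient.mk_surjective _ y
  induction r using MonoidAlgebra.induction_on with
  | of y =>
    refine Submodule.subset_span ⟨y, ?_⟩
    obtain ⟨u, hu⟩ := QuotientGroup.mk_out_eq_mul U y
    have h3 : ee (ZMod p) (u : H) • (Submodule.Quotient.mk 1 : Qt p H n) =
        Submodule.Quotient.mk 1 := LinearMap.congr_fun (congrArg Units.val u.2) _
    rw [← Submodule.Quotient.mk_smul, smul_eq_mul, mul_one] at h3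
    simp only [hu, ee_mul]
    rw [← smul_eq_mul, Submodule.Quotient.mk_smul, h3, ← Submodule.Quotient.mk_smul, smul_eq_mul,
      mul_one]
    rfl
  | add a b ha hb => exact Submodule.add_mem _ (ha trivial) (hb trivial)
  | smul c a ha => exact Submodule.smul_mem _ c (ha trivial)

theorem qt_finite {x : Fin d → H} {χ : Fin d → H → ZMod p}
    (hx : ∀ t i, χ t (x i) = if t = i then 1 else 0)
    (hχ : ∀ ψ : H → ZMod p, IsHom ψ → ∃ a : Fin d → ZMod p, ∀ g, ψ g = ∑ t, a t * χ t g) (n : ℕ) :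
    Module.Finite (ZMod p) (Qt p H n) := by
  induction n with
  | zero =>
    have : Subsingleton (Qt p H 0) := Submodule.Quotient.subsingleton_iff.2 rfl
    infer_instance
  | succ n ih =>
    obtain ⟨π, hπ⟩ := exists_mul (p := p) n (fun (i : Fin d) (_ : Unit) => ee _ (x i) - 1)
      fun i _ => ee_sub_mem _
    refine Module.Finite.of_surjective ((LinearMap.proj () ∘ₗ π).coprod
      (LinearMap.toSpanSingleton (ZMod p) _ (Submodule.Quotient.mk 1))) fun y => ?_
    obtain ⟨r, rfl⟩ := Submodule.Quotient.mk_surjective _ y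
    obtain ⟨_, ⟨v, rfl⟩, b, hb, e⟩ := Submodule.mem_sup.1 (Jm_le_range hx hχ n (sub_aug_mem_Jm r))
    refine ⟨(fun i => Submodule.Quotient.mk (v i), aug _ H r), ?_⟩
    rw [LinearMap.coprod_apply, LinearMap.comp_apply, LinearMap.proj_apply, hπ, ← gπ_apply,
      LinearMap.toSpanSingleton_apply, ← Submodule.Quotient.mk_smul,
      ← Submodule.Quotient.mk_add, Submodule.Quotient.eq]
    refine mem_of_eq (Submodule.neg_mem _ hb) ?_
    rw [eq_sub_of_add_eq e]
    abel

theorem golod_shafarevich (hd : 6 ≤ d) (h2 : H2c p K d) (φ : K →* H) (hφ : Function.Surjective φ)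
    (g : Fin 2 → K) (hg : ∀ j, φ (g j) = 1) (hker : φ.ker ≤ Subgroup.normalClosure (Set.range g))
    {x : Fin d → H} {χ : Fin d → H → ZMod p} (hχ0 : ∀ t, IsHom (χ t))
    (hx : ∀ t i, χ t (x i) = if t = i then 1 else 0)
    (hχ : ∀ ψ : H → ZMod p, IsHom ψ → ∃ a : Fin d → ZMod p, ∀ g, ψ g = ∑ t, a t * χ t g) (m : ℕ) :
    ∃ U : Subgroup H, U.FiniteIndex ∧ m ≤ U.index := by
  have hsur : ∀ {α : Type} (n : ℕ) (y : α → Qt p H n),
      ∃ v : α → (ZMod p)[H], y = fun a => Submodule.Quotient.mk (v a) := fun n y => by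
    choose v hv using fun a => Submodule.Quotient.mk_surjective _ (y a)
    exact ⟨v, (funext hv).symm⟩
  have h0 : Subsingleton (Qt p H 0) := Submodule.Quotient.subsingleton_iff.2 rfl
  have hfin := qt_finite hx hχ
  obtain ⟨U, h1, h3⟩ := exists_index (p := p) (H := H) (m + 1)
  refine ⟨U, h1, (grow hd (fun n => Module.finrank (ZMod p) (Qt p H n))
    Module.finrank_zero_of_subsingleton (fun n => ?_) m).2.trans h3⟩
  obtain ⟨π, hπ⟩ := exists_mul (p := p) (n + 1) (fun (i : Fin d) (_ : Unit) => ee _ (x i) - 1)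
    fun i _ => ee_sub_mem _
  obtain ⟨ρ, h3, h4⟩ := relations h2 φ hφ g hg hker hχ0 hx hχ n
  obtain ⟨f, hf⟩ := exists_mul (p := p) n ρ fun j => (mem_Pw_pi (a := 1)).1 (h3 j)
  have h5 : LinearMap.ker π ≤ LinearMap.range f := fun y hy => by
    obtain ⟨v, rfl⟩ := hsur _ y
    have h6 := congrFun hy ()
    rw [hπ, ← gπ_apply] at h6
    have h7 : gπ (ZMod p) x v ∈ Pw (n + 2) ⊤ := (Submodule.Quotient.mk_eq_zero _).1 h6
    obtain ⟨z, hz, b, hb, rfl⟩ := Submodule.mem_sup.1 (h4 (x := v) h7)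
    obtain ⟨c, rfl⟩ := (Submodule.mem_span_range_iff_exists_fun _).1 hz
    refine ⟨fun j => Submodule.Quotient.mk (c j), funext fun i => ?_⟩
    rw [hf, Submodule.Quotient.eq]
    refine mem_of_eq (Submodule.neg_mem _ (mem_Pw_pi.1 hb i)) ?_
    simp [Finset.sum_apply]
  have h6 : LinearMap.range π ≠ ⊤ := fun h => by
    obtain ⟨y, hy⟩ := LinearMap.range_eq_top.1 h fun _ => Submodule.Quotient.mk 1
    obtain ⟨v, rfl⟩ := hsur _ y
    have h7 := congrFun hy ()
    rw [hπ, ← gπ_apply, Submodule.Quotient.eq] at h7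
    have h8 := aug_Jm (Jm_map LinearMap.id (Pw_le ⊤ (n + 1)) h7)
    rw [map_sub, aug_Jm (gπ_mem x v), map_one] at h8
    simp at h8
  have h7 := π.finrank_range_add_finrank_ker
  have h8 := (Submodule.finrank_mono h5).trans f.finrank_range_le
  have h9 := Submodule.finrank_lt h6
  simp only [Module.finrank_pi_fintype, Finset.sum_const, Finset.card_univ, Fintype.card_sum,
    Fintype.card_fin, smul_eq_mul, Fintype.card_unique, one_mul] at h7 h8 h9
  omega

end

end Pool.Agent.P.MP_5ee5b4_al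
end

-- part Pool.Agent.P.MP_5ee5b4_al.Frat
section

/-! Homomorphisms to the prime field; growth of their number in the Frattini subgroup. -/

namespace Pool.Agent.P.MP_5ee5b4_al

noncomputable section

set_option linter.unusedSectionVars false

variable {p : ℕ} [hp : Fact p.Prime] {K : Type} [Group K] {d : ℕ} {V : Type} [AddCommGroup V]

/-- the bundled homomorphism -/
def IsHom.mk {f : K → V} (h : IsHom f) : K →* Multiplicative V :=
  MonoidHom.mk' (fun k => Multiplicative.ofAdd (f k)) fun a b => by rw [h]; rfl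

theorem IsHom.one {f : K → V} (h : IsHom f) : f 1 = 0 := map_one h.mk

theorem IsHom.inv {f : K → V} (h : IsHom f) (a : K) : f a⁻¹ = -f a := map_inv h.mk a

theorem IsHom.pow {f : K → V} (h : IsHom f) (a : K) (n : ℕ) : f (a ^ n) = n • f a := map_pow h.mk a n

theorem IsHom.surj [Module (ZMod p) V] {f : K → V} (h : IsHom f)
    (h' : ∀ Z : Submodule (ZMod p) V, (∀ k, f k ∈ Z) → Z = ⊤) : Function.Surjective f := fun y =>
  (h' (AddSubgroup.toZModSubmodule p (Subgroup.toAddSubgroup' h.mk.range)) fun k => ⟨k, rfl⟩).ge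
    (Submodule.mem_top (x := y))

variable (p K) in
theorem exists_basis_hom [hK : Group.FG K] : ∃ (d : ℕ) (χ : Fin d → K → ZMod p) (x : Fin d → K),
    (∀ t, IsHom (χ t)) ∧ (∀ t i, χ t (x i) = if t = i then 1 else 0) ∧
    (∀ ψ : K → ZMod p, IsHom ψ → ∃ a : Fin d → ZMod p, ∀ k, ψ k = ∑ t, a t * χ t k) ∧
    ∀ (e : ℕ) (φ : K → Fin e → ZMod p), IsHom φ → Function.Surjective φ → e ≤ d := by
  let W : Submodule (ZMod p) (K → ZMod p) :=
    { carrier := {f | IsHom f}
      add_mem' := fun {f g} hf hg a b => by simp only [Pi.add_apply, hf a b, hg a b]; ring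
      zero_mem' := fun a b => by simp
      smul_mem' := fun c f hf a b => by simp only [Pi.smul_apply, hf a b, smul_add] }
  obtain ⟨S, hS⟩ := hK.1
  have : Module.Finite (ZMod p) W := Module.Finite.of_injective
    (LinearMap.funLeft (ZMod p) (ZMod p) (Subtype.val : S → K) ∘ₗ W.subtype)
    ((injective_iff_map_eq_zero _).2 fun f hf => Subtype.ext (funext fun k =>
      ((Subgroup.closure_le (IsHom.mk f.2).ker).2 fun a ha => congrFun hf ⟨a, ha⟩)
        (hS.ge (Subgroup.mem_top k))))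
  let b := Module.finBasis (ZMod p) W
  have h1 : IsHom fun k t => (b t).1 k := fun k l => funext fun t => (b t).2 k l
  have h2 := h1.surj (p := p) fun Z hZ => by
    by_contra h
    obtain ⟨l, hl, hl'⟩ := Z.exists_le_ker_of_lt_top (lt_top_iff_ne_top.2 h)
    refine hl ((Pi.basisFun _ _).ext fun i => ?_)
    refine Fintype.linearIndependent_iff.1 b.linearIndependent
      (fun t => l (Pi.basisFun _ _ t)) (Subtype.ext (funext fun k => ?_)) i
    have h3 : l _ = 0 := hl' (hZ k)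
    rw [← (Pi.basisFun (ZMod p) _).sum_repr fun t => (b t).1 k, map_sum] at h3
    simpa [mul_comm] using h3
  choose x hx using fun i => h2 (Pi.single i 1)
  refine ⟨_, fun t => b t, x, fun t => (b t).2, fun t i => ?_, fun ψ hψ => ⟨b.repr ⟨ψ, hψ⟩, fun k => ?_⟩,
    fun e φ hφ hφ' => ?_⟩
  · exact (congrFun (hx i) t).trans (Pi.single_apply _ _ _)
  · refine (congrArg (fun f : W => f.1 k) (b.sum_repr ⟨ψ, hψ⟩)).symm.trans ?_
    simp only [Submodule.coe_sum, Finset.sum_apply, Submodule.coe_smul, Pi.smul_apply, smul_eq_mul]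
  · have := (Fintype.linearIndependent_iff.2 fun a ha j => by
      obtain ⟨k, hk⟩ := hφ' (Pi.single j 1)
      simpa [hk, Pi.single_apply] using congrArg (fun f : W => f.1 k) ha :
      LinearIndependent (ZMod p) fun j : Fin e =>
        (⟨fun k => φ k j, fun a b => congrFun (hφ a b) j⟩ : W)).fintype_card_le_finrank
    simpa using this

/-- the carry in the addition of residues -/
def carry (a b : ZMod p) : ZMod p := ((a.val + b.val) / p : ℕ)

theorem carry_coc (a b c : ZMod p) : carry a b + carry (a + b) c = carry a (b + c) + carry b c := by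
  have h : ∀ a b : ZMod p, p * ((a.val + b.val) / p) + (a + b).val = a.val + b.val := fun a b => by
    rw [ZMod.val_add, Nat.div_add_mod]
  have h1 := h a b
  have h2 := h (a + b) c
  have h3 := h a (b + c)
  have h4 := h b c
  rw [← add_assoc] at h3
  simp only [carry, ← Nat.cast_add]
  congr 1
  refine Nat.eq_of_mul_eq_mul_left hp.out.pos ?_
  rw [mul_add, mul_add]
  omega

theorem carry_zero_left (a : ZMod p) : carry 0 a = 0 := by
  simp [carry, Nat.div_eq_of_lt (ZMod.val_lt a)]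

theorem carry_zero_right (a : ZMod p) : carry a 0 = 0 := by
  simp [carry, Nat.div_eq_of_lt (ZMod.val_lt a)]

theorem frattini_growth (h2 : H2c p K d) {χ : Fin d → K → ZMod p} {x : Fin d → K}
    (hχ : ∀ t, IsHom (χ t)) (hx : ∀ t i, χ t (x i) = if t = i then 1 else 0)
    (hd : 4 ≤ d) (Φ : Subgroup K) (hΦ : ∀ k, k ∈ Φ ↔ ∀ t, χ t k = 0) :
    ∃ φ : Φ → Fin (d + 1) → ZMod p, IsHom φ ∧ Function.Surjective φ := by
  have hd' : d + 1 + d ≤ Fintype.card {st : Fin d × Fin d // st.1 ≤ st.2} := by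
    rw [← Fintype.card_congr Sym2.sortEquiv, Sym2.card, Fintype.card_fin, Nat.choose_two_right,
      Nat.le_div_iff_mul_le two_pos, Nat.add_sub_cancel]
    nlinarith
  let c : K → K → {st : Fin d × Fin d // st.1 ≤ st.2} → ZMod p := fun k l st =>
    if st.1.1 = st.1.2 then carry (χ st.1.1 k) (χ st.1.1 l) else χ st.1.1 k * χ st.1.2 l
  obtain ⟨v, b, hb⟩ := h2 _ c fun k l m => funext fun st => by
    simp only [c, Pi.add_apply, hχ _ k l, hχ _ l m]
    split_ifs
    · exact carry_coc _ _ _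
    · ring
  set q := (Submodule.span (ZMod p) (Set.range v)).mkQ
  have h3 : ∀ k l, b (k * l) = b k + b l - q (c k l) := fun k l => by
    rw [show q (c k l) = _ from hb k l, sub_sub_cancel]
  have h4 : ∀ k ∈ Φ, ∀ l, b (k * l) = b k + b l := fun k hk l => by
    have : c k l = 0 := funext fun st => by simp [c, (hΦ k).1 hk, carry_zero_left]
    rw [h3, this, map_zero, sub_zero]
  have h5 : IsHom fun k : Φ => b k := fun k l => h4 k k.2 l
  have h6 := h5.surj (p := p) fun Z hZ => by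
    rw [eq_top_iff, ← Submodule.range_mkQ, ← Submodule.map_top, ← (Pi.basisFun _ _).span_eq,
      Submodule.map_span, Submodule.span_le]
    rintro _ ⟨_, ⟨⟨⟨s, t⟩, hst⟩, rfl⟩, rfl⟩
    refine Z.neg_mem_iff.1 ?_
    rcases eq_or_lt_of_le hst with h | h
    · obtain rfl : s = t := h
      have h6 : ∀ j : ℕ, c (x s ^ j) (x s) = carry (j : ZMod p) 1 • Pi.single ⟨(s, s), hst⟩ 1 :=
        fun j => funext fun ⟨⟨a, e⟩, hae⟩ => by
          simp only [c, (hχ _).pow, hx, Pi.smul_apply, Pi.single_apply, Subtype.mk.injEq,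
            Prod.mk.injEq]
          by_cases h1 : a = s <;> by_cases h2 : e = s <;> simp_all [carry_zero_left, eq_comm]
      have h7 : ∀ j : ℕ, j < p → b (x s ^ j) = j • b (x s) := fun j hj => by
        induction j with
        | zero => rw [pow_zero, zero_smul]; exact h5.one
        | succ j ih =>
          rw [pow_succ, h3, ih (by omega), h6, carry, ZMod.val_natCast_of_lt (by omega), ZMod.val_one,
            Nat.div_eq_of_lt hj, succ_nsmul]
          simp
      obtain ⟨j, hj⟩ := Nat.exists_eq_succ_of_ne_zero hp.out.ne_zero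
      have h8 : x s ^ (j + 1) ∈ Φ := (hΦ _).2 fun t => by
        rw [(hχ t).pow, ← Nat.succ_eq_add_one, ← hj, nsmul_eq_mul, ZMod.natCast_self, zero_mul]
      refine mem_of_eq (hZ ⟨_, h8⟩) ?_
      change _ = b (x s ^ (j + 1))
      rw [pow_succ, h3, h7 j (by omega), h6, carry, ZMod.val_natCast_of_lt (by omega), ZMod.val_one,
        ← succ_nsmul, ← Nat.succ_eq_add_one, ← hj, Nat.div_self hp.out.pos,
        ← Nat.cast_smul_eq_nsmul (ZMod p), ZMod.natCast_self]
      simp [q]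
    · have h' : s ≠ t := h.ne
      have h6 : c (x s) (x t) = Pi.single ⟨(s, t), hst⟩ 1 := funext fun ⟨⟨a, e⟩, hae⟩ => by
        simp only [c, hx, Pi.single_apply, Subtype.mk.injEq, Prod.mk.injEq]
        by_cases h1 : a = s <;> by_cases h2 : e = t <;> by_cases h3 : a = e <;>
          simp_all [carry_zero_left, carry_zero_right]
      have h7 : c (x t) (x s) = 0 := funext fun ⟨⟨a, e⟩, hae⟩ => by
        simp only [c, hx, Pi.zero_apply]
        by_cases h1 : a = t
        · subst h1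
          have : e ≠ s := (lt_of_lt_of_le h hae).ne'
          simp [this, h'.symm, carry_zero_right]
        · simp [h1, carry_zero_left]
      have h8 : x s * x t * (x t * x s)⁻¹ ∈ Φ := (hΦ _).2 fun r => by
        rw [hχ, (hχ r).inv, hχ, hχ]; ring
      refine mem_of_eq (hZ ⟨_, h8⟩) ?_
      have h9 := h4 _ h8 (x t * x s)
      rw [inv_mul_cancel_right, h3 (x s), h3 (x t), h6, h7, map_zero, sub_zero] at h9
      rw [eq_sub_of_add_eq h9.symm]
      simp [q]
      abel
  have h7 := (Submodule.span (ZMod p) (Set.range v)).finrank_quotient_add_finrank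
  have h8 := finrank_range_le_card (R := ZMod p) v
  rw [Module.finrank_fintype_fun_eq_card] at h7
  rw [Fintype.card_fin, Set.finrank] at h8
  let L := LinearMap.funLeft (ZMod p) (ZMod p) (Fin.castLE (by omega : d + 1 ≤ _)) ∘ₗ
    (Module.finBasis (ZMod p) (_ ⧸ Submodule.span (ZMod p) (Set.range v))).equivFun.toLinearMap
  have hL : Function.Surjective L := by
    rw [LinearMap.coe_comp]
    exact (LinearMap.funLeft_surjective_of_injective _ _ _ (Fin.castLE_injective _)).comp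
      (LinearEquiv.surjective _)
  exact ⟨fun k => L (b k), fun k l => by rw [← map_add]; exact congrArg L (h5 k l), hL.comp h6⟩

end

end Pool.Agent.P.MP_5ee5b4_al
end

-- part Pool.Agent.P.MP_5ee5b4_al.Sanov
section

/-! Lifting through finite groups of prime power order and free subgroups. -/

namespace Pool.Agent.P.MP_5ee5b4_al

open Matrix MatrixGroups CongruenceSubgroup

variable {K P P' : Type} [Group K] [Group P] [Group P'] {p : ℕ} [hp : Fact p.Prime]

theorem exists_zmod_hom (z : P) (ho : orderOf z = p) : ∃ e : ZMod p → P,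
    (∀ a b, e (a + b) = e a * e b) ∧ (∀ n : ℤ, e n = z ^ n) ∧ Function.Injective e := by
  let f : {f : ℤ →+ Additive P // f p = 0} := ⟨zmultiplesHom _ (Additive.ofMul z), by
    change z ^ (p : ℤ) = 1
    rw [zpow_natCast, ← ho, pow_orderOf_eq_one]⟩
  refine ⟨fun a => Additive.toMul (ZMod.lift p f a), fun a b => congrArg Additive.toMul (map_add _ a b),
    fun n => congrArg Additive.toMul (ZMod.lift_coe p f n), 
    Additive.toMul.injective.comp ((ZMod.lift_injective p (f := f)).2 fun m hm => ?_)⟩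
  rw [ZMod.intCast_zmod_eq_zero_iff_dvd, ← ho]
  exact orderOf_dvd_iff_zpow_eq_one.2 hm

theorem CL.lift (h : CL K) (π : P →* P') (hπ : Function.Surjective π) (z : P)
    (hz : ∀ x, x * z = z * x) (ho : orderOf z = p) (hk : ∀ x, π x = 1 ↔ x ∈ Subgroup.zpowers z)
    (θ : K →* P') : ∃ θ' : K →* P, ∀ k, π (θ' k) = θ k := by
  obtain ⟨e, e1, e2, e3⟩ := exists_zmod_hom z ho
  have e4 : ∀ a x, x * e a = e a * x := fun a x => by
    obtain ⟨n, rfl⟩ := ZMod.intCast_surjective a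
    rw [e2]
    exact ((show Commute x z from hz x).zpow_right n).eq
  have e5 : ∀ a, π (e a) = 1 := fun a => by
    obtain ⟨n, rfl⟩ := ZMod.intCast_surjective a
    exact (hk _).2 ⟨n, (e2 n).symm⟩
  choose s hs using fun k => hπ (θ k)
  have h1 : ∀ k l, ∃ a, s k * s l = e a * s (k * l) := fun k l => by
    obtain ⟨n, hn⟩ := (hk (s k * s l * (s (k * l))⁻¹)).1 (by simp [hs])
    exact ⟨n, by rw [e2, show z ^ n = _ from hn, inv_mul_cancel_right]⟩
  choose c hc using h1
  obtain ⟨b, hb⟩ := h p c fun k l m => e3 (mul_right_cancel (b := s (k * l * m)) (by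
    calc e (c k l + c (k * l) m) * s (k * l * m) = s k * s l * s m := by
          rw [e1, mul_assoc, ← hc, ← mul_assoc, ← hc]
      _ = e (c l m) * (s k * s (l * m)) := by
          rw [mul_assoc, hc l m, ← mul_assoc, e4, mul_assoc]
      _ = _ := by rw [hc, add_comm, e1, mul_assoc, mul_assoc]))
  refine ⟨MonoidHom.mk' (fun k => e (-b k) * s k) fun k l => ?_, fun k => ?_⟩
  · calc e (-b (k * l)) * s (k * l) = e (-b k) * e (-b l) * (s k * s l) := by
          rw [hc, hb, ← mul_assoc, ← e1, ← e1]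
          congr 2
          ring
      _ = _ := by rw [mul_assoc, ← mul_assoc (e (-b l)), ← e4 _ (s k), mul_assoc, mul_assoc]
  · change π (e (-b k) * s k) = _
    rw [map_mul, e5, hs, one_mul]

theorem CL.pair (h : CL K) (a b : K) (χ ψ : K → ZMod p) (hχ : IsHom χ) (hψ : IsHom ψ)
    (h1 : χ a = 1) (h2 : χ b = 0) (h3 : ψ a = 0) (h4 : ψ b = 1) (P : Type) [Group P] [Finite P]
    (hP : IsPGroup p P) (x y : P) : ∃ θ : K →* P, θ a = x ∧ θ b = y := by
  induction hn : Nat.card P using Nat.strong_induction_on generalizing P with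
  | _ n ih =>
  rcases subsingleton_or_nontrivial P with hs | hs
  · exact ⟨1, Subsingleton.elim _ _, Subsingleton.elim _ _⟩
  have := hP.center_nontrivial
  obtain ⟨z, ho⟩ := exists_prime_orderOf_dvd_card' (G := Subgroup.center P) p
    (((hP.to_subgroup _).card_eq_or_dvd).resolve_left Finite.one_lt_card.ne')
  have hz : ∀ x : P, x * z = z * x := Subgroup.mem_center_iff.1 z.2
  rw [← Subgroup.orderOf_coe] at ho
  have : (Subgroup.zpowers (z : P)).Normal := ⟨fun u hu g => by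
    obtain ⟨n, rfl⟩ := hu
    exact ⟨n, by rw [((show Commute g z from hz g).zpow_right n).eq, mul_inv_cancel_right]⟩⟩
  obtain ⟨θ, h5, h6⟩ := ih _ (by
    rw [← hn, Subgroup.card_eq_card_quotient_mul_card_subgroup (Subgroup.zpowers (z : P)),
      Nat.card_zpowers, ho]
    exact lt_mul_of_one_lt_right Nat.card_pos hp.out.one_lt) (P ⧸ Subgroup.zpowers (z : P))
    (hP.to_quotient _) x y rfl
  obtain ⟨θ', h7⟩ := h.lift (QuotientGroup.mk' _) (QuotientGroup.mk'_surjective _) (z : P) hz ho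
    (fun x => QuotientGroup.eq_one_iff x) θ
  obtain ⟨e, e1, e2, -⟩ := exists_zmod_hom (z : P) ho
  have e4 : ∀ a x, x * e a = e a * x := fun a x => by
    obtain ⟨n, rfl⟩ := ZMod.intCast_surjective a
    rw [e2]
    exact ((show Commute x z from hz x).zpow_right n).eq
  obtain ⟨i, hi⟩ := QuotientGroup.eq.1 ((h7 a).trans h5)
  obtain ⟨j, hj⟩ := QuotientGroup.eq.1 ((h7 b).trans h6)
  refine ⟨MonoidHom.mk' (fun k => θ' k * e (i * χ k + j * ψ k)) fun k l => ?_, ?_, ?_⟩
  · rw [hχ, hψ, map_mul, mul_assoc, mul_assoc, ← mul_assoc (e _), ← e4 _ (θ' l), mul_assoc, ← e1]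
    congr 3
    ring
  · change θ' a * e (i * χ a + j * ψ a) = x
    rw [h1, h3, mul_one, mul_zero, add_zero, e2, show (z : P) ^ i = _ from hi, mul_inv_cancel_left]
  · change θ' b * e (i * χ b + j * ψ b) = y
    rw [h2, h4, mul_one, mul_zero, zero_add, e2, show (z : P) ^ j = _ from hj, mul_inv_cancel_left]

/-- upper unitriangular matrices -/
def sA (c : ℤ) : SL(2, ℤ) := ⟨!![1, c; 0, 1], by simp [det_fin_two]⟩

/-- lower unitriangular matrices -/
def sB (c : ℤ) : SL(2, ℤ) := ⟨!![1, 0; c, 1], by simp [det_fin_two]⟩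

theorem sA_pow (c : ℤ) (n : ℕ) : sA c ^ n = sA (n * c) := by
  induction n with
  | zero => ext i j; fin_cases i <;> fin_cases j <;> simp [sA]
  | succ n ih => rw [pow_succ, ih]; ext i j; fin_cases i <;> fin_cases j <;> simp [sA]; ring

theorem sB_pow (c : ℤ) (n : ℕ) : sB c ^ n = sB (n * c) := by
  induction n with
  | zero => ext i j; fin_cases i <;> fin_cases j <;> simp [sB]
  | succ n ih => rw [pow_succ, ih]; ext i j; fin_cases i <;> fin_cases j <;> simp [sB]; ring

theorem sanov (c : ℤ) (hc : 4 ≤ c) : Function.Injective (FreeGroup.lift ![sA c, sB c]) := by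
  let X : Fin 2 → Set SL(2, ℤ) := fun i => {g | c * g i.rev 0 ^ 2 ≤ 2 * (g 0 0 * g 1 0)}
  let Y : Fin 2 → Set SL(2, ℤ) := fun i => {g | 2 * (g 0 0 * g 1 0) < -(c * g i.rev 0 ^ 2)}
  have hXX : Disjoint (X 0) (X 1) := Set.disjoint_left.2 fun g h1 h2 => by
    have h3 := g.det_coe
    rw [det_fin_two] at h3
    change c * g 1 0 ^ 2 ≤ _ at h1
    change c * g 0 0 ^ 2 ≤ _ at h2
    have h4 : g 0 0 = 0 := by nlinarith [sq_nonneg (g 0 0 - g 1 0), sq_nonneg (g 0 0), sq_nonneg (g 1 0)]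
    have h5 : g 1 0 = 0 := by nlinarith [sq_nonneg (g 0 0 - g 1 0), sq_nonneg (g 0 0), sq_nonneg (g 1 0)]
    simp [h4, h5] at h3
  have hYY : Disjoint (Y 0) (Y 1) := Set.disjoint_left.2 fun g h1 h2 => by
    change _ < -(c * g 1 0 ^ 2) at h1
    change _ < -(c * g 0 0 ^ 2) at h2
    nlinarith [sq_nonneg (g 0 0 + g 1 0), sq_nonneg (g 0 0), sq_nonneg (g 1 0)]
  have hA : ∀ d (g : SL(2, ℤ)), (sA d * g) 0 0 = g 0 0 + d * g 1 0 ∧ (sA d * g) 1 0 = g 1 0 :=
    fun d g => by simp [sA, Matrix.mul_apply, Fin.sum_univ_two]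
  have hB : ∀ d (g : SL(2, ℤ)), (sB d * g) 0 0 = g 0 0 ∧ (sB d * g) 1 0 = d * g 0 0 + g 1 0 :=
    fun d g => by simp [sB, Matrix.mul_apply, Fin.sum_univ_two]
  have hA' : (sA c)⁻¹ = sA (-c) := by
    rw [inv_eq_iff_mul_eq_one]; ext i j; fin_cases i <;> fin_cases j <;> simp [sA]
  have hB' : (sB c)⁻¹ = sB (-c) := by
    rw [inv_eq_iff_mul_eq_one]; ext i j; fin_cases i <;> fin_cases j <;> simp [sB]
  refine FreeGroup.injective_lift_of_ping_pong _ X Y (fun i => ?_) ?_ ?_ (fun i j => ?_)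
    (fun i => ?_) (fun i => ?_)
  · fin_cases i
    · exact ⟨1, by simp [X]⟩
    · exact ⟨⟨!![0, -1; 1, 0], by simp [det_fin_two]⟩, by simp [X]⟩
  · intro i j hij
    fin_cases i <;> fin_cases j
    · exact absurd rfl hij
    · exact hXX
    · exact hXX.symm
    · exact absurd rfl hij
  · intro i j hij
    fin_cases i <;> fin_cases j
    · exact absurd rfl hij
    · exact hYY
    · exact hYY.symm
    · exact absurd rfl hij
  · refine Set.disjoint_left.2 fun g h1 h2 => ?_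
    simp only [X, Y, Set.mem_ofPred_eq] at h1 h2
    nlinarith [sq_nonneg (g i.rev 0), sq_nonneg (g j.rev 0)]
  · rintro _ ⟨g, hg, rfl⟩
    fin_cases i
    · change ¬ _ < -(c * g 1 0 ^ 2) at hg
      change c * (sA c * g) 1 0 ^ 2 ≤ 2 * ((sA c * g) 0 0 * (sA c * g) 1 0)
      rw [(hA c g).1, (hA c g).2]
      nlinarith
    · change ¬ _ < -(c * g 0 0 ^ 2) at hg
      change c * (sB c * g) 0 0 ^ 2 ≤ 2 * ((sB c * g) 0 0 * (sB c * g) 1 0)
      rw [(hB c g).1, (hB c g).2]
      nlinarith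
  · rintro _ ⟨g, hg, rfl⟩
    fin_cases i
    · change ¬ c * g 1 0 ^ 2 ≤ _ at hg
      change 2 * (((sA c)⁻¹ * g) 0 0 * ((sA c)⁻¹ * g) 1 0) < -(c * ((sA c)⁻¹ * g) 1 0 ^ 2)
      rw [hA', (hA _ g).1, (hA _ g).2]
      nlinarith
    · change ¬ c * g 0 0 ^ 2 ≤ _ at hg
      change 2 * (((sB c)⁻¹ * g) 0 0 * ((sB c)⁻¹ * g) 1 0) < -(c * ((sB c)⁻¹ * g) 0 0 ^ 2)
      rw [hB', (hB _ g).1, (hB _ g).2]
      nlinarith

theorem mem_Gamma_iff {n : ℕ} {g : SL(2, ℤ)} :
    g ∈ Gamma n ↔ ∀ i j, (n : ℤ) ∣ (g.1 - 1 : Matrix (Fin 2) (Fin 2) ℤ) i j := by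
  simp only [Gamma_mem, Fin.forall_fin_two, ← ZMod.intCast_zmod_eq_zero_iff_dvd]
  simp [sub_eq_zero, and_assoc]

theorem pow_mem_Gamma {g : SL(2, ℤ)} (hg : g ∈ Gamma 2) (m : ℕ) : g ^ 2 ^ m ∈ Gamma (2 ^ (m + 1)) := by
  induction m with
  | zero => simpa using hg
  | succ m ih =>
    rw [pow_succ 2 m, pow_mul] at *
    generalize g ^ 2 ^ m = u at ih
    rw [mem_Gamma_iff] at *
    choose Z hZ using ih
    have h1 : u.1 = 1 + ((2 ^ m * 2 : ℕ) : ℤ) • Matrix.of Z := by
      rw [← sub_eq_iff_eq_add']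
      ext i j
      exact hZ i j
    intro i j
    refine ⟨(Matrix.of Z + (2 ^ m : ℤ) • (Matrix.of Z * Matrix.of Z)) i j, ?_⟩
    rw [← smul_eq_mul, ← Matrix.smul_apply]
    refine congrFun (congrFun ?_ i) j
    change (u ^ 2).1 - 1 = _
    rw [sq, show (u * u).1 = u.1 * u.1 from rfl, h1]
    simp only [mul_add, add_mul, mul_one, one_mul, Matrix.mul_smul, Matrix.smul_mul]
    push_cast
    module

theorem CL.not_pair (h : CL K) (hN : NF (⊤ : Subgroup K)) (a b : K) (χ ψ : K → ZMod 2)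
    (hχ : IsHom χ) (hψ : IsHom ψ) (h1 : χ a = 1) (h2 : χ b = 0) (h3 : ψ a = 0) (h4 : ψ b = 1) :
    False := by
  obtain ⟨k, hk, hk'⟩ := hN a trivial b trivial 1
  refine hk' ((injective_iff_map_eq_one _).2 fun u hu => ?_)
  refine (injective_iff_map_eq_one _).1 (sanov (((2 * k : ℕ) : ℤ) * 2) (by omega)) u ?_
  let A : Gamma 2 := ⟨sA 2, by simp [Gamma_mem, sA]; rfl⟩
  let B : Gamma 2 := ⟨sB 2, by simp [Gamma_mem, sB]; rfl⟩
  have h5 : FreeGroup.lift ![sA (((2 * k : ℕ) : ℤ) * 2), sB (((2 * k : ℕ) : ℤ) * 2)] =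
      (Gamma 2).subtype.comp (FreeGroup.lift ![A ^ (2 * k), B ^ (2 * k)]) :=
    FreeGroup.ext_hom _ _ fun i => by fin_cases i <;> simp [A, B, sA_pow, sB_pow]
  rw [h5]
  set g := FreeGroup.lift ![A ^ (2 * k), B ^ (2 * k)] u with hg
  have h6 : ∀ m : ℕ, (g : SL(2, ℤ)) ∈ Gamma (2 ^ (m + 1)) := fun m => by
    have := Gamma_normal (2 ^ (m + 1))
    let L := (Gamma (2 ^ (m + 1))).subgroupOf (Gamma 2)
    obtain ⟨θ, h7, h8⟩ := h.pair a b χ ψ hχ hψ h1 h2 h3 h4 (Gamma 2 ⧸ L) (fun x => ⟨m, by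
      obtain ⟨x, rfl⟩ := QuotientGroup.mk_surjective x
      exact (QuotientGroup.eq_one_iff (x ^ 2 ^ m)).2 (pow_mem_Gamma x.2 m)⟩) A B
    have h9 : (QuotientGroup.mk' L).comp (FreeGroup.lift ![A ^ (2 * k), B ^ (2 * k)]) =
        θ.comp (FreeGroup.lift ![a ^ (2 * k), b ^ (2 * k)]) :=
      FreeGroup.ext_hom _ _ fun i => by fin_cases i <;> simp [h7, h8]
    have h10 := DFunLike.congr_fun h9 u
    rw [MonoidHom.comp_apply, MonoidHom.comp_apply, hu, map_one] at h10
    exact (QuotientGroup.eq_one_iff g).1 h10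
  refine Subtype.ext (sub_eq_zero.1 (Matrix.ext fun i j => ?_))
  have h7 := mem_Gamma_iff.1 (h6 ((g.1.1 - 1 : Matrix (Fin 2) (Fin 2) ℤ) i j).natAbs) i j
  refine Int.eq_zero_of_dvd_of_natAbs_lt_natAbs h7 ?_
  rw [Int.natAbs_natCast]
  exact (Nat.lt_succ_self _).trans Nat.lt_two_pow_self

end Pool.Agent.P.MP_5ee5b4_al
end

-- part Pool.Agent.P.MP_5ee5b4_al.Tame
section

/-! Groups all of whose subgroups have split central extensions and no free subgroups. -/

namespace Pool.Agent.P.MP_5ee5b4_al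

open Pool.Agent.P.MP_6e40fc_al
open scoped MonoidAlgebra commutatorElement

variable {H K : Type} [Group H] [Group K]

/-- all subgroups have split central extensions of prime order and there is no free subgroup -/
def Tame (H : Type) [Group H] : Prop :=
  ∀ (K : Type) [Group K] (j : K →* H), Function.Injective j → CL K ∧ NF (⊤ : Subgroup K)

theorem Tame.sub (h : Tame H) (L : Subgroup H) : Tame L :=
  fun K _ j hj => h K (L.subtype.comp j) (Subtype.val_injective.comp hj)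

theorem CL.of_equiv (h : CL H) (e : K ≃* H) : CL K := fun p _ c hc => by
  obtain ⟨b, hb⟩ := h p (fun x y => c (e.symm x) (e.symm y)) fun x y z => by
    simpa using hc (e.symm x) (e.symm y) (e.symm z)
  exact ⟨fun x => b (e x), fun x y => by simpa using hb (e x) (e y)⟩

theorem tame_of {Γ : Type} [Group Γ] {N : Subgroup Γ} (h : ∀ K ≤ N, CL K) (h' : NF N) : Tame N :=
  fun _ _ j hj => by
    have hi : Function.Injective (N.subtype.comp j) := Subtype.val_injective.comp hj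
    exact ⟨(h _ (by rintro _ ⟨k, rfl⟩; exact (j k).2)).of_equiv (MonoidHom.ofInjective hi),
      (h'.comap _ hi).mono fun k _ => (j k).2⟩

theorem Tame.rk1 (h : Tame K) [Group.FG K] :
    ∃ χ : K →* Multiplicative ℤ, χ.ker = commutator K := by
  classical
  obtain ⟨h1, h2⟩ := h K (MonoidHom.id K) Function.injective_id
  have : Group.FG (Abelianization K) := Group.fg_of_surjective (f := Abelianization.of)
    QuotientGroup.mk_surjective
  obtain ⟨n, ι, _, p, hp, e, ⟨E⟩⟩ :=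
    AddCommGroup.equiv_free_prod_directSum_zmod (Additive (Abelianization K))
  let φ := fun k : K => E (Additive.ofMul (Abelianization.of k))
  have φ1 : ∀ k l, φ (k * l) = φ k + φ l := fun k l => by simp [φ]
  have φ2 : Function.Surjective φ := E.surjective.comp QuotientGroup.mk_surjective
  have φ3 : ∀ k, φ k = 0 ↔ k ∈ commutator K := fun k =>
    (map_eq_zero_iff E E.injective).trans (QuotientGroup.eq_one_iff k)
  have he : ∀ i, e i = 0 := fun i => by
    by_contra h0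
    have := Fact.mk (hp i)
    have hp0 := (hp i).pos
    obtain ⟨θ, hθ⟩ := h1.lift (p := p i) (AddMonoidHom.toMultiplicative (ZMod.castHom
      (Dvd.intro (p i) rfl : p i ^ e i ∣ p i ^ e i * p i) (ZMod (p i ^ e i))).toAddMonoidHom)
      (ZMod.castHom_surjective (Dvd.intro (p i) rfl)) (Multiplicative.ofAdd ((p i ^ e i : ℕ) : ZMod _))
      (fun x => mul_comm _ _) (by
        rw [orderOf_ofAdd_eq_addOrderOf, ZMod.addOrderOf_coe _ (by positivity),
          Nat.gcd_mul_right_left, Nat.mul_div_cancel_left _ (by positivity)])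
      (fun x => by
        obtain ⟨m, hm⟩ := ZMod.intCast_surjective x.toAdd
        obtain rfl : x = Multiplicative.ofAdd (m : ZMod _) := hm.symm
        change ZMod.castHom (Dvd.intro (p i) rfl : p i ^ e i ∣ p i ^ e i * p i) (ZMod (p i ^ e i))
          (m : ZMod _) = 0 ↔ _
        rw [map_intCast, ZMod.intCast_zmod_eq_zero_iff_dvd]
        constructor
        · rintro ⟨c, rfl⟩
          exact ⟨c, by simp [← ofAdd_zsmul, mul_comm]⟩
        · rintro ⟨c, hc⟩
          have h3 : ((c * (p i ^ e i : ℕ) : ℤ) : ZMod (p i ^ e i * p i)) = m := by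
            simpa [← ofAdd_zsmul] using hc
          have h4 := congrArg (ZMod.castHom (Dvd.intro (p i) rfl : p i ^ e i ∣ p i ^ e i * p i)
            (ZMod (p i ^ e i))) h3
          rw [map_intCast, map_intCast, Int.cast_mul, Int.cast_natCast, ZMod.natCast_self,
            mul_zero, eq_comm, ZMod.intCast_zmod_eq_zero_iff_dvd] at h4
          exact h4)
      (MonoidHom.mk' (fun k => Multiplicative.ofAdd ((φ k).2 i)) fun k l => by rw [φ1]; rfl)
    obtain ⟨a, ha⟩ := φ2 (0, DirectSum.of _ i 1)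
    have h3 : θ (a ^ p i ^ e i) = 1 := Abelianization.commutator_subset_ker θ ((φ3 _).1 (by
      have : φ (a ^ p i ^ e i) = (p i ^ e i) • φ a := by simp [φ]
      rw [this, ha, Prod.smul_mk, smul_zero, ← map_nsmul, nsmul_eq_mul, ZMod.natCast_self, zero_mul,
        map_zero]
      rfl))
    obtain ⟨m, hm⟩ := ZMod.intCast_surjective (θ a).toAdd
    have h4 : (((p i ^ e i : ℕ) * m : ℤ) : ZMod (p i ^ e i * p i)) = 0 := by
      rw [Int.cast_mul, hm, Int.cast_natCast, ← nsmul_eq_mul, ← toAdd_pow, ← map_pow, h3, toAdd_one]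
    have h5 : ((m - 1 : ℤ) : ZMod (p i ^ e i)) = 0 := by
      have := hθ a
      change ZMod.castHom (Dvd.intro (p i) rfl : p i ^ e i ∣ p i ^ e i * p i) (ZMod (p i ^ e i))
        (θ a).toAdd = (φ a).2 i at this
      rw [← hm, map_intCast, ha, DirectSum.of_eq_same] at this
      rw [Int.cast_sub, this, Int.cast_one, sub_self]
    rw [ZMod.intCast_zmod_eq_zero_iff_dvd] at h4 h5
    rw [Nat.cast_mul, mul_dvd_mul_iff_left (by positivity)] at h4
    have h6 := (dvd_sub h4 ((Int.natCast_dvd_natCast.2 (dvd_pow_self _ h0)).trans h5))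
    rw [sub_sub_cancel] at h6
    exact (hp i).one_lt.ne' (Nat.dvd_one.1 (Int.natCast_dvd_natCast.1 h6))
  have hn : Subsingleton (Fin n) := ⟨fun i j => by_contra fun hij => by
    obtain ⟨a, ha⟩ := φ2 (Finsupp.single i 1, 0)
    obtain ⟨b, hb⟩ := φ2 (Finsupp.single j 1, 0)
    exact h1.not_pair h2 a b (fun k => (φ k).1 i) (fun k => (φ k).1 j)
      (fun k l => by simp [φ1]) (fun k l => by simp [φ1]) (by simp [ha]) (by simp [hb, hij])
      (by simp [ha, Ne.symm hij]) (by simp [hb])⟩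
  refine ⟨MonoidHom.mk' (fun k => Multiplicative.ofAdd (∑ i, (φ k).1 i)) fun k l => by
    simp [φ1, Finset.sum_add_distrib], Subgroup.ext fun k => ?_⟩
  rw [← φ3]
  change ∑ i, (φ k).1 i = 0 ↔ _
  refine ⟨fun h3 => Prod.ext (Finsupp.ext fun i => ?_) (DFinsupp.ext fun i => ?_),
    fun h3 => by simp [h3]⟩
  · rwa [Fintype.sum_subsingleton _ i] at h3
  · have : Subsingleton (ZMod (p i ^ e i)) := by rw [he, pow_zero]; infer_instance
    exact Subsingleton.elim _ _

theorem lv_of_finiteIndex (ψ : K →* Multiplicative ℤ) (M : Subgroup K) [M.FiniteIndex]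
    (h : ∀ x ∈ M, lv ψ x = 0) (k : K) : lv ψ k = 0 := by
  obtain ⟨m, hm, -, hm'⟩ := Subgroup.exists_pow_mem_of_index_ne_zero
    (Subgroup.FiniteIndex.index_ne_zero (H := M)) k
  have := h _ hm'
  rw [lv_pow] at this
  exact (mul_eq_zero.1 this).resolve_left (by omega)

theorem Tame.act (h : Tame K) [Group.FG K] (M : Subgroup K) [hM : M.Normal] [M.FiniteIndex] :
    ⁅(⊤ : Subgroup K), M⁆ ≤ ⁅M, M⁆ := by
  obtain ⟨ψ, hψ⟩ := h.rk1
  obtain ⟨χ0, hχ0⟩ := (h.sub M).rk1
  have h1 : ∀ x : M, x ∈ commutator M → (x : K) ∈ ⁅M, M⁆ := fun x hx => by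
    rw [← M.map_subtype_commutator]
    exact ⟨x, hx, rfl⟩
  by_cases h0 : ∀ x, lv χ0 x = 0
  · exact fun x hx => h1 ⟨x, Subgroup.commutator_le_right _ _ hx⟩ (hχ0 ▸ (lv_eq_zero _).1 (h0 _))
  obtain ⟨x0, hx0⟩ := not_forall.1 h0
  obtain ⟨χ, t, ht, hχ⟩ := exists_normalized χ0 hx0
  rw [hχ0] at hχ
  let c : K →* MulAut M := MulAut.conjNormal
  have h2 : ∀ k x, lv χ (c k x) = lv χ x * lv χ (c k t) := fun k x => by
    have h3 : x * t ^ (-lv χ x) ∈ commutator M := hχ ▸ (lv_eq_zero _).1 (by simp [ht])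
    have h4 := Abelianization.commutator_subset_ker (χ.comp (c k).toMonoidHom) h3
    have h5 : lv χ (c k (x * t ^ (-lv χ x))) = 0 := (lv_eq_zero _).2 h4
    rw [map_mul, map_zpow, lv_mul, lv_zpow] at h5
    linear_combination h5
  let u : K →* ℤ :=
    { toFun := fun k => lv χ (c k t)
      map_one' := by simp [ht]
      map_mul' := fun k l => by rw [map_mul, MulAut.mul_apply, h2, mul_comm] }
  have h3 : ∀ k, u k = 1 := fun k => by
    rcases Int.isUnit_iff.1 (u.toHomUnits k).isUnit with h3 | h3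
    · exact h3
    have h4 : ∀ x ∈ M, lv ψ x = 0 := fun x hx => by
      have h5 : c k ⟨x, hx⟩ * ⟨x, hx⟩ ∈ commutator M := hχ ▸ (lv_eq_zero _).1 (by
        rw [lv_mul, h2, show lv χ (c k t) = -1 from h3]; ring)
      have h6 := (lv_eq_zero ψ).2 (hψ.ge (Subgroup.commutator_mono le_top le_top (h1 _ h5)))
      simp only [c, Subgroup.coe_mul, MulAut.conjNormal_apply, lv_mul, lv_inv] at h6
      omega
    have h5 := Abelianization.commutator_subset_ker u.toHomUnits
      (hψ ▸ (lv_eq_zero ψ).1 (lv_of_finiteIndex ψ M h4 k))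
    exact congrArg Units.val h5
  refine Subgroup.commutator_le.2 fun k _ x hx => h1 (c k ⟨x, hx⟩ * (⟨x, hx⟩ : M)⁻¹) ?_
  refine hχ ▸ (lv_eq_zero _).1 ?_
  rw [lv_mul, h2, show lv χ (c k t) = 1 from h3 k, lv_inv]
  ring

theorem Tame.cyclic_of_solvable (P : Type) [Group P] [Finite P] [Group.IsSolvable P] :
    ∀ (K : Type) [Group K] [Group.FG K], Tame K → ∀ φ : K →* P, Function.Surjective φ →
      IsCyclic P := by
  induction hn : Nat.card P using Nat.strong_induction_on generalizing P with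
  | _ n ih =>
  intro K _ _ h φ hφ
  rcases subsingleton_or_nontrivial P with hs | hs
  · exact isCyclic_of_subsingleton
  let M := (commutator P).comap φ
  have : M.FiniteIndex := ⟨by
    rw [Subgroup.index_comap_of_surjective _ hφ]
    exact Subgroup.FiniteIndex.index_ne_zero⟩
  have h1 : IsCyclic (commutator P) := ih _ (by
    rw [← hn]
    exact (Subgroup.card_le_card_group _).lt_of_ne fun h =>
      (Group.IsSolvable.commutator_lt_top_of_nontrivial P).ne (Subgroup.eq_top_of_card_eq _ h)) _ rfl M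
    (h.sub M) (φ.subgroupComap _) (φ.subgroupComap_surjective_of_surjective _ hφ)
  have h2 : ⁅(⊤ : Subgroup P), commutator P⁆ = ⊥ := by
    have := Subgroup.map_mono (f := φ) (h.act M)
    rw [Subgroup.map_commutator, Subgroup.map_commutator, Subgroup.map_comap_eq_self_of_surjective hφ,
      Subgroup.map_top_of_surjective _ hφ] at this
    refine le_bot_iff.1 (this.trans (Subgroup.commutator_le.2 fun a ha b hb => ?_))
    exact commutatorElement_eq_one_iff_mul_comm.2 (congrArg Subtype.val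
      (IsCyclic.isMulCommutative.is_comm.comm (⟨a, ha⟩ : commutator P) ⟨b, hb⟩))
  obtain ⟨χ, hχ⟩ := h.rk1
  have h3 : IsCyclic (Abelianization P) := by
    have : IsCyclic (K ⧸ χ.ker) := isCyclic_of_injective _ (QuotientGroup.kerLift_injective χ)
    refine isCyclic_of_surjective (QuotientGroup.lift χ.ker (Abelianization.of.comp φ)
      (hχ ▸ Abelianization.commutator_subset_ker _)) fun y => ?_
    obtain ⟨y, rfl⟩ := QuotientGroup.mk_surjective y
    obtain ⟨y, rfl⟩ := hφ y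
    exact ⟨y, rfl⟩
  have h4 := (Abelianization.of (G := P)).isMulCommutative_of_isCyclic_of_ker_le_center (by
    rw [Abelianization.ker_of]
    refine fun x hx => Subgroup.mem_center_iff.2 fun g => commutatorElement_eq_one_iff_mul_comm.1 ?_
    exact Subgroup.mem_bot.1 (h2 ▸ Subgroup.commutator_mem_commutator (Subgroup.mem_top g) hx))
  refine isCyclic_of_injective Abelianization.of ?_
  rw [← MonoidHom.ker_eq_bot_iff, Abelianization.ker_of, eq_bot_iff]
  exact Subgroup.commutator_le.2 fun a _ b _ =>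
    commutatorElement_eq_one_iff_mul_comm.2 (h4.is_comm.comm a b)

theorem Tame.cyclic (h : Tame K) (P : Type) [Group P] [Finite P] (φ : K →* P)
    (hφ : Function.Surjective φ) : IsCyclic P := by
  choose s hs using hφ
  let L := Subgroup.closure (Set.range s)
  have : Group.FG L := Group.closure_finite_fg _
  have h1 : Function.Surjective (φ.comp L.subtype) := fun y =>
    ⟨⟨s y, Subgroup.subset_closure ⟨y, rfl⟩⟩, hs y⟩
  have : IsZGroup P := ⟨fun p hp S => by
    have := Fact.mk hp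
    have := S.isPGroup'.isNilpotent
    have : ((S : Subgroup P).comap (φ.comp L.subtype)).FiniteIndex := ⟨by
      rw [Subgroup.index_comap_of_surjective _ h1]
      exact Subgroup.FiniteIndex.index_ne_zero⟩
    exact Tame.cyclic_of_solvable _ _ ((h.sub L).sub _) _
      (MonoidHom.subgroupComap_surjective_of_surjective _ _ h1)⟩
  exact Tame.cyclic_of_solvable _ _ (h.sub L) _ h1

end Pool.Agent.P.MP_5ee5b4_al
end

-- part Pool.Agent.P.MP_5ee5b4_al.Perfect
section

/-! The commutator subgroup is perfect. -/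

namespace Pool.Agent.P.MP_5ee5b4_al

open Pool.Agent.P.MP_6e40fc_al
open scoped MonoidAlgebra commutatorElement

variable {K : Type} [Group K]

theorem jacobson_int : IsJacobsonRing ℤ := isJacobsonRing_iff_prime_eq.2 fun P hP => by
  by_cases h : P = ⊥
  · subst h
    refine le_bot_iff.1 fun x hx => ?_
    obtain ⟨q, h1, h2⟩ := Nat.exists_infinite_primes (x.natAbs + 1)
    have := Fact.mk h2
    have h3 : x ∈ Ideal.span {(q : ℤ)} :=
      Ideal.mem_sInf.1 hx ⟨bot_le, Int.ideal_span_isMaximal_of_prime q⟩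
    exact Int.eq_zero_of_dvd_of_natAbs_lt_natAbs (Ideal.mem_span_singleton.1 h3) (by simpa using h1)
  · have := Ring.DimensionLEOne.maximalOfPrime h hP
    exact Ideal.jacobson_eq_self_of_isMaximal

theorem finite_of_finiteType (F : Type) [Field F] [i : Algebra ℤ F] [Algebra.FiniteType ℤ F] :
    Finite F := by
  obtain rfl : i = Ring.toIntAlgebra F := Subsingleton.elim _ _
  have := jacobson_int
  have := finite_of_finite_type_of_isJacobsonRing ℤ F
  obtain ⟨n, hn, hn'⟩ : ∃ n : ℤ, n ≠ 0 ∧ (n : F) = 0 := by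
    by_contra h
    exact Int.not_isField ((Algebra.IsIntegral.isField_iff_isField (R := ℤ) (S := F)
      ((injective_iff_map_eq_zero _).2 fun n hn => by_contra fun h' => h ⟨n, h', hn⟩)).2
      (Field.toIsField F))
  exact Module.finite_of_fg_torsion F fun x =>
    ⟨⟨n, mem_nonZeroDivisors_of_ne_zero hn⟩, by simp [Submonoid.smul_def, hn']⟩

theorem Tame.comm_le (h : Tame K) [Group.FG K] (χ : K →* Multiplicative ℤ)
    (hχ : χ.ker = commutator K) (t : K) (ht : lv χ t = 1) (M : Subgroup K) [M.Normal]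
    [M.FiniteIndex] (hM : commutator K ≤ M) : commutator K ≤ ⁅commutator K, M⁆ := by
  obtain ⟨ψ, hψ⟩ := (h.sub M).rk1
  obtain ⟨m, hm, -, hm'⟩ := Subgroup.exists_pow_mem_of_index_ne_zero
    (Subgroup.FiniteIndex.index_ne_zero (H := M)) t
  let D := ⁅commutator K, M⁆
  have h1 : D.subgroupOf M ≤ (χ.comp M.subtype).ker := fun x hx =>
    hχ.ge (Subgroup.commutator_le_left _ _ hx)
  have h2 := (QuotientGroup.lift _ _ h1).isMulCommutative_of_isCyclic_of_ker_le_center fun x hx => by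
    obtain ⟨x, rfl⟩ := QuotientGroup.mk_surjective x
    refine Subgroup.mem_center_iff.2 fun g => ?_
    obtain ⟨g, rfl⟩ := QuotientGroup.mk_surjective g
    rw [eq_comm, ← commutatorElement_eq_one_iff_mul_comm]
    exact (QuotientGroup.eq_one_iff ⁅x, g⁆).2 (Subgroup.commutator_mem_commutator (hχ.le hx) g.2)
  have h3 : commutator M ≤ D.subgroupOf M := Subgroup.commutator_le.2 fun a _ b _ =>
    (QuotientGroup.eq_one_iff ⁅a, b⁆).1 (commutatorElement_eq_one_iff_mul_comm.2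
      (h2.is_comm.comm (a : M ⧸ D.subgroupOf M) b))
  intro x hx
  refine h3 (x := ⟨x, hM hx⟩) (hψ.le ((lv_eq_zero ψ).1 ?_))
  have h4 : (⟨x, hM hx⟩ : M) ^ lv ψ ⟨_, hm'⟩ * (⟨_, hm'⟩ : M) ^ (-lv ψ ⟨x, hM hx⟩) ∈ ψ.ker :=
    (lv_eq_zero ψ).1 (by rw [lv_mul, lv_zpow, lv_zpow]; ring)
  have h5 := (lv_eq_zero χ).2 (h1 (h3 (hψ.le h4)))
  simp only [Subgroup.coe_subtype, Subgroup.coe_mul, SubgroupClass.coe_zpow, lv_mul, lv_zpow,
    lv_pow, ht, (lv_eq_zero χ).2 (hχ.ge hx), mul_zero, zero_add, mul_one, neg_mul, neg_eq_zero,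
    mul_eq_zero] at h5
  exact h5.resolve_right (by omega)

theorem commutator_le_normalClosure {S : Set K} (hS : Subgroup.closure S = ⊤) :
    commutator K ≤ Subgroup.normalClosure (Set.image2 (fun a b => ⁅a, b⁆) S S) := by
  let π := QuotientGroup.mk' (Subgroup.normalClosure (Set.image2 (fun a b => ⁅a, b⁆) S S))
  refine Subgroup.commutator_le.2 fun a _ b _ => (QuotientGroup.eq_one_iff _).1 ?_
  change π ⁅a, b⁆ = 1
  rw [map_commutatorElement, commutatorElement_eq_one_iff_commute]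
  refine Subgroup.closure_induction₂ (p := fun a b _ _ => Commute (π a) (π b))
    (fun a b ha hb => ?_) (by simp) (by simp) (fun _ _ _ _ _ _ h1 h2 => ?_)
    (fun _ _ _ _ _ _ h1 h2 => ?_) (fun _ _ _ _ h => ?_) (fun _ _ _ _ h => ?_)
    (hS.ge (Subgroup.mem_top a)) (hS.ge (Subgroup.mem_top b))
  · rw [← commutatorElement_eq_one_iff_commute, ← map_commutatorElement]
    exact (QuotientGroup.eq_one_iff _).2 (Subgroup.subset_normalClosure ⟨a, ha, b, hb, rfl⟩)
  · rw [map_mul]; exact h1.mul_left h2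
  · rw [map_mul]; exact h1.mul_right h2
  · rw [map_inv]; exact h.inv_left
  · rw [map_inv]; exact h.inv_right

theorem Tame.perfect_fg (h : Tame K) [hK : Group.FG K] :
    commutator K ≤ ⁅commutator K, commutator K⁆ := by
  obtain ⟨χ0, hχ0⟩ := h.rk1
  by_cases h0 : ∀ x, lv χ0 x = 0
  · have : ⊤ ≤ commutator K := fun x _ => hχ0.le ((lv_eq_zero _).1 (h0 x))
    exact Subgroup.commutator_mono this this
  obtain ⟨x0, hx0⟩ := not_forall.1 h0
  obtain ⟨χ, t, ht, hχ⟩ := exists_normalized χ0 hx0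
  rw [hχ0] at hχ
  let A := Additive (Abelianization (commutator K))
  let cl : commutator K → A := fun x => Additive.ofMul (Abelianization.of x)
  let c : K →* MulAut (commutator K) := MulAut.conjNormal
  let τ : K →* AddMonoid.End A :=
    { toFun := fun k => MonoidHom.toAdditive (Abelianization.map (c k).toMonoidHom)
      map_one' := AddMonoidHom.ext fun a => by
        obtain ⟨a, rfl⟩ := QuotientGroup.mk_surjective a
        rw [map_one]; rfl
      map_mul' := fun k l => AddMonoidHom.ext fun a => by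
        obtain ⟨a, rfl⟩ := QuotientGroup.mk_surjective a
        rw [map_mul]; rfl }
  have hτ : ∀ k x, τ k (cl x) = cl (c k x) := fun _ _ => rfl
  have hcl : ∀ x y, cl (x * y) = cl x + cl y := fun _ _ => rfl
  have hcl' : ∀ x, cl x⁻¹ = -cl x := fun _ => rfl
  let _ : Module ℤ[Multiplicative ℤ] A := Module.compHom A
    (MonoidAlgebra.lift ℤ (AddMonoid.End A) _ (τ.comp (zpowersHom K t))).toRingHom
  have hsm : ∀ k x, o (χ k) • cl x = cl (c k x) := fun k x => by
    have h1 : o (χ k) • cl x = τ (t ^ lv χ k) (cl x) := by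
      change MonoidAlgebra.lift ℤ (AddMonoid.End A) _ (τ.comp (zpowersHom K t))
        (MonoidAlgebra.of ℤ _ (χ k)) (cl x) = _
      rw [MonoidAlgebra.lift_of]
      rfl
    have h2 : k * t ^ (-lv χ k) ∈ commutator K := hχ.le ((lv_eq_zero χ).1 (by simp [ht]))
    have h3 : c k x = ⟨_, h2⟩ * c (t ^ lv χ k) x * (⟨_, h2⟩ : commutator K)⁻¹ :=
      Subtype.ext (by
        simp only [c, MulAut.conjNormal_apply, Subgroup.coe_mul, Subgroup.coe_inv]
        group)
    rw [h1, hτ, h3, hcl, hcl, hcl']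
    abel
  have hgen : ∀ (W : Submodule ℤ[Multiplicative ℤ] A) (T : Set K),
      commutator K ≤ Subgroup.normalClosure T → (∀ x ∈ T, ∃ h, cl ⟨x, h⟩ ∈ W) → ⊤ ≤ W := by
    intro W T h1 h2 a _
    obtain ⟨⟨a, ha⟩, rfl⟩ := QuotientGroup.mk_surjective a
    let L : Subgroup K :=
      { carrier := {x | ∃ h, cl ⟨x, h⟩ ∈ W}
        one_mem' := ⟨one_mem _, W.zero_mem⟩
        mul_mem' := fun ⟨h, h'⟩ ⟨g, g'⟩ => ⟨mul_mem h g, W.add_mem h' g'⟩
        inv_mem' := fun ⟨h, h'⟩ => ⟨inv_mem h, W.neg_mem h'⟩ }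
    have : L.Normal := ⟨fun x ⟨h, h'⟩ g => ⟨(c g ⟨x, h⟩).2, (hsm g ⟨x, h⟩) ▸ W.smul_mem _ h'⟩⟩
    exact (Subgroup.normalClosure_le_normal (N := L) h2 (h1 ha)).2
  obtain ⟨S, hS, hS'⟩ := Group.fg_iff.1 hK
  have hfg : (⊤ : Submodule ℤ[Multiplicative ℤ] A).FG := by
    let f : K → K → A := fun a b =>
      cl ⟨⁅a, b⁆, Subgroup.commutator_mem_commutator trivial trivial⟩
    refine Submodule.fg_def.2 ⟨_, hS'.image2 f hS', top_le_iff.1 (hgen _ _
      (commutator_le_normalClosure hS) ?_)⟩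
    rintro _ ⟨a, ha, b, hb, rfl⟩
    exact ⟨_, Submodule.subset_span ⟨a, ha, b, hb, rfl⟩⟩
  have hA : ∀ a : A, a = 0 := by
    by_contra hcon
    obtain ⟨m, hm, hm'⟩ := Ideal.exists_le_maximal (Module.annihilator ℤ[Multiplicative ℤ] A)
      fun h1 => hcon fun a => by
        simpa using Module.mem_annihilator.1 (h1.ge (Submodule.mem_top (x := 1))) a
    let _ := Ideal.Quotient.field m
    have := finite_of_finiteType (ℤ[Multiplicative ℤ] ⧸ m)
    let u := (((Ideal.Quotient.mk m).toMonoidHom.comp (MonoidAlgebra.of ℤ _)).comp χ).toHomUnits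
    obtain ⟨r, h1, h2⟩ := Submodule.exists_sub_one_mem_and_smul_eq_zero_of_fg_of_le_smul m ⊤ hfg
      (hgen _ _ ((h.comm_le χ hχ t ht u.ker (Abelianization.commutator_subset_ker u)).trans
        Subgroup.le_normalClosure) fun x hx => by
        rw [Subgroup.commutator_def] at hx
        induction hx using Subgroup.closure_induction with
        | mem x hx =>
          obtain ⟨a, ha, y, hy, rfl⟩ := hx
          refine ⟨Subgroup.commutator_mem_commutator trivial trivial, ?_⟩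
          have h3 : o (χ y) - 1 ∈ m := by
            rw [← Ideal.Quotient.eq]
            exact congrArg Units.val hy
          have h4 := Submodule.neg_mem _ (Submodule.smul_mem_smul h3 (Submodule.mem_top
            (x := cl ⟨a, ha⟩)))
          rw [sub_smul, one_smul, hsm, neg_sub, sub_eq_add_neg, ← hcl', ← hcl] at h4
          convert h4 using 2
          exact Subtype.ext (by simp [c, commutatorElement_def, mul_assoc])
        | one => exact ⟨one_mem _, Submodule.zero_mem _⟩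
        | mul a b _ _ ha hb => exact ⟨mul_mem ha.1 hb.1, Submodule.add_mem _ ha.2 hb.2⟩
        | inv a _ ha => exact ⟨inv_mem ha.1, Submodule.neg_mem _ ha.2⟩)
    have h3 := m.sub_mem (hm' (Module.mem_annihilator.2 fun a => h2 a trivial)) h1
    rw [sub_sub_cancel] at h3
    exact hm.ne_top ((Ideal.eq_top_iff_one m).2 h3)
  intro x hx
  rw [← (commutator K).map_subtype_commutator]
  exact ⟨⟨x, hx⟩, (QuotientGroup.eq_one_iff _).1 (hA (cl ⟨x, hx⟩)), rfl⟩

theorem Tame.perfect (h : Tame K) : ⁅commutator K, commutator K⁆ = commutator K := by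
  refine le_antisymm (Subgroup.commutator_mono le_top le_top)
    (Subgroup.commutator_le.2 fun a _ b _ => ?_)
  let L := Subgroup.closure {a, b}
  have : Group.FG L := Group.closure_finite_fg _
  have h1 := (h.sub L).perfect_fg (Subgroup.commutator_mem_commutator
    (Subgroup.mem_top ⟨a, Subgroup.subset_closure (by simp)⟩)
    (Subgroup.mem_top ⟨b, Subgroup.subset_closure (by simp)⟩))
  have h2 := Subgroup.mem_map_of_mem L.subtype h1
  rw [Subgroup.map_commutator, L.map_subtype_commutator] at h2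
  exact Subgroup.commutator_mono (Subgroup.commutator_mono le_top le_top)
    (Subgroup.commutator_mono le_top le_top) h2

end Pool.Agent.P.MP_5ee5b4_al
end

-- part Pool.Agent.P.MP_5ee5b4_al.Push
section

/-! Cycles with values in the twisted augmentation submodule can be pushed to infinity. -/

namespace Pool.Agent.P.MP_5ee5b4_al

open Pool.Agent.P.MP_6e40fc_al Matrix
open scoped MonoidAlgebra

noncomputable section

set_option linter.unusedSectionVars false

variable {Γ K : Type} [Group Γ] [Group K] {ι β γ : Type} [Fintype ι] [Fintype β] [Fintype γ]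
  {M : Type} [AddCommGroup M] [Module ℤ[K] M]

theorem push (j : K →* Γ) (hK : ¬ j.range.FiniteIndex) (T : Finset Γ)
    (hT : Subgroup.closure (T : Set Γ) = ⊤) (hT' : ∀ a ∈ T, a⁻¹ ∈ T)
    (τ : Γ → (β → Co j M) →+ (β → Co j M))
    (hτ : ∀ a f x, (∀ b, f b (x * a⁻¹) = 0) → ∀ b, τ a f b x = 0)
    (d : (β → Co j M) →+ (γ → Co j M)) (hd : ∀ f x, (∀ b, f b x = 0) → ∀ c, d f c x = 0)
    (hdτ : ∀ a f, d f = 0 → d (τ a f) = 0) (ω : β → Co j M) (hω : d ω = 0) :
    ∃ Ω : Γ → β → Co j M, (∀ a, d (Ω a) = 0) ∧ ω = ∑ a ∈ T, (Ω a - τ a (Ω a)) := by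
  classical
  obtain ⟨lab, h1, h2, h3⟩ := exists_label j.range hK T hT hT'
  let Φ : Γ → β → Co j M := h3.fix fun x Φ => ω + ∑ a ∈ T,
    if h : lab (x * a⁻¹) = a then τ a (Φ (x * a⁻¹) (by simp [h])) else 0
  have hΦ : ∀ x, Φ x = ω + ∑ a ∈ T, if lab (x * a⁻¹) = a then τ a (Φ (x * a⁻¹)) else 0 :=
    fun x => by
    simp only [Φ]
    rw [h3.fix_eq]
    simp only [dite_eq_ite]
  have hΦ1 : ∀ k x, Φ (j k * x) = Φ x := fun k x => by
    induction x using h3.induction with
    | _ x ih =>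
      rw [hΦ, hΦ x]
      congr 1
      refine Finset.sum_congr rfl fun a _ => ?_
      rw [mul_assoc, h2 _ ⟨k, rfl⟩]
      split_ifs with h
      · rw [ih _ (by simp [h])]
      · rfl
  have hΦ2 : ∀ x, d (Φ x) = 0 := fun x => by
    induction x using h3.induction with
    | _ x ih =>
      rw [hΦ, map_add, hω, zero_add, map_sum]
      refine Finset.sum_eq_zero fun a _ => ?_
      split_ifs with h
      · exact hdτ _ _ (ih _ (by simp [h]))
      · exact map_zero _
  let Ω : Γ → β → Co j M := fun a b => Co.mk (fun x => if lab x = a then Φ x b x else 0)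
    fun k x => by
      rw [h2 _ ⟨k, rfl⟩, hΦ1, Co.equiv]
      split_ifs <;> simp
  have hΩ : ∀ a x b, (Ω a - if lab x = a then Φ x else 0) b x = 0 := fun a x b => by
    simp only [Ω, Pi.sub_apply, Co.sub_apply, Co.mk_apply]
    split_ifs <;> simp
  refine ⟨Ω, fun a => funext fun c => Co.ext fun x => ?_, funext fun b => Co.ext fun x => ?_⟩
  · have := hd _ x (hΩ a x) c
    rw [map_sub, Pi.sub_apply, Co.sub_apply, sub_eq_zero] at this
    rw [this]
    split_ifs
    · rw [hΦ2]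
    · rw [map_zero]
  · have h4 : ∀ a, τ a (Ω a) b x =
        (if lab (x * a⁻¹) = a then τ a (Φ (x * a⁻¹)) else 0 : β → Co j M) b x := fun a => by
      have := hτ a _ x (hΩ a (x * a⁻¹)) b
      rw [map_sub, Pi.sub_apply, Co.sub_apply, sub_eq_zero] at this
      rw [this]
      split_ifs
      · rfl
      · rw [map_zero]
    have h5 := congrArg (fun f : β → Co j M => f b x) (hΦ x)
    simp only [Pi.add_apply, Co.add_apply, Finset.sum_apply, Co.sum_apply] at h5
    simp only [Finset.sum_apply, Co.sum_apply, Pi.sub_apply, Co.sub_apply, Finset.sum_sub_distrib,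
      h4, Ω, Co.mk_apply, Finset.sum_ite_eq, if_pos (h1 x), h5]
    abel

variable {N : Subgroup Γ} [N.Normal] {P : Type} [AddCommGroup P] [Module ℤ[N] P] (w : Γ →* ℤˣ)

theorem conj_loc (a : Γ) (c : ℤ[N]) (f : Co N.subtype P) (x : Γ) (h : f (x * a⁻¹) = 0) :
    (conj w (o a * jr N.subtype c) • f) x = 0 := by
  induction c using zg_induction with
  | ho n =>
    have := f.equiv ⟨x * (n : Γ)⁻¹ * x⁻¹, ‹N.Normal›.conj_mem _ (N.inv_mem n.2) x⟩ (x * a⁻¹)
    rw [h, smul_zero] at this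
    rw [jr_o, o_mul, conj_o, smul_assoc, Co.zsmul_apply, Co.o_smul]
    convert smul_zero _
    convert this using 2
    simp [mul_assoc]
  | hadd a b ha hb => rw [map_add, mul_add, map_add, add_smul, Co.add_apply, ha, hb, add_zero]
  | hsmul n a ha =>
    rw [map_zsmul, mul_smul_comm, map_zsmul, smul_assoc, Co.zsmul_apply, ha, smul_zero]

theorem jr_dS (j : K →* Γ) (t : β → K) (c : β → ℤ[K]) :
    dS (fun b => j (t b)) (fun b => jr j (c b)) = jr j (dS t c) := by
  simp [dS_apply]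

theorem bd_ract {A : Type} [AddCommGroup A] [Module ℤ[Γ] A] (s : ι → Γ) (a : A) (v : ι → ℤ[Γ]) :
    cact (tc w (πc s)) (ract w a v) () = conj w (dS s v) • a := by
  rw [cact_tc_ract, dS_eq]
  rfl

theorem push_cycle [DecidableEq ι] {s : ι → Γ} (hΓ : Subgroup.closure (Set.range s) = ⊤)
    (hN : ¬ N.FiniteIndex) {t : β → N} (ht : Subgroup.closure (Set.range t) = ⊤)
    (z : ι → Co N.subtype P) (hz : Cyc w s z)
    (hz' : ∀ i x, z i x ∈ AddSubgroup.closure {m : P | ∃ (n : N) (m' : P),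
      m = (w n : ℤ) • o n • m' - m'}) : z ∈ Bd _ w s := by
  classical
  obtain ⟨σ⟩ := exists_sec (j := N.subtype) Subtype.val_injective
  obtain ⟨T, hT, hT'⟩ := exists_symm_gen ((Group.fg_iff).2 ⟨_, hΓ, Set.finite_range s⟩)
  let t' : β → Γ := fun b => N.subtype (t b)
  choose q hq using exists_dS hΓ
  choose c hc using exists_dS ht
  let Pm : Matrix β ι ℤ[Γ] := Matrix.of fun b => q (t' b)
  let C : Γ → Matrix β β ℤ[Γ] := fun a => Matrix.of fun b b' => o a * jr N.subtype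
    (c ⟨a⁻¹ * t' b * a⁻¹⁻¹, ‹N.Normal›.conj_mem _ (t b).2 _⟩ b')
  let d : (β → Co N.subtype P) →+ (Unit → Co N.subtype P) := cact (tc w (πc t'))
  have hP : Pm * πc s = πc t' := by
    ext1 b u
    rw [← dS_row]
    exact hq _
  have hC : ∀ a, C a * πc t' = πc t' * Matrix.of fun (_ _ : Unit) => o a := fun a => by
    ext1 b u
    rw [← dS_row]
    refine (map_smul (dS t') (o a) _).trans ?_
    rw [jr_dS, hc]
    simp [mul_apply, πc, mul_sub, sub_mul, o_mul, mul_assoc]
  have hd : ∀ f x, (∀ b, f b x = 0) → ∀ u, d f u x = 0 := fun f x h u => by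
    rw [cact_apply, Co.sum_apply]
    refine Finset.sum_eq_zero fun b _ => ?_
    have := conj_loc w 1 (o (t b) - 1) (f b) x (by simpa using h b)
    simpa [tc, πc, t'] using this
  have hrel : ∀ a v, dS s v = o a - 1 → ∀ u : β → Co N.subtype P,
      cact (tc w Pm) (cact (tc w (C a)) u - u) - ract w (d u ()) v ∈ Bd _ w s := fun a v hv u => by
    let Q : Matrix Unit ι ℤ[Γ] := Matrix.of fun _ => v
    have hQ : Q * πc s = (Matrix.of fun (_ _ : Unit) => o a) - 1 := by
      ext1 b u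
      rw [← dS_row]
      exact hv
    have := cact_tc_mem_Bd w s (C a * Pm - Pm - πc t' * Q) (by
      rw [Matrix.sub_mul, Matrix.sub_mul, Matrix.mul_assoc, Matrix.mul_assoc, hP, hC, hQ,
        Matrix.mul_sub, Matrix.mul_one, sub_self]) u
    rw [tc_sub, tc_sub, cact_sub, cact_sub, ← tc_mul, ← tc_mul, cact_mul, cact_mul,
      cact_tc_eq w Q, Fintype.sum_unique] at this
    rwa [map_sub]
  have hdτ : ∀ a u, d (cact (tc w (C a)) u) () = conj w (o a) • d u () := fun a u => by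
    simp only [d]
    rw [← cact_mul, tc_mul, hC, ← tc_mul, cact_mul, cact_apply, Fintype.sum_unique]
    rfl
  have hloc : ∀ i x, ∃ u, d u () x = z i x := fun i x => by
    refine AddSubgroup.closure_induction (p := fun m _ => ∃ u, d u () x = m) ?_ ⟨0, by simp⟩ ?_ ?_
      (hz' i x)
    · rintro _ ⟨n, m, rfl⟩
      let f : Co N.subtype P := Co.mk (fun y => o (σ.κ y * (σ.κ x)⁻¹) • m) fun k y => by
        rw [σ.κ_mul, ← mul_smul, o_mul, mul_assoc]
      have hf : f x = m := by simp [f]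
      refine ⟨ract w f fun b => jr N.subtype
        (c ⟨x⁻¹ * (n : Γ)⁻¹ * x⁻¹⁻¹, ‹N.Normal›.conj_mem _ (N.inv_mem n.2) _⟩ b), ?_⟩
      rw [bd_ract, jr_dS, hc, map_sub, map_one, jr_o, map_sub, conj_one, conj_o, sub_smul,
        one_smul, smul_assoc, Co.sub_apply, Co.zsmul_apply, Co.o_smul, ← hf, ← f.equiv]
      have : (w x : ℤ) * (w n * w x) = w n := by
        rw [mul_left_comm, ← Units.val_mul, Int.units_mul_self, Units.val_one, mul_one]
      simp [mul_assoc, this]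
    · rintro _ _ _ _ ⟨u, rfl⟩ ⟨u', rfl⟩
      exact ⟨u + u', by simp⟩
    · rintro _ _ ⟨u, rfl⟩
      exact ⟨-u, by simp⟩
  choose u0 hu0 using hloc
  let u : ι → β → Co N.subtype P := fun i b =>
    Co.mk (fun x => u0 i ((σ.κ x : Γ)⁻¹ * x) b x) fun k x => by
      rw [σ.κ_mul, Co.equiv]
      simp [mul_assoc]
  have hu : ∀ i, d (u i) () = z i := fun i => Co.ext fun x => by
    have h1 := hd (u i - u0 i ((σ.κ x : Γ)⁻¹ * x)) x (fun b => sub_self _) ()
    rw [map_sub, Pi.sub_apply, Co.sub_apply, sub_eq_zero] at h1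
    have h2 := (d (u0 i ((σ.κ x : Γ)⁻¹ * x)) ()).equiv (σ.κ x) ((σ.κ x : Γ)⁻¹ * x)
    rw [hu0, ← Co.equiv, Subgroup.coe_subtype, mul_inv_cancel_left] at h2
    rw [h1, h2]
  obtain ⟨Ω, hΩ, hΩ'⟩ := push N.subtype (by rwa [Subgroup.range_subtype]) T hT hT'
    (fun a => cact (tc w (C a))) (fun a f x h b => by
      rw [cact_apply, Co.sum_apply]
      exact Finset.sum_eq_zero fun b' _ => conj_loc w a _ _ x (h b')) d hd
    (fun a f h => funext fun _ => by rw [hdτ, h]; exact smul_zero _)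
    (∑ i, (cact (tc w (C (s i))) (u i) - u i)) (funext fun _ => by
      rw [map_sum, Finset.sum_apply]
      refine Eq.trans (Finset.sum_congr rfl fun i _ => ?_) hz
      rw [map_sub, Pi.sub_apply, hdτ, hu, map_sub, conj_one, sub_smul, one_smul])
  have h1 : cact (tc w Pm) (∑ i, (cact (tc w (C (s i))) (u i) - u i)) ∈ Bd _ w s := by
    rw [hΩ', map_sum]
    refine AddSubgroup.sum_mem _ fun a _ => ?_
    have := hrel a _ (hq a) (Ω a)
    rw [hΩ] at this
    rw [← neg_sub, map_neg]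
    refine AddSubgroup.neg_mem _ ?_
    convert this using 1
    funext i
    simp [ract]
  have h2 := AddSubgroup.sub_mem _ h1 (AddSubgroup.sum_mem (t := Finset.univ) _ fun i _ =>
    hrel (s i) (Pi.single i 1) (by rw [dS_single, one_mul]) (u i))
  convert h2 using 1
  rw [map_sum, Finset.sum_sub_distrib, sub_sub_cancel]
  funext i
  rw [Finset.sum_apply, Finset.sum_eq_single i]
  · simp [ract, hu, conj_one]
  · intro b _ hb
    simp [ract, Pi.single_eq_of_ne' hb]
  · simp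

end

end Pool.Agent.P.MP_5ee5b4_al
end

-- part Pool.Agent.P.MP_5ee5b4_al.Ends2
section

/-! More on cuts and ends. -/

namespace Pool.Agent.P.MP_5ee5b4_al

variable {Γ : Type} [Group Γ] {S U U' : Set Γ} {x y z : Γ}

theorem Rel.refl (S U : Set Γ) (x : Γ) : Rel S U x x := fun _ _ => Iff.rfl

theorem Rel.symm (h : Rel S U x y) : Rel S U y x := fun f hf => (h f hf).symm

theorem Rel.trans (h : Rel S U x y) (h' : Rel S U y z) : Rel S U x z :=
  fun f hf => (h f hf).trans (h' f hf)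

theorem Rel.edge {s : Γ} (hs : s ∈ S) (h1 : x ∉ U) (h2 : x * s ∉ U) : Rel S U x (x * s) :=
  fun _ hf => hf x s hs h1 h2

theorem Rel.notMem (h : Rel S U x y) (hx : x ∉ U) : y ∉ U :=
  (h (· ∉ U) fun _ _ _ h1 h2 => iff_of_true h1 h2).1 hx

theorem Rel.avoid (h : Rel S U x y) (hU : ∀ z, z ∉ U → Rel S U x z → z ∉ U') : Rel S U' x y :=
  ((h (fun z => Rel S U x z ∧ Rel S U' x z) fun _ _ hs h1 h2 =>
    ⟨fun h3 => ⟨h3.1.trans (Rel.edge hs h1 h2), h3.2.trans (Rel.edge hs (hU _ h1 h3.1)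
      (hU _ h2 (h3.1.trans (Rel.edge hs h1 h2))))⟩,
    fun h3 => ⟨h3.1.trans (Rel.edge hs h1 h2).symm, h3.2.trans (Rel.edge hs
      (hU _ h1 (h3.1.trans (Rel.edge hs h1 h2).symm)) (hU _ h2 h3.1)).symm⟩⟩).1
    ⟨Rel.refl _ _ _, Rel.refl _ _ _⟩).2

theorem Rel.mono (h : Rel S U x y) (hU : U' ⊆ U) : Rel S U' x y :=
  h.avoid fun _ h1 _ h2 => h1 (hU h2)

theorem Rel.mul_left (g : Γ) (h : Rel S U x y) (hU : ∀ z, g * z ∈ U' → z ∈ U) :
    Rel S U' (g * x) (g * y) := fun f hf =>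
  h (fun z => f (g * z)) fun z s hs h1 h2 => by
    rw [← mul_assoc]
    exact hf _ s hs (fun h => h1 (hU _ h)) fun h => h2 (hU _ (by rwa [← mul_assoc]))

theorem Rel.empty (hS : Subgroup.closure S = ⊤) (x y : Γ) : Rel S ∅ x y := fun f hf =>
  (const_of_edges hS f (fun z s hs => hf z s hs id id) x).trans
    (const_of_edges hS f (fun z s hs => hf z s hs id id) y).symm

theorem IsConn.rel {C : Set Γ} (hC : IsConn S C) (x : Γ) (hx : ∀ c ∈ C, x * c ∉ U) {c : Γ}
    (hc : c ∈ C) : Rel S U x (x * c) := fun f hf => by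
  have := hC.2 (fun z => f (x * z)) (fun a ha b hb hab => by
    rw [← mul_assoc]
    exact hf _ b hb (hx a ha) (by rw [mul_assoc]; exact hx _ hab)) c hc
  simpa using this.symm

/-- almost invariant sets -/
def AI (S Y : Set Γ) : Prop := ∀ s ∈ S, {x | ¬ (x ∈ Y ↔ x * s ∈ Y)}.Finite

/-- virtually cyclic groups -/
def VC (Γ : Type) [Group Γ] : Prop := ∃ ν : Γ, (Subgroup.zpowers ν).FiniteIndex

/-- at most one end -/
def OneEnd (S : Set Γ) : Prop := ∀ Y, AI S Y → Y.Finite ∨ Yᶜ.Finite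

theorem AI.compl {Y : Set Γ} (h : AI S Y) : AI S Yᶜ := fun s hs =>
  (h s hs).subset fun _ hx h' => hx (not_congr h')

theorem AI.mul_left {Y : Set Γ} (h : AI S Y) (g : Γ) : AI S {x | g * x ∈ Y} := fun s hs =>
  ((h s hs).preimage (f := fun x => g * x) (mul_right_injective g).injOn).subset fun x hx => by
    simpa [mul_assoc] using hx

theorem AI.of_finite {Y B : Set Γ} (hB : B.Finite)
    (h : ∀ x, ∀ s ∈ S, x ∉ B → x * s ∉ B → (x ∈ Y ↔ x * s ∈ Y)) : AI S Y := fun s hs =>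
  (hB.union (hB.preimage (f := fun x => x * s) (mul_left_injective s).injOn)).subset fun x hx => by
    by_contra h'
    simp only [Set.mem_union, Set.mem_preimage, not_or] at h'
    exact hx (h x s hs h'.1 h'.2)

theorem AI.exists_finite {Y : Set Γ} (h : AI S Y) (hfin : S.Finite) : ∃ B : Set Γ, B.Finite ∧
    ∀ x, ∀ s ∈ S, ¬ (x ∈ Y ↔ x * s ∈ Y) → x ∈ B ∧ x * s ∈ B :=
  ⟨⋃ s ∈ S, {x | ¬ (x ∈ Y ↔ x * s ∈ Y)} ∪ (· * s) '' {x | ¬ (x ∈ Y ↔ x * s ∈ Y)},
    hfin.biUnion fun s hs => (h s hs).union ((h s hs).image _), fun x _ hs h =>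
      ⟨Set.mem_biUnion hs (Or.inl h), Set.mem_biUnion hs (Or.inr ⟨x, h, rfl⟩)⟩⟩

theorem OneEnd.rel [Infinite Γ] (h : OneEnd S) (hS : Subgroup.closure S = ⊤) (hfin : S.Finite)
    {B : Set Γ} (hB : B.Finite) :
    ∃ B' : Set Γ, B'.Finite ∧ ∀ x y, x ∉ B' → y ∉ B' → Rel S B x y := by
  have hai : ∀ x, AI S {y | Rel S B x y} := fun x => AI.of_finite hB fun y s hs h1 h2 =>
    ⟨fun h => h.trans (Rel.edge hs h1 h2), fun h => h.trans (Rel.edge hs h1 h2).symm⟩
  by_cases hx : ∃ x, {y | Rel S B x y}ᶜ.Finite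
  · obtain ⟨x, hx⟩ := hx
    exact ⟨_, hx, fun a b ha hb => (not_not.1 ha).symm.trans (not_not.1 hb)⟩
  have hf : ∀ x, {y | Rel S B x y}.Finite := fun x => (h _ (hai x)).resolve_right fun h => hx ⟨x, h⟩
  let B1 : Set Γ := insert 1 (B ∪ Set.image2 (· * ·) B S ∪ Set.image2 (· * ·⁻¹) B S)
  have hB1 : B1.Finite := ((hB.union (hB.image2 _ hfin)).union (hB.image2 _ hfin)).insert 1
  refine absurd ((hB1.biUnion fun b _ => hf b).subset fun x _ => ?_) Set.infinite_univ
  refine (const_of_edges hS (fun x => x ∈ ⋃ b ∈ B1, {y | Rel S B b y}) (fun x s hs => ?_) x).2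
    (Set.mem_biUnion (Or.inl rfl) (Rel.refl _ _ _))
  by_cases h1 : x ∈ B
  · exact iff_of_true (Set.mem_biUnion (Or.inr (Or.inl (Or.inl h1))) (Rel.refl _ _ _))
      (Set.mem_biUnion (Or.inr (Or.inl (Or.inr ⟨x, h1, s, hs, rfl⟩))) (Rel.refl _ _ _))
  by_cases h2 : x * s ∈ B
  · exact iff_of_true (Set.mem_biUnion (Or.inr (Or.inr ⟨_, h2, s, hs, by simp⟩)) (Rel.refl _ _ _))
      (Set.mem_biUnion (Or.inr (Or.inl (Or.inl h2))) (Rel.refl _ _ _))
  simp only [Set.mem_iUnion, Set.mem_ofPred_eq]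
  exact exists_congr fun b => exists_congr fun _ =>
    ⟨fun h => h.trans (Rel.edge hs h1 h2), fun h => h.trans (Rel.edge hs h1 h2).symm⟩

namespace Cut

variable (c : Cut S)

/-- the ping-pong configuration -/
def PP (g h : Γ) (k : ℕ) : Prop :=
  ∀ a b : ℤ, (a = k ∨ a = -k) → (b = k ∨ b = -k) →
    c.Gen (g ^ (-a) * h * g ^ b) ∧ (g ^ (-a) * h * g ^ b ∈ c.Y ↔ a < 0) ∧
      ((g ^ (-a) * h * g ^ b)⁻¹ ∈ c.Y ↔ b < 0)

/-- exceptional elements -/
def Ex (ν : Γ) : Set Γ := {g | ¬ c.Gen g} ∪ {x | ¬ (x ∈ c.Y ↔ x * ν ∈ c.Y)}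

/-- exceptional exponents -/
def Dd (ν h : Γ) : Set ℤ := {m | ∃ n : ℤ, ν ^ (-m) * h * ν ^ n ∈ c.Ex ν}

theorem exists_path (g : Γ) : ∃ P : Set Γ, P.Finite ∧
    ∀ x, ¬ (x ∈ c.Y ↔ x * g ∈ c.Y) → ∃ u ∈ P, x * u ∈ c.C := by
  obtain ⟨P, h1, h2, h3⟩ := exists_conn c.gen g
  refine ⟨P, h1, fun x hx => by_contra fun h => hx ?_⟩
  exact h2.rel (U := c.C) x (fun u hu h' => h ⟨u, hu, h'⟩) h3 (· ∈ c.Y) fun z s hs h4 _ =>
    by_contra fun h5 => h4 (c.bdry z s hs h5).1

variable {c}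

theorem hyp_mul {n m : Γ} (hn : c.Gen n) (hm : c.Gen m) (h1 : n ∈ c.Y) (h2 : n⁻¹ ∈ c.Y)
    (h3 : m ∉ c.Y) (h4 : m⁻¹ ∉ c.Y) : c.Hyp (n * m) := by
  refine ⟨fun x hx hx' => h3 ((hm.side hx).1 ?_), ?_, ?_⟩
  · have := (hn.inv.side hx').2 h2
    rwa [mul_assoc, inv_mul_cancel_left] at this
  · rcases hn.nest (n * m) with h | h
    · exact h.2 h1
    · rw [inv_mul_cancel_left] at h
      exact absurd (h.2 h2) h3
  · rcases hm.nest n⁻¹ with h | h
    · exact absurd (h.1 h2) h3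
    · rw [mul_inv_rev]
      exact fun h' => h4 (h.1 h')

theorem exists_hyp {n m : Γ} (hn : c.Gen n) (hm : c.Gen m) (h1 : n ∈ c.Y) (h3 : m ∉ c.Y) :
    c.Hyp n ∨ c.Hyp m⁻¹ ∨ c.Hyp (n * m) := by
  by_cases h2 : n⁻¹ ∈ c.Y
  · by_cases h4 : m⁻¹ ∈ c.Y
    · exact Or.inr (Or.inl ⟨hm.inv, h4, by rwa [inv_inv]⟩)
    · exact Or.inr (Or.inr (hyp_mul hn hm h1 h2 h3 h4))
  · exact Or.inl ⟨hn, h1, h2⟩

theorem Hyp.half {ν : Γ} (hν : c.Hyp ν) {h : Γ} (hh : (c.Dd ν h).Finite) :
    ∃ k0 : ℕ, ∀ k ≥ k0, ∀ a b : ℤ, (a = k ∨ a = -k) →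
      c.Gen (ν ^ (-a) * h * ν ^ b) ∧ (ν ^ (-a) * h * ν ^ b ∈ c.Y ↔ a < 0) := by
  obtain ⟨M, hM⟩ := (hh.image Int.natAbs).bddAbove
  obtain ⟨k1, hk1⟩ := hν.attract h
  obtain ⟨k2, hk2⟩ := hν.repel h
  refine ⟨M + k1 + k2 + 1, fun k hk a b ha => ?_⟩
  have h3 : ∀ n : ℤ, ν ^ (-a) * h * ν ^ n ∉ c.Ex ν := fun n hn => by
    have := hM ⟨a, ⟨n, hn⟩, rfl⟩
    omega
  have h4 : ∀ n : ℤ, (ν ^ (-a) * h * ν ^ n ∈ c.Y ↔ ν ^ (-a) * h * ν ^ (n + 1) ∈ c.Y) := fun n => by
    by_contra h'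
    refine h3 n (Or.inr ?_)
    rwa [zpow_add_one, ← mul_assoc] at h'
  have h5 : ν ^ (-a) * h * ν ^ b ∈ c.Y ↔ ν ^ (-a) * h ∈ c.Y := by
    induction b using Int.induction_on with
    | zero => simp
    | succ n ih => exact (h4 n).symm.trans ih
    | pred n ih =>
      have := h4 (-n - 1)
      rw [sub_add_cancel] at this
      exact this.trans ih
  refine ⟨by_contra fun h' => h3 b (Or.inl h'), h5.trans ?_⟩
  rcases ha with rfl | rfl
  · refine iff_of_false ?_ (by omega)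
    have := hk2 k (by omega)
    rwa [inv_pow, ← zpow_natCast, ← zpow_neg] at this
  · refine iff_of_true ?_ (by omega)
    have := hk1 k (by omega)
    rwa [neg_neg, zpow_natCast]

theorem Hyp.pp {ν : Γ} (hν : c.Hyp ν) {h : Γ} (h1 : (c.Dd ν h).Finite)
    (h2 : (c.Dd ν h⁻¹).Finite) : ∃ k0 : ℕ, ∀ k ≥ k0, c.PP ν h k := by
  obtain ⟨k1, hk1⟩ := hν.half h1
  obtain ⟨k2, hk2⟩ := hν.half h2
  refine ⟨k1 + k2, fun k hk a b ha hb => ?_⟩
  obtain ⟨h3, h4⟩ := hk1 k (by omega) a b ha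
  obtain ⟨-, h5⟩ := hk2 k (by omega) b a hb
  refine ⟨h3, h4, Iff.trans ?_ h5⟩
  have e : (ν ^ (-a) * h * ν ^ b)⁻¹ = ν ^ (-b) * h⁻¹ * ν ^ a := by group
  rw [e]

theorem Hyp.inf_of_nf {ν : Γ} (hν : c.Hyp ν) {N : Subgroup Γ} (hN : NF N) (h1 : ν ∈ N) {h : Γ}
    (h2 : h ∈ N) : (c.Dd ν h).Infinite ∨ (c.Dd ν h⁻¹).Infinite := by
  by_contra hcon
  simp only [not_or, Set.not_infinite] at hcon
  obtain ⟨k1, hk1⟩ := hν.pp hcon.1 hcon.2
  obtain ⟨k, hk, hk'⟩ := hN ν h1 (h * ν * h⁻¹) (N.mul_mem (N.mul_mem h2 h1) (N.inv_mem h2)) (k1 + 1)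
  exact hk' (hν.pingpong h k (hk1 k (by omega)) (by omega))

theorem PP.key {g h : Γ} {k : ℕ} (H : c.PP g h k) (a b : ℤ) (ha : a = k ∨ a = -k)
    (hb : b = k ∨ b = -k) (x : Γ) :
    (g ^ (-a) * x ∈ c.Y ↔ a < 0) ∨ (g ^ (-b) * (h⁻¹ * x) ∈ c.Y ↔ b < 0) := by
  obtain ⟨h1, h2, h3⟩ := H a b ha hb
  have := h1.nest (g ^ (-a) * x)
  rw [h2, h3] at this
  have e : (g ^ (-a) * h * g ^ b)⁻¹ * (g ^ (-a) * x) = g ^ (-b) * (h⁻¹ * x) := by group
  rwa [e] at this

theorem Hyp.vc {ν : Γ} (hν : c.Hyp ν) (hEf : (c.Ex ν).Finite)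
    (hinf : ∀ h, (c.Dd ν h).Infinite ∨ (c.Dd ν h⁻¹).Infinite) : VC Γ := by
  have hzp : ∀ a : ℤ, ν ^ a = 1 → a = 0 := fun a ha => by
    have := hν.pow_injective (k := a.natAbs) (by
      rcases Int.natAbs_eq a with e | e
      · rw [← zpow_natCast, ← e, ha]
      · rw [← zpow_natCast, ← inv_eq_one, ← zpow_neg, ← e, ha])
    omega
  have hcomm0 : ∀ h, (c.Dd ν h).Infinite →
      ∃ a b : ℤ, a ≠ 0 ∧ b ≠ 0 ∧ ν ^ b * h = h * ν ^ a := by
    intro h hh
    choose! n hn using fun m (hm : m ∈ c.Dd ν h) => hm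
    obtain ⟨m, hm, m', hm', hne, e⟩ := hh.exists_ne_map_eq_of_mapsTo
      (f := fun m => ν ^ (-m) * h * ν ^ n m) hn hEf
    have e' : ν ^ (m' - m) * h = h * ν ^ (n m' - n m) := by
      have : ν ^ (m' - m) * h = ν ^ m' * (ν ^ (-m) * h * ν ^ n m) * ν ^ (-n m) := by group
      rw [this, e]
      group
    refine ⟨_, _, fun h0 => ?_, sub_ne_zero.2 hne.symm, e'⟩
    rw [h0, zpow_zero, mul_one, mul_eq_right] at e'
    exact hne (by have := hzp _ e'; omega)
  have hcomm : ∀ h, ∃ a b : ℤ, b ≠ 0 ∧ ν ^ b * h = h * ν ^ a := by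
    intro h
    rcases hinf h with hh | hh
    · obtain ⟨a, b, -, hb, e⟩ := hcomm0 h hh
      exact ⟨a, b, hb, e⟩
    · obtain ⟨a, b, ha, -, e⟩ := hcomm0 _ hh
      refine ⟨b, a, ha, ?_⟩
      calc ν ^ a * h = h * (h⁻¹ * ν ^ a) * h := by group
        _ = _ := by rw [← e]; group
  choose a b hb hab using hcomm
  refine ⟨ν, ?_⟩
  have : Finite (Γ ⧸ Subgroup.zpowers ν) := by
    rw [← Set.finite_univ_iff]
    refine (((hEf.union hEf.inv).biUnion fun e _ => (Set.finite_Ico 0 |b e|).image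
      fun j => (QuotientGroup.mk (ν ^ j * e) : Γ ⧸ Subgroup.zpowers ν))).subset fun q _ => ?_
    obtain ⟨h, rfl⟩ := QuotientGroup.mk_surjective q
    obtain ⟨e, he, m, n, rfl⟩ : ∃ e ∈ c.Ex ν ∪ (c.Ex ν)⁻¹, ∃ m n : ℤ, h = ν ^ m * e * ν ^ n := by
      rcases hinf h with hh | hh
      · obtain ⟨m, n, hn⟩ := hh.nonempty
        exact ⟨_, Or.inl hn, m, -n, by group⟩
      · obtain ⟨m, n, hn⟩ := hh.nonempty
        exact ⟨_, Or.inr (Set.inv_mem_inv.2 hn), n, -m, by group⟩
    refine Set.mem_biUnion he ⟨m % b e, ⟨Int.emod_nonneg _ (hb e), Int.emod_lt_abs _ (hb e)⟩, ?_⟩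
    refine QuotientGroup.eq.2 ⟨a e * (m / b e) + n, ?_⟩
    have e1 : e⁻¹ * ν ^ (b e) * e = ν ^ a e := by rw [mul_assoc, hab, inv_mul_cancel_left]
    have e2 : ν ^ (a e * (m / b e)) = e⁻¹ * ν ^ (b e * (m / b e)) * e := by
      rw [zpow_mul, zpow_mul, ← e1]
      have := conj_zpow (a := e⁻¹) (b := ν ^ b e) (i := m / b e)
      rwa [inv_inv] at this
    have e3 : ν ^ m = ν ^ (m % b e) * ν ^ (b e * (m / b e)) := by
      rw [← zpow_add, Int.emod_add_mul_ediv]
    change ν ^ (a e * (m / b e) + n) = _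
    rw [zpow_add, e2]
    conv_rhs => rw [e3]
    group
  exact Subgroup.finiteIndex_of_finite_quotient

end Cut

theorem ends_pp (hS : Subgroup.closure S = ⊤) (hfin : S.Finite) {Y : Set Γ} (hY : AI S Y)
    (h1 : Y.Infinite) (h2 : Yᶜ.Infinite) (hvc : ¬ VC Γ) :
    ∃ c : Cut S, c.Y = Y ∧ ∃ (ν h : Γ) (k : ℕ), 0 < k ∧ c.Hyp ν ∧ c.PP ν h k := by
  obtain ⟨B, hB, hB'⟩ := hY.exists_finite hfin
  obtain ⟨C, hC, ⟨hC1, hC2⟩, hBC⟩ := exists_conn_finite hS hB
  let c : Cut S := ⟨Y, C, hS, hC1, hC2, fun x s hs h =>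
    ⟨hBC (hB' x s hs h).1, hBC (hB' x s hs h).2⟩⟩
  have hng : {g | ¬ c.Gen g}.Finite := by
    refine (hC.image2 (fun y x => y * x⁻¹) hC).subset fun g hg => ?_
    simp only [Cut.Gen, Set.mem_ofPred_eq, not_forall, not_not] at hg
    obtain ⟨x, hx, hx'⟩ := hg
    exact ⟨_, hx', x, hx, by simp⟩
  obtain ⟨ν, hν⟩ : ∃ ν, c.Hyp ν := by
    obtain ⟨n, hn, hn'⟩ := (h1.sdiff hng).nonempty
    obtain ⟨m, hm, hm'⟩ := (h2.sdiff hng).nonempty
    rcases Cut.exists_hyp (c := c) (not_not.1 hn') (not_not.1 hm') hn hm with h | h | h <;>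
      exact ⟨_, h⟩
  obtain ⟨h, hh⟩ := not_forall.1 fun h => hvc (hν.vc (hng.union (almostInv hS hY ν)) h)
  simp only [not_or, Set.not_infinite] at hh
  obtain ⟨k, hk⟩ := hν.pp hh.1 hh.2
  exact ⟨c, rfl, ν, h, k + 1, k.succ_pos, hν, hk _ k.le_succ⟩

theorem exists_disj (hS : Subgroup.closure S = ⊤) (hfin : S.Finite) {Y : Set Γ} (hY : AI S Y)
    (h1 : Y.Infinite) (h2 : Yᶜ.Infinite) (hvc : ¬ VC Γ) : ∃ g, ∀ x ∈ Y, g * x ∉ Y := by
  obtain ⟨c, rfl, ν, h, k, hk, -, H⟩ := ends_pp hS hfin hY h1 h2 hvc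
  refine ⟨ν ^ (-(k : ℤ)) * h⁻¹ * ν ^ (k : ℤ), fun x hx hx' => ?_⟩
  rcases H.key k k (Or.inl rfl) (Or.inl rfl) (ν ^ (k : ℤ) * x) with h3 | h3
  · rw [zpow_neg, inv_mul_cancel_left] at h3
    have := h3.1 hx
    omega
  · rw [mul_assoc, mul_assoc] at hx'
    have := h3.1 hx'
    omega

theorem exists_disj_family (hS : Subgroup.closure S = ⊤) (hfin : S.Finite) (h : ¬ OneEnd S)
    (hvc : ¬ VC Γ) : ∃ E : ℕ → Set Γ, (∀ j, AI S (E j) ∧ (E j).Infinite) ∧
      ∀ i j x, x ∈ E i → x ∈ E j → i = j := by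
  obtain ⟨Y, hY⟩ := not_forall.1 h
  simp only [Classical.not_imp, not_or] at hY
  obtain ⟨c, rfl, ν, h, k, hk, hν, H⟩ := ends_pp hS hfin hY.1 hY.2.1 hY.2.2 hvc
  let g : ℕ → Γ := fun j => ν ^ (-(k : ℤ)) * h⁻¹ * ν ^ (-(2 * k * j : ℤ))
  have key : ∀ j x, g j * x ∈ c.Y → ν ^ (-(k + 2 * k * j : ℤ)) * x ∉ c.Y ∧
      ν ^ (k - 2 * k * j : ℤ) * x ∈ c.Y := fun j x hx => by
    dsimp only [g] at hx
    rw [mul_assoc, mul_assoc] at hx
    constructor
    · rcases H.key k k (Or.inl rfl) (Or.inl rfl) (ν ^ (-(2 * k * j : ℤ)) * x) with h3 | h3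
      · rw [← mul_assoc, ← zpow_add, ← neg_add] at h3
        exact fun h4 => by have := h3.1 h4; omega
      · have := h3.1 hx
        omega
    · rcases H.key (-k) k (Or.inr rfl) (Or.inl rfl) (ν ^ (-(2 * k * j : ℤ)) * x) with h3 | h3
      · rw [← mul_assoc, ← zpow_add, neg_neg, ← sub_eq_add_neg] at h3
        exact h3.2 (by omega)
      · have := h3.1 hx
        omega
  have key2 : ∀ i j x, g i * x ∈ c.Y → g j * x ∈ c.Y → ¬ i < j := fun i j x hi hj hij => by
    obtain ⟨d, rfl⟩ := Nat.exists_eq_add_of_lt hij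
    refine (key _ x hi).1 ?_
    have := hν.pow_mul_mem (key _ x hj).2 (2 * k * d)
    rw [← mul_assoc, ← zpow_natCast, ← zpow_add] at this
    convert this using 3
    push_cast
    ring
  refine ⟨fun j => {x | g j * x ∈ c.Y}, fun j => ⟨hY.1.mul_left _, fun hf => hY.2.1 ?_⟩,
    fun i j x hi hj => le_antisymm (not_lt.1 (key2 j i x hj hi)) (not_lt.1 (key2 i j x hi hj))⟩
  exact (hf.image (g j * ·)).subset fun y hy => ⟨(g j)⁻¹ * y, by simpa using hy, by simp⟩

end Pool.Agent.P.MP_5ee5b4_al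
end

-- part Pool.Agent.P.MP_5ee5b4_al.NotFG
section

/-! Pockets of a thickened finite union of cosets of an infinitely generated normal subgroup. -/

namespace Pool.Agent.P.MP_5ee5b4_al

variable {Γ : Type} [Group Γ] {S V U : Set Γ} {N : Subgroup Γ} {x y y' z n m : Γ}

/-- a union of cosets inside a thickening whose complement is the last set -/
structure Thick (S : Set Γ) (N : Subgroup Γ) (V U : Set Γ) : Prop where
  gen : Subgroup.closure S = ⊤
  nor : N.Normal
  nf : NF N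
  hV : ∀ n ∈ N, ∀ x, n * x ∈ V → x ∈ V
  hU : ∀ n ∈ N, ∀ x, n * x ∈ U → x ∈ U
  vu : ∀ x ∈ V, x ∉ U
  edge : ∀ x, ∀ s ∈ S, x ∈ V ∨ x * s ∈ V → x ∉ U ∧ x * s ∉ U
  big : ∀ F : Set Γ, F.Finite → ∀ ν ∈ N, ∃ L : Subgroup Γ, ν ∈ L ∧ (∃ n ∈ N, n ∉ L) ∧
    ∀ n ∈ N, ∀ a ∈ F, ∀ b ∈ F, ∀ x, Rel S U a x → Rel S U b (n * x) → n ∈ L
  fin : ((fun x : Γ => (x : Γ ⧸ N)) '' V).Finite

/-- the part of a component inside the union of cosets -/
def Wv (S V U : Set Γ) (y : Γ) : Set Γ := {z | z ∈ V ∧ Rel S U y z}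

/-- the side of a component containing its translates -/
def Out (S : Set Γ) (N : Subgroup Γ) (V U : Set Γ) (y x : Γ) : Prop :=
  ∀ n ∈ N, ¬ Rel S U y (n * y) → Rel S (Wv S V U y) x (n * y)

theorem Rel.sep (h1 : ¬ Rel S U y x) (h2 : Rel S U x z) : Rel S (Wv S V U y) x z :=
  h2.avoid fun _ _ h3 h4 => h1 (h4.2.trans h3.symm)

theorem Out.rel (h : Out S N V U y x) (h' : Rel S (Wv S V U y) x z) : Out S N V U y z :=
  fun n hn h1 => h'.symm.trans (h n hn h1)

namespace Thick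

variable (h : Thick S N V U)
include h

theorem mul (hn : n ∈ N) (h1 : Rel S U x y) : Rel S U (n * x) (n * y) :=
  h1.mul_left n (h.hU n hn)

theorem bd {s : Γ} (hs : s ∈ S) (h1 : x ∈ Wv S V U y ∨ x * s ∈ Wv S V U y) :
    Rel S U y x ∧ Rel S U y (x * s) := by
  obtain ⟨h2, h3⟩ := h.edge x s hs (h1.imp (·.1) (·.1))
  rcases h1 with h1 | h1
  · exact ⟨h1.2, h1.2.trans (Rel.edge hs h2 h3)⟩
  · exact ⟨h1.2.trans (Rel.edge hs h2 h3).symm, h1.2⟩

theorem far (y : Γ) : ∃ n ∈ N, ¬ Rel S U y (n * y) := by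
  obtain ⟨L, -, ⟨n, hn, hn'⟩, hL⟩ := h.big {y} (Set.finite_singleton _) 1 N.one_mem
  exact ⟨n, hn, fun h1 => hn' (hL n hn y rfl y rfl y (Rel.refl _ _ _) h1)⟩

theorem same_side (hn : n ∈ N) (hm : m ∈ N) (h1 : ¬ Rel S U y (n * y))
    (h2 : ¬ Rel S U y (m * y)) : Rel S (Wv S V U y) (n * y) (m * y) := by
  suffices H : ∀ n ∈ N, ∀ m ∈ N, ¬ Rel S U y (n * y) → ¬ Rel S U y (m * y) → ∀ f : Γ → Prop,
      (∀ z, ∀ s ∈ S, z ∉ Wv S V U y → z * s ∉ Wv S V U y → (f z ↔ f (z * s))) →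
      f (n * y) → f (m * y) from
    fun f hf => ⟨H n hn m hm h1 h2 f hf, H m hm n hn h2 h1 f hf⟩
  intro n hn m hm h1 h2 f hf h3
  by_contra h4
  let c : Cut S :=
    { Y := {z | f (y * z)}
      C := {z | Rel S U y (y * z)}
      gen := h.gen
      one_mem := by simpa using Rel.refl S U y
      conn := fun g hg x hx => by
        have := hx (fun z => Rel S U y z ∧ g (y⁻¹ * z)) fun z s hs h5 h6 => by
          have h7 := Rel.edge hs h5 h6
          refine ⟨fun h8 => ⟨h8.1.trans h7, ?_⟩, fun h8 => ⟨h8.1.trans h7.symm, ?_⟩⟩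
          · rw [← mul_assoc]
            exact (hg _ (by simpa using h8.1) s hs (by simpa [mul_assoc] using h8.1.trans h7)).1 h8.2
          · rw [← mul_assoc] at h8
            exact (hg _ (by simpa using h8.1.trans h7.symm) s hs
              (by simpa [mul_assoc] using h8.1)).2 h8.2
        simp only [inv_mul_cancel, inv_mul_cancel_left] at this
        exact ⟨fun h5 => (this.2 ⟨hx, h5⟩).2, fun h5 => (this.1 ⟨Rel.refl _ _ _, h5⟩).2⟩
      bdry := fun x s hs h5 => by
        have := h.bd (x := y * x) (y := y) hs (by_contra fun h6 => by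
          rw [not_or] at h6
          exact h5 (by simpa [mul_assoc] using hf _ s hs h6.1 h6.2))
        rwa [mul_assoc] at this }
  have hc : ∀ n ∈ N, y⁻¹ * n * y ∈ N := fun n hn => by simpa using h.nor.conj_mem n hn y⁻¹
  have hgen : ∀ n ∈ N, ¬ Rel S U y (n * y) → c.Gen (y⁻¹ * n * y) := fun n hn h5 x hx hx' => by
    have h6 : Rel S U y (n * (y * x)) := by simpa [c, mul_assoc] using hx'
    exact h5 (h6.trans (h.mul hn hx).symm)
  have hno : ∀ ν ∈ N, ¬ c.Hyp ν := fun ν hν hh => by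
    obtain ⟨P, hP, hP'⟩ := c.exists_path ν
    obtain ⟨L, hL1, ⟨g, hg, hg'⟩, hL⟩ := h.big (insert y ((y * ·) '' P)) ((hP.image _).insert _)
      _ (h.nor.conj_mem ν hν y)
    have hE : ∀ e ∈ N, e ∈ c.Ex ν → y * e * y⁻¹ ∈ L := fun e he he' => by
      rcases he' with he' | he'
      · simp only [Cut.Gen, Set.mem_ofPred_eq, not_forall, not_not] at he'
        obtain ⟨x, hx, hx'⟩ := he'
        exact hL _ (h.nor.conj_mem e he y) y (Or.inl rfl) y (Or.inl rfl) (y * x) hx
          (by simpa [c, mul_assoc] using hx')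
      · obtain ⟨u, hu, hu'⟩ := hP' e he'
        exact hL _ (h.nor.conj_mem e he y) _ (Or.inr ⟨u, hu, rfl⟩) y (Or.inl rfl) _ (Rel.refl _ _ _)
          (by simpa [c, mul_assoc] using hu')
    have hD : ∀ e ∈ N, (c.Dd ν e).Infinite → y * e * y⁻¹ ∈ L := fun e he he' => by
      obtain ⟨a, b, hab⟩ := he'.nonempty
      have h5 := hE _ (N.mul_mem (N.mul_mem (N.zpow_mem hν _) he) (N.zpow_mem hν _)) hab
      have h6 := L.mul_mem (L.mul_mem (L.zpow_mem hL1 a) h5) (L.zpow_mem hL1 (-b))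
      rw [conj_zpow, conj_zpow] at h6
      convert h6 using 1
      group
    rcases hh.inf_of_nf h.nf hν (hc g hg) with h5 | h5
    · exact hg' (by simpa [mul_assoc] using hD _ (hc g hg) h5)
    · exact hg' (by simpa [mul_assoc] using hD _ (N.inv_mem (hc g hg)) h5)
  rcases Cut.exists_hyp (hgen n hn h1) (hgen m hm h2) (by simpa [c, mul_assoc] using h3)
    (by simpa [c, mul_assoc] using h4) with h5 | h5 | h5
  · exact hno _ (hc n hn) h5
  · exact hno _ (N.inv_mem (hc m hm)) h5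
  · exact hno _ (N.mul_mem (hc n hn) (hc m hm)) h5

theorem out_tr (hn : n ∈ N) (h1 : ¬ Rel S U y (n * y)) : Out S N V U y (n * y) :=
  fun _ hm h2 => h.same_side hn hm h1 h2

theorem out_mul (hm : m ∈ N) (h1 : Out S N V U y x) : Out S N V U (m * y) (m * x) := by
  intro n hn h2
  have h3 : m⁻¹ * n * m ∈ N := N.mul_mem (N.mul_mem (N.inv_mem hm) hn) hm
  have h4 := (h1 _ h3 fun h4 => h2 (by simpa [mul_assoc] using h.mul hm h4)).mul_left m
    (U' := Wv S V U (m * y)) fun z hz =>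
      ⟨h.hV m hm z hz.1, by simpa using h.mul (N.inv_mem hm) hz.2⟩
  simpa [mul_assoc] using h4

theorem out_mul' (hm : m ∈ N) (h1 : Out S N V U (m * y) (m * x)) : Out S N V U y x := by
  simpa using h.out_mul (N.inv_mem hm) h1

theorem out_congr (h1 : Rel S U y y') (h2 : Out S N V U y x) : Out S N V U y' x := by
  intro n hn h3
  have h4 : ¬ Rel S U y (n * y) := fun h4 => h3 ((h1.symm.trans h4).trans (h.mul hn h1))
  exact ((h2 n hn h4).trans (Rel.sep h4 (h.mul hn h1))).mono fun z hz => ⟨hz.1, h1.trans hz.2⟩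

theorem not_out (h1 : x ∈ Wv S V U y) : ¬ Out S N V U y x := fun h2 => by
  obtain ⟨n, hn, h3⟩ := h.far y
  exact (h2 n hn h3).symm.notMem (fun h4 => h3 h4.2) h1

theorem change {s : Γ} (hs : s ∈ S) (h1 : ¬ (Out S N V U y x ↔ Out S N V U y (x * s))) :
    Rel S U y x ∧ Rel S U y (x * s) :=
  h.bd hs (by_contra fun h2 => by
    rw [not_or] at h2
    exact h1 ⟨fun h3 => h3.rel (Rel.edge hs h2.1 h2.2), fun h3 => h3.rel (Rel.edge hs h2.1 h2.2).symm⟩)

theorem nest1 (h1 : ¬ Rel S U y y') (h2 : Out S N V U y y') (h3 : Out S N V U y' y) (x : Γ) :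
    Out S N V U y x ∨ Out S N V U y' x := by
  refine (Rel.empty h.gen y' x (fun x => Out S N V U y x ∨ Out S N V U y' x)
    fun z s hs _ _ => ?_).1 (Or.inl h2)
  by_cases h4 : Out S N V U y z ↔ Out S N V U y (z * s)
  · by_cases h5 : Out S N V U y' z ↔ Out S N V U y' (z * s)
    · exact or_congr h4 h5
    · obtain ⟨h6, h7⟩ := h.change hs h5
      exact iff_of_true (Or.inl (h2.rel (Rel.sep h1 h6))) (Or.inl (h2.rel (Rel.sep h1 h7)))
  · obtain ⟨h6, h7⟩ := h.change hs h4
    have h8 : ¬ Rel S U y' y := fun h => h1 h.symm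
    exact iff_of_true (Or.inr (h3.rel (Rel.sep h8 h6))) (Or.inr (h3.rel (Rel.sep h8 h7)))

theorem disj_tr (hn : n ∈ N) (h1 : ¬ Rel S U y (n * y)) (x : Γ) :
    Out S N V U y x ∨ Out S N V U (n * y) x := by
  refine h.nest1 h1 (h.out_tr hn h1) ?_ x
  have := h.out_tr (y := n * y) (N.inv_mem hn) (by simpa using fun h2 => h1 h2.symm)
  simpa using this

theorem nest2 (h1 : ¬ Rel S U y y') (h2 : ¬ Out S N V U y y') (h3 : Out S N V U y x) :
    Out S N V U y' x := by
  obtain ⟨n, hn, h4⟩ := h.far y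
  have h5 : Out S N V U y (n * y') :=
    (h.disj_tr hn h4 _).resolve_right fun h5 => h2 (h.out_mul' hn h5)
  have h6 : ¬ Rel S U y' (n * y') := fun h6 => h2 (h5.rel (Rel.sep h1 h6).symm)
  refine (h.out_tr hn h6).rel (Rel.symm (((h3 n hn h4).trans (h5 n hn h4).symm).avoid
    fun z _ h7 h8 => h2 ((h3.rel h7).rel (Rel.sep h1 h8.2).symm)))

theorem laminar (h1 : ¬ Out S N V U y x) (h2 : ¬ Out S N V U y' x) :
    (∀ z, Out S N V U y z → Out S N V U y' z) ∨ ∀ z, Out S N V U y' z → Out S N V U y z := by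
  by_cases h3 : Rel S U y y'
  · exact Or.inl fun z => h.out_congr h3
  by_cases h4 : Out S N V U y y'
  · by_cases h5 : Out S N V U y' y
    · exact absurd (h.nest1 h3 h4 h5 x) (not_or.2 ⟨h1, h2⟩)
    · exact Or.inr fun z => h.nest2 (fun h => h3 h.symm) h5
  · exact Or.inl fun z => h.nest2 h3 h4

theorem exists_out : ∃ x, ∀ y, Out S N V U y x := by
  by_contra hcon
  have hx : ∀ x, ∃ y, ¬ Out S N V U y x := fun x => not_forall.1 fun h => hcon ⟨x, h⟩
  have htr : ∀ a b c, (∃ y, ¬ Out S N V U y a ∧ ¬ Out S N V U y b) →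
      (∃ y, ¬ Out S N V U y b ∧ ¬ Out S N V U y c) →
      ∃ y, ¬ Out S N V U y a ∧ ¬ Out S N V U y c := by
    rintro a b c ⟨y, h1, h2⟩ ⟨y', h3, h4⟩
    rcases h.laminar h2 h3 with h5 | h5
    · exact ⟨y, h1, fun h6 => h4 (h5 _ h6)⟩
    · exact ⟨y', fun h6 => h1 (h5 _ h6), h4⟩
  have hed : ∀ a, ∀ s ∈ S, ∃ y, ¬ Out S N V U y a ∧ ¬ Out S N V U y (a * s) := fun a s hs => by
    obtain ⟨y, hy⟩ := hx a
    obtain ⟨y', hy'⟩ := hx (a * s)
    by_cases h1 : Out S N V U y (a * s)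
    · by_cases h2 : Out S N V U y' a
      · have h3 := (h.change hs fun h3 => hy (h3.2 h1)).1
        have h4 := (h.change hs fun h3 => hy' (h3.1 h2)).1
        exact absurd (h.out_congr (h4.trans h3.symm) h2) hy
      · exact ⟨y', h2, hy'⟩
    · exact ⟨y, hy, h1⟩
  have hall : ∀ a, ∃ y ∈ V, ¬ Out S N V U y 1 ∧ ¬ Out S N V U y a := fun a => by
    obtain ⟨y, h1, h2⟩ := (const_of_edges h.gen
      (fun a => ∃ y, ¬ Out S N V U y 1 ∧ ¬ Out S N V U y a) (fun a s hs =>
        ⟨fun h1 => htr _ _ _ h1 (hed a s hs),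
          fun h1 => htr _ _ _ h1 ((hed a s hs).imp fun _ => And.symm)⟩) a).2
      ((hx 1).imp fun _ h => ⟨h, h⟩)
    obtain ⟨z, hz⟩ : (Wv S V U y).Nonempty := Set.nonempty_iff_ne_empty.2 fun h3 =>
      h1 fun n _ _ => h3 ▸ Rel.empty h.gen _ _
    exact ⟨z, hz.1, fun h3 => h1 (h.out_congr hz.2.symm h3),
      fun h3 => h2 (h.out_congr hz.2.symm h3)⟩
  choose! r hr using fun (q : Γ ⧸ N) (hq : ∃ y : Γ, (y : Γ ⧸ N) = q ∧ ¬ Out S N V U y 1) => hq
  obtain ⟨L, -, ⟨n, hn, hn'⟩, hL⟩ := h.big _ (h.fin.image r) 1 N.one_mem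
  obtain ⟨y, hy, h1, h2⟩ := hall n
  obtain ⟨h3, h4⟩ := hr y ⟨y, rfl, h1⟩
  have h5 : r y * y⁻¹ ∈ N := by
    simpa using h.nor.conj_mem _ (QuotientGroup.eq.1 h3.symm) y
  have h6 : Rel S U y (r y) := by_contra fun h6 => by
    have := h.disj_tr (y := y) h5 (by simpa using h6) 1
    simp only [inv_mul_cancel_right] at this
    exact this.elim h1 h4
  have h7 : Rel S U y (n * y) := by_contra fun h7 =>
    (h.disj_tr hn h7 n).elim h2 fun h8 => h1 (h.out_mul' hn (by simpa using h8))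
  exact hn' (hL n hn _ ⟨_, ⟨y, hy, rfl⟩, rfl⟩ _ ⟨_, ⟨y, hy, rfl⟩, rfl⟩ y h6.symm (h6.symm.trans h7))

theorem out_of_good (h1 : ∀ n ∈ N, Rel S V x (n * x)) (y : Γ) : Out S N V U y x := by
  obtain ⟨n, hn, h2⟩ := h.far y
  rcases h.disj_tr hn h2 (n * x) with h3 | h3
  · exact h3.rel ((h1 n hn).symm.mono fun _ hz => hz.1)
  · exact h.out_mul' hn h3

end Thick

end Pool.Agent.P.MP_5ee5b4_al
end

-- part Pool.Agent.P.MP_5ee5b4_al.NotFG2
section

/-! One filtered end for infinitely generated normal subgroups without free subgroups. -/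

namespace Pool.Agent.P.MP_5ee5b4_al

open Pool.Agent.P.MP_6e40fc_al
open scoped MonoidAlgebra

set_option linter.unusedSectionVars false

variable {Γ : Type} [Group Γ] {ι : Type} [Fintype ι] {N : Subgroup Γ}

theorem Thick.rel_of_out {s : ι → Γ} {V U C : Set Γ} (h : Thick (Set.range s) N V U)
    (R : Set (ι → ℤ[Γ])) (hR : Submodule.span ℤ[Γ] R = LinearMap.ker (dS s))
    (hC : IsConn (Set.range s) C)
    (hRC : ∀ r ∈ R, ∀ i, ∀ y ∈ (r i).coeff.support, y ∈ C ∧ y * s i ∈ C)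
    (hCU : ∀ x, ∀ c ∈ C, x * c ∈ V → ∀ c' ∈ C, x * c' ∉ U) {x x' : Γ}
    (hx : ∀ y, Out (Set.range s) N V U y x) (hx' : ∀ y, Out (Set.range s) N V U y x') :
    Rel (Set.range s) V x x' := by
  classical
  intro f hf
  let lam : Γ → ZMod 2 := fun x => if f x then 1 else 0
  have hcross : ∀ x i, lam (x * s i) - lam x ≠ 0 → x ∈ V ∨ x * s i ∈ V := fun x i h1 => by
    by_contra h2
    rw [not_or] at h2
    exact h1 (by simp only [lam, hf x _ ⟨i, rfl⟩ h2.1 h2.2, sub_self])
  let cl : Γ → Set Γ := fun x => {z | Rel (Set.range s) U x z}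
  have hcl : ∀ a b, Rel (Set.range s) U a b → cl a = cl b := fun a b h1 =>
    Set.ext fun z => ⟨fun h2 => h1.symm.trans h2, fun h2 => h1.trans h2⟩
  obtain ⟨F, -, hF⟩ := exists_integral h.gen
    (fun i x => (Finsupp.single (cl x) (lam (x * s i) - lam x) : Set Γ →₀ ZMod 2)) R hR
    fun r hr x => by
    have hr0 : dS s r = 0 := by
      have : r ∈ Submodule.span ℤ[Γ] R := Submodule.subset_span hr
      rwa [hR] at this
    by_cases hex : ∃ c ∈ C, x * c ∈ V
    · obtain ⟨c, hc, h0⟩ := hex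
      have h2 := extAdd_dS (fun y => lam (x * y)) s r
      rw [hr0, map_zero] at h2
      have h3 := congrArg (Finsupp.singleAddHom (cl x)) h2
      rw [map_zero, map_sum] at h3
      rw [h3]
      refine Finset.sum_congr rfl fun i _ => ?_
      rw [map_extAdd]
      refine extAdd_congr fun y hy => ?_
      rw [← hcl _ _ (hC.rel x (hCU x c hc h0) (hRC r hr i y hy).1), mul_assoc]
      rfl
    · refine Finset.sum_eq_zero fun i _ => ?_
      rw [extAdd_congr (g := fun _ => 0) fun y hy => ?_]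
      · exact extAdd_zero _
      · rw [not_not.1 fun h1 => (hcross _ i h1).elim (fun h2 => hex ⟨y, (hRC r hr i y hy).1, h2⟩)
          fun h2 => hex ⟨_, (hRC r hr i y hy).2, by rwa [← mul_assoc]⟩, Finsupp.single_zero]
  have hsum := const_of_edges' h.gen (fun x => (F x).sum (fun _ a => a) - lam x) (fun x i => by
    rw [hF, Finsupp.sum_add_index' (fun _ => rfl) (fun _ _ _ => rfl), Finsupp.sum_single_index rfl]
    ring) x x'
  have hFF : F x = F x' := Finsupp.ext fun W => by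
    by_cases hW : ∃ y, cl y = W
    · obtain ⟨y, rfl⟩ := hW
      obtain ⟨n, hn, h1⟩ := h.far y
      refine (((hx y n hn h1).trans (hx' y n hn h1).symm) (fun z => F x (cl y) = F z (cl y)) ?_).1
        rfl
      rintro z _ ⟨i, rfl⟩ h2 h3
      rw [hF, Finsupp.add_apply, Finsupp.single_apply]
      split_ifs with h4
      · have h5 : Rel (Set.range s) U y z := (h4 ▸ Rel.refl _ _ _ : z ∈ cl y)
        have h6 : lam (z * s i) - lam z = 0 := by_contra fun h6 => by
          obtain ⟨h7, h8⟩ := h.edge z _ ⟨i, rfl⟩ (hcross z i h6)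
          exact (hcross z i h6).elim (fun h9 => h2 ⟨h9, h5⟩)
            fun h9 => h3 ⟨h9, h5.trans (Rel.edge ⟨i, rfl⟩ h7 h8)⟩
        rw [h6, add_zero]
      · rw [add_zero]
    · refine const_of_edges' h.gen (fun z => F z W) (fun z i => ?_) x x'
      rw [hF, Finsupp.add_apply, Finsupp.single_apply, if_neg fun h1 => hW ⟨z, h1⟩, add_zero]
  rw [hFF, sub_right_inj] at hsum
  by_cases h1 : f x <;> by_cases h2 : f x' <;> simp_all [lam]

variable [N.Normal] {S : Set Γ}

theorem mk_mul_left {n : Γ} (hn : n ∈ N) (x : Γ) : ((n * x : Γ) : Γ ⧸ N) = x := by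
  rw [QuotientGroup.mk_mul, (QuotientGroup.eq_one_iff _).2 hn, one_mul]

theorem mul_inv_mem_of_eq {x y : Γ} (h : (x : Γ ⧸ N) = y) : x * y⁻¹ ∈ N := by
  rw [← QuotientGroup.eq_one_iff, QuotientGroup.mk_mul, QuotientGroup.mk_inv, h, mul_inv_cancel]

theorem exists_big (hfin : S.Finite) (hN : ¬ N.FG) {U : Set Γ} {B : Set (Γ ⧸ N)} (hB : B.Finite)
    (hU : ∀ x, x ∉ U → (x : Γ ⧸ N) ∈ B) (F : Set Γ) (hF : F.Finite) (ν : Γ) (hν : ν ∈ N) :
    ∃ L : Subgroup Γ, ν ∈ L ∧ (∃ n ∈ N, n ∉ L) ∧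
      ∀ n ∈ N, ∀ a ∈ F, ∀ b ∈ F, ∀ x, Rel S U a x → Rel S U b (n * x) → n ∈ L := by
  let ρ : Γ → Γ := fun x => x * ((x : Γ ⧸ N).out)⁻¹
  have hρ : ∀ x, ρ x ∈ N := fun x => mul_inv_mem_of_eq (Quotient.out_eq _).symm
  have hρ' : ∀ n ∈ N, ∀ x, ρ (n * x) = n * ρ x := fun n hn x => by
    simp only [ρ, mk_mul_left hn, mul_assoc]
  let T : Set Γ := insert ν (ρ '' F ∪ Set.image2 (fun q s => ρ (q.out * s)) B S)
  let L := Subgroup.closure T
  have hL : L ≤ N := (Subgroup.closure_le _).2 (by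
    rintro _ (rfl | ⟨x, -, rfl⟩ | ⟨q, -, s, -, rfl⟩)
    · exact hν
    · exact hρ _
    · exact hρ _)
  have key : ∀ a ∈ F, ∀ x, Rel S U a x → ρ x ∈ L := fun a ha x h =>
    (h (fun x => ρ x ∈ L) fun z s hs h1 _ => by
      have h2 : ρ (z * s) = ρ z * ρ ((z : Γ ⧸ N).out * s) := by
        rw [← hρ' _ (hρ z)]
        simp only [ρ, mul_assoc, inv_mul_cancel_left]
      rw [h2]
      exact (L.mul_mem_cancel_right (Subgroup.subset_closure
        (Or.inr (Or.inr ⟨_, hU z h1, s, hs, rfl⟩)))).symm).1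
      (Subgroup.subset_closure (Or.inr (Or.inl ⟨a, ha, rfl⟩)))
  refine ⟨L, Subgroup.subset_closure (Or.inl rfl), by_contra fun h => hN ?_,
    fun n hn a ha b hb x h1 h2 => ?_⟩
  · refine (Subgroup.fg_iff _).2 ⟨T, le_antisymm hL fun n hn => by_contra fun h' => h ⟨n, hn, h'⟩,
      ((hF.image _).union (hB.image2 _ hfin)).insert _⟩
  · have := key b hb _ h2
    rw [hρ' n hn] at this
    exact (L.mul_mem_cancel_right (key a ha x h1)).1 this

variable (N S) in
/-- points joined to all their translates outside a finite union of cosets -/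
def Good (B : Set (Γ ⧸ N)) (x : Γ) : Prop :=
  (x : Γ ⧸ N) ∉ B ∧ ∀ n ∈ N, Rel S {z | (z : Γ ⧸ N) ∈ B} x (n * x)

theorem Good.mono {B B' : Set (Γ ⧸ N)} {x : Γ} (h : Good N S B' x) (hB : B ⊆ B') : Good N S B x :=
  ⟨fun h1 => h.1 (hB h1), fun n hn => (h.2 n hn).mono fun _ hz => hB hz⟩

theorem Good.rel {B : Set (Γ ⧸ N)} {x y : Γ} (h : Good N S B x)
    (h1 : Rel S {z | (z : Γ ⧸ N) ∈ B} x y) : Good N S B y :=
  ⟨h1.notMem h.1, fun n hn => (h1.symm.trans (h.2 n hn)).trans
    (h1.mul_left n fun z hz => by simpa only [Set.mem_ofPred_eq, mk_mul_left hn] using hz)⟩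

theorem closure_image_mk (hS : Subgroup.closure S = ⊤) :
    Subgroup.closure (QuotientGroup.mk' N '' S) = ⊤ := by
  rw [← MonoidHom.map_closure, hS]
  exact Subgroup.map_top_of_surjective _ (QuotientGroup.mk'_surjective N)

theorem oe_of_good (hS : Subgroup.closure S = ⊤) (hfin : S.Finite) (hvc : ¬ VC (Γ ⧸ N))
    (hex : ∀ B : Set (Γ ⧸ N), B.Finite → ∃ x, Good N S B x)
    (hun : ∀ B : Set (Γ ⧸ N), B.Finite → ∀ x y, Good N S B x → Good N S B y →
      Rel S {z | (z : Γ ⧸ N) ∈ B} x y) : OE N S := by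
  have h1 : OneEnd (QuotientGroup.mk' N '' S) := fun Y hY => by
    by_contra hcon
    rw [not_or] at hcon
    have key : ∀ Y, AI (QuotientGroup.mk' N '' S) Y → Y.Infinite → Yᶜ.Infinite →
        ∀ B : Set (Γ ⧸ N), B.Finite → (∀ x : Γ, ∀ s ∈ S, (x : Γ ⧸ N) ∉ B →
          ((x : Γ ⧸ N) ∈ Y ↔ ((x * s : Γ) : Γ ⧸ N) ∈ Y)) →
        ∀ x, Good N S B x → (x : Γ ⧸ N) ∉ Y := fun Y hY h2 h3 B hB hB' x hx hx' => by
      obtain ⟨g, hg⟩ := exists_disj (closure_image_mk hS) (hfin.image _) hY h2 h3 hvc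
      obtain ⟨g, rfl⟩ := QuotientGroup.mk_surjective g
      have h4 : ∀ y, Good N S B y → (y : Γ ⧸ N) ∈ Y := fun y hy =>
        (hun B hB x y hx hy (fun z => (z : Γ ⧸ N) ∈ Y) fun z s hs h5 _ => hB' z s hs h5).1 hx'
      obtain ⟨z, hz⟩ := hex (B ∪ (fun q => (g : Γ ⧸ N) * q) ⁻¹' B)
        (hB.union (hB.preimage (mul_right_injective _).injOn))
      refine hg _ (h4 z (hz.mono Set.subset_union_left)) (h4 (g * z) ⟨fun h5 => hz.1 (Or.inr h5),
        fun n hn => ?_⟩)
      have := Rel.mul_left (U' := {z : Γ | (z : Γ ⧸ N) ∈ B}) g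
        (hz.2 _ (‹N.Normal›.conj_mem n hn g⁻¹)) fun z hz => Or.inr hz
      simpa [mul_assoc] using this
    obtain ⟨B, hB, hB'⟩ := hY.exists_finite (hfin.image _)
    obtain ⟨x, hx⟩ := hex B hB
    have h2 : ∀ x : Γ, ∀ s ∈ S, (x : Γ ⧸ N) ∉ B → ((x : Γ ⧸ N) ∈ Y ↔ ((x * s : Γ) : Γ ⧸ N) ∈ Y) :=
      fun x s hs h => by_contra fun h' => h (hB' _ _ ⟨s, hs, rfl⟩ h').1
    exact key Yᶜ hY.compl hcon.2 (by rw [compl_compl]; exact hcon.1) B hB
      (fun x s hs h => not_congr (h2 x s hs h)) x hx (key Y hY hcon.1 hcon.2 B hB h2 x hx)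
  intro B hB
  have h2 : ∀ x y : Γ, (x : Γ ⧸ N) = y → Good N S B x → Good N S B y := fun x y h hx => by
    have := hx.rel (hx.2 _ (mul_inv_mem_of_eq h.symm))
    rwa [inv_mul_cancel_right] at this
  rcases h1 {q | ∃ x, Good N S B x ∧ (x : Γ ⧸ N) = q} (AI.of_finite hB (by
    rintro q _ ⟨s, hs, rfl⟩ h3 h4
    obtain ⟨x, rfl⟩ := QuotientGroup.mk_surjective q
    have h5 : Rel S {z | (z : Γ ⧸ N) ∈ B} x (x * s) := Rel.edge hs h3 h4
    exact ⟨fun ⟨y, h6, h7⟩ => ⟨_, (h2 _ _ h7 h6).rel h5, rfl⟩,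
      fun ⟨y, h6, h7⟩ => ⟨_, (h2 y (x * s) h7 h6).rel h5.symm, rfl⟩⟩)) with h3 | h3
  · obtain ⟨x, hx⟩ := hex _ (hB.union h3)
    exact absurd (Or.inr ⟨x, hx.mono Set.subset_union_left, rfl⟩) hx.1
  · refine ⟨_, h3, fun x y hx hy => ?_⟩
    obtain ⟨x', h4, h5⟩ := not_not.1 hx
    obtain ⟨y', h6, h7⟩ := not_not.1 hy
    exact hun B hB x y (h2 _ _ h5 h4) (h2 _ _ h7 h6)

theorem oe_of_not_fg {s : ι → Γ} (hs : Subgroup.closure (Set.range s) = ⊤)
    (hfg : (LinearMap.ker (dS s)).FG) (hNF : NF N) (hN : ¬ N.FG) (hvc : ¬ VC (Γ ⧸ N)) :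
    OE N (Set.range s) := by
  obtain ⟨R, hR⟩ := hfg
  obtain ⟨C, hC0, hC, hC3⟩ := exists_conn_finite hs
    (B := Set.range s ∪ ⋃ r ∈ R, ⋃ i, (((r i).coeff.support : Set Γ) ∪
      (· * s i) '' ((r i).coeff.support : Set Γ)))
    ((Set.finite_range s).union (R.finite_toSet.biUnion fun r _ => Set.finite_iUnion fun i =>
      (Finset.finite_toSet _).union ((Finset.finite_toSet _).image _)))
  let U : Set (Γ ⧸ N) → Set Γ := fun B =>
    {z | ∀ c ∈ C, ∀ c' ∈ C, ((z * c'⁻¹ * c : Γ) : Γ ⧸ N) ∉ B}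
  have hT : ∀ B : Set (Γ ⧸ N), B.Finite → Thick (Set.range s) N {z | (z : Γ ⧸ N) ∈ B} (U B) :=
    fun B hB =>
    { gen := hs
      nor := ‹_›
      nf := hNF
      hV := fun n hn x hx => by simpa only [Set.mem_ofPred_eq, mk_mul_left hn] using hx
      hU := fun n hn x hx c hc c' hc' => by
        simpa only [mul_assoc, mk_mul_left hn] using hx c hc c' hc'
      vu := fun x hx h => h 1 hC.1 1 hC.1 (by simpa using hx)
      edge := fun x a ha h => by
        have h1 := hC3 (Or.inl ha)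
        rcases h with h | h
        · exact ⟨fun h2 => h2 1 hC.1 1 hC.1 (by simpa using h),
            fun h2 => h2 1 hC.1 a h1 (by simpa using h)⟩
        · exact ⟨fun h2 => h2 a h1 1 hC.1 (by simpa using h),
            fun h2 => h2 1 hC.1 1 hC.1 (by simpa using h)⟩
      big := exists_big (Set.finite_range s) hN
        ((hB.image2 (fun q (c : Γ) => q * (c : Γ ⧸ N)⁻¹) hC0).image2
          (fun q (c : Γ) => q * (c : Γ ⧸ N)) hC0) fun x hx => by
          simp only [U, Set.mem_ofPred_eq, not_forall, not_not] at hx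
          obtain ⟨c, hc, c', hc', h⟩ := hx
          exact ⟨_, ⟨_, h, c, hc, rfl⟩, c', hc', by simp⟩
      fin := hB.subset (by rintro _ ⟨x, hx, rfl⟩; exact hx) }
  have hrel : ∀ B : Set (Γ ⧸ N), B.Finite → ∀ x x', (∀ y, Out (Set.range s) N _ (U B) y x) →
      (∀ y, Out (Set.range s) N _ (U B) y x') → Rel (Set.range s) {z | (z : Γ ⧸ N) ∈ B} x x' :=
    fun B hB x x' => (hT B hB).rel_of_out R hR hC (fun r hr i y hy =>
      ⟨hC3 (Or.inr (Set.mem_biUnion hr (Set.mem_iUnion.2 ⟨i, Or.inl hy⟩))),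
        hC3 (Or.inr (Set.mem_biUnion hr (Set.mem_iUnion.2 ⟨i, Or.inr ⟨y, hy, rfl⟩⟩)))⟩)
      fun x c hc h c' hc' h' => h' c hc c' hc' (by simpa using h)
  refine oe_of_good hs (Set.finite_range s) hvc (fun B hB => ?_) fun B hB x y hx hy =>
    hrel B hB x y ((hT B hB).out_of_good hx.2) ((hT B hB).out_of_good hy.2)
  obtain ⟨x, hx⟩ := (hT B hB).exists_out
  refine ⟨x, fun h => (hT B hB).not_out ⟨h, Rel.refl _ _ _⟩ (hx x), fun n hn =>
    hrel B hB _ _ hx fun y => ?_⟩
  simpa using (hT B hB).out_mul hn (hx (n⁻¹ * y))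

end Pool.Agent.P.MP_5ee5b4_al
end

-- part Pool.Agent.P.MP_5ee5b4_al.FGcase
section

/-! Finitely generated normal subgroups: the quotient has one end. -/

namespace Pool.Agent.P.MP_5ee5b4_al

open Pool.Agent.P.MP_6e40fc_al Matrix
open scoped MonoidAlgebra

noncomputable section

set_option linter.unusedSectionVars false

variable {Γ K : Type} [Group Γ] [Group K] {ι β : Type} [Fintype ι] [Fintype β] [DecidableEq ι]
  (w : Γ →* ℤˣ)

section
variable {A A' : Type} [AddCommGroup A] [Module ℤ[Γ] A] [AddCommGroup A'] [Module ℤ[Γ] A']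
  {w} {s : ι → Γ}

theorem Cyc.map {z : ι → A} (h : Cyc w s z) (g : A →ₗ[ℤ[Γ]] A') : Cyc w s (g ∘ z) := by
  have := congrArg g h
  simp only [map_sum, map_smul, map_zero] at this
  exact this

theorem Cyc.sub {z z' : ι → A} (h : Cyc w s z) (h' : Cyc w s z') : Cyc w s (z - z') := by
  rw [cyc_iff] at *
  rw [map_sub, h, h', sub_zero]

theorem cyc_of_bd {z : ι → A} (h : z ∈ Bd A w s) : Cyc w s z := by
  rw [cyc_iff]
  refine (AddSubgroup.closure_le (cact (tc w (πc s))).ker).2 ?_ h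
  rintro _ ⟨a, v, hv, rfl⟩
  funext u
  rw [bd_ract, hv, map_zero, zero_smul]
  rfl

theorem bd_map {z : ι → A} (h : z ∈ Bd A w s) (g : A →ₗ[ℤ[Γ]] A') : g ∘ z ∈ Bd A' w s := by
  refine (AddSubgroup.closure_le ((Bd A' w s).comap (g.toAddMonoidHom.compLeft ι))).2 ?_ h
  rintro _ ⟨a, v, hv, rfl⟩
  have : g ∘ ract w a v = ract w (g a) v := funext fun i => map_smul g _ _
  change g ∘ ract w a v ∈ Bd A' w s
  rw [this]
  exact ract_mem_Bd w s (g a) hv

theorem bd_lift (g : A →ₗ[ℤ[Γ]] A') (hg : Function.Surjective g) {z : ι → A'}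
    (h : z ∈ Bd A' w s) : ∃ z' ∈ Bd A w s, g ∘ z' = z := by
  refine (AddSubgroup.closure_le ((Bd A w s).map (g.toAddMonoidHom.compLeft ι))).2 ?_ h
  rintro _ ⟨a, v, hv, rfl⟩
  obtain ⟨a, rfl⟩ := hg a
  exact ⟨_, ract_mem_Bd w s a hv, funext fun i => map_smul g _ _⟩

end

theorem unit_smul {M : Type} [AddCommGroup M] (h2 : ∀ m : M, m + m = 0) (u : ℤˣ) (m : M) :
    (u : ℤ) • m = m := by
  rcases Int.units_eq_one_or u with rfl | rfl
  · simp
  · simpa using neg_eq_of_add_eq_zero_left (h2 m)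

theorem bd_of_two {s : ι → Γ} (hs : Subgroup.closure (Set.range s) = ⊤)
    (hfg : (LinearMap.ker (dS s)).FG) (N : Subgroup Γ) [N.Normal] [Infinite (Γ ⧸ N)]
    (hN : OE N (Set.range s)) {t : β → N} (ht : Subgroup.closure (Set.range t) = ⊤)
    {P : Type} [AddCommGroup P] [Module ℤ[N] P] (h2 : ∀ m : P, m + m = 0)
    (z : ι → Co N.subtype P) (hz : Cyc w s z) : z ∈ Bd _ w s := by
  obtain ⟨σ⟩ := exists_sec (j := N.subtype) Subtype.val_injective
  let J := AddSubgroup.closure {m : P | ∃ (n : N) (m' : P), m = (w n : ℤ) • o n • m' - m'}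
  let _ : Module (ZMod 2) (P ⧸ J) := AddCommGroup.zmodModule fun x => by
    obtain ⟨x, rfl⟩ := QuotientAddGroup.mk_surjective x
    rw [two_nsmul, ← QuotientAddGroup.mk_add, h2, QuotientAddGroup.mk_zero]
  let π : P →ₗ[ℤ[N]] Triv N (P ⧸ J) := mkLin (QuotientAddGroup.mk' J) fun n m => by
    rw [Triv.o_smul]
    exact QuotientAddGroup.eq_iff_sub_mem.2 (AddSubgroup.subset_closure
      ⟨n, m, by rw [unit_smul h2]⟩)
  obtain ⟨z', h3, h4⟩ := bd_lift (Co.map N.subtype π)
    (fun f => σ.lift π f fun x => QuotientAddGroup.mk_surjective _)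
    (h1_triv 2 w hs hfg N hN le_rfl _ (hz.map (Co.map N.subtype π)))
  have h5 := push_cycle w hs (fun h => not_finite_iff_infinite.2 ‹_› N.finite_quotient_of_finiteIndex)
    ht (z - z') (hz.sub (cyc_of_bd h3)) fun i x =>
      QuotientAddGroup.eq_iff_sub_mem.1
        (show π (z i x) = π (z' i x) from (congrArg (fun f => f i x) h4).symm)
  simpa using AddSubgroup.add_mem _ h5 h3

theorem ext_of_der {s : ι → Γ} (j : K →* Γ) (hj : Function.Injective j) {t : β → K}
    (ht : Subgroup.closure (Set.range t) = ⊤) {M M' : Type} [AddCommGroup M] [Module ℤ[K] M]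
    [AddCommGroup M'] [Module ℤ[K] M'] (μ : M →ₗ[ℤ[K]] M') (hμ : Function.Injective μ)
    (v : Γ → ι → ℤ[Γ]) (hv : ∀ g, dS s (v g) = o g - 1)
    (f : LinearMap.ker (dS s) →ₗ[ℤ[Γ]] Co j M) (F : (ι → ℤ[Γ]) →ₗ[ℤ[Γ]] Co j M')
    (hF : ∀ (y : LinearMap.ker (dS s)) x, F y x = μ (f y x)) (h0 : ∀ b, F (v (j (t b))) 1 = 0) :
    Extends f := by
  obtain ⟨σ⟩ := exists_sec hj
  let G := Co.map j (LinearMap.range μ).mkQ ∘ₗ F
  have hG : ∀ y, dS s y = 0 → G y = 0 := fun y hy => Co.ext fun x =>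
    (Submodule.Quotient.mk_eq_zero _).2 ⟨_, (hF ⟨y, hy⟩ x).symm⟩
  have hG1 : ∀ g h, G (v (g * h)) = G (v g) + o g • G (v h) := fun g h => by
    have := hG (v (g * h) - (v g + o g • v h)) (by
      rw [map_sub, map_add, map_smul, hv, hv, hv, smul_eq_mul, mul_sub, o_mul]; simp)
    rwa [map_sub, map_add, map_smul, sub_eq_zero] at this
  have hG2 : ∀ k x, G (v (j k * x)) 1 = G (v (j k)) 1 + o k • G (v x) 1 := fun k x => by
    rw [hG1, Co.add_apply, ← jr_o, Co.jr_smul]
  have hG3 : ∀ k, G (v (j k)) 1 = 0 := fun k => by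
    have h1 : G (v (j 1)) 1 = 0 := by rw [hG _ (by rw [hv, map_one, o_one, sub_self])]; rfl
    induction (ht ▸ Subgroup.mem_top k : k ∈ Subgroup.closure (Set.range t))
      using Subgroup.closure_induction with
    | mem k hk =>
      obtain ⟨b, rfl⟩ := hk
      exact (congrArg (LinearMap.range μ).mkQ (h0 b)).trans (map_zero _)
    | one => exact h1
    | mul a b _ _ ha hb => rw [map_mul, hG2, ha, hb, smul_zero, add_zero]
    | inv a _ ha =>
      have := hG2 a⁻¹ (j a)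
      rwa [← map_mul, inv_mul_cancel, h1, ha, smul_zero, add_zero, eq_comm] at this
  obtain ⟨u, hu⟩ := σ.lift (LinearMap.range μ).mkQ (Co.mk (fun x => G (v x) 1) fun k x => by
    rw [hG2, hG3, zero_add]) fun x => Submodule.mkQ_surjective _ _
  have h1 : G = Co.map j (LinearMap.range μ).mkQ ∘ₗ LinearMap.toSpanSingleton _ _ u ∘ₗ dS s :=
    lin_ext fun i => Co.ext fun x => by
      have := hG (v (x * s i) - v x - o x • Pi.single i 1) (by
        rw [map_sub, map_sub, map_smul, hv, hv, dS_single, one_mul, smul_eq_mul, mul_sub, o_mul]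
        simp)
      rw [map_sub, map_sub, map_smul, sub_eq_zero] at this
      have h2 := congrArg (fun f => f 1) this
      simp only [Co.o_smul, one_mul] at h2
      rw [← h2]
      change _ = Co.map j _ (dS s (Pi.single i 1) • u) x
      rw [dS_single, one_mul, map_smul, hu, sub_smul, one_smul, Co.sub_apply, Co.sub_apply,
        Co.o_smul]
      rfl
  obtain ⟨F', hF'⟩ := σ.liftLin μ (F - LinearMap.toSpanSingleton _ _ u ∘ₗ dS s) fun y x =>
    (Submodule.Quotient.eq _).1 (congrArg (fun f => f y x) h1)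
  refine ⟨F', fun y => Co.ext fun x => hμ ?_⟩
  rw [hF', LinearMap.sub_apply, LinearMap.comp_apply, y.2, map_zero, sub_zero, hF]

/-- the group algebra over the field with two elements -/
def FK (K : Type) : Type := K →₀ ZMod 2

instance : AddCommGroup (FK K) := inferInstanceAs (AddCommGroup (K →₀ ZMod 2))

/-- the coefficients -/
def FK.c : FK K ≃+ (K →₀ ZMod 2) := AddEquiv.refl _

variable (K) in
/-- left translation -/
def fkAct : K →* AddMonoid.End (FK K) where
  toFun g := Finsupp.mapDomain.addMonoidHom (g * ·)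
  map_one' := AddMonoidHom.ext fun m => by
    simp only [one_mul]
    exact Finsupp.mapDomain_id
  map_mul' g h := AddMonoidHom.ext fun m => by
    simp only [mul_assoc]
    exact Finsupp.mapDomain_comp (f := (h * ·)) (g := (g * ·))

instance : Module ℤ[K] (FK K) :=
  Module.compHom (FK K) (MonoidAlgebra.lift ℤ (AddMonoid.End (FK K)) K (fkAct K)).toRingHom

theorem FK.c_smul (g : K) (m : FK K) (x : K) : FK.c (o g • m) x = FK.c m (g⁻¹ * x) := by
  have : FK.c (o g • m) = Finsupp.mapDomain (g * ·) (FK.c m) := by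
    change (MonoidAlgebra.lift ℤ (AddMonoid.End (FK K)) K (fkAct K) (MonoidAlgebra.of ℤ K g)) m = _
    rw [MonoidAlgebra.lift_of]
    rfl
  rw [this, ← Finsupp.mapDomain_apply (mul_right_injective g) _ (g⁻¹ * x), mul_inv_cancel_left]

theorem FK.ext {m m' : FK K} (h : ∀ x, FK.c m x = FK.c m' x) : m = m' := Finsupp.ext h

theorem FK.two (m : FK K) : m + m = 0 := FK.ext fun x => by
  rw [map_add, map_zero, Finsupp.add_apply]
  exact CharTwo.add_self_eq_zero _

theorem mapDomain_mul_right (a : K) (m : K →₀ ZMod 2) (x : K) :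
    Finsupp.mapDomain (· * a) m x = m (x * a⁻¹) := by
  rw [← Finsupp.mapDomain_apply (mul_left_injective a) _ (x * a⁻¹), inv_mul_cancel_right]

/-- right translation -/
def FK.r (a : K) : FK K →ₗ[ℤ[K]] FK K :=
  mkLin (FK.c.symm.toAddMonoidHom.comp ((Finsupp.mapDomain.addMonoidHom (· * a)).comp
    FK.c.toAddMonoidHom)) fun g m => FK.ext fun x => by
      rw [FK.c_smul]
      refine (mapDomain_mul_right a _ x).trans (Eq.trans ?_ (mapDomain_mul_right a _ _).symm)
      rw [mul_assoc]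
      exact FK.c_smul _ _ _

theorem FK.c_r (a : K) (m : FK K) (x : K) : FK.c (FK.r a m) x = FK.c m (x * a⁻¹) :=
  mapDomain_mul_right a _ x

/-- basis elements -/
def FK.e (x : K) : FK K := FK.c.symm (Finsupp.single x 1)

theorem FK.smul_e (g x : K) : o g • FK.e x = FK.e (g * x) := FK.ext fun y => by
  classical
  simp [FK.c_smul, FK.e, Finsupp.single_apply, eq_inv_mul_iff_mul_eq]

theorem FK.r_e (g x : K) : FK.r g (FK.e x) = FK.e (x * g) := FK.ext fun y => by
  classical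
  simp [FK.c_r, FK.e, Finsupp.single_apply, eq_mul_inv_iff_mul_eq]

theorem FK.mem (J : AddSubgroup (FK K)) (h : ∀ x, FK.e x ∈ J) (m : FK K) : m ∈ J := by
  obtain ⟨m, rfl⟩ := FK.c.symm.surjective m
  induction m using Finsupp.induction_linear with
  | zero => exact J.zero_mem
  | add a b ha hb => exact J.add_mem ha hb
  | single x c =>
    have : ∀ c : ZMod 2, c = 0 ∨ c = 1 := by decide
    rcases this c with rfl | rfl
    · rw [Finsupp.single_zero, map_zero]
      exact J.zero_mem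
    · exact h x

/-- the sum of the coefficients -/
def FK.aug0 : FK K →+ ZMod 2 :=
  (Finsupp.linearCombination (ZMod 2) fun _ => (1 : ZMod 2)).toAddMonoidHom.comp FK.c.toAddMonoidHom

theorem FK.aug0_e (x : K) : FK.aug0 (FK.e x) = 1 := by simp [FK.aug0, FK.e]

/-- the augmentation -/
def FK.aug : FK K →ₗ[ℤ[K]] Triv K (ZMod 2) :=
  mkLin FK.aug0 fun g m => by
    rw [Triv.o_smul]
    refine FK.mem (AddMonoidHom.eqLocus (FK.aug0.comp (DistribSMul.toAddMonoidHom _ (o g))) FK.aug0)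
      (fun x => ?_) m
    change FK.aug0 (o g • FK.e x) = FK.aug0 (FK.e x)
    rw [FK.smul_e, FK.aug0_e, FK.aug0_e]

theorem FK.aug_surj : Function.Surjective (FK.aug (K := K)) := fun c => by
  have : ∀ c : ZMod 2, c = 0 ∨ c = 1 := by decide
  rcases this c with h | h
  · exact ⟨0, (map_zero _).trans h.symm⟩
  · exact ⟨FK.e 1, (FK.aug0_e 1).trans h.symm⟩

end

end Pool.Agent.P.MP_5ee5b4_al
end

-- part Pool.Agent.P.MP_5ee5b4_al.FGcase2
section

/-! Finitely generated normal subgroups of infinite index without free subgroups. -/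

namespace Pool.Agent.P.MP_5ee5b4_al

open Pool.Agent.P.MP_6e40fc_al
open scoped MonoidAlgebra

noncomputable section

set_option linter.unusedSectionVars false

variable {Γ K : Type} [Group Γ] [Group K] {ι β : Type} [Fintype ι] [Fintype β] [DecidableEq ι]
  {w : Γ →* ℤˣ} {s : ι → Γ} {N : Subgroup Γ} [N.Normal]

theorem z2_smul (u : ℤˣ) (m : ZMod 2) : (u : ℤ) • m = m :=
  unit_smul CharTwo.add_self_eq_zero u m

theorem pair_bd (φ : ι → (Γ ⧸ N) →₀ ZMod 2) (F : Γ → ZMod 2)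
    (hφ : ∀ i x, til2 w (φ i) x = F (x * s i) - F x) {z : ι → Co N.subtype (Triv N (ZMod 2))}
    (hz : z ∈ Bd _ w s) : ∑ i, pair 2 (z i) (φ i) = 0 := by
  induction hz using AddSubgroup.closure_induction with
  | mem z hz =>
    obtain ⟨a, v, hv, rfl⟩ := hz
    have : ∑ i, Tw 2 w N (v i) (φ i) = 0 := til2_inj w fun x => by
      have := extAdd_dS (fun y => F (x * y)) s v
      rw [hv, map_zero] at this
      simp only [til2_sum, til2_Tw, hφ, mul_assoc, ← this]
      simp [til2]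
    simp only [ract, pair_conj, LinearMap.comp_apply, ← map_sum, this, map_zero]
  | zero => simp [pair_zero]
  | add x y _ _ hx hy =>
    simp only [Pi.add_apply, pair_add, LinearMap.add_apply, Finset.sum_add_distrib, hx, hy, add_zero]
  | neg x _ hx =>
    have : ∀ i, pair 2 (-x i) = -pair 2 (x i) := fun i =>
      map_neg (AddMonoidHom.mk' (pair 2) pair_add) (x i)
    simp only [Pi.neg_apply, this, LinearMap.neg_apply, Finset.sum_neg_distrib, hx, neg_zero]

theorem exists_cycles (hs : Subgroup.closure (Set.range s) = ⊤) (E : ℕ → Set (Γ ⧸ N))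
    (hE : ∀ j, AI (QuotientGroup.mk' N '' Set.range s) (E j) ∧ (E j).Infinite)
    (hE' : ∀ i j x, x ∈ E i → x ∈ E j → i = j) :
    ∃ z : (ℕ → ZMod 2) → ι → Co N.subtype (Triv N (ZMod 2)), (∀ a, Cyc w s (z a)) ∧
      ∀ a a', z a - z a' ∈ Bd _ w s → a = a' := by
  classical
  let F : ℕ → Γ → ZMod 2 := fun k x => if (x : Γ ⧸ N) ∈ E k then 1 else 0
  choose φ hφ using fun k i => exists_til2 (K := N) w (fun x => F k (x * s i) - F k x)
    (fun n x => by simp only [F, z2_smul, mul_assoc, mk_mul_left n.2])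
    ((((hE k).1 _ ⟨_, ⟨i, rfl⟩, rfl⟩).preimage (f := fun q => q⁻¹) inv_injective.injOn).subset
      fun q hq h => hq (by
        simp only [F, QuotientGroup.mk_mul, QuotientGroup.mk_inv, QuotientGroup.out_eq']
        rw [if_congr h rfl rfl]
        exact sub_self _))
  let δ : ((Γ ⧸ N) →₀ ZMod 2) →ₗ[ZMod 2] ι → (Γ ⧸ N) →₀ ZMod 2 :=
    LinearMap.pi fun i => Tw 2 w N (o (s i) - 1)
  obtain ⟨g, hg⟩ := LinearMap.exists_leftInverse_of_injective
    ((LinearMap.range δ).mkQ ∘ₗ Finsupp.linearCombination (ZMod 2) φ) (by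
      refine LinearMap.ker_eq_bot'.2 fun c hc => ?_
      obtain ⟨v, hv⟩ := (Submodule.Quotient.mk_eq_zero _).1 hc
      have h1 := const_of_edges' hs (fun x => ∑ k ∈ c.support, c k * F k x - til2 w v x) fun x i => by
        have := congrArg (fun ψ => til2 w (ψ i) x) hv
        simp only [δ, LinearMap.pi_apply, til2_Tw] at this
        simp only [map_sub, ← o_one (G := Γ), extAdd_o, mul_one,
          Finsupp.linearCombination_apply, Finsupp.sum, Finset.sum_apply, til2_sum, Pi.smul_apply,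
          til2_smul, hφ, mul_sub, Finset.sum_sub_distrib] at this
        linear_combination -this
      have h2 : ∀ k, ∃ x : Γ, ∑ k ∈ c.support, c k * F k x - til2 w v x = c k := fun k => by
        obtain ⟨q, hq, hq'⟩ := ((hE k).2.sdiff (v.support.finite_toSet.preimage (f := fun q => q⁻¹)
          inv_injective.injOn)).nonempty
        obtain ⟨x, rfl⟩ := QuotientGroup.mk_surjective q
        refine ⟨x, ?_⟩
        rw [til2, show v ((x⁻¹ : Γ) : Γ ⧸ N) = 0 from Finsupp.notMem_support_iff.1 hq', smul_zero,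
          sub_zero, Finset.sum_eq_single k]
        · simp [F, hq]
        · exact fun j _ hj => by simp only [F, if_neg fun h => hj (hE' _ _ _ h hq), mul_zero]
        · exact fun h => by rw [Finsupp.notMem_support_iff.1 h, zero_mul]
      obtain ⟨j, hj⟩ := c.support.exists_notMem
      refine Finsupp.ext fun k => ?_
      obtain ⟨x, hx⟩ := h2 k
      obtain ⟨y, hy⟩ := h2 j
      rw [← hx, h1 x y, hy, Finsupp.notMem_support_iff.1 hj]
      rfl)
  let ζ : (ℕ → ZMod 2) → (ι → (Γ ⧸ N) →₀ ZMod 2) →ₗ[ZMod 2] ZMod 2 := fun a =>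
    Finsupp.linearCombination (ZMod 2) a ∘ₗ g ∘ₗ (LinearMap.range δ).mkQ
  let z : (ℕ → ZMod 2) → ι → Co N.subtype (Triv N (ZMod 2)) := fun a i =>
    Co.mk (fun x => ζ a (Pi.single i (Finsupp.single (x⁻¹ : Γ) 1))) fun k x =>
      Eq.trans (by rw [mul_inv_rev, Subgroup.coe_subtype,
        QuotientGroup.mk_mul_of_mem _ (N.inv_mem k.2)]) (Triv.o_smul _ _).symm
  have hz : ∀ a ψ, ∑ i, pair 2 (z a i) (ψ i) = ζ a ψ := fun a ψ => by
    have hu : ∀ i, pair 2 (z a i) = ζ a ∘ₗ LinearMap.single (ZMod 2) _ i := fun i =>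
      pair_ext fun x => by rw [pair_single, one_smul]; rfl
    simp only [hu, LinearMap.comp_apply, ← map_sum, LinearMap.single_apply,
      Finset.univ_sum_single]
  refine ⟨z, fun a => Co.ext fun x => ?_, fun a a' h => funext fun k => ?_⟩
  · have h1 := pair_single (p := 2) (∑ i, conj w (o (s i) - 1) • z a i) x 1
    rw [one_smul, pair_sum, LinearMap.sum_apply] at h1
    simp only [pair_conj, LinearMap.comp_apply, hz] at h1
    refine h1.symm.trans ?_
    have h2 : (LinearMap.range δ).mkQ (δ (Finsupp.single (x⁻¹ : Γ) 1)) = 0 :=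
      (Submodule.Quotient.mk_eq_zero _).2 ⟨_, rfl⟩
    change Finsupp.linearCombination (ZMod 2) a (g ((LinearMap.range δ).mkQ (δ _))) = _
    rw [h2, map_zero, map_zero]
    rfl
  · have h1 := pair_bd (φ k) (F k) (hφ k) h
    have h2 : ∀ i, pair 2 (z a i - z a' i) = pair 2 (z a i) - pair 2 (z a' i) := fun i =>
      map_sub (AddMonoidHom.mk' (pair 2) pair_add) _ _
    have h3 : ∀ a, ζ a (φ k) = a k := fun a => by
      have := LinearMap.congr_fun hg (Finsupp.single k 1)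
      simp only [LinearMap.comp_apply, Finsupp.linearCombination_single, one_smul,
        LinearMap.id_apply] at this
      simp only [ζ, LinearMap.comp_apply, this, Finsupp.linearCombination_single, one_smul]
    simp only [Pi.sub_apply, h2, LinearMap.sub_apply, Finset.sum_sub_distrib, hz, h3] at h1
    exact sub_eq_zero.1 h1

theorem lift_cycle (hs : Subgroup.closure (Set.range s) = ⊤) (j : K →* Γ)
    (hj : Function.Injective j) (hK : ¬ j.range.FiniteIndex) {M M' : Type} [AddCommGroup M]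
    [Module ℤ[K] M] [AddCommGroup M'] [Module ℤ[K] M'] (π : M →ₗ[ℤ[K]] M')
    (hπ : Function.Surjective π) (z : ι → Co j M') (hz : Cyc w s z) :
    ∃ z' : ι → Co j M, Cyc w s z' ∧ Co.map j π ∘ z' = z := by
  obtain ⟨σ⟩ := exists_sec hj
  obtain ⟨T, hT, hT'⟩ := exists_symm_gen ((Group.fg_iff).2 ⟨_, hs, Set.finite_range s⟩)
  choose z0 hz0 using fun i => σ.lift π (z i) fun x => hπ _
  choose v hv using exists_dS hs
  have h1 : Co.map j π (cact (tc w (πc s)) z0 ()) = 0 := by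
    refine Eq.trans ?_ (congrFun ((cyc_iff w s z).1 hz) ())
    rw [← (funext hz0 : Co.map j π ∘ z0 = z), cact_map]
    rfl
  obtain ⟨ω, hω⟩ := σ.lift (LinearMap.ker π).subtype (cact (tc w (πc s)) z0 ()) fun x =>
    ⟨⟨_, congrArg (fun f => f x) h1⟩, rfl⟩
  obtain ⟨Ω, hΩ⟩ := coinv_vanish j hK T hT hT' w ω
  refine ⟨z0 - ∑ a ∈ T, ract w (Co.map j (LinearMap.ker π).subtype (Ω a)) (v a),
    (cyc_iff w s _).2 (funext fun ⟨⟩ => ?_), funext fun i => ?_⟩
  · rw [map_sub, map_sum, Pi.sub_apply, Finset.sum_apply, ← hω, hΩ, map_sum]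
    simp only [bd_ract, hv, map_sub, conj_o, conj_one, map_smul, map_inv, Int.units_inv_eq_self]
    exact sub_self _
  · rw [Function.comp_apply, Pi.sub_apply, map_sub, hz0, Finset.sum_apply, map_sum, sub_eq_self]
    refine Finset.sum_eq_zero fun a _ => ?_
    rw [ract, map_smul]
    convert smul_zero _
    exact Co.ext fun x => (Ω a x).2

theorem DD.oneEnd (D : DD w s) (hs : Subgroup.closure (Set.range s) = ⊤) [Infinite N]
    (hN : ¬ N.FiniteIndex) {t : β → N} (ht : Subgroup.closure (Set.range t) = ⊤)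
    (hvc : ¬ VC (Γ ⧸ N)) : OneEnd (QuotientGroup.mk' N '' Set.range s) := by
  classical
  by_contra hcon
  obtain ⟨E, hE, hE'⟩ := exists_disj_family (closure_image_mk hs) ((Set.finite_range s).image _)
    hcon hvc
  obtain ⟨z, hz, hz'⟩ := exists_cycles (w := w) hs E hE hE'
  choose z' h1 h2 using fun a => lift_cycle hs N.subtype Subtype.val_injective
    (by rwa [Subgroup.range_subtype]) FK.aug FK.aug_surj (z a) (hz a)
  choose f hf using fun a => D.sur _ (z' a) (h1 a)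
  let μ : FK N →ₗ[ℤ[N]] β → FK N := LinearMap.pi fun b => FK.r (t b) - LinearMap.id
  have hμ : Function.Injective μ := (injective_iff_map_eq_zero _).2 fun m hm => by
    obtain ⟨y, hy⟩ := (FK.c m).support.exists_notMem
    refine FK.ext fun x => (const_of_edges' ht (fun x => FK.c m x) (fun x b => ?_) x y).trans
      (Finsupp.notMem_support_iff.1 hy)
    have := congrArg (fun m => FK.c m (x * t b)) (sub_eq_zero.1 (congrFun hm b))
    simp only [FK.c_r, mul_inv_cancel_right] at this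
    exact this.symm
  choose F hF using fun a => (D.ext _ (Co.map N.subtype μ ∘ₗ f a)).1 (push_cycle w hs hN ht _
    (D.cyc _ _) fun i x => by
      rw [show (Co.map N.subtype μ ∘ₗ f a) ∘ D.ρ = Co.map N.subtype μ ∘ (f a ∘ D.ρ) from rfl,
        cact_map]
      change μ (cact D.X (f a ∘ D.ρ) i x) ∈ _
      refine AddSubgroup.mem_comap.1 (FK.mem (AddSubgroup.comap μ.toAddMonoidHom _) (fun y => ?_) _)
      rw [AddSubgroup.mem_comap, LinearMap.toAddMonoidHom_coe]
      rw [← Finset.univ_sum_single (μ _)]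
      refine AddSubgroup.sum_mem _ fun b _ => AddSubgroup.subset_closure
        ⟨y * t b * y⁻¹, Pi.single b (FK.e y), ?_⟩
      rw [unit_smul fun m => funext fun b => FK.two (m b), ← Pi.single_smul, FK.smul_e,
        ← Pi.single_sub, inv_mul_cancel_right, ← FK.r_e]
      rfl)
  choose v hv using exists_dS hs
  have : Countable N := by
    refine Function.Surjective.countable (f := FreeGroup.lift t) ?_
    rwa [← MonoidHom.range_eq_top, FreeGroup.range_lift_eq_closure]
  have : Countable (FK N) := inferInstanceAs (Countable (N →₀ ZMod 2))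
  obtain ⟨e, he⟩ := exists_injective_nat (β → β → FK N)
  have hinj : Function.Injective fun a => e fun b => F a (v (t b)) 1 := fun a a' h => hz' a a' (by
    have h3 := (D.ext _ (f a - f a')).2 (ext_of_der N.subtype Subtype.val_injective ht μ hμ v hv
      (f a - f a') (F a - F a') (fun y x => by
        rw [LinearMap.sub_apply, LinearMap.sub_apply, hF, hF, Co.sub_apply, Co.sub_apply, map_sub]
        rfl) fun b => sub_eq_zero.2 (congrFun (he h) b))
    rw [show (f a - f a') ∘ D.ρ = f a ∘ D.ρ - f a' ∘ D.ρ from rfl, map_sub] at h3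
    have h4 := bd_map (AddSubgroup.add_mem _ (AddSubgroup.sub_mem _ h3 (hf a)) (hf a'))
      (Co.map N.subtype FK.aug)
    convert h4 using 1
    rw [← h2, ← h2]
    funext i
    simp)
  obtain ⟨g, hg⟩ := hinj.hasLeftInverse
  obtain ⟨n, hn⟩ := hg.surjective fun n => g n n + 1
  simpa using congrFun hn n

theorem oe_of_fg [Infinite (Γ ⧸ N)] (hs : Subgroup.closure (Set.range s) = ⊤) {t : β → N}
    (ht : Subgroup.closure (Set.range t) = ⊤) (h : OneEnd (QuotientGroup.mk' N '' Set.range s)) :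
    OE N (Set.range s) := by
  intro B hB
  obtain ⟨C, hC0, hC, hC3⟩ := exists_conn_finite hs (Set.finite_range fun b => (t b : Γ))
  let B1 := Set.image2 (fun q (c : Γ) => q * (c : Γ ⧸ N)⁻¹) B C
  have h1 : ∀ x : Γ, (x : Γ ⧸ N) ∉ B1 → ∀ n : N, Rel (Set.range s) {z | (z : Γ ⧸ N) ∈ B} x (x * n) :=
    fun x hx n => (const_of_edges ht
      (fun n : N => Rel (Set.range s) {z | (z : Γ ⧸ N) ∈ B} x (x * n)) (by
        rintro n _ ⟨b, rfl⟩
        have := hC.rel (U := {z : Γ | (z : Γ ⧸ N) ∈ B}) (x * n) (fun c hc h => hx ⟨_, h, c, hc, by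
          simp⟩) (hC3 ⟨b, rfl⟩)
        rw [mul_assoc] at this
        exact ⟨fun h => h.trans this, fun h => h.trans this.symm⟩) n).2
      (by simpa using Rel.refl _ _ x)
  have h2 : ∀ x y : Γ, (x : Γ ⧸ N) ∉ B1 → (x : Γ ⧸ N) = y →
      Rel (Set.range s) {z | (z : Γ ⧸ N) ∈ B} x y := fun x y hx e => by
    simpa using h1 x hx ⟨_, QuotientGroup.eq.1 e⟩
  have h3 : B ⊆ B1 := fun q hq => ⟨q, hq, 1, hC.1, by simp⟩
  obtain ⟨B', hB', h4⟩ := h.rel (closure_image_mk hs) ((Set.finite_range s).image _)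
    (B := B1) (hB.image2 _ hC0)
  refine ⟨B' ∪ B1, hB'.union (hB.image2 _ hC0), fun x y hx hy => ?_⟩
  rw [Set.mem_union, not_or] at hx hy
  obtain ⟨y', h5, h6⟩ := (h4 _ _ hx.1 hy.1 (fun q => ∃ y : Γ, (y : Γ ⧸ N) = q ∧
    Rel (Set.range s) {z | (z : Γ ⧸ N) ∈ B} x y) (by
      rintro q _ ⟨a, ha, rfl⟩ h5 h6
      obtain ⟨u, rfl⟩ := QuotientGroup.mk_surjective q
      have h7 : Rel (Set.range s) {z | (z : Γ ⧸ N) ∈ B} u (u * a) :=
        Rel.edge ha (fun h => h5 (h3 h)) fun h => h6 (h3 h)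
      exact ⟨fun ⟨y, e, h8⟩ => ⟨u * a, rfl, (h8.trans (h2 u y h5 e.symm).symm).trans h7⟩,
        fun ⟨y, e, h8⟩ => ⟨u, rfl, (h8.trans (h2 (u * a) y h6 e.symm).symm).trans h7.symm⟩⟩)).1
    ⟨x, rfl, Rel.refl _ _ _⟩
  exact h6.trans (h2 y y' hy.2 h5.symm).symm

end

end Pool.Agent.P.MP_5ee5b4_al
end

-- part Pool.Agent.P.MP_5ee5b4_al.FGcase3
section

/-! Finitely generated normal subgroups of infinite index without free subgroups, conclusion. -/

namespace Pool.Agent.P.MP_5ee5b4_al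

open Pool.Agent.P.MP_6e40fc_al
open scoped MonoidAlgebra

noncomputable section

set_option linter.unusedSectionVars false

variable {Γ K : Type} [Group Γ] [Group K] {ι β : Type} [Fintype ι] [Fintype β] [DecidableEq ι]
  {w : Γ →* ℤˣ} {s : ι → Γ} {N : Subgroup Γ} [N.Normal]

theorem vcyc_two {t : β → K} (ht : Subgroup.closure (Set.range t) = ⊤) [Infinite K]
    (hN : NF (⊤ : Subgroup K)) (D : K → β → FK K) (h1 : ∀ g h, D (g * h) = D g + o g • D h)
    (h3 : ∀ g, ∑ i, (FK.r (t i) (D g i) - D g i) = FK.e g - FK.e 1) : VC K := by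
  classical
  let F : β → K → ZMod 2 := fun i x => FK.c (D x i) 1
  have hF : ∀ i x g, F i (x * g) = F i x + FK.c (D g i) x⁻¹ := fun i x g => by
    simp only [F, h1, Pi.add_apply, Pi.smul_apply, map_add, Finsupp.add_apply, FK.c_smul, mul_one]
  by_contra hcon
  have hfin : ∀ i, ∃ c, (Function.support fun x => F i x - c).Finite := by
    intro i
    by_contra hc
    refine hcon (ends ht (Set.finite_range t) (Y := {x | F i x = 1}) (fun a _ => ?_)
      (fun h => hc ⟨0, ?_⟩) (fun h => hc ⟨1, ?_⟩) hN)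
    · refine (((FK.c (D a i)).support.finite_toSet).preimage (f := fun x => x⁻¹)
        inv_injective.injOn).subset fun x hx => ?_
      by_contra hx'
      simp only [Set.mem_preimage, Finset.mem_coe, Finsupp.mem_support_iff, not_not] at hx'
      exact hx (by simp [hF, hx'])
    · refine h.subset fun x hx => ?_
      have : ∀ a : ZMod 2, a - 0 ≠ 0 → a = 1 := by decide
      exact this _ hx
    · exact h.subset fun x hx h' => hx (sub_eq_zero.2 h')
  choose c hc using hfin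
  let Φ : K → ZMod 2 := fun x => ∑ i, ((F i (t i * x) - c i) - (F i x - c i))
  have hΦ : ∀ g, g ≠ 1 → Φ g = Φ 1 - 1 := fun g hg => by
    have e := congrArg (fun r => FK.c r 1) (h3 g)
    simp only [map_sum, map_sub, Finsupp.finsetSum_apply, Finsupp.sub_apply, FK.c_r, one_mul, FK.e,
      AddEquiv.apply_symm_apply, Finsupp.single_eq_same, Finsupp.single_eq_of_ne' hg] at e
    have e3 : ∀ i, F i g = F i 1 + FK.c (D g i) 1 := fun i => by
      simpa using hF i 1 g
    simp only [Φ, mul_one, hF _ _ g, e3]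
    rw [eq_sub_iff_add_eq, ← sub_eq_zero, add_sub_right_comm, ← Finset.sum_sub_distrib,
      add_eq_zero_iff_eq_neg, ← zero_sub, ← e]
    exact Finset.sum_congr rfl fun i _ => by ring
  have hc' : ∀ i, (Function.support fun x => F i (t i * x) - c i).Finite := fun i =>
    (hc i).preimage (f := fun x => t i * x) (mul_right_injective _).injOn
  have hsum : ∑ᶠ x, Φ x = 0 := by
    rw [finsum_sum_comm _ _ fun i _ => ((hc' i).union (hc i)).subset
      (Function.support_sub _ _)]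
    refine Finset.sum_eq_zero fun i _ => ?_
    rw [finsum_sub_distrib (hc' i) (hc i), sub_eq_zero]
    exact finsum_comp_equiv (Equiv.mulLeft (t i)) (f := fun x => F i x - c i)
  obtain ⟨g, hg⟩ :=
    ((Set.finite_iUnion fun i => (hc' i).union (hc i)).insert 1).infinite_compl.nonempty
  simp only [Set.mem_compl_iff, Set.mem_insert_iff, Set.mem_iUnion, Set.mem_union, not_or,
    not_exists, Function.mem_support, not_not] at hg
  have h4 : Φ g = 0 := Finset.sum_eq_zero fun i _ => by rw [(hg.2 i).1, (hg.2 i).2, sub_zero]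
  rw [hΦ g hg.1] at h4
  rw [finsum_eq_single Φ 1 fun x hx => (hΦ x hx).trans h4] at hsum
  rw [hsum] at h4
  exact absurd h4 (by decide)

theorem NF.sub (h : NF N) : NF (⊤ : Subgroup N) :=
  (h.comap N.subtype Subtype.val_injective).mono fun x _ => x.2

theorem DD.vc_of_fg (D : DD w s) (hs : Subgroup.closure (Set.range s) = ⊤)
    (hfg : (LinearMap.ker (dS s)).FG) [Infinite N] [Infinite (Γ ⧸ N)] (hN : N.FG) (hNF : NF N)
    (hvc : ¬ VC (Γ ⧸ N)) : VC N := by
  classical
  obtain ⟨T, ht, -⟩ := exists_family ((Group.fg_iff_subgroup_fg _).2 hN) 1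
  have hOE := oe_of_fg hs ht (D.oneEnd hs
    (fun h => not_finite_iff_infinite.2 ‹_› N.finite_quotient_of_finiteIndex) ht hvc)
  let π : (T → FK N) →ₗ[ℤ[N]] FK N := ∑ i : T, (FK.r i.1 - LinearMap.id) ∘ₗ LinearMap.proj i
  have hπ : ∀ v, π v = ∑ i : T, (FK.r i.1 (v i) - v i) := fun v => by simp [π, LinearMap.sum_apply]
  obtain ⟨E, h1, h2⟩ := derLift_of_ext hs N.subtype Subtype.val_injective π
    (fun g => FK.e g - FK.e 1) (fun g => by
      obtain ⟨v, hv⟩ := exists_dS ht g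
      have key : ∀ v : T → ℤ[N], π (fun i => v i • FK.e 1) = dS Subtype.val v • FK.e 1 := fun v => by
        simp only [hπ, dS_apply, Finset.sum_smul, mul_smul, sub_smul, one_smul, map_smul, smul_sub,
          FK.r_e, FK.smul_e, mul_one, one_mul]
      exact ⟨_, by rw [key, hv, sub_smul, one_smul, FK.smul_e, mul_one]⟩)
    (fun g h => by simp [smul_sub, FK.smul_e]) fun f => (D.ext _ f).1
      (bd_of_two w hs hfg N hOE ht (fun m => Subtype.ext (funext fun i => FK.two (m.1 i))) _ (D.cyc _ f))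
  exact vcyc_two ht hNF.sub E h1 fun g => (hπ _).symm.trans (h2 g)

end

end Pool.Agent.P.MP_5ee5b4_al
end

-- part Pool.Agent.P.MP_5ee5b4_al.Bound
section

/-! Bounded elementary abelian sections. -/

namespace Pool.Agent.P.MP_5ee5b4_al

open Pool.Agent.P.MP_6e40fc_al
open scoped MonoidAlgebra

noncomputable section

variable {Γ K : Type} [Group Γ] [Group K] {p C : ℕ}

theorem DerLift.cl (h : DerLift K) : CL K := fun p _ c hc => by
  let mk : ∀ {X : Type} [AddCommGroup X], (K → X) → Co (1 : Unit →* K) (Triv Unit X) :=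
    fun f => Co.mk f fun k x => by rw [Triv.o_smul, MonoidHom.one_apply, one_mul]
  let π : Co (1 : Unit →* K) (Triv Unit (ZMod p)) →ₗ[ℤ[K]]
      Co (1 : Unit →* K) (Triv Unit (K → ZMod p)) :=
    mkLin (AddMonoidHom.mk' (fun f => mk fun x y => un _ _ (f (y * x)) - un _ _ (f x))
      fun f g => Co.ext fun x => funext fun y => add_sub_add_comm _ _ _ _)
      fun g f => Co.ext fun x => by
        rw [Co.o_smul]
        exact funext fun y => by
          change un _ _ ((o g • f) (y * x)) - un _ _ ((o g • f) x) =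
            un _ _ (f (y * (x * g))) - un _ _ (f (x * g))
          rw [Co.o_smul, Co.o_smul, mul_assoc]
  obtain ⟨D, h1, h2⟩ := h _ _ π.rangeRestrict π.surjective_rangeRestrict
    (fun g => π.rangeRestrict (mk fun x => c x g)) fun g k => by
      rw [← map_smul, ← map_add]
      refine Subtype.ext (Co.ext fun x => funext fun y => ?_)
      change c (y * x) (g * k) - c x (g * k) = c (y * x) g + un _ _ ((o g • mk fun x => c x k)
        (y * x)) - (c x g + un _ _ ((o g • mk fun x => c x k) x))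
      rw [Co.o_smul, Co.o_smul]
      change _ = c (y * x) g + c (y * x * g) k - (c x g + c (x * g) k)
      rw [hc, hc]
      ring
  refine ⟨fun g => c 1 1 - un _ _ (D g 1), fun g k => ?_⟩
  have h3 : un _ _ (D k (g * 1)) - un _ _ (D k 1) = c (g * 1) k - c 1 k :=
    congrFun (congrArg (fun f : LinearMap.range π => f.1 1) (h2 k)) g
  have h4 := hc 1 1 k
  simp only [h1, Co.add_apply, Co.o_smul, map_add, one_mul, mul_one] at h3 h4 ⊢
  linear_combination -h3 - h4

/-- elementary abelian sections have bounded order -/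
def RB (p : ℕ) (Γ : Type) [Group Γ] (C : ℕ) : Prop :=
  ∀ (K : Type) [Group K] (j : K →* Γ), Function.Injective j → ∀ (P : Type) [CommGroup P]
    [Finite P], (∀ x : P, x ^ p = 1) → ∀ φ : K →* P, Function.Surjective φ → Nat.card P ≤ C

theorem card_le_of_cyclic (hp : p ≠ 0) (P : Type) [Group P] [IsCyclic P]
    (h : ∀ x : P, x ^ p = 1) : Nat.card P ≤ p :=
  IsCyclic.exponent_eq_card (α := P) ▸ Nat.le_of_dvd (Nat.pos_of_ne_zero hp)
    (Monoid.exponent_dvd_of_forall_pow_eq_one h)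

theorem Tame.rb (hp : p ≠ 0) (h : Tame Γ) : RB p Γ p := fun K _ j hj P _ _ hP φ hφ =>
  have := Tame.cyclic (K := K) (fun L _ i hi => h L (j.comp i) (hj.comp hi)) P φ hφ
  card_le_of_cyclic hp P hP

theorem RB.card {M : Subgroup Γ} (h : RB p M C) (j : K →* Γ) (hj : Function.Injective j)
    {P : Type} [CommGroup P] [Finite P] (hP : ∀ x : P, x ^ p = 1) (φ : K →* P) {n : ℕ}
    (hn : ((M.comap j).map φ).index ≤ n) : Nat.card P ≤ C * n :=
  ((M.comap j).map φ).card_mul_index ▸ Nat.mul_le_mul (h _ (j.subgroupComap M)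
    (fun _ _ e => Subtype.ext (hj (congrArg Subtype.val e))) _ (fun x => Subtype.ext (hP x))
    _ (φ.subgroupMap_surjective _)) hn

theorem RB.of_finiteIndex {M : Subgroup Γ} [hM : M.FiniteIndex] (h : RB p M C) :
    RB p Γ (C * M.index) := fun K _ j hj P _ _ hP φ hφ => by
  have h1 : (M.comap j).index ≤ M.index := by
    rw [Subgroup.index_comap, ← Subgroup.relIndex_top_right]
    exact Subgroup.relIndex_le_of_le_right le_top (by simpa using hM.index_ne_zero)
  have : (M.comap j).FiniteIndex := ⟨by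
    rw [Subgroup.index_comap]; exact Subgroup.FiniteIndex.index_ne_zero⟩
  exact h.card j hj hP φ ((Nat.le_of_dvd (Nat.pos_of_ne_zero this.index_ne_zero)
    (Subgroup.index_map_dvd _ hφ)).trans h1)

theorem RB.of_ker (hp : p ≠ 0) (χ : Γ →* Multiplicative ℤ) (h : RB p χ.ker C) :
    RB p Γ (C * p) := fun K _ j hj P _ _ hP φ hφ => by
  have : IsCyclic (K ⧸ (χ.comp j).ker) :=
    isCyclic_of_surjective _ (QuotientGroup.quotientKerEquivRange (χ.comp j)).symm.surjective
  have : IsCyclic (P ⧸ (χ.ker.comap j).map φ) := isCyclic_of_surjective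
    (QuotientGroup.map (χ.comp j).ker ((χ.ker.comap j).map φ) φ fun x hx => ⟨x, hx, rfl⟩) fun q => by
      obtain ⟨q, rfl⟩ := QuotientGroup.mk_surjective q
      obtain ⟨q, rfl⟩ := hφ q
      exact ⟨q, rfl⟩
  exact h.card j hj hP φ (card_le_of_cyclic hp _ fun q => by
    obtain ⟨q, rfl⟩ := QuotientGroup.mk_surjective q
    rw [← QuotientGroup.mk_pow, hP, QuotientGroup.mk_one])

theorem pd2_ker (hG : IsPD 3 Γ) (hN : NF (⊤ : Subgroup Γ)) (χ0 : Γ →* Multiplicative ℤ) (ν : Γ)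
    (hχ : lv χ0 ν ≠ 0) : χ0.ker.FG ∧ PD2 χ0.ker := by
  obtain ⟨χ, t, ht, hker⟩ := exists_normalized χ0 hχ
  obtain ⟨n0, n1, n2, m0, P, P', w, hP, ex2⟩ := exists_pres2 hG
  obtain ⟨T, hT, htT⟩ := exists_family (fg_of_pres P) t
  obtain ⟨v, B, h1, h2, h3, h4⟩ := dichotomy hT (fp2 P hT) χ t ht htT ⊤ hN ν trivial fun h =>
    hχ ((lv_eq_zero _).2 (hker ▸ (lv_eq_zero _).1 h))
  obtain ⟨h5, h6, h7⟩ := ker_fg P P' w hP χ t ht v B h1 h2 h3 h4
  exact hker ▸ ⟨h5, pd2 (j := χ.ker.subtype)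
    { t := t
      ht := ht
      inj := Subtype.val_injective
      hj := fun k => (lv_eq_zero χ).2 k.2
      κ := fun x => ⟨x * t ^ (-lv χ x), (lv_eq_zero χ).1 (by simp [ht])⟩
      hκ := fun x => by simp } P P' w hP ex2 h6 h7⟩

theorem rb_of_char (hp : p ≠ 0) (hG : IsPD 3 Γ) (hN : NF (⊤ : Subgroup Γ))
    (χ : Γ →* Multiplicative ℤ) (ν : Γ) (hχ : lv χ ν ≠ 0) : ∃ C, RB p Γ C := by
  obtain ⟨h1, h2⟩ := pd2_ker hG hN χ ν hχ
  rcases finite_or_infinite χ.ker with hf | hf
  · exact ⟨_, RB.of_ker hp χ (C := Nat.card χ.ker) fun K _ j hj P _ _ _ φ hφ =>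
      have := Finite.of_injective j hj
      (Nat.card_le_card_of_surjective φ hφ).trans (Nat.card_le_card_of_injective j hj)⟩
  have h3 := (Group.fg_iff_subgroup_fg _).2 h1
  obtain ⟨ψ, x, hx⟩ := exists_hom h3 h2
  refine ⟨_, RB.of_ker hp χ (RB.of_ker hp ψ (Tame.rb hp fun K _ j hj => ?_))⟩
  have hi : Function.Injective (ψ.ker.subtype.comp j) := Subtype.val_injective.comp hj
  refine ⟨(strebel h3 h2 _ hi fun h => hx ?_).cl,
    hN.comap (χ.ker.subtype.comp (ψ.ker.subtype.comp j)) (Subtype.val_injective.comp hi)⟩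
  obtain ⟨k, hk, -, y, hy⟩ := Subgroup.exists_pow_mem_of_index_ne_zero h.index_ne_zero x
  have := (lv_eq_zero ψ).2 (hy ▸ (j y).2 : x ^ k ∈ ψ.ker)
  rw [lv_pow] at this
  exact (mul_eq_zero.1 this).resolve_left (by omega)

end

end Pool.Agent.P.MP_5ee5b4_al
end

-- part Pool.Agent.P.MP_5ee5b4_al.HD
section

/-! Induced modules and character duality. -/

namespace Pool.Agent.P.MP_5ee5b4_al

open Pool.Agent.P.MP_6e40fc_al
open scoped MonoidAlgebra

noncomputable section

set_option linter.unusedSectionVars false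

variable {Γ : Type} [Group Γ] {ι : Type} [Fintype ι] [DecidableEq ι] {K : Subgroup Γ}
  {M A : Type} [AddCommGroup M] [Module ℤ[K] M] [AddCommGroup A] [Module ℤ[K] A]

/-- the rational circle -/
abbrev TT : Type := AddCircle (1 : ℚ)

/-- an invariant subgroup is a submodule -/
def mkSub {B : Type} [AddCommGroup B] [Module ℤ[Γ] B] (S : AddSubgroup B)
    (h : ∀ (g : Γ) a, a ∈ S → o g • a ∈ S) : Submodule ℤ[Γ] B where
  toAddSubmonoid := S.toAddSubmonoid
  smul_mem' r a ha := by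
    induction r using zg_induction with
    | ho g => exact h g a ha
    | hadd r s hr hs => rw [add_smul]; exact S.add_mem hr hs
    | hsmul n r hr => rw [smul_assoc]; exact S.zsmul_mem hr n

theorem o_inv_smul {B : Type} [AddCommGroup B] [Module ℤ[Γ] B] (g : Γ) (a : B) :
    o g • o g⁻¹ • a = a := by rw [smul_smul, o_mul, mul_inv_cancel, o_one, one_smul]

/-- the support -/
def sp (f : Co K.subtype M) : Set (Γ ⧸ K) := {q | f q.out⁻¹ ≠ 0}

theorem mem_sp {f : Co K.subtype M} {x : Γ} : ((x⁻¹ : Γ) : Γ ⧸ K) ∈ sp f ↔ f x ≠ 0 := by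
  obtain ⟨k, hk⟩ := QuotientGroup.mk_out_eq_mul K x⁻¹
  have h : f ((x⁻¹ : Γ) : Γ ⧸ K).out⁻¹ = o k⁻¹ • f x := by
    rw [← f.equiv]
    exact congrArg f.val (by simpa using congrArg (·⁻¹) hk)
  refine not_congr (h ▸ ⟨fun h => ?_, fun h => by rw [h, smul_zero]⟩)
  rw [← o_inv_smul k (f x), h, smul_zero]

variable (K M) in
/-- the induced module -/
def Ind : Submodule ℤ[Γ] (Co K.subtype M) := mkSub
  { carrier := {f | (sp f).Finite}
    add_mem' := fun {f g} hf hg => (hf.union hg).subset fun q hq => by_contra fun h => hq (by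
      simp only [Set.mem_union, sp, Set.mem_ofPred_eq, not_or, not_not] at h
      rw [Co.add_apply, h.1, h.2, add_zero])
    zero_mem' := Set.finite_empty.subset fun q hq => hq rfl
    neg_mem' := fun {f} hf => hf.subset fun q hq h => hq (by rw [Co.neg_apply, h, neg_zero]) }
  fun g f hf => (Set.Finite.image (g • ·) hf).subset fun q hq =>
    ⟨((q.out⁻¹ * g)⁻¹ : Γ), mem_sp.2 (by rw [← Co.o_smul]; exact hq), by simp⟩

theorem h1_ind {s : ι → Γ} (hs : Subgroup.closure (Set.range s) = ⊤)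
    (R : Finset (ι → ℤ[Γ])) (hR : Submodule.span ℤ[Γ] (R : Set (ι → ℤ[Γ])) = LinearMap.ker (dS s))
    (N : Subgroup Γ) [N.Normal] [Infinite (Γ ⧸ N)] (hN : OE N (Set.range s)) (hK : K ≤ N)
    (φ : ι → Ind K M) (hφ : ∀ r ∈ R, ∑ i, r i • φ i = 0) :
    ∃ v, ∀ i, φ i = (o (s i) - 1) • v := by
  obtain ⟨F, -, hF⟩ := exists_integral hs (fun i x => (φ i).1 x) R hR fun r hr x => by
    have := congrArg (fun f : Ind K M => f.1 x) (hφ r hr)
    simp only [Submodule.coe_sum, Co.sum_apply, Submodule.coe_smul, Co.smul_apply] at this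
    exact this
  obtain ⟨B', hB', hrel⟩ := hN (⋃ i, (fun q : Γ ⧸ K => ((q.out⁻¹ : Γ) : Γ ⧸ N)) '' sp (φ i).1)
    (Set.finite_iUnion fun i => Set.Finite.image _ (φ i).2)
  obtain ⟨q0, hq0⟩ := hB'.infinite_compl.nonempty
  obtain ⟨x0, rfl⟩ := QuotientGroup.mk_surjective q0
  let F0 : Γ → M := fun x => F x - F x0
  have hF0 : ∀ x i, F0 (x * s i) = F0 x + (φ i).1 x := fun x i => by
    simp only [F0, hF]; abel
  have h1 : ∀ x : Γ, (x : Γ ⧸ N) ∉ B' → F0 x = 0 := fun x hx =>
    (hrel x x0 hx hq0 (fun z => F0 z = 0) (by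
      rintro z _ ⟨i, rfl⟩ hz -
      have : (φ i).1 z = 0 := by
        by_contra h
        refine hz (Set.mem_iUnion.2 ⟨i, _, mem_sp.2 h, ?_⟩)
        obtain ⟨k, hk⟩ := QuotientGroup.mk_out_eq_mul K z⁻¹
        simp only [hk, mul_inv_rev, inv_inv]
        rw [QuotientGroup.mk_mul, (QuotientGroup.eq_one_iff _).2 (N.inv_mem (hK k.2)), one_mul]
      rw [hF0, this, add_zero])).2 (sub_self _)
  have h2 : ∀ (k : K) x, F0 (k * x) = o k • F0 x := fun k x => by
    have := const_of_edges' hs (fun x => F0 (k * x) - o k • F0 x) (fun x i => by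
      have := (φ i).1.equiv k x
      simp only [← mul_assoc, hF0, smul_add, ← this, Subgroup.coe_subtype]; abel) x x0
    rwa [h1 x0 hq0, h1 (k * x0) (by
      rwa [QuotientGroup.mk_mul, (QuotientGroup.eq_one_iff _).2 (hK k.2), one_mul]), smul_zero,
      sub_zero, sub_eq_zero] at this
  choose v hv using exists_dS hs
  refine ⟨⟨Co.mk F0 h2, (hB'.biUnion fun b _ => Set.finite_iUnion fun i =>
    (Finset.finite_toSet (v (b.out⁻¹ * x0) i).coeff.support).image2 (fun y (q : Γ ⧸ K) => y • q)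
      (φ i).2).subset fun q (hq : F0 _ ≠ 0) => ?_⟩, fun i => Subtype.ext (Co.ext fun x => ?_)⟩
  · set x := q.out⁻¹ with hx
    have hb : (x : Γ ⧸ N) ∈ B' := by_contra fun h => hq (h1 x h)
    refine Set.mem_biUnion hb ?_
    by_contra hcon
    have h3 := extAdd_dS (fun y => F0 (x * y)) s (v ((x : Γ ⧸ N).out⁻¹ * x0))
    rw [hv, map_sub, ← o_one, extAdd_o, extAdd_o, mul_one, h1 _ (by
      simpa [QuotientGroup.mk_mul] using hq0), Finset.sum_eq_zero fun i _ => ?_, zero_sub,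
      neg_eq_zero] at h3
    · exact hq h3
    · rw [extAdd_congr (g := fun _ => 0) fun y hy => ?_]
      · exact extAdd_zero _
      · rw [← mul_assoc, hF0, add_sub_cancel_left]
        by_contra h
        refine hcon (Set.mem_iUnion.2 ⟨i, y, hy, _, mem_sp.2 h, ?_⟩)
        simp [hx]
  · rw [Submodule.coe_smul, sub_smul, one_smul, Co.sub_apply, Co.o_smul, Co.mk_apply, Co.mk_apply,
      hF0, add_sub_cancel_left]

open Classical in
/-- functions supported on the subgroup -/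
def sgl : M →+ Ind K M := AddMonoidHom.mk' (fun m => ⟨Co.mk
    (fun y => if h : y ∈ K then o (⟨y, h⟩ : K) • m else 0) fun k y => by
      by_cases h : y ∈ K
      · rw [dif_pos h, smul_smul, o_mul]; exact dif_pos (K.mul_mem k.2 h)
      · rw [dif_neg h, smul_zero]; exact dif_neg fun h' => h ((K.mul_mem_cancel_left k.2).1 h'),
    (Set.finite_singleton ((1 : Γ) : Γ ⧸ K)).subset fun q hq => by
      have h : q.out⁻¹ ∈ K := by_contra fun h => hq (dif_neg h)
      rw [Set.mem_singleton_iff, ← q.out_eq]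
      exact QuotientGroup.eq.2 (by simpa using h)⟩)
  fun a b => Subtype.ext (Co.ext fun y => by
    rw [Submodule.coe_add, Co.add_apply, Co.mk_apply, Co.mk_apply, Co.mk_apply]
    split_ifs
    · exact smul_add _ _ _
    · exact (add_zero _).symm)

theorem sgl_pos (m : M) (x y : Γ) (h : y * x ∈ K) :
    (o x • sgl m : Ind K M).1 y = o (⟨_, h⟩ : K) • m := by
  rw [Submodule.coe_smul, Co.o_smul]; exact dif_pos h

theorem sgl_neg (m : M) (x y : Γ) (h : y * x ∉ K) : (o x • sgl m : Ind K M).1 y = 0 := by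
  rw [Submodule.coe_smul, Co.o_smul]; exact dif_neg h

theorem sgl_smul (k : K) (x : Γ) (m : M) :
    (o x • sgl (o k • m) : Ind K M) = o (x * k) • sgl m := Subtype.ext (Co.ext fun y => by
  by_cases h : y * x ∈ K
  · rw [sgl_pos _ _ _ h, sgl_pos _ _ _ (by rw [← mul_assoc]; exact K.mul_mem h k.2), smul_smul,
      o_mul]
    exact congrArg (o · • m) (Subtype.ext (mul_assoc _ _ _))
  · rw [sgl_neg _ _ _ h, sgl_neg _ _ _ fun h' => h ((K.mul_mem_cancel_right k.2).1 (by
      rwa [mul_assoc]))])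

theorem ind_ext {T : Type} [AddCommGroup T] {L L' : Ind K M →+ T}
    (h : ∀ (x : Γ) m, L (o x • sgl m) = L' (o x • sgl m)) : L = L' := AddMonoidHom.ext fun φ => by
  have : φ = ∑ q ∈ Set.Finite.toFinset φ.2, o q.out • sgl (φ.1 q.out⁻¹) :=
    Subtype.ext (Co.ext fun y => by
      obtain ⟨k, hk⟩ := QuotientGroup.mk_out_eq_mul K y⁻¹
      have h1 : y * ((y⁻¹ : Γ) : Γ ⧸ K).out ∈ K := by simp [hk]
      have h2 : (o ((y⁻¹ : Γ) : Γ ⧸ K).out • sgl (φ.1 ((y⁻¹ : Γ) : Γ ⧸ K).out⁻¹) : Ind K M).1 y =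
          φ.1 y := by
        rw [sgl_pos _ _ _ h1, ← φ.1.equiv]
        simp
      rw [Submodule.coe_sum, Co.sum_apply, Finset.sum_eq_single ((y⁻¹ : Γ) : Γ ⧸ K), h2]
      · exact fun q _ hq => sgl_neg _ _ _ fun h => hq (by
          rw [← q.out_eq, eq_comm]
          exact QuotientGroup.eq.2 (by simpa using h))
      · intro hq
        refine h2.trans (by_contra fun h => hq ((Set.Finite.mem_toFinset _).2 (mem_sp.2 h))))
  rw [this, map_sum, map_sum]
  exact Finset.sum_congr rfl fun q _ => h _ _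

variable (w : Γ →* ℤˣ)

theorem exists_pr (β : A →+ M →+ TT) (hβ : Function.Bijective β)
    (hβ' : ∀ (k : K) a m, β (o k • a) (o k • m) = (w k : ℤ) • β a m) :
    ∃ π : Co K.subtype A →+ Ind K M →+ TT, Function.Bijective π ∧
      ∀ r f φ, π (conj w r • f) φ = π f (r • φ) := by
  classical
  have : ∀ f : Co K.subtype A, ∃ L : Ind K M →+ TT, ∀ (x : Γ) m,
      L (o x • sgl m) = (w x : ℤ) • β (f x⁻¹) m := fun f => by
    let E : Ind K M →+ (Γ ⧸ K →₀ M) := AddMonoidHom.mk'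
      (fun φ => Finsupp.ofSupportFinite (fun q => φ.1 q.out⁻¹) φ.2) fun a b => Finsupp.ext fun _ => rfl
    refine ⟨(Finsupp.liftAddHom fun q => (w q.out : ℤ) • β (f q.out⁻¹)).comp E, fun x m => ?_⟩
    obtain ⟨k, hk⟩ := QuotientGroup.mk_out_eq_mul K x
    have : E (o x • sgl m) = Finsupp.single (x : Γ ⧸ K) (o k⁻¹ • m) := Finsupp.ext fun q => by
      change (o x • sgl m : Ind K M).1 q.out⁻¹ = _
      by_cases h : (x : Γ ⧸ K) = q
      · subst h
        rw [Finsupp.single_eq_same, sgl_pos _ _ _ (by simp [hk])]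
        exact congrArg (o · • m) (Subtype.ext (by simp [hk]))
      · rw [Finsupp.single_eq_of_ne' h, sgl_neg _ _ _ fun h' => h (by
          rw [← q.out_eq, eq_comm]; exact QuotientGroup.eq.2 h')]
    rw [AddMonoidHom.comp_apply, this, Finsupp.liftAddHom_apply_single, hk, mul_inv_rev,
      ← Subgroup.coe_inv, show f (((k⁻¹ : K) : Γ) * x⁻¹) = _ from f.equiv k⁻¹ x⁻¹,
      AddMonoidHom.smul_apply, hβ', smul_smul, ← Units.val_mul, ← map_mul]
    simp
  choose L hL using this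
  let π : Co K.subtype A →+ Ind K M →+ TT := AddMonoidHom.mk' L fun f g => ind_ext fun x m => by
    simp [hL]
  refine ⟨π, ⟨fun f g h => Co.ext fun x => hβ.1 (AddMonoidHom.ext fun m => ?_), fun η => ?_⟩,
    fun r f φ => ?_⟩
  · have := congrArg ((w x⁻¹ : ℤ) • ·) ((hL f x⁻¹ m).symm.trans
      ((DFunLike.congr_fun h _).trans (hL g x⁻¹ m)))
    simpa only [ww, inv_inv] using this
  · choose a ha using fun x : Γ => hβ.2 ((w x : ℤ) • η.comp
      ((DistribSMul.toAddMonoidHom _ (o x⁻¹)).comp sgl))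
    have ha' : ∀ x m, β (a x) m = (w x : ℤ) • η (o x⁻¹ • sgl m) := fun x m => by rw [ha]; rfl
    refine ⟨Co.mk a fun k x => hβ.1 (AddMonoidHom.ext fun m => ?_), ind_ext fun x m => ?_⟩
    · rw [← o_inv_smul k m, hβ', ha', ha', sgl_smul, map_mul, Units.val_mul, mul_smul]
      simp
    · refine (hL _ x m).trans ?_
      rw [Co.mk_apply, ha', map_inv, Int.units_inv_eq_self, ww, inv_inv]
  · induction r using zg_induction with
    | ho g =>
      refine DFunLike.congr_fun (ind_ext (L := π (conj w (o g) • f))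
        (L' := (π f).comp (DistribSMul.toAddMonoidHom _ (o g))) fun x m => ?_) φ
      change L _ _ = L f (o g • o x • sgl m)
      rw [smul_smul, o_mul, hL, hL, conj_o, smul_assoc, Co.zsmul_apply, Co.o_smul, map_zsmul,
        AddMonoidHom.smul_apply, map_mul, Units.val_mul, mul_inv_rev, smul_smul, mul_comm]
    | hadd a b ha hb => simp only [map_add, add_smul, AddMonoidHom.add_apply, ha, hb]
    | hsmul n a ha => simp only [map_zsmul, smul_assoc, AddMonoidHom.smul_apply, ha]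

theorem dualize2 {A B : Type} [AddCommGroup A] [Module ℤ[Γ] A] [AddCommGroup B] [Module ℤ[Γ] B]
    (π : A →+ B →+ TT) (hπ : Function.Bijective π)
    (hπ' : ∀ r f φ, π (conj w r • f) φ = π f (r • φ)) {s : ι → Γ} (R : Finset (ι → ℤ[Γ]))
    (hR : ∀ r ∈ R, dS s r = 0) (z : ι → A) (hz : Cyc w s z)
    (h1 : ∀ φ : ι → B, (∀ r ∈ R, ∑ i, r i • φ i = 0) → ∃ v, ∀ i, φ i = (o (s i) - 1) • v) :
    z ∈ Bd _ w s := by
  classical
  let ζ : (ι → B) →+ TT := ∑ i, (π (z i)).comp (Pi.evalAddMonoidHom _ i)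
  let δ : (ι → B) →+ (R → B) := AddMonoidHom.mk' (fun φ r => ∑ i, r.1 i • φ i) fun a b =>
    funext fun r => by simp [Finset.sum_add_distrib]
  have hζ : ∀ φ, ζ φ = ∑ i, π (z i) (φ i) := fun φ => by simp [ζ]
  have hk : δ.ker ≤ ζ.ker := fun φ h => by
    obtain ⟨v, hv⟩ := h1 φ fun r hr => congrFun h ⟨r, hr⟩
    have := congrArg (fun a => π a v) hz
    simp only [map_sum, AddMonoidHom.finsetSum_apply, hπ', ← hv, map_zero,
      AddMonoidHom.zero_apply] at this
    exact (hζ φ).trans this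
  obtain ⟨η, hη⟩ := (Module.Baer.of_divisible TT).extension_property_addMonoidHom _
    (QuotientAddGroup.kerLift_injective δ) (QuotientAddGroup.lift _ ζ hk)
  have hη' : ∀ φ, η (δ φ) = ζ φ := fun φ => DFunLike.congr_fun hη (φ : _ ⧸ δ.ker)
  choose u hu using fun r : R => hπ.2 (η.comp (AddMonoidHom.single (fun _ : R => B) r))
  have : z = ∑ r : R, ract w (u r) r.1 := funext fun i => hπ.1 (AddMonoidHom.ext fun φ => by
    have h2 : ζ (Pi.single i φ) = π (z i) φ := by
      rw [hζ, Finset.sum_eq_single i] <;> simp +contextual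
    have h3 : δ (Pi.single i φ) = ∑ r : R, Pi.single r (r.1 i • φ) := by
      funext r
      change ∑ j, _ = _
      rw [Finset.sum_eq_single i, Finset.sum_apply, Finset.sum_eq_single r] <;>
        simp +contextual [eq_comm]
    rw [Finset.sum_apply, map_sum, AddMonoidHom.finsetSum_apply, ← h2, ← hη', h3, map_sum]
    exact Finset.sum_congr rfl fun r _ => by rw [ract, hπ', hu]; rfl)
  rw [this]
  exact AddSubgroup.sum_mem _ fun r _ => ract_mem_Bd w s _ (hR _ r.2)

variable {w}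

theorem DD.ext_dual {s : ι → Γ} (D : DD w s) (hs : Subgroup.closure (Set.range s) = ⊤)
    (hfg : (LinearMap.ker (dS s)).FG) (N : Subgroup Γ) [N.Normal] [Infinite (Γ ⧸ N)]
    (hN : OE N (Set.range s)) (hK : K ≤ N) (β : A →+ M →+ TT) (hβ : Function.Bijective β)
    (hβ' : ∀ (k : K) a m, β (o k • a) (o k • m) = (w k : ℤ) • β a m)
    (f : LinearMap.ker (dS s) →ₗ[ℤ[Γ]] Co K.subtype A) : Extends f := by
  obtain ⟨R, hR⟩ := hfg
  obtain ⟨π, h1, h2⟩ := exists_pr w β hβ hβ'
  exact (D.ext _ _).1 (dualize2 w π h1 h2 R (fun r hr =>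
    (hR ▸ Submodule.subset_span hr : r ∈ LinearMap.ker (dS s))) _ (D.cyc _ _)
    (h1_ind hs R hR N hN hK))

end

end Pool.Agent.P.MP_5ee5b4_al
end

-- part Pool.Agent.P.MP_5ee5b4_al.HD2
section

/-! Homological dimension one and its consequences. -/

namespace Pool.Agent.P.MP_5ee5b4_al

open Pool.Agent.P.MP_6e40fc_al Matrix MulOpposite
open scoped MonoidAlgebra

noncomputable section

set_option linter.unusedSectionVars false

variable {Γ K : Type} [Group Γ] [Group K] {ι γ : Type} [Fintype ι] [DecidableEq ι] [Fintype γ]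

/-- the module of an action by additive maps -/
def RM {M : Type} [AddCommGroup M] (_ρ : K →* AddMonoid.End M) : Type := M

instance {M : Type} [AddCommGroup M] (ρ : K →* AddMonoid.End M) : AddCommGroup (RM ρ) :=
  inferInstanceAs (AddCommGroup M)

instance {M : Type} [AddCommGroup M] (ρ : K →* AddMonoid.End M) : Module ℤ[K] (RM ρ) :=
  Module.compHom M (MonoidAlgebra.lift ℤ (AddMonoid.End M) K ρ).toRingHom

theorem RM.o_smul {M : Type} [AddCommGroup M] (ρ : K →* AddMonoid.End M) (g : K) (m : RM ρ) :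
    o g • m = ρ g m := by
  change (MonoidAlgebra.lift ℤ (AddMonoid.End M) K ρ (MonoidAlgebra.of ℤ K g)) m = _
  rw [MonoidAlgebra.lift_of]

/-- second cohomology with coefficients in character modules vanishes -/
def HD (K : Type) [Group K] : Prop := ∀ (M : Type) [AddCommGroup M] (ρ : K →* AddMonoid.End M)
  (c : K → K → M →+ TT),
  (∀ a b d m, c a b m + c (a * b) d m = c a (b * d) m + c b d (ρ a⁻¹ m)) →
    ∃ b : K → M →+ TT, ∀ x y m, c x y m = b x m + b y (ρ x⁻¹ m) - b (x * y) m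

theorem DD.hd {w : Γ →* ℤˣ} {s : ι → Γ} (D : DD w s) (hs : Subgroup.closure (Set.range s) = ⊤)
    (hfg : (LinearMap.ker (dS s)).FG) (N : Subgroup Γ) [N.Normal] [Infinite (Γ ⧸ N)]
    (hN : OE N (Set.range s)) (K : Subgroup Γ) (hK : K ≤ N) : HD K := fun M _ ρ c hc => by
  have hρ : ∀ a b m, ρ (a * b) m = ρ a (ρ b m) := fun a b m => by rw [map_mul]; rfl
  have hρ1 : ∀ m, ρ 1 m = m := fun m => by rw [map_one]; rfl
  let mk : ∀ {X : Type} [AddCommGroup X], (K → X) → Co (1 : Unit →* K) (Triv Unit X) :=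
    fun f => Co.mk f fun k x => by rw [Triv.o_smul, MonoidHom.one_apply, one_mul]
  let π : Co (1 : Unit →* K) (Triv Unit (M →+ TT)) →ₗ[ℤ[K]]
      Co (1 : Unit →* K) (Triv Unit (K → M → TT)) :=
    mkLin (AddMonoidHom.mk' (fun f => mk fun x y m => un _ _ (f (y * x)) m - un _ _ (f x) (ρ y⁻¹ m))
      fun f g => Co.ext fun x => funext fun y => funext fun m => add_sub_add_comm _ _ _ _)
      fun g f => Co.ext fun x => by
        rw [Co.o_smul]
        exact funext fun y => funext fun m => by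
          change un _ _ ((o g • f) (y * x)) m - un _ _ ((o g • f) x) _ =
            un _ _ (f (y * (x * g))) m - un _ _ (f (x * g)) _
          rw [Co.o_smul, Co.o_smul, mul_assoc]
  let ρ' : K →* AddMonoid.End M :=
    { toFun := fun k => (w k : ℤ) • ρ k
      map_one' := by simp
      map_mul' := fun a b => by
        rw [Subgroup.coe_mul, map_mul, map_mul, Units.val_mul, smul_mul_smul_comm] }
  let β : LinearMap.ker π →+ RM ρ' →+ TT :=
    ((un _ _).comp (Co.ev 1)).comp (LinearMap.ker π).subtype.toAddMonoidHom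
  have hβ : ∀ (f : LinearMap.ker π) y m, un _ _ (f.1 y) m = β f (ρ y⁻¹ m) := fun f y m => by
    have : un _ _ (f.1 (y * 1)) m - un _ _ (f.1 1) (ρ y⁻¹ m) = 0 :=
      congrFun (congrFun (congrArg (fun g => g 1) f.2) y) m
    rwa [mul_one, sub_eq_zero] at this
  obtain ⟨E, h1, h2⟩ := derLift_of_ext hs K.subtype Subtype.val_injective π
    (fun g => π (mk fun x => c x g)) (fun g => ⟨_, rfl⟩) (fun g k => by
      rw [← map_smul, ← map_add]
      refine Co.ext fun x => funext fun y => funext fun m => ?_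
      change c (y * x) (g * k) m - c x (g * k) _ = c (y * x) g m + un _ _ ((o g • mk fun x => c x k)
        (y * x)) m - (c x g _ + un _ _ ((o g • mk fun x => c x k) x) _)
      rw [Co.o_smul, Co.o_smul]
      change _ = c (y * x) g m + c (y * x * g) k m - (c x g _ + c (x * g) k _)
      rw [hc, hc, _root_.mul_inv_rev, hρ]
      abel)
    (D.ext_dual hs hfg N hN hK β ⟨fun f g h => Subtype.ext (Co.ext fun y =>
      AddMonoidHom.ext fun m => (hβ f y m).trans (h ▸ (hβ g y m).symm)), fun a =>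
      ⟨⟨mk fun y => AddMonoidHom.comp a (ρ y⁻¹), Co.ext fun x => funext fun y => funext fun m =>
        sub_eq_zero.2 (congrArg a (by rw [_root_.mul_inv_rev]; exact hρ _ _ _))⟩,
        AddMonoidHom.ext fun m => congrArg a (by rw [inv_one]; exact hρ1 m)⟩⟩ fun k f m => by
      change un _ _ ((o k • f.1) 1) _ = _
      rw [Co.o_smul, one_mul, hβ, RM.o_smul, ← map_zsmul]
      refine congrArg (β f) ?_
      change ρ k⁻¹ ((w k : ℤ) • ρ k m) = _
      rw [map_zsmul, ← hρ, inv_mul_cancel, hρ1]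
      rfl)
  refine ⟨fun g => c 1 1 - un _ _ (E g 1), fun g k m => ?_⟩
  have h3 : un _ _ (E k (g * 1)) m - un _ _ (E k 1) (ρ g⁻¹ m) = c (g * 1) k m - c 1 k (ρ g⁻¹ m) :=
    congrFun (congrFun (congrArg (fun f => f 1) (h2 k)) g) m
  have h4 := hc 1 1 k (ρ g⁻¹ m)
  simp only [h1, Co.add_apply, Co.o_smul, map_add, one_mul, mul_one, inv_one, hρ1,
    AddMonoidHom.sub_apply, AddMonoidHom.add_apply] at h3 h4 ⊢
  linear_combination (norm := abel) -h3 - h4

theorem HD.h2 (h : HD K) (M : Rep ℤ K) : CategoryTheory.Limits.IsZero (groupHomology M 2) := by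
  refine ModuleCat.isZero_iff_subsingleton.2 (subsingleton_of_forall_eq 0 fun x => ?_)
  induction x using groupHomology.H2_induction_on with | h z => ?_
  refine (groupHomology.H2π_eq_zero_iff z).2 ((QuotientAddGroup.eq_zero_iff
    (N := (groupHomology.boundaries₂ M).toAddSubgroup) z.1).1
      (CharacterModule.eq_zero_of_character_apply fun Λ0 => ?_))
  let Λ := AddMonoidHom.comp Λ0 (QuotientAddGroup.mk' _)
  obtain ⟨b, hb⟩ := h M
    { toFun := fun g => (M.ρ g).toAddMonoidHom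
      map_one' := by rw [map_one]; rfl
      map_mul' := fun a b => by rw [map_mul]; rfl }
    (fun g k => Λ.comp (Finsupp.singleAddHom (g, k))) fun a b d m => by
      have : Λ (groupHomology.d₃₂ M (Finsupp.single (a, b, d) m)) = 0 :=
        (congrArg Λ0 ((QuotientAddGroup.eq_zero_iff _).2 ⟨_, rfl⟩)).trans (map_zero _)
      rw [groupHomology.d₃₂_single, map_sub, map_add, map_sub] at this
      change Λ (Finsupp.single _ _) + Λ (Finsupp.single _ _) =
        Λ (Finsupp.single _ _) + Λ (Finsupp.single _ (M.ρ a⁻¹ m))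
      linear_combination (norm := abel) -this
  have : Λ = (Finsupp.liftAddHom b).comp (groupHomology.d₂₁ M).hom.toAddMonoidHom :=
    Finsupp.addHom_ext fun ⟨g, k⟩ m => (hb g k m).trans (by
      change _ = Finsupp.liftAddHom b (groupHomology.d₂₁ M _)
      rw [groupHomology.d₂₁_single]
      simp only [map_add, map_sub, Finsupp.liftAddHom_apply_single]
      exact (add_sub_assoc _ _ _).trans (add_comm _ _))
  exact (DFunLike.congr_fun this z.1).trans ((congrArg (Finsupp.liftAddHom b) z.2).trans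
    (map_zero _))

theorem extAdd_hom {X : Type} [AddCommGroup X] (Φ : ℤ[K] →+ X) : extAdd (fun y => Φ (o y)) = Φ :=
  addHom_ext fun _ => extAdd_o _ _

theorem HD.villa (h : HD K) {t : ι → K} (ht : Subgroup.closure (Set.range t) = ⊤)
    (X : Matrix γ ι ℤ[K]) (hX : X * πc t = 0) :
    ∃ ρ : Matrix ι ι ℤ[K], ρ * πc t = 0 ∧ X * ρ = X := by
  classical
  let S : AddSubgroup (Matrix γ ι ℤ[K]) :=
    { carrier := {Y | ∃ ρ : Matrix ι ι ℤ[K], ρ * πc t = 0 ∧ X * ρ = Y}
      add_mem' := by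
        rintro _ _ ⟨a, ha, rfl⟩ ⟨b, hb, rfl⟩
        exact ⟨a + b, by rw [Matrix.add_mul, ha, hb, add_zero], Matrix.mul_add _ _ _⟩
      zero_mem' := ⟨0, Matrix.zero_mul _, Matrix.mul_zero _⟩
      neg_mem' := by
        rintro _ ⟨a, ha, rfl⟩
        exact ⟨-a, by rw [Matrix.neg_mul, ha, neg_zero], Matrix.mul_neg _ _⟩ }
  refine (QuotientAddGroup.eq_zero_iff (N := S) X).1
    (CharacterModule.eq_zero_of_character_apply fun Λ0 => ?_)
  let Λ := AddMonoidHom.comp Λ0 (QuotientAddGroup.mk' S)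
  have hΛ : ∀ ρ : Matrix ι ι ℤ[K], ρ * πc t = 0 → Λ (X * ρ) = 0 := fun ρ hρ =>
    (congrArg Λ0 ((QuotientAddGroup.eq_zero_iff _).2 ⟨ρ, hρ, rfl⟩)).trans (map_zero _)
  let J : Submodule ℤ[K]ᵐᵒᵖ (γ → ℤ[K]) :=
    { carrier := {x | ∀ r, dS t r = 0 → Λ (vecMulVec x r) = 0}
      add_mem' := fun ha hb r hr => by rw [add_vecMulVec, map_add, ha r hr, hb r hr, add_zero]
      zero_mem' := fun r _ => by rw [zero_vecMulVec, map_zero]
      smul_mem' := fun a x hx r hr => by
        rw [← op_unop a, ← vecMulVec_smul']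
        exact hx _ (by rw [map_smul, hr, smul_zero]) }
  have hJ : ∀ i, J.mkQ (X.col i) = 0 := fun i => (Submodule.Quotient.mk_eq_zero _).2 fun r hr => by
    rw [← mulVec_single_one, ← mul_vecMulVec]
    refine hΛ _ (Matrix.ext fun a u => ?_)
    rw [← dS_row, show vecMulVec _ r a = _ • r from row_vecMulVec _ _ _, map_smul, hr, smul_zero]
    rfl
  choose v hv using exists_dS ht
  let L : (ι → ℤ[K]) → (γ → ℤ[K]) →+ TT := fun r =>
    Λ.comp (AddMonoidHom.mk' (vecMulVec · r) fun a b => add_vecMulVec a b r)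
  have hL : ∀ r x, L r x = Λ (vecMulVec x r) := fun _ _ => rfl
  obtain ⟨b, hb⟩ := h ((γ → ℤ[K]) ⧸ J) ((Module.toAddMonoidEnd ℤ[K]ᵐᵒᵖ _).toMonoidHom.comp
    { toFun := fun k => op (o k⁻¹)
      map_one' := by simp
      map_mul' := fun a b => by rw [_root_.mul_inv_rev, ← o_mul, op_mul] })
    (fun g k => QuotientAddGroup.lift J.toAddSubgroup (L (v g + o g • v k - v (g * k)))
      fun x hx => hx _ (by
        rw [map_sub, map_add, map_smul, hv, hv, hv, smul_eq_mul, mul_sub, o_mul]; simp))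
    fun a b d m => by
      obtain ⟨x, rfl⟩ := J.mkQ_surjective m
      change L _ x + L _ x = L _ x + L _ (op (o a⁻¹⁻¹) • x)
      simp only [hL, ← vecMulVec_smul', ← map_add, ← vecMulVec_add, inv_inv, smul_sub, smul_add,
        smul_smul, o_mul, mul_assoc]
      congr 2
      abel
  let Ψ : K → (γ → ℤ[K]) →+ TT := fun g => L (v g) - (b g).comp J.mkQ.toAddMonoidHom
  have hΨ : ∀ g k x, Ψ (g * k) x - Ψ g x = Ψ k (op (o g) • x) := fun g k x => by
    have : L _ x = b g (J.mkQ x) + b k (J.mkQ (op (o g⁻¹⁻¹) • x)) - b (g * k) (J.mkQ x) :=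
      hb g k (J.mkQ x)
    simp only [hL, vecMulVec_sub, vecMulVec_add, vecMulVec_smul', map_sub, map_add,
      inv_inv] at this
    change L _ _ - b _ (J.mkQ x) - (L _ _ - b _ (J.mkQ x)) = L _ _ - b _ (J.mkQ _)
    simp only [hL]
    linear_combination (norm := abel) -this
  have h1 : ∀ j, ∑ i, Ψ (t i) (Pi.single j (X j i)) = 0 := fun j => by
    have := extAdd_dS (fun g => Ψ g (Pi.single j 1)) t (X j)
    rw [dS_row, hX] at this
    refine Eq.trans (Finset.sum_congr rfl fun i _ => ?_) (this.symm.trans (map_zero _))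
    refine (DFunLike.congr_fun (extAdd_hom ((Ψ (t i)).comp
      (AddMonoidHom.single (fun _ : γ => ℤ[K]) j))) (X j i)).symm.trans
      (congrArg (extAdd · _) (funext fun y => ?_))
    rw [hΨ, ← Pi.single_smul, op_smul_eq_mul, one_mul]
    rfl
  have h2 : Λ (X * Matrix.of fun i => v (t i)) = 0 := by
    have := Finset.sum_eq_zero fun j (_ : j ∈ Finset.univ) => h1 j
    rw [Finset.sum_comm] at this
    simp only [← map_sum, Finset.univ_sum_single] at this
    refine Eq.trans ?_ this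
    rw [show X * Matrix.of (fun i => v (t i)) = ∑ i, vecMulVec (X.col i) (v (t i)) from
      Matrix.ext fun a u => by simp [mul_apply, Matrix.sum_apply, vecMulVec_apply], map_sum]
    refine Finset.sum_congr rfl fun i _ => ?_
    change _ = L _ _ - b _ (J.mkQ (X.col i))
    rw [hJ, map_zero, sub_zero]
    rfl
  have h3 := hΛ (1 - Matrix.of fun i => v (t i)) (Matrix.ext fun a u => by
    rw [Matrix.sub_mul, Matrix.one_mul, Matrix.sub_apply, ← dS_row]
    exact sub_eq_zero.2 (hv _).symm)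
  rwa [Matrix.mul_sub, Matrix.mul_one, map_sub, h2, sub_zero] at h3

theorem derLift_of_retr {t : ι → K} (ht : Subgroup.closure (Set.range t) = ⊤)
    (ρ : Matrix ι ι ℤ[K]) (h1 : ρ * πc t = 0) (h2 : ∀ r, dS t r = 0 → r ᵥ* ρ = r) : DerLift K := by
  intro A B _ _ _ _ π hπ δ hδ
  choose a ha using fun i => hπ (δ (t i))
  choose v hv using exists_dS ht
  let Λ := Fintype.linearCombination ℤ[K] a ∘ₗ (1 - ρ).vecMulLinear
  refine ⟨fun g => Λ (v g), fun g k => ?_, fun g => ?_⟩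
  · have := h2 (v (g * k) - (v g + o g • v k)) (by
      rw [map_sub, map_add, map_smul, hv, hv, hv, smul_eq_mul, mul_sub, o_mul]; simp)
    rw [← map_smul, ← map_add, ← sub_eq_zero, ← map_sub, LinearMap.comp_apply, vecMulLinear_apply,
      vecMul_sub, vecMul_one, this, sub_self, map_zero]
  · have h3 := extAdd_dS δ t (v g ᵥ* (1 - ρ))
    rw [dS_eq, vecMul_vecMul, Matrix.sub_mul, h1, sub_zero, Matrix.one_mul, ← dS_eq, hv, map_sub,
      ← o_one, extAdd_o, extAdd_o, show δ 1 = 0 by simpa using hδ 1 1, sub_zero] at h3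
    change π (Fintype.linearCombination ℤ[K] a (v g ᵥ* (1 - ρ))) = _
    rw [h3, Fintype.linearCombination_apply, map_sum]
    refine Finset.sum_congr rfl fun i _ => ?_
    simp only [hδ, add_sub_cancel_left, map_smul, ha]
    exact (DFunLike.congr_fun (extAdd_hom (LinearMap.toSpanSingleton ℤ[K] _
      (δ (t i))).toAddMonoidHom) _).symm

theorem HD.derLift (h : HD K) (hK : Group.FG K) {D : Type} [Ring D] [IsNoetherianRing D]
    (φ : ℤ[K] →+* D) (hφ : Function.Injective φ) : DerLift K := by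
  classical
  obtain ⟨T, hT⟩ := hK.1
  have ht : Subgroup.closure (Set.range (Subtype.val : T → K)) = ⊤ := by simpa using hT
  obtain ⟨S, hS, hS'⟩ := (Submodule.fg_span_iff_fg_span_finset_subset ((φ ∘ ·) ''
    {r | dS (Subtype.val : T → K) r = 0})).1 (IsNoetherian.noetherian (R := D) _)
  choose X hX hX' using fun y : S => hS y.2
  obtain ⟨ρ, h1, h2⟩ := h.villa ht (Matrix.of X) (Matrix.ext fun a u => by
    rw [← dS_row]; exact hX a)
  have h3 : ∀ r, (φ ∘ r) ᵥ* ρ.map φ = φ ∘ (r ᵥ* ρ) := fun r =>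
    funext fun i => (RingHom.map_vecMul φ ρ r i).symm
  refine derLift_of_retr ht ρ h1 fun r hr => funext fun i => hφ (congrFun ((h3 r).symm.trans
    (LinearMap.eqOn_span' (f := (ρ.map φ).vecMulLinear) (g := LinearMap.id) (fun y hy => ?_)
    (hS'.le (Submodule.subset_span ⟨r, hr, rfl⟩)))) i)
  have h4 : X ⟨y, hy⟩ ᵥ* ρ = X ⟨y, hy⟩ := (row_vecMul (Matrix.of X) ρ _).trans (congrFun h2 _)
  change y ᵥ* _ = y
  rw [← show φ ∘ X ⟨y, hy⟩ = y from hX' ⟨y, hy⟩, h3, h4]

end

end Pool.Agent.P.MP_5ee5b4_al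
end

-- part Pool.Agent.P.MP_5ee5b4_al.Main2
section

/-! The main theorems. -/

namespace Pool.Agent.P.MP_5ee5b4_al

open Pool.Agent.P.MP_6e40fc_al
open scoped MonoidAlgebra commutatorElement

noncomputable section

variable {Γ : Type} [Group Γ]

/-- virtually solvable groups -/
def VS (Γ : Type) [Group Γ] : Prop := ∃ K : Subgroup Γ, K.FiniteIndex ∧ Group.IsSolvable K

theorem VS.of_finiteIndex (L : Subgroup Γ) [hL : L.FiniteIndex] (h : VS L) : VS Γ := by
  obtain ⟨K, h1, h2⟩ := h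
  refine ⟨K.map L.subtype, ⟨?_⟩, Group.isSolvable_of_surjective
    (f := (K.equivMapOfInjective _ L.subtype_injective).toMonoidHom) (MulEquiv.surjective _)⟩
  rw [Subgroup.index_map_of_injective _ L.subtype_injective, Subgroup.range_subtype]
  exact mul_ne_zero h1.index_ne_zero hL.index_ne_zero

theorem VS.sub (h : VS Γ) (N : Subgroup Γ) : VS N := by
  obtain ⟨K, h1, h2⟩ := h
  exact ⟨K.subgroupOf N, inferInstance, Group.isSolvable_of_isSolvable_injective
    (f := N.subtype.subgroupComap K) fun a b e =>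
      Subtype.ext (Subtype.ext (congrArg (fun z : K => (z : Γ)) e))⟩

theorem VC.vs (h : VC Γ) : VS Γ := by
  obtain ⟨ν, h⟩ := h
  exact ⟨_, h, Group.isSolvable_of_comm fun a b => mul_comm' a b⟩

/-- positive virtual first Betti number -/
def VB (Γ : Type) [Group Γ] : Prop := ∃ L : Subgroup Γ, L.FiniteIndex ∧
  ∃ (χ : L →* Multiplicative ℤ) (ν : L), lv χ ν ≠ 0

theorem VB.vs (h : VB Γ) (hG : IsPD 3 Γ) (hN : NF (⊤ : Subgroup Γ)) : VS Γ := by
  obtain ⟨L, _, χ, ν, hν⟩ := h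
  have h1 : NF (⊤ : Subgroup L) := hN.comap L.subtype Subtype.val_injective
  obtain ⟨-, K, h2, h3⟩ := main0 (isPD_of_finiteIndex L hG) ⊤ h1 χ ν trivial hν
  exact VS.of_finiteIndex L ⟨K, h2, h3 K (h1.mono le_top) le_rfl⟩

theorem VB.rb (h : VB Γ) (hG : IsPD 3 Γ) (hN : NF (⊤ : Subgroup Γ)) {p : ℕ} (hp : p ≠ 0) :
    ∃ C, RB p Γ C := by
  obtain ⟨L, _, χ, ν, hν⟩ := h
  obtain ⟨C, hC⟩ := rb_of_char hp (isPD_of_finiteIndex L hG)
    (hN.comap L.subtype Subtype.val_injective) χ ν hν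
  exact ⟨_, hC.of_finiteIndex⟩

theorem exists_char (A : Type) [Group A] [Group.FG A] [Infinite A] (hc : ∀ a b : A, a * b = b * a) :
    ∃ (χ : A →* Multiplicative ℤ) (a : A), lv χ a ≠ 0 := by
  classical
  let _ : CommGroup A := { ‹Group A› with mul_comm := hc }
  obtain ⟨n, ι, _, p, hp, e, ⟨E⟩⟩ := AddCommGroup.equiv_free_prod_directSum_zmod (Additive A)
  rcases n.eq_zero_or_pos with rfl | hn
  · have : ∀ i, NeZero (p i ^ e i) := fun i => ⟨pow_ne_zero _ (hp i).ne_zero⟩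
    have : Finite (DirectSum ι fun i => ZMod (p i ^ e i)) :=
      Finite.of_equiv _ DFinsupp.equivFunOnFintype.symm
    exact absurd (Finite.of_equiv _ E.symm.toEquiv) (not_finite_iff_infinite.2 ‹Infinite A›)
  obtain ⟨a, ha⟩ := E.surjective (Finsupp.single ⟨0, hn⟩ 1, 0)
  refine ⟨MonoidHom.mk' (fun a => Multiplicative.ofAdd ((E (Additive.ofMul a)).1 ⟨0, hn⟩))
    fun a b => by simp, a.toMul, ?_⟩
  change (E a).1 ⟨0, hn⟩ ≠ 0
  simp [ha]

theorem vb_of_quot [Group.FG Γ] {Q : Type} [Group Q]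
    [Infinite Q] (π : Γ →* Q) (hπ : Function.Surjective π) (A : Subgroup Q) [hA : A.FiniteIndex]
    (hc : ∀ a b : A, a * b = b * a) : VB Γ := by
  have : Group.FG Q := Group.fg_of_surjective hπ
  have : Infinite A := not_finite_iff_infinite.1 fun _ => not_finiteIndex_of_finite A hA
  obtain ⟨χ, a, ha⟩ := exists_char A hc
  have : (A.comap π).FiniteIndex :=
    ⟨by rw [Subgroup.index_comap_of_surjective _ hπ]; exact hA.index_ne_zero⟩
  obtain ⟨ν, rfl⟩ := π.subgroupComap_surjective_of_surjective A hπ a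
  exact ⟨_, this, χ.comp (π.subgroupComap A), ν, ha⟩

theorem NoFree.nf_of_comm {N L : Subgroup Γ} (h : NoFree N) (hL : ⁅L, L⁆ ≤ N) : NF L :=
  fun a ha b hb k => ⟨k, le_rfl, fun hf => by
    set f := FreeGroup.lift ![a ^ (2 * k), b ^ (2 * k)] with hf'
    have h1 : f.range ≤ L := by
      rw [hf', FreeGroup.range_lift_eq_closure, Subgroup.closure_le]
      rintro _ ⟨i, rfl⟩
      fin_cases i
      · exact L.pow_mem ha _
      · exact L.pow_mem hb _
    let x : FreeGroup (Fin 2) := FreeGroup.of 0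
    let y : FreeGroup (Fin 2) := FreeGroup.of 1
    have h2 := h ((commutator _).map f) (by
      rw [map_commutator_eq]
      exact (Subgroup.commutator_mono h1 h1).trans hL)
      (IsFreeGroup.ofMulEquiv (Subgroup.equivMapOfInjective _ f hf))
      ⟨_, ⁅x, y⁆, Subgroup.commutator_mem_commutator trivial trivial, rfl⟩
      ⟨_, ⁅x⁻¹, y⁆, Subgroup.commutator_mem_commutator trivial trivial, rfl⟩
    have h3 : ⁅x, y⁆ * ⁅x⁻¹, y⁆ = ⁅x⁻¹, y⁆ * ⁅x, y⁆ := hf (by
      rw [map_mul, map_mul]; exact congrArg Subtype.val h2)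
    exact absurd h3 (by decide)⟩

theorem IsPD.fg (hG : IsPD 3 Γ) : Group.FG Γ := by
  obtain ⟨_, _, _, _, P, -⟩ := exists_pres2 hG
  exact fg_of_pres P

theorem not_vc_infinite (h : ¬ VC Γ) : Infinite Γ :=
  not_finite_iff_infinite.1 fun _ => h ⟨1, inferInstance⟩

theorem tame_of_not_vc (hG : IsPD 3 Γ) (N : Subgroup Γ) [N.Normal] [Infinite N] (hN : NF N)
    (hvc : ¬ VC (Γ ⧸ N)) : Tame N ∧ (∀ K ≤ N, HD K) ∧ (N.FG → VC N) := by
  classical
  have := not_vc_infinite hvc
  obtain ⟨w, hw⟩ := exists_dd hG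
  obtain ⟨T, hT, -⟩ := exists_family (IsPD.fg hG) 1
  obtain ⟨hfg, ⟨D⟩⟩ := hw T Subtype.val hT
  suffices h : OE N (Set.range (Subtype.val : T → Γ)) from ⟨tame_of (D.cl hT hfg N h) hN,
    D.hd hT hfg N h, fun h => D.vc_of_fg hT hfg h hN hvc⟩
  by_cases h : N.FG
  · obtain ⟨S, hS, -⟩ := exists_family ((Group.fg_iff_subgroup_fg _).2 h) 1
    exact oe_of_fg hT hS (D.oneEnd hT
      (fun h => not_finite_iff_infinite.2 ‹_› N.finite_quotient_of_finiteIndex) hS hvc)
  · exact oe_of_not_fg hT hfg hN h hvc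

theorem infinite_index (hG : IsPD 3 Γ) (N : Subgroup Γ) [N.Normal] (hN : NoFree N)
    (hi : ¬ N.FiniteIndex) : VS N ∨ (¬ VC (Γ ⧸ N) ∧ ¬ N.FG ∧ Tame N ∧ ∀ K ≤ N, HD K) := by
  have := IsPD.fg hG
  by_cases hvc : VC (Γ ⧸ N)
  · obtain ⟨ν, hν⟩ := hvc
    have : Infinite (Γ ⧸ N) :=
      not_finite_iff_infinite.1 fun _ => hi Subgroup.finiteIndex_of_finite_quotient
    have : ((Subgroup.zpowers ν).comap (QuotientGroup.mk' N)).FiniteIndex := ⟨by
      rw [Subgroup.index_comap_of_surjective _ (QuotientGroup.mk'_surjective N)]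
      exact hν.index_ne_zero⟩
    refine Or.inl (((vb_of_quot _ (QuotientGroup.mk'_surjective N) (Subgroup.zpowers ν)
      fun a b => mul_comm' a b).vs hG (NF.top (hN.nf_of_comm
      (L := (Subgroup.zpowers ν).comap (QuotientGroup.mk' N)) ?_))).sub N)
    refine Subgroup.commutator_le.2 fun a ha b hb => (QuotientGroup.eq_one_iff _).1 ?_
    exact commutatorElement_eq_one_iff_mul_comm.2 (congrArg Subtype.val
      (mul_comm' (⟨_, ha⟩ : Subgroup.zpowers ν) ⟨_, hb⟩))
  rcases finite_or_infinite N with h | h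
  · exact Or.inl (VC.vs ⟨1, inferInstance⟩)
  obtain ⟨h1, h4, h2⟩ := tame_of_not_vc hG N hN.nf hvc
  by_cases h3 : N.FG
  · exact Or.inl (h2 h3).vs
  · exact Or.inr ⟨hvc, h3, h1, h4⟩

variable {p : ℕ} [hp : Fact p.Prime] {d : ℕ}

theorem large_quot (hd : 6 ≤ d) (h2 : H2c p Γ d) {χ : Fin d → Γ → ZMod p} {x : Fin d → Γ}
    (hχ0 : ∀ t, IsHom (χ t)) (hx : ∀ t i, χ t (x i) = if t = i then 1 else 0)
    (hχ : ∀ ψ : Γ → ZMod p, IsHom ψ → ∃ a : Fin d → ZMod p, ∀ g, ψ g = ∑ t, a t * χ t g)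
    (g : Fin 2 → Γ) (hg : ∀ t j, χ t (g j) = 0) (m : ℕ) :
    ∃ U : Subgroup (Γ ⧸ Subgroup.normalClosure (Set.range g)), U.FiniteIndex ∧ m ≤ U.index := by
  have h1 : ∀ t, Subgroup.normalClosure (Set.range g) ≤ (hχ0 t).mk.ker := fun t =>
    Subgroup.normalClosure_le_normal (by rintro _ ⟨j, rfl⟩; exact hg t j)
  refine golod_shafarevich hd h2 (QuotientGroup.mk' _) (QuotientGroup.mk'_surjective _) g
    (fun j => (QuotientGroup.eq_one_iff _).2 (Subgroup.subset_normalClosure (Set.mem_range_self j)))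
    (QuotientGroup.ker_mk' _).le (x := fun i => x i)
    (χ := fun t q => (QuotientGroup.lift _ _ (h1 t) q).toAdd)
    (fun t a b => congrArg Multiplicative.toAdd (map_mul _ a b)) hx (fun ψ hψ => ?_) m
  obtain ⟨a, ha⟩ := hχ (fun k => ψ k) fun k l => hψ k l
  exact ⟨a, fun q => by obtain ⟨k, rfl⟩ := QuotientGroup.mk_surjective q; exact ha k⟩

theorem vb_of_h2c (hG : IsPD 3 Γ) (hN : NF (⊤ : Subgroup Γ)) (hd : 6 ≤ d) (h2 : H2c p Γ d)
    {χ : Fin d → Γ → ZMod p} {x : Fin d → Γ}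
    (hχ0 : ∀ t, IsHom (χ t)) (hx : ∀ t i, χ t (x i) = if t = i then 1 else 0)
    (hχ : ∀ ψ : Γ → ZMod p, IsHom ψ → ∃ a : Fin d → ZMod p, ∀ g, ψ g = ∑ t, a t * χ t g) :
    VB Γ := by
  classical
  have := IsPD.fg hG
  let R : Subgroup Γ := ⨅ U : {U : Subgroup Γ // U.Normal ∧ U.FiniteIndex}, U.1
  have hR : R.Normal := Subgroup.normal_iInf_normal fun U => U.2.1
  have h3 : ¬ R.FiniteIndex := fun h => by
    obtain ⟨U, h4, h5⟩ := large_quot hd h2 hχ0 hx hχ (fun _ => 1) (fun t _ => (hχ0 t).one)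
      (R.index + 1)
    have h6 := U.index_comap_of_surjective (QuotientGroup.mk'_surjective _)
    generalize U.comap (QuotientGroup.mk' _) = V at h6
    have : V.FiniteIndex := ⟨h6 ▸ h4.index_ne_zero⟩
    have h7 : R ≤ V.normalCore := iInf_le (fun U : {U : Subgroup Γ // U.Normal ∧ U.FiniteIndex} =>
      U.1) ⟨V.normalCore, inferInstance, inferInstance⟩
    have := Subgroup.index_antitone (h7.trans V.normalCore_le)
    omega
  have h4 : ∀ g, (∀ t, χ t g = 0) → Finite (Subgroup.normalClosure {g}) ∨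
      ⁅Subgroup.normalClosure {g}, Subgroup.normalClosure {g}⁆ ≤ R := fun g hg => by
    rcases finite_or_infinite (Subgroup.normalClosure {g}) with h | h
    · exact Or.inl h
    right
    obtain ⟨h5, -⟩ := tame_of_not_vc hG (Subgroup.normalClosure {g}) (hN.mono le_top) (by
      rintro ⟨ν, hν⟩
      obtain ⟨ν, rfl⟩ := QuotientGroup.mk_surjective ν
      have h6 : Subgroup.normalClosure {g} ≤ Subgroup.normalClosure (Set.range ![g, ν ^ p]) :=
        Subgroup.normalClosure_mono (by simp)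
      let π := QuotientGroup.map (Subgroup.normalClosure {g})
        (Subgroup.normalClosure (Set.range ![g, ν ^ p])) (MonoidHom.id Γ) fun _ h => h6 h
      have h7 : Function.Surjective π := fun q => by
        obtain ⟨q, rfl⟩ := QuotientGroup.mk_surjective q
        exact ⟨q, rfl⟩
      have h8 : IsOfFinOrder (π ν) := isOfFinOrder_iff_pow_eq_one.2 ⟨p, hp.out.pos,
        (QuotientGroup.eq_one_iff (ν ^ p)).2 (Subgroup.subset_normalClosure ⟨1, rfl⟩)⟩
      have := h8.finite_zpowers.to_subtype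
      have : Finite (Γ ⧸ Subgroup.normalClosure (Set.range ![g, ν ^ p])) :=
        not_infinite_iff_finite.1 fun _ => not_finiteIndex_of_finite (Subgroup.zpowers (π ν)) (by
          rw [← MonoidHom.map_zpowers]
          exact ⟨fun h => hν.index_ne_zero (Nat.eq_zero_of_zero_dvd
            (h ▸ Subgroup.index_map_dvd _ h7))⟩)
      obtain ⟨U, -, h9⟩ := large_quot hd h2 hχ0 hx hχ ![g, ν ^ p] (fun t j => by
        fin_cases j
        · exact hg t
        · simp [(hχ0 t).pow]) (Nat.card (Γ ⧸ Subgroup.normalClosure (Set.range ![g, ν ^ p])) + 1)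
      exact absurd (Nat.le_of_dvd Nat.card_pos U.index_dvd_card) (by omega))
    refine Subgroup.commutator_le.2 fun a ha b hb => Subgroup.mem_iInf.2 fun ⟨U, h6, h7⟩ => ?_
    let φ := (QuotientGroup.mk' U).comp (Subgroup.normalClosure {g}).subtype
    have := h5.cyclic _ φ.rangeRestrict φ.rangeRestrict_surjective
    exact (QuotientGroup.eq_one_iff _).1 (commutatorElement_eq_one_iff_mul_comm.2 (congrArg
      Subtype.val (mul_comm' (φ.rangeRestrict ⟨a, ha⟩) (φ.rangeRestrict ⟨b, hb⟩))))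
  have h5 : ∀ T : Finset Γ, (∀ g ∈ T, ∀ t, χ t g = 0) →
      (R ⊔ Subgroup.normalClosure (T : Set Γ)).FiniteIndex → VB Γ := fun T => by
    induction T using Finset.induction_on with
    | empty => exact fun _ h => absurd (by simpa using h) h3
    | insert g T _ ih =>
      intro hT h
      by_cases h6 : (R ⊔ Subgroup.normalClosure (T : Set Γ)).FiniteIndex
      · exact ih (fun a ha => hT a (Finset.mem_insert_of_mem ha)) h6
      set B := R ⊔ Subgroup.normalClosure (T : Set Γ)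
      have : Infinite (Γ ⧸ B) :=
        not_finite_iff_infinite.1 fun _ => h6 Subgroup.finiteIndex_of_finite_quotient
      let A := (Subgroup.normalClosure {g}).map (QuotientGroup.mk' B)
      have : A.Normal := Subgroup.Normal.map inferInstance _ (QuotientGroup.mk'_surjective B)
      have h7 : B ≤ A.comap (QuotientGroup.mk' B) := fun a ha => by
        rw [Subgroup.mem_comap,
          show QuotientGroup.mk' B a = 1 from (QuotientGroup.eq_one_iff a).2 ha]
        exact A.one_mem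
      have h8 : (A.comap (QuotientGroup.mk' B)).FiniteIndex := Subgroup.finiteIndex_of_le
        (H := R ⊔ Subgroup.normalClosure ((insert g T : Finset Γ) : Set Γ))
        (sup_le (le_sup_left.trans h7) (Subgroup.normalClosure_le_normal fun a ha => by
          rcases Finset.mem_insert.1 ha with rfl | ha
          · exact ⟨a, Subgroup.subset_normalClosure rfl, rfl⟩
          · exact h7 (Subgroup.mem_sup_right (Subgroup.subset_normalClosure ha))))
      have h9 : A.FiniteIndex := ⟨by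
        rw [← Subgroup.index_comap_of_surjective _ (QuotientGroup.mk'_surjective B)]
        exact h8.index_ne_zero⟩
      rcases h4 g (hT g (Finset.mem_insert_self _ _)) with h10 | h10
      · have : Finite A := Finite.of_surjective _ (MonoidHom.subgroupMap_surjective _ _)
        exact absurd h9 (not_finiteIndex_of_finite A)
      · refine vb_of_quot _ (QuotientGroup.mk'_surjective B) A ?_
        rintro ⟨_, a, ha, rfl⟩ ⟨_, b, hb, rfl⟩
        exact Subtype.ext (commutatorElement_eq_one_iff_mul_comm.1 ((QuotientGroup.eq_one_iff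
          ⁅a, b⁆).2 (Subgroup.mem_sup_left (h10 (Subgroup.commutator_mem_commutator ha hb)))))
  have h6 : IsHom fun k t => χ t k := fun a b => funext fun t => hχ0 t a b
  obtain ⟨T, hT⟩ := (Group.fg_iff_subgroup_fg _).1 (inferInstance : Group.FG h6.mk.ker)
  exact h5 T (fun g hg t => congrFun (hT.le (Subgroup.subset_closure hg)) t)
    (Subgroup.finiteIndex_of_le (H := h6.mk.ker)
      ((hT.ge.trans Subgroup.closure_le_normalClosure).trans le_sup_right))

theorem exists_h2c (hG : IsPD 3 Γ) : ∃ w : Γ →* ℤˣ, ∀ (K : Subgroup Γ) [K.FiniteIndex],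
    (∀ (k : K) (a : ZMod p), (w k : ℤ) • a = a) → ∀ (d : ℕ) (χ : Fin d → K → ZMod p),
    (∀ t, IsHom (χ t)) →
    (∀ ψ : K → ZMod p, IsHom ψ → ∃ a : Fin d → ZMod p, ∀ k, ψ k = ∑ t, a t * χ t k) →
    H2c p K d := by
  classical
  obtain ⟨w, hw⟩ := exists_dd hG
  obtain ⟨T, hT, -⟩ := exists_family (IsPD.fg hG) 1
  obtain ⟨hfg, ⟨D⟩⟩ := hw T Subtype.val hT
  exact ⟨w, fun K _ h d χ h1 h2 V _ _ c hc => D.h2c hT hfg K h χ h1 h2 c hc⟩

theorem not_nf_of_rank (hG : IsPD 3 Γ) (L : Subgroup Γ) [L.FiniteIndex]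
    (φ : L → Fin 4 → ZMod p) (hφ : IsHom φ) (hφ' : Function.Surjective φ) :
    ¬ NF (⊤ : Subgroup Γ) := fun hN => by
  have := IsPD.fg hG
  obtain ⟨w, hw⟩ := exists_h2c (p := p) hG
  let Big : ℕ → Prop := fun e => ∃ K : Subgroup Γ, K.FiniteIndex ∧
    (∀ (k : K) (a : ZMod p), (w k : ℤ) • a = a) ∧
      ∃ d ≥ e, ∃ φ : K → Fin d → ZMod p, IsHom φ ∧ Function.Surjective φ
  have step : ∀ e ≥ 4, Big e → Big (e + 1) := fun e he ⟨K, _, hK, d', hd', φ, h1, h2⟩ => by
    obtain ⟨d, χ, x, h3, h4, h5, h6⟩ := exists_basis_hom p K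
    have h7 := h6 d' φ h1 h2
    have h9 : IsHom fun k t => χ t k := fun a b => funext fun t => h3 t a b
    obtain ⟨ψ, h10, h11⟩ := frattini_growth (hw K hK d χ h3 h5) h3 h4 (by omega) h9.mk.ker
      fun k => funext_iff
    let e := h9.mk.ker.equivMapOfInjective _ K.subtype_injective
    refine ⟨h9.mk.ker.map K.subtype, ⟨?_⟩, fun ⟨_, k, _, rfl⟩ => hK k, d + 1, by omega,
      fun k => ψ (e.symm k), fun a b => (congrArg ψ (map_mul e.symm a b)).trans (h10 _ _),
      h11.comp e.symm.surjective⟩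
    rw [Subgroup.index_map_of_injective _ K.subtype_injective, Subgroup.range_subtype]
    exact mul_ne_zero Subgroup.FiniteIndex.index_ne_zero Subgroup.FiniteIndex.index_ne_zero
  suffices h : Big 4 by
    have big : ∀ e ≥ 4, Big e := fun e he => Nat.le_induction h step e he
    obtain ⟨K, _, hK, d', hd', φ, h1, h2⟩ := big 6 (by omega)
    obtain ⟨d, χ, x, h3, h4, h5, h6⟩ := exists_basis_hom p K
    have h7 := isPD_of_finiteIndex K hG
    have h8 : NF (⊤ : Subgroup K) := hN.comap K.subtype Subtype.val_injective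
    obtain ⟨C, hC⟩ := (vb_of_h2c h7 h8 (hd'.trans (h6 d' φ h1 h2)) (hw K hK d χ h3 h5) h3 h4 h5).rb
      h7 h8 hp.out.ne_zero
    obtain ⟨M, -, -, e, he, ψ, h9, h10⟩ := big (C * K.index + 4) (by omega)
    have h11 := hC.of_finiteIndex M M.subtype M.subtype_injective
      (Multiplicative (Fin e → ZMod p)) (fun y => by
        rw [← ofAdd_toAdd y, ← ofAdd_nsmul, ← Nat.cast_smul_eq_nsmul (ZMod p), ZMod.natCast_self,
          zero_smul, ofAdd_zero]) h9.mk h10
    rw [Nat.card_congr Multiplicative.toAdd, Nat.card_fun, Nat.card_zmod, Nat.card_eq_fintype_card,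
      Fintype.card_fin] at h11
    have := Nat.lt_pow_self (n := e) hp.out.one_lt
    omega
  let u := ((Int.castRingHom (ZMod p)).toMonoidHom.comp ((Units.coeHom ℤ).comp w)).toHomUnits
  let K := L ⊓ u.ker
  have hK : ∀ (k : K) (a : ZMod p), (w k : ℤ) • a = a := fun k a => by
    rw [zsmul_eq_mul, show ((w k : ℤ) : ZMod p) = 1 from congrArg Units.val k.2.2, one_mul]
  refine ⟨K, inferInstance, hK, 4, le_rfl, fun k => φ ⟨k, k.2.1⟩,
    fun a b => hφ ⟨a, a.2.1⟩ ⟨b, b.2.1⟩, fun y => ?_⟩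
  by_cases h : (2 : ZMod p) = 0
  · obtain ⟨k, rfl⟩ := hφ' y
    refine ⟨⟨k, k.2, Units.ext ?_⟩, rfl⟩
    change ((w k : ℤ) : ZMod p) = 1
    rcases Int.units_eq_one_or (w k) with h1 | h1 <;> rw [h1]
    · simp
    · simpa using neg_eq_of_add_eq_zero_left (one_add_one_eq_two.trans h)
  · obtain ⟨k, hk⟩ := hφ' ((2 : ZMod p)⁻¹ • y)
    refine ⟨⟨k * k, (k * k).2, Units.ext ?_⟩, (hφ k k).trans ?_⟩
    · change ((w (k * k) : ℤ) : ZMod p) = 1
      rw [map_mul, Int.units_mul_self]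
      simp
    · rw [hk, ← two_smul (ZMod p), smul_smul, mul_inv_cancel₀ h, one_smul]

end

end Pool.Agent.P.MP_5ee5b4_al
end

-- part Pool.Agent.P.MP_5ee5b4_al.Main3
section

/-! The statements in their final form. -/

namespace Pool.Agent.P.MP_5ee5b4_al

open Pool.Agent.P.MP_6e40fc_al

variable {Γ : Type} [Group Γ]

theorem Tame.comm_of_vc (h : Tame Γ) (hv : VC Γ) : commutator Γ = ⊥ := by
  obtain ⟨ν, hν⟩ := hv
  have := h.cyclic _ _ (QuotientGroup.mk'_surjective (Subgroup.zpowers ν).normalCore)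
  have h1 : commutator Γ ≤ Subgroup.zpowers ν := (Subgroup.commutator_le.2 fun a _ b _ =>
    (QuotientGroup.eq_one_iff _).1 ((map_commutatorElement (QuotientGroup.mk' _) a b).trans
      (commutatorElement_eq_one_iff_mul_comm.2 (mul_comm' _ _)))).trans (Subgroup.normalCore_le _)
  rw [← h.perfect, eq_bot_iff]
  exact Subgroup.commutator_le.2 fun a ha b hb => commutatorElement_eq_one_iff_mul_comm.2
    (congrArg Subtype.val (mul_comm' (⟨a, h1 ha⟩ : Subgroup.zpowers ν) ⟨b, h1 hb⟩))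

theorem infinite_index_final (hG : IsPD3 Γ) (N : Subgroup Γ) (hn : N.Normal) (hN : NoFree N)
    (hi : ¬ N.FiniteIndex) : (∃ K : Subgroup N, K.FiniteIndex ∧ Group.IsSolvable K) ∨
      (¬ N.FG ∧ ⁅N, N⁆ ≠ ⊥ ∧ (∀ q : Γ ⧸ N, ¬ (Subgroup.zpowers q).FiniteIndex) ∧
        ∀ K ≤ N, (∀ M : Rep ℤ K, CategoryTheory.Limits.IsZero (groupHomology M 2)) ∧
          ⁅⁅K, K⁆, ⁅K, K⁆⁆ = ⁅K, K⁆ ∧
          (∀ (P : Type) [Group P] [Finite P] (φ : K →* P), Function.Surjective φ → IsCyclic P) ∧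
          ∀ (D : Type) [Ring D] [IsNoetherianRing D] (f : MonoidAlgebra ℤ K →+* D),
            Function.Injective f → ⁅K, K⁆ = ⊥) := by
  rcases infinite_index (Γ := Γ) hG N hN hi with h | ⟨h1, h2, h3, h6⟩
  · exact Or.inl h
  by_cases h4 : ⁅N, N⁆ = ⊥
  · refine Or.inl ⟨⊤, inferInstance, Group.isSolvable_of_comm fun a b => Subtype.ext (Subtype.ext
      (commutatorElement_eq_one_iff_mul_comm.1 (Subgroup.mem_bot.1 ?_)))⟩
    exact h4 ▸ Subgroup.commutator_mem_commutator a.1.2 b.1.2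
  have h5 : ∀ K ≤ N, Tame K := fun K hK L _ j hj =>
    h3 L ((Subgroup.inclusion hK).comp j) ((Subgroup.inclusion_injective hK).comp hj)
  refine Or.inr ⟨h2, h4, fun q hq => h1 ⟨q, hq⟩, fun K hK => ⟨(h6 K hK).h2, ?_,
    fun P _ _ φ hφ => (h5 K hK).cyclic P φ hφ, fun D _ _ f hf => eq_bot_iff.2
      (Subgroup.commutator_le.2 fun a ha b hb => ?_)⟩⟩
  · rw [← K.map_subtype_commutator, ← Subgroup.map_commutator, (h5 K hK).perfect]
  let L := Subgroup.closure {a, b}
  have h7 : L ≤ K := (Subgroup.closure_le _).2 (Set.pair_subset ha hb)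
  have h8 : VC L := by
    rcases finite_or_infinite L with h | h
    · exact ⟨1, inferInstance⟩
    have h9 : Group.FG L := Group.closure_finite_fg _
    exact ((h6 L (h7.trans hK)).derLift h9 (f.comp (jr (Subgroup.inclusion h7))) (hf.comp
      (MonoidAlgebra.mapDomain_injective (Subgroup.inclusion_injective h7)))).vcyc h9
      (h5 L (h7.trans hK) L (MonoidHom.id _) Function.injective_id).2
  have := (h5 L (h7.trans hK)).comm_of_vc h8
  rw [← Subgroup.map_bot L.subtype, ← this, L.map_subtype_commutator]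
  exact Subgroup.commutator_mem_commutator (Subgroup.subset_closure (by simp))
    (Subgroup.subset_closure (by simp))

theorem modp_final (hG : IsPD3 Γ) (L : Subgroup Γ) (hL : L.FiniteIndex) (p : ℕ) (hp : p.Prime)
    (φ : L →* Multiplicative (Fin 4 → ZMod p)) (hφ : Function.Surjective φ) :
    ∃ f : FreeGroup (Fin 2) →* Γ, Function.Injective f := by
  have := Fact.mk hp
  by_contra h
  exact not_nf_of_rank (Γ := Γ) hG L (fun k => (φ k).toAdd)
    (fun a b => congrArg Multiplicative.toAdd (map_mul φ a b)) hφ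
    fun a _ b _ k => ⟨k, le_rfl, fun hf => h ⟨_, hf⟩⟩

end Pool.Agent.P.MP_5ee5b4_al
end
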