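import Mathlib
import Pool.Agent.K.MP_5ee5b4_al.C2

-- part Pool.Agent.P.MP_5ee5b4_al.TAbs
section

/-! Absolute values that separate an element from the roots of unity. -/

namespace Pool.Agent.P.MP_5ee5b4_al

open Cardinal Polynomial

theorem exists_ext (F K L : Type) [CommRing F] [IsDomain F] [Field K] [Field L] [IsAlgClosed L]
    [Algebra F K] [Algebra F L] [FaithfulSMul F K] [FaithfulSMul F L] (hF : #F ≤ ℵ₀)
    (hL : ℵ₀ < #L) (hK : #K ≤ #L) : Nonempty (K →ₐ[F] L) := by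
  obtain ⟨ι, x, hx⟩ := exists_isTranscendenceBasis' F K
  obtain ⟨κ, y, hy⟩ := exists_isTranscendenceBasis' F L
  obtain ⟨j⟩ : Nonempty (ι ↪ κ) := (mk_le_of_injective hx.1.injective).trans
    (hK.trans (IsAlgClosed.cardinal_eq_cardinal_transcendence_basis_of_aleph0_lt' y hy hF hL).le)
  have h1 : AlgebraicIndependent F (y ∘ j) := hy.1.comp j j.injective
  let f : Algebra.adjoin F (Set.range x) →ₐ[F] L :=
    (MvPolynomial.aeval (y ∘ j)).comp hx.1.aevalEquiv.symm.toAlgHom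
  let _ := f.toRingHom.toAlgebra
  have : FaithfulSMul (Algebra.adjoin F (Set.range x)) L :=
    (faithfulSMul_iff_algebraMap_injective _ _).2 fun _ _ e =>
      hx.1.aevalEquiv.symm.injective (h1 e)
  have := hx.isAlgebraic
  let g : K →ₐ[Algebra.adjoin F (Set.range x)] L := IsAlgClosed.lift
  exact ⟨{ g.toRingHom with
    commutes' := fun r => (g.commutes (algebraMap F _ r)).trans (f.commutes r) }⟩

theorem exists_emb {K L : Type} [Field K] [CharZero K] [Field L] [CharZero L] [IsAlgClosed L]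
    (hL : ℵ₀ < #L) (hK : #K ≤ #L) (a : K) (t : L)
    (h : ∀ f : ℚ[X], aeval a f = 0 ↔ aeval t f = 0) : ∃ σ : K →+* L, σ a = t := by
  let I := RingHom.ker (aeval a : ℚ[X] →ₐ[ℚ] K).toRingHom
  have h1 := RingHom.kerLift_injective (aeval a : ℚ[X] →ₐ[ℚ] K).toRingHom
  have h2 := RingHom.lift_injective_of_ker_le_ideal I (f := (aeval t : ℚ[X] →ₐ[ℚ] L).toRingHom)
    (fun f hf => (h f).1 hf) fun f hf => (h f).2 hf
  let _ := (RingHom.kerLift (aeval a : ℚ[X] →ₐ[ℚ] K).toRingHom).toAlgebra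
  let _ := (Ideal.Quotient.lift I (aeval t : ℚ[X] →ₐ[ℚ] L).toRingHom
    fun f hf => (h f).1 hf).toAlgebra
  have := h1.isDomain
  have : FaithfulSMul (ℚ[X] ⧸ I) K := (faithfulSMul_iff_algebraMap_injective _ _).2 h1
  have : FaithfulSMul (ℚ[X] ⧸ I) L := (faithfulSMul_iff_algebraMap_injective _ _).2 h2
  obtain ⟨g⟩ := exists_ext (ℚ[X] ⧸ I) K L ((mk_le_of_surjective Ideal.Quotient.mk_surjective).trans
    (Polynomial.cardinalMk_le_max.trans (by simp))) hL hK
  refine ⟨g, ?_⟩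
  have h3 := g.commutes (Ideal.Quotient.mk I X)
  change g (aeval a (X : ℚ[X])) = aeval t (X : ℚ[X]) at h3
  simpa using h3

theorem root_iff {K L : Type} [Field K] [CharZero K] [Field L] [CharZero L] {a : K}
    (ha : IsIntegral ℚ a) {t : L} (ht : aeval t (minpoly ℚ a) = 0) (f : ℚ[X]) :
    aeval a f = 0 ↔ aeval t f = 0 := by
  have h := minpoly.eq_of_irreducible_of_monic (minpoly.irreducible ha) ht (minpoly.monic ha)
  rw [← minpoly.dvd_iff, ← minpoly.dvd_iff, h]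

theorem le_padicAlgCl (l : ℕ) [Fact l.Prime] : 𝔠 ≤ #(PadicAlgCl l) :=
  (continuum_le_cardinal_of_nontriviallyNormedField ℚ_[l]).trans
    (mk_le_of_injective (algebraMap ℚ_[l] (PadicAlgCl l)).injective)

theorem padicAlgCl_le (l : ℕ) [Fact l.Prime] : #(PadicAlgCl l) ≤ 𝔠 := by
  refine (Algebra.IsAlgebraic.cardinalMk_le_max ℚ_[l] _).trans (max_le ?_ aleph0_le_continuum)
  refine mk_quotient_le.trans ((mk_subtype_le _).trans ?_)
  simp

theorem exists_abs {K : Type} [Field K] [CharZero K] (hK : #K ≤ 𝔠) {a : K}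
    (ha : ∀ n, 0 < n → a ^ n ≠ 1) : ∃ v : AbsoluteValue K ℝ, v a ≠ 1 := by
  by_contra! hv
  have key : ∀ (L : Type) [NormedField L] [CharZero L] [IsAlgClosed L], 𝔠 ≤ #L → ∀ t : L,
      (∀ f : ℚ[X], aeval a f = 0 ↔ aeval t f = 0) → ‖t‖ = 1 := fun L _ _ _ hL t h => by
    obtain ⟨σ, rfl⟩ := exists_emb (aleph0_lt_continuum.trans_le hL) (hK.trans hL) a t h
    exact hv ((NormedField.toAbsoluteValue L).comp σ.injective)
  by_cases h : IsAlgebraic ℚ a
  swap
  · have h1 : ∀ t : ℂ, ¬ IsAlgebraic ℚ t → ‖t‖ = 1 := fun t ht => key ℂ mk_complex.ge t fun f =>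
      ⟨fun e => by rw [(transcendental_iff.1 h) f e, map_zero],
        fun e => by rw [(transcendental_iff.1 ht) f e, map_zero]⟩
    have h2 : ¬ IsAlgebraic ℚ ((liouvilleNumber 2 : ℝ) : ℂ) := fun e =>
      transcendental_liouvilleNumber le_rfl ((IsFractionRing.isAlgebraic_iff ℤ ℚ ℝ).2
        ((isAlgebraic_algebraMap_iff (algebraMap ℝ ℂ).injective).1 e))
    generalize ((liouvilleNumber 2 : ℝ) : ℂ) = t at h2
    have h3 := h1 (2 * t) fun e => h2 (by
      simpa using (isAlgebraic_algebraMap (R := ℚ) (A := ℂ) 2⁻¹).mul e)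
    rw [norm_mul, h1 t h2] at h3
    norm_num at h3
  have hi := h.isIntegral
  have h1 : minpoly ℚ a ∈ lifts (algebraMap ℤ ℚ) := (lifts_iff_coeff_lifts _).2 fun n => by
    refine ⟨((minpoly ℚ a).coeff n).num, Rat.coe_int_num_of_den_eq_one ?_⟩
    by_contra h2
    obtain ⟨l, hl, h3⟩ := Nat.exists_prime_and_dvd h2
    have := Fact.mk hl
    let O : Subring (PadicAlgCl l) :=
      { carrier := {x | ‖x‖ ≤ 1}
        mul_mem' := fun hx hy => (norm_mul _ _).trans_le (mul_le_one₀ hx (norm_nonneg _) hy)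
        one_mem' := norm_one.le
        add_mem' := fun hx hy => (IsUltrametricDist.norm_add_le_max _ _).trans (max_le hx hy)
        zero_mem' := norm_zero.trans_le zero_le_one
        neg_mem' := fun hx => (norm_neg _).trans_le hx }
    obtain ⟨y, hy⟩ := (lifts_iff_coeff_lifts _).1 ((IsAlgClosed.splits ((minpoly ℚ a).map
      (algebraMap ℚ (PadicAlgCl l)))).mem_lift_of_roots_mem_range ((minpoly.monic hi).map _)
      O.subtype fun t ht => ⟨⟨t, (key _ (le_padicAlgCl l) t (root_iff hi (by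
        rw [aeval_def, eval₂_eq_eval_map]; exact (mem_roots'.1 ht).2))).le⟩, rfl⟩) n
    have h4 : ‖O.subtype y‖ ≤ 1 := y.2
    rw [hy, coeff_map, IsScalarTower.algebraMap_apply ℚ ℚ_[l], PadicAlgCl.norm_extends] at h4
    have h5 := PadicInt.isUnit_iff.1 (PadicInt.isUnit_den _ h4)
    exact ((PadicInt.norm_int_lt_one_iff_dvd _).2 (Int.natCast_dvd_natCast.2 h3)).ne
      (by simpa using h5)
  obtain ⟨q, hq, -, hq'⟩ := lifts_and_natDegree_eq_and_monic h1 (minpoly.monic hi)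
  have h2 : IsIntegral ℤ a := ⟨q, hq', by
    rw [← aeval_def, ← aeval_map_algebraMap ℚ, hq, minpoly.aeval]⟩
  have := IntermediateField.adjoin.finiteDimensional hi
  have : NumberField (IntermediateField.adjoin ℚ {a}) := ⟨⟩
  obtain ⟨n, hn, h3⟩ := NumberField.Embeddings.pow_eq_one_of_norm_eq_one
    (IntermediateField.adjoin ℚ {a}) ℂ (x := IntermediateField.AdjoinSimple.gen ℚ a)
    ((isIntegral_algebraMap_iff (B := K) Subtype.val_injective).1 h2) fun φ =>
      key ℂ mk_complex.ge _ (root_iff hi (by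
        rw [← IntermediateField.minpoly_gen, ← RingHom.toRatAlgHom_apply, aeval_algHom_apply]
        exact (congrArg _ (minpoly.aeval _ _)).trans (map_zero _)))
  exact ha n hn (congrArg Subtype.val h3)

end Pool.Agent.P.MP_5ee5b4_al
end

-- part Pool.Agent.P.MP_5ee5b4_al.TPing
section

/-! Ping-pong for proximal matrices in general position. -/

namespace Pool.Agent.P.MP_5ee5b4_al

open Matrix
open scoped Function Pointwise

variable {Γ : Type} [Group Γ]

theorem ping_pong {α : Type} [MulAction Γ α] (a : Fin 2 → Γ) (X : Fin 2 → Set α)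
    (h1 : ∀ i, (X i).Nonempty) (h2 : Pairwise (Disjoint on X))
    (h3 : ∀ i j, i ≠ j → ∀ n : ℤ, n ≠ 0 → ∀ x ∈ X j, a i ^ n • x ∈ X i) :
    Function.Injective (FreeGroup.lift a) := by
  have : FreeGroup.lift a = (Monoid.CoprodI.lift fun i => FreeGroup.lift fun _ => a i).comp
      (@freeGroupEquivCoprodI (Fin 2)).toMonoidHom := by
    ext i
    simp
  rw [this, MonoidHom.coe_comp]
  refine Function.Injective.comp ?_ (MulEquiv.injective freeGroupEquivCoprodI)
  refine Monoid.CoprodI.lift_injective_of_ping_pong (H := fun _ => FreeGroup Unit)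
    (fun i => FreeGroup.lift fun _ => a i) (Or.inr ⟨0, ?_⟩) X h1 h2 fun i j hij => ?_
  · rw [FreeGroup.freeGroupUnitEquivInt.cardinal_eq, Cardinal.mk_int]
    exact (Cardinal.natCast_lt_aleph0 (n := 3)).le
  · refine FreeGroup.freeGroupUnitEquivInt.forall_congr_left.mpr fun n hn => ?_
    change FreeGroup.lift (fun _ => a i) (FreeGroup.of () ^ n) • X j ⊆ X i
    rw [map_zpow, FreeGroup.lift_apply_of]
    rintro _ ⟨x, hx, rfl⟩
    exact h3 i j hij n (by rintro rfl; exact hn rfl) x hx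

theorem abs_sum_le {K ι : Type} [Field K] [Fintype ι] (v : AbsoluteValue K ℝ) (t x : ι → K)
    (s : Finset ι) {B C : ℝ} (hB : 0 ≤ B) (hC : ∑ l, v (t l) ≤ C) (h : ∀ l ∈ s, v (x l) ≤ B) :
    v (∑ l ∈ s, t l * x l) ≤ C * B := by
  refine (v.sum_le _ _).trans ((Finset.sum_le_sum (g := fun l => v (t l) * B) fun l hl => ?_).trans ?_)
  · rw [map_mul]
    exact mul_le_mul_of_nonneg_left (h l hl) (v.nonneg _)
  · rw [← Finset.sum_mul]
    exact mul_le_mul_of_nonneg_right ((Finset.sum_le_sum_of_subset_of_nonneg (Finset.subset_univ _)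
      fun _ _ _ => v.nonneg _).trans hC) hB

theorem proximal {K ι : Type} [Field K] [Fintype ι] [DecidableEq ι] (v : AbsoluteValue K ℝ)
    (τ : Γ →* Matrix ι ι K) (g h : Γ) (μ : ι → K) (hμ : ∀ j, μ j ≠ 0) (hg : τ g = diagonal μ)
    (e : Bool → ι) (he : e true ≠ e false) (h1 : ∀ j ≠ e true, v (μ j) < v (μ (e true)))
    (h2 : ∀ j ≠ e false, v (μ (e false)) < v (μ j))
    (hh : ∀ a b, τ h (e a) (e b) ≠ 0 ∧ τ h⁻¹ (e a) (e b) ≠ 0) :
    ∃ f : FreeGroup (Fin 2) →* Γ, Function.Injective f := by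
  let _ : MulAction Γ (ι → K) :=
    { smul := fun γ x => τ γ *ᵥ x
      one_smul := fun x => by change τ 1 *ᵥ x = x; rw [map_one, one_mulVec]
      mul_smul := fun a b x => by change τ _ *ᵥ x = τ a *ᵥ τ b *ᵥ x; rw [map_mul, mulVec_mulVec] }
  have hs : ∀ (γ : Γ) (x : ι → K) i, (γ • x) i = ∑ l, τ γ i l * x l := fun _ _ _ => rfl
  let η : Bool → Γ := fun s => cond s h h⁻¹
  obtain ⟨⟨s0, a0, b0⟩, hm⟩ := Finite.exists_min fun z : Bool × Bool × Bool =>
    v (τ (η z.1) (e z.2.1) (e z.2.2))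
  have : Nonempty ι := ⟨e true⟩
  obtain ⟨⟨s1, i1⟩, hC⟩ := Finite.exists_max fun z : Bool × ι =>
    ∑ l, v (τ (η z.1) z.2 l)
  have hm0 : 0 < v (τ (η s0) (e a0) (e b0)) := v.pos (by cases s0 <;> simp [η, hh])
  have hmC := (Finset.single_le_sum (f := fun l => v (τ (η s0) (e a0) l)) (fun _ _ => v.nonneg _)
    (Finset.mem_univ (e b0))).trans (hC (s0, e a0))
  simp only [Prod.forall] at hm hC hmC
  generalize v (τ (η s0) (e a0) (e b0)) = m at hm hm0 hmC
  generalize ∑ l, v (τ (η s1) i1 l) = C at hC hmC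
  have hC0 : 0 < C := hm0.trans_le hmC
  obtain ⟨δ, hδ⟩ : ∃ δ, C * δ = m / 4 := ⟨m / 4 / C, by field_simp⟩
  have hδ0 : 0 < δ := by by_contra! h; nlinarith
  have hδ1 : δ ≤ 1 := by by_contra! h; nlinarith
  let A : Set (ι → K) := {x | ∃ b, x (e b) ≠ 0 ∧ ∀ j ≠ e b, v (x j) ≤ δ * v (x (e b))}
  let M : Set (ι → K) := {x | ∀ b, x (e b) ≠ 0 ∧ ∀ j, 2 * δ * v (x j) ≤ v (x (e b))}
  have hT : ∀ s, ∀ x ∈ A, η s • x ∈ M := fun s x ⟨b, h3, h4⟩ a => by
    have h5 := v.pos h3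
    have h6 : m * v (x (e b)) ≤ v ((η s • x) (e a)) + m / 4 * v (x (e b)) := by
      have h7 := abs_sum_le v (τ (η s) (e a)) x (Finset.univ.erase (e b))
        (mul_pos hδ0 h5).le (hC s (e a)) fun l hl => h4 l (Finset.ne_of_mem_erase hl)
      have h8 := v.sub_le_add ((η s • x) (e a))
        (∑ l ∈ Finset.univ.erase (e b), τ (η s) (e a) l * x l)
      rw [hs, ← Finset.add_sum_erase _ _ (Finset.mem_univ (e b)), add_sub_cancel_right, map_mul,
        Finset.add_sum_erase _ (fun l => τ (η s) (e a) l * x l) (Finset.mem_univ (e b)),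
        ← hs] at h8
      rw [← mul_assoc, hδ] at h7
      linarith [mul_le_mul_of_nonneg_right (hm s a b) h5.le]
    refine ⟨fun h => ?_, fun j => ?_⟩
    · rw [h, map_zero] at h6
      nlinarith
    · have h7 := abs_sum_le v (τ (η s) j) x Finset.univ h5.le (hC s j) fun l _ => by
        by_cases hl : l = e b
        · rw [hl]
        · exact (h4 l hl).trans (mul_le_of_le_one_left h5.le hδ1)
      rw [← hs] at h7
      nlinarith
  let γ : Bool → Γ := fun b => cond b g g⁻¹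
  let ν : Bool → ι → K := fun b j => cond b (μ j) (μ j)⁻¹
  have hν : ∀ b, τ (γ b) = diagonal (ν b) := fun b => by
    cases b
    · have : τ g⁻¹ * (τ g * diagonal fun j => (μ j)⁻¹) = diagonal fun j => (μ j)⁻¹ := by
        rw [← mul_assoc, ← map_mul, inv_mul_cancel, map_one, one_mul]
      rw [hg, diagonal_mul_diagonal] at this
      change τ g⁻¹ = diagonal fun j => (μ j)⁻¹
      simpa [hμ] using this
    · exact hg
  have hν0 : ∀ b j, ν b j ≠ 0 := fun b j => by cases b <;> simp [ν, hμ]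
  have hν1 : ∀ b, ∀ j ≠ e b, v (ν b j) / v (ν b (e b)) < 1 := fun b j hj => by
    rw [div_lt_one (v.pos (hν0 _ _))]
    cases b
    · simpa [ν] using inv_strictAnti₀ (v.pos (hμ _)) (h2 j hj)
    · exact h1 j hj
  obtain ⟨k, hk⟩ : ∃ k : ℕ, ∀ n ≥ k, ∀ b, ∀ j ≠ e b,
      (v (ν b j) / v (ν b (e b))) ^ n ≤ 2 * δ * δ := by
    refine Filter.eventually_atTop.1 (Filter.eventually_all.2 fun b =>
      Filter.eventually_all.2 fun j => Filter.eventually_imp_distrib_left.2 fun hj => ?_)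
    exact (tendsto_pow_atTop_nhds_zero_of_lt_one (by positivity) (hν1 b j hj)).eventually_le_const
      (by positivity)
  have hG : ∀ n : ℤ, n ≠ 0 → ∀ x ∈ M, (g ^ (k + 1)) ^ n • x ∈ A := fun n hn x hx => by
    obtain ⟨b, N, hN, h3⟩ : ∃ b N, k ≤ N ∧ (g ^ (k + 1)) ^ n = γ b ^ N := by
      obtain ⟨n, rfl | rfl⟩ := n.eq_nat_or_neg
      · exact ⟨true, (k + 1) * n, by nlinarith [Int.natCast_pos.1 (by omega : (0 : ℤ) < n)], by
          simp [γ, pow_mul]⟩
      · exact ⟨false, (k + 1) * n, by nlinarith [Int.natCast_pos.1 (by omega : (0 : ℤ) < n)], by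
          simp [γ, pow_mul]⟩
    have h4 : ∀ j, (γ b ^ N • x) j = ν b j ^ N * x j := fun j => by
      change (τ _ *ᵥ x) j = _
      rw [map_pow, hν, diagonal_pow, mulVec_diagonal, Pi.pow_apply]
    rw [h3]
    refine ⟨b, by simp [h4, hν0, (hx b).1], fun j hj => ?_⟩
    have h5 := hk N hN b j hj
    have h6 := (hx b).2 j
    have h7 := pow_pos (v.pos (hν0 b (e b))) N
    rw [div_pow, div_le_iff₀ h7] at h5
    simp only [h4, map_mul, map_pow]
    calc _ ≤ 2 * δ * δ * v (ν b (e b)) ^ N * v (x j) := mul_le_mul_of_nonneg_right h5 (v.nonneg _)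
      _ = δ * (v (ν b (e b)) ^ N * (2 * δ * v (x j))) := by ring
      _ ≤ _ := by gcongr
  have hA : A.Nonempty := ⟨Pi.single (e true) 1, true, by simp, fun j hj => by simp [hj, hδ0.le]⟩
  have hd : Disjoint A (h • A) := Set.disjoint_left.2 fun x ⟨b, h3, h4⟩ ⟨y, hy, h5⟩ => by
    have h6 : x ∈ M := h5 ▸ hT true y hy
    have h7 := h4 (e !b) (by cases b <;> simp [he, he.symm])
    have h8 := (h6 !b).2 (e b)
    nlinarith [mul_pos hδ0 (v.pos h3)]
  refine ⟨_, ping_pong ![g ^ (k + 1), h * g ^ (k + 1) * h⁻¹] ![A, h • A]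
    (Fin.forall_fin_two.2 ⟨hA, hA.smul_set⟩) ?_ ?_⟩
  · exact fun i j hij => by fin_cases i <;> fin_cases j <;> simp_all [Function.onFun, hd.symm]
  · refine Fin.forall_fin_two.2 ⟨Fin.forall_fin_two.2 ⟨fun h => absurd rfl h, ?_⟩,
      Fin.forall_fin_two.2 ⟨fun _ n hn x hx => ?_, fun h => absurd rfl h⟩⟩
    · rintro - n hn _ ⟨y, hy, rfl⟩
      exact hG n hn _ (hT true y hy)
    · refine ⟨_, hG n hn _ (hT false x hx), ?_⟩
      simp [η, mul_smul]

end Pool.Agent.P.MP_5ee5b4_al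
end

-- part Pool.Agent.P.MP_5ee5b4_al.TLin
section

/-! A Tits alternative in dimension at most three. -/

namespace Pool.Agent.P.MP_5ee5b4_al

open Module
open scoped commutatorElement

variable {Γ K : Type} [Group Γ] [Field K]

theorem cover {W : Type} [AddCommGroup W] [Module K W] [Module.Finite K W]
    (π : Representation K Γ W) (w : W) (F : Finset (Submodule K W))
    (hF : ∀ γ, ∃ Z ∈ F, π γ w ∈ Z) :
    ∃ Z ∈ F, ∃ H : Subgroup Γ, H.FiniteIndex ∧ ∃ γ, ∀ h ∈ H, π (h * γ) w ∈ Z := by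
  classical
  let _ : MulAction Γ (Submodule K W) :=
    { smul := fun δ Z => Z.map (π δ)
      one_smul := fun Z => by change Z.map (π 1) = Z; rw [map_one]; exact Z.map_id
      mul_smul := fun a b Z => by
        change Z.map (π _) = (Z.map (π b)).map (π a)
        rw [map_mul]; exact Z.map_comp _ _ }
  let G : Submodule K W → Prop := fun Z =>
    ∃ H : Subgroup Γ, H.FiniteIndex ∧ ∃ γ, ∀ h ∈ H, π (h * γ) w ∈ Z
  suffices h : ∀ d, ∀ F : Finset (Submodule K W), (∀ Z ∈ F, ¬ G Z ∧ finrank K Z < d) →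
      ¬ ∀ γ, ∃ Z ∈ F, π γ w ∈ Z by
    by_contra! h'
    refine h (finrank K W + 1) F (fun Z hZ => ⟨fun ⟨H, h1, γ, h2⟩ => ?_,
      Nat.lt_succ_of_le Z.finrank_le⟩) hF
    obtain ⟨x, h3, h4⟩ := h' Z hZ H h1 γ
    exact h4 (h2 x h3)
  intro d
  induction d with
  | zero => exact fun F h h' => let ⟨Z, h1, _⟩ := h' 1; Nat.not_lt_zero _ (h Z h1).2
  | succ d ih =>
    suffices h : ∀ T : Finset (Submodule K W), (∀ Z ∈ T, ¬ G Z ∧ finrank K Z < d + 1) →
        ∀ F : Finset (Submodule K W), (∀ Z ∈ F, ¬ G Z ∧ finrank K Z < d) →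
        ¬ ∀ γ, ∃ Z ∈ T ∪ F, π γ w ∈ Z from fun T hT => by simpa using h T hT ∅ (by simp)
    intro T
    induction T using Finset.induction_on with
    | empty => exact fun _ F hF => by simpa using ih F hF
    | insert Z T _ ih' =>
      intro hT F hF h
      obtain ⟨h1, h2⟩ := hT Z (Finset.mem_insert_self _ _)
      have h3 := ih' fun Z h => hT Z (Finset.mem_insert_of_mem h)
      obtain ⟨γ, hγ⟩ : ∃ γ, π γ w ∈ Z := by
        by_contra! h4
        refine h3 F hF fun γ => ?_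
        obtain ⟨Y, h5, h6⟩ := h γ
        rw [Finset.insert_union, Finset.mem_insert] at h5
        exact ⟨Y, h5.resolve_left fun e => h4 γ (e ▸ h6), h6⟩
      obtain ⟨δ, hδ⟩ : ∃ δ : Γ, δ • Z ∉ insert Z T ∪ F := by
        by_contra! h4
        refine h1 ⟨MulAction.stabilizer Γ Z, ⟨?_⟩, γ, fun x hx => ?_⟩
        · rw [MulAction.index_stabilizer]
          exact Set.ncard_ne_zero_of_mem (MulAction.mem_orbit_self Z)
            ((Finset.finite_toSet _).subset (by rintro _ ⟨δ, rfl⟩; exact h4 δ))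
        · rw [map_mul, ← show x • Z = Z from hx]
          exact ⟨_, hγ, rfl⟩
      refine h3 (F ∪ (insert Z T ∪ F).image fun Y => Z ⊓ Y.comap (π δ)) (fun Y hY => ?_) fun x => ?_
      · rcases Finset.mem_union.1 hY with hY | hY
        · exact hF Y hY
        obtain ⟨Y, hY', rfl⟩ := Finset.mem_image.1 hY
        refine ⟨fun ⟨H, h4, y, h5⟩ => h1 ⟨H, h4, y, fun a ha => (h5 a ha).1⟩, ?_⟩
        by_contra! h4
        have h5 : Z ⊓ Y.comap (π δ) = Z := Submodule.eq_of_le_of_finrank_le inf_le_left (by omega)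
        have h6 : finrank K Y ≤ d := by
          rcases Finset.mem_union.1 hY' with hY | hY
          · exact Nat.le_of_lt_succ (hT Y hY).2
          · exact (hF Y hY).2.le
        have h7 : finrank K (Z.map (π δ)) = finrank K Z := (Submodule.equivMapOfInjective _
          (Function.LeftInverse.injective (g := π δ⁻¹) fun v => by simp) Z).finrank_eq.symm
        have h8 : Z.map (π δ) = Y := Submodule.eq_of_le_of_finrank_le
          (Submodule.map_le_iff_le_comap.2 (inf_eq_left.1 h5)) (by rw [h5] at h4; omega)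
        exact hδ (show Z.map (π δ) ∈ _ from h8 ▸ hY')
      · obtain ⟨Y, h5, h6⟩ := h x
        rw [Finset.insert_union, Finset.mem_insert] at h5
        rcases h5 with rfl | h5
        · obtain ⟨Y', h7, h8⟩ := h (δ * x)
          rw [map_mul] at h8
          exact ⟨_, Finset.mem_union_right _ (Finset.mem_union_right _
            (Finset.mem_image_of_mem _ h7)), h6, h8⟩
        · exact ⟨Y, by rw [← Finset.union_assoc]; exact Finset.mem_union_left _ h5, h6⟩

variable {V : Type} [AddCommGroup V] [Module K V] [Module.Finite K V]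

/-- the subgroup acts irreducibly -/
def Irr (ρ : Representation K Γ V) (H : Subgroup Γ) : Prop :=
  ∀ W : Submodule K V, (∀ h ∈ H, W ≤ W.comap (ρ h)) → W = ⊥ ∨ W = ⊤

theorem burnside [IsAlgClosed K] [Nontrivial V] (ρ : Representation K Γ V) (h : Irr ρ ⊤)
    (c : K) (hc : ∀ g, LinearMap.trace K V (ρ g) = c) (g : Γ) : ρ g = 1 := by
  classical
  let A := ρ.asAlgebraHom.range
  have : IsSimpleModule A V := (isSimpleModule_iff _ _).2
    { eq_bot_or_eq_top := fun N => by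
        simpa using h (N.restrictScalars K) fun x _ v hv =>
          N.smul_mem (⟨ρ x, MonoidAlgebra.of K Γ x, ρ.asAlgebraHom_of x⟩ : A) hv }
  have h1 : ∀ T : End K V, T ∈ A := fun T => by
    let b := Module.finBasis K V
    obtain ⟨r, hr⟩ := jacobson_density (R := A) (M := V)
      { T with
        map_smul' := fun φ m => by
          obtain ⟨t, rfl⟩ := (IsSimpleModule.algebraMap_end_bijective_of_isAlgClosed K).2 φ
          exact T.map_smul t m } (Finset.univ.image b)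
    exact (b.ext fun i => hr _ (Finset.mem_image_of_mem _ (Finset.mem_univ i)) : T = r.1) ▸ r.2
  have h2 : ∀ T : End K V, LinearMap.trace K V ((ρ g - 1) * T) = 0 := fun T => by
    obtain ⟨r, rfl⟩ := h1 T
    induction r using MonoidAlgebra.induction_on with
    | of x =>
      change LinearMap.trace K V ((ρ g - 1) * ρ.asAlgebraHom _) = 0
      rw [ρ.asAlgebraHom_of, sub_mul, ← map_mul, one_mul, map_sub, hc, hc, sub_self]
    | add a b ha hb => rw [map_add, mul_add, map_add, ha, hb, add_zero]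
    | smul t a ha =>
      change LinearMap.trace K V ((ρ g - 1) * ρ.asAlgebraHom _) = 0 at ha ⊢
      rw [map_smul, mul_smul_comm, map_smul, ha, smul_zero]
  refine sub_eq_zero.1 (LinearMap.ext fun v => (Module.forall_dual_apply_eq_zero_iff K _).1
    fun f => ?_)
  rw [← h2 (f.smulRight v), ← LinearMap.trace_smulRight]
  exact congrArg _ (LinearMap.ext fun u => by simp)

omit [Module.Finite K V] in
theorem Irr.vanish {ρ : Representation K Γ V} {H : Subgroup Γ} (h : Irr ρ H) (f : Dual K V) {u : V}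
    (hu : u ≠ 0) (hf : ∀ x ∈ H, f (ρ x u) = 0) (v : V) : f v = 0 := by
  rcases h (⨅ x : H, LinearMap.ker (f ∘ₗ ρ x)) fun x hx v hv => by
    simp only [Submodule.mem_comap, Submodule.mem_iInf, LinearMap.mem_ker,
      LinearMap.comp_apply] at hv ⊢
    exact fun y => by simpa using hv (y * ⟨x, hx⟩) with h | h
  · exact absurd (h.le (Submodule.mem_iInf _ |>.2 fun x => hf x x.2)) hu
  · simpa using (Submodule.mem_iInf _).1 (h.ge (Submodule.mem_top (x := v))) 1

theorem free_of_eigen (ρ : Representation K Γ V) (h : ∀ H : Subgroup Γ, H.FiniteIndex → Irr ρ H)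
    (v : AbsoluteValue K ℝ) {ι : Type} [Fintype ι] (hι : Fintype.card ι = finrank K V) (g : Γ)
    (μ : ι → K) (h0 : Function.Injective μ) (hμ : ∀ j, End.HasEigenvalue (ρ g) (μ j))
    (e : Bool → ι) (h1 : 1 < v (μ (e true))) (h2 : μ (e false) = (μ (e true))⁻¹)
    (h3 : ∀ j, j ≠ e true → j ≠ e false → μ j = 1) :
    ∃ f : FreeGroup (Fin 2) →* Γ, Function.Injective f := by
  classical
  have : Nonempty ι := ⟨e true⟩
  choose x hx using fun j => (hμ j).exists_hasEigenvector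
  let b := basisOfLinearIndependentOfCardEqFinrank
    (End.eigenvectors_linearIndependent' _ μ h0 x hx) hι
  have hb : ∀ j, ρ g (b j) = μ j • b j := fun j => by simpa [b] using (hx j).apply_eq_smul
  have h4 : v (μ (e false)) < 1 := by rw [h2, map_inv₀]; exact inv_lt_one_of_one_lt₀ h1
  have h5 : μ (e true) ≠ 0 := v.pos_iff.1 (by linarith)
  let π : Representation K Γ (End K V × End K V) :=
    { toFun := fun γ => (LinearMap.mulLeft K (ρ γ)).prodMap (LinearMap.mulRight K (ρ γ⁻¹))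
      map_one' := LinearMap.ext fun _ => by simp
      map_mul' := fun _ _ => LinearMap.ext fun _ => by simp [mul_assoc] }
  let φ : Bool × Bool → Dual K (End K V) := fun z =>
    b.coord (e z.1) ∘ₗ LinearMap.applyₗ (b (e z.2))
  obtain ⟨y, hy⟩ : ∃ y, ∀ a c, φ (a, c) (ρ y) ≠ 0 ∧ φ (a, c) (ρ y⁻¹) ≠ 0 := by
    by_contra! h6
    obtain ⟨Z, hZ, H, h7, γ, h8⟩ := cover π (1, 1)
      (Finset.univ.image (fun z => LinearMap.ker (φ z ∘ₗ LinearMap.fst _ _ _)) ∪
        Finset.univ.image fun z => LinearMap.ker (φ z ∘ₗ LinearMap.snd _ _ _)) fun γ => by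
      obtain ⟨a, c, h7⟩ := h6 γ
      by_cases h8 : φ (a, c) (ρ γ) = 0
      · exact ⟨_, Finset.mem_union_left _ (Finset.mem_image_of_mem _ (Finset.mem_univ (a, c))),
          by simpa [π] using h8⟩
      · exact ⟨_, Finset.mem_union_right _ (Finset.mem_image_of_mem _ (Finset.mem_univ (a, c))),
          by simpa [π] using h7 h8⟩
    rcases Finset.mem_union.1 hZ with hZ | hZ <;> obtain ⟨z, -, rfl⟩ := Finset.mem_image.1 hZ
    · simpa using (h H h7).vanish (b.coord (e z.1)) (u := ρ γ (b (e z.2)))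
        (fun e' => b.ne_zero (e z.2) (by simpa using congrArg (ρ γ⁻¹) e'))
        (fun x hx => by simpa [π, φ] using h8 x hx) (b (e z.1))
    · simpa using (h H h7).vanish (b.coord (e z.1) ∘ₗ ρ γ⁻¹) (b.ne_zero (e z.2))
        (fun x hx => by simpa [π, φ] using h8 x⁻¹ (H.inv_mem hx)) (ρ γ (b (e z.1)))
  refine proximal v ((LinearMap.toMatrixAlgEquiv b).toMonoidHom.comp ρ) g y μ (fun j => ?_)
    (Matrix.ext fun i j => ?_) e (fun h => by rw [h] at h1; linarith) (fun j hj => ?_)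
    (fun j hj => ?_) fun a c => by simpa [φ, LinearMap.toMatrixAlgEquiv_apply] using hy a c
  · exact fun h => b.ne_zero j (by simpa [h] using congrArg (ρ g⁻¹) (hb j))
  · by_cases h : i = j <;> simp [LinearMap.toMatrixAlgEquiv_apply, hb, h]
  · by_cases h : j = e false
    · rw [h]; linarith
    · rwa [h3 j hj h, map_one]
  · by_cases h : j = e true
    · rw [h]; linarith
    · rwa [h3 j h hj, map_one]

/-- all subgroups of finite index have finite abelianization -/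
def AB (Γ : Type) [Group Γ] : Prop := ∀ H : Subgroup Γ, H.FiniteIndex → ⁅H, H⁆.FiniteIndex

/-- no free subgroup of rank two -/
def NF2 (Γ : Type) [Group Γ] : Prop := ¬ ∃ f : FreeGroup (Fin 2) →* Γ, Function.Injective f

theorem fi_map {H : Subgroup Γ} (hH : H.FiniteIndex) {L : Subgroup H} (hL : L.FiniteIndex) :
    (L.map H.subtype).FiniteIndex := ⟨by
  rw [Subgroup.index_map_of_injective _ H.subtype_injective, Subgroup.range_subtype]
  exact mul_ne_zero hL.index_ne_zero hH.index_ne_zero⟩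

theorem AB.sub (h : AB Γ) {H : Subgroup Γ} (hH : H.FiniteIndex) : AB H := fun L hL => by
  have := h _ (fi_map hH hL)
  rw [← Subgroup.map_commutator] at this
  rw [← Subgroup.comap_map_eq_self_of_injective H.subtype_injective ⁅L, L⁆]
  exact Subgroup.instFiniteIndex_subgroupOf _ _

theorem AB.ker (h : AB Γ) {M : Type} [Monoid M] (f : Γ →* M) {H : Subgroup Γ} (hH : H.FiniteIndex)
    (hf : ∀ a ∈ H, ∀ b ∈ H, f a * f b = f b * f a) : f.ker.FiniteIndex :=
  have := h H hH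
  Subgroup.finiteIndex_of_le (H := ⁅H, H⁆) (Subgroup.commutator_le.2 fun a ha b hb => by
    rw [MonoidHom.mem_ker, commutatorElement_def, map_mul, map_mul, map_mul, hf a ha b hb,
      ← map_mul, ← map_mul, ← map_mul]
    simp)

theorem NF2.sub (h : NF2 Γ) (H : Subgroup Γ) : NF2 H := fun ⟨f, hf⟩ =>
  h ⟨H.subtype.comp f, H.subtype_injective.comp hf⟩

theorem tits [IsAlgClosed K] [CharZero K] (hK : Cardinal.mk K ≤ Cardinal.continuum) (n : ℕ) :
    ∀ (Γ V : Type) [Group Γ] [AddCommGroup V] [Module K V] [Module.Finite K V],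
      finrank K V = n → n ≤ 3 → AB Γ → NF2 Γ → ∀ ρ : Representation K Γ V,
      (∀ x (ζ : K) m, 0 < m → ζ ^ m = 1 → ζ ≠ 1 → Function.Injective (ρ x - ζ • 1 : End K V)) →
      (n = 3 → ∀ x, End.HasEigenvalue (ρ x) 1) → (MonoidHom.ker ρ).FiniteIndex := by
  classical
  induction n using Nat.strong_induction_on with | h n ih
  intro Γ V _ _ _ _ hn h3 hA hF ρ hE h1
  have up : ∀ H : Subgroup Γ, H.FiniteIndex → (MonoidHom.ker (ρ.comp H.subtype)).FiniteIndex →
      (MonoidHom.ker ρ).FiniteIndex := fun H hH h =>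
    have := fi_map hH h
    Subgroup.finiteIndex_of_le (H := (MonoidHom.ker (ρ.comp H.subtype)).map H.subtype)
      (by rintro _ ⟨x, hx, rfl⟩; exact hx)
  by_cases hI : ∀ H : Subgroup Γ, H.FiniteIndex → Irr ρ H
  swap
  · simp only [Irr, not_forall, not_or] at hI
    obtain ⟨H, hH, W, hW, h4, h5⟩ := hI
    have h6 : finrank K W < n := hn ▸ Submodule.finrank_lt h5
    have h7 : finrank K (V ⧸ W) < n := by
      have := W.finrank_quotient_add_finrank
      have := Submodule.finrank_eq_zero.not.2 h4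
      omega
    let σ := Representation.subrepresentation (ρ.comp H.subtype) W fun x => hW x x.2
    let τ := Representation.quotient (ρ.comp H.subtype) W fun x => hW x x.2
    have h8 := ih _ h6 H W rfl (by omega) (hA.sub hH) (hF.sub H) σ
      (fun x ζ m a b c u v e => Subtype.ext (hE x ζ m a b c (congrArg Subtype.val e)))
      (by omega)
    have h9 := ih _ h7 H (V ⧸ W) rfl (by omega) (hA.sub hH) (hF.sub H) τ
      (fun x ζ m a b c => LinearMap.injective_iff_surjective.2 fun u => by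
        obtain ⟨u, rfl⟩ := W.mkQ_surjective u
        obtain ⟨u, rfl⟩ := LinearMap.injective_iff_surjective.1 (hE x ζ m a b c) u
        exact ⟨W.mkQ u, rfl⟩) (by omega)
    have h10 : ∀ a ∈ MonoidHom.ker σ ⊓ MonoidHom.ker τ, ∀ b ∈ MonoidHom.ker σ ⊓ MonoidHom.ker τ,
        ∀ v, ρ a (ρ b v - v) = ρ b v - v := fun a ha b hb v =>
      congrArg Subtype.val (LinearMap.congr_fun ha.1
        ⟨_, (Submodule.Quotient.eq W).1 (LinearMap.congr_fun hb.2 (W.mkQ v))⟩)
    refine up H hH ((hA.sub hH).ker _ (H := MonoidHom.ker σ ⊓ MonoidHom.ker τ) inferInstance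
      fun a ha b hb => LinearMap.ext fun v => ?_)
    have h11 := h10 a ha b hb v
    have h12 := h10 b hb a ha v
    rw [map_sub, sub_eq_iff_eq_add] at h11 h12
    exact h11.trans (Eq.trans (by abel) h12.symm)
  rcases subsingleton_or_nontrivial V with hV | hV
  · exact Subgroup.finiteIndex_of_le (H := ⊤) fun x _ => Subsingleton.elim _ _
  have hD := hA.ker (LinearMap.det.comp ρ) (H := ⊤) inferInstance fun _ _ _ _ => mul_comm _ _
  have hc : ∀ x, (ρ x).charpoly.roots.card = n := fun x => by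
    rw [← (IsAlgClosed.splits _).natDegree_eq_card_roots, LinearMap.charpoly_natDegree, hn]
  have hr : ∀ x a, a ∈ (ρ x).charpoly.roots ↔ End.HasEigenvalue (ρ x) a := fun x a => by
    rw [End.hasEigenvalue_iff_isRoot_charpoly, Polynomial.mem_roots (LinearMap.charpoly_monic _).ne_zero]
  by_cases hu : ∀ x ∈ (LinearMap.det.comp ρ).ker, ∀ a ∈ (ρ x).charpoly.roots, a = 1
  · refine up _ hD (Subgroup.finiteIndex_of_le (H := ⊤) fun x _ => burnside _
      (fun W hW => hI _ hD W fun y hy => hW ⟨y, hy⟩ trivial) n (fun y => ?_) x)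
    change LinearMap.trace K V (ρ y) = n
    rw [End.trace_eq_sum_roots_charpoly_of_splits (IsAlgClosed.splits _),
      Multiset.eq_replicate.2 ⟨hc y, hu y y.2⟩]
    simp
  push Not at hu
  obtain ⟨g, hg, a, ha, ha1⟩ := hu
  have hp : (ρ g).charpoly.roots.prod = 1 :=
    (End.det_eq_prod_roots_charpoly_of_splits (IsAlgClosed.splits _)).symm.trans hg
  have ht : ∀ a ∈ (ρ g).charpoly.roots, a ≠ 1 → ∀ m, 0 < m → a ^ m ≠ 1 := fun a ha ha1 m hm h => by
    obtain ⟨v, hv⟩ := ((hr g a).1 ha).exists_hasEigenvector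
    exact hv.2 (hE g a m hm h ha1 (by simp [hv.apply_eq_smul]))
  have hi : ∀ a ∈ (ρ g).charpoly.roots, a ≠ 1 → a ≠ 0 ∧ 2 ≤ n ∧ a⁻¹ ∈ (ρ g).charpoly.roots := by
    intro a ha ha1
    obtain ⟨R, hR⟩ := Multiset.exists_cons_of_mem ha
    have h4 := hc g
    have h5 := fun h => (hr g 1).2 (h1 h g)
    rw [hR] at h4 h5 hp ⊢
    rw [Multiset.prod_cons] at hp
    rw [Multiset.card_cons] at h4
    refine ⟨left_ne_zero_of_mul_eq_one hp, ?_⟩
    obtain h | h | h : R.card = 0 ∨ R.card = 1 ∨ R.card = 2 := by omega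
    · rw [Multiset.card_eq_zero.1 h] at hp
      exact absurd (by simpa using hp) ha1
    · obtain ⟨b, rfl⟩ := Multiset.card_eq_one.1 h
      exact ⟨by omega, by simp [← eq_inv_of_mul_eq_one_right (by simpa using hp : a * b = 1)]⟩
    · obtain ⟨S, rfl⟩ := Multiset.exists_cons_of_mem
        ((Multiset.mem_cons.1 (h5 (by omega))).resolve_left ha1.symm)
      obtain ⟨b, rfl⟩ := Multiset.card_eq_one.1 (by simpa using h : S.card = 1)
      exact ⟨by omega, by simp [← eq_inv_of_mul_eq_one_right (by simpa using hp : a * b = 1)]⟩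
  obtain ⟨v, hv⟩ := exists_abs hK (ht a ha ha1)
  obtain ⟨c, hc1, hc2⟩ : ∃ c ∈ (ρ g).charpoly.roots, 1 < v c := by
    rcases lt_or_gt_of_ne hv with h | h
    · exact ⟨_, (hi a ha ha1).2.2, by
        rw [map_inv₀]; exact (one_lt_inv₀ (v.pos (hi a ha ha1).1)).2 h⟩
    · exact ⟨a, ha, h⟩
  have hc3 : c ≠ 1 := fun h => by simp [h] at hc2
  obtain ⟨hc4, hc5, hc6⟩ := hi c hc1 hc3
  have hc7 : c ≠ c⁻¹ := fun h => ht c hc1 hc3 2 two_pos (by
    rw [sq]; nth_rw 2 [h]; exact mul_inv_cancel₀ hc4)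
  refine absurd ?_ hF
  obtain rfl | rfl : n = 2 ∨ n = 3 := by omega
  · refine free_of_eigen ρ hI v (ι := Fin 2) (by simp [hn]) g ![c, c⁻¹]
      (List.nodup_ofFn.1 (by simp [hc7])) (Fin.forall_fin_two.2 ⟨(hr g _).1 hc1, (hr g _).1 hc6⟩)
      (fun b => cond b 0 1) hc2 rfl fun j h h' => ?_
    fin_cases j
    exacts [absurd rfl h, absurd rfl h']
  · refine free_of_eigen ρ hI v (ι := Fin 3) (by simp [hn]) g ![c, c⁻¹, 1]
      (List.nodup_ofFn.1 (by simp [hc7, hc3])) (fun j => ?_) (fun b => cond b 0 1) hc2 rfl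
      fun j h h' => ?_
    · fin_cases j
      exacts [(hr g _).1 hc1, (hr g _).1 hc6, h1 rfl g]
    · fin_cases j
      exacts [absurd rfl h, absurd rfl h', rfl]

end Pool.Agent.P.MP_5ee5b4_al
end

-- part Pool.Agent.P.MP_5ee5b4_al.TPg
section

/-! The Frattini tower and finite groups of prime power order. -/

namespace Pool.Agent.P.MP_5ee5b4_al

open Subgroup
open scoped commutatorElement

variable {Γ Q : Type} [Group Γ] [Group Q] {p : ℕ}

/-- commutators and powers -/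
def Fr (p : ℕ) (V : Subgroup Γ) : Subgroup Γ := ⁅V, V⁆ ⊔ closure ((· ^ p) '' V)

theorem Fr_le_iff {V W : Subgroup Γ} : Fr p V ≤ W ↔ ⁅V, V⁆ ≤ W ∧ ∀ x ∈ V, x ^ p ∈ W := by
  simp [Fr, Set.subset_def]

theorem Fr_le (V : Subgroup Γ) : Fr p V ≤ V :=
  Fr_le_iff.2 ⟨V.commutator_le_self, fun _ h => V.pow_mem h _⟩

theorem pow_mem_Fr {V : Subgroup Γ} {x : Γ} (h : x ∈ V) : x ^ p ∈ Fr p V :=
  (Fr_le_iff.1 le_rfl).2 x h

theorem Fr_mono {V W : Subgroup Γ} (h : V ≤ W) : Fr p V ≤ Fr p W :=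
  Fr_le_iff.2 ⟨(commutator_mono h h).trans le_sup_left, fun _ hx => pow_mem_Fr (h hx)⟩

theorem Fr_map (f : Γ →* Q) (V : Subgroup Γ) : (Fr p V).map f = Fr p (V.map f) := by
  simp only [Fr, Subgroup.map_sup, map_commutator, MonoidHom.map_closure, coe_map, Set.image_image,
    map_pow]

instance Fr_normal (V : Subgroup Γ) [h : V.Normal] : (Fr p V).Normal := ⟨fun n hn g =>
  Fr_mono (V := V.map (MulAut.conj g).toMonoidHom) (by rintro _ ⟨x, hx, rfl⟩; exact h.1 x hx g)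
    ((Fr_map (MulAut.conj g).toMonoidHom V).le ⟨n, hn, rfl⟩)⟩

/-- the Frattini tower -/
def It (p : ℕ) (V : Subgroup Γ) : ℕ → Subgroup Γ
  | 0 => V
  | i + 1 => Fr p (It p V i)

instance It_normal (V : Subgroup Γ) [h : V.Normal] : ∀ i, (It p V i).Normal
  | 0 => h
  | i + 1 => @Fr_normal _ _ _ _ (It_normal V i)

theorem It_add (V : Subgroup Γ) (i : ℕ) : ∀ j, It p (It p V i) j = It p V (i + j)
  | 0 => rfl
  | j + 1 => congrArg (Fr p) (It_add V i j)

theorem It_map (f : Γ →* Q) (V : Subgroup Γ) : ∀ i, (It p V i).map f = It p (V.map f) i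
  | 0 => rfl
  | i + 1 => (Fr_map f _).trans (congrArg (Fr p) (It_map f V i))

theorem It_anti (V : Subgroup Γ) : Antitone (It p V) := antitone_nat_of_succ_le fun _ => Fr_le _

theorem pow_mem_It {V : Subgroup Γ} {x : Γ} (h : x ∈ V) : ∀ i, x ^ p ^ i ∈ It p V i
  | 0 => by rwa [pow_zero, pow_one]
  | i + 1 => by rw [pow_succ, pow_mul]; exact pow_mem_Fr (pow_mem_It h i)

theorem comm_of_bot {S T : Subgroup Γ} (h : ⁅S, T⁆ = ⊥) {x y : Γ} (hx : x ∈ S) (hy : y ∈ T) :
    Commute x y := commutatorElement_eq_one_iff_commute.1 (h.le (commutator_mem_commutator hx hy))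

theorem bot_of_comm {S T : Subgroup Γ} (h : ∀ x ∈ S, ∀ y ∈ T, Commute x y) : ⁅S, T⁆ = ⊥ :=
  eq_bot_iff.2 (commutator_le.2 fun x hx y hy => (h x hx y hy).commutator_eq)

/-- the power map of an abelian subgroup -/
def powHom {S : Subgroup Γ} (h : ⁅S, S⁆ = ⊥) (n : ℕ) : S →* Γ :=
  MonoidHom.mk' (fun x => x ^ n) fun a b => (comm_of_bot h a.2 b.2).mul_pow n

theorem It_ab {S : Subgroup Γ} (h : ⁅S, S⁆ = ⊥) : ∀ l, It p S l = (powHom h (p ^ l)).range
  | 0 => le_antisymm (fun x hx => ⟨⟨x, hx⟩, by simp [powHom]⟩)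
      (by rintro _ ⟨x, rfl⟩; exact pow_mem_It x.2 0)
  | l + 1 => le_antisymm (Fr_le_iff.2 ⟨((commutator_mono (It_anti S l.zero_le)
      (It_anti S l.zero_le)).trans h.le).trans bot_le, fun x hx => by
        obtain ⟨y, rfl⟩ := (It_ab h l).le hx
        exact ⟨y, pow_mul (y : Γ) _ _⟩⟩) (by rintro _ ⟨x, rfl⟩; exact pow_mem_It x.2 _)

theorem card_le_pow [Finite Q] {c : ℕ} (h : ∀ S : Subgroup Q, Fr p S = ⊥ → Nat.card S ≤ c) (k : ℕ) :
    ∀ S : Subgroup Q, ⁅S, S⁆ = ⊥ → (∀ x ∈ S, x ^ p ^ k = 1) → Nat.card S ≤ c ^ k := by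
  induction k with
  | zero =>
    intro S _ h2
    rw [show S = ⊥ from eq_bot_iff.2 fun x hx => by simpa using h2 x hx]
    simp
  | succ k ih =>
    intro S h1 h2
    have h3 : (powHom h1 p).range ≤ S := by rintro _ ⟨x, rfl⟩; exact S.pow_mem x.2 p
    rw [← (powHom h1 p).ker.card_mul_index, index_ker, pow_succ',
      ← card_map_of_injective S.subtype_injective]
    refine Nat.mul_le_mul (h _ (eq_bot_iff.2 (Fr_le_iff.2 ⟨(commutator_mono (map_subtype_le _)
      (map_subtype_le _)).trans h1.le, ?_⟩)))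
      (ih _ (eq_bot_iff.2 ((commutator_mono h3 h3).trans h1.le)) ?_)
    · rintro _ ⟨x, hx, rfl⟩
      exact hx
    · rintro _ ⟨x, rfl⟩
      exact (pow_mul _ _ _).symm.trans (pow_succ' p k ▸ h2 x x.2)

theorem pow_emb [Finite Q] [hQ : Group.IsNilpotent Q] (V : Subgroup Q) (q : ℕ)
    (h : ∀ N : Subgroup Q, N.Normal → ⁅N, N⁆ = ⊥ → (∀ x ∈ N, x ^ q = 1) → ⁅N, V⁆ = ⊥)
    (N : Subgroup Q) : N.Normal → N ≤ V → (∀ x ∈ N, x ^ q = 1) → ⁅N, V⁆ = ⊥ := by
  induction N using WellFoundedLT.induction with | ind N ih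
  intro h1 h2 h3
  refine bot_of_comm fun x hx y hy => ?_
  have h4 : normalClosure {x} ≤ N := normalClosure_le_normal (by simpa)
  rcases h4.lt_or_eq with h5 | h5
  · exact comm_of_bot (ih _ h5 inferInstance (h4.trans h2) fun z hz => h3 z (h4 hz))
      (subset_normalClosure rfl) hy
  rcases (commutator_le_left N ⊤).lt_or_eq with h6 | h6
  · have h7 := ih _ h6 inferInstance (h6.le.trans h2) fun z hz => h3 z (h6.le hz)
    have h8 : ∀ z ∈ N, Commute x z → ∀ u ∈ N, Commute u z := fun z hz e u hu => by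
      refine ((closure_le (centralizer {z})).2 (fun a ha => ?_) (h5.ge hu) z rfl).symm
      obtain ⟨b, hb, ha'⟩ := Group.mem_conjugatesOfSet_iff.1 ha
      obtain ⟨g, rfl⟩ := isConj_iff.1 ha'
      rw [show b = x from hb]
      rintro _ rfl
      rw [show g * x * g⁻¹ = x * ⁅x⁻¹, g⁆ by simp [commutatorElement_def, mul_assoc]]
      exact (e.mul_left (comm_of_bot h7 (commutator_mem_commutator (N.inv_mem hx) trivial)
        (h2 hz))).symm
    exact comm_of_bot (h N h1 (bot_of_comm fun u hu z hz =>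
      h8 z hz (h8 x hx rfl z hz).symm u hu) h3) hx hy
  · obtain ⟨n, hn⟩ := Subgroup.nilpotent_iff_lowerCentralSeries.1 hQ
    have h7 : ∀ n, N ≤ Subgroup.lowerCentralSeries ⊤ n := fun n => by
      induction n with
      | zero => exact le_top
      | succ n ih => exact h6.ge.trans (commutator_mono ih le_rfl)
    rw [show x = 1 from hn.le (h7 n hx)]
    exact Commute.one_left y

variable [hp : Fact p.Prime]

theorem Fr_lt [Finite Q] {S : Subgroup Q} (h : IsPGroup p S) (h' : S ≠ ⊥) : Fr p S < S := by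
  obtain ⟨n, hn, h1⟩ := h.nontrivial_iff_card.1 (S.nontrivial_iff_ne_bot.2 h')
  obtain ⟨n, rfl⟩ := Nat.exists_eq_succ_of_ne_zero hn.ne'
  obtain ⟨M, hM⟩ := Sylow.exists_subgroup_card_pow_prime p (n := n)
    (h1 ▸ pow_dvd_pow p n.le_succ : p ^ n ∣ Nat.card S)
  have h2 : M.index = p := Nat.eq_of_mul_eq_mul_left (pow_pos hp.out.pos n)
    (by rw [← pow_succ, ← h1, ← hM, M.card_mul_index])
  have : M.Normal := normal_of_index_eq_minFac_card (by rw [h1, h2, hp.out.pow_minFac hn.ne'])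
  have : IsCyclic (S ⧸ M) := isCyclic_of_prime_card h2
  refine lt_of_le_of_lt (b := M.map S.subtype) (Fr_le_iff.2 ⟨?_, fun x hx =>
    ⟨⟨x, hx⟩ ^ p, h2 ▸ M.pow_index_mem _, rfl⟩⟩) ((map_subtype_le M).lt_of_ne fun e => ?_)
  · rw [← S.map_subtype_commutator]
    exact map_mono (Normal.quotient_commutative_iff_commutator_le.1 inferInstance)
  · have h3 := card_map_of_injective (K := M) S.subtype_injective
    rw [e, h1, hM] at h3
    exact n.succ_ne_self (Nat.pow_right_injective hp.out.two_le h3)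

theorem It_le_ker [Finite Q] (φ : Γ →* Q) (h : IsPGroup p φ.range) {n : ℕ} (hn : Nat.card Q ≤ n) :
    It p ⊤ n ≤ φ.ker := by
  have h1 : ∀ i, It p φ.range i = ⊥ ∨ Nat.card (It p φ.range i) + i ≤ Nat.card Q := fun i => by
    induction i with
    | zero => exact Or.inr (card_le_card_group _)
    | succ i ih =>
      by_cases h2 : It p φ.range i = ⊥
      · exact Or.inl (eq_bot_iff.2 ((Fr_le _).trans h2.le))
      have h3 := Fr_lt (h.to_le (It_anti _ i.zero_le)) h2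
      have h4 := (card_le_of_le h3.le).lt_of_ne fun e => h3.ne (eq_of_le_of_card_ge h3.le e.ge)
      exact Or.inr (((Nat.succ_add_eq_add_succ _ _).ge.trans (Nat.add_le_add_right h4 i)).trans
        (ih.resolve_left h2))
  rw [← Subgroup.map_eq_bot_iff, It_map, ← MonoidHom.range_eq_map]
  refine (h1 n).resolve_right fun h2 => ?_
  have := Nat.card_pos (α := It p φ.range n)
  omega

theorem sup_zpowers_comm {A : Subgroup Q} (h : ⁅A, A⁆ = ⊥) {z : Q} (hz : z ∈ centralizer A) :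
    ⁅A ⊔ zpowers z, A ⊔ zpowers z⁆ = ⊥ := by
  have h1 := zpowers_le_of_mem hz
  exact commutator_eq_bot_iff_le_centralizer.2 (sup_le
    (le_centralizer_iff.1 (sup_le (commutator_eq_bot_iff_le_centralizer.1 h) h1))
    (le_centralizer_iff.1 (sup_le (le_centralizer_iff.1 h1) (le_centralizer _))))

theorem exists_self_centralizing [Finite Q] [hQ : Group.IsNilpotent Q] : ∃ A : Subgroup Q,
    A.Normal ∧ ⁅A, A⁆ = ⊥ ∧ centralizer A ≤ A := by
  obtain ⟨A, ⟨h1, h2⟩, h3⟩ := exists_maximal_of_wellFoundedGT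
    (fun A : Subgroup Q => A.Normal ∧ ⁅A, A⁆ = ⊥) ⟨⊥, inferInstance, commutator_bot_left _⟩
  obtain ⟨n, hn⟩ := hQ.nilpotent'
  suffices h : ∀ n, ∀ z ∈ Subgroup.upperCentralSeries Q n, z ∈ centralizer (A : Set Q) → z ∈ A from
    ⟨A, h1, h2, fun z hz => h n z (hn.ge trivial) hz⟩
  intro n
  induction n with
  | zero => exact fun z hz _ => (bot_le : ⊥ ≤ A) hz
  | succ n ih =>
    intro z h4 h5
    refine h3 (y := A ⊔ zpowers z) ⟨⟨fun x hx g => ?_⟩, sup_zpowers_comm h2 h5⟩ le_sup_left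
      (mem_sup_right (mem_zpowers z))
    refine (sup_le (fun a ha => mem_sup_left (h1.1 a ha g)) (zpowers_le_of_mem ?_) :
      _ ≤ (A ⊔ zpowers z).comap (MulAut.conj g).toMonoidHom) hx
    change g * z * g⁻¹ ∈ A ⊔ zpowers z
    rw [show g * z * g⁻¹ = ⁅z, g⁆⁻¹ * z by simp [commutatorElement_def, mul_assoc]]
    exact mul_mem_sup (A.inv_mem (ih _ (h4 g)
      (commutator_le_left _ ⊤ (commutator_mem_commutator h5 trivial)))) (mem_zpowers z)

theorem tate {n : ℕ} {s u : ℤ} (h1 : ¬ (p : ℤ) ^ n ∣ s - 1) (h2 : (p : ℤ) ∣ s - 1)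
    (h3 : (p : ℤ) ^ n ∣ u * (s - 1)) (h4 : ∀ t, ¬ (p : ℤ) ^ n ∣ (∑ i ∈ Finset.range p, s ^ i) * t + u) :
    p = 2 ∧ (p : ℤ) ^ n ∣ s + 1 := by
  have hP : Prime (p : ℤ) := Nat.prime_iff_prime_int.1 hp.out
  obtain ⟨a, s', h5, h6⟩ := WfDvdMonoid.max_power_factor' (a₀ := s - 1) (x := (p : ℤ))
    (fun h => h1 (h ▸ dvd_zero _)) hP.not_isUnit
  obtain ⟨c, rfl⟩ : ∃ c, n = a + c + 1 := Nat.exists_eq_add_of_lt
    (not_le.1 fun h => h1 (h6 ▸ (pow_dvd_pow _ h).mul_right _))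
  rw [h6, mul_left_comm, add_assoc, pow_add, mul_dvd_mul_iff_left (pow_ne_zero _ hP.ne_zero)] at h3
  have h7 := hP.pow_dvd_of_dvd_mul_right _ h5 h3
  have h8 : (p : ℤ) ^ (c + 2) ∣ ∑ i ∈ Finset.range p, s ^ i := by
    by_contra h8
    obtain ⟨b, N, h9, h10⟩ := WfDvdMonoid.max_power_factor' (a₀ := ∑ i ∈ Finset.range p, s ^ i)
      (x := (p : ℤ)) (fun h => h8 (h ▸ dvd_zero _)) hP.not_isUnit
    obtain ⟨v, rfl⟩ := (pow_dvd_pow _ (Nat.le_of_lt_succ
      (not_le.1 fun h => h8 (h10 ▸ (pow_dvd_pow _ h).mul_right _)))).trans h7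
    obtain ⟨d, e, h11⟩ := ((hP.coprime_iff_not_dvd.2 h9).pow_left (m := a + c + 1))
    exact h4 (-v * e) ⟨p ^ b * v * d, by rw [h10]; linear_combination (-(p : ℤ) ^ b * v) * h11⟩
  obtain rfl : p = 2 := by
    by_contra h
    have h9 := emultiplicity_geom_sum₂_eq_one hP (hp.out.odd_of_ne_two h) h2
      fun e => hP.not_dvd_one (by simpa using dvd_sub e h2)
    simp only [one_pow, mul_one] at h9
    have h10 := pow_dvd_iff_le_emultiplicity.1 ((pow_dvd_pow _ (by omega : 2 ≤ c + 2)).trans h8)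
    rw [h9] at h10
    exact absurd h10 (by decide)
  rw [Finset.sum_range_succ, Finset.sum_range_one, pow_zero, pow_one, add_comm 1] at h8
  refine ⟨rfl, (pow_dvd_pow _ ?_).trans h8⟩
  by_contra h
  have h9 : ((2 : ℕ) : ℤ) ^ 2 ∣ s - 1 := h6 ▸ (pow_dvd_pow _ (by omega)).mul_right _
  have h10 := (pow_dvd_pow _ (by omega : 2 ≤ c + 2)).trans h8
  omega

theorem almost_cyclic [Finite Q] (hQ : IsPGroup p Q)
    (h : ∀ S : Subgroup Q, Fr p S = ⊥ → Nat.card S ≤ p) :
    ∃ a : Q, ∀ y ∉ zpowers a, p = 2 ∧ ∀ z ∉ zpowers a, y⁻¹ * z ∈ zpowers a := by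
  have := hQ.isNilpotent
  obtain ⟨A, hA, h1, h2⟩ := exists_self_centralizing (Q := Q)
  obtain ⟨a, rfl⟩ : ∃ a, zpowers a = A := by
    let _ : CommGroup A := { (inferInstance : Group A) with
      mul_comm := fun a b => Subtype.ext (comm_of_bot h1 a.2 b.2) }
    obtain ⟨k, hk⟩ := isPGroup_iff_exponent_eq_pow.1 (hQ.to_subgroup A)
    refine (Subgroup.isCyclic_iff_exists_zpowers_eq_top A).1 (IsCyclic.of_exponent_eq_card (le_antisymm
      (Nat.le_of_dvd Nat.card_pos Group.exponent_dvd_nat_card) (hk ▸ card_le_pow h k A h1 ?_)))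
    exact fun x hx => congrArg Subtype.val (hk ▸ Monoid.pow_exponent_eq_one (⟨x, hx⟩ : A))
  have h3 : ∀ x, x * a * x⁻¹ = a → x ∈ zpowers a := fun x hx => h2 (by
    rintro _ ⟨i, rfl⟩
    exact (Commute.zpow_right (mul_inv_eq_iff_eq_mul.1 hx) i).symm)
  obtain ⟨n, hn⟩ := IsPGroup.iff_orderOf.1 hQ a
  have hd : ∀ i j : ℤ, a ^ i = a ^ j ↔ (p : ℤ) ^ n ∣ j - i := fun i j => by
    rw [zpow_eq_zpow_iff_modEq, hn, Int.modEq_iff_dvd, Nat.cast_pow]
  have hc : ∀ (x : Q) (s : ℤ), a ^ s = x * a * x⁻¹ → ∀ (i : ℕ) (t : ℤ),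
      x ^ i * a ^ t = a ^ (s ^ i * t) * x ^ i := fun x s hs i => by
    induction i with
    | zero => simp
    | succ i ih =>
      intro t
      rw [pow_succ', mul_assoc, ih, pow_succ' s, mul_assoc s, zpow_mul a s, hs, conj_zpow]
      simp [mul_assoc]
  have h4 : ∀ x ∉ zpowers a, x ^ p ∈ zpowers a → p = 2 ∧ x * a * x⁻¹ = a⁻¹ := fun x hx ⟨u, hu⟩ => by
    obtain ⟨s, hs⟩ := hA.1 a (mem_zpowers a) x
    dsimp only at hu hs
    have h4 : ¬ (p : ℤ) ^ n ∣ s - 1 := fun e => hx (h3 x (by rw [← hs, ← (hd _ _).2 e, zpow_one]))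
    obtain ⟨n, rfl⟩ := Nat.exists_eq_succ_of_ne_zero (n := n) (by rintro rfl; simp at h4)
    have h5 : (p : ℤ) ∣ s - 1 := by
      have h5 := hc x s hs p 1
      rw [← hu, ← zpow_add, ← zpow_add, hd] at h5
      have h6 := (ZMod.intCast_zmod_eq_zero_iff_dvd _ p).2 ((dvd_pow_self _ n.succ_ne_zero).trans h5)
      refine (ZMod.intCast_zmod_eq_zero_iff_dvd _ p).1 ?_
      push_cast at h6 ⊢
      rw [ZMod.pow_card] at h6
      linear_combination h6
    obtain ⟨h6, h7⟩ := tate h4 h5 (u := u) (by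
      have h6 := hc x s hs 1 u
      rw [pow_one, hu, ← pow_succ', pow_succ, mul_left_inj, ← hu, hd] at h6
      convert h6 using 1
      ring) fun t ht => by
      have h6 : ∀ i : ℕ, (a ^ t * x) ^ i = a ^ ((∑ j ∈ Finset.range i, s ^ j) * t) * x ^ i :=
        fun i => by
          induction i with
          | zero => simp
          | succ i ih => rw [pow_succ, ih, mul_assoc, ← mul_assoc (x ^ i), hc x s hs,
              Finset.sum_range_succ, add_mul, zpow_add, pow_succ, mul_assoc, mul_assoc]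
      have h7 : (a ^ t * x) ^ p = 1 := by
        rw [h6, ← hu, ← zpow_add, ← (hd 0 _).2 (by rwa [sub_zero]), zpow_zero]
      have h8 := sup_zpowers_comm (A := zpowers (a ^ p ^ n)) (z := a ^ t * x)
        (commutator_self_eq_bot_iff.2 inferInstance) (by
          rintro _ ⟨i, rfl⟩
          refine (Commute.zpow_right (Commute.mul_left (((Commute.refl a).zpow_left _).pow_right _)
            ?_) i).symm
          have h8 := hc x s hs 1 (p ^ n : ℕ)
          rwa [pow_one, pow_one, ← (hd (p ^ n : ℕ) (s * (p ^ n : ℕ))).2 (by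
            rw [← sub_one_mul, pow_succ']
            exact mul_dvd_mul h5 (by simp)), zpow_natCast] at h8)
      have h9 : Nat.card (zpowers (a ^ p ^ n)) = p := by
        rw [Nat.card_zpowers, orderOf_pow_of_dvd (pow_pos hp.out.pos n).ne'
          (hn ▸ pow_dvd_pow p n.le_succ), hn, pow_succ, Nat.mul_div_cancel_left _ (pow_pos hp.out.pos n)]
      have h10 := eq_of_le_of_card_ge le_sup_left ((h _ (eq_bot_iff.2 (Fr_le_iff.2 ⟨h8.le,
        fun y hy => ?_⟩))).trans h9.ge)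
      · exact hx ((mul_mem_cancel_left (zpow_mem_zpowers a t)).1 (zpowers_le_of_mem
          (npow_mem_zpowers a _) (h10.ge (mem_sup_right (mem_zpowers _)))))
      obtain ⟨y, h10, rfl⟩ := (sup_le (zpowers_le_of_mem ⟨⟨_, mem_sup_left (mem_zpowers _)⟩, by
        change (a ^ p ^ n) ^ p = 1
        rw [← pow_mul, ← pow_succ, ← hn, pow_orderOf_eq_one], rfl⟩)
        (zpowers_le_of_mem ⟨⟨_, mem_sup_right (mem_zpowers _)⟩, h7, rfl⟩) :
          _ ≤ (powHom h8 p).ker.map (Subgroup.subtype _)) hy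
      exact h10
    exact ⟨h6, by rw [← hs, ← (hd (-1) s).2 (by rwa [sub_neg_eq_add]), zpow_neg_one]⟩
  have h5 : ∀ k, ∀ y ∉ zpowers a, y ^ p ^ k ∈ zpowers a → p = 2 ∧ y * a * y⁻¹ = a⁻¹ := fun k => by
    induction k with
    | zero => exact fun y h1 h2 => absurd (by simpa using h2) h1
    | succ k ih =>
      intro y h6 h7
      refine h4 y h6 (by_contra fun h8 => ?_)
      obtain ⟨rfl, h9⟩ := ih _ h8 (by rwa [← pow_mul, ← pow_succ'])
      obtain ⟨s, hs⟩ := hA.1 a (mem_zpowers a) y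
      have h10 := hc y s hs 2 1
      rw [zpow_one, ← mul_inv_eq_iff_eq_mul, h9, ← zpow_neg_one, hd] at h10
      by_cases h11 : 2 ≤ n
      · have h12 := (pow_dvd_pow _ h11).trans h10
        obtain ⟨m, rfl | rfl⟩ := Int.even_or_odd' s <;> ring_nf at h12 <;> omega
      · refine h8 (h3 _ (h9.trans ?_))
        rw [← zpow_neg_one, ← zpow_one a, ← zpow_mul, hd]
        exact (pow_dvd_pow _ (by omega : n ≤ 1)).trans (by norm_num)
  refine ⟨a, fun y hy => ?_⟩
  have h6 : ∀ y ∉ zpowers a, p = 2 ∧ y * a * y⁻¹ = a⁻¹ := fun y hy =>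
    let ⟨k, hk⟩ := hQ y
    h5 k y hy (hk ▸ one_mem _)
  refine ⟨(h6 y hy).1, fun z hz => h3 _ ?_⟩
  calc _ = y⁻¹ * (z * a * z⁻¹) * y := by group
    _ = a := by rw [(h6 z hz).2, ← (h6 y hy).2]; group

end Pool.Agent.P.MP_5ee5b4_al
end

-- part Pool.Agent.P.MP_5ee5b4_al.TMat
section

/-! Integral matrices of actions on homocyclic groups and their limits. -/

namespace Pool.Agent.P.MP_5ee5b4_al

open Matrix Filter Topology

variable {Γ B : Type} [Group Γ] [AddCommGroup B] {p r k : ℕ} [hp : Fact p.Prime]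

theorem exists_basis (E : Type) [AddCommGroup E] (h0 : ∀ x : E, p • x = 0)
    (h : Nat.card E = p ^ r) : ∃ e : Fin r → E, (∀ y, ∃ a : Fin r → ℤ, y = ∑ i, a i • e i) ∧
      ∀ a : Fin r → ℤ, ∑ i, a i • e i = 0 → ∀ i, (p : ℤ) ∣ a i := by
  obtain ⟨_⟩ : Nonempty (Module (ZMod p) E) := ⟨AddCommGroup.zmodModule h0⟩
  have : Finite E := Nat.finite_of_card_ne_zero (h ▸ pow_ne_zero r hp.out.ne_zero :)
  have h1 := Module.natCard_eq_pow_finrank (K := ZMod p) (V := E)
  rw [Nat.card_zmod] at h1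
  let e := Module.finBasisOfFinrankEq (ZMod p) E
    (Nat.pow_right_injective hp.out.two_le (h1.symm.trans h))
  refine ⟨e, fun y => ⟨fun i => (e.repr y i).cast, ?_⟩, fun a ha i =>
    (ZMod.intCast_zmod_eq_zero_iff_dvd _ p).1 (Fintype.linearIndependent_iff.1 e.linearIndependent
      (fun i => (a i : ZMod p)) (by simpa only [Int.cast_smul_eq_zsmul] using ha) i)⟩
  simp only [← Int.cast_smul_eq_zsmul (ZMod p), ZMod.intCast_cast, ZMod.cast_id', id, e.sum_repr]

theorem exists_coord (hk : ∀ b : B, p ^ k • b = 0)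
    (h1 : (nsmulAddMonoidHom p : B →+ B).range.index = p ^ r)
    (hJ : ∀ l < k, ∀ b : B, (∃ c, p ^ (l + 1) • c = p • b) → ∃ c, p ^ l • c = b) :
    ∃ β : (Fin r → ℤ) →ₗ[ℤ] B, Function.Surjective β ∧
      ∀ l ≤ k, ∀ a, (∃ c, p ^ l • c = β a) → ∀ i, (p : ℤ) ^ l ∣ a i := by
  let N := (nsmulAddMonoidHom p : B →+ B).range
  obtain ⟨e, he, he'⟩ := exists_basis (B ⧸ N) (fun x => by
    obtain ⟨x, rfl⟩ := QuotientAddGroup.mk_surjective x
    exact (QuotientAddGroup.eq_zero_iff _).2 ⟨x, rfl⟩) h1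
  choose x hx using fun i => QuotientAddGroup.mk'_surjective N (e i)
  let β := Fintype.linearCombination ℤ x
  have h3 : ∀ a, QuotientAddGroup.mk' N (β a) = ∑ i, a i • e i := fun a => by
    simp only [β, Fintype.linearCombination_apply, map_sum, map_zsmul, hx]
  have h4 : ∀ l b, ∃ a c, b = β a + p ^ l • c := fun l => by
    induction l with
    | zero => exact fun b => ⟨0, b, by simp⟩
    | succ l ih =>
      intro b
      obtain ⟨a', ha'⟩ := he (QuotientAddGroup.mk' N b)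
      obtain ⟨c, hc⟩ : b - β a' ∈ N := QuotientAddGroup.eq_iff_sub_mem.1 (ha'.trans (h3 a').symm)
      obtain ⟨a, d, rfl⟩ := ih c
      refine ⟨a' + p • a, d, (eq_add_of_sub_eq' hc.symm).trans ?_⟩
      rw [nsmulAddMonoidHom_apply, map_add, map_nsmul, pow_succ', mul_smul, smul_add, add_assoc]
  refine ⟨β, fun b => ?_, fun l => ?_⟩
  · obtain ⟨a, c, h⟩ := h4 k b
    exact ⟨a, by rw [h, hk, add_zero]⟩
  induction l with
  | zero => simp
  | succ l ih =>
    intro hl a ⟨c, hc⟩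
    have h5 := he' a ((h3 a).symm.trans ((QuotientAddGroup.eq_zero_iff _).2
      ⟨p ^ l • c, by rw [← hc, pow_succ', mul_smul]; rfl⟩))
    choose a' ha' using h5
    obtain rfl : a = p • a' := funext fun i => by simp [ha']
    intro i
    rw [pow_succ', Pi.smul_apply, nsmul_eq_mul]
    exact mul_dvd_mul_left _ (ih (by omega) a' (hJ l hl _ ⟨c, hc.trans (map_nsmul β _ _)⟩) i)

theorem exists_mat (hk : ∀ b : B, p ^ k • b = 0)
    (h1 : (nsmulAddMonoidHom p : B →+ B).range.index = p ^ r)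
    (hJ : ∀ l < k, ∀ b : B, (∃ c, p ^ (l + 1) • c = p • b) → ∃ c, p ^ l • c = b)
    (c : Γ → B →+ B) (hc : ∀ γ δ b, c (γ * δ) b = c γ (c δ b)) :
    ∃ A : Γ → Matrix (Fin r) (Fin r) ℤ,
      (∀ γ δ i m, (p : ℤ) ^ k ∣ (A (γ * δ) - A γ * A δ) i m) ∧
      (∀ l ≤ k, ∀ γ, (∀ i m, (p : ℤ) ^ l ∣ (A γ - 1) i m) ↔ ∀ b, ∃ d, p ^ l • d = c γ b - b) ∧
      ∀ γ b, (¬ ∃ d, p ^ 1 • d = b) → c γ b = b → (p : ℤ) ^ k ∣ (A γ - 1).det := by
  obtain ⟨β, h2, h3⟩ := exists_coord hk h1 hJ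
  choose L hL using fun γ => Module.projective_lifting_property β ((c γ).toIntLinearMap ∘ₗ β) h2
  have h4 : ∀ γ a, β (LinearMap.toMatrix' (L γ) *ᵥ a) = c γ (β a) := fun γ a => by
    rw [← toLin'_apply, toLin'_toMatrix']
    exact LinearMap.congr_fun (hL γ) a
  have h5 : ∀ l a, (∀ i, (p : ℤ) ^ l ∣ a i) → ∃ d, p ^ l • d = β a := fun l a h => by
    choose a' ha' using h
    exact ⟨β a', by rw [← map_nsmul]; exact congrArg β (funext fun i => by simp [ha'])⟩
  have h6 : ∀ l ≤ k, ∀ X : Matrix (Fin r) (Fin r) ℤ, (∀ i m, (p : ℤ) ^ l ∣ X i m) ↔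
      ∀ a, ∃ d, p ^ l • d = β (X *ᵥ a) := fun l hl X =>
    ⟨fun h a => h5 l _ fun i => Finset.dvd_sum (s := Finset.univ) fun m _ => (h i m).mul_right (a m),
      fun h i m => by simpa using h3 l hl _ (h (Pi.single m 1)) i⟩
  refine ⟨fun γ => LinearMap.toMatrix' (L γ), fun γ δ => (h6 k le_rfl _).2 fun a => ⟨0, ?_⟩,
    fun l hl γ => ?_, fun γ b h7 h8 => ?_⟩
  · rw [sub_mulVec, ← mulVec_mulVec, map_sub, h4, h4, h4, hc, sub_self, smul_zero]
  · simp only [h6 l hl, sub_mulVec, map_sub, h4, one_mulVec, h2.forall]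
  · obtain ⟨a, rfl⟩ := h2 b
    obtain ⟨i, hi⟩ : ∃ i, ¬ (p : ℤ) ∣ a i := by
      by_contra! h
      exact h7 (h5 1 a fun i => by simpa using h i)
    have h9 := h3 k le_rfl ((LinearMap.toMatrix' (L γ) - 1) *ᵥ a)
      ⟨0, by rw [sub_mulVec, map_sub, h4, h8, one_mulVec, sub_self, smul_zero]⟩
    have h10 : (p : ℤ) ^ k ∣ ((LinearMap.toMatrix' (L γ) - 1).adjugate *ᵥ
        (LinearMap.toMatrix' (L γ) - 1) *ᵥ a) i := Finset.dvd_sum (s := Finset.univ) fun m _ =>
      (h9 m).mul_left ((LinearMap.toMatrix' (L γ) - 1).adjugate i m)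
    rw [mulVec_mulVec, adjugate_mul, smul_mulVec, one_mulVec] at h10
    exact (Nat.prime_iff_prime_int.1 hp.out).pow_dvd_of_dvd_mul_right _ hi h10

theorem lim_le {f : ℕ → ℤ} {z : ℤ_[p]} (h : Tendsto (fun k => (f k : ℤ_[p])) (hyperfilter ℕ) (𝓝 z))
    (l : ℕ) (h' : ∀ k ≥ l, (p : ℤ) ^ l ∣ f k) : ‖z‖ ≤ (p : ℝ) ^ (-l : ℤ) :=
  le_of_tendsto h.norm (Nat.hyperfilter_le_atTop (eventually_atTop.2 ⟨l, fun k hk =>
    PadicInt.norm_int_le_pow_iff_dvd.2 (h' k hk)⟩))

theorem lim_zero {f : ℕ → ℤ} {z : ℤ_[p]} (h : Tendsto (fun k => (f k : ℤ_[p])) (hyperfilter ℕ) (𝓝 z))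
    (h' : ∀ k, (p : ℤ) ^ k ∣ f k) : z = 0 := by
  refine norm_le_zero_iff.1 (ge_of_tendsto' (tendsto_pow_atTop_nhds_zero_of_lt_one
    (r := (p : ℝ)⁻¹) (by positivity) (inv_lt_one_of_one_lt₀ (by exact_mod_cast hp.out.one_lt)))
    fun l => ?_)
  simpa using lim_le h l fun k hk => (pow_dvd_pow _ hk).trans (h' k)

theorem exists_lim (A : ℕ → Γ → Matrix (Fin r) (Fin r) ℤ)
    (h1 : ∀ k γ δ i m, (p : ℤ) ^ k ∣ (A k (γ * δ) - A k γ * A k δ) i m)
    (h2 : ∀ k i m, (p : ℤ) ^ k ∣ (A k 1 - 1) i m) :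
    ∃ ρ : Γ →* Matrix (Fin r) (Fin r) ℤ_[p],
      (∀ γ l, (∀ k ≥ l, ∀ i m, (p : ℤ) ^ l ∣ (A k γ - 1) i m) →
        ∀ i m, ‖(ρ γ - 1) i m‖ ≤ (p : ℝ) ^ (-l : ℤ)) ∧
      (∀ γ, (∀ k, (p : ℤ) ^ k ∣ (A k γ - 1).det) → (ρ γ - 1).det = 0) ∧
      ∀ γ, ρ γ = 1 → ∀ l, ∃ k ≥ l, ∀ i m, (p : ℤ) ^ l ∣ (A k γ - 1) i m := by
  let φ := (Int.castRingHom ℤ_[p]).mapMatrix (m := Fin r)
  have : CompactSpace (Matrix (Fin r) (Fin r) ℤ_[p]) :=
    inferInstanceAs (CompactSpace (Fin r → Fin r → ℤ_[p]))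
  choose ρ _ hρ using fun γ => isCompact_univ.ultrafilter_le_nhds
    ((hyperfilter ℕ).map fun k => φ (A k γ)) (by simp)
  replace hρ : ∀ γ, Tendsto (fun k => φ (A k γ)) (hyperfilter ℕ) (𝓝 (ρ γ)) := hρ
  have h3 : ∀ {X : ℕ → Matrix (Fin r) (Fin r) ℤ} {Y}, Tendsto (fun k => φ (X k)) (hyperfilter ℕ) (𝓝 Y) →
      ∀ i m, Tendsto (fun k => (X k i m : ℤ_[p])) (hyperfilter ℕ) (𝓝 (Y i m)) := fun h i m =>
    tendsto_pi_nhds.1 (tendsto_pi_nhds.1 h i) m
  have h4 : ∀ γ, Tendsto (fun k => φ (A k γ - 1)) (hyperfilter ℕ) (𝓝 (ρ γ - 1)) := fun γ => by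
    simpa only [map_sub, map_one] using (hρ γ).sub_const 1
  refine ⟨{ toFun := ρ
            map_one' := sub_eq_zero.1 (Matrix.ext fun i m => lim_zero (h3 (h4 1) i m) (h2 · i m))
            map_mul' := fun γ δ => sub_eq_zero.1 (Matrix.ext fun i m =>
              lim_zero (h3 (X := fun k => A k (γ * δ) - A k γ * A k δ) ?_ i m) (h1 · γ δ i m)) },
    fun γ l h i m => lim_le (h3 (h4 γ) i m) l fun k hk => h k hk i m, fun γ h => lim_zero ?_ h,
    fun γ h l => ?_⟩
  · simpa only [map_sub, map_mul] using (hρ _).sub ((hρ γ).mul (hρ δ))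
  · have := ((continuous_id.matrix_det).tendsto _).comp (h4 γ)
    exact this.congr fun k => ((Int.castRingHom ℤ_[p]).map_det _).symm
  · have h5 : ∀ᶠ k in hyperfilter ℕ, ∀ i m, (p : ℤ) ^ l ∣ (A k γ - 1) i m :=
      eventually_all.2 fun i => eventually_all.2 fun m => by
        have h5 := (h3 (h4 γ) i m).norm
        rw [show ρ γ = 1 from h, sub_self, Matrix.zero_apply, norm_zero] at h5
        exact (h5.eventually_le_const (zpow_pos (by exact_mod_cast hp.out.pos) _)).mono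
          fun k => PadicInt.norm_int_le_pow_iff_dvd.1
    exact (Eventually.and (Nat.hyperfilter_le_atTop (eventually_ge_atTop l)) h5).exists

theorem root_eq_one (X : Matrix (Fin r) (Fin r) (PadicAlgCl p))
    (h : ∀ (n : ℕ) i m, ‖(X ^ n - 1 : Matrix _ _ _) i m‖ ≤ (p : ℝ) ^ (-(2 : ℕ) : ℤ)) {ζ : PadicAlgCl p} {m : ℕ}
    (hm : 0 < m) (h1 : ζ ^ m = 1) {v : Fin r → PadicAlgCl p} (hv : v ≠ 0) (h2 : X *ᵥ v = ζ • v) :
    ζ = 1 := by
  have h0 : (0 : ℝ) ≤ (p : ℝ) ^ (-(2 : ℕ) : ℤ) := by positivity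
  have h3 : ∀ n, ‖1 - ζ ^ n‖ ≤ (p : ℝ) ^ (-(2 : ℕ) : ℤ) := fun n => by
    have h3 : X ^ n *ᵥ v = ζ ^ n • v := by
      induction n with
      | zero => simp
      | succ n ih => rw [pow_succ, ← mulVec_mulVec, h2, mulVec_smul, ih, smul_smul, pow_succ']
    have h4 : ‖(X ^ n - 1) *ᵥ v‖ ≤ (p : ℝ) ^ (-(2 : ℕ) : ℤ) * ‖v‖ :=
      (pi_norm_le_iff_of_nonneg (by positivity)).2 fun i =>
        IsUltrametricDist.norm_sum_le_of_forall_le_of_nonneg (s := Finset.univ)
          (f := fun m => (X ^ n - 1 : Matrix _ _ _) i m * v m) (by positivity) fun m _ =>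
          (norm_mul _ _).trans_le (mul_le_mul (h n i m) (norm_le_pi_norm v m) (norm_nonneg _) h0)
    rw [sub_mulVec, h3, one_mulVec, ← one_smul (PadicAlgCl p) v, smul_smul, mul_one, ← sub_smul,
      norm_smul, norm_sub_rev, one_smul] at h4
    exact le_of_mul_le_mul_right h4 (norm_pos_iff.2 hv)
  by_contra h4
  obtain ⟨q, hq, c, hc⟩ := Nat.exists_prime_and_dvd (orderOf_eq_one_iff.not.2 h4)
  have h5 := (isOfFinOrder_iff_pow_eq_one.2 ⟨m, hm, h1⟩).orderOf_pos
  have h6 : ζ ^ c ≠ 1 := pow_ne_one_of_lt_orderOf (by rintro rfl; omega)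
    (by nlinarith [hq.two_le, Nat.pos_of_mul_pos_left (hc ▸ h5)])
  have h7 : ∑ i ∈ Finset.range q, (ζ ^ c) ^ i = 0 := by
    have := geom_sum_mul (ζ ^ c) q
    rw [← pow_mul, mul_comm c, ← hc, pow_orderOf_eq_one, sub_self] at this
    exact (mul_eq_zero.1 this).resolve_right (sub_ne_zero.2 h6)
  have h8 : ‖∑ i ∈ Finset.range q, (1 - (ζ ^ c) ^ i)‖ ≤ (p : ℝ) ^ (-(2 : ℕ) : ℤ) :=
    IsUltrametricDist.norm_sum_le_of_forall_le_of_nonneg h0 fun i _ => pow_mul ζ c i ▸ h3 _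
  rw [Finset.sum_sub_distrib, h7, sub_zero, Finset.sum_const, Finset.card_range, nsmul_one,
    ← map_natCast (algebraMap ℚ_[p] (PadicAlgCl p)), PadicAlgCl.norm_extends, ← Int.cast_natCast,
    Padic.norm_int_le_pow_iff_dvd, ← Nat.cast_pow, Int.natCast_dvd_natCast] at h8
  exact hp.out.ne_one (hq.squarefree p (sq p ▸ h8) |> Nat.isUnit_iff.1)

end Pool.Agent.P.MP_5ee5b4_al
end

-- part Pool.Agent.P.MP_5ee5b4_al.TTow
section

/-! The Frattini tower of a group of rank three stabilizes. -/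

namespace Pool.Agent.P.MP_5ee5b4_al

open Subgroup Matrix
open scoped commutatorElement

variable {Γ : Type} [Group Γ] {p : ℕ}

/-- the rank is at most three -/
def Rk (p : ℕ) (Γ : Type) [Group Γ] : Prop :=
  ∀ V : Subgroup Γ, V.FiniteIndex → ∃ d ≤ 3, (Fr p V).relIndex V = p ^ d

/-- the tower of the whole group -/
abbrev Ut (p : ℕ) (Γ : Type) [Group Γ] (i : ℕ) : Subgroup Γ := It p ⊤ i

theorem pow_mem_Ut {i : ℕ} {x : Γ} (h : x ∈ Ut p Γ i) (m : ℕ) : x ^ p ^ m ∈ Ut p Γ (i + m) :=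
  (It_add ⊤ i m).le (pow_mem_It h m)

theorem commute_mk {W : Subgroup Γ} [W.Normal] {x y : Γ} (h : ⁅x, y⁆ ∈ W) :
    Commute (QuotientGroup.mk' W x) (QuotientGroup.mk' W y) :=
  commutatorElement_eq_one_iff_commute.1 ((map_commutatorElement _ x y).symm.trans
    ((QuotientGroup.eq_one_iff _).2 h))

theorem comm_map_bot {W S T : Subgroup Γ} [W.Normal] :
    ⁅S.map (QuotientGroup.mk' W), T.map (QuotientGroup.mk' W)⁆ = ⊥ ↔ ⁅S, T⁆ ≤ W := by
  rw [← map_commutator, Subgroup.map_eq_bot_iff, QuotientGroup.ker_mk']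

theorem pow_inj {i₀ : ℕ} (h2 : ∀ j ≥ i₀, ⁅Ut p Γ j, Ut p Γ i₀⁆ ≤ Ut p Γ (j + 2))
    (hI : ∀ j ≥ i₀, ∀ x ∈ Ut p Γ j, x ^ p ∈ Ut p Γ (j + 2) → x ∈ Ut p Γ (j + 1)) {i : ℕ}
    (hi : i₀ ≤ i) {x y : Γ} (hx : x ∈ Ut p Γ i) (hy : y ∈ Ut p Γ i) (k : ℕ)
    (h : (x ^ p)⁻¹ * y ^ p ∈ Ut p Γ (i + k + 1)) : x⁻¹ * y ∈ Ut p Γ (i + k) := by
  induction k with
  | zero => exact mul_mem (inv_mem hx) hy
  | succ k ih =>
    have h3 := ih (It_anti ⊤ (by omega) h)
    refine hI (i + k) (by omega) _ h3 ((QuotientGroup.eq_one_iff _).1 ?_)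
    have h4 := (commute_mk (h2 (i + k) (by omega)
      (commutator_mem_commutator h3 (It_anti ⊤ hi hx)))).symm.mul_pow p
    rw [← map_mul, mul_inv_cancel_left, ← map_pow, ← map_pow, ← map_pow] at h4
    exact (mul_eq_left.1 (h4.symm.trans (QuotientGroup.eq.2 h).symm))

theorem pow_inj' {i₀ : ℕ} (h2 : ∀ j ≥ i₀, ⁅Ut p Γ j, Ut p Γ i₀⁆ ≤ Ut p Γ (j + 2))
    (hI : ∀ j ≥ i₀, ∀ x ∈ Ut p Γ j, x ^ p ∈ Ut p Γ (j + 2) → x ∈ Ut p Γ (j + 1))
    {x y : Γ} (hx : x ∈ Ut p Γ i₀) (hy : y ∈ Ut p Γ i₀) (l m : ℕ)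
    (h : (x ^ p ^ m)⁻¹ * y ^ p ^ m ∈ Ut p Γ (i₀ + m + l)) : x⁻¹ * y ∈ Ut p Γ (i₀ + l) := by
  induction m with
  | zero => simpa using h
  | succ m ih =>
    refine ih (pow_inj h2 hI (by omega) (pow_mem_Ut hx m) (pow_mem_Ut hy m) l ?_)
    rw [← pow_mul, ← pow_mul, ← pow_succ]
    exact It_anti ⊤ (by omega) h

variable [hp : Fact p.Prime]

theorem Rk.fi (h : Rk p Γ) : ∀ i, (Ut p Γ i).FiniteIndex
  | 0 => inferInstanceAs (⊤ : Subgroup Γ).FiniteIndex
  | i + 1 => ⟨by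
    obtain ⟨d, -, hd⟩ := h _ (h.fi i)
    exact (relIndex_mul_index (Fr_le _)).symm.trans_ne
      (mul_ne_zero (hd.trans_ne (pow_ne_zero _ hp.out.ne_zero)) (h.fi i).1)⟩

omit hp in
theorem pgroup_Ut (m : ℕ) : IsPGroup p (Γ ⧸ Ut p Γ m) := fun x => by
  obtain ⟨x, rfl⟩ := QuotientGroup.mk_surjective x
  exact ⟨m, (QuotientGroup.eq_one_iff (x ^ p ^ m)).2 (pow_mem_It (mem_top x) m)⟩

theorem Rk.pe (h : Rk p Γ) (k : ℕ) : ∃ n, ∀ j ≥ n, ⁅Ut p Γ j, Ut p Γ n⁆ ≤ Ut p Γ (j + k) := by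
  refine ⟨((p ^ 3) ^ k).factorial, fun j hj => comm_map_bot.1 ?_⟩
  have := h.fi (j + k)
  have hP := pgroup_Ut (p := p) (Γ := Γ) (j + k)
  have := hP.isNilpotent
  have hπ := QuotientGroup.mk'_surjective (Ut p Γ (j + k))
  refine pow_emb _ (p ^ k) (fun N _ h1 h2 => bot_of_comm ?_) _ (Normal.map inferInstance _ hπ)
    (map_mono (It_anti ⊤ hj)) ?_
  · have h3 := card_le_pow (c := p ^ 3) (fun S hS => ?_) k N h1 h2
    · rintro x hx _ ⟨y, hy, rfl⟩
      have h4 := It_le_ker ((MulAut.conjNormal (H := N)).comp (QuotientGroup.mk' _))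
        ((hP.of_surjective _ (MulAut.conjNormal (H := N)).rangeRestrict_surjective).to_le
          (by rintro _ ⟨x, rfl⟩; exact ⟨_, rfl⟩))
        ((Nat.card_le_card_of_injective _ MulEquiv.toEquiv_injective).trans
          (Nat.card_perm.trans_le (Nat.factorial_le h3))) hy
      exact (mul_inv_eq_iff_eq_mul.1 (congrArg (fun e : MulAut N => (e ⟨x, hx⟩).1) h4)).symm
    · obtain ⟨d, h3, h4⟩ := h (S.comap (QuotientGroup.mk' _)) ⟨by
        rw [index_comap_of_surjective _ hπ]; exact FiniteIndex.index_ne_zero⟩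
      rw [← map_comap_eq_self_of_surjective hπ S, ← relIndex_ker]
      refine (relIndex_le_of_le_left ?_ (h4.trans_ne (pow_ne_zero _ hp.out.ne_zero))).trans
        (h4.trans_le (Nat.pow_le_pow_right hp.out.pos h3))
      rw [← Subgroup.map_eq_bot_iff, Fr_map, map_comap_eq_self_of_surjective hπ S, hS]
  · rintro _ ⟨x, hx, rfl⟩
    exact (QuotientGroup.eq_one_iff (x ^ p ^ k)).2 (pow_mem_Ut hx k)

theorem Rk.step (h : Rk p Γ) {j : ℕ} (hj : ⁅Ut p Γ j, Ut p Γ j⁆ ≤ Ut p Γ (j + 2)) :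
    (Ut p Γ (j + 2)).relIndex (Ut p Γ (j + 1)) ≤ (Ut p Γ (j + 1)).relIndex (Ut p Γ j) ∧
    ((Ut p Γ (j + 1)).relIndex (Ut p Γ j) ≤ (Ut p Γ (j + 2)).relIndex (Ut p Γ (j + 1)) →
      ∀ x ∈ Ut p Γ j, x ^ p ∈ Ut p Γ (j + 2) → x ∈ Ut p Γ (j + 1)) := by
  have := h.fi (j + 1)
  have h1 := comm_map_bot.2 hj
  let θ := (powHom h1 (p ^ 1)).comp ((QuotientGroup.mk' _).subgroupMap (Ut p Γ j))
  have h2 : θ.ker.index = (Ut p Γ (j + 2)).relIndex (Ut p Γ (j + 1)) := by
    rw [index_ker, MonoidHom.range_comp, MonoidHom.range_eq_top.2 (MonoidHom.subgroupMap_surjective _ _),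
      ← MonoidHom.range_eq_map, ← It_ab, ← It_map, ← relIndex_ker, QuotientGroup.ker_mk', It_add]
  have h3 : ∀ x : Ut p Γ j, x ∈ θ.ker ↔ x.1 ^ p ∈ Ut p Γ (j + 2) := fun x => by
    rw [← QuotientGroup.eq_one_iff (x.1 ^ p)]
    exact iff_of_eq (congrArg (fun n => ((x.1 ^ n : Γ) : Γ ⧸ Ut p Γ (j + 2)) = 1) (pow_one p))
  have h4 : (Ut p Γ (j + 1)).subgroupOf (Ut p Γ j) ≤ θ.ker := fun x hx => (h3 x).2 (pow_mem_Fr hx)
  refine ⟨h2 ▸ index_antitone h4, fun h5 x hx h6 => ?_⟩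
  exact (h4.eq_of_not_lt fun h7 => (index_strictAnti h7).not_ge (h2 ▸ h5)).ge ((h3 ⟨x, hx⟩).2 h6)

theorem level {i₀ j k r : ℕ} (h2 : ∀ j ≥ i₀, ⁅Ut p Γ j, Ut p Γ i₀⁆ ≤ Ut p Γ (j + 2))
    (hI : ∀ j ≥ i₀, ∀ x ∈ Ut p Γ j, x ^ p ∈ Ut p Γ (j + 2) → x ∈ Ut p Γ (j + 1)) (hj : i₀ ≤ j)
    (hk : ⁅Ut p Γ j, Ut p Γ j⁆ ≤ Ut p Γ (j + (k + 1)))
    (hr : (Ut p Γ (j + 1)).relIndex (Ut p Γ j) = p ^ r) :
    ∃ A : Γ → Matrix (Fin r) (Fin r) ℤ,
      (∀ γ δ i m, (p : ℤ) ^ k ∣ (A (γ * δ) - A γ * A δ) i m) ∧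
      (∀ l ≤ k, ∀ γ, (∀ i m, (p : ℤ) ^ l ∣ (A γ - 1) i m) ↔
        ∀ x ∈ Ut p Γ j, x⁻¹ * (γ * x * γ⁻¹) ∈ Ut p Γ (j + l)) ∧
      ∀ γ, ∀ y ∈ Ut p Γ j, y ∉ Ut p Γ (j + 1) → y⁻¹ * (γ * y * γ⁻¹) ∈ Ut p Γ (j + (k + 1)) →
        (p : ℤ) ^ k ∣ (A γ - 1).det := by
  let π := QuotientGroup.mk' (Ut p Γ (j + (k + 1)))
  let S := (Ut p Γ j).map π
  have hS : ⁅S, S⁆ = ⊥ := comm_map_bot.2 hk
  have : S.Normal := Normal.map inferInstance _ (QuotientGroup.mk'_surjective _)
  let _ : CommGroup S := { (inferInstance : Group S) with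
    mul_comm := fun a b => Subtype.ext (comm_of_bot hS a.2 b.2) }
  let f : Additive (Ut p Γ j) →+ Additive S := MonoidHom.toAdditive (π.subgroupMap (Ut p Γ j))
  have hf : Function.Surjective f := π.subgroupMap_surjective _
  have hb : ∀ l ≤ k + 1, ∀ x, (∃ c, p ^ l • c = f x) ↔ x.toMul.1 ∈ Ut p Γ (j + l) := fun l hl x => by
    constructor
    · rintro ⟨c, hc⟩
      obtain ⟨y, rfl⟩ := hf c
      exact (mul_mem_cancel_left (inv_mem (pow_mem_Ut y.toMul.2 l))).1 (It_anti ⊤ (by omega)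
        (QuotientGroup.eq.1 (congrArg (fun z : Additive S => z.toMul.1) hc)))
    · intro h
      obtain ⟨y, hy⟩ := ((It_map π _ l).trans (It_ab hS l)).le ⟨_, (It_add ⊤ j l).ge h, rfl⟩
      exact ⟨Additive.ofMul y, Subtype.ext hy⟩
  let c : Γ → Additive S →+ Additive S := fun γ =>
    MonoidHom.toAdditive (MulAut.conjNormal (π γ)).toMonoidHom
  have hc : ∀ γ x, c γ (f x) - f x = f (Additive.ofMul ⟨x.toMul.1⁻¹ * (γ * x.toMul.1 * γ⁻¹),
      mul_mem (inv_mem x.toMul.2) (Normal.conj_mem inferInstance _ x.toMul.2 γ)⟩) := fun γ x => by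
    rw [sub_eq_neg_add]; rfl
  obtain ⟨A, h3, h4, h5⟩ := exists_mat (B := Additive S) (k := k + 1) (r := r) (fun b => by
    obtain ⟨x, rfl⟩ := hf b
    exact Subtype.ext ((QuotientGroup.eq_one_iff (x.toMul.1 ^ p ^ (k + 1))).2
      (pow_mem_Ut x.toMul.2 _))) (by
    rw [← AddSubgroup.index_comap_of_surjective _ hf, ← hr, relIndex, ← index_toAddSubgroup]
    exact congrArg _ (AddSubgroup.ext fun x => by
      simpa [mem_subgroupOf] using hb 1 (by omega) x)) (fun l hl b h => by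
    obtain ⟨x, rfl⟩ := hf b
    rw [← map_nsmul, hb _ hl] at h
    rw [hb _ hl.le]
    simpa using pow_inj h2 hI hj (one_mem _) x.toMul.2 l (by simpa [add_assoc] using h)) c fun γ δ b => by
      simp only [c, map_mul]; rfl
  refine ⟨A, fun γ δ i m => (pow_dvd_pow _ k.le_succ).trans (h3 γ δ i m), fun l hl γ => ?_,
    fun γ y h6 h7 h8 => (pow_dvd_pow _ k.le_succ).trans (h5 γ (f (Additive.ofMul ⟨y, h6⟩))
      ((hb 1 (by omega) _).not.2 h7) (sub_eq_zero.1 ((hc _ _).trans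
        (Subtype.ext ((QuotientGroup.eq_one_iff _).2 h8)))))⟩
  simp only [h4 l (by omega), hf.forall, hc, hb l (by omega)]
  exact ⟨fun h x hx => h (Additive.ofMul ⟨x, hx⟩), fun h x => h _ x.toMul.2⟩

theorem Rk.stab (h : Rk p Γ) (hA : AB Γ) (hF : NF2 Γ) : ∃ m, Ut p Γ (m + 1) = Ut p Γ m := by
  by_contra! hU
  choose n hn using h.pe
  let e : ℕ → ℕ := fun j => (Ut p Γ (j + 1)).relIndex (Ut p Γ j)
  have h0 : ∀ k, ∀ j ≥ n k, ⁅Ut p Γ j, Ut p Γ j⁆ ≤ Ut p Γ (j + k) := fun k j hj =>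
    (commutator_mono le_rfl (It_anti ⊤ hj)).trans (hn k j hj)
  obtain ⟨i₀, h1, he⟩ : ∃ i₀ ≥ n 2, ∀ j ≥ i₀, e j = e i₀ := by
    obtain ⟨⟨i₀, h1⟩, h2⟩ := exists_minimalFor_of_wellFoundedLT (fun _ : {j // n 2 ≤ j} => True)
      (fun j => e j) ⟨⟨_, le_rfl⟩, trivial⟩
    have h3 : ∀ j ≥ i₀, e j ≤ e i₀ := fun j hj => by
      induction j, hj using Nat.le_induction with
      | base => exact le_rfl
      | succ j hj ih => exact (h.step (h0 2 j (by omega))).1.trans ih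
    exact ⟨i₀, h1, fun j hj => (h3 j hj).antisymm (h2.2 (j := ⟨j, by omega⟩) trivial (h3 j hj))⟩
  have h2 : ∀ j ≥ i₀, ⁅Ut p Γ j, Ut p Γ i₀⁆ ≤ Ut p Γ (j + 2) := fun j hj =>
    (commutator_mono le_rfl (It_anti ⊤ h1)).trans (hn 2 j (by omega))
  have hI : ∀ j ≥ i₀, ∀ x ∈ Ut p Γ j, x ^ p ∈ Ut p Γ (j + 2) → x ∈ Ut p Γ (j + 1) := fun j hj =>
    (h.step (h0 2 j (by omega))).2 ((he j hj).trans (he (j + 1) (by omega)).symm).le
  obtain ⟨r, hr3, hr⟩ := h _ (h.fi i₀)
  choose A hA1 hA2 hA3 using fun k => level (j := i₀ + n (k + 1)) (k := k) h2 hI (by omega)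
    (h0 _ _ (by omega)) ((he _ (by omega)).trans hr)
  obtain ⟨ρ, h3, h4, h5⟩ := exists_lim A hA1 fun k => (hA2 k k le_rfl 1).2 fun x _ => by simp
  let φ := (algebraMap ℚ_[p] (PadicAlgCl p)).comp (algebraMap ℤ_[p] ℚ_[p])
  have hφ : ∀ z, ‖φ z‖ = ‖z‖ := fun z => PadicAlgCl.norm_extends p _
  let σ : Representation (PadicAlgCl p) (Ut p Γ i₀) (Fin r → PadicAlgCl p) :=
    (toLinAlgEquiv' (R := PadicAlgCl p)).toMonoidHom.comp
      (φ.mapMatrix.toMonoidHom.comp (ρ.comp (Ut p Γ i₀).subtype))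
  have hσ : ∀ x v, σ x v = φ.mapMatrix (ρ x) *ᵥ v := fun x v => toLinAlgEquiv'_apply _ _
  have h6 := tits (padicAlgCl_le p) r _ _ (by simp) hr3 (hA.sub (h.fi i₀)) (hF.sub _) σ
    (fun x ζ m hm h6 h7 => (injective_iff_map_eq_zero _).2 fun v hv => by_contra fun h8 =>
      h7 (root_eq_one (φ.mapMatrix (ρ x)) (fun s i m => ?_) hm h6 h8
        (by simpa [hσ, sub_eq_zero] using hv))) fun _ x => ?_
  · have h7 := hA _ (fi_map (h.fi i₀) h6)
    generalize hH : (MonoidHom.ker σ).map (Ut p Γ i₀).subtype = H at h7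
    have h8 : ∀ l, ⁅H, H⁆ ≤ Ut p Γ (i₀ + l) := fun l => by
      rw [← hH, commutator_le]
      rintro _ ⟨x, hx, rfl⟩ _ ⟨y, hy, rfl⟩
      obtain ⟨k, h8, h9⟩ := h5 y (Matrix.map_injective (show Function.Injective φ from
        (algebraMap ℚ_[p] _).injective.comp Subtype.val_injective)
          ((toLinAlgEquiv'.injective (hy.trans (map_one _).symm)).trans
            (map_one φ.mapMatrix).symm)) l
      have h10 := (hA2 k l h8 _).1 h9 _ (pow_mem_Ut (inv_mem x.2) (n (k + 1)))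
      rw [← conj_pow] at h10
      simpa [commutatorElement_def, mul_assoc] using pow_inj' h2 hI (inv_mem x.2)
        (Normal.conj_mem inferInstance _ (inv_mem x.2) _) l _ h10
    have h9 : StrictMono fun l => (Ut p Γ l).index := strictMono_nat_of_lt_succ fun l =>
      have := h.fi (l + 1)
      index_strictAnti ((Fr_le _).lt_of_ne (hU l))
    have h10 := (h9.id_le _).trans (index_antitone (h8 (⁅H, H⁆.index + 1)))
    simp only [id] at h10
    omega
  · rw [← map_pow, ← map_pow, ← map_one φ.mapMatrix, ← map_sub]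
    refine (hφ _).trans_le (h3 _ 2 (fun k hk => (hA2 k 2 hk _).2 fun y hy => ?_) i m)
    simpa [commutatorElement_def, mul_assoc] using h2 _ (by omega)
      (commutator_mem_commutator (inv_mem hy) (pow_mem x.2 s))
  · have h6 : ∀ j ≥ i₀, x.1 ∈ Ut p Γ j ∨ ∃ y ∈ Ut p Γ j, y ∉ Ut p Γ (j + 1) ∧ Commute x.1 y :=
      fun j hj => by
        induction j, hj using Nat.le_induction with
        | base => exact Or.inl x.2
        | succ j hj ih =>
          by_cases h6 : x.1 ∈ Ut p Γ (j + 1)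
          · exact Or.inl h6
          obtain ⟨y, h7, h8, h9⟩ := ih.elim (fun h => ⟨_, h, h6, Commute.refl _⟩) id
          exact Or.inr ⟨_, pow_mem_Fr h7, fun h => h8 (hI j hj y h7 h), h9.pow_right p⟩
    obtain ⟨v, h7, h8⟩ := exists_mulVec_eq_zero_iff.2 (show (φ.mapMatrix (ρ x - 1)).det = 0 by
      rw [← φ.map_det, h4 _ fun k => ?_, map_zero]
      rcases h6 (i₀ + n (k + 1)) (by omega) with h7 | ⟨y, h7, h8, h9⟩
      · obtain ⟨y, h8, h9⟩ := SetLike.exists_of_lt ((Fr_le _).lt_of_ne (hU (i₀ + n (k + 1))))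
        refine hA3 k _ y h8 h9 ?_
        simpa [commutatorElement_def, mul_assoc] using h0 _ _ (by omega)
          (commutator_mem_commutator (inv_mem h8) h7)
      · exact hA3 k _ y h7 h8 (by simp [h9.eq]))
    refine Module.End.hasEigenvalue_of_hasEigenvector (x := v)
      ⟨Module.End.mem_eigenspace_iff.2 ?_, h7⟩
    rw [map_sub, map_one, sub_mulVec, one_mulVec, sub_eq_zero] at h8
    rw [hσ, h8, one_smul]

end Pool.Agent.P.MP_5ee5b4_al
end

-- part Pool.Agent.P.MP_5ee5b4_al.TFin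
section

/-! A smallest subgroup of finite index. -/

namespace Pool.Agent.P.MP_5ee5b4_al

open Subgroup
open scoped commutatorElement

variable {Γ Q : Type} [Group Γ] [Group Q] {p : ℕ}

/-- rank two forces growth of the tower -/
def G2 (p : ℕ) (L : Subgroup Γ) : Prop :=
  ∀ V ≤ L, V.FiniteIndex → Fr p (Fr p V) = Fr p V → (Fr p V).relIndex V ≤ p

theorem Rk.sub (h : Rk p Γ) {H : Subgroup Γ} (hH : H.FiniteIndex) : Rk p H := fun V hV => by
  rw [← relIndex_map_map_of_injective _ _ H.subtype_injective, Fr_map]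
  exact h _ (fi_map hH hV)

theorem G2.sub {L H : Subgroup Γ} (h : G2 p L) (hH : H.FiniteIndex) (hL : H ≤ L) :
    G2 p (⊤ : Subgroup H) := fun V _ hV e => by
  rw [← relIndex_map_map_of_injective _ _ H.subtype_injective, Fr_map]
  exact h _ ((map_subtype_le _).trans hL) (fi_map hH hV) (by rw [← Fr_map, ← Fr_map, e])

theorem sylow_shape [hp : Fact p.Prime] (hA : AB Γ) (hF : NF2 Γ) (hR : Rk p Γ)
    (hG : G2 p (⊤ : Subgroup Γ)) [Finite Q] (φ : Γ →* Q) (hφ : Function.Surjective φ)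
    (S : Subgroup Q) (hS : IsPGroup p S) : ∃ a : Q, ∀ y ∈ S, y ∉ zpowers a →
      p = 2 ∧ ∀ z ∈ S, z ∉ zpowers a → y⁻¹ * z ∈ zpowers a := by
  have hU : (S.comap φ).FiniteIndex := ⟨by
    rw [index_comap_of_surjective _ hφ]; exact FiniteIndex.index_ne_zero⟩
  obtain ⟨m, hm⟩ := (hR.sub hU).stab (hA.sub hU) (hF.sub _)
  have h1 : ∀ n, Ut p (S.comap φ) (m + n) = Ut p (S.comap φ) m := fun n => by
    induction n with
    | zero => rfl
    | succ n ih => exact (congrArg (Fr p) ih).trans hm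
  have h2 := (h1 (Nat.card Q)).ge.trans (It_le_ker (φ.comp (S.comap φ).subtype)
    (hS.to_le (by rintro _ ⟨x, rfl⟩; exact x.2)) (Nat.le_add_left _ m))
  have := (hR.sub hU).fi m
  have hπ := QuotientGroup.mk'_surjective (Ut p (S.comap φ) m)
  obtain ⟨a, ha⟩ := almost_cyclic (pgroup_Ut (p := p) (Γ := S.comap φ) m) fun T hT => by
    have h3 : Fr p (T.comap (QuotientGroup.mk' _)) = Ut p (S.comap φ) m := le_antisymm
      (((Subgroup.map_eq_bot_iff _).1 (by
        rw [Fr_map, map_comap_eq_self_of_surjective hπ T, hT])).trans (QuotientGroup.ker_mk' _).le)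
      (hm.ge.trans (Fr_mono ((QuotientGroup.ker_mk' _).ge.trans (ker_le_comap _ _))))
    rw [← map_comap_eq_self_of_surjective hπ T, ← relIndex_ker, QuotientGroup.ker_mk']
    have h4 := hG.sub hU le_top (T.comap (QuotientGroup.mk' _)) le_top ⟨by
      rw [index_comap_of_surjective _ hπ]; exact FiniteIndex.index_ne_zero⟩ (by rw [h3]; exact hm)
    rwa [h3] at h4
  let ψ := QuotientGroup.lift _ _ h2
  have h3 : ∀ x, x ∈ zpowers a → ψ x ∈ zpowers (ψ a) := fun x hx =>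
    ψ.map_zpowers a ▸ mem_map_of_mem ψ hx
  refine ⟨ψ a, fun y hy h4 => ?_⟩
  obtain ⟨y, rfl⟩ := hφ y
  obtain ⟨h5, h6⟩ := ha (QuotientGroup.mk ⟨y, hy⟩) fun h => h4 (h3 _ h)
  refine ⟨h5, fun z hz h7 => ?_⟩
  obtain ⟨z, rfl⟩ := hφ z
  simpa [ψ] using h3 _ (h6 (QuotientGroup.mk ⟨z, hz⟩) fun h => h7 (h3 _ h))

theorem exists_min (hA : AB Γ) (hF : NF2 Γ) (hR : ∀ p, p.Prime → Rk p Γ)
    (hG : ∀ p, p.Prime → G2 p (⊤ : Subgroup Γ)) :
    ∃ R : Subgroup Γ, R.FiniteIndex ∧ ∀ S : Subgroup Γ, S.FiniteIndex → R ≤ S := by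
  obtain ⟨N, h1, h2⟩ : ∃ N : Subgroup Γ, N.FiniteIndex ∧ ∀ (M : Subgroup Γ) [M.Normal]
      [M.FiniteIndex], M ≤ N → ∀ T ≤ N.map (QuotientGroup.mk' M), IsPGroup 2 T → IsCyclic T := by
    by_cases h : ∀ (M : Subgroup Γ) [M.Normal] [M.FiniteIndex] (P : Sylow 2 (Γ ⧸ M)), IsCyclic P
    · refine ⟨⊤, inferInstance, fun M _ _ _ T _ hT => ?_⟩
      obtain ⟨P, hP⟩ := hT.exists_le_sylow
      have := h M P
      exact isCyclic_of_le hP
    push Not at h
    obtain ⟨N, _, h1, P, hP⟩ := h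
    refine ⟨N, h1, fun M _ _ hM T h2 hT => ?_⟩
    obtain ⟨S, hS⟩ := hT.exists_le_sylow
    obtain ⟨a, ha⟩ := sylow_shape hA hF (hR 2 Nat.prime_two) (hG 2 Nat.prime_two) _
      (QuotientGroup.mk'_surjective M) S S.2
    by_cases h3 : T ≤ zpowers a
    · exact isCyclic_of_le h3
    obtain ⟨y, h4, h5⟩ := SetLike.not_le_iff_exists.1 h3
    let f := QuotientGroup.map M N (MonoidHom.id Γ) hM
    have hf : Function.Surjective f := fun q => by
      obtain ⟨q, rfl⟩ := QuotientGroup.mk_surjective q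
      exact ⟨q, rfl⟩
    have h6 : f y = 1 := by
      obtain ⟨y, hy, rfl⟩ := h2 h4
      exact (QuotientGroup.eq_one_iff y).2 hy
    have : IsCyclic (S.mapSurjective hf) := isCyclic_of_le (H' := zpowers (f a)) (by
      rintro _ ⟨z, hz, rfl⟩
      rw [← f.map_zpowers]
      by_cases h7 : z ∈ zpowers a
      · exact mem_map_of_mem f h7
      · simpa [h6] using mem_map_of_mem f ((ha y (hS h4) h5).2 z hz h7))
    exact absurd (isCyclic_of_surjective _ ((S.mapSurjective hf).equiv P).surjective) hP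
  refine ⟨_, hA _ (hA N h1), fun S hS => le_trans ?_ (inf_le_left.trans (normalCore_le S) :
    S.normalCore ⊓ N.normalCore ≤ S)⟩
  generalize hM : S.normalCore ⊓ N.normalCore = M
  have : M.Normal := hM ▸ inferInstance
  have : M.FiniteIndex := hM ▸ inferInstance
  have : IsZGroup (N.map (QuotientGroup.mk' M)) := ⟨fun p hp P => by
    have := Fact.mk hp
    suffices IsCyclic (P.1.map (Subgroup.subtype _)) from isCyclic_of_surjective _
      (P.1.equivMapOfInjective _ (subtype_injective _)).symm.surjective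
    by_cases h : p = 2
    · subst h
      exact h2 M (hM ▸ inf_le_right.trans (normalCore_le N)) _ (map_subtype_le _) (P.2.map _)
    obtain ⟨a, ha⟩ := sylow_shape hA hF (hR p hp) (hG p hp) _
      (QuotientGroup.mk'_surjective M) _ (P.2.map (Subgroup.subtype _))
    exact isCyclic_of_le (H' := zpowers a) fun y hy => by_contra fun h' => h (ha y hy h').1⟩
  have := IsZGroup.isCyclic_commutator (G := N.map (QuotientGroup.mk' M))
  rw [← comm_map_bot, map_commutator, ← map_subtype_commutator (N.map _), ← map_commutator,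
    (commutator_self_eq_bot_iff (H := _root_.commutator _)).2 inferInstance, Subgroup.map_bot]

end Pool.Agent.P.MP_5ee5b4_al
end

-- part Pool.Agent.P.MP_5ee5b4_al.TMain
section

/-! The dichotomy for normal subgroups without free subgroups. -/

namespace Pool.Agent.P.MP_5ee5b4_al

open Pool.Agent.P.MP_6e40fc_al
open scoped commutatorElement

section

variable {p : ℕ} [hp : Fact p.Prime] {K : Type} [Group K] {d : ℕ}

theorem growth_two (h2 : H2c p K d) {χ : Fin d → K → ZMod p} {x : Fin d → K}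
    (hχ : ∀ t, IsHom (χ t)) (hx : ∀ t i, χ t (x i) = if t = i then 1 else 0)
    (hd : 2 ≤ d) (Φ : Subgroup K) (hΦ : ∀ k, k ∈ Φ ↔ ∀ t, χ t k = 0) :
    ∃ φ : Φ → Fin 1 → ZMod p, IsHom φ ∧ Function.Surjective φ := by
  have hd' : 1 + d ≤ Fintype.card {st : Fin d × Fin d // st.1 ≤ st.2} := by
    rw [← Fintype.card_congr Sym2.sortEquiv, Sym2.card, Fintype.card_fin, Nat.choose_two_right,
      Nat.le_div_iff_mul_le two_pos, Nat.add_sub_cancel]
    nlinarith
  let c : K → K → {st : Fin d × Fin d // st.1 ≤ st.2} → ZMod p := fun k l st =>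
    if st.1.1 = st.1.2 then carry (χ st.1.1 k) (χ st.1.1 l) else χ st.1.1 k * χ st.1.2 l
  obtain ⟨v, b, hb⟩ := h2 _ c fun k l m => funext fun st => by
    simp only [c, Pi.add_apply, hχ _ k l, hχ _ l m]
    split_ifs
    · exact carry_coc _ _ _
    · ring
  set q := (Submodule.span (ZMod p) (Set.range v)).mkQ
  have h3 : ∀ k l, b (k * l) = b k + b l - q (c k l) := fun k l => by
    rw [show q (c k l) = _ from hb k l, sub_sub_cancel]
  have h4 : ∀ k ∈ Φ, ∀ l, b (k * l) = b k + b l := fun k hk l => by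
    have : c k l = 0 := funext fun st => by simp [c, (hΦ k).1 hk, carry_zero_left]
    rw [h3, this, map_zero, sub_zero]
  have h5 : IsHom fun k : Φ => b k := fun k l => h4 k k.2 l
  have h6 := h5.surj (p := p) fun Z hZ => by
    rw [eq_top_iff, ← Submodule.range_mkQ, ← Submodule.map_top, ← (Pi.basisFun _ _).span_eq,
      Submodule.map_span, Submodule.span_le]
    rintro _ ⟨_, ⟨⟨⟨s, t⟩, hst⟩, rfl⟩, rfl⟩
    refine Z.neg_mem_iff.1 ?_
    rcases eq_or_lt_of_le hst with h | h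
    · obtain rfl : s = t := h
      have h6 : ∀ j : ℕ, c (x s ^ j) (x s) = carry (j : ZMod p) 1 • Pi.single ⟨(s, s), hst⟩ 1 :=
        fun j => funext fun ⟨⟨a, e⟩, hae⟩ => by
          simp only [c, (hχ _).pow, hx, Pi.smul_apply, Pi.single_apply, Subtype.mk.injEq,
            Prod.mk.injEq]
          by_cases h1 : a = s <;> by_cases h2 : e = s <;> simp_all [carry_zero_left, eq_comm]
      have h7 : ∀ j : ℕ, j < p → b (x s ^ j) = j • b (x s) := fun j hj => by
        induction j with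
        | zero => rw [pow_zero, zero_smul]; exact h5.one
        | succ j ih =>
          rw [pow_succ, h3, ih (by omega), h6, carry, ZMod.val_natCast_of_lt (by omega), ZMod.val_one,
            Nat.div_eq_of_lt hj, succ_nsmul]
          simp
      obtain ⟨j, hj⟩ := Nat.exists_eq_succ_of_ne_zero hp.out.ne_zero
      have h8 : x s ^ (j + 1) ∈ Φ := (hΦ _).2 fun t => by
        rw [(hχ t).pow, ← Nat.succ_eq_add_one, ← hj, nsmul_eq_mul, ZMod.natCast_self, zero_mul]
      refine mem_of_eq (hZ ⟨_, h8⟩) ?_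
      change _ = b (x s ^ (j + 1))
      rw [pow_succ, h3, h7 j (by omega), h6, carry, ZMod.val_natCast_of_lt (by omega), ZMod.val_one,
        ← succ_nsmul, ← Nat.succ_eq_add_one, ← hj, Nat.div_self hp.out.pos,
        ← Nat.cast_smul_eq_nsmul (ZMod p), ZMod.natCast_self]
      simp [q]
    · have h' : s ≠ t := h.ne
      have h6 : c (x s) (x t) = Pi.single ⟨(s, t), hst⟩ 1 := funext fun ⟨⟨a, e⟩, hae⟩ => by
        simp only [c, hx, Pi.single_apply, Subtype.mk.injEq, Prod.mk.injEq]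
        by_cases h1 : a = s <;> by_cases h2 : e = t <;> by_cases h3 : a = e <;>
          simp_all [carry_zero_left, carry_zero_right]
      have h7 : c (x t) (x s) = 0 := funext fun ⟨⟨a, e⟩, hae⟩ => by
        simp only [c, hx, Pi.zero_apply]
        by_cases h1 : a = t
        · subst h1
          have : e ≠ s := (lt_of_lt_of_le h hae).ne'
          simp [this, h'.symm, carry_zero_right]
        · simp [h1, carry_zero_left]
      have h8 : x s * x t * (x t * x s)⁻¹ ∈ Φ := (hΦ _).2 fun r => by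
        rw [hχ, (hχ r).inv, hχ, hχ]; ring
      refine mem_of_eq (hZ ⟨_, h8⟩) ?_
      have h9 := h4 _ h8 (x t * x s)
      rw [inv_mul_cancel_right, h3 (x s), h3 (x t), h6, h7, map_zero, sub_zero] at h9
      rw [eq_sub_of_add_eq h9.symm]
      simp [q]
      abel
  have h7 := (Submodule.span (ZMod p) (Set.range v)).finrank_quotient_add_finrank
  have h8 := finrank_range_le_card (R := ZMod p) v
  rw [Module.finrank_fintype_fun_eq_card] at h7
  rw [Fintype.card_fin, Set.finrank] at h8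
  let L := LinearMap.funLeft (ZMod p) (ZMod p) (Fin.castLE (by omega : 1 ≤ _)) ∘ₗ
    (Module.finBasis (ZMod p) (_ ⧸ Submodule.span (ZMod p) (Set.range v))).equivFun.toLinearMap
  have hL : Function.Surjective L := by
    rw [LinearMap.coe_comp]
    exact (LinearMap.funLeft_surjective_of_injective _ _ _ (Fin.castLE_injective _)).comp
      (LinearEquiv.surjective _)
  exact ⟨fun k => L (b k), fun k l => by rw [← map_add]; exact congrArg L (h5 k l), hL.comp h6⟩

theorem IsHom.fr {ψ : K → ZMod p} (h : IsHom ψ) : Fr p ⊤ ≤ h.mk.ker :=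
  Fr_le_iff.2 ⟨Abelianization.commutator_subset_ker _, fun x _ => by
    change ψ (x ^ p) = 0
    rw [h.pow, nsmul_eq_mul, ZMod.natCast_self, zero_mul]⟩

theorem fr_basis {χ : Fin d → K → ZMod p} {x : Fin d → K} (h1 : ∀ t, IsHom (χ t))
    (h2 : ∀ t i, χ t (x i) = if t = i then 1 else 0)
    (h3 : ∀ ψ : K → ZMod p, IsHom ψ → ∃ a : Fin d → ZMod p, ∀ k, ψ k = ∑ t, a t * χ t k) :
    (∀ k, k ∈ Fr p ⊤ ↔ ∀ t, χ t k = 0) ∧ (Fr p (⊤ : Subgroup K)).index = p ^ d ∧
      Function.Surjective fun k t => χ t k := by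
  have h4 : ∀ k, k ∈ Fr p ⊤ ↔ ∀ t, χ t k = 0 := fun k => ⟨fun h t => (h1 t).fr h, fun h => by
    have := (Subgroup.Normal.quotient_commutative_iff_commutator_le (N := Fr p (⊤ : Subgroup K))).2
      (Fr_le_iff.1 le_rfl).1
    let _ : CommGroup (K ⧸ Fr p ⊤) := { (inferInstance : Group (K ⧸ Fr p ⊤)) with
      mul_comm := mul_comm' }
    obtain ⟨_⟩ : Nonempty (Module (ZMod p) (Additive (K ⧸ Fr p ⊤))) :=
      ⟨AddCommGroup.zmodModule fun y => by
        obtain ⟨y, rfl⟩ := QuotientGroup.mk_surjective (α := K) y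
        exact (QuotientGroup.eq_one_iff (y ^ p)).2 (pow_mem_Fr trivial)⟩
    refine (QuotientGroup.eq_one_iff k).1 ((Module.forall_dual_apply_eq_zero_iff (ZMod p)
      (Additive.ofMul (k : K ⧸ Fr p ⊤))).1 fun f => ?_)
    obtain ⟨a, ha⟩ := h3 (fun k => f (Additive.ofMul (k : K ⧸ Fr p ⊤))) fun a b =>
      f.map_add (Additive.ofMul (a : K ⧸ Fr p ⊤)) (Additive.ofMul (b : K ⧸ Fr p ⊤))
    simp [ha k, h]⟩
  have h5 : IsHom fun k t => χ t k := fun a b => funext fun t => h1 t a b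
  have h6 := h5.surj (p := p) fun Z hZ => by
    rw [eq_top_iff, ← (Pi.basisFun (ZMod p) (Fin d)).span_eq, Submodule.span_le]
    rintro _ ⟨i, rfl⟩
    exact mem_of_eq (hZ (x i)) (funext fun t => by simp [h2, Pi.single_apply])
  refine ⟨h4, ?_, h6⟩
  rw [show Fr p ⊤ = h5.mk.ker from Subgroup.ext fun k => (h4 k).trans funext_iff.symm,
    Subgroup.index_ker, MonoidHom.range_eq_top.2 h6, Subgroup.card_top,
    Nat.card_congr Multiplicative.toAdd, Nat.card_fun, Nat.card_zmod, Nat.card_eq_fintype_card,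
    Fintype.card_fin]

end

variable {Γ : Type} [Group Γ]

theorem Fr_top (p : ℕ) (V : Subgroup Γ) : (Fr p ⊤).map V.subtype = Fr p V := by
  rw [Fr_map, ← MonoidHom.range_eq_map, Subgroup.range_subtype]

theorem Fr_relIndex (p : ℕ) (V : Subgroup Γ) :
    (Fr p V).relIndex V = (Fr p (⊤ : Subgroup V)).index := by
  rw [← Fr_top, Subgroup.relIndex, Subgroup.subgroupOf,
    Subgroup.comap_map_eq_self_of_injective V.subtype_injective]

theorem rk_of_nf (hG : IsPD 3 Γ) (hN : NF (⊤ : Subgroup Γ)) (p : ℕ) (hp : p.Prime) : Rk p Γ :=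
  fun V _ => by
    have := Fact.mk hp
    have := IsPD.fg hG
    obtain ⟨d, χ, x, h1, h2, h3, -⟩ := exists_basis_hom p V
    obtain ⟨-, h4, h5⟩ := fr_basis h1 h2 h3
    refine ⟨d, not_lt.1 fun h => not_nf_of_rank hG V (fun k t => χ (Fin.castLE h t) k)
      (fun a b => funext fun t => h1 _ a b) ?_ hN, (Fr_relIndex p V).trans h4⟩
    exact (LinearMap.funLeft_surjective_of_injective (ZMod p) (ZMod p) _
      (Fin.castLE_injective h)).comp h5

theorem exists_g2 (hG : IsPD 3 Γ) : ∃ L : Subgroup Γ, L.FiniteIndex ∧ ∀ p, p.Prime → G2 p L := by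
  classical
  have := IsPD.fg hG
  obtain ⟨w, hw⟩ := exists_dd hG
  obtain ⟨T, hT, -⟩ := exists_family this 1
  obtain ⟨hfg, ⟨D⟩⟩ := hw T Subtype.val hT
  refine ⟨w.ker, inferInstance, fun p hp V hV _ h => ?_⟩
  have := Fact.mk hp
  obtain ⟨d, χ, x, h1, h2, h3, -⟩ := exists_basis_hom p V
  obtain ⟨h4, h5, -⟩ := fr_basis h1 h2 h3
  rw [Fr_relIndex, h5]
  refine (Nat.pow_le_pow_right hp.pos (not_lt.1 fun h6 => ?_)).trans (pow_one p).le
  obtain ⟨φ, h7, h8⟩ := growth_two (fun _ _ _ c hc => D.h2c hT hfg V (fun k a => by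
    rw [show w k = 1 from hV k.2, Units.val_one, one_smul]) χ h1 h3 c hc) h1 h2 h6 _ h4
  have h9 : Fr p (⊤ : Subgroup (Fr p (⊤ : Subgroup V))) = ⊤ :=
    Subgroup.map_injective (Subgroup.subtype_injective _) (Subgroup.map_injective
      V.subtype_injective (by
        rw [Fr_top, Fr_map, ← MonoidHom.range_eq_map, Subgroup.range_subtype, Fr_top, h]))
  obtain ⟨k, hk⟩ := h8 1
  have h10 : φ k 0 = 0 := IsHom.fr (ψ := fun k => φ k 0) (fun a b => congrFun (h7 a b) 0)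
    (h9.ge trivial)
  rw [hk] at h10
  exact one_ne_zero h10

theorem ab_of_not_vb (hG : IsPD 3 Γ) (h : ¬ VB Γ) : AB Γ := fun H hH => by
  have := IsPD.fg hG
  rw [← H.map_subtype_commutator]
  refine fi_map hH (by_contra fun h1 => ?_)
  have : Infinite (Abelianization H) :=
    not_finite_iff_infinite.1 fun h2 => h1 (@Subgroup.finiteIndex_of_finite_quotient _ _ _ h2)
  have : Group.FG (Abelianization H) :=
    Group.fg_of_surjective (f := Abelianization.of) QuotientGroup.mk_surjective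
  obtain ⟨χ, a, ha⟩ := exists_char (Abelianization H) mul_comm
  obtain ⟨a, rfl⟩ := QuotientGroup.mk_surjective a
  exact h ⟨H, hH, χ.comp Abelianization.of, a, ha⟩

theorem NoFree.nf2 {N L : Subgroup Γ} (h : NoFree N) (hL : L ≤ N) : NF2 L := fun ⟨f, hf⟩ => by
  have hf' : Function.Injective (L.subtype.comp f) := L.subtype_injective.comp hf
  have h2 := h (L.subtype.comp f).range (by rintro _ ⟨x, rfl⟩; exact hL (f x).2)
    (IsFreeGroup.ofMulEquiv (MonoidHom.ofInjective hf'))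
    ⟨_, FreeGroup.of 0, rfl⟩ ⟨_, FreeGroup.of 1, rfl⟩
  have h3 : (FreeGroup.of 0 * FreeGroup.of 1 : FreeGroup (Fin 2)) =
      FreeGroup.of 1 * FreeGroup.of 0 := hf' (by
    rw [map_mul, map_mul]; exact congrArg Subtype.val h2)
  exact absurd h3 (by decide)

theorem residual_final (hG : IsPD3 Γ) (N : Subgroup Γ) (hn : N.Normal) (hN : NoFree N) :
    (∃ K : Subgroup N, K.FiniteIndex ∧ Group.IsSolvable K) ∨
      ∃ T : Subgroup Γ, T.Normal ∧ T ≤ N ∧ T ≠ ⊥ ∧ (∀ S : Subgroup T, S.FiniteIndex → S = ⊤) ∧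
        (T.FiniteIndex ∨ (¬ N.FiniteIndex ∧ T = ⁅N, N⁆)) := by
  by_cases hi : N.FiniteIndex
  swap
  · refine (infinite_index_final hG N hn hN hi).imp_right fun ⟨_, h1, _, h2⟩ =>
      ⟨_, inferInstance, N.commutator_le_self, h1, fun S _ => ?_, Or.inr ⟨hi, rfl⟩⟩
    have := (h2 _ N.commutator_le_self).2.2.1 _ _ (QuotientGroup.mk'_surjective S.normalCore)
    refine eq_top_iff.2 (le_trans (Subgroup.map_injective (Subgroup.subtype_injective _) ?_).ge
      ((Subgroup.Normal.quotient_commutative_iff_commutator_le.1 inferInstance).trans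
        S.normalCore_le))
    rw [Subgroup.map_subtype_commutator, (h2 N le_rfl).2.1, ← MonoidHom.range_eq_map,
      Subgroup.range_subtype]
  have h1 := NF.top hN.nf
  by_cases h2 : VB Γ
  · exact Or.inl ((h2.vs hG h1).sub N)
  obtain ⟨L, h3, h4⟩ := exists_g2 (Γ := Γ) hG
  have h5 : (L ⊓ N).FiniteIndex := inferInstance
  obtain ⟨R, h6, h7⟩ := exists_min ((ab_of_not_vb hG h2).sub h5) (hN.nf2 inf_le_right)
    (fun p hp => (rk_of_nf hG h1 p hp).sub h5) fun p hp => (h4 p hp).sub h5 inf_le_left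
  have h8 := fi_map h5 h6
  have h9 : ∀ S : Subgroup Γ, S.FiniteIndex → R.map (L ⊓ N).subtype ≤ S := fun S _ =>
    Subgroup.map_le_iff_le_comap.2 (h7 _ (Subgroup.instFiniteIndex_subgroupOf _ _))
  generalize R.map (L ⊓ N).subtype = T at h8 h9
  by_cases h10 : T = ⊥
  · subst h10
    refine Or.inl ⟨_, Subgroup.instFiniteIndex_subgroupOf ⊥ N, ?_⟩
    rw [Subgroup.bot_subgroupOf]
    infer_instance
  refine Or.inr ⟨T, (T.normalCore_le.antisymm (h9 _ inferInstance)) ▸ inferInstance, h9 N hi, h10,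
    fun S hS => eq_top_iff.2 fun x _ => ?_, Or.inl h8⟩
  obtain ⟨y, h11, h12⟩ := h9 _ (fi_map h8 hS) x.2
  exact (Subtype.ext h12 : y = x) ▸ h11

end Pool.Agent.P.MP_5ee5b4_al
end
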